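import Pool.Agent.MaxTerm.PartA.CritLoc

/-!
# Part A: contact set and multipliers of the minimiser (`exists_crit_of`)
-/

open Filter Topology ComplexConjugate

namespace MaxTerm.PA

open Chk.Crt

/-! ### perturbation of the finite parts -/

theorem pert {a b a' b' : ℂ} {e1 e2 A B : ℝ} (ha : ‖a - a'‖ ≤ e1) (hb : ‖b - b'‖ ≤ e2)
    (hA : ‖a'‖ ≤ A) (hB : ‖b'‖ ≤ B) : ‖conj a * b - conj a' * b'‖ ≤ e1 * (B + e2) + A * e2 := by
  have e : conj a * b - conj a' * b' = conj (a - a') * b + conj a' * (b - b') := by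
    rw [map_sub]; ring
  have hb' : ‖b‖ ≤ B + e2 := by
    have h := norm_add_le b' (b - b')
    rw [add_sub_cancel] at h
    linarith
  rw [e]
  refine (norm_add_le _ _).trans ?_
  rw [norm_mul, norm_mul, RCLike.norm_conj, RCLike.norm_conj]
  exact add_le_add (mul_le_mul ha hb' (norm_nonneg _) ((norm_nonneg _).trans ha))
    (mul_le_mul hA hb (norm_nonneg _) ((norm_nonneg _).trans hA))

section q

variable {q : ℂ}

theorem Fp_pert (hq : ‖q - qc‖ ≤ 2 / 100000) {w : ℂ} (hw : ‖w‖ = 1) :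
    |2 * (conj (th q w) * (Complex.I * thw q w)).re - 2 * (conj (pT0 q w) * pT1 q w).re| ≤ 8 / 10 ^ 7 := by
  have hq' := norm_q_le hq
  have h := pert (th_approx hq' hw) (thw_approx hq' hw) (norm_pT0_le hq' hw) (norm_pT1_le hq' hw)
  have h2 := (Complex.abs_re_le_norm _).trans h
  rw [Complex.sub_re] at h2
  rw [← mul_sub, abs_mul, abs_of_pos (by norm_num : (0 : ℝ) < 2)]
  refine (mul_le_mul_of_nonneg_left h2 (by norm_num)).trans ?_
  norm_num

theorem Fpp_pert (hq : ‖q - qc‖ ≤ 2 / 100000) {w : ℂ} (hw : ‖w‖ = 1) :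
    |2 * (conj (Complex.I * thw q w) * (Complex.I * thw q w) + conj (th q w) * thww q w).re
      - 2 * (conj (pT1 q w) * pT1 q w + conj (pT0 q w) * pT2 q w).re| ≤ 1 / 10 ^ 5 := by
  have hq' := norm_q_le hq
  have h1 := pert (thw_approx hq' hw) (thw_approx hq' hw) (norm_pT1_le hq' hw) (norm_pT1_le hq' hw)
  have h2 := pert (th_approx hq' hw) (thww_approx hq' hw) (norm_pT0_le hq' hw) (norm_pT2_le hq' hw)
  have h3 := (Complex.abs_re_le_norm _).trans h1
  have h4 := (Complex.abs_re_le_norm _).trans h2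
  rw [Complex.sub_re] at h3 h4
  rw [Complex.add_re, Complex.add_re]
  rw [abs_le] at h3 h4 ⊢
  norm_num at h3 h4 ⊢
  constructor <;> linarith [h3.1, h3.2, h4.1, h4.2]

theorem G_pert (hq : ‖q - qc‖ ≤ 2 / 100000) {w : ℂ} (hw : ‖w‖ = 1) :
    ‖conj (th q w) * thq q w - conj (pT0 q w) * pTq q w‖ ≤ 2 / 10 ^ 6 := by
  have hq' := norm_q_le hq
  have h := pert (th_approx hq' hw) (thq_approx hq' hw) (norm_pT0_le hq' hw) (norm_pTq_le hq' hw)
  refine h.trans ?_
  norm_num

theorem norm_w0c : ‖w0c‖ = 1 := by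
  have h : ‖w0c‖ ^ 2 = 1 := by
    rw [← Complex.normSq_eq_norm_sq, Complex.normSq_apply]
    unfold w0c
    norm_num
  exact (pow_eq_one_iff_of_nonneg (norm_nonneg _) (by norm_num)).1 h

/-- the angle of `w0c` -/
noncomputable def t0c : ℝ := Complex.arg w0c

theorem ex_t0c : ex t0c = w0c := by
  unfold ex t0c
  have h := Complex.norm_mul_exp_arg_mul_I w0c
  rw [norm_w0c, Complex.ofReal_one, one_mul, mul_comm] at h
  exact h

theorem ex_add (s t : ℝ) : ex (s + t) = ex s * ex t := by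
  unfold ex
  rw [← Complex.exp_add]
  congr 1
  push_cast
  ring

theorem ex_re (t : ℝ) : (ex t).re = Real.cos t := by
  unfold ex
  rw [mul_comm, Complex.exp_ofReal_mul_I_re]

theorem ex_im (t : ℝ) : (ex t).im = Real.sin t := by
  unfold ex
  rw [mul_comm, Complex.exp_ofReal_mul_I_im]

theorem ex_near (t : ℝ) : ex t = w0c * Complex.exp (Complex.I * ((t - t0c : ℝ) : ℂ)) := by
  have h := ex_add t0c (t - t0c)
  rw [add_sub_cancel, ex_t0c] at h
  exact h

theorem Fpp_A (hq : ‖q - qc‖ ≤ 2 / 100000) {t : ℝ} (ht : |t| ≤ 35 / 1000) : Fpp q t < 0 := by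
  have h1 := F2A hq ht
  have h2 := Fpp_pert hq (norm_ex t)
  have h3 := (abs_le.1 h2).2
  unfold Fpp
  unfold ex at h3 ⊢
  norm_num at h1 h3 ⊢
  linarith

theorem Fpp_B (hq : ‖q - qc‖ ≤ 2 / 100000) {t : ℝ} (ht : |t - t0c| ≤ 13 / 1000) :
    Fpp q t ≤ -4236 / 1000 := by
  have h1 := F2B hq ht (ex_near t)
  have h2 := Fpp_pert hq (norm_ex t)
  have h3 := (abs_le.1 h2).2
  unfold Fpp
  norm_num at h1 h3 ⊢
  linarith

theorem Fp_B (hq : ‖q - qc‖ ≤ 2 / 100000) : |Fp q t0c| ≤ 406 / 10 ^ 6 := by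
  have h1 := F1B hq
  have h2 := Fp_pert hq norm_w0c
  unfold Fp
  rw [ex_t0c]
  rw [abs_le] at h1 h2 ⊢
  norm_num at h1 h2 ⊢
  constructor <;> linarith [h1.1, h1.2, h2.1, h2.2]

theorem Fp_zero (q : ℂ) : Fp q 0 = 0 := by
  unfold Fp
  rw [ex_zero]
  have : thw q 1 = 0 := by
    unfold thw
    simp
  rw [this]
  simp

theorem rolle (hq : ‖q - qc‖ ≤ 2 / 100000) {a b : ℝ} (hab : a < b) (ha : Fp q a = 0) (hb : Fp q b = 0)
    (h : ∀ c, a < c → c < b → Fpp q c < 0) : False := by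
  have hq' := norm_q_le hq
  obtain ⟨c, hc, h'⟩ := exists_hasDerivAt_eq_slope (Fp q) (Fpp q) hab
    (fun s _ => (hasDerivAt_Fp hq' s).continuousAt.continuousWithinAt)
    (fun s _ => hasDerivAt_Fp hq' s)
  rw [ha, hb, sub_zero, zero_div] at h'
  exact absurd (h c hc.1 hc.2) (by rw [h']; exact lt_irrefl 0)

/-- contact points in the angle variable -/
def Ct (q : ℂ) (t : ℝ) : Prop := ‖th q (ex t)‖ = Kstar

theorem norm_th_le (hq : ‖q - qc‖ ≤ 2 / 100000) (hK : thetaMax q = Kstar) (t : ℝ) :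
    ‖th q (ex t)‖ ≤ Kstar := by
  have hq1 : ‖q‖ < 1 := lt_of_le_of_lt (norm_q_le hq) (by norm_num)
  rw [norm_th hq1 (norm_ex t), ← hK]
  exact norm_theta_le hq1 (by rw [norm_pow, norm_ex, one_pow])

theorem Ct.crit (hq : ‖q - qc‖ ≤ 2 / 100000) (hK : thetaMax q = Kstar) {t : ℝ} (h : Ct q t) :
    Fp q t = 0 := by
  have hmax : IsLocalMax (Fo q) t := by
    refine Eventually.of_forall fun s => ?_
    unfold Fo
    rw [h]
    exact pow_le_pow_left₀ (norm_nonneg _) (norm_th_le hq hK s) 2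
  exact hmax.hasDerivAt_eq_zero (hasDerivAt_Fo (norm_q_le hq) t)

theorem Ct.zero (hq : ‖q - qc‖ ≤ 2 / 100000) (hK : thetaMax q = Kstar) {t : ℝ} (h : Ct q t)
    (h0 : 0 ≤ t) (h1 : t ≤ 35 / 1000) : t = 0 := by
  by_contra hne
  have hpos : 0 < t := lt_of_le_of_ne h0 (Ne.symm hne)
  refine rolle hq hpos (Fp_zero q) (h.crit hq hK) fun c hc1 hc2 => ?_
  exact Fpp_A hq (by rw [abs_le]; constructor <;> linarith)

theorem Ct.uniq (hq : ‖q - qc‖ ≤ 2 / 100000) (hK : thetaMax q = Kstar) {s t : ℝ} (hs : Ct q s)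
    (ht : Ct q t) (h1 : |s - t0c| ≤ 13 / 1000) (h2 : |t - t0c| ≤ 13 / 1000) : s = t := by
  by_contra hne
  rw [abs_le] at h1 h2
  have key : ∀ a b : ℝ, a < b → Ct q a → Ct q b → -(13 / 1000) ≤ a - t0c → b - t0c ≤ 13 / 1000 → False := by
    intro a b hab ha hb h3 h4
    refine rolle hq hab (ha.crit hq hK) (hb.crit hq hK) fun c hc1 hc2 => ?_
    have := Fpp_B hq (t := c) (by rw [abs_le]; constructor <;> linarith)
    linarith
  rcases lt_or_gt_of_ne hne with h | h
  · exact key s t h hs ht h1.1 h2.2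
  · exact key t s h ht hs h2.1 h1.2

theorem Ct.close (hq : ‖q - qc‖ ≤ 2 / 100000) (hK : thetaMax q = Kstar) {t : ℝ} (ht : Ct q t)
    (h2 : |t - t0c| ≤ 13 / 1000) : |t - t0c| ≤ 96 / 10 ^ 6 := by
  have hq' := norm_q_le hq
  have hz := ht.crit hq hK
  have hB := Fp_B hq
  have key : ∀ a b : ℝ, a < b → |a - t0c| ≤ 13 / 1000 → |b - t0c| ≤ 13 / 1000 →
      (b - a) * (4236 / 1000) ≤ |Fp q a - Fp q b| := by
    intro a b hab ha hb
    obtain ⟨c, hc, h'⟩ := exists_hasDerivAt_eq_slope (Fp q) (Fpp q) hab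
      (fun s _ => (hasDerivAt_Fp hq' s).continuousAt.continuousWithinAt)
      (fun s _ => hasDerivAt_Fp hq' s)
    rw [abs_le] at ha hb
    have h3 := Fpp_B hq (t := c) (by
      rw [abs_le]
      constructor <;> linarith [hc.1, hc.2])
    have h4 : 0 < b - a := by linarith
    rw [eq_div_iff h4.ne'] at h'
    have h5 : Fpp q c * (b - a) ≤ -4236 / 1000 * (b - a) := mul_le_mul_of_nonneg_right h3 h4.le
    refine le_trans ?_ (le_abs_self _)
    linarith
  have h0 : |t0c - t0c| ≤ (13 / 1000 : ℝ) := by norm_num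
  rcases lt_trichotomy t t0c with h | h | h
  · have h5 := key t t0c h h2 h0
    rw [hz, zero_sub, abs_neg] at h5
    rw [abs_of_neg (by linarith)]
    norm_num at h5 hB ⊢
    linarith
  · rw [h]; norm_num
  · have h5 := key t0c t h h0 h2
    rw [hz, sub_zero] at h5
    rw [abs_of_pos (by linarith)]
    norm_num at h5 hB ⊢
    linarith

/-! ### from `z` to the angle -/

theorem exists_angle {z : ℂ} (hz : ‖z‖ = 1) : ∃ t : ℝ, 0 ≤ t ∧ t ≤ Real.pi / 2 ∧
    (z = ex t ^ 2 ∨ z = conj (ex t ^ 2)) := by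
  have h := Complex.norm_mul_exp_arg_mul_I z
  rw [hz, Complex.ofReal_one, one_mul] at h
  have hsq : ∀ t : ℝ, ex t ^ 2 = Complex.exp (((2 * t : ℝ) : ℂ) * Complex.I) := by
    intro t
    unfold ex
    rw [← Complex.exp_nat_mul]
    congr 1
    push_cast
    ring
  rcases le_total 0 z.arg with h0 | h0
  · refine ⟨z.arg / 2, by linarith, by linarith [Complex.arg_le_pi z], Or.inl ?_⟩
    rw [hsq]
    rw [show 2 * (z.arg / 2) = z.arg by ring]
    exact h.symm
  · refine ⟨-z.arg / 2, by linarith, by linarith [Complex.neg_pi_lt_arg z], Or.inr ?_⟩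
    rw [hsq]
    rw [show 2 * (-z.arg / 2) = -z.arg by ring, ← Complex.exp_conj, map_mul, Complex.conj_ofReal,
      Complex.conj_I]
    rw [show ((-z.arg : ℝ) : ℂ) * -Complex.I = (z.arg : ℂ) * Complex.I by push_cast; ring]
    exact h.symm

theorem sq_re (t : ℝ) : (ex t ^ 2).re = Real.cos (2 * t) := by
  rw [pow_two, ← ex_add, ex_re]
  congr 1
  ring

theorem cos_t0c : Real.cos t0c = 690899 / 864949 := by
  rw [← ex_re, ex_t0c]
  rfl

theorem sin_t0c : Real.sin t0c = 520380 / 864949 := by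
  rw [← ex_im, ex_t0c]
  rfl

theorem cos_2t0c : Real.cos (2 * t0c) = 2 * (690899 / 864949) ^ 2 - 1 := by
  rw [Real.cos_two_mul, cos_t0c]

theorem sin_2t0c : Real.sin (2 * t0c) = 2 * (520380 / 864949) * (690899 / 864949) := by
  rw [Real.sin_two_mul, cos_t0c, sin_t0c]

theorem sin_small : (259956 / 10 ^ 7 : ℝ) ≤ Real.sin (26 / 1000) := by
  have h := Real.sin_gt_sub_cube (x := 26 / 1000) (by norm_num)
  refine le_trans ?_ h.le
  norm_num

theorem cos_up : Real.cos (2 * t0c + 26 / 1000) ≤ x1c - 24 / 1000 := by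
  rw [Real.cos_add, cos_2t0c, sin_2t0c]
  have h1 := Real.cos_le_one (26 / 1000)
  have h2 := sin_small
  unfold x1c
  norm_num at h1 h2 ⊢
  linarith

theorem cos_dn : x1c + 24 / 1000 ≤ Real.cos (2 * t0c - 26 / 1000) := by
  rw [Real.cos_sub, cos_2t0c, sin_2t0c]
  have h1 := Real.one_sub_sq_div_two_le_cos (x := 26 / 1000)
  have h2 := sin_small
  unfold x1c
  norm_num at h1 h2 ⊢
  linarith

/-- contact points of the half circle -/
theorem Ct.cases (hq : ‖q - qc‖ ≤ 2 / 100000) (hK : thetaMax q = Kstar) {t : ℝ} (h : Ct q t)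
    (h0 : 0 ≤ t) (h1 : t ≤ Real.pi / 2) : t = 0 ∨ |t - t0c| ≤ 13 / 1000 := by
  have hq1 : ‖q‖ < 1 := lt_of_le_of_lt (norm_q_le hq) (by norm_num)
  have hz : ‖ex t ^ 2‖ = 1 := by rw [norm_pow, norm_ex, one_pow]
  have hx : |(ex t ^ 2).re| ≤ 1 := hz ▸ Complex.abs_re_le_norm _
  have hmax : ‖theta q 1‖ ≤ ‖theta q (ex t ^ 2)‖ := by
    have e : ‖theta q (ex t ^ 2)‖ = Kstar := by rw [← norm_th hq1 (norm_ex t)]; exact h
    rw [e, ← hK]
    exact norm_theta_le hq1 norm_one
  have hp := poly_cases hx (contact_poly hq hz hmax)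
  rw [sq_re] at hp
  rcases hp with hp | hp
  · left
    refine h.zero hq hK h0 ?_
    have e : Real.cos (2 * t) = 1 - 2 * Real.sin t ^ 2 := by
      rw [Real.cos_two_mul, Real.cos_sq']; ring
    rw [e] at hp
    have hs := Real.mul_le_sin h0 h1
    have hpi : Real.pi < 3.15 := Real.pi_lt_d2
    have hpi0 := Real.pi_pos
    have hs0 : 0 ≤ Real.sin t := Real.sin_nonneg_of_nonneg_of_le_pi h0 (by linarith)
    have hs1 : Real.sin t ≤ 197 / 10000 := by
      by_contra hc
      push Not at hc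
      have : (197 / 10000 : ℝ) ^ 2 < Real.sin t ^ 2 := pow_lt_pow_left₀ hc (by norm_num) (by norm_num)
      norm_num at this hp
      linarith
    have h2 : t ≤ Real.pi / 2 * Real.sin t := by
      have h3 := mul_le_mul_of_nonneg_left hs (by positivity : 0 ≤ Real.pi / 2)
      have e2 : Real.pi / 2 * (2 / Real.pi * t) = t := by field_simp
      rw [e2] at h3
      exact h3
    have h4 : Real.pi / 2 * Real.sin t ≤ 3.15 / 2 * (197 / 10000) :=
      mul_le_mul (by linarith) hs1 hs0 (by norm_num)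
    refine (h2.trans h4).trans ?_
    norm_num
  · right
    rw [abs_le] at hp ⊢
    constructor
    · by_contra hc
      push Not at hc
      have h3 : 2 * t < 2 * t0c - 26 / 1000 := by linarith
      have h5 : t0c ≤ Real.pi := Complex.arg_le_pi _
      have h6 : 2 * t0c - 26 / 1000 ≤ Real.pi := by
        have hpos : 0 < Real.cos t0c := by rw [cos_t0c]; norm_num
        by_contra hc2
        push Not at hc2
        have h7 : Real.cos t0c ≤ 0 := Real.cos_nonpos_of_pi_div_two_le_of_le (by linarith) (by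
          linarith [Real.pi_pos])
        linarith
      have h4 := Real.cos_lt_cos_of_nonneg_of_le_pi (by linarith) h6 h3
      have h7 := cos_dn
      norm_num at hp h7 h4
      linarith [hp.1, hp.2]
    · by_contra hc
      push Not at hc
      have h3 : 2 * t0c + 26 / 1000 < 2 * t := by linarith
      have h5 : 0 ≤ t0c := by
        unfold t0c
        rw [Complex.arg_nonneg_iff]
        unfold w0c
        norm_num
      have h4 := Real.cos_lt_cos_of_nonneg_of_le_pi (by linarith) (by linarith) h3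
      have h7 := cos_up
      norm_num at hp h7 h4
      linarith [hp.1, hp.2]

/-! ### gradients -/

theorem norm_kap : ‖kap‖ ≤ 12 / 10 := by
  have h : ‖kap‖ ^ 2 ≤ (12 / 10) ^ 2 := by
    rw [← Complex.normSq_eq_norm_sq, Complex.normSq_apply]
    unfold kap
    norm_num
  exact (pow_le_pow_iff_left₀ (norm_nonneg _) (by norm_num) (by norm_num)).1 h

/-- gradient in `q` -/
noncomputable def gr (q w : ℂ) : ℂ := conj (th q w) * thq q w

theorem gr_A (hq : ‖q - qc‖ ≤ 2 / 100000) : 2 ≤ (gr q 1).re := by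
  have h1 := GA hq
  have h2 := G_pert hq (norm_one (α := ℂ))
  have h3 := (abs_le.1 ((Complex.abs_re_le_norm _).trans h2)).1
  rw [Complex.sub_re] at h3
  unfold gr
  norm_num at h1 h3 ⊢
  linarith

theorem kap_re (hq : ‖q - qc‖ ≤ 2 / 100000) {w : ℂ} (hw : ‖w‖ = 1) :
    |(kap * gr q w).re - (kap * (conj (pT0 q w) * pTq q w)).re| ≤ 24 / 10 ^ 7 := by
  rw [← Complex.sub_re, ← mul_sub]
  refine (Complex.abs_re_le_norm _).trans ?_
  rw [norm_mul]
  refine (mul_le_mul norm_kap (G_pert hq hw) (norm_nonneg _) (by norm_num)).trans ?_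
  norm_num

theorem gr_B (hq : ‖q - qc‖ ≤ 2 / 100000) {t : ℝ} (ht : |t - t0c| ≤ 1 / 10000) :
    89 / 100 ≤ (kap * gr q (ex t)).re := by
  have h1 := GB hq ht (ex_near t)
  have h2 := (abs_le.1 (kap_re hq (norm_ex t))).1
  norm_num at h1 h2 ⊢
  linarith

theorem lB_bound (hq : ‖q - qc‖ ≤ 2 / 100000) {t : ℝ} (ht : |t - t0c| ≤ 1 / 10000)
    (hF : Fp q t = 0) :
    |(kap * ((lAc : ℂ) * gr q 1 + (lBc : ℂ) * gr q (ex t))).re| ≤ 2 / 10 ^ 5 := by
  have h1 := Psi hq ht (ex_near t)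
  have h2 := Fp_pert hq (norm_ex t)
  have h3 := kap_re hq (norm_ex t)
  have h4 := kap_re hq (norm_one (α := ℂ))
  unfold Fp at hF
  rw [hF] at h2
  have e : ∀ (a b : ℝ) (x y : ℂ), (kap * ((a : ℂ) * x + (b : ℂ) * y)).re =
      a * (kap * x).re + b * (kap * y).re := by
    intro a b x y
    rw [mul_add, Complex.add_re, mul_left_comm, mul_left_comm kap (b : ℂ), Complex.re_ofReal_mul,
      Complex.re_ofReal_mul]
  rw [e] at h1 ⊢
  unfold lAc lBc
  rw [abs_le] at h1 h2 h3 h4 ⊢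
  norm_num at h1 h2 h3 h4 ⊢
  constructor <;> linarith [h1.1, h1.2, h2.1, h2.2, h3.1, h3.2, h4.1, h4.2]

end q

/-- contact set and multipliers -/
theorem exists_crit_of {q : ℂ} (hq : ‖q - qc‖ ≤ 2 / 100000) (hK : thetaMax q = Kstar) :
    ∃ (w1 : ℂ) (lB : ℝ), Crit q w1 lB := by
  have hq' := norm_q_le hq
  have hq1 : ‖q‖ < 1 := lt_of_le_of_lt hq' (by norm_num)
  -- contact points
  have hCt : ∀ w : ℂ, ‖w‖ = 1 → ‖theta q (conj (w ^ 2))‖ = ‖theta q (w ^ 2)‖ := by
    intro w hw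
    have hcw : ‖conj w‖ = 1 := by rw [RCLike.norm_conj, hw]
    rw [map_pow, ← norm_th hq1 hcw, ← norm_th hq1 hw]
    unfold th
    rw [Complex.conj_conj, add_comm]
  have hang : ∀ z : ℂ, ‖z‖ = 1 → ‖theta q z‖ = Kstar → ∃ t : ℝ, Ct q t ∧ (t = 0 ∨ |t - t0c| ≤ 13 / 1000) ∧
      (z = ex t ^ 2 ∨ z = conj (ex t ^ 2)) := by
    intro z hz h
    obtain ⟨t, h0, h1, h2⟩ := exists_angle hz
    have h3 : Ct q t := by
      unfold Ct
      rw [norm_th hq1 (norm_ex t)]
      rcases h2 with rfl | rfl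
      · exact h
      · rw [← hCt _ (norm_ex t)]; exact h
    exact ⟨t, h3, h3.cases hq hK h0 h1, h2⟩
  have hgA : gr q 1 ≠ 0 := by
    intro h
    have := gr_A hq
    rw [h, Complex.zero_re] at this
    linarith
  have eA : conj (theta q 1) * thetaQ q 1 = gr q 1 := by
    have h := grad_eq hq' (norm_one (α := ℂ))
    rw [one_pow] at h
    exact h
  have hneg : ∀ g : ℂ, g ≠ 0 → (g * -conj g).re < 0 := by
    intro g hg
    rw [mul_neg, Complex.mul_conj, Complex.neg_re, Complex.ofReal_re]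
    have := Complex.normSq_pos.2 hg
    linarith
  -- second contact point
  obtain ⟨t1, ht1, ht1'⟩ : ∃ t : ℝ, Ct q t ∧ |t - t0c| ≤ 13 / 1000 := by
    by_contra hcon
    push Not at hcon
    refine danskin_dir hq1 hK (-conj (gr q 1)) fun z hz h => ?_
    obtain ⟨t, h1, h2, h3⟩ := hang z hz h
    rcases h2 with h2 | h2
    · subst h2
      have e : z = 1 := by
        rw [ex_zero, one_pow, map_one] at h3
        rcases h3 with h3 | h3 <;> exact h3
      rw [e, ← mul_assoc, eA]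
      exact hneg _ hgA
    · exact absurd h2 (not_le.2 (hcon t h1))
  have hc1 := ht1.close hq hK ht1'
  have hc1' : |t1 - t0c| ≤ 1 / 10000 := hc1.trans (by norm_num)
  have hF1 := ht1.crit hq hK
  have hgB : gr q (ex t1) ≠ 0 := by
    intro h
    have := gr_B hq hc1'
    rw [h, mul_zero, Complex.zero_re] at this
    linarith
  have hz1 : ‖ex t1 ^ 2‖ = 1 := by rw [norm_pow, norm_ex, one_pow]
  have eB : conj (theta q (ex t1 ^ 2)) * thetaQ q (ex t1 ^ 2) = gr q (ex t1) := grad_eq hq' (norm_ex t1)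
  have hact : ∀ z : ℂ, ‖z‖ = 1 → ‖theta q z‖ = Kstar → z = 1 ∨ z = ex t1 ^ 2 ∨ z = conj (ex t1 ^ 2) := by
    intro z hz h
    obtain ⟨t, h1, h2, h3⟩ := hang z hz h
    rcases h2 with h2 | h2
    · subst h2
      left
      rw [ex_zero, one_pow, map_one] at h3
      rcases h3 with h3 | h3 <;> exact h3
    · right
      have := h1.uniq hq hK ht1 h2 ht1'
      rw [← this]
      exact h3
  -- `1` is a contact point
  have hone : ‖theta q 1‖ = Kstar := by
    by_contra hcon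
    refine danskin_dir hq1 hK (-conj (gr q (ex t1))) fun z hz h => ?_
    rw [← mul_assoc]
    rcases hact z hz h with rfl | rfl | rfl
    · exact absurd h hcon
    · rw [eB]; exact hneg _ hgB
    · rw [grad_symm q hz1, eB]; exact hneg _ hgB
  obtain ⟨lA, lB, hA, hB, hAB, h0⟩ := danskin hq1 hK hz1 hact
  rw [eA, eB] at h0
  have hA0 : lA ≠ 0 := by
    intro h
    rw [h, Complex.ofReal_zero, zero_mul, zero_add] at h0
    rw [h, zero_add] at hAB
    rw [hAB, Complex.ofReal_one, one_mul] at h0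
    exact hgB h0
  have hA0' : (lA : ℂ) ≠ 0 := by exact_mod_cast hA0
  set l : ℝ := lAc * lB / lA with hl
  have hlag : (lAc : ℂ) * gr q 1 + (l : ℂ) * gr q (ex t1) = 0 := by
    have e : (l : ℂ) = (lAc : ℂ) * lB / lA := by rw [hl]; push_cast; ring
    rw [e]
    have e2 : (lAc : ℂ) * gr q 1 + (lAc : ℂ) * lB / lA * gr q (ex t1) =
        (lAc : ℂ) / lA * ((lA : ℂ) * gr q 1 + lB * gr q (ex t1)) := by
      field_simp
    rw [e2, h0, mul_zero]
  refine ⟨ex t1, l, ⟨hq, norm_ex t1, ?_, ?_, ?_, ht1, ?_, ?_⟩⟩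
  · -- position
    have e : ex t1 - w1c = w0c * (Complex.exp (Complex.I * ((t1 - t0c : ℝ) : ℂ)) - 1) + (w0c - w1c) := by
      rw [ex_near t1]; ring
    rw [e]
    refine (norm_add_le _ _).trans ?_
    rw [norm_mul, norm_w0c, one_mul]
    have h1 := Real.norm_exp_I_mul_ofReal_sub_one_le (x := t1 - t0c)
    rw [Real.norm_eq_abs] at h1
    have h2 : ‖w0c - w1c‖ ≤ 1 / 10 ^ 6 := by
      refine (Complex.norm_le_abs_re_add_abs_im _).trans ?_
      have h3 : |(w0c - w1c).re| ≤ 3 / 10 ^ 7 := by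
        rw [Complex.sub_re]; unfold w0c w1c; norm_num [abs_le]
      have h4 : |(w0c - w1c).im| ≤ 3 / 10 ^ 7 := by
        rw [Complex.sub_im]; unfold w0c w1c; norm_num [abs_le]
      norm_num at h3 h4 ⊢
      linarith
    norm_num at h1 h2 hc1 ⊢
    linarith
  · -- the multiplier
    have h1 := lB_bound hq hc1' hF1
    have h2 := gr_B hq hc1'
    have e : (l - lBc) * (kap * gr q (ex t1)).re =
        -(kap * ((lAc : ℂ) * gr q 1 + (lBc : ℂ) * gr q (ex t1))).re := by
      have e1 : kap * ((lAc : ℂ) * gr q 1 + (lBc : ℂ) * gr q (ex t1)) =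
          -(((l - lBc : ℝ) : ℂ) * (kap * gr q (ex t1))) := by
        push_cast
        linear_combination kap * hlag
      rw [e1, Complex.neg_re, neg_neg, Complex.re_ofReal_mul]
    have h3 : |l - lBc| * (kap * gr q (ex t1)).re ≤ 2 / 10 ^ 5 := by
      have h4 : |(l - lBc) * (kap * gr q (ex t1)).re| ≤ 2 / 10 ^ 5 := by
        rw [e, abs_neg]; exact h1
      rwa [abs_mul, abs_of_pos (by linarith : 0 < (kap * gr q (ex t1)).re)] at h4
    have h5 : |l - lBc| * (89 / 100) ≤ |l - lBc| * (kap * gr q (ex t1)).re :=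
      mul_le_mul_of_nonneg_left h2 (abs_nonneg _)
    norm_num at h3 h5 ⊢
    linarith
  · have h := norm_th hq1 (norm_one (α := ℂ))
    rw [one_pow] at h
    rw [h]
    exact hone
  · unfold Lag
    unfold gr at hlag
    linear_combination hlag
  · unfold Fp at hF1
    linarith

end MaxTerm.PA
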