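import Pool.Agent.MaxTerm.PartA.LocC
import Pool.Agent.MaxTerm.PartA.CritOf

/-!
# Part A: localisation of the minimiser and of its multipliers

1. `Kstar ^ 2 ≤ 2.921266961` (`Kstar_le`, `QHat`). The constant sequence of the minimiser `q` is a
   `BiChain Kstar` (`Win (fun _ => q) j w = th q w`, `norm_th`; `pars`: from `Parseval.bessel` or from
   `theta_bessel`), so `region` and `far_main` (any `B` with `BOK B`, e.g. `B 1 = B1c`, `B 2 = B2c`, `0`
   otherwise; `G B (fun _ => q) j = 0`) show that `q` or `conj q` is in the near box. WLOG (conjugate) `Near q`.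
2. `loc`: apply `S_expand` at a rational parameter point (`q0 = qc`, `w0 = exp (i * 0.645541552)` or a
   rational point of the circle, `lB = 0.980808087`), `κ = 2.921266961`, `u = v = q`:
   `Sf ≤ 0` (all atoms have weight `≥ 0`, `‖Fc q q w‖ = ‖th q w‖ ≤ Kstar`, costs `≥ 0`), and `S1 ≥ -1.1e-9 - 1e-9 |δ|`
   by numerical enclosures of `th, thq, thw` at the rational point; hence `4 |δ|^2 ≤ 1.2e-9`, `|δ| ≤ 2e-5`.
3. contact set of the minimiser `qs` : `‖th qs w‖ = Kstar` with `‖w‖ = 1` only for `w = ±1, ±w1, ±conj w1`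
   (`w ↦ w²` is the variable of `theta`), `w1` near `w1c`: the exact certificate in `QHat` gives
   `2.92126697 - |theta qc z|² ≥ (1-x)(x-x1)² Q(x)`, `x = Re z`, and `‖theta qs z‖² ≤ ‖theta qc z‖² + 7.5 |qs-qc|`;
   near `x = 1` the derivative in `x` is positive, near `x1` the second derivative is negative
   (so there is at most one contact point there), and the critical point equation gives
   `|w1 - w1c| ≤ 1e-4` (numerically `|dt/dq| ≤ 4.1`).
4. `danskin` gives multipliers with sum 1; both are positive since `conj th * thq` is not zero at the contact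
   points; normalise the first one to `lAc`; `lB = -lAc * Re(...)/...` within `3e-4` of `lBc`.
-/

open Filter Topology ComplexConjugate

namespace MaxTerm.PA

theorem Kstar_sq_le : Kstar ^ 2 ≤ 2.921266961 := LocA.kstar_sq_le

theorem Kstar_nonneg : 0 ≤ Kstar := LocA.kstar_nonneg

/-- a minimiser in the near box -/
theorem exists_near_min : ∃ q : ℂ, ‖q‖ < 1 ∧ thetaMax q = Kstar ∧ Near q := LocC.near_min_aux

theorem loc {q : ℂ} (hq : ‖q‖ < 1) (hK : thetaMax q = Kstar) (hn : Near q) :
    ‖q - qc‖ ≤ 2 / 100000 := LocC.loc_aux hq hK hn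

/-- lower bound of `K*²` (`S_expand` with `κ = K*²`) -/
theorem Kstar_sq_ge : 2.921266959 ≤ Kstar ^ 2 := LocC.kstar_sq_ge

theorem exists_crit : ∃ (qs w1 : ℂ) (lB : ℝ), Crit qs w1 lB := by
  obtain ⟨q, hq, hK, hn⟩ := exists_near_min
  obtain ⟨w1, lB, h⟩ := exists_crit_of (loc hq hK hn) hK
  exact ⟨q, w1, lB, h⟩

end MaxTerm.PA
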