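import Pool.Agent.MaxTerm.PartA.Core

/-! # Part A, module Tele: the potential terms telescope -/

open Filter Topology ComplexConjugate

namespace MaxTerm.PA

open Finset in
theorem tele_right {E : Type*} [NormedAddCommGroup E] (f : ℤ → E) (M : ℝ) (hf : ∀ i, ‖f i‖ ≤ M)
    (N l : ℕ) : ‖∑ j ∈ range N, (f ((j : ℤ) + l) - f (j : ℤ))‖ ≤ 2 * M * l := by
  induction l with
  | zero => simp
  | succ l ih =>
    have h1 : ∑ j ∈ range N, (f ((j : ℤ) + (l + 1 : ℕ)) - f (j : ℤ))
        = (f ((N : ℤ) + l) - f (l : ℤ)) + ∑ j ∈ range N, (f ((j : ℤ) + l) - f (j : ℤ)) := by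
      have h2 : ∑ j ∈ range N, (f (((j + 1 : ℕ) : ℤ) + l) - f ((j : ℤ) + l))
          = f ((N : ℤ) + l) - f (((0 : ℕ) : ℤ) + l) := sum_range_sub (fun j : ℕ => f ((j : ℤ) + l)) N
      rw [show (((0 : ℕ) : ℤ) + l) = (l : ℤ) by simp] at h2
      rw [← h2, ← sum_add_distrib]
      refine sum_congr rfl fun j _ => ?_
      rw [show ((j : ℤ) + ((l + 1 : ℕ) : ℤ)) = ((j + 1 : ℕ) : ℤ) + l by push_cast; ring]
      abel
    rw [h1]
    have h3 := norm_sub_le (f ((N : ℤ) + l)) (f (l : ℤ))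
    have h4 := hf ((N : ℤ) + l)
    have h5 := hf (l : ℤ)
    refine (norm_add_le _ _).trans ?_
    push_cast
    linarith

open Finset in
theorem tele_left {E : Type*} [NormedAddCommGroup E] (f : ℤ → E) (M : ℝ) (hf : ∀ i, ‖f i‖ ≤ M)
    (N l : ℕ) : ‖∑ j ∈ range N, (f ((j : ℤ) - l) - f (j : ℤ))‖ ≤ 2 * M * l := by
  induction l with
  | zero => simp
  | succ l ih =>
    have h1 : ∑ j ∈ range N, (f ((j : ℤ) - (l + 1 : ℕ)) - f (j : ℤ))
        = -(f ((N : ℤ) - (l + 1)) - f (-((l : ℤ) + 1)))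
          + ∑ j ∈ range N, (f ((j : ℤ) - l) - f (j : ℤ)) := by
      have h2 : ∑ j ∈ range N, (f (((j + 1 : ℕ) : ℤ) - (l + 1)) - f ((j : ℤ) - (l + 1)))
          = f ((N : ℤ) - (l + 1)) - f (((0 : ℕ) : ℤ) - (l + 1)) :=
        sum_range_sub (fun j : ℕ => f ((j : ℤ) - (l + 1))) N
      rw [show (((0 : ℕ) : ℤ) - ((l : ℤ) + 1)) = -((l : ℤ) + 1) by simp] at h2
      rw [← h2, ← sum_neg_distrib, ← sum_add_distrib]
      refine sum_congr rfl fun j _ => ?_
      rw [show ((j + 1 : ℕ) : ℤ) - ((l : ℤ) + 1) = (j : ℤ) - l by push_cast; ring,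
        show ((j : ℤ) - ((l + 1 : ℕ) : ℤ)) = (j : ℤ) - ((l : ℤ) + 1) by push_cast; ring]
      abel
    rw [h1]
    have h3 := norm_sub_le (f ((N : ℤ) - (l + 1))) (f (-((l : ℤ) + 1)))
    have h4 := hf ((N : ℤ) - (l + 1))
    have h5 := hf (-((l : ℤ) + 1))
    refine (norm_add_le _ _).trans ?_
    rw [norm_neg]
    push_cast
    linarith

theorem norm_shp (z : ℂ) : ‖shp z‖ = ‖z‖ := by
  unfold shp
  rw [Complex.norm_eq_sqrt_sq_add_sq, Complex.norm_eq_sqrt_sq_add_sq, sq_abs]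

theorem pc_nonneg (l : ℕ) : 0 ≤ pc l := by
  match l with
  | 0 => simp [pc]
  | 1 => norm_num [pc]
  | 2 => norm_num [pc]
  | (l + 3) => unfold pc; positivity

theorem pc_le (l : ℕ) : pc l ≤ 2 * (1 / 2) ^ l := by
  match l with
  | 0 => norm_num [pc]
  | 1 => norm_num [pc]
  | 2 => norm_num [pc]
  | (l + 3) =>
    unfold pc
    rw [one_div_pow, mul_one_div]
    apply div_le_div_of_nonneg_right (by norm_num) (by positivity)

theorem summable_pc_mul : Summable fun l : ℕ => pc l * l := by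
  refine Summable.of_nonneg_of_le (fun l => mul_nonneg (pc_nonneg l) (Nat.cast_nonneg l))
    (fun l => mul_le_mul_of_nonneg_right (pc_le l) (Nat.cast_nonneg l)) ?_
  have := (summable_pow_mul_geometric_of_norm_lt_one 1 (r := (1 / 2 : ℝ)) (by norm_num)).mul_left 2
  refine this.congr fun l => ?_
  ring

theorem tele_summable_pc : Summable pc := by
  refine Summable.of_nonneg_of_le pc_nonneg pc_le ?_
  exact (summable_geometric_of_lt_one (by norm_num) (by norm_num)).mul_left 2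

/-- `G B q j` is a telescoping sum with bounded potentials, so it cannot be `≥ η > 0` for all `j`:
`∑_{j=1}^N G B q j` is bounded independently of `N`. -/
theorem no_uniform {B : ℕ → ℂ} {q : ℤ → ℂ} (hB : Summable fun l => ‖B l‖) (hq : ∀ j, ‖q j‖ ≤ 1)
    {η : ℝ} (hη : 0 < η) : ¬ ∀ j : ℤ, η ≤ G B q j := by
  intro hall
  set D : ℤ → ℝ := fun i => ‖q (i + 1) - q i‖ ^ 2 with hD
  set s : ℤ → ℂ := fun i => shp (q i) with hs
  have hDb : ∀ i, ‖D i‖ ≤ 4 := by
    intro i
    have h1 : ‖q (i + 1) - q i‖ ≤ 2 := (norm_sub_le _ _).trans (by linarith [hq (i + 1), hq i])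
    rw [hD, Real.norm_of_nonneg (by positivity)]
    nlinarith [norm_nonneg (q (i + 1) - q i)]
  have hsb : ∀ i, ‖s i‖ ≤ 1 := fun i => by rw [hs]; show ‖shp (q i)‖ ≤ 1; rw [norm_shp]; exact hq i
  -- the summands
  let F : ℕ → ℕ → ℝ := fun j l => pc l * (D ((j : ℤ) + l) + D ((j : ℤ) - l) - 2 * D (j : ℤ))
  let H : ℕ → ℕ → ℂ := fun j l => B l * ((s ((j : ℤ) + l + 1) - s ((j : ℤ) + l))
    - (s ((j : ℤ) - l + 1) - s ((j : ℤ) - l)))
  have hG : ∀ j : ℕ, G B q j = ∑' l, F j l - 2 * (∑' l, H j l).re := fun j => rfl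
  have hF : ∀ j, Summable (F j) := by
    intro j
    refine Summable.of_norm_bounded (g := fun l => pc l * 16) (tele_summable_pc.mul_right 16) fun l => ?_
    rw [norm_mul, Real.norm_of_nonneg (pc_nonneg l)]
    refine mul_le_mul_of_nonneg_left ?_ (pc_nonneg l)
    have a1 := hDb ((j : ℤ) + l)
    have a2 := hDb ((j : ℤ) - l)
    have a3 := hDb (j : ℤ)
    rw [Real.norm_eq_abs, abs_le] at a1 a2 a3 ⊢
    constructor <;> linarith [a1.1, a1.2, a2.1, a2.2, a3.1, a3.2]
  have hH : ∀ j, Summable (H j) := by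
    intro j
    refine Summable.of_norm_bounded (g := fun l => ‖B l‖ * 4) (hB.mul_right 4) fun l => ?_
    rw [norm_mul]
    refine mul_le_mul_of_nonneg_left ?_ (norm_nonneg _)
    refine (norm_sub_le _ _).trans ?_
    have b1 := norm_sub_le (s ((j : ℤ) + l + 1)) (s ((j : ℤ) + l))
    have b2 := norm_sub_le (s ((j : ℤ) - l + 1)) (s ((j : ℤ) - l))
    linarith [hsb ((j : ℤ) + l + 1), hsb ((j : ℤ) + l), hsb ((j : ℤ) - l + 1), hsb ((j : ℤ) - l)]
  set C1 : ℝ := ∑' l : ℕ, 16 * (pc l * l) with hC1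
  set C2 : ℝ := ∑' l : ℕ, ‖B l‖ * 4 with hC2
  have hN : ∀ N : ℕ, (N : ℝ) * η ≤ C1 + 2 * C2 := by
    intro N
    have e1 : (N : ℝ) * η ≤ ∑ j ∈ Finset.range N, G B q (j : ℤ) := by
      have := Finset.card_nsmul_le_sum (Finset.range N) (fun j : ℕ => G B q (j : ℤ)) η
        (fun j _ => hall _)
      simpa using this
    have e2 : ∑ j ∈ Finset.range N, G B q (j : ℤ)
        = ∑' l, ∑ j ∈ Finset.range N, F j l - 2 * (∑' l, ∑ j ∈ Finset.range N, H j l).re := by
      rw [Summable.tsum_finsetSum (fun j _ => hF j), Summable.tsum_finsetSum (fun j _ => hH j),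
        Complex.re_sum, Finset.mul_sum, ← Finset.sum_sub_distrib]
      exact Finset.sum_congr rfl fun j _ => hG j
    have e3 : ∑' l, ∑ j ∈ Finset.range N, F j l ≤ C1 := by
      refine Summable.tsum_le_tsum (fun l => ?_) (summable_sum fun j _ => hF j)
        (summable_pc_mul.mul_left 16)
      have t1 := tele_right D 4 hDb N l
      have t2 := tele_left D 4 hDb N l
      have t3 : ∑ j ∈ Finset.range N, F j l
          = pc l * (∑ j ∈ Finset.range N, (D ((j : ℤ) + l) - D (j : ℤ))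
            + ∑ j ∈ Finset.range N, (D ((j : ℤ) - l) - D (j : ℤ))) := by
        rw [← Finset.sum_add_distrib, Finset.mul_sum]
        refine Finset.sum_congr rfl fun j _ => ?_
        show pc l * _ = pc l * _
        ring
      rw [t3]
      rw [Real.norm_eq_abs] at t1 t2
      have t4 := (abs_le.1 t1).2
      have t5 := (abs_le.1 t2).2
      have t6 := mul_le_mul_of_nonneg_left (add_le_add t4 t5) (pc_nonneg l)
      linarith
    have e4 : ‖∑' l, ∑ j ∈ Finset.range N, H j l‖ ≤ C2 := by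
      have hb : ∀ l, ‖∑ j ∈ Finset.range N, H j l‖ ≤ ‖B l‖ * 4 := by
        intro l
        have u1 : ∑ j ∈ Finset.range N, H j l
            = B l * ((s ((N : ℤ) + l) - s (((0 : ℕ) : ℤ) + l))
              - (s ((N : ℤ) - l) - s (((0 : ℕ) : ℤ) - l))) := by
          have v1 := Finset.sum_range_sub (fun j : ℕ => s ((j : ℤ) + l)) N
          have v2 := Finset.sum_range_sub (fun j : ℕ => s ((j : ℤ) - l)) N
          rw [← v1, ← v2, ← Finset.sum_sub_distrib, Finset.mul_sum]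
          refine Finset.sum_congr rfl fun j _ => ?_
          show B l * _ = B l * _
          rw [show (((j + 1 : ℕ) : ℤ) + l) = (j : ℤ) + l + 1 by push_cast; ring,
            show (((j + 1 : ℕ) : ℤ) - l) = (j : ℤ) - l + 1 by push_cast; ring]
        rw [u1, norm_mul]
        refine mul_le_mul_of_nonneg_left ?_ (norm_nonneg _)
        refine (norm_sub_le _ _).trans ?_
        have b1 := norm_sub_le (s ((N : ℤ) + l)) (s (((0 : ℕ) : ℤ) + l))
        have b2 := norm_sub_le (s ((N : ℤ) - l)) (s (((0 : ℕ) : ℤ) - l))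
        linarith [hsb ((N : ℤ) + l), hsb (((0 : ℕ) : ℤ) + l), hsb ((N : ℤ) - l),
          hsb (((0 : ℕ) : ℤ) - l)]
      exact tsum_of_norm_bounded (hB.mul_right 4).hasSum hb
    have e5 := Complex.abs_re_le_norm (∑' l, ∑ j ∈ Finset.range N, H j l)
    have e6 := (abs_le.1 (e5.trans e4)).1
    rw [e2] at e1
    linarith
  obtain ⟨N, hN1⟩ := exists_nat_gt ((C1 + 2 * C2) / η)
  have h1 := hN N
  rw [div_lt_iff₀ hη] at hN1
  linarith

end MaxTerm.PA
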