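import Pool.Agent.MaxTerm.PartA.NearMain
import Pool.Agent.MaxTerm.PartA.Loc
import Pool.Agent.MaxTerm.PartA.Tele

/-!
# Part A: conclusion

If `K < Kstar` there is a `BiChain K q` (`exists_biChain`), all links are in `Reg`, and every window has
`G ≥ min (2^-40) (Kstar² - K²)` by `far_main`, `near_main` and `near_main` for the conjugate chain (`G_conj`);
this contradicts `no_uniform`.
-/

open Filter Topology ComplexConjugate

namespace MaxTerm.PA

theorem summable_of_BOK {B : ℕ → ℂ} (hB : BOK B) : Summable fun l => ‖B l‖ := by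
  refine (summable_nat_add_iff 4).1 ?_
  refine Summable.of_nonneg_of_le (fun l => norm_nonneg _) (fun l => hB.rest (l + 4) (by omega)) ?_
  have h : Summable fun l : ℕ => (1 / 10 ^ 7 : ℝ) * (1 / 8) ^ l :=
    (summable_geometric_of_lt_one (by norm_num) (by norm_num)).mul_left _
  refine h.congr fun l => ?_
  rw [Nat.add_sub_cancel, one_div_pow, mul_one_div]

theorem apCore {K : ℝ} (C : Chain K) (h : ∀ j, C.k j = 1) : Kstar ≤ K := by
  by_contra hlt
  push Not at hlt
  have hK0 : 0 ≤ K := (norm_nonneg _).trans ((C.win 0).bound 1 norm_one)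
  have hKK : K ^ 2 < Kstar ^ 2 := pow_lt_pow_left₀ hlt hK0 two_ne_zero
  have hK : K ^ 2 ≤ 2.921267 := by
    have h2 := Kstar_sq_le
    linarith
  obtain ⟨q, hC⟩ := exists_biChain C h (hK.trans (by norm_num))
  have hreg := region hC hK0 hK
  obtain ⟨qs, w1, lB, hc⟩ := exists_crit
  have hB : BOK (Bst qs w1 lB) := BOK_Bst hc.q hc.w hc.w' hc.l
  refine no_uniform (B := Bst qs w1 lB) (q := q) (η := min (1 / 2 ^ 40) (Kstar ^ 2 - K ^ 2))
    (summable_of_BOK hB) (fun j => (hreg j).n.trans (by norm_num))
    (lt_min (by positivity) (by linarith)) ?_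
  intro j
  by_cases h1 : Near (q j) ∧ Near (q (j + 1))
  · exact (min_le_right _ _).trans
      (near_main hc hC hK0 hlt (fun i => (hreg i).n) j h1.1 h1.2)
  · by_cases h2 : Near (conj (q j)) ∧ Near (conj (q (j + 1)))
    · have h3 := near_main hc hC.conj hK0 hlt
        (fun i => by rw [Complex.norm_conj]; exact (hreg i).n) j h2.1 h2.2
      rw [G_conj] at h3
      exact (min_le_right _ _).trans h3
    · exact (min_le_left _ _).trans (far_main hC hK0 hK hreg hB j h1 h2)

end MaxTerm.PA
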