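import Pool.Agent.MaxTerm.Basic

/-!
# MP_4255df, Part A (all gaps equal to `1`): definitions

A chain with all gaps `1` is a sequence `q : ℤ → ℂ`: the window number `j` has coefficients
`c 0 = c 1 = 1`, `c 2 = q (j+1)`, `c (-1) = q j`, `c 3 = q (j+1)^2 q (j+2)`, ...
We use the half-angle normalisation: `w ^ 2 = z`, and `Win q j w = w⁻¹ * ∑ c n z ^ n`.
-/

open Filter Topology ComplexConjugate

namespace MaxTerm.PA

/-- `mon s n = ∏_{i<n} s_i^{n-i}`; so `mon s 0 = 1`, `mon s 1 = s 0`, `mon s 2 = s 0 ^ 2 * s 1`,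
`mon s 3 = s 0 ^ 3 * s 1 ^ 2 * s 2`, ... -/
noncomputable def mon (s : ℕ → ℂ) (n : ℕ) : ℂ := ∏ i ∈ Finset.range n, s i ^ (n - i)

/-- one half of the window function, `∑_{n ≥ 0} mon s n * w ^ (2n+1)`. -/
noncomputable def half (s : ℕ → ℂ) (w : ℂ) : ℂ := ∑' n : ℕ, mon s n * w ^ (2 * n + 1)

/-- the links to the right of window `j`: `q (j+1), q (j+2), ...` -/
def rt (q : ℤ → ℂ) (j : ℤ) : ℕ → ℂ := fun i => q (j + 1 + i)

/-- the links to the left of window `j`: `q j, q (j-1), ...` -/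
def lf (q : ℤ → ℂ) (j : ℤ) : ℕ → ℂ := fun i => q (j - i)

/-- the window function (half-angle normalisation) at `w`, `‖w‖ = 1`. -/
noncomputable def Win (q : ℤ → ℂ) (j : ℤ) (w : ℂ) : ℂ := half (rt q j) w + half (lf q j) (conj w)

/-- a bi-infinite chain with all gaps `1` all whose windows are bounded by `K`. -/
structure BiChain (K : ℝ) (q : ℤ → ℂ) : Prop where
  bound : ∀ j w, ‖w‖ = 1 → ‖Win q j w‖ ≤ K
  pars : ∀ j, ‖q j‖ ^ 2 + ‖q (j + 1)‖ ^ 2 ≤ K ^ 2 - 2

/-- the function of the constant chain `q`; `‖th q w‖ = ‖theta q (w ^ 2)‖` for `‖w‖ = 1`. -/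
noncomputable def th (q w : ℂ) : ℂ := half (fun _ => q) w + half (fun _ => q) (conj w)

/-- folding into the upper half plane -/
def shp (z : ℂ) : ℂ := ⟨z.re, |z.im|⟩

/-- `b` or `conj b` according to the half plane containing `v` -/
noncomputable def Bs (v b : ℂ) : ℂ := if 0 ≤ v.im then b else conj b

/-- the weights of the Dirichlet potentials -/
noncomputable def pc : ℕ → ℝ
  | 0 => 0
  | 1 => 4 / 5
  | 2 => 1 / 10
  | (l + 3) => (1 / 10) / 2 ^ (l + 3)

/-- `∑ pc = 4/5 + 1/10 + 1/40` -/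
noncomputable def PT : ℝ := 37 / 40

/-- the sum of all potential terms at window `j` (telescopes). -/
noncomputable def G (B : ℕ → ℂ) (q : ℤ → ℂ) (j : ℤ) : ℝ :=
  (∑' l : ℕ, pc l * (‖q (j + l + 1) - q (j + l)‖ ^ 2 + ‖q (j - l + 1) - q (j - l)‖ ^ 2
      - 2 * ‖q (j + 1) - q j‖ ^ 2))
    - 2 * (∑' l : ℕ, B l * ((shp (q (j + l + 1)) - shp (q (j + l)))
      - (shp (q (j - l + 1)) - shp (q (j - l))))).re

/-- the one-sided functional: potentials + tail of the window function, `s 0 = v`. -/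
noncomputable def Rs (B : ℕ → ℂ) (α : ℕ → ℂ) (s : ℕ → ℂ) : ℝ :=
  (∑' l : ℕ, pc (l + 1) * ‖s (l + 1) - s l‖ ^ 2)
    + 2 * (∑' n : ℕ, α (n + 2) * mon s (n + 2)).re
    - 2 * (∑' l : ℕ, B (l + 1) * (shp (s (l + 1)) - shp (s l))).re

/-- an atom of a certificate: a point of the unit circle, a weight and a test value -/
structure Atom where
  w : ℂ
  l : ℝ
  e : ℂ

def Atom.OK (a : Atom) : Prop := ‖a.w‖ = 1 ∧ 0 ≤ a.l

/-- right moments `∑ l * conj e * w^(2n+1)` -/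
noncomputable def aR (L : List Atom) (n : ℕ) : ℂ :=
  (L.map fun a => (a.l : ℂ) * conj a.e * a.w ^ (2 * n + 1)).sum

/-- left moments `∑ l * conj e * (conj w)^(2n+1)` -/
noncomputable def aL (L : List Atom) (n : ℕ) : ℂ :=
  (L.map fun a => (a.l : ℂ) * conj a.e * (conj a.w) ^ (2 * n + 1)).sum

/-- constant part of a certificate -/
noncomputable def c0 (K2 : ℝ) (L : List Atom) : ℝ :=
  2 * (aR L 0 + aL L 0).re - (L.map fun a => a.l * (‖a.e‖ ^ 2 + K2)).sum

/-- `A = ∑ l ‖e‖` bounds all moments -/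
noncomputable def cA (L : List Atom) : ℝ := (L.map fun a => a.l * ‖a.e‖).sum

/-- numerical centre of `B 1` (true value) -/
noncomputable def B1c : ℂ := ⟨-0.021618, 0.078288⟩

/-- numerical centre of `B 2` -/
noncomputable def B2c : ℂ := ⟨0.000013, -0.000627⟩

/-- the conditions on the coefficients of the linear potentials used by the far region -/
structure BOK (B : ℕ → ℂ) : Prop where
  one : ‖B 1 - B1c‖ ≤ 15 / 100000
  two : ‖B 2 - B2c‖ ≤ 1 / 100000
  three : ‖B 3‖ ≤ 3 / 100000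
  rest : ∀ l, 4 ≤ l → ‖B l‖ ≤ (1 / 10 ^ 7) / 8 ^ (l - 4)

/-- the a-priori region for all links -/
structure Reg (z : ℂ) : Prop where
  n : ‖z‖ ≤ 3 / 5
  a : z.re ≤ 23 / 100
  b : 2 * z.re + |z.im| ≤ 57 / 100
  c : z.re + |z.im| ≤ 395 / 1000
  d : z.re + 2 * |z.im| ≤ 68 / 100
  e : |z.im| ≤ 39 / 100
  f : -z.re + 2 * |z.im| ≤ 115 / 100
  g : -z.re + |z.im| ≤ 82 / 100
  h : -2 * z.re + |z.im| ≤ 1355 / 1000

/-- numerical centre (the minimiser of `thetaMax` in the upper half plane is within `1e-4`) -/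
noncomputable def qc : ℂ := ⟨-0.1912057094, 0.2048974310⟩

/-- the near box -/
structure Near (z : ℂ) : Prop where
  re : |z.re - qc.re| ≤ 1 / 500
  im : |z.im - qc.im| ≤ 1 / 500

end MaxTerm.PA
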