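import Pool.Agent.MaxTerm.PartA.Chk
import Pool.Agent.MaxTerm.PartA.Core

/-!
# Part A, soundness of the checker I: ball arithmetic and moments
-/

open ComplexConjugate

namespace MaxTerm.PA.Chk

/-- value of a fixed point number -/
noncomputable def rv (x : Int) : ℝ := (x : ℝ) / 2 ^ 40

/-- centre of a ball -/
noncomputable def CB.mid (b : CB) : ℂ := ⟨rv b.re, rv b.im⟩

/-- `z` belongs to the ball `b` -/
def CB.Mem (z : ℂ) (b : CB) : Prop := ‖z - b.mid‖ ≤ rv b.rad

theorem cs_iadd (a b : Int) : Int.add a b = a + b := rfl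

theorem cs_imul (a b : Int) : Int.mul a b = a * b := rfl

theorem cs_ineg (a : Int) : Int.neg a = -a := rfl

theorem cs_iediv (a b : Int) : Int.ediv a b = a / b := rfl

theorem cs_nadd (a b : Nat) : Nat.add a b = a + b := rfl

theorem cs_nmul (a b : Nat) : Nat.mul a b = a * b := rfl

theorem cs_ndiv (a b : Nat) : Nat.div a b = a / b := rfl

theorem cs_shr (x : Int) : shr x = x / 1099511627776 := by
  have h : shr x = x >>> (40 : Nat) := rfl
  rw [h, Int.shiftRight_eq_div_pow]
  norm_num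

theorem rv_add (a b : Int) : rv (Int.add a b) = rv a + rv b := by
  rw [cs_iadd]
  unfold rv
  push_cast
  ring

theorem rv_neg (a : Int) : rv (Int.neg a) = -rv a := by
  rw [cs_ineg]
  unfold rv
  push_cast
  ring

theorem cs_ediv_le (x : Int) {n : Int} (hn : 0 < n) :
    ((x / n : Int) : ℝ) ≤ (x : ℝ) / n ∧ (x : ℝ) / n < ((x / n : Int) : ℝ) + 1 := by
  have hn' : (0 : ℝ) < (n : ℝ) := by exact_mod_cast hn
  have h1 : (x / n) * n ≤ x := Int.ediv_mul_le x hn.ne'
  have h2 : x < (x / n + 1) * n := Int.lt_ediv_add_one_mul_self x hn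
  constructor
  · rw [le_div_iff₀ hn']
    exact_mod_cast h1
  · rw [div_lt_iff₀ hn']
    exact_mod_cast h2

theorem shr_le (x : Int) : (shr x : ℝ) ≤ (x : ℝ) / 2 ^ 40 ∧ (x : ℝ) / 2 ^ 40 < shr x + 1 := by
  have h := cs_ediv_le x (n := 1099511627776) (by norm_num)
  have h2 : ((1099511627776 : Int) : ℝ) = 2 ^ 40 := by norm_num
  rw [h2] at h
  rw [cs_shr]
  exact h

theorem rv_mul_le_mulU {a b : Int} : rv a * rv b ≤ rv (mulU a b) := by
  have h := (shr_le (a * b)).2
  have h1 : mulU a b = shr (a * b) + 1 := rfl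
  rw [h1]
  unfold rv
  push_cast at h ⊢
  have h2 : (a : ℝ) / 2 ^ 40 * ((b : ℝ) / 2 ^ 40) = ((a : ℝ) * b / 2 ^ 40) / 2 ^ 40 := by ring
  rw [h2]
  exact div_le_div_of_nonneg_right h.le (by positivity)

theorem rv_div_le_divU {a p : Int} (hp : 0 < p) : rv a / rv p ≤ rv (divU a p) := by
  have hp' : (0 : ℝ) < (p : ℝ) := by exact_mod_cast hp
  have h := (cs_ediv_le (a * 1099511627776) hp).2
  have h1 : divU a p = (a * 1099511627776) / p + 1 := rfl
  rw [h1]
  unfold rv
  push_cast at h ⊢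
  have h2 : (a : ℝ) / 2 ^ 40 / ((p : ℝ) / 2 ^ 40) = ((a : ℝ) * 1099511627776 / p) / 2 ^ 40 := by
    field_simp
    norm_num
  rw [h2]
  exact div_le_div_of_nonneg_right h.le (by positivity)

theorem cs_nstep {m s : ℕ} (hs : 0 < s) : Real.sqrt (m : ℝ) ≤ (nstep m s : ℝ) := by
  have h0 : nstep m s = (s + m / s) / 2 + 1 := rfl
  rw [h0]
  have hs' : (0 : ℝ) < (s : ℝ) := by exact_mod_cast hs
  have h1 : m < (m / s + 1) * s := by
    have := Nat.lt_mul_div_succ m hs
    nlinarith [this]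
  have h1' : (m : ℝ) < (((m / s : ℕ) : ℝ) + 1) * s := by exact_mod_cast h1
  have h2 : s + m / s < 2 * ((s + m / s) / 2 + 1) := by
    generalize m / s = t
    omega
  have h2' : (s : ℝ) + ((m / s : ℕ) : ℝ) + 1 ≤ 2 * (((s + m / s) / 2 : ℕ) + 1 : ℝ) := by
    exact_mod_cast h2
  push_cast
  have h3 : Real.sqrt (m : ℝ) ≤ ((s : ℝ) + (((m / s : ℕ) : ℝ) + 1)) / 2 := by
    apply Real.sqrt_le_iff.mpr
    constructor
    · positivity
    · nlinarith [sq_nonneg ((s : ℝ) - (((m / s : ℕ) : ℝ) + 1)), h1']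
  linarith

theorem cs_nstep_pos (m s : ℕ) : 0 < nstep m s := by
  have h0 : nstep m s = (s + m / s) / 2 + 1 := rfl
  rw [h0]
  exact Nat.succ_pos _

theorem cs_sqrtU (m : ℕ) : Real.sqrt (m : ℝ) ≤ (sqrtU m : ℝ) := by
  unfold sqrtU
  exact cs_nstep (cs_nstep_pos _ _)

theorem le_nrm (x y : Int) : Real.sqrt ((x : ℝ) ^ 2 + (y : ℝ) ^ 2) ≤ (nrm x y : ℝ) := by
  have h := cs_sqrtU (x.natAbs * x.natAbs + y.natAbs * y.natAbs)
  have h1 : ((x.natAbs * x.natAbs + y.natAbs * y.natAbs : ℕ) : ℝ) = (x : ℝ) ^ 2 + (y : ℝ) ^ 2 := by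
    have e1 : ((x.natAbs * x.natAbs + y.natAbs * y.natAbs : ℕ) : ℤ) = x ^ 2 + y ^ 2 := by
      push_cast
      rw [← sq, ← sq, sq_abs, sq_abs]
    have e2 : (((x.natAbs * x.natAbs + y.natAbs * y.natAbs : ℕ) : ℤ) : ℝ)
        = ((x ^ 2 + y ^ 2 : ℤ) : ℝ) := by rw [e1]
    rw [Int.cast_natCast] at e2
    rw [e2]
    push_cast
    ring
  rw [h1] at h
  have h2 : ((nrm x y : Int) : ℝ) = ((sqrtU (x.natAbs * x.natAbs + y.natAbs * y.natAbs) : ℕ) : ℝ) := by
    have e2 : nrm x y = ((sqrtU (x.natAbs * x.natAbs + y.natAbs * y.natAbs) : ℕ) : ℤ) := rfl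
    rw [e2, Int.cast_natCast]
  rw [h2]
  exact h

theorem isPos_iff (x : Int) : isPos x = true ↔ 0 < x := by
  cases x with
  | ofNat n =>
    have h : isPos (Int.ofNat n) = Nat.blt 0 n := rfl
    rw [h]
    have h2 : (Nat.blt 0 n = true) ↔ 0 < n := by
      rw [Nat.blt_eq]
    rw [h2]
    constructor
    · intro h
      exact Int.natCast_pos.mpr h
    · intro h
      exact Int.natCast_pos.mp h
  | negSucc n =>
    constructor
    · intro h
      have h1 : isPos (Int.negSucc n) = false := rfl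
      rw [h1] at h
      exact absurd h (by decide)
    · intro h
      exact absurd h (by have := Int.negSucc_lt_zero n; omega)

theorem le_iff (a b : Int) : le a b = true ↔ a ≤ b := by
  unfold le
  rw [isPos_iff, cs_iadd, cs_iadd, cs_ineg]
  omega

theorem le_halfU (x : Int) : rv x / 2 ≤ rv (halfU x) := by
  have h := (cs_ediv_le x (n := 2) (by norm_num)).2
  have h1 : halfU x = x / 2 + 1 := rfl
  rw [h1]
  unfold rv
  push_cast at h ⊢
  have h2 : (x : ℝ) / 2 ^ 40 / 2 = ((x : ℝ) / 2) / 2 ^ 40 := by ring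
  rw [h2]
  exact div_le_div_of_nonneg_right h.le (by positivity)

theorem absI_eq (x : Int) : absI x = |x| := by
  have h : absI x = ((x.natAbs : ℕ) : ℤ) := rfl
  rw [h, Int.natCast_natAbs]

theorem cs_rv_abs (x : Int) : rv (absI x) = |rv x| := by
  rw [absI_eq]
  unfold rv
  rw [Int.cast_abs, abs_div, abs_of_pos (by positivity : (0 : ℝ) < 2 ^ 40)]

theorem cs_rv_le {a b : Int} (h : a ≤ b) : rv a ≤ rv b := by
  unfold rv
  exact div_le_div_of_nonneg_right (by exact_mod_cast h) (by positivity)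

/-- one unit in the last place -/
noncomputable def ulp : ℝ := 1 / 2 ^ 40

theorem cs_ulp_pos : 0 < ulp := by
  unfold ulp
  positivity

/-- rounding error of `shr` -/
theorem cs_rv_shr (x : Int) : rv (shr x) ≤ (x : ℝ) / 2 ^ 80 ∧ (x : ℝ) / 2 ^ 80 ≤ rv (shr x) + ulp := by
  have h := shr_le x
  unfold rv ulp
  have h2 : (x : ℝ) / 2 ^ 80 = ((x : ℝ) / 2 ^ 40) / 2 ^ 40 := by ring
  rw [h2]
  constructor
  · exact div_le_div_of_nonneg_right h.1 (by positivity)
  · rw [← add_div]
    exact div_le_div_of_nonneg_right h.2.le (by positivity)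

/-- rounding error of division -/
theorem cs_rv_ediv (x : Int) {p : Int} (hp : 0 < p) :
    rv (Int.ediv (Int.mul x 1099511627776) p) ≤ rv x / rv p ∧
      rv x / rv p ≤ rv (Int.ediv (Int.mul x 1099511627776) p) + ulp := by
  have hp' : (0 : ℝ) < (p : ℝ) := by exact_mod_cast hp
  have h := cs_ediv_le (x * 1099511627776) hp
  rw [cs_iediv, cs_imul]
  unfold rv ulp
  push_cast at h
  have h2 : (x : ℝ) / 2 ^ 40 / ((p : ℝ) / 2 ^ 40) = ((x : ℝ) * 1099511627776 / p) / 2 ^ 40 := by
    field_simp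
    norm_num
  rw [h2]
  constructor
  · exact div_le_div_of_nonneg_right h.1 (by positivity)
  · rw [← add_div]
    exact div_le_div_of_nonneg_right h.2.le (by positivity)

/-- a complex number with both coordinates small -/
theorem cs_norm_le_two {z : ℂ} {d : ℝ} (h1 : |z.re| ≤ d) (h2 : |z.im| ≤ d) : ‖z‖ ≤ 2 * d := by
  have := Complex.norm_le_abs_re_add_abs_im z
  linarith

namespace CB.Mem

variable {z w : ℂ} {a b : CB}

theorem rad_nonneg (h : CB.Mem z a) : 0 ≤ a.rad := by
  have h1 : 0 ≤ rv a.rad := le_trans (norm_nonneg _) h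
  unfold rv at h1
  rw [div_nonneg_iff] at h1
  rcases h1 with h1 | h1
  · exact_mod_cast h1.1
  · exact absurd h1.2 (by norm_num)

theorem cs_rv_rad (h : CB.Mem z a) : 0 ≤ rv a.rad := le_trans (norm_nonneg _) h

theorem add (hz : CB.Mem z a) (hw : CB.Mem w b) : CB.Mem (z + w) (CB.add a b) := by
  unfold CB.Mem at *
  have h : (CB.add a b).mid = a.mid + b.mid := by
    unfold CB.mid CB.add
    apply Complex.ext
    · simp only [rv_add, Complex.add_re]
    · simp only [rv_add, Complex.add_im]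
  have h2 : rv (CB.add a b).rad = rv a.rad + rv b.rad := by
    unfold CB.add
    exact rv_add _ _
  rw [h, h2, show z + w - (a.mid + b.mid) = (z - a.mid) + (w - b.mid) by ring]
  exact le_trans (norm_add_le _ _) (add_le_add hz hw)

theorem neg (hz : CB.Mem z a) : CB.Mem (-z) (CB.neg a) := by
  unfold CB.Mem at *
  have h : (CB.neg a).mid = -a.mid := by
    unfold CB.mid CB.neg
    apply Complex.ext
    · simp only [rv_neg, Complex.neg_re]
    · simp only [rv_neg, Complex.neg_im]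
  have h2 : rv (CB.neg a).rad = rv a.rad := rfl
  rw [h, h2, show -z - -a.mid = -(z - a.mid) by ring, norm_neg]
  exact hz

theorem sub (hz : CB.Mem z a) (hw : CB.Mem w b) : CB.Mem (z - w) (CB.sub a b) := by
  rw [sub_eq_add_neg]
  exact add hz (neg hw)

theorem conjB (hz : CB.Mem z a) : CB.Mem (conj z) (CB.conj a) := by
  unfold CB.Mem at *
  have h : (CB.conj a).mid = conj a.mid := by
    unfold CB.mid CB.conj
    apply Complex.ext
    · simp only [Complex.conj_re]
    · simp only [rv_neg, Complex.conj_im]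
  have h2 : rv (CB.conj a).rad = rv a.rad := rfl
  rw [h, h2, ← map_sub, Complex.norm_conj]
  exact hz

theorem nsm (hz : CB.Mem z a) {n : Int} (hn : 0 ≤ n) : CB.Mem ((n : ℂ) * z) (CB.nsm n a) := by
  unfold CB.Mem at *
  have hm : ∀ x : Int, rv (Int.mul n x) = (n : ℝ) * rv x := by
    intro x
    rw [cs_imul]
    unfold rv
    push_cast
    ring
  have h : (CB.nsm n a).mid = (n : ℂ) * a.mid := by
    unfold CB.mid CB.nsm
    apply Complex.ext
    · simp only [Complex.mul_re, Complex.intCast_re, Complex.intCast_im, hm]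
      ring
    · simp only [Complex.mul_im, Complex.intCast_re, Complex.intCast_im, hm]
      ring
  have h2 : rv (CB.nsm n a).rad = (n : ℝ) * rv a.rad := hm _
  rw [h, h2, ← mul_sub, norm_mul]
  have h3 : ‖((n : ℤ) : ℂ)‖ = (n : ℝ) := by
    rw [Complex.norm_intCast, abs_of_nonneg (by exact_mod_cast hn)]
  rw [h3]
  exact mul_le_mul_of_nonneg_left hz (by exact_mod_cast hn)

theorem cs_norm_mid (a : CB) : ‖a.mid‖ ≤ |rv a.re| + |rv a.im| :=
  Complex.norm_le_abs_re_add_abs_im a.mid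

theorem mul (hz : CB.Mem z a) (hw : CB.Mem w b) : CB.Mem (z * w) (CB.mul a b) := by
  have hu := cs_ulp_pos
  have ra := cs_rv_rad hz
  have rb := cs_rv_rad hw
  unfold CB.Mem at hz hw ⊢
  have key : ‖z * w - a.mid * b.mid‖ ≤ (|rv a.re| + |rv a.im|) * rv b.rad
      + (|rv b.re| + |rv b.im|) * rv a.rad + rv a.rad * rv b.rad := by
    have e : z * w - a.mid * b.mid = a.mid * (w - b.mid) + b.mid * (z - a.mid)
        + (z - a.mid) * (w - b.mid) := by ring
    rw [e]
    refine le_trans (norm_add₃_le) ?_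
    rw [norm_mul, norm_mul, norm_mul]
    have h1 := mul_le_mul (cs_norm_mid a) hw (norm_nonneg _) (by positivity)
    have h2 := mul_le_mul (cs_norm_mid b) hz (norm_nonneg _) (by positivity)
    have h3 := mul_le_mul hz hw (norm_nonneg _) ra
    linarith
  have hmid : ‖a.mid * b.mid - (CB.mul a b).mid‖ ≤ 2 * ulp := by
    apply cs_norm_le_two
    · have h := cs_rv_shr (a.re * b.re + -(a.im * b.im))
      have e1 : (CB.mul a b).mid.re = rv (shr (a.re * b.re + -(a.im * b.im))) := rfl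
      have e2 : (a.mid * b.mid).re = ((a.re * b.re + -(a.im * b.im) : Int) : ℝ) / 2 ^ 80 := by
        rw [Complex.mul_re]
        unfold CB.mid rv
        push_cast
        ring
      rw [Complex.sub_re, e1, e2, abs_le]
      constructor <;> linarith [h.1, h.2]
    · have h := cs_rv_shr (a.re * b.im + a.im * b.re)
      have e1 : (CB.mul a b).mid.im = rv (shr (a.re * b.im + a.im * b.re)) := rfl
      have e2 : (a.mid * b.mid).im = ((a.re * b.im + a.im * b.re : Int) : ℝ) / 2 ^ 80 := by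
        rw [Complex.mul_im]
        unfold CB.mid rv
        push_cast
        ring
      rw [Complex.sub_im, e1, e2, abs_le]
      constructor <;> linarith [h.1, h.2]
  have hrad : (|rv a.re| + |rv a.im|) * rv b.rad
      + (|rv b.re| + |rv b.im|) * rv a.rad + rv a.rad * rv b.rad + 2 * ulp
        ≤ rv (CB.mul a b).rad := by
    have h := (cs_rv_shr ((absI a.re + absI a.im) * b.rad + (absI b.re + absI b.im) * a.rad
      + a.rad * b.rad)).2
    have e1 : (CB.mul a b).rad = Int.add (shr ((absI a.re + absI a.im) * b.rad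
      + (absI b.re + absI b.im) * a.rad + a.rad * b.rad)) 3 := rfl
    have e2 : (((absI a.re + absI a.im) * b.rad + (absI b.re + absI b.im) * a.rad
      + a.rad * b.rad : Int) : ℝ) / 2 ^ 80 = (|rv a.re| + |rv a.im|) * rv b.rad
      + (|rv b.re| + |rv b.im|) * rv a.rad + rv a.rad * rv b.rad := by
      rw [← cs_rv_abs, ← cs_rv_abs, ← cs_rv_abs, ← cs_rv_abs]
      unfold rv
      push_cast
      ring
    have e3 : rv 3 = 3 * ulp := by
      unfold rv ulp
      push_cast
      ring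
    rw [e1, rv_add, e3]
    rw [e2] at h
    linarith
  have tri : ‖z * w - (CB.mul a b).mid‖ ≤ ‖z * w - a.mid * b.mid‖
      + ‖a.mid * b.mid - (CB.mul a b).mid‖ := by
    have := norm_add_le (z * w - a.mid * b.mid) (a.mid * b.mid - (CB.mul a b).mid)
    rwa [sub_add_sub_cancel] at this
  linarith

theorem smul (hz : CB.Mem z a) {x : Int} (hx : 0 ≤ x) :
    CB.Mem ((rv x : ℂ) * z) (CB.smul x a) := by
  have hu := cs_ulp_pos
  have hx' : 0 ≤ rv x := by
    unfold rv
    have : (0 : ℝ) ≤ (x : ℝ) := by exact_mod_cast hx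
    positivity
  unfold CB.Mem at hz ⊢
  have key : ‖(rv x : ℂ) * z - (rv x : ℂ) * a.mid‖ ≤ rv x * rv a.rad := by
    rw [← mul_sub, norm_mul, Complex.norm_real, Real.norm_of_nonneg hx']
    exact mul_le_mul_of_nonneg_left hz hx'
  have hmid : ‖(rv x : ℂ) * a.mid - (CB.smul x a).mid‖ ≤ 2 * ulp := by
    apply cs_norm_le_two
    · have h := cs_rv_shr (x * a.re)
      have e1 : (CB.smul x a).mid.re = rv (shr (x * a.re)) := rfl
      have e2 : ((rv x : ℂ) * a.mid).re = ((x * a.re : Int) : ℝ) / 2 ^ 80 := by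
        rw [Complex.re_ofReal_mul]
        unfold CB.mid rv
        push_cast
        ring
      rw [Complex.sub_re, e1, e2, abs_le]
      constructor <;> linarith [h.1, h.2]
    · have h := cs_rv_shr (x * a.im)
      have e1 : (CB.smul x a).mid.im = rv (shr (x * a.im)) := rfl
      have e2 : ((rv x : ℂ) * a.mid).im = ((x * a.im : Int) : ℝ) / 2 ^ 80 := by
        rw [Complex.im_ofReal_mul]
        unfold CB.mid rv
        push_cast
        ring
      rw [Complex.sub_im, e1, e2, abs_le]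
      constructor <;> linarith [h.1, h.2]
  have hrad : rv x * rv a.rad + 2 * ulp ≤ rv (CB.smul x a).rad := by
    have h := (cs_rv_shr (x * a.rad)).2
    have e1 : (CB.smul x a).rad = Int.add (shr (x * a.rad)) 3 := rfl
    have e2 : ((x * a.rad : Int) : ℝ) / 2 ^ 80 = rv x * rv a.rad := by
      unfold rv
      push_cast
      ring
    have e3 : rv 3 = 3 * ulp := by
      unfold rv ulp
      push_cast
      ring
    rw [e1, rv_add, e3]
    rw [e2] at h
    linarith
  have tri : ‖(rv x : ℂ) * z - (CB.smul x a).mid‖ ≤ ‖(rv x : ℂ) * z - (rv x : ℂ) * a.mid‖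
      + ‖(rv x : ℂ) * a.mid - (CB.smul x a).mid‖ := by
    have := norm_add_le ((rv x : ℂ) * z - (rv x : ℂ) * a.mid)
      ((rv x : ℂ) * a.mid - (CB.smul x a).mid)
    rwa [sub_add_sub_cancel] at this
  linarith

theorem sdiv (hz : CB.Mem z a) {p : Int} (hp : 0 < p) :
    CB.Mem (z / (rv p : ℂ)) (CB.sdiv a p) := by
  have hu := cs_ulp_pos
  have hp' : 0 < rv p := by
    unfold rv
    have : (0 : ℝ) < (p : ℝ) := by exact_mod_cast hp
    positivity
  unfold CB.Mem at hz ⊢
  have key : ‖z / (rv p : ℂ) - a.mid / (rv p : ℂ)‖ ≤ rv a.rad / rv p := by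
    rw [← sub_div, norm_div, Complex.norm_real, Real.norm_of_nonneg hp'.le]
    exact div_le_div_of_nonneg_right hz hp'.le
  have hmid : ‖a.mid / (rv p : ℂ) - (CB.sdiv a p).mid‖ ≤ 2 * ulp := by
    apply cs_norm_le_two
    · have h := cs_rv_ediv a.re hp
      have e1 : (CB.sdiv a p).mid.re = rv (Int.ediv (Int.mul a.re 1099511627776) p) := rfl
      have e2 : (a.mid / (rv p : ℂ)).re = rv a.re / rv p := by
        rw [Complex.div_ofReal_re]
        rfl
      rw [Complex.sub_re, e1, e2, abs_le]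
      constructor <;> linarith [h.1, h.2]
    · have h := cs_rv_ediv a.im hp
      have e1 : (CB.sdiv a p).mid.im = rv (Int.ediv (Int.mul a.im 1099511627776) p) := rfl
      have e2 : (a.mid / (rv p : ℂ)).im = rv a.im / rv p := by
        rw [Complex.div_ofReal_im]
        rfl
      rw [Complex.sub_im, e1, e2, abs_le]
      constructor <;> linarith [h.1, h.2]
  have hrad : rv a.rad / rv p + 2 * ulp ≤ rv (CB.sdiv a p).rad := by
    have h := (cs_rv_ediv a.rad hp).2
    have e1 : (CB.sdiv a p).rad = Int.add (Int.ediv (Int.mul a.rad 1099511627776) p) 3 := rfl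
    have e3 : rv 3 = 3 * ulp := by
      unfold rv ulp
      push_cast
      ring
    rw [e1, rv_add, e3]
    linarith
  have tri : ‖z / (rv p : ℂ) - (CB.sdiv a p).mid‖ ≤ ‖z / (rv p : ℂ) - a.mid / (rv p : ℂ)‖
      + ‖a.mid / (rv p : ℂ) - (CB.sdiv a p).mid‖ := by
    have := norm_add_le (z / (rv p : ℂ) - a.mid / (rv p : ℂ))
      (a.mid / (rv p : ℂ) - (CB.sdiv a p).mid)
    rwa [sub_add_sub_cancel] at this
  linarith

theorem cs_norm_mid_le (a : CB) : ‖a.mid‖ ≤ rv (nrm a.re a.im) := by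
  have h := le_nrm a.re a.im
  have e : ‖a.mid‖ = Real.sqrt ((a.re : ℝ) ^ 2 + (a.im : ℝ) ^ 2) / 2 ^ 40 := by
    have e0 : ‖a.mid‖ = Real.sqrt (rv a.re ^ 2 + rv a.im ^ 2) := by
      rw [Complex.norm_def, Complex.normSq_apply]
      congr 1
      unfold CB.mid
      ring
    have e1 : rv a.re ^ 2 + rv a.im ^ 2 = ((a.re : ℝ) ^ 2 + (a.im : ℝ) ^ 2) / (2 ^ 40) ^ 2 := by
      unfold rv
      ring
    rw [e0, e1, Real.sqrt_div' _ (by positivity), Real.sqrt_sq (by positivity)]
  rw [e]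
  unfold rv
  exact div_le_div_of_nonneg_right h (by positivity)

theorem norm_le (hz : CB.Mem z a) : ‖z‖ ≤ rv a.up := by
  have h := cs_norm_mid_le a
  unfold CB.Mem at hz
  have e : rv a.up = rv (nrm a.re a.im) + rv a.rad := rv_add _ _
  rw [e]
  have h2 : ‖z‖ ≤ ‖a.mid‖ + ‖z - a.mid‖ := by
    have := norm_add_le a.mid (z - a.mid)
    rwa [add_sub_cancel] at this
  linarith

theorem re_ge (hz : CB.Mem z a) : rv (Int.add a.re (Int.neg a.rad)) ≤ z.re := by
  rw [rv_add, rv_neg]
  have h := le_trans (Complex.abs_re_le_norm (z - a.mid)) hz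
  rw [Complex.sub_re] at h
  have e : a.mid.re = rv a.re := rfl
  rw [e] at h
  linarith [(abs_le.mp h).1]

theorem abs_re_le (hz : CB.Mem z a) : |z.re| ≤ rv (Int.add (absI a.re) a.rad) := by
  rw [rv_add, cs_rv_abs]
  have h := le_trans (Complex.abs_re_le_norm (z - a.mid)) hz
  rw [Complex.sub_re] at h
  have e : a.mid.re = rv a.re := rfl
  rw [e] at h
  have h2 := abs_sub_abs_le_abs_sub z.re (rv a.re)
  linarith

theorem abs_im_le (hz : CB.Mem z a) : |z.im| ≤ rv (Int.add (absI a.im) a.rad) := by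
  rw [rv_add, cs_rv_abs]
  have h := le_trans (Complex.abs_im_le_norm (z - a.mid)) hz
  rw [Complex.sub_im] at h
  have e : a.mid.im = rv a.im := rfl
  rw [e] at h
  have h2 := abs_sub_abs_le_abs_sub z.im (rv a.im)
  linarith

end CB.Mem

/-- the exact point of the circle -/
noncomputable def wpt (p : Int) : ℂ :=
  ⟨(16777216 - (p : ℝ) ^ 2) / (16777216 + (p : ℝ) ^ 2), 8192 * (p : ℝ) / (16777216 + (p : ℝ) ^ 2)⟩

theorem norm_wpt (p : Int) : ‖wpt p‖ = 1 := by
  have hpos : (0 : ℝ) < 16777216 + (p : ℝ) ^ 2 := by positivity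
  rw [Complex.norm_def, Real.sqrt_eq_one, Complex.normSq_apply]
  unfold wpt
  simp only
  field_simp
  ring

theorem mem_unitW (p : Int) : CB.Mem (wpt p) (unitW p) := by
  have hpos : (0 : ℝ) < 16777216 + (p : ℝ) ^ 2 := by positivity
  have hposI : (0 : Int) < 16777216 + p * p := by
    have := mul_self_nonneg p
    linarith
  have hcast : (((16777216 + p * p : Int)) : ℝ) = 16777216 + (p : ℝ) ^ 2 := by
    push_cast
    ring
  unfold CB.Mem
  have e3 : rv (unitW p).rad = 2 * ulp := by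
    have : (unitW p).rad = 2 := rfl
    rw [this]
    unfold rv ulp
    push_cast
    ring
  rw [e3]
  apply cs_norm_le_two
  · have h := cs_ediv_le ((16777216 + -(p * p)) * 1099511627776) hposI
    have e1 : (unitW p).mid.re
        = rv (((16777216 + -(p * p)) * 1099511627776) / (16777216 + p * p)) := rfl
    have e2 : (wpt p).re = (16777216 - (p : ℝ) ^ 2) / (16777216 + (p : ℝ) ^ 2) := rfl
    rw [hcast] at h
    rw [Complex.sub_re, e1, e2]
    have e4 : (((16777216 + -(p * p)) * 1099511627776 : Int) : ℝ) / (16777216 + (p : ℝ) ^ 2)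
        = (16777216 - (p : ℝ) ^ 2) / (16777216 + (p : ℝ) ^ 2) * 2 ^ 40 := by
      push_cast
      ring
    rw [e4] at h
    generalize ((16777216 + -(p * p)) * 1099511627776) / (16777216 + p * p) = t at h ⊢
    unfold rv ulp
    rw [abs_le]
    constructor
    · have := h.1
      rw [neg_le_sub_iff_le_add, div_le_iff₀ (by positivity)]
      rw [add_mul]
      have : (0 : ℝ) ≤ 1 / 2 ^ 40 * 2 ^ 40 := by positivity
      linarith
    · have := h.2
      rw [sub_le_iff_le_add, ← add_div, le_div_iff₀ (by positivity)]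
      linarith
  · have h := cs_ediv_le ((8192 * p) * 1099511627776) hposI
    have e1 : (unitW p).mid.im
        = rv (((8192 * p) * 1099511627776) / (16777216 + p * p)) := rfl
    have e2 : (wpt p).im = 8192 * (p : ℝ) / (16777216 + (p : ℝ) ^ 2) := rfl
    rw [hcast] at h
    rw [Complex.sub_im, e1, e2]
    have e4 : (((8192 * p) * 1099511627776 : Int) : ℝ) / (16777216 + (p : ℝ) ^ 2)
        = 8192 * (p : ℝ) / (16777216 + (p : ℝ) ^ 2) * 2 ^ 40 := by
      push_cast
      ring
    rw [e4] at h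
    generalize ((8192 * p) * 1099511627776) / (16777216 + p * p) = t at h ⊢
    unfold rv ulp
    rw [abs_le]
    constructor
    · have := h.1
      rw [neg_le_sub_iff_le_add, div_le_iff₀ (by positivity)]
      rw [add_mul]
      have : (0 : ℝ) ≤ 1 / 2 ^ 40 * 2 ^ 40 := by positivity
      linarith
    · have := h.2
      rw [sub_le_iff_le_add, ← add_div, le_div_iff₀ (by positivity)]
      linarith

/-- the real atom -/
noncomputable def At.real (a : At) : Atom :=
  ⟨wpt a.p, (a.l : ℝ) / 2 ^ 12, ⟨(a.ex : ℝ) / 2 ^ 12, (a.ey : ℝ) / 2 ^ 12⟩⟩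

theorem At.real_OK (a : At) : a.real.OK := by
  refine ⟨norm_wpt a.p, ?_⟩
  have h : a.real.l = (a.l : ℝ) / 2 ^ 12 := rfl
  rw [h]
  positivity

/-- `K2 = K2i / 2^28 ≥ 2.921267` -/
noncomputable def K2r : ℝ := (K2i : ℝ) / 2 ^ 28

theorem K2r_ge : (2.921267 : ℝ) ≤ K2r := by
  unfold K2r K2i
  norm_num

/-- soundness of the moments -/
structure MomOK (L : List Atom) (m : Mom) : Prop where
  a0 : CB.Mem (aR L 0) m.a0
  a1 : CB.Mem (aR L 1) m.a1
  a2 : CB.Mem (aR L 2) m.a2
  a3 : CB.Mem (aR L 3) m.a3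
  a4 : CB.Mem (aR L 4) m.a4
  b0 : CB.Mem (aL L 0) m.b0
  b1 : CB.Mem (aL L 1) m.b1
  b2 : CB.Mem (aL L 2) m.b2
  b3 : CB.Mem (aL L 3) m.b3
  b4 : CB.Mem (aL L 4) m.b4
  cst : (L.map fun a => a.l * (‖a.e‖ ^ 2 + K2r)).sum = rv m.cst
  A : cA L ≤ rv m.A

theorem cs_mem_zero : CB.Mem 0 zeroCB := by
  unfold CB.Mem
  have h : zeroCB.mid = 0 := by
    unfold CB.mid zeroCB rv
    apply Complex.ext <;> simp
  rw [h]
  unfold zeroCB rv
  simp

theorem cs_mem_ce (a : At) : CB.Mem ((a.real.l : ℂ) * conj a.real.e) a.ce := by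
  unfold CB.Mem
  have h : a.ce.mid = (a.real.l : ℂ) * conj a.real.e := by
    have e1 : a.ce.mid.re = rv ((a.l : Int) * a.ex * 65536) := rfl
    have e2 : a.ce.mid.im = rv (-((a.l : Int) * a.ey * 65536)) := rfl
    have e3 : a.real.e = ⟨(a.ex : ℝ) / 2 ^ 12, (a.ey : ℝ) / 2 ^ 12⟩ := rfl
    have e4 : a.real.l = (a.l : ℝ) / 2 ^ 12 := rfl
    apply Complex.ext
    · rw [e1, Complex.re_ofReal_mul, Complex.conj_re, e3, e4]
      unfold rv
      push_cast
      ring
    · rw [e2, Complex.im_ofReal_mul, Complex.conj_im, e3, e4]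
      unfold rv
      push_cast
      ring
  rw [h, sub_self, norm_zero]
  have : a.ce.rad = 0 := rfl
  rw [this]
  unfold rv
  simp

theorem cs_cst (a : At) : a.real.l * (‖a.real.e‖ ^ 2 + K2r) = rv a.cst := by
  have e1 : a.cst = (a.l : Int) * (16 * (a.ex * a.ex + a.ey * a.ey) + K2i) := rfl
  have e3 : a.real.e = ⟨(a.ex : ℝ) / 2 ^ 12, (a.ey : ℝ) / 2 ^ 12⟩ := rfl
  have e4 : a.real.l = (a.l : ℝ) / 2 ^ 12 := rfl
  rw [e1, ← Complex.normSq_eq_norm_sq, Complex.normSq_apply, e3, e4]
  unfold rv K2r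
  push_cast
  ring

theorem cs_A (a : At) : a.real.l * ‖a.real.e‖ ≤ rv a.A := by
  have h := le_nrm a.ex a.ey
  have e1 : a.A = (a.l : Int) * nrm a.ex a.ey * 65536 := rfl
  have e3 : ‖a.real.e‖ = Real.sqrt ((a.ex : ℝ) ^ 2 + (a.ey : ℝ) ^ 2) / 2 ^ 12 := by
    have e0 : ‖a.real.e‖ = Real.sqrt (((a.ex : ℝ) / 2 ^ 12) ^ 2 + ((a.ey : ℝ) / 2 ^ 12) ^ 2) := by
      rw [Complex.norm_def, Complex.normSq_apply]
      congr 1
      unfold At.real
      ring
    have e1 : ((a.ex : ℝ) / 2 ^ 12) ^ 2 + ((a.ey : ℝ) / 2 ^ 12) ^ 2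
        = ((a.ex : ℝ) ^ 2 + (a.ey : ℝ) ^ 2) / (2 ^ 12) ^ 2 := by
      ring
    rw [e0, e1, Real.sqrt_div' _ (by positivity), Real.sqrt_sq (by positivity)]
  have e4 : a.real.l = (a.l : ℝ) / 2 ^ 12 := rfl
  rw [e1, e3, e4]
  unfold rv
  push_cast
  have h2 : (a.l : ℝ) / 2 ^ 12 * (Real.sqrt ((a.ex : ℝ) ^ 2 + (a.ey : ℝ) ^ 2) / 2 ^ 12)
      = ((a.l : ℝ) * Real.sqrt ((a.ex : ℝ) ^ 2 + (a.ey : ℝ) ^ 2)) * 65536 / 2 ^ 40 := by
    ring
  rw [h2]
  apply div_le_div_of_nonneg_right _ (by positivity)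
  apply mul_le_mul_of_nonneg_right _ (by norm_num)
  exact mul_le_mul_of_nonneg_left h (by positivity)

theorem cs_aR_cons (a : Atom) (L : List Atom) (n : ℕ) :
    aR (a :: L) n = aR L n + (a.l : ℂ) * conj a.e * a.w ^ (2 * n + 1) := by
  unfold aR
  rw [List.map_cons, List.sum_cons, add_comm]

theorem cs_aL_cons (a : Atom) (L : List Atom) (n : ℕ) :
    aL (a :: L) n = aL L n + (a.l : ℂ) * conj a.e * (conj a.w) ^ (2 * n + 1) := by
  unfold aL
  rw [List.map_cons, List.sum_cons, add_comm]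

theorem moments_sound (L : List At) : MomOK (L.map At.real) (moments L) := by
  induction L with
  | nil =>
    have hR : ∀ n, aR (([] : List At).map At.real) n = 0 := by
      intro n
      simp [aR]
    have hL : ∀ n, aL (([] : List At).map At.real) n = 0 := by
      intro n
      simp [aL]
    have hz : rv 0 = 0 := by simp [rv]
    constructor
    · rw [hR]; exact cs_mem_zero
    · rw [hR]; exact cs_mem_zero
    · rw [hR]; exact cs_mem_zero
    · rw [hR]; exact cs_mem_zero
    · rw [hR]; exact cs_mem_zero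
    · rw [hL]; exact cs_mem_zero
    · rw [hL]; exact cs_mem_zero
    · rw [hL]; exact cs_mem_zero
    · rw [hL]; exact cs_mem_zero
    · rw [hL]; exact cs_mem_zero
    · have : (moments []).cst = 0 := rfl
      rw [this, hz]
      simp
    · have : (moments []).A = 0 := rfl
      rw [this, hz]
      simp [cA]
  | cons a L ih =>
    have hw : CB.Mem a.real.w (unitW a.p) := mem_unitW a.p
    have hc := cs_mem_ce a
    have h1 : CB.Mem (a.real.w ^ (2 * 0 + 1)) (unitW a.p) := by
      rw [show a.real.w ^ (2 * 0 + 1) = a.real.w by ring]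
      exact hw
    have h2 : CB.Mem (a.real.w ^ 2) (CB.mul (unitW a.p) (unitW a.p)) := by
      rw [show a.real.w ^ 2 = a.real.w * a.real.w by ring]
      exact hw.mul hw
    have h3 := hw.mul h2
    have h5 := h3.mul h2
    have h7 := h5.mul h2
    have h9 := h7.mul h2
    rw [show a.real.w * a.real.w ^ 2 * a.real.w ^ 2 * a.real.w ^ 2 * a.real.w ^ 2
      = a.real.w ^ (2 * 4 + 1) by ring] at h9
    rw [show a.real.w * a.real.w ^ 2 * a.real.w ^ 2 * a.real.w ^ 2
      = a.real.w ^ (2 * 3 + 1) by ring] at h7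
    rw [show a.real.w * a.real.w ^ 2 * a.real.w ^ 2 = a.real.w ^ (2 * 2 + 1) by ring] at h5
    rw [show a.real.w * a.real.w ^ 2 = a.real.w ^ (2 * 1 + 1) by ring] at h3
    have c1 := h1.conjB
    have c3 := h3.conjB
    have c5 := h5.conjB
    have c7 := h7.conjB
    have c9 := h9.conjB
    rw [map_pow] at c1 c3 c5 c7 c9
    have hm : moments (a :: L) = Mom.step (moments L) a := rfl
    have hl : (a :: L).map At.real = a.real :: L.map At.real := rfl
    rw [hm, hl]
    constructor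
    · rw [cs_aR_cons]; exact ih.a0.add (hc.mul h1)
    · rw [cs_aR_cons]; exact ih.a1.add (hc.mul h3)
    · rw [cs_aR_cons]; exact ih.a2.add (hc.mul h5)
    · rw [cs_aR_cons]; exact ih.a3.add (hc.mul h7)
    · rw [cs_aR_cons]; exact ih.a4.add (hc.mul h9)
    · rw [cs_aL_cons]; exact ih.b0.add (hc.mul c1)
    · rw [cs_aL_cons]; exact ih.b1.add (hc.mul c3)
    · rw [cs_aL_cons]; exact ih.b2.add (hc.mul c5)
    · rw [cs_aL_cons]; exact ih.b3.add (hc.mul c7)
    · rw [cs_aL_cons]; exact ih.b4.add (hc.mul c9)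
    · rw [List.map_cons, List.sum_cons, ih.cst, cs_cst]
      have : ((moments L).step a).cst = Int.add (moments L).cst a.cst := rfl
      rw [this, rv_add, add_comm]
    · have e : cA (a.real :: L.map At.real) = a.real.l * ‖a.real.e‖ + cA (L.map At.real) := by
        unfold cA
        rw [List.map_cons, List.sum_cons]
      have : ((moments L).step a).A = Int.add (moments L).A a.A := rfl
      rw [e, this, rv_add]
      have := cs_A a
      have := ih.A
      linarith

end MaxTerm.PA.Chk
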