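import Pool.Agent.MaxTerm.PartA.Modes

/-!
# Part A, mode E: expansion of the monomials around the constant sequence
-/

open Filter Topology ComplexConjugate

namespace MaxTerm.PA.ModeE

/-- `P` is a product of `N` factors of size `≤ X`, `S` resp. `T` is the sum of the differences to
`v` resp. of their norms. -/
structure Lin (X : ℝ) (v P : ℂ) (N : ℕ) (S : ℂ) (T : ℝ) : Prop where
  t0 : 0 ≤ T
  n : ‖P‖ ≤ X ^ N
  a : X * ‖P - v ^ N‖ ≤ X ^ N * T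
  b : X ^ 2 * ‖P - v ^ N - v ^ N / v * S‖ ≤ X ^ N * T ^ 2 / 2

theorem Lin.one {X : ℝ} {v : ℂ} : Lin X v 1 0 0 0 := by
  refine ⟨le_rfl, by simp, by simp, by simp⟩

theorem Lin.single {X : ℝ} {v y : ℂ} (hX : 0 ≤ X) (hv : v ≠ 0) (hy : ‖y‖ ≤ X) :
    Lin X v y 1 (y - v) ‖y - v‖ := by
  refine ⟨norm_nonneg _, by simpa using hy, by simp, ?_⟩
  have e : y - v ^ 1 - v ^ 1 / v * (y - v) = 0 := by
    rw [pow_one, div_self hv]
    ring
  rw [e, norm_zero, mul_zero]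
  positivity

theorem Lin.mul {X : ℝ} {v P P' : ℂ} {N N' : ℕ} {S S' : ℂ} {T T' : ℝ} (hX : 0 ≤ X)
    (hvX : ‖v‖ ≤ X) (h : Lin X v P N S T) (h' : Lin X v P' N' S' T') :
    Lin X v (P * P') (N + N') (S + S') (T + T') := by
  have hv : ∀ k : ℕ, ‖v ^ k‖ ≤ X ^ k := fun k => by
    rw [norm_pow]
    exact pow_le_pow_left₀ (norm_nonneg _) hvX k
  refine ⟨add_nonneg h.t0 h'.t0, ?_, ?_, ?_⟩
  · rw [norm_mul, pow_add]
    exact mul_le_mul h.n h'.n (norm_nonneg _) (by positivity)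
  · have e : P * P' - v ^ (N + N') = (P - v ^ N) * P' + v ^ N * (P' - v ^ N') := by
      rw [pow_add]
      ring
    rw [e]
    calc X * ‖(P - v ^ N) * P' + v ^ N * (P' - v ^ N')‖
        ≤ X * (‖P - v ^ N‖ * ‖P'‖ + ‖v ^ N‖ * ‖P' - v ^ N'‖) := by
          apply mul_le_mul_of_nonneg_left _ hX
          rw [← norm_mul, ← norm_mul]
          exact norm_add_le _ _
      _ = (X * ‖P - v ^ N‖) * ‖P'‖ + ‖v ^ N‖ * (X * ‖P' - v ^ N'‖) := by ring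
      _ ≤ (X ^ N * T) * X ^ N' + X ^ N * (X ^ N' * T') := by
          apply add_le_add
          · exact mul_le_mul h.a h'.n (norm_nonneg _) (mul_nonneg (by positivity) h.t0)
          · exact mul_le_mul (hv N) h'.a (by positivity) (by positivity)
      _ = X ^ (N + N') * (T + T') := by
          rw [pow_add]
          ring
  · have e : P * P' - v ^ (N + N') - v ^ (N + N') / v * (S + S') =
        (P - v ^ N) * (P' - v ^ N') + v ^ N' * (P - v ^ N - v ^ N / v * S) +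
          v ^ N * (P' - v ^ N' - v ^ N' / v * S') := by
      rw [pow_add]
      ring
    rw [e]
    calc X ^ 2 * ‖(P - v ^ N) * (P' - v ^ N') + v ^ N' * (P - v ^ N - v ^ N / v * S) +
          v ^ N * (P' - v ^ N' - v ^ N' / v * S')‖
        ≤ X ^ 2 * (‖P - v ^ N‖ * ‖P' - v ^ N'‖ + ‖v ^ N'‖ * ‖P - v ^ N - v ^ N / v * S‖ +
          ‖v ^ N‖ * ‖P' - v ^ N' - v ^ N' / v * S'‖) := by
          apply mul_le_mul_of_nonneg_left _ (by positivity)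
          rw [← norm_mul, ← norm_mul, ← norm_mul]
          exact norm_add₃_le
      _ = (X * ‖P - v ^ N‖) * (X * ‖P' - v ^ N'‖) +
          ‖v ^ N'‖ * (X ^ 2 * ‖P - v ^ N - v ^ N / v * S‖) +
          ‖v ^ N‖ * (X ^ 2 * ‖P' - v ^ N' - v ^ N' / v * S'‖) := by ring
      _ ≤ (X ^ N * T) * (X ^ N' * T') + X ^ N' * (X ^ N * T ^ 2 / 2) +
          X ^ N * (X ^ N' * T' ^ 2 / 2) := by
          refine add_le_add (add_le_add ?_ ?_) ?_
          · exact mul_le_mul h.a h'.a (by positivity) (mul_nonneg (by positivity) h.t0)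
          · exact mul_le_mul (hv N') h.b (by positivity) (by positivity)
          · exact mul_le_mul (hv N) h'.b (by positivity) (by positivity)
      _ = X ^ (N + N') * (T + T') ^ 2 / 2 := by
          rw [pow_add]
          ring

theorem Lin.pow {X : ℝ} {v P : ℂ} {N : ℕ} {S : ℂ} {T : ℝ} (hX : 0 ≤ X)
    (hvX : ‖v‖ ≤ X) (h : Lin X v P N S T) (k : ℕ) :
    Lin X v (P ^ k) (k * N) (k * S) (k * T) := by
  induction k with
  | zero => simpa using Lin.one (X := X) (v := v)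
  | succ k ih =>
    have := ih.mul hX hvX h
    rw [pow_succ]
    convert this using 1
    · ring
    · push_cast
      ring
    · push_cast
      ring

theorem Lin.prod {X : ℝ} {v : ℂ} (hX : 0 ≤ X) (hvX : ‖v‖ ≤ X) {P : ℕ → ℂ} {N : ℕ → ℕ} {S : ℕ → ℂ}
    {T : ℕ → ℝ} (m : ℕ) (h : ∀ i < m, Lin X v (P i) (N i) (S i) (T i)) :
    Lin X v (∏ i ∈ Finset.range m, P i) (∑ i ∈ Finset.range m, N i) (∑ i ∈ Finset.range m, S i)
      (∑ i ∈ Finset.range m, T i) := by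
  induction m with
  | zero => simpa using Lin.one (X := X) (v := v)
  | succ m ih =>
    rw [Finset.prod_range_succ, Finset.sum_range_succ, Finset.sum_range_succ,
      Finset.sum_range_succ]
    exact (ih fun i hi => h i (Nat.lt_succ_of_lt hi)).mul hX hvX (h m (Nat.lt_succ_self m))

theorem sum_ee (m : ℕ) : ∑ i ∈ Finset.range m, (m - i) = ee m := by
  have h : ∑ i ∈ Finset.range m, (m - i) = ∑ i ∈ Finset.range m, (i + 1) := by
    rw [← Finset.sum_range_reflect]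
    refine Finset.sum_congr rfl fun i hi => ?_
    rw [Finset.mem_range] at hi
    omega
  rw [h, ee]
  symm
  apply Nat.div_eq_of_eq_mul_left (by norm_num)
  rw [Finset.sum_add_distrib, Finset.sum_const, Finset.card_range, add_mul,
    Finset.sum_range_id_mul_two, smul_eq_mul]
  rcases m with _ | m
  · rfl
  · simp only [Nat.add_sub_cancel]
    ring

theorem ee_succ (m : ℕ) : ee (m + 1) = ee m + (m + 1) := by
  rw [← sum_ee, ← sum_ee, Finset.sum_range_succ]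
  have h : ∀ i ∈ Finset.range m, m + 1 - i = (m - i) + 1 := by
    intro i hi
    rw [Finset.mem_range] at hi
    omega
  rw [Finset.sum_congr rfl h, Finset.sum_add_distrib, Finset.sum_const, Finset.card_range,
    smul_eq_mul]
  omega

theorem Lin.mon {X : ℝ} {v : ℂ} (hX : 0 ≤ X) (hv : v ≠ 0) (hvX : ‖v‖ ≤ X) {y : ℕ → ℂ}
    (hy : ∀ i, ‖y i‖ ≤ X) (m : ℕ) :
    Lin X v (MaxTerm.PA.mon y m) (ee m)
      (∑ i ∈ Finset.range m, ((m - i : ℕ) : ℂ) * (y i - v))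
      (∑ i ∈ Finset.range m, ((m - i : ℕ) : ℝ) * ‖y i - v‖) := by
  have h := Lin.prod hX hvX (P := fun i => y i ^ (m - i)) (N := fun i => (m - i) * 1)
    (S := fun i => ((m - i : ℕ) : ℂ) * (y i - v)) (T := fun i => ((m - i : ℕ) : ℝ) * ‖y i - v‖) m
    (fun i _ => (Lin.single hX hv (hy i)).pow hX hvX (m - i))
  simp only [mul_one] at h
  rw [sum_ee] at h
  exact h

/-- `gw (m+2) (l+1) = gw (m+1) (l+1) + (m + 1 - l)` -/
theorem gw_succ (m l : ℕ) (h : l ≤ m) : gw (m + 2) (l + 1) = gw (m + 1) (l + 1) + (m + 1 - l) := by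
  obtain ⟨k, rfl⟩ := Nat.exists_eq_add_of_le h
  have e1 : l + k + 2 - (l + 1) = k + 1 := by omega
  have e2 : l + k + 1 - (l + 1) = k := by omega
  have e3 : l + k + 1 - l = k + 1 := by omega
  rw [gw, gw, e1, e2, e3]
  have h1 : (k + 1) * (k + 1 + 1) = k * (k + 1) + (k + 1) * 2 := by ring
  rw [h1, Nat.add_mul_div_right _ _ (by norm_num)]

theorem gw_zero (n l : ℕ) (h : n ≤ l) : gw n l = 0 := by
  rw [gw, Nat.sub_eq_zero_of_le h]

theorem double_sum {R : Type*} [CommRing R] (D : ℕ → R) (m : ℕ) :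
    ∑ i ∈ Finset.range m, ((m - i : ℕ) : R) * ∑ l ∈ Finset.range (i + 1), D l =
      ∑ l ∈ Finset.range m, (gw (m + 1) (l + 1) : R) * D l := by
  have key : ∀ m : ℕ, ∑ i ∈ Finset.range m, ∑ l ∈ Finset.range (i + 1), D l =
      ∑ l ∈ Finset.range m, ((m - l : ℕ) : R) * D l := by
    intro m
    induction m with
    | zero => simp
    | succ m ih =>
      rw [Finset.sum_range_succ, ih, Finset.sum_range_succ _ m, Finset.sum_range_succ _ m,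
        ← add_assoc, ← Finset.sum_add_distrib]
      congr 1
      · refine Finset.sum_congr rfl fun l hl => ?_
        rw [Finset.mem_range] at hl
        have : m + 1 - l = (m - l) + 1 := by omega
        rw [this]
        push_cast
        ring
      · simp
  induction m with
  | zero => simp
  | succ m ih =>
    have e1 : ∀ i ∈ Finset.range m, ((m + 1 - i : ℕ) : R) * ∑ l ∈ Finset.range (i + 1), D l =
        ((m - i : ℕ) : R) * ∑ l ∈ Finset.range (i + 1), D l + ∑ l ∈ Finset.range (i + 1), D l := by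
      intro i hi
      rw [Finset.mem_range] at hi
      have : m + 1 - i = (m - i) + 1 := by omega
      rw [this]
      push_cast
      ring
    rw [Finset.sum_range_succ, Finset.sum_congr rfl e1, Finset.sum_add_distrib, ih]
    have e2 : ((m + 1 - m : ℕ) : R) = 1 := by
      have : m + 1 - m = 1 := by omega
      rw [this, Nat.cast_one]
    rw [e2, one_mul, add_assoc, ← Finset.sum_range_succ (fun i => ∑ l ∈ Finset.range (i + 1), D l),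
      key]
    have e3 : ∑ l ∈ Finset.range m, (gw (m + 1) (l + 1) : R) * D l =
        ∑ l ∈ Finset.range (m + 1), (gw (m + 1) (l + 1) : R) * D l := by
      rw [Finset.sum_range_succ, gw_zero _ _ le_rfl]
      simp
    rw [e3, ← Finset.sum_add_distrib]
    refine Finset.sum_congr rfl fun l hl => ?_
    rw [Finset.mem_range] at hl
    rw [gw_succ m l (by omega)]
    push_cast
    ring

theorem mon_succ (s : ℕ → ℂ) (m : ℕ) :
    mon s (m + 1) = s 0 ^ (m + 1) * mon (fun i => s (i + 1)) m := by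
  unfold mon
  rw [Finset.prod_range_succ', mul_comm]
  congr 1
  refine Finset.prod_congr rfl fun i _ => ?_
  congr 1
  omega

/-- the remainder of the first order expansion of `mon s (n + 2)` around the constant sequence -/
noncomputable def Rm (s : ℕ → ℂ) (n : ℕ) : ℂ :=
  mon s (n + 2) - s 0 ^ ee (n + 2) - s 0 ^ (ee (n + 2) - 1) *
    ∑ l ∈ Finset.range (n + 1), (gw (n + 2) (l + 1) : ℂ) * (s (l + 1) - s l)

/-- the sum of the weighted differences -/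
noncomputable def Tm (s : ℕ → ℂ) (n : ℕ) : ℝ :=
  ∑ l ∈ Finset.range (n + 1), (gw (n + 2) (l + 1) : ℝ) * ‖s (l + 1) - s l‖

theorem Tm_nonneg (s : ℕ → ℂ) (n : ℕ) : 0 ≤ Tm s n := by
  unfold Tm
  positivity

theorem Rm_zero (s : ℕ → ℂ) : Rm s 0 = 0 := by
  simp [Rm, mon, Finset.prod_range_succ, ee, gw]
  ring

theorem ee_pos (n : ℕ) : 1 ≤ ee (n + 1) := by
  rw [ee_succ]
  omega

theorem Rm_le {s : ℕ → ℂ} {r : ℝ} (hs : ∀ i, ‖s i‖ ≤ 3 / 5) (hv : s 0 ≠ 0) (hr : ‖s 0‖ ≤ r) (n : ℕ) :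
    (3 / 5 : ℝ) ^ 2 * ‖Rm s n‖ ≤ r ^ (n + 2) * ((3 / 5 : ℝ) ^ ee (n + 1) * Tm s n ^ 2 / 2) := by
  have hr0 : 0 ≤ r := (norm_nonneg _).trans hr
  have h := Lin.mon (X := 3 / 5) (by norm_num) hv (hs 0) (y := fun i => s (i + 1))
    (fun i => hs (i + 1)) (n + 1)
  have tel : ∀ i, s (i + 1) - s 0 = ∑ l ∈ Finset.range (i + 1), (s (l + 1) - s l) := fun i => by
    rw [Finset.sum_range_sub]
  have e1 : ∑ i ∈ Finset.range (n + 1), ((n + 1 - i : ℕ) : ℂ) * (s (i + 1) - s 0) =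
      ∑ l ∈ Finset.range (n + 1), (gw (n + 2) (l + 1) : ℂ) * (s (l + 1) - s l) := by
    rw [← double_sum (fun l => s (l + 1) - s l) (n + 1)]
    exact Finset.sum_congr rfl fun i _ => by rw [tel]
  have e2 : ∑ i ∈ Finset.range (n + 1), ((n + 1 - i : ℕ) : ℝ) * ‖s (i + 1) - s 0‖ ≤ Tm s n := by
    rw [Tm, ← double_sum (fun l => ‖s (l + 1) - s l‖) (n + 1)]
    refine Finset.sum_le_sum fun i _ => mul_le_mul_of_nonneg_left ?_ (Nat.cast_nonneg _)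
    rw [tel]
    exact norm_sum_le _ _
  have hb := h.b
  rw [e1] at hb
  have e3 : Rm s n = s 0 ^ (n + 2) * (MaxTerm.PA.mon (fun i => s (i + 1)) (n + 1) - s 0 ^ ee (n + 1) -
      s 0 ^ ee (n + 1) / s 0 *
        ∑ l ∈ Finset.range (n + 1), (gw (n + 2) (l + 1) : ℂ) * (s (l + 1) - s l)) := by
    have e4 : s 0 ^ (ee (n + 2) - 1) = s 0 ^ (n + 2) * (s 0 ^ ee (n + 1) / s 0) := by
      rw [← mul_div_assoc, ← pow_add, eq_div_iff hv, ← pow_succ]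
      congr 1
      have h1 : ee (n + 2) = ee (n + 1) + (n + 2) := ee_succ (n + 1)
      have h2 := ee_pos n
      omega
    rw [Rm, mon_succ, e4, show n + 2 = (n + 1) + 1 from rfl, ee_succ (n + 1), pow_add]
    ring
  rw [e3, norm_mul, norm_pow]
  have h2 : (∑ i ∈ Finset.range (n + 1), ((n + 1 - i : ℕ) : ℝ) * ‖s (i + 1) - s 0‖) ^ 2 ≤
      Tm s n ^ 2 := pow_le_pow_left₀ h.t0 e2 2
  calc (3 / 5 : ℝ) ^ 2 * (‖s 0‖ ^ (n + 2) * ‖MaxTerm.PA.mon (fun i => s (i + 1)) (n + 1) -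
        s 0 ^ ee (n + 1) - s 0 ^ ee (n + 1) / s 0 *
          ∑ l ∈ Finset.range (n + 1), (gw (n + 2) (l + 1) : ℂ) * (s (l + 1) - s l)‖)
      = ‖s 0‖ ^ (n + 2) * ((3 / 5 : ℝ) ^ 2 * ‖MaxTerm.PA.mon (fun i => s (i + 1)) (n + 1) -
        s 0 ^ ee (n + 1) - s 0 ^ ee (n + 1) / s 0 *
          ∑ l ∈ Finset.range (n + 1), (gw (n + 2) (l + 1) : ℂ) * (s (l + 1) - s l)‖) := by ring
    _ ≤ r ^ (n + 2) * ((3 / 5 : ℝ) ^ ee (n + 1) * Tm s n ^ 2 / 2) := by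
        apply mul_le_mul (pow_le_pow_left₀ (norm_nonneg _) hr _) _ (by positivity) (by positivity)
        refine hb.trans ?_
        have : (0 : ℝ) ≤ (3 / 5) ^ ee (n + 1) := by positivity
        nlinarith

theorem Rm_one {s : ℕ → ℂ} {r : ℝ} (hs : ∀ i, ‖s i‖ ≤ 3 / 5) (hr : ‖s 0‖ ≤ r) :
    ‖Rm s 1‖ ≤ r ^ 3 * ((3 / 5 + 3 * r) * ‖s 1 - s 0‖ ^ 2 + r * ‖s 2 - s 1‖ ^ 2) := by
  have hr0 : 0 ≤ r := (norm_nonneg _).trans hr
  have e : Rm s 1 = s 0 ^ 3 * ((s 1 - s 0) ^ 2 * s 2 +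
      2 * s 0 * (s 1 - s 0) * ((s 1 - s 0) + (s 2 - s 1))) := by
    simp [Rm, mon, Finset.prod_range_succ, Finset.sum_range_succ, ee, gw]
    ring
  rw [e, norm_mul, norm_pow]
  apply mul_le_mul (pow_le_pow_left₀ (norm_nonneg _) hr _) _ (by positivity) (by positivity)
  refine (norm_add_le _ _).trans ?_
  rw [norm_mul, norm_mul, norm_mul, norm_mul, norm_pow, Complex.norm_ofNat]
  have h1 : ‖(s 1 - s 0) + (s 2 - s 1)‖ ≤ ‖s 1 - s 0‖ + ‖s 2 - s 1‖ := norm_add_le _ _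
  set a := ‖s 1 - s 0‖
  set b := ‖s 2 - s 1‖
  have ha : 0 ≤ a := norm_nonneg _
  have hb : 0 ≤ b := norm_nonneg _
  have h2 : a ^ 2 * ‖s 2‖ ≤ a ^ 2 * (3 / 5) := mul_le_mul_of_nonneg_left (hs 2) (by positivity)
  have h3 : 2 * ‖s 0‖ * a * ‖(s 1 - s 0) + (s 2 - s 1)‖ ≤ 2 * r * a * (a + b) := by
    apply mul_le_mul _ h1 (norm_nonneg _) (by positivity)
    apply mul_le_mul_of_nonneg_right _ ha
    linarith
  have h4 : 0 ≤ r * (a - b) ^ 2 := by positivity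
  nlinarith

theorem Rm_two {s : ℕ → ℂ} {r : ℝ} (hs : ∀ i, ‖s i‖ ≤ 3 / 5) (hr : ‖s 0‖ ≤ r) :
    ‖Rm s 2‖ ≤ r ^ 4 * (K11 r * ‖s 1 - s 0‖ ^ 2 + K22 r * ‖s 2 - s 1‖ ^ 2 +
      K33 r * ‖s 3 - s 2‖ ^ 2) := by
  have hr0 : 0 ≤ r := (norm_nonneg _).trans hr
  have e : Rm s 2 = s 0 ^ 4 * ((s 3 - s 0) * (2 * (s 2 - s 0) + 3 * (s 1 - s 0)) * s 0 ^ 4 +
      (s 2 - s 0) * ((s 2 - s 0) + 3 * (s 1 - s 0)) * (s 0 ^ 3 * s 3) +
      3 * (s 1 - s 0) * (s 2 - s 0) * (s 0 ^ 2 * s 3 * s 2) +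
      2 * (s 1 - s 0) ^ 2 * (s 0 * s 3 * s 2 ^ 2) + (s 1 - s 0) ^ 2 * (s 3 * s 2 ^ 2 * s 1)) := by
    simp [Rm, mon, Finset.prod_range_succ, Finset.sum_range_succ, ee, gw]
    ring
  rw [e, norm_mul, norm_pow]
  apply mul_le_mul (pow_le_pow_left₀ (norm_nonneg _) hr _) _ (by positivity) (by positivity)
  have hx2 : ‖s 2 - s 0‖ ≤ ‖s 1 - s 0‖ + ‖s 2 - s 1‖ := by
    have : s 2 - s 0 = (s 1 - s 0) + (s 2 - s 1) := by ring
    rw [this]
    exact norm_add_le _ _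
  have hx3 : ‖s 3 - s 0‖ ≤ ‖s 1 - s 0‖ + ‖s 2 - s 1‖ + ‖s 3 - s 2‖ := by
    have : s 3 - s 0 = (s 1 - s 0) + (s 2 - s 1) + (s 3 - s 2) := by ring
    rw [this]
    exact norm_add₃_le
  have ha : 0 ≤ ‖s 1 - s 0‖ := norm_nonneg _
  have hb : 0 ≤ ‖s 2 - s 1‖ := norm_nonneg _
  have hc : 0 ≤ ‖s 3 - s 2‖ := norm_nonneg _
  have n1 := hs 1
  have n2 := hs 2
  have n3 := hs 3
  have t1 : ‖(s 3 - s 0) * (2 * (s 2 - s 0) + 3 * (s 1 - s 0)) * s 0 ^ 4‖ ≤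
      (‖s 1 - s 0‖ + ‖s 2 - s 1‖ + ‖s 3 - s 2‖) *
        (2 * (‖s 1 - s 0‖ + ‖s 2 - s 1‖) + 3 * ‖s 1 - s 0‖) * r ^ 4 := by
    rw [norm_mul, norm_mul, norm_pow]
    have : ‖2 * (s 2 - s 0) + 3 * (s 1 - s 0)‖ ≤
        2 * (‖s 1 - s 0‖ + ‖s 2 - s 1‖) + 3 * ‖s 1 - s 0‖ := by
      refine (norm_add_le _ _).trans ?_
      rw [norm_mul, norm_mul, Complex.norm_ofNat, Complex.norm_ofNat]
      linarith
    gcongr
  have t2 : ‖(s 2 - s 0) * ((s 2 - s 0) + 3 * (s 1 - s 0)) * (s 0 ^ 3 * s 3)‖ ≤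
      (‖s 1 - s 0‖ + ‖s 2 - s 1‖) * ((‖s 1 - s 0‖ + ‖s 2 - s 1‖) + 3 * ‖s 1 - s 0‖) *
        (r ^ 3 * (3 / 5)) := by
    rw [norm_mul, norm_mul, norm_mul, norm_pow]
    have : ‖(s 2 - s 0) + 3 * (s 1 - s 0)‖ ≤
        (‖s 1 - s 0‖ + ‖s 2 - s 1‖) + 3 * ‖s 1 - s 0‖ := by
      refine (norm_add_le _ _).trans ?_
      rw [norm_mul, Complex.norm_ofNat]
      linarith
    gcongr
  have t3 : ‖3 * (s 1 - s 0) * (s 2 - s 0) * (s 0 ^ 2 * s 3 * s 2)‖ ≤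
      3 * ‖s 1 - s 0‖ * (‖s 1 - s 0‖ + ‖s 2 - s 1‖) * (r ^ 2 * (3 / 5) * (3 / 5)) := by
    rw [norm_mul, norm_mul, norm_mul, norm_mul, norm_mul, norm_pow, Complex.norm_ofNat]
    gcongr
  have t4 : ‖2 * (s 1 - s 0) ^ 2 * (s 0 * s 3 * s 2 ^ 2)‖ ≤
      2 * ‖s 1 - s 0‖ ^ 2 * (r * (3 / 5) * (3 / 5) ^ 2) := by
    rw [norm_mul, norm_mul, norm_mul, norm_mul, norm_pow, norm_pow, Complex.norm_ofNat]
    gcongr
  have t5 : ‖(s 1 - s 0) ^ 2 * (s 3 * s 2 ^ 2 * s 1)‖ ≤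
      ‖s 1 - s 0‖ ^ 2 * (3 / 5 * (3 / 5) ^ 2 * (3 / 5)) := by
    rw [norm_mul, norm_mul, norm_mul, norm_pow, norm_pow]
    gcongr
  refine (norm_add_le _ _).trans ((add_le_add ((norm_add_le _ _).trans (add_le_add
    (norm_add₃_le.trans (add_le_add (add_le_add t1 t2) t3)) t4)) t5).trans ?_)
  unfold K11 K22 K33
  generalize ‖s 1 - s 0‖ = a at *
  generalize ‖s 2 - s 1‖ = b at *
  generalize ‖s 3 - s 2‖ = c at *
  have q1 : (a + b + c) * (2 * (a + b) + 3 * a) * r ^ 4 ≤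
      (11 * a ^ 2 + 13 / 2 * b ^ 2 + 7 / 2 * c ^ 2) * r ^ 4 := by
    apply mul_le_mul_of_nonneg_right _ (by positivity)
    nlinarith [sq_nonneg (a - b), sq_nonneg (a - c), sq_nonneg (b - c)]
  have q2 : (a + b) * ((a + b) + 3 * a) * (r ^ 3 * (3 / 5)) ≤
      (13 / 2 * a ^ 2 + 7 / 2 * b ^ 2) * (r ^ 3 * (3 / 5)) := by
    apply mul_le_mul_of_nonneg_right _ (by positivity)
    nlinarith [sq_nonneg (a - b)]
  have q3 : 3 * a * (a + b) * (r ^ 2 * (3 / 5) * (3 / 5)) ≤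
      (9 / 2 * a ^ 2 + 3 / 2 * b ^ 2) * (r ^ 2 * (3 / 5) * (3 / 5)) := by
    apply mul_le_mul_of_nonneg_right _ (by positivity)
    nlinarith [sq_nonneg (a - b)]
  refine (add_le_add (add_le_add (add_le_add (add_le_add q1 q2) q3) le_rfl) le_rfl).trans
    (le_of_eq ?_)
  ring

theorem Rm_three {s : ℕ → ℂ} {r : ℝ} (hs : ∀ i, ‖s i‖ ≤ 3 / 5) (hv : s 0 ≠ 0) (hr : ‖s 0‖ ≤ r) :
    ‖Rm s 3‖ ≤ r ^ 5 * (3 / 5) ^ 8 * (127 * ‖s 1 - s 0‖ ^ 2 + 53 * ‖s 2 - s 1‖ ^ 2 +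
      22 * ‖s 3 - s 2‖ ^ 2 + 11 * ‖s 4 - s 3‖ ^ 2) := by
  have hr0 : 0 ≤ r := (norm_nonneg _).trans hr
  have h := Rm_le hs hv hr 3
  have e : ee (3 + 1) = 10 := rfl
  have eT : Tm s 3 = 10 * ‖s 1 - s 0‖ + 6 * ‖s 2 - s 1‖ + 3 * ‖s 3 - s 2‖ + ‖s 4 - s 3‖ := by
    simp [Tm, Finset.sum_range_succ, gw]
  rw [e, eT] at h
  generalize ‖s 1 - s 0‖ = a at *
  generalize ‖s 2 - s 1‖ = b at *
  generalize ‖s 3 - s 2‖ = c at *
  generalize ‖s 4 - s 3‖ = d at *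
  have q : (10 * a + 6 * b + 3 * c + d) ^ 2 / 2 ≤
      127 * a ^ 2 + 53 * b ^ 2 + 22 * c ^ 2 + 11 * d ^ 2 := by
    nlinarith [sq_nonneg (106 * 10 * b - 254 * 6 * a), sq_nonneg (44 * 10 * c - 254 * 3 * a),
      sq_nonneg (22 * 10 * d - 254 * a), sq_nonneg (44 * 6 * c - 106 * 3 * b),
      sq_nonneg (22 * 6 * d - 106 * b), sq_nonneg (22 * 3 * d - 44 * c), sq_nonneg a, sq_nonneg b,
      sq_nonneg c, sq_nonneg d]
  have h2 : r ^ 5 * ((3 / 5 : ℝ) ^ 10 * (10 * a + 6 * b + 3 * c + d) ^ 2 / 2) ≤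
      (3 / 5) ^ 2 * (r ^ 5 * (3 / 5) ^ 8 * (127 * a ^ 2 + 53 * b ^ 2 + 22 * c ^ 2 + 11 * d ^ 2)) := by
    calc r ^ 5 * ((3 / 5 : ℝ) ^ 10 * (10 * a + 6 * b + 3 * c + d) ^ 2 / 2)
        = r ^ 5 * (3 / 5 : ℝ) ^ 10 * ((10 * a + 6 * b + 3 * c + d) ^ 2 / 2) := by ring
      _ ≤ r ^ 5 * (3 / 5 : ℝ) ^ 10 * (127 * a ^ 2 + 53 * b ^ 2 + 22 * c ^ 2 + 11 * d ^ 2) :=
          mul_le_mul_of_nonneg_left q (by positivity)
      _ = _ := by ring
  exact le_of_mul_le_mul_left (h.trans h2) (by positivity)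

/-- the weights of the Cauchy inequality -/
noncomputable def Gn (n : ℕ) : ℝ := ∑ l ∈ Finset.range (n + 1), (gw (n + 2) (l + 1) : ℝ) ^ 2 * 2 ^ (l + 1)

theorem Gn_nonneg (n : ℕ) : 0 ≤ Gn n := by
  unfold Gn
  positivity

theorem Tm_sq_le (s : ℕ → ℂ) (n : ℕ) : Tm s n ^ 2 ≤
    Gn n * ∑ l ∈ Finset.range (n + 1), ‖s (l + 1) - s l‖ ^ 2 / 2 ^ (l + 1) := by
  have h := Finset.sum_mul_sq_le_sq_mul_sq (Finset.range (n + 1))
    (fun l => (gw (n + 2) (l + 1) : ℝ) * √(2 ^ (l + 1)))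
    (fun l => ‖s (l + 1) - s l‖ / √(2 ^ (l + 1)))
  have e1 : ∀ l : ℕ, √(2 ^ (l + 1) : ℝ) ^ 2 = 2 ^ (l + 1) := fun l => Real.sq_sqrt (by positivity)
  have e2 : ∀ l : ℕ, √(2 ^ (l + 1) : ℝ) ≠ 0 := fun l => (Real.sqrt_pos.2 (by positivity)).ne'
  have e3 : ∑ l ∈ Finset.range (n + 1), (gw (n + 2) (l + 1) : ℝ) * √(2 ^ (l + 1)) *
      (‖s (l + 1) - s l‖ / √(2 ^ (l + 1))) = Tm s n := by
    rw [Tm]
    refine Finset.sum_congr rfl fun l _ => ?_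
    have := e2 l
    field_simp
  have e4 : ∑ l ∈ Finset.range (n + 1), ((gw (n + 2) (l + 1) : ℝ) * √(2 ^ (l + 1))) ^ 2 = Gn n := by
    rw [Gn]
    refine Finset.sum_congr rfl fun l _ => ?_
    rw [mul_pow, e1]
  have e5 : ∑ l ∈ Finset.range (n + 1), (‖s (l + 1) - s l‖ / √(2 ^ (l + 1))) ^ 2 =
      ∑ l ∈ Finset.range (n + 1), ‖s (l + 1) - s l‖ ^ 2 / 2 ^ (l + 1) := by
    refine Finset.sum_congr rfl fun l _ => ?_
    rw [div_pow, e1]
  rw [e3, e4, e5] at h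
  exact h

theorem gw_one (n : ℕ) : (gw (n + 1) 1 : ℝ) = n * (n + 1) / 2 := by
  have h : 2 ∣ n * (n + 1) := (Nat.even_mul_succ_self n).two_dvd
  rw [gw, Nat.add_sub_cancel, Nat.cast_div h (by norm_num)]
  push_cast
  ring

theorem gw_shift (n l : ℕ) : gw (n + 1) (l + 1) = gw n l := by
  rw [gw, gw, Nat.add_sub_add_right]

theorem Gn_succ (n : ℕ) : Gn (n + 1) = 2 * (gw (n + 3) 1 : ℝ) ^ 2 + 2 * Gn n := by
  rw [Gn, Finset.sum_range_succ', Gn, Finset.mul_sum, add_comm]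
  congr 1
  · simp
    ring
  · refine Finset.sum_congr rfl fun l _ => ?_
    rw [show n + 1 + 2 = (n + 2) + 1 from rfl, gw_shift]
    ring

theorem Gn_four : Gn 4 = 1314 := by
  simp [Gn, Finset.sum_range_succ, gw]
  norm_num

theorem Gn_le (n : ℕ) (hn : 4 ≤ n) : Gn (n + 1) ≤ 4 * Gn n := by
  have h1 : 2 * (gw (n + 2) 1 : ℝ) ^ 2 ≤ Gn n := by
    rw [Gn, Finset.sum_range_succ']
    have : 0 ≤ ∑ k ∈ Finset.range n, (gw (n + 2) (k + 1 + 1) : ℝ) ^ 2 * 2 ^ (k + 1 + 1) := by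
      positivity
    simp only [zero_add, pow_one]
    linarith
  rw [Gn_succ]
  have e1 : (gw (n + 3) 1 : ℝ) = (n + 2) * (n + 3) / 2 := by
    rw [gw_one (n + 2)]
    push_cast
    ring
  have e2 : (gw (n + 2) 1 : ℝ) = (n + 1) * (n + 2) / 2 := by
    rw [gw_one (n + 1)]
    push_cast
    ring
  have hn' : (4 : ℝ) ≤ n := by exact_mod_cast hn
  have h3 : (gw (n + 3) 1 : ℝ) ^ 2 ≤ 2 * (gw (n + 2) 1 : ℝ) ^ 2 := by
    rw [e1, e2]
    have q : ((n : ℝ) + 3) ^ 2 ≤ 2 * (n + 1) ^ 2 := by nlinarith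
    have q2 := mul_le_mul_of_nonneg_left q (sq_nonneg ((n : ℝ) + 2))
    nlinarith
  linarith

end MaxTerm.PA.ModeE
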