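import Pool.Agent.MaxTerm.PartA.NearDefs
import Pool.Agent.MaxTerm.PartA.ChkSound1
import Pool.Agent.MaxTerm.PartA.ModeEA

/-!
# Part A: the coefficients of the linear potentials satisfy `BOK`

At `u = v = q0` the atoms are `(1, lAc)`, `(w0, lB/2)`, `(conj w0, lB/2)`, so
`aR n = lAc conj (th q0 1) + lB/2 (conj (th q0 w0) w0^(2n+1) + conj (th q0 (conj w0)) (conj w0)^(2n+1))
 = lAc conj (th q0 1) + lB conj (th q0 w0) Re (w0^(2n+1))`  (`th q0 (conj w0) = th q0 w0`).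
Values: `Γ_2 = -0.99999 - 0.34600 i`, `Γ_3 = 0.34061 - 0.20848 i`, `Γ_4 = 2.14573 - 0.02330 i`,
`B_1 = -0.02161799 + 0.07828677 i`, `B_2 = 0.00001313 - 0.00062745 i`, `B_3 = -1.018e-5 + 2.056e-5 i`,
`|B_4| = 3.3e-8`, `|B_5| = 3e-12`. Ball arithmetic; the powers of `w0` are compared with those of the
unit vector in the direction of `w1c` along the tangent direction.
-/

open Filter Topology ComplexConjugate

namespace MaxTerm.PA

namespace BStar

open Chk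

/-! ### tangent direction -/

theorem norm_pow_sub_one_le {z : ℂ} (hz : ‖z‖ = 1) {ε : ℝ} (h : ‖z - 1‖ ≤ ε) (k : ℕ) :
    ‖z ^ k - 1‖ ≤ k * ε := by
  induction k with
  | zero => simp
  | succ k ih =>
    have e : z ^ (k + 1) - 1 = z ^ k * (z - 1) + (z ^ k - 1) := by ring
    rw [e]
    refine (norm_add_le _ _).trans ?_
    rw [norm_mul, norm_pow, hz, one_pow, one_mul]
    push_cast
    linarith

theorem re_pow_sub {w W : ℂ} (hw : ‖w‖ = 1) (hW : ‖W‖ = 1) {ε : ℝ} (h : ‖w - W‖ ≤ ε) (k : ℕ) :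
    |(w ^ k).re - (W ^ k).re| ≤ |(W ^ k).im| * (k * ε) + (k * ε) ^ 2 := by
  have hε : 0 ≤ ε := (norm_nonneg _).trans h
  have hWW : W * conj W = 1 := by
    rw [Complex.mul_conj, Complex.normSq_eq_norm_sq, hW]
    norm_num
  set z : ℂ := w * conj W with hz
  have hz1 : ‖z‖ = 1 := by rw [hz, norm_mul, Complex.norm_conj, hw, hW, mul_one]
  have hzε : ‖z - 1‖ ≤ ε := by
    have e : z - 1 = (w - W) * conj W := by rw [sub_mul, hWW]
    rw [e, norm_mul, Complex.norm_conj, hW, mul_one]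
    exact h
  have hwz : w = W * z := by
    rw [hz, mul_comm w, ← mul_assoc, hWW, one_mul]
  set D : ℂ := z ^ k - 1 with hD
  have hDn : ‖D‖ ≤ k * ε := norm_pow_sub_one_le hz1 hzε k
  have hDre : |D.re| ≤ (k * ε) ^ 2 := by
    have h1 : ‖1 + D‖ ^ 2 = 1 := by
      rw [hD, add_sub_cancel, norm_pow, hz1, one_pow, one_pow]
    rw [← Complex.normSq_eq_norm_sq, Complex.normSq_apply, Complex.add_re, Complex.add_im,
      Complex.one_re, Complex.one_im] at h1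
    have h2 : ‖D‖ ^ 2 = D.re * D.re + D.im * D.im := by
      rw [← Complex.normSq_eq_norm_sq, Complex.normSq_apply]
    have h3 : 2 * D.re = - ‖D‖ ^ 2 := by
      rw [h2]
      linarith
    have h4 : ‖D‖ ^ 2 ≤ (k * ε) ^ 2 := pow_le_pow_left₀ (norm_nonneg _) hDn 2
    have h5 : 0 ≤ ‖D‖ ^ 2 := by positivity
    rw [abs_le]
    constructor <;> linarith
  have e : (w ^ k).re - (W ^ k).re = (W ^ k).re * D.re - (W ^ k).im * D.im := by
    rw [hwz, mul_pow, ← Complex.sub_re, ← Complex.mul_re, hD]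
    congr 1
    ring
  rw [e]
  have h6 : |(W ^ k).re| ≤ 1 := by
    refine (Complex.abs_re_le_norm _).trans ?_
    rw [norm_pow, hW, one_pow]
  have h7 : |D.im| ≤ k * ε := (Complex.abs_im_le_norm _).trans hDn
  calc |(W ^ k).re * D.re - (W ^ k).im * D.im|
      ≤ |(W ^ k).re * D.re| + |(W ^ k).im * D.im| := abs_sub _ _
    _ = |(W ^ k).re| * |D.re| + |(W ^ k).im| * |D.im| := by rw [abs_mul, abs_mul]
    _ ≤ 1 * (k * ε) ^ 2 + |(W ^ k).im| * (k * ε) := by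
        apply add_le_add
        · exact mul_le_mul h6 hDre (abs_nonneg _) zero_le_one
        · exact mul_le_mul_of_nonneg_left h7 (abs_nonneg _)
    _ = _ := by ring

/-! ### balls -/

def inflB (a : CB) (r : Int) : CB := ⟨a.re, a.im, Int.add a.rad r⟩

theorem mem_inflB {z y : ℂ} {a : CB} {r : Int} (hz : CB.Mem z a) (he : ‖y - z‖ ≤ rv r) :
    CB.Mem y (inflB a r) := by
  unfold CB.Mem at *
  have h1 : (inflB a r).mid = a.mid := rfl
  have h2 : rv (inflB a r).rad = rv a.rad + rv r := rv_add _ _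
  rw [h1, h2]
  calc ‖y - a.mid‖ = ‖(z - a.mid) + (y - z)‖ := by ring_nf
    _ ≤ ‖z - a.mid‖ + ‖y - z‖ := norm_add_le _ _
    _ ≤ _ := add_le_add hz he

theorem mem_ball {z c : ℂ} {ε : ℝ} {a b r : Int} (h : ‖z - c‖ ≤ ε) (ha : |c.re - rv a| ≤ ulp)
    (hb : |c.im - rv b| ≤ ulp) (hr : ε + 2 * ulp ≤ rv r) : CB.Mem z ⟨a, b, r⟩ := by
  unfold CB.Mem
  have h1 : ‖c - (CB.mid ⟨a, b, r⟩ : ℂ)‖ ≤ 2 * ulp := by
    apply cs_norm_le_two
    · exact ha
    · exact hb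
  have h2 : z - (CB.mid ⟨a, b, r⟩ : ℂ) = (z - c) + (c - CB.mid ⟨a, b, r⟩) := by ring
  rw [h2]
  refine (norm_add_le _ _).trans ?_
  change _ ≤ rv r
  linarith

/-- the ball of `Re (w0 ^ k)` from the ball of `W ^ k`; `e ≥ ε` -/
def ckB (k e : Int) (w : CB) : CB :=
  ⟨w.re, 0, Int.add w.rad (Int.add (mulU (Int.add (absI w.im) w.rad) (Int.mul k e))
    (mulU (Int.mul k e) (Int.mul k e)))⟩

theorem mem_ckB {w W : ℂ} (hw : ‖w‖ = 1) (hW : ‖W‖ = 1) {e : Int} (h : ‖w - W‖ ≤ rv e) (k : ℕ)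
    {b : CB} (hb : CB.Mem (W ^ k) b) : CB.Mem (((w ^ k).re : ℝ) : ℂ) (ckB k e b) := by
  have h1 := re_pow_sub hw hW h k
  have h2 : |(W ^ k).im| ≤ rv (Int.add (absI b.im) b.rad) := hb.abs_im_le
  have h3 : |(W ^ k).re - rv b.re| ≤ rv b.rad := by
    have := (Complex.abs_re_le_norm (W ^ k - b.mid)).trans hb
    rwa [Complex.sub_re] at this
  have he : 0 ≤ rv e := (norm_nonneg _).trans h
  have h4 : rv (Int.mul k e) = k * rv e := by
    rw [cs_imul]
    unfold rv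
    push_cast
    ring
  have h5 : rv (Int.add (absI b.im) b.rad) * rv (Int.mul k e) ≤
      rv (mulU (Int.add (absI b.im) b.rad) (Int.mul k e)) := rv_mul_le_mulU
  have h6 : rv (Int.mul k e) * rv (Int.mul k e) ≤ rv (mulU (Int.mul k e) (Int.mul k e)) :=
    rv_mul_le_mulU
  rw [h4] at h5 h6
  have hk : 0 ≤ (k : ℝ) * rv e := by positivity
  have h7 : |(W ^ k).im| * (k * rv e) ≤ rv (Int.add (absI b.im) b.rad) * (k * rv e) :=
    mul_le_mul_of_nonneg_right h2 hk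
  unfold CB.Mem
  have e1 : (((w ^ k).re : ℝ) : ℂ) - (ckB k e b).mid = (((w ^ k).re - rv b.re : ℝ) : ℂ) := by
    apply Complex.ext
    · simp only [Complex.sub_re, Complex.ofReal_re]
      rfl
    · simp only [Complex.sub_im, Complex.ofReal_im]
      change 0 - rv 0 = 0
      simp [rv]
  rw [e1, Complex.norm_real, Real.norm_eq_abs]
  have e2 : rv (ckB k e b).rad = rv b.rad + (rv (mulU (Int.add (absI b.im) b.rad) (Int.mul k e)) +
      rv (mulU (Int.mul k e) (Int.mul k e))) := by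
    unfold ckB
    simp only
    rw [rv_add, rv_add]
  rw [e2]
  have h8 : (w ^ k).re - rv b.re = ((w ^ k).re - (W ^ k).re) + ((W ^ k).re - rv b.re) := by ring
  rw [h8]
  refine (abs_add_le _ _).trans ?_
  nlinarith

theorem ulp_eq : ulp = 1 / 1099511627776 := by
  unfold ulp
  norm_num

/-! ### series -/

/-- tail estimate -/
theorem norm_tsum_sub_le {f : ℕ → ℂ} {C x : ℝ} (hx0 : 0 ≤ x) (hx1 : x < 1) (N : ℕ)
    (h : ∀ n, ‖f (n + N)‖ ≤ C * x ^ n) :
    ‖∑' n, f n - ∑ n ∈ Finset.range N, f n‖ ≤ C / (1 - x) := by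
  have hg : HasSum (fun n : ℕ => C * x ^ n) (C * (1 - x)⁻¹) :=
    (hasSum_geometric_of_lt_one hx0 hx1).mul_left C
  have hs : Summable fun n => f (n + N) := Summable.of_norm_bounded hg.summable h
  have hf : Summable f := (summable_nat_add_iff N).1 hs
  rw [← hf.sum_add_tsum_nat_add N, add_sub_cancel_left]
  exact tsum_of_norm_bounded hg h

theorem mon_const (q : ℂ) (n : ℕ) : mon (fun _ => q) n = q ^ ee n := by
  unfold mon
  rw [Finset.prod_pow_eq_pow_sum, ModeE.sum_ee]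

theorem le_ee (n : ℕ) : n ≤ ee n := by
  induction n with
  | zero => exact Nat.zero_le _
  | succ n ih => rw [ModeE.ee_succ]; omega

theorem summable_half {q w : ℂ} (hq : ‖q‖ ≤ 2803 / 10000) (hw : ‖w‖ = 1) :
    Summable fun n : ℕ => q ^ ee n * w ^ (2 * n + 1) := by
  refine Summable.of_norm_bounded (summable_geometric_of_lt_one (r := 2803 / 10000)
    (by norm_num) (by norm_num)) fun n => ?_
  rw [norm_mul, norm_pow, norm_pow, hw, one_pow, mul_one]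
  calc ‖q‖ ^ ee n ≤ (2803 / 10000) ^ ee n := pow_le_pow_left₀ (norm_nonneg _) hq _
    _ ≤ (2803 / 10000) ^ n := pow_le_pow_of_le_one (by norm_num) (by norm_num) (le_ee n)

theorem th_eq {q w : ℂ} (hq : ‖q‖ ≤ 2803 / 10000) (hw : ‖w‖ = 1) :
    th q w = ∑' n : ℕ, q ^ ee n * (2 * (((w ^ (2 * n + 1)).re : ℝ) : ℂ)) := by
  unfold th half
  have hw' : ‖conj w‖ = 1 := by rw [Complex.norm_conj, hw]
  simp only [mon_const]
  rw [← (summable_half hq hw).tsum_add (summable_half hq hw')]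
  refine tsum_congr fun n => ?_
  rw [← mul_add, ← map_pow, Complex.add_conj]
  push_cast
  ring

theorem th_conj (q w : ℂ) : th q (conj w) = th q w := by
  unfold th
  rw [Complex.conj_conj, add_comm]

theorem ee_add_five (n : ℕ) : 15 + 6 * n ≤ ee (n + 5) := by
  induction n with
  | zero => decide
  | succ n ih =>
    rw [show n + 1 + 5 = (n + 5) + 1 by ring, ModeE.ee_succ]
    omega

theorem th_trunc {q w : ℂ} (hq : ‖q‖ ≤ 2803 / 10000) (hw : ‖w‖ = 1) :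
    ‖th q w - 2 * ((((w ^ 1).re : ℝ) : ℂ) + (q * (((w ^ 3).re : ℝ) : ℂ) +
      (q ^ 3 * (((w ^ 5).re : ℝ) : ℂ) + (q ^ 6 * (((w ^ 7).re : ℝ) : ℂ) +
      q ^ 10 * (((w ^ 9).re : ℝ) : ℂ)))))‖ ≤ 11 / 10 ^ 9 := by
  rw [th_eq hq hw]
  have h := norm_tsum_sub_le (f := fun n : ℕ => q ^ ee n * (2 * (((w ^ (2 * n + 1)).re : ℝ) : ℂ)))
    (C := 2 * (2803 / 10000) ^ 15) (x := (2803 / 10000) ^ 6) (by norm_num) (by norm_num) 5
    (fun n => ?_)
  · have e : ∑ n ∈ Finset.range 5, q ^ ee n * (2 * (((w ^ (2 * n + 1)).re : ℝ) : ℂ)) =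
        2 * ((((w ^ 1).re : ℝ) : ℂ) + (q * (((w ^ 3).re : ℝ) : ℂ) +
      (q ^ 3 * (((w ^ 5).re : ℝ) : ℂ) + (q ^ 6 * (((w ^ 7).re : ℝ) : ℂ) +
      q ^ 10 * (((w ^ 9).re : ℝ) : ℂ))))) := by
      simp only [Finset.sum_range_succ, Finset.sum_range_zero, zero_add]
      have e0 : ee 0 = 0 := rfl
      have e1 : ee 1 = 1 := rfl
      have e2 : ee 2 = 3 := rfl
      have e3 : ee 3 = 6 := rfl
      have e4 : ee 4 = 10 := rfl
      rw [e0, e1, e2, e3, e4]
      norm_num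
      ring
    rw [e] at h
    refine h.trans ?_
    norm_num
  · rw [norm_mul, norm_mul, norm_pow, Complex.norm_real, Real.norm_eq_abs]
    have h1 : |(w ^ (2 * (n + 5) + 1)).re| ≤ 1 := by
      refine (Complex.abs_re_le_norm _).trans ?_
      rw [norm_pow, hw, one_pow]
    have h2 : ‖q‖ ^ ee (n + 5) ≤ (2803 / 10000) ^ 15 * ((2803 / 10000) ^ 6) ^ n := by
      rw [← pow_mul, ← pow_add]
      calc ‖q‖ ^ ee (n + 5) ≤ (2803 / 10000) ^ ee (n + 5) :=
            pow_le_pow_left₀ (norm_nonneg _) hq _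
        _ ≤ (2803 / 10000) ^ (15 + 6 * n) :=
            pow_le_pow_of_le_one (by norm_num) (by norm_num) (ee_add_five n)
    have h3 : ‖(2 : ℂ)‖ = 2 := by norm_num
    rw [h3]
    calc ‖q‖ ^ ee (n + 5) * (2 * |(w ^ (2 * (n + 5) + 1)).re|)
        ≤ ((2803 / 10000) ^ 15 * ((2803 / 10000) ^ 6) ^ n) * (2 * 1) := by gcongr
      _ = _ := by ring

/-! ### the moments at the parameter point -/

/-- `Γ_n` -/
noncomputable def Gam (q0 w0 : ℂ) (lB : ℝ) (n : ℕ) : ℂ :=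
  (lAc : ℂ) * conj (th q0 1) + (lB : ℂ) * (conj (th q0 w0) * (((w0 ^ (2 * n + 1)).re : ℝ) : ℂ))

theorem aR_eq (q0 w0 : ℂ) (lB : ℝ) (n : ℕ) :
    aR (natoms q0 w0 lB q0 q0) n = Gam q0 w0 lB n := by
  have hdl : dl q0 q0 q0 = 0 := by unfold dl; ring
  have htau : tau q0 q0 q0 = 0 := by unfold tau; rw [hdl]; simp
  unfold natoms
  simp only [hdl, htau, sub_self, Complex.zero_re, Complex.zero_im, mul_zero, Complex.ofReal_zero,
    Complex.exp_zero, mul_one, add_zero, sub_zero]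
  unfold aR
  simp only [List.map_cons, List.map_nil, List.sum_cons, List.sum_nil, add_zero, one_pow, mul_one]
  rw [← th_eq_Fc, ← th_eq_Fc, ← th_eq_Fc, th_conj]
  unfold Gam
  have h : w0 ^ (2 * n + 1) + conj w0 ^ (2 * n + 1) = 2 * (((w0 ^ (2 * n + 1)).re : ℝ) : ℂ) := by
    rw [← map_pow, Complex.add_conj]
    push_cast
    ring
  push_cast
  linear_combination ((lB : ℂ) / 2 * conj (th q0 w0)) * h

/-! ### the balls -/

theorem mem_real_ball {x : ℝ} {a r : Int} (h : |x - rv a| ≤ rv r) : CB.Mem (x : ℂ) ⟨a, 0, r⟩ := by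
  unfold CB.Mem
  have e1 : (x : ℂ) - (CB.mid ⟨a, 0, r⟩ : ℂ) = ((x - rv a : ℝ) : ℂ) := by
    apply Complex.ext
    · simp only [Complex.sub_re, Complex.ofReal_re]
      rfl
    · simp only [Complex.sub_im, Complex.ofReal_im]
      change 0 - rv 0 = 0
      simp [rv]
  rw [e1, Complex.norm_real, Real.norm_eq_abs]
  exact h

def qB : CB := ⟨-210232900782, 225287107886, 21990235⟩
def wB : CB := ⟨878261377931, 661500390082, 10998⟩
def eB : Int := 109962158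
def q2B : CB := CB.mul qB qB
def q3B : CB := CB.mul q2B qB
def q5B : CB := CB.mul q3B q2B
def q6B : CB := CB.mul q3B q3B
def q9B : CB := CB.mul q6B q3B
def q10B : CB := CB.mul q5B q5B
def w2B : CB := CB.mul wB wB
def w3B : CB := CB.mul w2B wB
def w5B : CB := CB.mul w3B w2B
def w7B : CB := CB.mul w5B w2B
def w9B : CB := CB.mul w7B w2B
def c1B : CB := ckB 1 eB wB
def c3B : CB := ckB 3 eB w3B
def c5B : CB := ckB 5 eB w5B
def c7B : CB := ckB 7 eB w7B
def c9B : CB := ckB 9 eB w9B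
def oneB : CB := ⟨1099511627776, 0, 0⟩
def th1B : CB :=
  inflB (CB.nsm 2 (CB.add oneB (CB.add qB (CB.add q3B (CB.add q6B q10B))))) 12095
def thwB : CB :=
  inflB (CB.nsm 2 (CB.add c1B (CB.add (CB.mul qB c3B) (CB.add (CB.mul q3B c5B)
    (CB.add (CB.mul q6B c7B) (CB.mul q10B c9B)))))) 12095
def laB : CB := ⟨440244455762, 0, 1⟩
def lbB : CB := ⟨1078409800616, 0, 329853490⟩
def GB (c : CB) : CB :=
  CB.add (CB.mul laB (CB.conj th1B)) (CB.mul lbB (CB.mul (CB.conj thwB) c))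
def G2B : CB := GB c5B
def G3B : CB := GB c7B
def G4B : CB := GB c9B
def B1B : CB :=
  inflB (CB.add (CB.mul G2B q2B) (CB.add (CB.nsm 3 (CB.mul G3B q5B)) (CB.nsm 6 (CB.mul G4B q9B))))
    549756
def B2B : CB := inflB (CB.add (CB.mul G3B q5B) (CB.nsm 3 (CB.mul G4B q9B))) 549756
def B3B : CB := inflB (CB.mul G4B q9B) 549756

/-- numerical centres of `B 1`, `B 2` -/
def k1B : CB := ⟨-23769242369, 86078566315, 2⟩
def k2B : CB := ⟨14293651, -689393791, 2⟩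

theorem chkq : CB.up qB ≤ 308193109265 := by decide +kernel
theorem chkth1 : CB.up th1B ≤ 1891159999774 := by decide +kernel
theorem chkthw : CB.up thwB ≤ 1891159999774 := by decide +kernel
theorem chk1 : CB.up (CB.sub B1B k1B) ≤ 164926744 := by decide +kernel
theorem chk2 : CB.up (CB.sub B2B k2B) ≤ 10995116 := by decide +kernel
theorem chk3 : CB.up B3B ≤ 32985348 := by decide +kernel

section

variable {q0 w0 : ℂ} {lB : ℝ}

theorem mem_q (hq : ‖q0 - qc‖ ≤ 2 / 100000) : CB.Mem q0 qB := by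
  apply mem_ball hq
  · rw [ulp_eq, abs_le]
    unfold qc rv
    constructor <;> norm_num
  · rw [ulp_eq, abs_le]
    unfold qc rv
    constructor <;> norm_num
  · rw [ulp_eq]
    unfold rv
    norm_num

theorem norm_q_le (hq : ‖q0 - qc‖ ≤ 2 / 100000) : ‖q0‖ ≤ 2803 / 10000 := by
  refine (mem_q hq).norm_le.trans ((cs_rv_le chkq).trans ?_)
  unfold rv
  norm_num

/-- unit vector near `w1c` -/
theorem exists_W : ∃ W : ℂ, ‖W‖ = 1 ∧ ‖w1c - W‖ ≤ 1 / 10 ^ 8 := by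
  have hsq : ‖w1c‖ ^ 2 = 0.79877407 ^ 2 + 0.6016311 ^ 2 := by
    rw [← Complex.normSq_eq_norm_sq, Complex.normSq_apply]
    unfold w1c
    norm_num
  set r : ℝ := ‖w1c‖ with hr
  have hr0 : 0 ≤ r := norm_nonneg _
  have h1 : r ^ 2 ≤ 1 := by rw [hsq]; norm_num
  have h2 : 1 - 1 / 10 ^ 8 ≤ r ^ 2 := by rw [hsq]; norm_num
  have h3 : r ≤ 1 := by nlinarith
  have h4 : 1 - 1 / 10 ^ 8 ≤ r := by nlinarith
  have h5 : 0 < r := by linarith [h4, show (0 : ℝ) < 1 - 1 / 10 ^ 8 by norm_num]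
  refine ⟨w1c / (r : ℂ), ?_, ?_⟩
  · rw [norm_div, ← hr, Complex.norm_real, Real.norm_of_nonneg hr0, div_self h5.ne']
  · have e : w1c - w1c / (r : ℂ) = w1c / (r : ℂ) * ((r - 1 : ℝ) : ℂ) := by
      have : (r : ℂ) ≠ 0 := by exact_mod_cast h5.ne'
      push_cast
      field_simp
    rw [e, norm_mul, norm_div, ← hr, Complex.norm_real, Real.norm_of_nonneg hr0,
      div_self h5.ne', one_mul, Complex.norm_real, Real.norm_eq_abs, abs_le]
    constructor <;> linarith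

theorem mem_W {W : ℂ} (hW : ‖w1c - W‖ ≤ 1 / 10 ^ 8) : CB.Mem W wB := by
  rw [norm_sub_rev] at hW
  apply mem_ball hW
  · rw [ulp_eq, abs_le]
    unfold w1c rv
    constructor <;> norm_num
  · rw [ulp_eq, abs_le]
    unfold w1c rv
    constructor <;> norm_num
  · rw [ulp_eq]
    unfold rv
    norm_num

theorem mem_c (hw : ‖w0‖ = 1) (hw' : ‖w0 - w1c‖ ≤ 1 / 10000) :
    CB.Mem (((w0 ^ 1).re : ℝ) : ℂ) c1B ∧ CB.Mem (((w0 ^ 3).re : ℝ) : ℂ) c3B ∧
    CB.Mem (((w0 ^ 5).re : ℝ) : ℂ) c5B ∧ CB.Mem (((w0 ^ 7).re : ℝ) : ℂ) c7B ∧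
    CB.Mem (((w0 ^ 9).re : ℝ) : ℂ) c9B := by
  obtain ⟨W, hW1, hW2⟩ := exists_W
  have hd : ‖w0 - W‖ ≤ rv eB := by
    have h1 : w0 - W = (w0 - w1c) + (w1c - W) := by ring
    rw [h1]
    refine (norm_add_le _ _).trans ((add_le_add hw' hW2).trans ?_)
    unfold rv eB
    norm_num
  have m1 : CB.Mem W wB := mem_W hW2
  have m2 : CB.Mem (W ^ 2) w2B := by
    rw [pow_two]; exact m1.mul m1
  have m3 : CB.Mem (W ^ 3) w3B := by
    rw [pow_succ]; exact m2.mul m1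
  have m5 : CB.Mem (W ^ 5) w5B := by
    rw [show W ^ 5 = W ^ 3 * W ^ 2 by ring]; exact m3.mul m2
  have m7 : CB.Mem (W ^ 7) w7B := by
    rw [show W ^ 7 = W ^ 5 * W ^ 2 by ring]; exact m5.mul m2
  have m9 : CB.Mem (W ^ 9) w9B := by
    rw [show W ^ 9 = W ^ 7 * W ^ 2 by ring]; exact m7.mul m2
  refine ⟨mem_ckB hw hW1 hd 1 ?_, mem_ckB hw hW1 hd 3 m3, mem_ckB hw hW1 hd 5 m5,
    mem_ckB hw hW1 hd 7 m7, mem_ckB hw hW1 hd 9 m9⟩
  rw [pow_one]
  exact m1

theorem mem_qpow (hq : ‖q0 - qc‖ ≤ 2 / 100000) :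
    CB.Mem (q0 ^ 2) q2B ∧ CB.Mem (q0 ^ 3) q3B ∧ CB.Mem (q0 ^ 5) q5B ∧ CB.Mem (q0 ^ 6) q6B ∧
    CB.Mem (q0 ^ 9) q9B ∧ CB.Mem (q0 ^ 10) q10B := by
  have m1 := mem_q hq
  have m2 : CB.Mem (q0 ^ 2) q2B := by
    rw [pow_two]; exact m1.mul m1
  have m3 : CB.Mem (q0 ^ 3) q3B := by
    rw [pow_succ]; exact m2.mul m1
  have m5 : CB.Mem (q0 ^ 5) q5B := by
    rw [show q0 ^ 5 = q0 ^ 3 * q0 ^ 2 by ring]; exact m3.mul m2
  have m6 : CB.Mem (q0 ^ 6) q6B := by
    rw [show q0 ^ 6 = q0 ^ 3 * q0 ^ 3 by ring]; exact m3.mul m3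
  have m9 : CB.Mem (q0 ^ 9) q9B := by
    rw [show q0 ^ 9 = q0 ^ 6 * q0 ^ 3 by ring]; exact m6.mul m3
  have m10 : CB.Mem (q0 ^ 10) q10B := by
    rw [show q0 ^ 10 = q0 ^ 5 * q0 ^ 5 by ring]; exact m5.mul m5
  exact ⟨m2, m3, m5, m6, m9, m10⟩

theorem mem_one : CB.Mem 1 oneB := by
  have h := mem_real_ball (x := 1) (a := 1099511627776) (r := 0) (by
    unfold rv
    norm_num)
  rw [Complex.ofReal_one] at h
  exact h

theorem mem_nsm_two {z : ℂ} {a : CB} (hz : CB.Mem z a) : CB.Mem (2 * z) (CB.nsm 2 a) := by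
  have := hz.nsm (n := 2) (by norm_num)
  simpa using this

theorem rv_tail : (11 : ℝ) / 10 ^ 9 ≤ rv 12095 := by
  unfold rv
  norm_num

theorem mem_th1 (hq : ‖q0 - qc‖ ≤ 2 / 100000) : CB.Mem (th q0 1) th1B := by
  obtain ⟨m2, m3, m5, m6, m9, m10⟩ := mem_qpow hq
  have h := th_trunc (norm_q_le hq) (w := 1) (by norm_num)
  simp only [one_pow, Complex.one_re, Complex.ofReal_one, mul_one] at h
  refine mem_inflB (mem_nsm_two (mem_one.add ((mem_q hq).add (m3.add (m6.add m10))))) ?_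
  exact h.trans rv_tail

theorem mem_thw (hq : ‖q0 - qc‖ ≤ 2 / 100000) (hw : ‖w0‖ = 1)
    (hw' : ‖w0 - w1c‖ ≤ 1 / 10000) : CB.Mem (th q0 w0) thwB := by
  obtain ⟨m2, m3, m5, m6, m9, m10⟩ := mem_qpow hq
  obtain ⟨c1, c3, c5, c7, c9⟩ := mem_c hw hw'
  have h := th_trunc (norm_q_le hq) hw
  refine mem_inflB (mem_nsm_two (c1.add (((mem_q hq).mul c3).add ((m3.mul c5).add
    ((m6.mul c7).add (m10.mul c9)))))) ?_
  exact h.trans rv_tail

theorem mem_la : CB.Mem (lAc : ℂ) laB := by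
  apply mem_real_ball
  rw [abs_le]
  unfold lAc rv
  constructor <;> norm_num

theorem mem_lb (hl : |lB - lBc| ≤ 3 / 10000) : CB.Mem (lB : ℂ) lbB := by
  apply mem_real_ball
  rw [abs_le] at hl ⊢
  unfold lBc at hl
  unfold rv
  constructor <;> norm_num <;> linarith [hl.1, hl.2]

theorem mem_Gam (hq : ‖q0 - qc‖ ≤ 2 / 100000) (hw : ‖w0‖ = 1)
    (hw' : ‖w0 - w1c‖ ≤ 1 / 10000) (hl : |lB - lBc| ≤ 3 / 10000) {n : ℕ} {c : CB}
    (hc : CB.Mem (((w0 ^ (2 * n + 1)).re : ℝ) : ℂ) c) : CB.Mem (Gam q0 w0 lB n) (GB c) :=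
  (mem_la.mul (mem_th1 hq).conjB).add
    ((mem_lb hl).mul ((mem_thw hq hw hw').conjB.mul hc))

theorem norm_Gam_le (hq : ‖q0 - qc‖ ≤ 2 / 100000) (hw : ‖w0‖ = 1)
    (hw' : ‖w0 - w1c‖ ≤ 1 / 10000) (hl : |lB - lBc| ≤ 3 / 10000) (n : ℕ) :
    ‖Gam q0 w0 lB n‖ ≤ 5 / 2 := by
  have h1 : ‖th q0 1‖ ≤ 172 / 100 := by
    refine (mem_th1 hq).norm_le.trans ((cs_rv_le chkth1).trans ?_)
    unfold rv
    norm_num
  have h2 : ‖th q0 w0‖ ≤ 172 / 100 := by
    refine (mem_thw hq hw hw').norm_le.trans ((cs_rv_le chkthw).trans ?_)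
    unfold rv
    norm_num
  have h3 : |(w0 ^ (2 * n + 1)).re| ≤ 1 := by
    refine (Complex.abs_re_le_norm _).trans ?_
    rw [norm_pow, hw, one_pow]
  have h4 : |lB| ≤ 99 / 100 := by
    rw [abs_le] at hl ⊢
    unfold lBc at hl
    constructor <;> linarith [hl.1, hl.2]
  unfold Gam
  refine (norm_add_le _ _).trans ?_
  rw [norm_mul, norm_mul, norm_mul, Complex.norm_conj, Complex.norm_conj, Complex.norm_real,
    Complex.norm_real, Complex.norm_real, Real.norm_eq_abs, Real.norm_eq_abs, Real.norm_eq_abs]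
  have h5 : |lAc| = 4004 / 10000 := by
    unfold lAc
    norm_num
  rw [h5]
  calc 4004 / 10000 * ‖th q0 1‖ + |lB| * (‖th q0 w0‖ * |(w0 ^ (2 * n + 1)).re|)
      ≤ 4004 / 10000 * (172 / 100) + 99 / 100 * (172 / 100 * 1) := by gcongr
    _ ≤ 5 / 2 := by norm_num

/-! ### the series `Bst` -/

theorem gw_eq_ee (n l : ℕ) : gw n l = ee (n - l) := rfl

theorem ee_mono {a b : ℕ} (h : a ≤ b) : ee a ≤ ee b := by
  induction b, h using Nat.le_induction with
  | base => exact le_rfl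
  | succ n _ ih => rw [ModeE.ee_succ]; omega

theorem ee_four_le (n : ℕ) : ee (n + 4) ≤ 10 * 2 ^ n := by
  induction n with
  | zero => decide
  | succ n ih =>
    rw [show n + 1 + 4 = (n + 4) + 1 by ring, ModeE.ee_succ, pow_succ]
    have : n + 1 ≤ 2 ^ n := Nat.lt_two_pow_self
    omega

theorem ee_one_le (n : ℕ) : ee (n + 1) ≤ 3 ^ n := by
  induction n with
  | zero => decide
  | succ n ih =>
    rw [ModeE.ee_succ, pow_succ]
    have h1 : n + 1 ≤ 3 ^ n := Nat.lt_pow_self (by norm_num)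
    have h2 : 1 ≤ 3 ^ n := Nat.one_le_pow _ _ (by norm_num)
    omega

theorem Bst_trunc (hq : ‖q0 - qc‖ ≤ 2 / 100000) (hw : ‖w0‖ = 1)
    (hw' : ‖w0 - w1c‖ ≤ 1 / 10000) (hl : |lB - lBc| ≤ 3 / 10000) {l : ℕ} (hl1 : 1 ≤ l) :
    ‖Bst q0 w0 lB l - ((gw 2 l : ℂ) * (Gam q0 w0 lB 2 * q0 ^ 2) +
      ((gw 3 l : ℂ) * (Gam q0 w0 lB 3 * q0 ^ 5) + (gw 4 l : ℂ) * (Gam q0 w0 lB 4 * q0 ^ 9)))‖ ≤
      5 / 10 ^ 7 := by
  have hqn := norm_q_le hq
  have h := norm_tsum_sub_le (f := fun n : ℕ =>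
      (gw (n + 2) l : ℂ) * aR (natoms q0 w0 lB q0 q0) (n + 2) * q0 ^ (ee (n + 2) - 1))
    (C := 25 * (2803 / 10000) ^ 14) (x := 2 * (2803 / 10000) ^ 6) (by norm_num) (by norm_num) 3
    (fun n => ?_)
  · have e : ∑ n ∈ Finset.range 3,
        (gw (n + 2) l : ℂ) * aR (natoms q0 w0 lB q0 q0) (n + 2) * q0 ^ (ee (n + 2) - 1) =
        (gw 2 l : ℂ) * (Gam q0 w0 lB 2 * q0 ^ 2) +
      ((gw 3 l : ℂ) * (Gam q0 w0 lB 3 * q0 ^ 5) + (gw 4 l : ℂ) * (Gam q0 w0 lB 4 * q0 ^ 9)) := by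
      simp only [Finset.sum_range_succ, Finset.sum_range_zero, zero_add, aR_eq]
      have e2 : ee 2 - 1 = 2 := rfl
      have e3 : ee (1 + 2) - 1 = 5 := rfl
      have e4 : ee (2 + 2) - 1 = 9 := rfl
      rw [e2, e3, e4]
      norm_num
      ring
    rw [e] at h
    unfold Bst
    refine h.trans ?_
    norm_num
  · rw [aR_eq, norm_mul, norm_mul, norm_pow, Complex.norm_natCast]
    have h1 : ((gw (n + 3 + 2) l : ℕ) : ℝ) ≤ 10 * 2 ^ n := by
      rw [gw_eq_ee]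
      have : ee (n + 3 + 2 - l) ≤ 10 * 2 ^ n := (ee_mono (by omega)).trans (ee_four_le n)
      exact_mod_cast this
    have h2 : ‖q0‖ ^ (ee (n + 3 + 2) - 1) ≤ (2803 / 10000) ^ 14 * ((2803 / 10000) ^ 6) ^ n := by
      rw [← pow_mul, ← pow_add]
      calc ‖q0‖ ^ (ee (n + 3 + 2) - 1) ≤ (2803 / 10000) ^ (ee (n + 3 + 2) - 1) :=
            pow_le_pow_left₀ (norm_nonneg _) hqn _
        _ ≤ (2803 / 10000) ^ (14 + 6 * n) := by
            apply pow_le_pow_of_le_one (by norm_num) (by norm_num)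
            have := ee_add_five n
            rw [show n + 3 + 2 = n + 5 by ring]
            omega
    have h3 := norm_Gam_le hq hw hw' hl (n + 3 + 2)
    calc ((gw (n + 3 + 2) l : ℕ) : ℝ) * ‖Gam q0 w0 lB (n + 3 + 2)‖ * ‖q0‖ ^ (ee (n + 3 + 2) - 1)
        ≤ (10 * 2 ^ n) * (5 / 2) * ((2803 / 10000) ^ 14 * ((2803 / 10000) ^ 6) ^ n) := by
          gcongr
      _ = 25 * (2803 / 10000) ^ 14 * (2 * (2803 / 10000) ^ 6) ^ n := by
          rw [mul_pow 2]
          ring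

theorem Bst_high (hq : ‖q0 - qc‖ ≤ 2 / 100000) (hw : ‖w0‖ = 1)
    (hw' : ‖w0 - w1c‖ ≤ 1 / 10000) (hl : |lB - lBc| ≤ 3 / 10000) (l : ℕ) :
    ‖Bst q0 w0 lB (l + 4)‖ ≤ (1 / 10 ^ 7) / 8 ^ l := by
  have hqn := norm_q_le hq
  have h := norm_tsum_sub_le (f := fun n : ℕ =>
      (gw (n + 2) (l + 4) : ℂ) * aR (natoms q0 w0 lB q0 q0) (n + 2) * q0 ^ (ee (n + 2) - 1))
    (C := (5 / 2) * (2803 / 10000) ^ 14 * ((2803 / 10000) ^ 6) ^ l)
    (x := 3 * (2803 / 10000) ^ 6) (by norm_num) (by norm_num) (l + 3)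
    (fun n => ?_)
  · have e : ∑ n ∈ Finset.range (l + 3),
        (gw (n + 2) (l + 4) : ℂ) * aR (natoms q0 w0 lB q0 q0) (n + 2) *
          q0 ^ (ee (n + 2) - 1) = 0 := by
      apply Finset.sum_eq_zero
      intro n hn
      rw [Finset.mem_range] at hn
      rw [ModeE.gw_zero _ _ (by omega), Nat.cast_zero, zero_mul, zero_mul]
    rw [e, sub_zero] at h
    unfold Bst
    refine h.trans ?_
    have h1 : ((2803 / 10000 : ℝ) ^ 6) ^ l ≤ (1 / 8) ^ l :=
      pow_le_pow_left₀ (by norm_num) (by norm_num) l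
    have h2 : (5 / 2 : ℝ) * (2803 / 10000) ^ 14 / (1 - 3 * (2803 / 10000) ^ 6) ≤ 1 / 10 ^ 7 := by
      norm_num
    calc (5 / 2 : ℝ) * (2803 / 10000) ^ 14 * ((2803 / 10000) ^ 6) ^ l /
          (1 - 3 * (2803 / 10000) ^ 6)
        = ((5 / 2 : ℝ) * (2803 / 10000) ^ 14 / (1 - 3 * (2803 / 10000) ^ 6)) *
          ((2803 / 10000) ^ 6) ^ l := by ring
      _ ≤ (1 / 10 ^ 7) * (1 / 8) ^ l := by gcongr
      _ = (1 / 10 ^ 7) / 8 ^ l := by rw [one_div_pow]; ring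
  · rw [aR_eq, norm_mul, norm_mul, norm_pow, Complex.norm_natCast]
    have h1 : ((gw (n + (l + 3) + 2) (l + 4) : ℕ) : ℝ) ≤ 3 ^ n := by
      rw [gw_eq_ee, show n + (l + 3) + 2 - (l + 4) = n + 1 by omega]
      exact_mod_cast ee_one_le n
    have h2 : ‖q0‖ ^ (ee (n + (l + 3) + 2) - 1) ≤
        (2803 / 10000) ^ 14 * ((2803 / 10000) ^ 6) ^ l * ((2803 / 10000) ^ 6) ^ n := by
      rw [← pow_mul, ← pow_mul, ← pow_add, ← pow_add]
      calc ‖q0‖ ^ (ee (n + (l + 3) + 2) - 1) ≤ (2803 / 10000) ^ (ee (n + (l + 3) + 2) - 1) :=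
            pow_le_pow_left₀ (norm_nonneg _) hqn _
        _ ≤ (2803 / 10000) ^ (14 + 6 * l + 6 * n) := by
            apply pow_le_pow_of_le_one (by norm_num) (by norm_num)
            have := ee_add_five (n + l)
            rw [show n + (l + 3) + 2 = n + l + 5 by ring]
            omega
    have h3 := norm_Gam_le hq hw hw' hl (n + (l + 3) + 2)
    calc ((gw (n + (l + 3) + 2) (l + 4) : ℕ) : ℝ) * ‖Gam q0 w0 lB (n + (l + 3) + 2)‖ *
          ‖q0‖ ^ (ee (n + (l + 3) + 2) - 1)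
        ≤ 3 ^ n * (5 / 2) * ((2803 / 10000) ^ 14 * ((2803 / 10000) ^ 6) ^ l *
          ((2803 / 10000) ^ 6) ^ n) := by
          gcongr
      _ = (5 / 2) * (2803 / 10000) ^ 14 * ((2803 / 10000) ^ 6) ^ l *
          (3 * (2803 / 10000) ^ 6) ^ n := by
          rw [mul_pow 3]
          ring

theorem rv_tail2 : (5 : ℝ) / 10 ^ 7 ≤ rv 549756 := by
  unfold rv
  norm_num

theorem mem_nsm_three {z : ℂ} {a : CB} (hz : CB.Mem z a) : CB.Mem (3 * z) (CB.nsm 3 a) := by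
  have := hz.nsm (n := 3) (by norm_num)
  simpa using this

theorem mem_nsm_six {z : ℂ} {a : CB} (hz : CB.Mem z a) : CB.Mem (6 * z) (CB.nsm 6 a) := by
  have := hz.nsm (n := 6) (by norm_num)
  simpa using this

end

end BStar

open BStar Chk in
/-- the hypotheses are those of `Crit` (without the exact equations) -/
theorem BOK_Bst {q0 w0 : ℂ} {lB : ℝ} (hq : ‖q0 - qc‖ ≤ 2 / 100000) (hw : ‖w0‖ = 1)
    (hw' : ‖w0 - w1c‖ ≤ 1 / 10000) (hl : |lB - lBc| ≤ 3 / 10000) : BOK (Bst q0 w0 lB) := by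
  obtain ⟨m2, m3, m5, m6, m9, m10⟩ := mem_qpow hq
  obtain ⟨c1, c3, c5, c7, c9⟩ := mem_c hw hw'
  have g2 : CB.Mem (Gam q0 w0 lB 2) G2B := mem_Gam hq hw hw' hl c5
  have g3 : CB.Mem (Gam q0 w0 lB 3) G3B := mem_Gam hq hw hw' hl c7
  have g4 : CB.Mem (Gam q0 w0 lB 4) G4B := mem_Gam hq hw hw' hl c9
  constructor
  · have h := Bst_trunc hq hw hw' hl (l := 1) le_rfl
    have e2 : gw 2 1 = 1 := rfl
    have e3 : gw 3 1 = 3 := rfl
    have e4 : gw 4 1 = 6 := rfl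
    rw [e2, e3, e4] at h
    push_cast at h
    rw [one_mul] at h
    have m : CB.Mem (Bst q0 w0 lB 1) B1B :=
      mem_inflB ((g2.mul m2).add ((mem_nsm_three (g3.mul m5)).add (mem_nsm_six (g4.mul m9))))
        (h.trans rv_tail2)
    have mk : CB.Mem B1c k1B := by
      apply mem_ball (c := B1c) (ε := 0) (by simp)
      · rw [ulp_eq, abs_le]
        unfold B1c rv
        constructor <;> norm_num
      · rw [ulp_eq, abs_le]
        unfold B1c rv
        constructor <;> norm_num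
      · rw [ulp_eq]
        unfold rv
        norm_num
    refine (m.sub mk).norm_le.trans ((cs_rv_le chk1).trans ?_)
    unfold rv
    norm_num
  · have h := Bst_trunc hq hw hw' hl (l := 2) (by norm_num)
    have e2 : gw 2 2 = 0 := rfl
    have e3 : gw 3 2 = 1 := rfl
    have e4 : gw 4 2 = 3 := rfl
    rw [e2, e3, e4] at h
    push_cast at h
    rw [zero_mul, zero_add, one_mul] at h
    have m : CB.Mem (Bst q0 w0 lB 2) B2B :=
      mem_inflB ((g3.mul m5).add (mem_nsm_three (g4.mul m9))) (h.trans rv_tail2)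
    have mk : CB.Mem B2c k2B := by
      apply mem_ball (c := B2c) (ε := 0) (by simp)
      · rw [ulp_eq, abs_le]
        unfold B2c rv
        constructor <;> norm_num
      · rw [ulp_eq, abs_le]
        unfold B2c rv
        constructor <;> norm_num
      · rw [ulp_eq]
        unfold rv
        norm_num
    refine (m.sub mk).norm_le.trans ((cs_rv_le chk2).trans ?_)
    unfold rv
    norm_num
  · have h := Bst_trunc hq hw hw' hl (l := 3) (by norm_num)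
    have e2 : gw 2 3 = 0 := rfl
    have e3 : gw 3 3 = 0 := rfl
    have e4 : gw 4 3 = 1 := rfl
    rw [e2, e3, e4] at h
    push_cast at h
    rw [zero_mul, zero_mul, zero_add, zero_add, one_mul] at h
    have m : CB.Mem (Bst q0 w0 lB 3) B3B := mem_inflB (g4.mul m9) (h.trans rv_tail2)
    refine m.norm_le.trans ((cs_rv_le chk3).trans ?_)
    unfold rv
    norm_num
  · intro l hl4
    obtain ⟨l', rfl⟩ : ∃ l', l = l' + 4 := ⟨l - 4, by omega⟩
    rw [Nat.add_sub_cancel]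
    exact Bst_high hq hw hw' hl l'

end MaxTerm.PA
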