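import Pool.Agent.MaxTerm.PartA.Core
import Pool.Agent.MaxTerm.LowerA
import Pool.Agent.MaxTerm.Parseval

/-!
# Part A, module Bi: the bi-infinite chain of a chain with all gaps `1`

`C.step` gives `C.c (j+1) n = C.c j (n+1) * τ_j ^ n`; put `x j := C.c j (-1) = (C.τ (j-1))⁻¹ = C.c (j-1) 2`
for `j ≥ 1`. Then `C.c j 2 = x (j+1)`, `C.c j (n+1) = mon (x (j+1), x (j+2), ..) n`, and
`C.c j (-n) = mon (x j, x (j-1), ...) n` as long as `n < j`.
Parseval (`bessel`) gives `‖x j‖^2 + ‖x (j+1)‖^2 ≤ K^2 - 2`, so `‖x j‖ ≤ 24/25`.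
Take a (non principal) ultrafilter on `ℕ` (`Filter.hyperfilter ℕ`) and let `q i` be the limit of
`x (n + i)`; dominated convergence (`‖mon s n‖ ≤ (24/25)^n` etc.) gives `BiChain K q`.
-/

open Filter Topology ComplexConjugate

namespace MaxTerm.PA

/-- the window function in half-angle normalisation -/
theorem norm_split {c : ℤ → ℂ} (hc : Summable fun n => ‖c n‖) {w : ℂ} (hw : ‖w‖ = 1) :
    ‖(∑' n : ℕ, c ((n : ℤ) + 1) * w ^ (2 * n + 1)) + ∑' n : ℕ, c (-(n : ℤ)) * (conj w) ^ (2 * n + 1)‖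
      = ‖∑' n : ℤ, c n * (w ^ 2) ^ n‖ := by
  have hw0 : w ≠ 0 := by
    intro h; rw [h, norm_zero] at hw; exact zero_ne_one hw
  have hcw : conj w * w = 1 := by
    rw [mul_comm, Complex.mul_conj, Complex.normSq_eq_norm_sq, hw]; norm_num
  have hcw' : conj w = w⁻¹ := eq_inv_of_mul_eq_one_left hcw
  have hw2 : ‖w ^ 2‖ = 1 := by rw [norm_pow, hw, one_pow]
  set f : ℤ → ℂ := fun n => c n * (w ^ 2) ^ n with hf
  have hfs : Summable f := by
    apply Summable.of_norm
    refine hc.congr fun n => ?_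
    rw [hf]; dsimp only
    rw [norm_mul, norm_zpow, hw2, one_zpow, mul_one]
  -- reflect
  have hg : Summable fun n : ℤ => f (-n) := (Equiv.neg ℤ).summable_iff.2 hfs
  have e1 : ∑' n : ℤ, f n = ∑' n : ℤ, f (-n) := ((Equiv.neg ℤ).tsum_eq f).symm
  have hp : Summable fun n : ℕ => f (-(n : ℤ)) := hg.comp_injective Nat.cast_injective
  have hq : Summable fun n : ℕ => f ((n : ℤ) + 1) := hfs.comp_injective (fun a b h => by
    simpa using h)
  have e2 : ∑' n : ℤ, f (-n) = (∑' n : ℕ, f (-(n : ℤ))) + ∑' n : ℕ, f ((n : ℤ) + 1) := by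
    have h := HasSum.of_nat_of_neg_add_one (f := fun n : ℤ => f (-n)) hp.hasSum
      (m' := ∑' n : ℕ, f ((n : ℤ) + 1)) (by simpa using hq.hasSum)
    exact h.tsum_eq
  have e3 : ∀ n : ℕ, c ((n : ℤ) + 1) * w ^ (2 * n + 1) = conj w * f ((n : ℤ) + 1) := by
    intro n
    have h1 : ((w ^ 2) ^ ((n : ℤ) + 1) : ℂ) = w ^ (2 * n + 1) * w := by
      rw [← Nat.cast_one, ← Nat.cast_add, zpow_natCast]; ring
    simp only [hf]
    rw [h1]
    linear_combination (-(c ((n : ℤ) + 1) * w ^ (2 * n + 1))) * hcw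
  have e4 : ∀ n : ℕ, c (-(n : ℤ)) * (conj w) ^ (2 * n + 1) = conj w * f (-(n : ℤ)) := by
    intro n
    simp only [hf]
    rw [zpow_neg, zpow_natCast, hcw', pow_succ, inv_pow, ← pow_mul]
    ring
  simp_rw [e3, e4]
  rw [tsum_mul_left, tsum_mul_left, ← mul_add, norm_mul, RCLike.norm_conj, hw, one_mul, e1, e2,
    add_comm]

theorem norm_mon_le {s : ℕ → ℂ} {r : ℝ} (hr : r ≤ 1) (hs : ∀ i, ‖s i‖ ≤ r) (n : ℕ) :
    ‖mon s n‖ ≤ r ^ n := by
  have hr0 : 0 ≤ r := (norm_nonneg _).trans (hs 0)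
  rcases Nat.eq_zero_or_pos n with h0 | h0
  · subst h0; simp [mon]
  · unfold mon
    rw [norm_prod, ← Finset.mul_prod_erase _ _ (Finset.mem_range.2 h0), norm_pow, Nat.sub_zero]
    have h1 : ∏ i ∈ (Finset.range n).erase 0, ‖s i ^ (n - i)‖ ≤ 1 := by
      apply Finset.prod_le_one
      · intro i _; exact norm_nonneg _
      · intro i _
        rw [norm_pow]
        exact pow_le_one₀ (norm_nonneg _) ((hs i).trans hr)
    calc ‖s 0‖ ^ n * ∏ i ∈ (Finset.range n).erase 0, ‖s i ^ (n - i)‖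
        ≤ r ^ n * 1 := by
          apply mul_le_mul (pow_le_pow_left₀ (norm_nonneg _) (hs 0) n) h1
            (Finset.prod_nonneg fun i _ => norm_nonneg _) (by positivity)
      _ = r ^ n := mul_one _

section chain

variable {K : ℝ} (C : Chain K)

/-- the links -/
noncomputable def lk (j : ℕ) : ℂ := C.c j (-1)

variable {C} (h : ∀ j, C.k j = 1)

include h

theorem tau_inv (j : ℕ) : lk C (j + 1) * C.τ j = 1 := by
  have h1 := C.step j (-1)
  rw [h j, Nat.cast_one, neg_add_cancel, (C.win j).c_zero, one_mul, zpow_neg_one] at h1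
  have h2 : C.τ j ≠ 0 := by
    intro h3
    have := C.one_lt j
    rw [h3, norm_zero] at this
    linarith
  rw [lk, h1, inv_mul_cancel₀ h2]

/-- going right -/
theorem step_right (j : ℕ) (n : ℕ) : C.c j ((n : ℤ) + 1) = lk C (j + 1) ^ n * C.c (j + 1) n := by
  have h1 := C.step j n
  rw [h j, Nat.cast_one, zpow_natCast] at h1
  rw [h1]
  have h2 : lk C (j + 1) ^ n * C.τ j ^ n = 1 := by rw [← mul_pow, tau_inv h, one_pow]
  linear_combination (-C.c j ((n : ℤ) + 1)) * h2

/-- going left -/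
theorem step_left (j : ℕ) (n : ℕ) : C.c (j + 1) (-((n : ℤ) + 1)) = lk C (j + 1) ^ (n + 1) * C.c j (-(n : ℤ)) := by
  have h1 := C.step j (-((n : ℤ) + 1))
  rw [h j, Nat.cast_one] at h1
  have e : -((n : ℤ) + 1) + 1 = -(n : ℤ) := by ring
  rw [e, zpow_neg] at h1
  have e2 : ((n : ℤ) + 1) = ((n + 1 : ℕ) : ℤ) := by push_cast; ring
  rw [e2, zpow_natCast] at h1
  rw [e2, h1]
  have h2 : lk C (j + 1) = (C.τ j)⁻¹ := eq_inv_of_mul_eq_one_left (tau_inv h j)
  rw [h2, inv_pow]
  ring

theorem right_eq (n : ℕ) : ∀ j, C.c j ((n : ℤ) + 1) = mon (fun i => lk C (j + 1 + i)) n := by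
  induction n with
  | zero =>
    intro j
    have := (C.win j).c_edge
    rw [h j] at this
    simp only [mon, Finset.range_zero, Finset.prod_empty, Nat.cast_zero, zero_add]
    exact_mod_cast this
  | succ n ih =>
    intro j
    rw [step_right h, Nat.cast_succ, ih (j + 1)]
    unfold mon
    rw [Finset.prod_range_succ' _ n]
    simp only [add_zero, Nat.sub_zero, Nat.add_sub_add_right]
    rw [mul_comm]
    congr 1
    refine Finset.prod_congr rfl fun i _ => ?_
    rw [show j + 1 + 1 + i = j + 1 + (i + 1) by ring]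

theorem left_eq (n : ℕ) : ∀ j, n ≤ j → C.c j (-(n : ℤ)) = mon (fun i => lk C (j - i)) n := by
  induction n with
  | zero =>
    intro j _
    simp only [mon, Finset.range_zero, Finset.prod_empty, Nat.cast_zero, neg_zero]
    exact (C.win j).c_zero
  | succ n ih =>
    intro j hj
    obtain ⟨j, rfl⟩ : ∃ m, j = m + 1 := ⟨j - 1, by omega⟩
    rw [Nat.cast_succ, step_left h, ih j (by omega)]
    unfold mon
    rw [Finset.prod_range_succ' _ n]
    simp only [Nat.sub_zero, Nat.add_sub_add_right]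
    rw [mul_comm]

theorem chain_pars (hK0 : 0 ≤ K) (j : ℕ) : ‖lk C j‖ ^ 2 + ‖lk C (j + 1)‖ ^ 2 ≤ K ^ 2 - 2 := by
  have h1 := bessel (C.c j) (C.win j).summable hK0 (C.win j).bound {-1, 0, 1, 2}
  rw [Finset.sum_insert (by decide), Finset.sum_insert (by decide), Finset.sum_insert (by decide),
    Finset.sum_singleton] at h1
  have e0 := (C.win j).c_zero
  have e1 := (C.win j).c_edge
  rw [h j, Nat.cast_one] at e1
  have e2 : C.c j 2 = lk C (j + 1) := by
    have := right_eq h 1 j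
    simp [mon] at this
    exact this
  rw [e0, e1, e2, norm_one] at h1
  have e3 : C.c j (-1) = lk C j := rfl
  rw [e3] at h1
  linarith

end chain

theorem exists_biChain {K : ℝ} (C : Chain K) (h : ∀ j, C.k j = 1) (hK : K ^ 2 ≤ 2.92127) :
    ∃ q : ℤ → ℂ, BiChain K q := by
  have hK0 : 0 ≤ K := (norm_nonneg _).trans ((C.win 0).bound 1 norm_one)
  have hpars := chain_pars h hK0
  have hlk : ∀ j, ‖lk C j‖ ≤ 24 / 25 := by
    intro j
    have h1 := hpars j
    have h2 : ‖lk C j‖ ^ 2 ≤ (24 / 25) ^ 2 := by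
      have := sq_nonneg ‖lk C (j + 1)‖
      norm_num at hK ⊢
      linarith
    exact (sq_le_sq₀ (norm_nonneg _) (by norm_num)).1 h2
  let 𝓤 : Ultrafilter ℕ := hyperfilter ℕ
  have hle : (𝓤 : Filter ℕ) ≤ atTop := by
    rw [← Nat.cofinite_eq_atTop]
    exact hyperfilter_le_cofinite
  -- the shifted sequence
  let y : ℤ → ℕ → ℂ := fun i N => lk C ((N : ℤ) + i).toNat
  have hy : ∀ i, ∃ a : ℂ, Tendsto (y i) 𝓤 (𝓝 a) := by
    intro i
    have hcomp : IsCompact (Metric.closedBall (0 : ℂ) (24 / 25)) := isCompact_closedBall _ _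
    obtain ⟨a, -, ha⟩ := hcomp.ultrafilter_le_nhds (𝓤.map (y i)) (by
      rw [le_principal_iff]
      refine Filter.mem_map.2 (Filter.Eventually.of_forall fun N => ?_)
      exact mem_closedBall_zero_iff.2 (hlk _))
    exact ⟨a, ha⟩
  choose q hq using hy
  refine ⟨q, ⟨fun j w hw => ?_, fun j => ?_⟩⟩
  · -- bound
    have hcoef : ∀ n : ℕ, Tendsto (fun N : ℕ => C.c ((N : ℤ) + j).toNat ((n : ℤ) + 1)) 𝓤
        (𝓝 (mon (rt q j) n)) := by
      intro n
      have h1 : Tendsto (fun N : ℕ => ∏ i ∈ Finset.range n, y (j + 1 + i) N ^ (n - i)) 𝓤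
          (𝓝 (mon (rt q j) n)) := by
        unfold mon rt
        exact tendsto_finsetProd _ fun i _ => (hq _).pow _
      refine h1.congr' ?_
      have h2 : ∀ᶠ N : ℕ in 𝓤, j.natAbs ≤ N := hle (eventually_ge_atTop _)
      filter_upwards [h2] with N hN
      rw [right_eq h]
      unfold mon
      refine Finset.prod_congr rfl fun i _ => ?_
      simp only [y]
      congr 2
      omega
    have hcoef' : ∀ n : ℕ, Tendsto (fun N : ℕ => C.c ((N : ℤ) + j).toNat (-(n : ℤ))) 𝓤
        (𝓝 (mon (lf q j) n)) := by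
      intro n
      have h1 : Tendsto (fun N : ℕ => ∏ i ∈ Finset.range n, y (j - i) N ^ (n - i)) 𝓤
          (𝓝 (mon (lf q j) n)) := by
        unfold mon lf
        exact tendsto_finsetProd _ fun i _ => (hq _).pow _
      refine h1.congr' ?_
      have h2 : ∀ᶠ N : ℕ in 𝓤, n + j.natAbs ≤ N := hle (eventually_ge_atTop _)
      filter_upwards [h2] with N hN
      rw [left_eq h _ _ (by omega)]
      unfold mon
      refine Finset.prod_congr rfl fun i hi => ?_
      have := Finset.mem_range.1 hi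
      simp only [y]
      congr 2
      omega
    have hb : ∀ J (n : ℕ), ‖C.c J ((n : ℤ) + 1)‖ ≤ (24 / 25) ^ n := by
      intro J n
      rw [right_eq h]
      exact norm_mon_le (by norm_num) (fun i => hlk _) n
    have hb' : ∀ J (n : ℕ), 1 ≤ J → ‖C.c J (-(n : ℤ))‖ ≤ (24 / 25) ^ n := by
      intro J n hJ
      obtain ⟨J, rfl⟩ : ∃ m, J = m + 1 := ⟨J - 1, by omega⟩
      rcases n with _ | n
      · rw [Nat.cast_zero, neg_zero, (C.win _).c_zero, norm_one, pow_zero]
      · rw [Nat.cast_succ, step_left h, norm_mul, norm_pow]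
        calc ‖lk C (J + 1)‖ ^ (n + 1) * ‖C.c J (-(n : ℤ))‖ ≤ (24 / 25) ^ (n + 1) * 1 := by
              apply mul_le_mul (pow_le_pow_left₀ (norm_nonneg _) (hlk _) _) ((C.win J).norm_le _)
                (norm_nonneg _) (by positivity)
          _ = _ := mul_one _
    have hgeo : Summable fun n : ℕ => ((24 / 25 : ℝ)) ^ n :=
      summable_geometric_of_lt_one (by norm_num) (by norm_num)
    have hcw : ‖conj w‖ = 1 := by rw [RCLike.norm_conj, hw]
    have t1 : Tendsto (fun N : ℕ => ∑' n : ℕ, C.c ((N : ℤ) + j).toNat ((n : ℤ) + 1) * w ^ (2 * n + 1))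
        𝓤 (𝓝 (half (rt q j) w)) := by
      unfold half
      refine tendsto_tsum_of_dominated_convergence hgeo (fun n => (hcoef n).mul_const _) ?_
      refine Eventually.of_forall fun N n => ?_
      rw [norm_mul, norm_pow, hw, one_pow, mul_one]
      exact hb _ _
    have t2 : Tendsto (fun N : ℕ => ∑' n : ℕ, C.c ((N : ℤ) + j).toNat (-(n : ℤ)) * (conj w) ^ (2 * n + 1))
        𝓤 (𝓝 (half (lf q j) (conj w))) := by
      unfold half
      refine tendsto_tsum_of_dominated_convergence hgeo (fun n => (hcoef' n).mul_const _) ?_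
      have h2 : ∀ᶠ N : ℕ in 𝓤, j.natAbs + 1 ≤ N := hle (eventually_ge_atTop _)
      filter_upwards [h2] with N hN n
      rw [norm_mul, norm_pow, hcw, one_pow, mul_one]
      exact hb' _ _ (by omega)
    refine le_of_tendsto (t1.add t2).norm (Eventually.of_forall fun N => ?_)
    rw [norm_split (C.win _).summable hw]
    exact (C.win _).bound _ (by rw [norm_pow, hw, one_pow])
  · -- Parseval
    have t1 := ((hq j).norm.pow 2).add ((hq (j + 1)).norm.pow 2)
    refine le_of_tendsto t1 ?_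
    have h2 : ∀ᶠ N : ℕ in 𝓤, j.natAbs ≤ N := hle (eventually_ge_atTop _)
    filter_upwards [h2] with N hN
    have e : ((N : ℤ) + (j + 1)).toNat = ((N : ℤ) + j).toNat + 1 := by omega
    simp only [y]
    rw [e]
    exact hpars _

/-- relation with `theta` of `Basic.lean` -/
theorem norm_th {q w : ℂ} (hq : ‖q‖ < 1) (hw : ‖w‖ = 1) : ‖th q w‖ = ‖theta q (w ^ 2)‖ := by
  have h := norm_split (c := fun n : ℤ => q ^ (n * (n - 1) / 2).toNat) (summable_norm_coeff hq) hw
  have hm : ∀ n : ℕ, mon (fun _ => q) n = q ^ (n * (n + 1) / 2) := by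
    intro n
    unfold mon
    rw [Finset.prod_pow_eq_pow_sum]
    congr 1
    have h1 : ∑ i ∈ Finset.range n, (n - i) = ∑ i ∈ Finset.range n, (i + 1) := by
      rw [← Finset.sum_range_reflect]
      refine Finset.sum_congr rfl fun i hi => ?_
      have := Finset.mem_range.1 hi
      omega
    have h2 := Finset.sum_range_id_mul_two (n + 1)
    rw [h1]
    have h3 : ∑ i ∈ Finset.range n, (i + 1) = ∑ i ∈ Finset.range (n + 1), i := by
      rw [Finset.sum_range_succ']; simp
    rw [h3]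
    rw [Nat.add_sub_cancel] at h2
    rw [mul_comm n (n + 1)]
    omega
  unfold theta
  rw [← h]
  unfold th half
  congr 3
  · funext n
    rw [hm]
    congr 2
    have e : ((n : ℤ) + 1) * ((n : ℤ) + 1 - 1) = ((n * (n + 1) : ℕ) : ℤ) := by push_cast; ring
    rw [e]
    omega
  · funext n
    rw [hm]
    congr 2
    have e : (-(n : ℤ)) * (-(n : ℤ) - 1) = ((n * (n + 1) : ℕ) : ℤ) := by push_cast; ring
    rw [e]
    omega

/-- all links are `≤ 24/25`. -/
theorem BiChain.norm_le {K : ℝ} {q : ℤ → ℂ} (h : BiChain K q) (hK : K ^ 2 ≤ 2.92127) (j : ℤ) :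
    ‖q j‖ ≤ 24 / 25 := by
  have h1 := h.pars j
  have h2 : ‖q j‖ ^ 2 ≤ (24 / 25) ^ 2 := by
    have := sq_nonneg ‖q (j + 1)‖
    norm_num at hK ⊢
    linarith
  exact (sq_le_sq₀ (norm_nonneg _) (by norm_num)).1 h2

end MaxTerm.PA
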