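import Mathlib

/-!
# Part A: the finite checker for the far region (fixed point arithmetic, scale `2^40`)

All numbers are integers `x` standing for `x / 2^40`. `CB` is a complex ball.
`boxOK` verifies that a certificate (list of atoms) gives `2^(-40) ≤ G` on a box for
`(u, v) = (q j, q (j+1))`; `Tree.check` runs through a tree of boxes.
-/

namespace MaxTerm.PA.Chk

/-- floor division by `2^40` -/
def shr (x : Int) : Int := Int.shiftRight x 40

/-- rounded up product of two non-negative fixed point numbers -/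
def mulU (a b : Int) : Int := Int.add (shr (Int.mul a b)) 1

/-- quotient rounded up, for `0 ≤ a`, `0 < p` -/
def divU (a p : Int) : Int := Int.add (Int.ediv (Int.mul a 1099511627776) p) 1

def absI (x : Int) : Int := Int.ofNat (Int.natAbs x)

/-- one Newton step for the square root from above -/
def nstep (m s : Nat) : Nat := Nat.add (Nat.div (Nat.add s (Nat.div m s)) 2) 1

/-- an upper bound of `sqrt m` -/
def sqrtU (m : Nat) : Nat :=
  nstep m (nstep m (nstep m (Nat.pow 2 (Nat.add (Nat.div (Nat.log2 m) 2) 1))))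

/-- an upper bound of `sqrt (x^2+y^2)` -/
def nrm (x y : Int) : Int :=
  Int.ofNat (sqrtU (Nat.add (Nat.mul (Int.natAbs x) (Int.natAbs x))
    (Nat.mul (Int.natAbs y) (Int.natAbs y))))

/-- complex ball -/
structure CB where
  re : Int
  im : Int
  rad : Int

namespace CB

def add (a b : CB) : CB := ⟨Int.add a.re b.re, Int.add a.im b.im, Int.add a.rad b.rad⟩

def neg (a : CB) : CB := ⟨Int.neg a.re, Int.neg a.im, a.rad⟩

def sub (a b : CB) : CB := add a (neg b)

def conj (a : CB) : CB := ⟨a.re, Int.neg a.im, a.rad⟩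

/-- multiplication by an integer `n ≥ 0` -/
def nsm (n : Int) (a : CB) : CB := ⟨Int.mul n a.re, Int.mul n a.im, Int.mul n a.rad⟩

def mul (a b : CB) : CB :=
  ⟨shr (Int.add (Int.mul a.re b.re) (Int.neg (Int.mul a.im b.im))),
   shr (Int.add (Int.mul a.re b.im) (Int.mul a.im b.re)),
   Int.add (shr (Int.add (Int.add
      (Int.mul (Int.add (absI a.re) (absI a.im)) b.rad)
      (Int.mul (Int.add (absI b.re) (absI b.im)) a.rad)) (Int.mul a.rad b.rad))) 3⟩

/-- multiplication by a fixed point real number `x ≥ 0` -/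
def smul (x : Int) (a : CB) : CB :=
  ⟨shr (Int.mul x a.re), shr (Int.mul x a.im), Int.add (shr (Int.mul x a.rad)) 3⟩

/-- division by a fixed point real number `p > 0` -/
def sdiv (a : CB) (p : Int) : CB :=
  ⟨Int.ediv (Int.mul a.re 1099511627776) p, Int.ediv (Int.mul a.im 1099511627776) p,
   Int.add (Int.ediv (Int.mul a.rad 1099511627776) p) 3⟩

/-- upper bound of the norm -/
def up (a : CB) : Int := Int.add (nrm a.re a.im) a.rad

end CB

/-- the point `((N² - p²) + 2 N p i) / (N² + p²)`, `N = 4096`, of the unit circle. -/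
def unitW (p : Int) : CB :=
  ⟨Int.ediv (Int.mul (Int.add 16777216 (Int.neg (Int.mul p p))) 1099511627776)
      (Int.add 16777216 (Int.mul p p)),
   Int.ediv (Int.mul (Int.mul 8192 p) 1099511627776) (Int.add 16777216 (Int.mul p p)), 2⟩

/-- atoms: `w = unitW p`, weight `l / 2^12`, test value `(ex + i ey) / 2^12` -/
structure At where
  p : Int
  l : Nat
  ex : Int
  ey : Int

/-- moments of a certificate -/
structure Mom where
  a0 : CB
  a1 : CB
  a2 : CB
  a3 : CB
  a4 : CB
  b0 : CB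
  b1 : CB
  b2 : CB
  b3 : CB
  b4 : CB
  /-- `∑ l (|e|^2 + K2)` (exact) -/
  cst : Int
  /-- upper bound of `∑ l |e|` -/
  A : Int

def zeroCB : CB := ⟨0, 0, 0⟩

def Mom.zero : Mom :=
  ⟨zeroCB, zeroCB, zeroCB, zeroCB, zeroCB, zeroCB, zeroCB, zeroCB, zeroCB, zeroCB, 0, 0⟩

/-- `⌈2.921267 * 2^28⌉` -/
def K2i : Int := 784171640

/-- add one atom, given `c = l conj e` and `w`, `w²`, `w³`, `w⁵`, `w⁷`, `w⁹` -/
def Mom.addAt (m : Mom) (c w1 w3 w5 w7 w9 : CB) (cst A : Int) : Mom :=
  ⟨CB.add m.a0 (CB.mul c w1), CB.add m.a1 (CB.mul c w3), CB.add m.a2 (CB.mul c w5),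
   CB.add m.a3 (CB.mul c w7), CB.add m.a4 (CB.mul c w9),
   CB.add m.b0 (CB.mul c (CB.conj w1)), CB.add m.b1 (CB.mul c (CB.conj w3)),
   CB.add m.b2 (CB.mul c (CB.conj w5)), CB.add m.b3 (CB.mul c (CB.conj w7)),
   CB.add m.b4 (CB.mul c (CB.conj w9)), Int.add m.cst cst, Int.add m.A A⟩

/-- `c = l * conj e` (scale `2^40`, exact) -/
def At.ce (a : At) : CB :=
  ⟨Int.mul (Int.mul (Int.ofNat a.l) a.ex) 65536,
   Int.neg (Int.mul (Int.mul (Int.ofNat a.l) a.ey) 65536), 0⟩

/-- `l (|e|² + K2)` (scale `2^40`, exact) -/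
def At.cst (a : At) : Int :=
  Int.mul (Int.ofNat a.l) (Int.add (Int.mul 16 (Int.add (Int.mul a.ex a.ex) (Int.mul a.ey a.ey))) K2i)

/-- upper bound of `l |e|` (scale `2^40`) -/
def At.A (a : At) : Int := Int.mul (Int.mul (Int.ofNat a.l) (nrm a.ex a.ey)) 65536

/-- add one atom -/
def Mom.step (m : Mom) (a : At) : Mom :=
  let w := unitW a.p
  let w2 := CB.mul w w
  let w3 := CB.mul w w2
  let w5 := CB.mul w3 w2
  let w7 := CB.mul w5 w2
  let w9 := CB.mul w7 w2
  Mom.addAt m a.ce w w3 w5 w7 w9 a.cst a.A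

def moments : List At → Mom
  | [] => Mom.zero
  | a :: L => Mom.step (moments L) a

/-! ### constants (scale `2^40`) -/

/-- `⌊4/5 * 2^40⌋` -/
def c45 : Int := 879609302220
/-- `⌈3/5 * 2^40⌉` -/
def cX : Int := 659706976666
/-- `⌈(3/5)^2 * 2^40⌉` -/
def cX2 : Int := 395824186000
/-- `⌈(3/5)^3 * 2^40⌉` -/
def cX3 : Int := 237494511600
/-- `⌈(3/5)^4 * 2^40⌉` -/
def cX4 : Int := 142496706960
/-- `⌈(3/5)^6 * 2^40⌉` -/
def cX6 : Int := 51298814506
/-- `⌈(3/5)^8 * 2^40⌉` -/
def cX8 : Int := 18467573222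
/-- `⌈(3/5)^10 * 2^40⌉` -/
def cX10 : Int := 6648326360
/-- `⌈(3/5)^13 * 2^40⌉` -/
def cX13 : Int := 1436038494

/-- `B 1`: centre `(-0.021618, 0.078288)`, radius `15/100000` -/
def cB1 : CB := ⟨-23769242369, 86078566315, 164926746⟩
/-- `B 2`: centre `(0.000013, -0.000627)`, radius `1/100000` -/
def cB2 : CB := ⟨14293651, -689393791, 10995118⟩

/-- lower bound of a real function on a disc: `T(v0 + η) ≥ val + Re (lin η)` -/
structure Side where
  val : Int
  lin : CB

/-- common last step for `T v = 2 Re P(v) - γ ‖v‖² - (‖g(v) - γ conj v‖ + x5)² / p - cst`.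
`V` = centre, `P`, `P1` value and derivative of `P` at the centre, `g0` value of `g - γ conj`, `g1`
derivative of `g`; `b2`, `rem` second order bounds of `g`, `2 P`; `rh` radius of the disc. -/
def finish (V P P1 g0 g1 : CB) (γ p x5 b2 rem cst rh : Int) : Side :=
  let ng := CB.up g0
  let b := Int.add (mulU (Int.add (CB.up g1) γ) rh) b2
  let sq := Int.add (Int.add (mulU ng ng) (mulU b b))
    (Int.add (mulU (Int.mul 2 ng) b2)
      (Int.add (mulU (Int.mul 2 x5) (Int.add ng b)) (mulU x5 x5)))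
  let vv := Int.add (shr (Int.add (Int.mul V.re V.re) (Int.mul V.im V.im))) 1
  ⟨Int.add (Int.mul 2 (Int.add P.re (Int.neg P.rad)))
     (Int.neg (Int.add (Int.add (mulU γ vv) (divU sq p)) (Int.add (Int.add rem (mulU γ (mulU rh rh))) cst))),
   CB.sub (CB.sub (CB.nsm 2 P1) (CB.smul (Int.mul 2 γ) (CB.conj V)))
     (CB.sdiv (CB.nsm 2 (CB.sub (CB.mul (CB.conj g0) g1) (CB.smul γ g0))) p)⟩

/-- `x > 0` -/
def isPos : Int → Bool
  | Int.ofNat n => Nat.blt 0 n
  | Int.negSucc _ => false

/-- `a ≤ b` -/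
def le (a b : Int) : Bool := isPos (Int.add (Int.add b (Int.neg a)) 1)

/-- `x / 2` rounded up -/
def halfU (x : Int) : Int := Int.add (Int.ediv x 2) 1

/-- mode L. `full = false`: `γ = 0`; `full = true`: `γ = g4`. `a1..a4` moments, `A` bound of the
others, `V` centre, `rh` radius. -/
def sideL (full : Bool) (a1 a2 a3 a4 : CB) (A : Int) (B1 V : CB) (rh : Int) : Option Side :=
  let r := Int.add (CB.up V) rh
  let r2 := mulU r r
  let r3 := mulU r2 r
  let r4 := mulU r2 r2
  let n2 := CB.up a2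
  let g4 := mulU (mulU (Int.mul 2 (CB.up a3)) r3) cX
  let γ := cond full g4 0
  let p := Int.add c45 (Int.neg γ)
  let V2 := CB.mul V V
  let V3 := CB.mul V2 V
  let rh2 := mulU rh rh
  let A22 := Int.add (Int.ediv (Int.mul 11 A) 5) 1
  let cst := Int.add (Int.add (mulU (Int.add g4 (Int.neg γ)) cX2)
      (mulU (mulU (Int.mul 2 (CB.up a4)) r4) cX6))
    (Int.add (mulU (mulU A22 (mulU r4 r)) cX10) 87960931)
  cond (isPos p)
    (some (finish V (CB.add (CB.mul a1 V) (CB.mul a2 V3)) (CB.add a1 (CB.nsm 3 (CB.mul a2 V2)))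
      (CB.sub (CB.sub (CB.mul a2 V2) B1) (CB.smul γ (CB.conj V))) (CB.nsm 2 (CB.mul a2 V))
      γ p 0 (mulU n2 rh2) (mulU (mulU (Int.mul 6 n2) r) rh2) cst rh)) none

/-- mode N -/
def sideN (a1 a2 a3 a4 : CB) (A : Int) (B1 V : CB) (rh : Int) : Option Side :=
  let r := Int.add (CB.up V) rh
  let r2 := mulU r r
  let r3 := mulU r2 r
  let r4 := mulU r2 r2
  let r5 := mulU r4 r
  let n2 := CB.up a2
  let n3 := CB.up a3
  let n4 := CB.up a4
  let c4 := mulU (Int.mul 2 n3) r3
  let g5 := mulU (mulU (Int.mul 2 n4) r4) cX3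
  let gs := Int.add c4 g5
  let p1 := Int.add c45 (Int.neg (mulU gs (Int.add cX (Int.mul 3 r))))
  let p2 := Int.add 109951162777 (Int.neg (mulU gs r))
  let x5 := halfU (mulU (Int.mul 3 g5) r2)
  let V2 := CB.mul V V
  let V3 := CB.mul V2 V
  let V4 := CB.mul V2 V2
  let V5 := CB.mul V4 V
  let V6 := CB.mul V3 V3
  let rh2 := mulU rh rh
  let A22 := Int.add (Int.ediv (Int.mul 11 A) 5) 1
  let E2 := Int.add (mulU n3 r5) (Int.add 703687442 (halfU (mulU g5 r2)))
  let cst := Int.add (Int.add (mulU g5 r3) (divU (mulU E2 E2) p2))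
    (Int.add (mulU (mulU A22 r5) cX10) 82463373)
  cond (and (isPos p1) (isPos p2))
    (some (finish V
      (CB.add (CB.mul a1 V) (CB.add (CB.mul a2 V3) (CB.mul a3 V6)))
      (CB.add a1 (CB.add (CB.nsm 3 (CB.mul a2 V2)) (CB.nsm 6 (CB.mul a3 V5))))
      (CB.sub (CB.add (CB.mul a2 V2) (CB.nsm 3 (CB.mul a3 V5))) B1)
      (CB.add (CB.nsm 2 (CB.mul a2 V)) (CB.nsm 15 (CB.mul a3 V4)))
      0 p1 x5
      (mulU (Int.add n2 (mulU (Int.mul 30 n3) r3)) rh2)
      (mulU (Int.add (mulU (Int.mul 6 n2) r) (mulU (Int.mul 30 n3) r4)) rh2)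
      cst rh)) none

/-- mode F. `hy` = half width in the imaginary direction -/
def sideF (a1 a2 a3 a4 : CB) (A : Int) (B1 B2 V : CB) (hy rh : Int) : Option Side :=
  let r := Int.add (CB.up V) rh
  let r2 := mulU r r
  let r3 := mulU r2 r
  let r4 := mulU r2 r2
  let r5 := mulU r4 r
  let r7 := mulU r4 r3
  let r8 := mulU r4 r4
  let r14 := mulU r7 r7
  let n2 := CB.up a2
  let n3 := CB.up a3
  let n4 := CB.up a4
  let c4 := mulU (Int.mul 2 n3) r3
  let c5 := mulU (Int.mul 2 n4) r4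
  let c6 := mulU (mulU (Int.mul 2 A) r5) cX8
  let c7 := mulU (mulU (Int.mul 1600 A) (mulU r3 r3)) cX13
  let k11 := Int.add cX4 (Int.add (Int.ediv (Int.add (Int.add (Int.mul 432 r) (Int.mul 1620 r2))
    (Int.add (Int.mul 3900 r3) (Int.mul 11000 r4))) 1000) 1)
  let k22 := Int.add (Int.ediv (Int.add (Int.mul 540 r2) (Int.add (Int.mul 2100 r3) (Int.mul 6500 r4))) 1000) 1
  let k33 := halfU (Int.mul 7 r4)
  let p1 := Int.add c45 (Int.neg (Int.add (Int.add (mulU c4 (Int.add cX (Int.mul 3 r))) (mulU c5 k11))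
    (Int.add (Int.mul 127 c6) (Int.add (halfU c7) 9455799999))))
  let p2 := Int.add 109951162777 (Int.neg (Int.add (Int.add (mulU c4 r) (mulU c5 k22))
    (Int.add (Int.mul 53 c6) (Int.add (halfU (halfU c7)) 17922039533))))
  let p3 := Int.add 13743895347 (Int.neg (Int.add (mulU c5 k33)
    (Int.add (Int.mul 22 c6) (Int.add (halfU (halfU (halfU c7))) 879609303))))
  let V2 := CB.mul V V
  let V3 := CB.mul V2 V
  let V4 := CB.mul V2 V2
  let V5 := CB.mul V4 V
  let V6 := CB.mul V3 V3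
  let V8 := CB.mul V4 V4
  let V9 := CB.mul V4 V5
  let V10 := CB.mul V5 V5
  let rh2 := mulU rh rh
  let A22 := Int.add (Int.ediv (Int.mul 11 A) 5) 1
  let E2 := Int.add (CB.up (CB.sub (CB.add (CB.mul a3 V5) (CB.nsm 3 (CB.mul a4 V9))) B2))
    (Int.add (mulU (Int.add (mulU (Int.mul 5 n3) r4) (mulU (Int.mul 27 n4) r8)) rh)
      (mulU (Int.mul 7 A) r14))
  let E3 := Int.add (mulU n4 (mulU r8 r)) (Int.add (mulU (Int.mul 4 A) r14) 32985349)
  let cst := Int.add (Int.add (divU (mulU E2 E2) p2) (divU (mulU E3 E3) p3))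
    (Int.add (mulU (mulU A22 r14) r) 10996)
  cond (and (and (and (le r 395824185999) (le (Int.add 137438953472 hy) (absI V.im)))
      (and (le A 4398046511104) (and (le c6 366503875) (le c7 13743895347))))
      (and (isPos p1) (and (isPos p2) (isPos p3))))
    (some (finish V
      (CB.add (CB.add (CB.mul a1 V) (CB.mul a2 V3)) (CB.add (CB.mul a3 V6) (CB.mul a4 V10)))
      (CB.add (CB.add a1 (CB.nsm 3 (CB.mul a2 V2))) (CB.add (CB.nsm 6 (CB.mul a3 V5)) (CB.nsm 10 (CB.mul a4 V9))))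
      (CB.sub (CB.add (CB.mul a2 V2) (CB.add (CB.nsm 3 (CB.mul a3 V5)) (CB.nsm 6 (CB.mul a4 V9)))) B1)
      (CB.add (CB.nsm 2 (CB.mul a2 V)) (CB.add (CB.nsm 15 (CB.mul a3 V4)) (CB.nsm 54 (CB.mul a4 V8))))
      0 p1 (mulU (Int.mul 11 A) r14)
      (mulU (Int.add n2 (Int.add (mulU (Int.mul 30 n3) r3) (mulU (Int.mul 216 n4) r7))) rh2)
      (mulU (Int.add (mulU (Int.mul 6 n2) r) (Int.add (mulU (Int.mul 30 n3) r4) (mulU (Int.mul 90 n4) r8))) rh2)
      cst rh)) none

/-- `B` or `conj B` -/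
def signB (y : Int) (B : CB) : CB := cond (le 0 y) B (CB.conj B)

/-- one side, `mode = 0, 1` : L, `2` : F, otherwise N. The disc must not cross the real axis. -/
def side (mode : Nat) (a1 a2 a3 a4 : CB) (A x y hx hy : Int) : Option Side :=
  let rh := nrm hx hy
  let V : CB := ⟨x, y, 0⟩
  let B1 := signB y cB1
  cond (le hy (absI y))
    (match mode with
      | 0 => sideL false a1 a2 a3 a4 A B1 V rh
      | 1 => sideL true a1 a2 a3 a4 A B1 V rh
      | 2 => sideF a1 a2 a3 a4 A B1 (signB y cB2) V hy rh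
      | _ => sideN a1 a2 a3 a4 A B1 V rh)
    none

/-- cost of a linear term on a box -/
def linCost (c : CB) (hx hy : Int) : Int :=
  Int.add (mulU (Int.add (absI c.re) c.rad) hx) (mulU (Int.add (absI c.im) c.rad) hy)

/-- a box for `(u, v)` -/
structure Box where
  ux : Int
  uy : Int
  vx : Int
  vy : Int
  hux : Int
  huy : Int
  hvx : Int
  hvy : Int

/-- lower bound (scale `2^40`) of the certificate value on a box -/
def total (m : Mom) (b : Box) (sv su : Side) : Int :=
  let dx := Int.add b.vx (Int.neg b.ux)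
  let dy := Int.add b.vy (Int.neg b.uy)
  let sx := Int.add b.hux b.hvx
  let sy := Int.add b.huy b.hvy
  let dd := Int.add (shr (Int.add (Int.add (Int.mul dx dx) (Int.mul dy dy))
    (Int.add (Int.mul sx sx) (Int.mul sy sy)))) 1
  let C : CB := ⟨Int.ediv (Int.mul 37 dx) 10, Int.ediv (Int.mul (-37) dy) 10, 2⟩
  Int.add
    (Int.add (Int.mul 2 (Int.add (Int.add m.a0.re m.b0.re) (Int.neg (Int.add m.a0.rad m.b0.rad))))
      (Int.add sv.val su.val))
    (Int.neg (Int.add (Int.add m.cst (Int.add (Int.ediv (Int.mul 37 dd) 20) 1))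
      (Int.add (linCost (CB.sub sv.lin C) b.hvx b.hvy) (linCost (CB.add su.lin C) b.hux b.huy))))

/-- certificate check on a box -/
def boxOK (L : List At) (mv mu : Nat) (b : Box) : Bool :=
  let m := moments L
  match side mv m.a1 m.a2 m.a3 m.a4 m.A b.vx b.vy b.hvx b.hvy with
  | none => false
  | some sv =>
    match side mu m.b1 m.b2 m.b3 m.b4 m.A b.ux b.uy b.hux b.huy with
    | none => false
    | some su => isPos (total m b sv su)

/-- the disc `|x - cx| ≤ hx, |y - cy| ≤ hy` does not meet the region `Reg` -/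
def outQ (k : Nat) (x y hx hy : Int) : Bool :=
  let yl := Int.add (absI y) (Int.neg hy)
  match k with
  | 0 => isPos (Int.add (Int.add x (Int.neg hx)) (-252887674389))
  | 1 => isPos (Int.add (Int.add (Int.mul 2 (Int.add x (Int.neg hx))) (cond (isPos yl) yl 0)) (-626721627833))
  | 2 => isPos (Int.add (Int.add (Int.add x (Int.neg hx)) (cond (isPos yl) yl 0)) (-434307092972))
  | 3 => isPos (Int.add (Int.add (Int.add x (Int.neg hx)) (Int.mul 2 (cond (isPos yl) yl 0))) (-747667906888))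
  | 4 => isPos (Int.add yl (-428809534833))
  | 5 => isPos (Int.add (Int.add (Int.neg (Int.add x hx)) (Int.mul 2 (cond (isPos yl) yl 0))) (-1264438371943))
  | 6 => isPos (Int.add (Int.add (Int.neg (Int.add x hx)) (cond (isPos yl) yl 0)) (-901599534777))
  | 7 => isPos (Int.add (Int.add (Int.mul 2 (Int.neg (Int.add x hx))) (cond (isPos yl) yl 0)) (-1489838255637))
  | _ =>
    let xl := Int.add (absI x) (Int.neg hx)
    isPos (Int.add (Int.add (cond (isPos xl) (Int.mul xl xl) 0) (cond (isPos yl) (Int.mul yl yl) 0))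
      (-435213295061266502894224))

/-- both coordinates in the near box -/
def nearQ (x y hx hy : Int) : Bool :=
  and (le (Int.add (absI (Int.add x 210232900782)) hx) 2199023253)
    (le (Int.add (absI (Int.add y (-225287107886))) hy) 2199023253)

/-- decoder of atoms -/
def dec (n : Nat) : At :=
  ⟨Int.add (Int.ofNat (Nat.mod n 65536)) (-32768), Nat.div n 281474976710656,
    Int.add (Int.ofNat (Nat.mod (Nat.div n 65536) 65536)) (-32768),
    Int.add (Int.ofNat (Nat.mod (Nat.div n 4294967296) 65536)) (-32768)⟩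

/-- tree of boxes -/
inductive Tree where
  /-- split coordinate `0..3` = `ux, uy, vx, vy` -/
  | split (d : Nat) (l r : Tree)
  | cert (mv mu : Nat) (L : List Nat)
  | outU (k : Nat)
  | outV (k : Nat)
  /-- `Im (u + v) < 0` on the box -/
  | negM
  /-- `Re (v - u) < 0` on the box -/
  | negD
  | near

/-- halves of an (even) half width -/
def half (x : Int) : Int := Int.ediv x 2

def Box.lo (b : Box) : Nat → Box
  | 0 => { b with ux := Int.add b.ux (Int.neg (half b.hux)), hux := half b.hux }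
  | 1 => { b with uy := Int.add b.uy (Int.neg (half b.huy)), huy := half b.huy }
  | 2 => { b with vx := Int.add b.vx (Int.neg (half b.hvx)), hvx := half b.hvx }
  | _ => { b with vy := Int.add b.vy (Int.neg (half b.hvy)), hvy := half b.hvy }

def Box.hi (b : Box) : Nat → Box
  | 0 => { b with ux := Int.add b.ux (half b.hux), hux := half b.hux }
  | 1 => { b with uy := Int.add b.uy (half b.huy), huy := half b.huy }
  | 2 => { b with vx := Int.add b.vx (half b.hvx), hvx := half b.hvx }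
  | _ => { b with vy := Int.add b.vy (half b.hvy), hvy := half b.hvy }

/-- the half width to be split is even -/
def Box.even (b : Box) : Nat → Bool
  | 0 => Nat.beq (Nat.mod (Int.natAbs b.hux) 2) 0
  | 1 => Nat.beq (Nat.mod (Int.natAbs b.huy) 2) 0
  | 2 => Nat.beq (Nat.mod (Int.natAbs b.hvx) 2) 0
  | _ => Nat.beq (Nat.mod (Int.natAbs b.hvy) 2) 0

def Tree.check : Tree → Box → Bool
  | .split d l r, b => and (b.even d) (and (l.check (b.lo d)) (r.check (b.hi d)))
  | .cert mv mu L, b => boxOK (L.map dec) mv mu b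
  | .outU k, b => outQ k b.ux b.uy b.hux b.huy
  | .outV k, b => outQ k b.vx b.vy b.hvx b.hvy
  | .negM, b => isPos (Int.neg (Int.add (Int.add b.uy b.vy) (Int.add b.huy b.hvy)))
  | .negD, b => isPos (Int.neg (Int.add (Int.add b.vx (Int.neg b.ux)) (Int.add b.hux b.hvx)))
  | .near, b => and (nearQ b.ux b.uy b.hux b.huy) (nearQ b.vx b.vy b.hvx b.hvy)

end MaxTerm.PA.Chk
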