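import Pool.Agent.MaxTerm.PartA.ModeE

/-!
# Part A, mode F: numerical corollary of the exact mode, used in the far region

Only crude bounds of the infinite tails: for `A ≤ 4`, `r ≤ 9/25`,
`∑_{n ≥ 5} gw n 1 A r^(ee n - 1) ≤ 11 A r^14` (main term `10 A r^14`), `7 A r^14` for `l = 2` (main term `6`),
`4 A r^14` for `l = 3` (main term `3`), and `∑_{l≥4} ‖E_l‖²/pE_l + ... ≤ 1/10^8`;
`2 ∑_{n≥5} A r^(ee n) ≤ 11/5 A r^15`.
-/

open Filter Topology ComplexConjugate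

namespace MaxTerm.PA

namespace MF

theorem ee_succ (n : ℕ) : ee (n + 1) = ee n + (n + 1) := by
  unfold ee
  have h : (n + 1) * (n + 1 + 1) = n * (n + 1) + (n + 1) * 2 := by ring
  rw [h, Nat.add_mul_div_right _ _ (by norm_num)]

theorem ee_ge {n : ℕ} : n ≤ ee n := by
  induction n with
  | zero => simp
  | succ k ih => rw [ee_succ]; omega

theorem gw_succ_le {n l : ℕ} (h : l + 1 ≤ n) : gw (n + 1) l ≤ 3 * gw n l := by
  unfold gw
  obtain ⟨m, rfl⟩ : ∃ m, n = l + 1 + m := ⟨n - (l + 1), by omega⟩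
  have e1 : l + 1 + m + 1 - l = m + 2 := by omega
  have e2 : l + 1 + m - l = m + 1 := by omega
  rw [e1, e2]
  have h : (m + 2) * (m + 2 + 1) = (m + 1) * (m + 1 + 1) + (m + 2) * 2 := by ring
  rw [h, Nat.add_mul_div_right _ _ (by norm_num)]
  have h2 : (m + 1) * (m + 1 + 1) / 2 * 2 = (m + 1) * (m + 1 + 1) :=
    Nat.div_mul_cancel (Nat.even_mul_succ_self (m + 1)).two_dvd
  nlinarith

theorem gw_zero {n l : ℕ} (h : n ≤ l) : gw n l = 0 := by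
  unfold gw
  rw [Nat.sub_eq_zero_of_le h]

theorem r6 {r : ℝ} (h0 : 0 ≤ r) (h1 : r ≤ 9 / 25) : r ^ 6 ≤ 22 / 10000 := by
  calc r ^ 6 ≤ (9 / 25) ^ 6 := pow_le_pow_left₀ h0 h1 6
    _ ≤ _ := by norm_num

/-- geometric decay of the terms -/
theorem term_le {r : ℝ} (h0 : 0 ≤ r) (h1 : r ≤ 9 / 25) {N l : ℕ} (hl : l + 1 ≤ N) (hN : 5 ≤ N)
    (k : ℕ) :
    (gw (N + k) l : ℝ) * r ^ (ee (N + k) - 1) ≤ gw N l * r ^ (ee N - 1) * (1 / 100) ^ k := by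
  induction k with
  | zero => simp
  | succ k ih =>
    have e : ee (N + (k + 1)) - 1 = (ee (N + k) - 1) + (N + k + 1) := by
      have := ee_succ (N + k)
      have h2 : N + k ≤ ee (N + k) := ee_ge
      rw [← add_assoc, this]
      omega
    rw [e, pow_add, ← add_assoc]
    have hg : (gw (N + k + 1) l : ℝ) ≤ 3 * gw (N + k) l := by
      exact_mod_cast gw_succ_le (by omega : l + 1 ≤ N + k)
    have hr1 : r ≤ 1 := by linarith
    have hp : r ^ (N + k + 1) ≤ r ^ 6 := pow_le_pow_of_le_one h0 hr1 (by omega)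
    have h6 := r6 h0 h1
    have hg0 : (0 : ℝ) ≤ gw (N + k) l := Nat.cast_nonneg _
    have hq0 : (0 : ℝ) ≤ r ^ (ee (N + k) - 1) := pow_nonneg h0 _
    have hq1 : (0 : ℝ) ≤ r ^ (N + k + 1) := pow_nonneg h0 _
    calc (gw (N + k + 1) l : ℝ) * (r ^ (ee (N + k) - 1) * r ^ (N + k + 1))
        ≤ (3 * gw (N + k) l) * (r ^ (ee (N + k) - 1) * (22 / 10000)) := by
          apply mul_le_mul hg _ (by positivity) (by positivity)
          exact mul_le_mul_of_nonneg_left (hp.trans h6) hq0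
      _ = (gw (N + k) l * r ^ (ee (N + k) - 1)) * (66 / 10000) := by ring
      _ ≤ (gw (N + k) l * r ^ (ee (N + k) - 1)) * (1 / 100) := by
          apply mul_le_mul_of_nonneg_left (by norm_num) (by positivity)
      _ ≤ (gw N l * r ^ (ee N - 1) * (1 / 100) ^ k) * (1 / 100) :=
          mul_le_mul_of_nonneg_right ih (by norm_num)
      _ = _ := by ring

theorem term_le' {r : ℝ} (h0 : 0 ≤ r) (h1 : r ≤ 9 / 25) {N : ℕ} (hN : 5 ≤ N) (k : ℕ) :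
    r ^ (ee (N + k)) ≤ r ^ (ee N) * (1 / 100) ^ k := by
  induction k with
  | zero => simp
  | succ k ih =>
    have e : ee (N + (k + 1)) = ee (N + k) + (N + k + 1) := by
      rw [← add_assoc, ee_succ]
    rw [e, pow_add]
    have hr1 : r ≤ 1 := by linarith
    have hp : r ^ (N + k + 1) ≤ r ^ 6 := pow_le_pow_of_le_one h0 hr1 (by omega)
    have h6 := r6 h0 h1
    have hq0 : (0 : ℝ) ≤ r ^ (ee (N + k)) := pow_nonneg h0 _
    calc r ^ (ee (N + k)) * r ^ (N + k + 1) ≤ r ^ (ee (N + k)) * (1 / 100) := by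
          apply mul_le_mul_of_nonneg_left (by linarith) hq0
      _ ≤ (r ^ (ee N) * (1 / 100) ^ k) * (1 / 100) :=
          mul_le_mul_of_nonneg_right ih (by norm_num)
      _ = _ := by ring

/-- tail estimate -/
theorem tail {t : ℕ → ℂ} {C : ℝ} (N : ℕ) (h : ∀ k, ‖t (k + N)‖ ≤ C * (1 / 100) ^ k) :
    ‖∑' n, t n - ∑ n ∈ Finset.range N, t n‖ ≤ C * (100 / 99) := by
  have hg : Summable fun k : ℕ => C * (1 / 100 : ℝ) ^ k :=
    (summable_geometric_of_lt_one (by norm_num) (by norm_num)).mul_left C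
  have hs : Summable fun k => t (k + N) := Summable.of_norm_bounded hg h
  have hs' : Summable t := (summable_nat_add_iff N).1 hs
  have e : ∑' n, t n - ∑ n ∈ Finset.range N, t n = ∑' k, t (k + N) := by
    rw [← hs'.sum_add_tsum_nat_add N]; ring
  rw [e]
  have h2 : HasSum (fun k : ℕ => C * (1 / 100 : ℝ) ^ k) (C * (100 / 99)) := by
    have := (hasSum_geometric_of_lt_one (r := (1 / 100 : ℝ)) (by norm_num) (by norm_num)).mul_left C
    rwa [show ((1 : ℝ) - 1 / 100)⁻¹ = 100 / 99 by norm_num] at this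
  exact tsum_of_norm_bounded h2 h

theorem gw21 : gw 2 1 = 1 := rfl
theorem gw31 : gw 3 1 = 3 := rfl
theorem gw41 : gw 4 1 = 6 := rfl
theorem gw51 : gw 5 1 = 10 := rfl
theorem gw22 : gw 2 2 = 0 := rfl
theorem gw32 : gw 3 2 = 1 := rfl
theorem gw42 : gw 4 2 = 3 := rfl
theorem gw52 : gw 5 2 = 6 := rfl
theorem gw23 : gw 2 3 = 0 := rfl
theorem gw33 : gw 3 3 = 0 := rfl
theorem gw43 : gw 4 3 = 1 := rfl
theorem gw53 : gw 5 3 = 3 := rfl

theorem norm_Bs (v b : ℂ) : ‖Bs v b‖ = ‖b‖ := by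
  unfold Bs
  split_ifs <;> simp

section

variable {α : ℕ → ℂ} {v : ℂ} {A r : ℝ}

theorem A_nonneg (hA : ∀ n, 5 ≤ n → ‖α n‖ ≤ A) : 0 ≤ A := (norm_nonneg _).trans (hA 5 le_rfl)

/-- the tail of the `EE` series from index `N` on (`n = N, N+1, ...`) -/
theorem EE_tail (hr : ‖v‖ ≤ r) (hr1 : r ≤ 9 / 25) (hA : ∀ n, 5 ≤ n → ‖α n‖ ≤ A) {M l : ℕ}
    (hl : l + 1 ≤ M + 2) (hM : 5 ≤ M + 2) :
    ‖(∑' n : ℕ, (gw (n + 2) l : ℂ) * α (n + 2) * v ^ (ee (n + 2) - 1))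
      - ∑ n ∈ Finset.range M, (gw (n + 2) l : ℂ) * α (n + 2) * v ^ (ee (n + 2) - 1)‖
      ≤ A * (gw (M + 2) l * r ^ (ee (M + 2) - 1)) * (100 / 99) := by
  have h0 : 0 ≤ r := (norm_nonneg v).trans hr
  have hA0 := A_nonneg hA
  apply tail
  intro k
  rw [norm_mul, norm_mul, norm_pow, Complex.norm_natCast]
  have e : k + M + 2 = M + 2 + k := by ring
  rw [e]
  have h1 := term_le h0 hr1 hl hM k
  have h2 := hA (M + 2 + k) (by omega)
  have h3 : ‖v‖ ^ (ee (M + 2 + k) - 1) ≤ r ^ (ee (M + 2 + k) - 1) :=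
    pow_le_pow_left₀ (norm_nonneg _) hr _
  have hg0 : (0 : ℝ) ≤ gw (M + 2 + k) l := Nat.cast_nonneg _
  calc (gw (M + 2 + k) l : ℝ) * ‖α (M + 2 + k)‖ * ‖v‖ ^ (ee (M + 2 + k) - 1)
      ≤ (gw (M + 2 + k) l : ℝ) * A * r ^ (ee (M + 2 + k) - 1) := by
        apply mul_le_mul _ h3 (by positivity) (by positivity)
        exact mul_le_mul_of_nonneg_left h2 hg0
    _ = A * ((gw (M + 2 + k) l : ℝ) * r ^ (ee (M + 2 + k) - 1)) := by ring
    _ ≤ A * (gw (M + 2) l * r ^ (ee (M + 2) - 1) * (1 / 100) ^ k) :=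
        mul_le_mul_of_nonneg_left h1 hA0
    _ = _ := by ring

theorem al_tail (hr : ‖v‖ ≤ r) (hr1 : r ≤ 9 / 25) (hA : ∀ n, 5 ≤ n → ‖α n‖ ≤ A) :
    ‖(∑' n : ℕ, α (n + 2) * v ^ ee (n + 2)) - (α 2 * v ^ 3 + α 3 * v ^ 6 + α 4 * v ^ 10)‖
      ≤ A * r ^ 15 * (100 / 99) := by
  have h0 : 0 ≤ r := (norm_nonneg v).trans hr
  have hA0 := A_nonneg hA
  have h := tail (t := fun n : ℕ => α (n + 2) * v ^ ee (n + 2)) (C := A * r ^ 15) 3 (by
    intro k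
    rw [norm_mul, norm_pow]
    have e : k + 3 + 2 = 5 + k := by ring
    rw [e]
    have h1 := term_le' h0 hr1 (le_refl 5) k
    have h2 := hA (5 + k) (by omega)
    have h3 : ‖v‖ ^ (ee (5 + k)) ≤ r ^ (ee (5 + k)) :=
      pow_le_pow_left₀ (norm_nonneg _) hr _
    calc ‖α (5 + k)‖ * ‖v‖ ^ (ee (5 + k)) ≤ A * r ^ (ee (5 + k)) :=
          mul_le_mul h2 h3 (by positivity) hA0
      _ ≤ A * (r ^ (ee 5) * (1 / 100) ^ k) := mul_le_mul_of_nonneg_left h1 hA0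
      _ = _ := by rw [show ee 5 = 15 from rfl]; ring)
  simp only [Finset.sum_range_succ, Finset.sum_range_zero, zero_add] at h
  exact h

/-- `E_1` -/
theorem E1 (B : ℕ → ℂ) (hr : ‖v‖ ≤ r) (hr1 : r ≤ 9 / 25) (hA : ∀ n, 5 ≤ n → ‖α n‖ ≤ A) :
    ‖EE B α v 1‖ ≤ ‖α 2 * v ^ 2 + 3 * α 3 * v ^ 5 + 6 * α 4 * v ^ 9 - Bs v (B 1)‖
      + 11 * A * r ^ 14 := by
  have h0 : 0 ≤ r := (norm_nonneg v).trans hr
  have hA0 := A_nonneg hA
  have h := EE_tail (M := 3) (l := 1) hr hr1 hA (by norm_num) (by norm_num)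
  simp only [Finset.sum_range_succ, Finset.sum_range_zero, zero_add] at h
  rw [show gw 2 1 = 1 from rfl, show gw (1 + 2) 1 = 3 from rfl, show gw (2 + 2) 1 = 6 from rfl,
    show gw (3 + 2) 1 = 10 from rfl, show ee (3 + 2) - 1 = 14 from rfl, show ee 2 - 1 = 2 from rfl,
    show ee (1 + 2) - 1 = 5 from rfl, show ee (2 + 2) - 1 = 9 from rfl] at h
  have e : EE B α v 1 = (α 2 * v ^ 2 + 3 * α 3 * v ^ 5 + 6 * α 4 * v ^ 9 - Bs v (B 1))
      + ((∑' n : ℕ, (gw (n + 2) 1 : ℂ) * α (n + 2) * v ^ (ee (n + 2) - 1))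
        - (((1 : ℕ) : ℂ) * α 2 * v ^ 2 + ((3 : ℕ) : ℂ) * α (1 + 2) * v ^ 5
          + ((6 : ℕ) : ℂ) * α (2 + 2) * v ^ 9)) := by
    unfold EE
    push_cast
    norm_num
  rw [e]
  refine (norm_add_le _ _).trans (add_le_add le_rfl (h.trans ?_))
  have : 0 ≤ A * r ^ 14 := by positivity
  push_cast
  nlinarith

/-- `E_2` -/
theorem E2 (B : ℕ → ℂ) (hr : ‖v‖ ≤ r) (hr1 : r ≤ 9 / 25) (hA : ∀ n, 5 ≤ n → ‖α n‖ ≤ A) :
    ‖EE B α v 2‖ ≤ ‖α 3 * v ^ 5 + 3 * α 4 * v ^ 9 - Bs v (B 2)‖ + 7 * A * r ^ 14 := by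
  have h0 : 0 ≤ r := (norm_nonneg v).trans hr
  have hA0 := A_nonneg hA
  have h := EE_tail (M := 3) (l := 2) hr hr1 hA (by norm_num) (by norm_num)
  simp only [Finset.sum_range_succ, Finset.sum_range_zero, zero_add] at h
  rw [show gw 2 2 = 0 from rfl, show gw (1 + 2) 2 = 1 from rfl, show gw (2 + 2) 2 = 3 from rfl,
    show gw (3 + 2) 2 = 6 from rfl, show ee (3 + 2) - 1 = 14 from rfl, show ee 2 - 1 = 2 from rfl,
    show ee (1 + 2) - 1 = 5 from rfl, show ee (2 + 2) - 1 = 9 from rfl] at h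
  have e : EE B α v 2 = (α 3 * v ^ 5 + 3 * α 4 * v ^ 9 - Bs v (B 2))
      + ((∑' n : ℕ, (gw (n + 2) 2 : ℂ) * α (n + 2) * v ^ (ee (n + 2) - 1))
        - (((0 : ℕ) : ℂ) * α 2 * v ^ 2 + ((1 : ℕ) : ℂ) * α (1 + 2) * v ^ 5
          + ((3 : ℕ) : ℂ) * α (2 + 2) * v ^ 9)) := by
    unfold EE
    push_cast
    norm_num
  rw [e]
  refine (norm_add_le _ _).trans (add_le_add le_rfl (h.trans ?_))
  have : 0 ≤ A * r ^ 14 := by positivity
  push_cast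
  nlinarith

/-- `E_3` -/
theorem E3 {B : ℕ → ℂ} (hB3 : ‖B 3‖ ≤ 3 / 100000) (hr : ‖v‖ ≤ r) (hr1 : r ≤ 9 / 25)
    (hA : ∀ n, 5 ≤ n → ‖α n‖ ≤ A) :
    ‖EE B α v 3‖ ≤ ‖α 4‖ * r ^ 9 + 4 * A * r ^ 14 + 3 / 100000 := by
  have h0 : 0 ≤ r := (norm_nonneg v).trans hr
  have hA0 := A_nonneg hA
  have h := EE_tail (M := 3) (l := 3) hr hr1 hA (by norm_num) (by norm_num)
  simp only [Finset.sum_range_succ, Finset.sum_range_zero, zero_add] at h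
  rw [show gw 2 3 = 0 from rfl, show gw (1 + 2) 3 = 0 from rfl, show gw (2 + 2) 3 = 1 from rfl,
    show gw (3 + 2) 3 = 3 from rfl, show ee (3 + 2) - 1 = 14 from rfl, show ee 2 - 1 = 2 from rfl,
    show ee (1 + 2) - 1 = 5 from rfl, show ee (2 + 2) - 1 = 9 from rfl] at h
  have e : EE B α v 3 = α 4 * v ^ 9 + -Bs v (B 3)
      + ((∑' n : ℕ, (gw (n + 2) 3 : ℂ) * α (n + 2) * v ^ (ee (n + 2) - 1))
        - (((0 : ℕ) : ℂ) * α 2 * v ^ 2 + ((0 : ℕ) : ℂ) * α (1 + 2) * v ^ 5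
          + ((1 : ℕ) : ℂ) * α (2 + 2) * v ^ 9)) := by
    unfold EE
    push_cast
    norm_num
    ring
  rw [e]
  have h1 : ‖α 4 * v ^ 9‖ ≤ ‖α 4‖ * r ^ 9 := by
    rw [norm_mul, norm_pow]
    exact mul_le_mul_of_nonneg_left (pow_le_pow_left₀ (norm_nonneg _) hr _) (norm_nonneg _)
  have h2 : ‖-Bs v (B 3)‖ ≤ 3 / 100000 := by rw [norm_neg, norm_Bs]; exact hB3
  have h3 := norm_add₃_le (a := α 4 * v ^ 9) (b := -Bs v (B 3))
    (c := ((∑' n : ℕ, (gw (n + 2) 3 : ℂ) * α (n + 2) * v ^ (ee (n + 2) - 1))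
        - (((0 : ℕ) : ℂ) * α 2 * v ^ 2 + ((0 : ℕ) : ℂ) * α (1 + 2) * v ^ 5
          + ((1 : ℕ) : ℂ) * α (2 + 2) * v ^ 9)))
  have : 0 ≤ A * r ^ 14 := by positivity
  push_cast at h h3 ⊢
  nlinarith

/-- `E_l` for `l = m + 4` -/
theorem E4 {B : ℕ → ℂ} (hB : BOK B) (hr : ‖v‖ ≤ r) (hr1 : r ≤ 9 / 25)
    (hA : ∀ n, 5 ≤ n → ‖α n‖ ≤ A) (hA4 : A ≤ 4) (m : ℕ) :
    ‖EE B α v (m + 4)‖ ≤ 26 / 10000000 / 8 ^ m := by
  have h0 : 0 ≤ r := (norm_nonneg v).trans hr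
  have hA0 := A_nonneg hA
  have h := EE_tail (M := m + 3) (l := m + 4) hr hr1 hA (by omega) (by omega)
  have hz : ∑ n ∈ Finset.range (m + 3), (gw (n + 2) (m + 4) : ℂ) * α (n + 2)
      * v ^ (ee (n + 2) - 1) = 0 := by
    apply Finset.sum_eq_zero
    intro n hn
    rw [gw_zero (by have := Finset.mem_range.1 hn; omega)]
    simp
  rw [hz, sub_zero] at h
  have hg : gw (m + 3 + 2) (m + 4) = 1 := by
    unfold gw
    have : m + 3 + 2 - (m + 4) = 1 := by omega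
    rw [this]
  rw [hg, Nat.cast_one, one_mul] at h
  have hb : ‖Bs v (B (m + 4))‖ ≤ (1 / 10 ^ 7) / 8 ^ m := by
    rw [norm_Bs]
    have := hB.rest (m + 4) (by omega)
    simpa using this
  have hp : ∀ m : ℕ, r ^ (ee (m + 3 + 2) - 1) ≤ 615 / 1000000000 / 8 ^ m := by
    intro m
    induction m with
    | zero =>
      have e : ee (0 + 3 + 2) - 1 = 14 := rfl
      rw [e]
      calc r ^ 14 ≤ (9 / 25) ^ 14 := pow_le_pow_left₀ h0 hr1 14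
        _ ≤ _ := by norm_num
    | succ k ih =>
      have e : ee (k + 1 + 3 + 2) - 1 = (ee (k + 3 + 2) - 1) + (k + 3 + 2 + 1) := by
        have := ee_succ (k + 3 + 2)
        have h2 : k + 3 + 2 ≤ ee (k + 3 + 2) := ee_ge
        rw [show k + 1 + 3 + 2 = k + 3 + 2 + 1 by ring, this]
        omega
      rw [e, pow_add]
      have hp : r ^ (k + 3 + 2 + 1) ≤ r ^ 6 :=
        pow_le_pow_of_le_one h0 (by linarith) (by omega)
      have h6 := r6 h0 hr1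
      calc r ^ (ee (k + 3 + 2) - 1) * r ^ (k + 3 + 2 + 1)
          ≤ (615 / 1000000000 / 8 ^ k) * (1 / 8) :=
            mul_le_mul ih (by linarith) (by positivity) (by positivity)
        _ = _ := by rw [pow_succ]; field_simp
  have e : EE B α v (m + 4) = (∑' n : ℕ, (gw (n + 2) (m + 4) : ℂ) * α (n + 2)
      * v ^ (ee (n + 2) - 1)) - Bs v (B (m + 4)) := rfl
  rw [e]
  refine (norm_sub_le _ _).trans ((add_le_add h hb).trans ?_)
  have h8 : (0 : ℝ) < 8 ^ m := by positivity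
  have h1 : A * r ^ (ee (m + 3 + 2) - 1) ≤ 4 * (615 / 1000000000 / 8 ^ m) :=
    mul_le_mul hA4 (hp m) (by positivity) (by norm_num)
  have h2 : 4 * (615 / 1000000000 / (8 : ℝ) ^ m) * (100 / 99) + 1 / 10 ^ 7 / 8 ^ m
      = (4 * (615 / 1000000000) * (100 / 99) + 1 / 10 ^ 7) / 8 ^ m := by ring
  have h3 : (4 * (615 / 1000000000) * (100 / 99) + 1 / 10 ^ 7) / 8 ^ m
      ≤ 26 / 10000000 / (8 : ℝ) ^ m := by
    apply div_le_div_of_nonneg_right _ h8.le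
    norm_num
  nlinarith

end

end MF

open MF in
theorem Rs_modeF {B α s : ℕ → ℂ} (hB : BOK B) {A r c4 c5 c6 c7 : ℝ} (hs : ∀ i, ‖s i‖ ≤ 3 / 5)
    (hr : ‖s 0‖ ≤ r) (hr1 : r ≤ 9 / 25) (him : 1 / 8 ≤ |(s 0).im|) (hA4 : A ≤ 4)
    (hA : ∀ n, 5 ≤ n → ‖α n‖ ≤ A)
    (hc4 : 2 * ‖α 3‖ * r ^ 3 ≤ c4) (hc5 : 2 * ‖α 4‖ * r ^ 4 ≤ c5)
    (hc6 : 2 * A * r ^ 5 * (3 / 5) ^ 8 ≤ c6) (hc6' : c6 ≤ 1 / 3000)
    (hc7 : 1600 * A * r ^ 6 * (3 / 5) ^ 13 ≤ c7) (hc7' : c7 ≤ 1 / 80)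
    (hp1 : 0 < p1E r c4 c5 c6 c7) (hp2 : 0 < p2E r c4 c5 c6 c7) (hp3 : 0 < p3E r c5 c6 c7) :
    2 * (α 2 * s 0 ^ 3 + α 3 * s 0 ^ 6 + α 4 * s 0 ^ 10).re
      - (‖α 2 * s 0 ^ 2 + 3 * α 3 * s 0 ^ 5 + 6 * α 4 * s 0 ^ 9 - Bs (s 0) (B 1)‖
          + 11 * A * r ^ 14) ^ 2 / p1E r c4 c5 c6 c7
      - (‖α 3 * s 0 ^ 5 + 3 * α 4 * s 0 ^ 9 - Bs (s 0) (B 2)‖ + 7 * A * r ^ 14) ^ 2
          / p2E r c4 c5 c6 c7
      - (‖α 4‖ * r ^ 9 + 4 * A * r ^ 14 + 3 / 100000) ^ 2 / p3E r c5 c6 c7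
      - 11 / 5 * A * r ^ 15 - 1 / 10 ^ 8
      ≤ Rs B α s := by
  have hmain := Rs_modeE hB hs hr hr1 him hA hc4 hc5 hc6 hc6' hc7 hc7' hp1 hp2 hp3
  refine le_trans ?_ hmain
  have h0 : 0 ≤ r := (norm_nonneg (s 0)).trans hr
  have hA0 := A_nonneg hA
  -- the linear part
  have hal := al_tail (v := s 0) hr hr1 hA
  have hre := (Complex.abs_re_le_norm _).trans hal
  rw [Complex.sub_re] at hre
  have hre1 := neg_le_of_abs_le hre
  have h15 : 0 ≤ A * r ^ 15 := by positivity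
  -- the quadratic part
  set f : ℕ → ℝ := fun l => ‖EE B α (s 0) (l + 1)‖ ^ 2 / pE r c4 c5 c6 c7 (l + 1) with hf
  have hbd : ∀ k, f (k + 3) ≤ 44 / 10000000000 * (1 / 32) ^ k := by
    intro k
    have h1 := E4 (v := s 0) hB hr hr1 hA hA4 k
    have e : f (k + 3) = ‖EE B α (s 0) (k + 4)‖ ^ 2 / ((1 / 40) / 2 ^ (k + 4)) := rfl
    rw [e]
    have h2 : ‖EE B α (s 0) (k + 4)‖ ^ 2 ≤ (26 / 10000000 / 8 ^ k) ^ 2 :=
      pow_le_pow_left₀ (norm_nonneg _) h1 2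
    have h3 : (0 : ℝ) < (1 / 40) / 2 ^ (k + 4) := by positivity
    calc ‖EE B α (s 0) (k + 4)‖ ^ 2 / ((1 / 40) / 2 ^ (k + 4))
        ≤ (26 / 10000000 / 8 ^ k) ^ 2 / ((1 / 40) / 2 ^ (k + 4)) :=
          div_le_div_of_nonneg_right h2 h3.le
      _ = (26 / 10000000) ^ 2 * 40 * 16 * (2 ^ k / (8 ^ k) ^ 2) := by
          rw [pow_add]; field_simp; ring
      _ = (26 / 10000000) ^ 2 * 40 * 16 * (1 / 32) ^ k := by
          congr 1
          rw [← pow_mul, mul_comm k 2, pow_mul, ← div_pow]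
          norm_num
      _ ≤ _ := by
          apply mul_le_mul_of_nonneg_right _ (by positivity)
          norm_num
  have hnn : ∀ k, 0 ≤ f (k + 3) := by
    intro k
    have e : f (k + 3) = ‖EE B α (s 0) (k + 4)‖ ^ 2 / ((1 / 40) / 2 ^ (k + 4)) := rfl
    rw [e]; positivity
  have hgs : Summable fun k : ℕ => (44 / 10000000000 : ℝ) * (1 / 32) ^ k :=
    (summable_geometric_of_lt_one (by norm_num) (by norm_num)).mul_left _
  have hs3 : Summable fun k => f (k + 3) := Summable.of_nonneg_of_le hnn hbd hgs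
  have hsf : Summable f := (summable_nat_add_iff 3).1 hs3
  have hsplit : ∑' l, f l = f 0 + f 1 + f 2 + ∑' k, f (k + 3) := by
    rw [← hsf.sum_add_tsum_nat_add 3]
    simp [Finset.sum_range_succ]
  have htl : ∑' k, f (k + 3) ≤ 1 / 10 ^ 8 := by
    refine (hs3.tsum_le_tsum hbd hgs).trans ?_
    rw [tsum_mul_left, tsum_geometric_of_lt_one (by norm_num) (by norm_num)]
    norm_num
  have hf0 : f 0 ≤ (‖α 2 * s 0 ^ 2 + 3 * α 3 * s 0 ^ 5 + 6 * α 4 * s 0 ^ 9 - Bs (s 0) (B 1)‖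
          + 11 * A * r ^ 14) ^ 2 / p1E r c4 c5 c6 c7 := by
    have h1 := E1 (v := s 0) B hr hr1 hA
    exact div_le_div_of_nonneg_right (pow_le_pow_left₀ (norm_nonneg _) h1 2) hp1.le
  have hf1 : f 1 ≤ (‖α 3 * s 0 ^ 5 + 3 * α 4 * s 0 ^ 9 - Bs (s 0) (B 2)‖ + 7 * A * r ^ 14) ^ 2
          / p2E r c4 c5 c6 c7 := by
    have h1 := E2 (v := s 0) B hr hr1 hA
    exact div_le_div_of_nonneg_right (pow_le_pow_left₀ (norm_nonneg _) h1 2) hp2.le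
  have hf2 : f 2 ≤ (‖α 4‖ * r ^ 9 + 4 * A * r ^ 14 + 3 / 100000) ^ 2 / p3E r c5 c6 c7 := by
    have h1 := E3 (v := s 0) hB.three hr hr1 hA
    exact div_le_div_of_nonneg_right (pow_le_pow_left₀ (norm_nonneg _) h1 2) hp3.le
  change _ ≤ 2 * (∑' n : ℕ, α (n + 2) * s 0 ^ ee (n + 2)).re - ∑' l, f l
  rw [hsplit]
  nlinarith

end MaxTerm.PA
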