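import Pool.Agent.MaxTerm.PartA.ModesAux

/-!
# Part A, mode L (any `v`, crude treatment of `mon s 3` and higher)

Proof. `v = s 0`, `D l = s l - s (l-1)`, `X = 3/5`.
* `2 Re (α 2 v² s₁) = 2 Re (α 2 v³) + 2 Re (α 2 v² D₁)`.
* `2 Re (α 3 mon s 3) ≥ -2 ‖α 3‖ r³ X ‖s₁‖² ≥ -γ ‖s₁‖² - (g4 - γ) X²`, and
  `‖s₁‖² = ‖v‖² + 2 Re (conj v D₁) + ‖D₁‖²`.
* `2 Re (α 4 mon s 4) ≥ -2 ‖α 4‖ r⁴ X⁶`; for `n ≥ 5`: `‖mon s n‖ ≤ r^n X^(n(n-1)/2)`, and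
  `∑_{n≥5} 2 A r^n X^(n(n-1)/2) ≤ (11/5) A r⁵ X¹⁰` as `r ≤ 1`.
* folding: `-2 Re (B 1 (shp s₁ - shp v)) ≥ -2 Re (Bs v (B 1) D₁)` because `0 ≤ (B 1).im`
  (`shp` is 1-Lipschitz; if `v` is in the upper half plane `shp s₁ = s₁ + i n`, `n ≥ 0`).
* `(4/5 - γ) ‖D₁‖² + 2 Re (E D₁) ≥ -‖E‖²/(4/5 - γ)`, `E = α 2 v² - Bs v (B 1) - γ conj v`.
* `(1/10) ‖D₂‖² - 2 ‖B 2‖ ‖D₂‖ ≥ -10 ‖B 2‖²`, `‖D l‖ ≤ 6/5` for `l ≥ 3`; total `≤ 8/100000`.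
-/

open Filter Topology ComplexConjugate

namespace MaxTerm.PA

theorem Rs_modeL {B α s : ℕ → ℂ} (hB : BOK B) {A r g4 γ : ℝ} (hs : ∀ i, ‖s i‖ ≤ 3 / 5)
    (hr : ‖s 0‖ ≤ r) (hr1 : r ≤ 1) (hA : ∀ n, 5 ≤ n → ‖α n‖ ≤ A)
    (hg4 : 2 * ‖α 3‖ * r ^ 3 * (3 / 5) ≤ g4) (hγ0 : 0 ≤ γ) (hγ1 : γ ≤ g4) (hγ2 : γ < 4 / 5) :
    2 * (α 2 * s 0 ^ 3).re - γ * ‖s 0‖ ^ 2
      - ‖α 2 * s 0 ^ 2 - Bs (s 0) (B 1) - (γ : ℂ) * conj (s 0)‖ ^ 2 / (4 / 5 - γ)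
      - ((g4 - γ) * (9 / 25) + 2 * ‖α 4‖ * r ^ 4 * (3 / 5) ^ 6
        + 11 / 5 * A * r ^ 5 * (3 / 5) ^ 10 + 8 / 100000)
      ≤ Rs B α s := by
  have hr0 : 0 ≤ r := (norm_nonneg _).trans hr
  refine le_trans ?_ (Rs_ge hB hs hr hr1 hA)
  set v := s 0 with hv
  set D := s 1 - v with hD
  have hs1 : s 1 = v + D := by rw [hD]; ring
  -- mon s 2
  have h2 : (α 2 * (v ^ 2 * s 1)).re = (α 2 * v ^ 3).re + (α 2 * v ^ 2 * D).re := by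
    rw [← Complex.add_re, hs1]
    congr 1
    ring
  -- mon s 3
  have h3 : -(g4 * ‖s 1‖ ^ 2) ≤ 2 * (α 3 * (v ^ 3 * s 1 ^ 2 * s 2)).re := by
    have h31 := (abs_le.1 (Complex.abs_re_le_norm (α 3 * (v ^ 3 * s 1 ^ 2 * s 2)))).1
    have h32 : ‖α 3 * (v ^ 3 * s 1 ^ 2 * s 2)‖ ≤ ‖α 3‖ * (r ^ 3 * ‖s 1‖ ^ 2 * (3 / 5)) := by
      rw [norm_mul, norm_mul, norm_mul, norm_pow, norm_pow]
      refine mul_le_mul_of_nonneg_left ?_ (norm_nonneg _)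
      refine mul_le_mul ?_ (hs 2) (norm_nonneg _) (by positivity)
      exact mul_le_mul_of_nonneg_right (pow_le_pow_left₀ (norm_nonneg _) hr 3) (by positivity)
    have h33 := mul_le_mul_of_nonneg_right hg4 (sq_nonneg ‖s 1‖)
    linarith
  have h3' : -(γ * ‖s 1‖ ^ 2) - (g4 - γ) * (9 / 25) ≤ -(g4 * ‖s 1‖ ^ 2) := by
    have h34 : ‖s 1‖ ^ 2 ≤ 9 / 25 := by
      have := pow_le_pow_left₀ (norm_nonneg _) (hs 1) 2
      norm_num at this ⊢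
      exact this
    have := mul_le_mul_of_nonneg_left h34 (sub_nonneg.2 hγ1)
    linarith
  -- mon s 4
  have h4 : ‖v ^ 4 * s 1 ^ 3 * s 2 ^ 2 * s 3‖ ≤ r ^ 4 * (3 / 5) ^ 6 := by
    rw [norm_mul, norm_mul, norm_mul, norm_pow, norm_pow, norm_pow]
    have e : r ^ 4 * (3 / 5) ^ 6 = r ^ 4 * (3 / 5) ^ 3 * (3 / 5) ^ 2 * (3 / 5) := by ring
    rw [e]
    refine mul_le_mul ?_ (hs 3) (norm_nonneg _) (by positivity)
    refine mul_le_mul ?_ (pow_le_pow_left₀ (norm_nonneg _) (hs 2) 2) (by positivity) (by positivity)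
    exact mul_le_mul (pow_le_pow_left₀ (norm_nonneg _) hr 4)
      (pow_le_pow_left₀ (norm_nonneg _) (hs 1) 3) (by positivity) (by positivity)
  have h4' := mul_le_mul_of_nonneg_left h4 (by positivity : 0 ≤ 2 * ‖α 4‖)
  -- the square of the norm
  have h5 : ‖s 1‖ ^ 2 = ‖v‖ ^ 2 + 2 * (conj v * D).re + ‖D‖ ^ 2 := by
    rw [hs1, Complex.sq_norm, Complex.sq_norm, Complex.sq_norm, Complex.normSq_apply,
      Complex.normSq_apply, Complex.normSq_apply, Complex.mul_re, Complex.conj_re, Complex.conj_im,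
      Complex.add_re, Complex.add_im]
    ring
  -- the square in `D`
  set E := α 2 * v ^ 2 - Bs v (B 1) - (γ : ℂ) * conj v with hE
  have h6 : (α 2 * v ^ 2 * D).re - (Bs v (B 1) * D).re - γ * (conj v * D).re = (E * D).re := by
    have : γ * (conj v * D).re = ((γ : ℂ) * (conj v * D)).re := by
      rw [Complex.re_ofReal_mul]
    rw [this, ← Complex.sub_re, ← Complex.sub_re, hE]
    congr 1
    ring
  have h7 : -(‖E‖ * ‖D‖) ≤ (E * D).re := by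
    rw [← norm_mul]
    exact (abs_le.1 (Complex.abs_re_le_norm _)).1
  have h8 := square_ge (F := ‖E‖) (d := ‖D‖) (sub_pos.2 hγ2)
  have h9 := square_ge (p := 1 / 10) (F := 64 / 100000) (d := ‖s 2 - s 1‖) (by norm_num)
  rw [h2]
  rw [h5] at h3 h3'
  norm_num at h9
  nlinarith

end MaxTerm.PA
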