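import Pool.Agent.MaxTerm.PartA.ModesAux

/-!
# Part A, mode N (middle size `v`)

Proof. `v = s 0`, `D l = s l - s (l-1)`, `d l = ‖D l‖`, `X = 3/5`, `r ≥ ‖v‖`.
* `α 2`, folding of `B 1`, `n ≥ 5` and `B l`, `l ≥ 3`, as in mode L.
* `mon s 3 = v³ s₁² s₂ = v⁶ + v⁵ (3 D₁ + D₂) + v³ (D₁² s₂ + 2 v D₁ (D₁ + D₂))`, the last term is
  `≤ r³ ((X + 2r) d₁² + 2 r d₁ d₂) ≤ r³ ((X + 3r) d₁² + r d₂²)`.
* `‖mon s 4‖ = ‖v‖⁴‖s₁‖³‖s₂‖²‖s₃‖ ≤ r⁴ X³ ‖s₁‖²‖s₂‖`, and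
  `‖s₁‖²‖s₂‖ ≤ r³ + r² (3 d₁ + d₂) + (X + 3r) d₁² + r d₂²`.
* complete the squares in `D₁` and `D₂` with the remaining coefficients `4/5 - G (X+3r)`,
  `1/10 - G r`, `G = c4 + g5`.  `‖B 2‖ ≤ 64/100000`.
-/

open Filter Topology ComplexConjugate

namespace MaxTerm.PA

/-- the second order part of `s₁² s₂` -/
theorem modeN_quad {v D D' : ℂ} {r : ℝ} (hv : ‖v‖ ≤ r) (h2 : ‖v + D + D'‖ ≤ 3 / 5) :
    ‖D ^ 2 * (v + D + D') + 2 * v * D * (D + D')‖ ≤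
      (3 / 5 + 3 * r) * ‖D‖ ^ 2 + r * ‖D'‖ ^ 2 := by
  have hr0 : 0 ≤ r := (norm_nonneg _).trans hv
  have h1 : ‖D ^ 2 * (v + D + D')‖ ≤ 3 / 5 * ‖D‖ ^ 2 := by
    rw [norm_mul, norm_pow, mul_comm]
    exact mul_le_mul_of_nonneg_right h2 (by positivity)
  have h3 : ‖2 * v * D * (D + D')‖ ≤ 2 * r * ‖D‖ * (‖D‖ + ‖D'‖) := by
    rw [norm_mul, norm_mul, norm_mul, Complex.norm_ofNat]
    refine mul_le_mul ?_ (norm_add_le _ _) (norm_nonneg _) (by positivity)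
    exact mul_le_mul_of_nonneg_right (mul_le_mul_of_nonneg_left hv (by norm_num)) (norm_nonneg _)
  have h4 : 2 * r * ‖D‖ * (‖D‖ + ‖D'‖) ≤ 3 * r * ‖D‖ ^ 2 + r * ‖D'‖ ^ 2 := by
    nlinarith [mul_nonneg hr0 (sq_nonneg (‖D‖ - ‖D'‖))]
  refine (norm_add_le _ _).trans ?_
  linarith

theorem Rs_modeN {B α s : ℕ → ℂ} (hB : BOK B) {A r c4 g5 p1 p2 : ℝ} (hs : ∀ i, ‖s i‖ ≤ 3 / 5)
    (hr : ‖s 0‖ ≤ r) (hr1 : r ≤ 1) (hA : ∀ n, 5 ≤ n → ‖α n‖ ≤ A)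
    (hc4 : 2 * ‖α 3‖ * r ^ 3 ≤ c4) (hg5 : 2 * ‖α 4‖ * r ^ 4 * (3 / 5) ^ 3 ≤ g5)
    (hp1 : p1 = 4 / 5 - (c4 + g5) * (3 / 5 + 3 * r)) (hp2 : p2 = 1 / 10 - (c4 + g5) * r)
    (hp1' : 0 < p1) (hp2' : 0 < p2) :
    2 * (α 2 * s 0 ^ 3 + α 3 * s 0 ^ 6).re
      - (‖α 2 * s 0 ^ 2 + 3 * α 3 * s 0 ^ 5 - Bs (s 0) (B 1)‖ + 3 / 2 * g5 * r ^ 2) ^ 2 / p1
      - (‖α 3‖ * r ^ 5 + 64 / 100000 + g5 * r ^ 2 / 2) ^ 2 / p2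
      - (g5 * r ^ 3 + 11 / 5 * A * r ^ 5 * (3 / 5) ^ 10 + 75 / 1000000)
      ≤ Rs B α s := by
  have hr0 : 0 ≤ r := (norm_nonneg _).trans hr
  refine le_trans ?_ (Rs_ge hB hs hr hr1 hA)
  set v := s 0 with hv
  set D := s 1 - v with hD
  set D' := s 2 - s 1 with hD'
  have hs1 : s 1 = v + D := by rw [hD]; ring
  have hs2 : s 2 = v + D + D' := by rw [hD', hs1]; ring
  have hq := modeN_quad (D := D) (D' := D') hr (by rw [← hs2]; exact hs 2)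
  set Q := D ^ 2 * (v + D + D') + 2 * v * D * (D + D') with hQ
  -- mon s 2
  have h2 : (α 2 * (v ^ 2 * s 1)).re = (α 2 * v ^ 3).re + (α 2 * v ^ 2 * D).re := by
    rw [← Complex.add_re, hs1]
    congr 1
    ring
  -- mon s 3
  have h3 : (α 3 * (v ^ 3 * s 1 ^ 2 * s 2)).re = (α 3 * v ^ 6).re + (3 * α 3 * v ^ 5 * D).re +
      (α 3 * v ^ 5 * D').re + (α 3 * v ^ 3 * Q).re := by
    rw [← Complex.add_re, ← Complex.add_re, ← Complex.add_re, hs1, hs2]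
    congr 1
    rw [hQ]
    ring
  have h31 : -(‖α 3‖ * r ^ 5 * ‖D'‖) ≤ (α 3 * v ^ 5 * D').re := by
    have h := (abs_le.1 (Complex.abs_re_le_norm (α 3 * v ^ 5 * D'))).1
    rw [norm_mul, norm_mul, norm_pow] at h
    have h' : ‖α 3‖ * ‖v‖ ^ 5 * ‖D'‖ ≤ ‖α 3‖ * r ^ 5 * ‖D'‖ :=
      mul_le_mul_of_nonneg_right (mul_le_mul_of_nonneg_left
        (pow_le_pow_left₀ (norm_nonneg _) hr 5) (norm_nonneg _)) (norm_nonneg _)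
    linarith
  have h32 : -(c4 * ((3 / 5 + 3 * r) * ‖D‖ ^ 2 + r * ‖D'‖ ^ 2)) ≤ 2 * (α 3 * v ^ 3 * Q).re := by
    have h := (abs_le.1 (Complex.abs_re_le_norm (α 3 * v ^ 3 * Q))).1
    rw [norm_mul, norm_mul, norm_pow] at h
    have h' : ‖α 3‖ * ‖v‖ ^ 3 * ‖Q‖ ≤
        ‖α 3‖ * r ^ 3 * ((3 / 5 + 3 * r) * ‖D‖ ^ 2 + r * ‖D'‖ ^ 2) :=
      mul_le_mul (mul_le_mul_of_nonneg_left
        (pow_le_pow_left₀ (norm_nonneg _) hr 3) (norm_nonneg _)) hq (norm_nonneg _) (by positivity)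
    have h'' := mul_le_mul_of_nonneg_right hc4
      (by positivity : 0 ≤ (3 / 5 + 3 * r) * ‖D‖ ^ 2 + r * ‖D'‖ ^ 2)
    linarith
  -- mon s 4
  have h41 : ‖s 1 ^ 2 * s 2‖ ≤
      r ^ 3 + r ^ 2 * (3 * ‖D‖ + ‖D'‖) + ((3 / 5 + 3 * r) * ‖D‖ ^ 2 + r * ‖D'‖ ^ 2) := by
    have e : s 1 ^ 2 * s 2 = v ^ 3 + (v ^ 2 * (3 * D) + v ^ 2 * D') + Q := by
      rw [hs1, hs2, hQ]
      ring
    rw [e]
    have n1 : ‖v ^ 3‖ ≤ r ^ 3 := by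
      rw [norm_pow]
      exact pow_le_pow_left₀ (norm_nonneg _) hr 3
    have n2 : ‖v ^ 2 * (3 * D)‖ ≤ r ^ 2 * (3 * ‖D‖) := by
      rw [norm_mul, norm_mul, norm_pow, Complex.norm_ofNat]
      exact mul_le_mul_of_nonneg_right (pow_le_pow_left₀ (norm_nonneg _) hr 2) (by positivity)
    have n3 : ‖v ^ 2 * D'‖ ≤ r ^ 2 * ‖D'‖ := by
      rw [norm_mul, norm_pow]
      exact mul_le_mul_of_nonneg_right (pow_le_pow_left₀ (norm_nonneg _) hr 2) (norm_nonneg _)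
    have t1 := norm_add_le (v ^ 3 + (v ^ 2 * (3 * D) + v ^ 2 * D')) Q
    have t2 := norm_add_le (v ^ 3) (v ^ 2 * (3 * D) + v ^ 2 * D')
    have t3 := norm_add_le (v ^ 2 * (3 * D)) (v ^ 2 * D')
    linarith
  have h4 : ‖v ^ 4 * s 1 ^ 3 * s 2 ^ 2 * s 3‖ ≤ r ^ 4 * (3 / 5) ^ 3 *
      (r ^ 3 + r ^ 2 * (3 * ‖D‖ + ‖D'‖) + ((3 / 5 + 3 * r) * ‖D‖ ^ 2 + r * ‖D'‖ ^ 2)) := by
    have e : v ^ 4 * s 1 ^ 3 * s 2 ^ 2 * s 3 = v ^ 4 * (s 1 * s 2 * s 3) * (s 1 ^ 2 * s 2) := by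
      ring
    rw [e, norm_mul, norm_mul, norm_mul, norm_mul, norm_pow]
    refine mul_le_mul ?_ h41 (norm_nonneg _) (by positivity)
    refine mul_le_mul (pow_le_pow_left₀ (norm_nonneg _) hr 4) ?_ (by positivity) (by positivity)
    have e3 : (3 / 5 : ℝ) ^ 3 = 3 / 5 * (3 / 5) * (3 / 5) := by ring
    rw [e3]
    refine mul_le_mul ?_ (hs 3) (norm_nonneg _) (by norm_num)
    exact mul_le_mul (hs 1) (hs 2) (norm_nonneg _) (by norm_num)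
  have h4' : 2 * ‖α 4‖ * ‖v ^ 4 * s 1 ^ 3 * s 2 ^ 2 * s 3‖ ≤ g5 *
      (r ^ 3 + r ^ 2 * (3 * ‖D‖ + ‖D'‖) + ((3 / 5 + 3 * r) * ‖D‖ ^ 2 + r * ‖D'‖ ^ 2)) := by
    have t1 := mul_le_mul_of_nonneg_left h4 (by positivity : 0 ≤ 2 * ‖α 4‖)
    have t2 := mul_le_mul_of_nonneg_right hg5
      (by positivity : 0 ≤ r ^ 3 + r ^ 2 * (3 * ‖D‖ + ‖D'‖) +
        ((3 / 5 + 3 * r) * ‖D‖ ^ 2 + r * ‖D'‖ ^ 2))
    linarith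
  -- the square in `D`
  set E := α 2 * v ^ 2 + 3 * α 3 * v ^ 5 - Bs v (B 1) with hE
  have h6 : (α 2 * v ^ 2 * D).re + (3 * α 3 * v ^ 5 * D).re - (Bs v (B 1) * D).re =
      (E * D).re := by
    rw [← Complex.add_re, ← Complex.sub_re, hE]
    congr 1
    ring
  have h7 : -(‖E‖ * ‖D‖) ≤ (E * D).re := by
    rw [← norm_mul]
    exact (abs_le.1 (Complex.abs_re_le_norm _)).1
  have h8 := square_ge (F := ‖E‖ + 3 / 2 * g5 * r ^ 2) (d := ‖D‖) hp1'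
  have h9 := square_ge (F := ‖α 3‖ * r ^ 5 + 64 / 100000 + g5 * r ^ 2 / 2) (d := ‖D'‖) hp2'
  have h10 : (α 2 * v ^ 3 + α 3 * v ^ 6).re = (α 2 * v ^ 3).re + (α 3 * v ^ 6).re :=
    Complex.add_re _ _
  rw [h2, h3, h10]
  have e8 : p1 * ‖D‖ ^ 2 = 4 / 5 * ‖D‖ ^ 2 - c4 * (3 / 5 + 3 * r) * ‖D‖ ^ 2
      - g5 * (3 / 5 + 3 * r) * ‖D‖ ^ 2 := by
    rw [hp1]
    ring
  have e9 : p2 * ‖D'‖ ^ 2 = 1 / 10 * ‖D'‖ ^ 2 - c4 * r * ‖D'‖ ^ 2 - g5 * r * ‖D'‖ ^ 2 := by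
    rw [hp2]
    ring
  rw [e8] at h8
  rw [e9] at h9
  linarith

end MaxTerm.PA
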