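import Pool.Agent.MaxTerm.PartA.ChkSound1
import Pool.Agent.MaxTerm.PartA.ModeL
import Pool.Agent.MaxTerm.PartA.ModeN
import Pool.Agent.MaxTerm.PartA.ModeF

/-!
# Part A, soundness of the checker II: one side

`finish` : for `v = v0 + η`, `‖η‖ ≤ rh`, and
`T v = 2 Re P(v) - γ ‖v‖² - (‖g(v) - γ conj v‖ + x5)² / p - cst`, with
`2 Re P(v) ≥ 2 Re P(v0) + 2 Re (P'(v0) η) - rem`, `‖g(v) - g(v0) - g'(v0) η‖ ≤ b2`,
one gets `T v ≥ val + Re (lin η)`. Second order bounds of powers: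
`‖(v0+η)^n - v0^n - n v0^(n-1) η‖ ≤ n(n-1)/2 r^(n-2) ‖η‖²`, `r ≥ ‖v0‖ + ‖η‖`
(`30 = 3*10` for `n = 5`, `216 = 6*36` for `n = 9`, in `rem`: `6 = 2*3`, `30 = 2*15`, `90 = 2*45` for
`n = 3, 6, 10`).
-/

open ComplexConjugate

namespace MaxTerm.PA.Chk

namespace S2

/-! ### Upper bounds by fixed point numbers -/

/-- `x` is non-negative and bounded by the fixed point number `a` -/
def Ub (x : ℝ) (a : Int) : Prop := 0 ≤ x ∧ x ≤ rv a

theorem rv_mul (n a : Int) : rv (Int.mul n a) = (n : ℝ) * rv a := by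
  unfold rv
  have : Int.mul n a = n * a := rfl
  rw [this]
  push_cast
  ring

theorem rv_nonneg {a : Int} (h : 0 ≤ a) : 0 ≤ rv a := by
  unfold rv
  have : (0 : ℝ) ≤ (a : ℝ) := by exact_mod_cast h
  positivity

theorem rv_pos {a : Int} (h : 0 < a) : 0 < rv a := by
  unfold rv
  have : (0 : ℝ) < (a : ℝ) := by exact_mod_cast h
  positivity

theorem rv_mono {a b : Int} (h : a ≤ b) : rv a ≤ rv b := by
  unfold rv
  have : (a : ℝ) ≤ (b : ℝ) := by exact_mod_cast h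
  gcongr

theorem rv_zero : rv 0 = 0 := by simp [rv]

namespace Ub

variable {x y : ℝ} {a b : Int}

theorem rv0 (h : Ub x a) : 0 ≤ rv a := h.1.trans h.2

theorem mono (h : Ub x a) (hy : 0 ≤ y) (hyx : y ≤ x) : Ub y a := ⟨hy, hyx.trans h.2⟩

theorem mul (h : Ub x a) (h' : Ub y b) : Ub (x * y) (mulU a b) :=
  ⟨mul_nonneg h.1 h'.1, (mul_le_mul h.2 h'.2 h'.1 h.rv0).trans rv_mul_le_mulU⟩

theorem add (h : Ub x a) (h' : Ub y b) : Ub (x + y) (Int.add a b) :=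
  ⟨add_nonneg h.1 h'.1, by rw [rv_add]; exact add_le_add h.2 h'.2⟩

theorem nsm (h : Ub x a) {n : Int} (hn : 0 ≤ n) : Ub ((n : ℝ) * x) (Int.mul n a) := by
  have hn' : (0 : ℝ) ≤ (n : ℝ) := by exact_mod_cast hn
  exact ⟨mul_nonneg hn' h.1, by rw [rv_mul]; exact mul_le_mul_of_nonneg_left h.2 hn'⟩

theorem half (h : Ub x a) : Ub (x / 2) (halfU a) :=
  ⟨by have := h.1; positivity, (by have := h.2; linarith : x / 2 ≤ rv a / 2).trans (le_halfU a)⟩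

theorem ediv (h : Ub x a) {d : Int} (hd : 0 < d) :
    Ub (x / (d : ℝ)) (Int.add (Int.ediv a d) 1) := by
  have hd' : (0 : ℝ) < (d : ℝ) := by exact_mod_cast hd
  refine ⟨div_nonneg h.1 hd'.le, ?_⟩
  have h1 : x / (d : ℝ) ≤ rv a / d := div_le_div_of_nonneg_right h.2 hd'.le
  refine h1.trans ?_
  rw [rv_add]
  unfold rv
  have h2 : a < (Int.ediv a d + 1) * d := by
    have := Int.lt_ediv_add_one_mul_self a hd
    exact this
  have h3 : (a : ℝ) < ((Int.ediv a d : Int) + 1 : ℝ) * d := by exact_mod_cast h2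
  have h4 : (a : ℝ) / d ≤ (Int.ediv a d : Int) + 1 := by
    rw [div_le_iff₀ hd']
    exact h3.le
  have h5 : (a : ℝ) / 2 ^ 40 / d = (a : ℝ) / d / 2 ^ 40 := by ring
  rw [h5]
  have h6 : ((Int.ediv a d : Int) : ℝ) / 2 ^ 40 + ((1 : Int) : ℝ) / 2 ^ 40 =
      ((Int.ediv a d : Int) + 1 : ℝ) / 2 ^ 40 := by push_cast; ring
  rw [h6]
  gcongr

theorem div (h : Ub x a) {p : Int} (hp : 0 < p) {p' : ℝ} (hp' : rv p ≤ p') :
    Ub (x / p') (divU a p) := by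
  have h0 := rv_pos hp
  have h1 : 0 < p' := h0.trans_le hp'
  refine ⟨div_nonneg h.1 h1.le, ?_⟩
  refine le_trans ?_ (rv_div_le_divU hp)
  exact div_le_div₀ h.rv0 h.2 h0 hp'

end Ub

theorem Ub_norm {z : ℂ} {a : CB} (h : CB.Mem z a) : Ub ‖z‖ a.up := ⟨norm_nonneg _, h.norm_le⟩

/-! ### Second order bounds of powers -/

theorem pow_first {v η : ℂ} {R : ℝ} (hR : ‖v‖ + ‖η‖ ≤ R) (n : ℕ) :
    ‖(v + η) ^ (n + 1) - v ^ (n + 1)‖ ≤ (n + 1) * R ^ n * ‖η‖ := by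
  have hv : ‖v‖ ≤ R := le_trans (le_add_of_nonneg_right (norm_nonneg _)) hR
  have hvη : ‖v + η‖ ≤ R := (norm_add_le _ _).trans hR
  have hR0 : 0 ≤ R := (norm_nonneg _).trans hv
  induction n with
  | zero => simp
  | succ n ih =>
    have e : (v + η) ^ (n + 1 + 1) - v ^ (n + 1 + 1) =
        (v + η) * ((v + η) ^ (n + 1) - v ^ (n + 1)) + v ^ (n + 1) * η := by ring
    rw [e]
    refine (norm_add_le _ _).trans ?_
    rw [norm_mul, norm_mul, norm_pow]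
    have h1 : ‖v + η‖ * ‖(v + η) ^ (n + 1) - v ^ (n + 1)‖ ≤ R * ((n + 1) * R ^ n * ‖η‖) :=
      mul_le_mul hvη ih (norm_nonneg _) hR0
    have h2 : ‖v‖ ^ (n + 1) * ‖η‖ ≤ R ^ (n + 1) * ‖η‖ :=
      mul_le_mul_of_nonneg_right (pow_le_pow_left₀ (norm_nonneg _) hv _) (norm_nonneg _)
    calc _ ≤ R * ((n + 1) * R ^ n * ‖η‖) + R ^ (n + 1) * ‖η‖ := add_le_add h1 h2
      _ = _ := by push_cast; ring

theorem pow_second {v η : ℂ} {R : ℝ} (hR : ‖v‖ + ‖η‖ ≤ R) (n : ℕ) :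
    2 * ‖(v + η) ^ (n + 2) - v ^ (n + 2) - (n + 2) * v ^ (n + 1) * η‖ ≤
      (n + 2) * (n + 1) * R ^ n * ‖η‖ ^ 2 := by
  have hv : ‖v‖ ≤ R := le_trans (le_add_of_nonneg_right (norm_nonneg _)) hR
  have hvη : ‖v + η‖ ≤ R := (norm_add_le _ _).trans hR
  have hR0 : 0 ≤ R := (norm_nonneg _).trans hv
  induction n with
  | zero =>
    have e : (v + η) ^ (0 + 2) - v ^ (0 + 2) - ((0 : ℕ) + 2) * v ^ (0 + 1) * η = η ^ 2 := by
      push_cast; ring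
    rw [e, norm_pow]
    push_cast
    linarith
  | succ n ih =>
    have e : (v + η) ^ (n + 1 + 2) - v ^ (n + 1 + 2) - ((n + 1 : ℕ) + 2) * v ^ (n + 1 + 1) * η =
        (v + η) * ((v + η) ^ (n + 2) - v ^ (n + 2) - (n + 2) * v ^ (n + 1) * η) +
          (n + 2) * v ^ (n + 1) * η ^ 2 := by push_cast; ring
    rw [e]
    have h1 : ‖v + η‖ * (2 * ‖(v + η) ^ (n + 2) - v ^ (n + 2) - (n + 2) * v ^ (n + 1) * η‖) ≤
        R * ((n + 2) * (n + 1) * R ^ n * ‖η‖ ^ 2) :=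
      mul_le_mul hvη ih (by positivity) hR0
    have h2 : ‖((n : ℂ) + 2) * v ^ (n + 1) * η ^ 2‖ ≤ (n + 2) * R ^ (n + 1) * ‖η‖ ^ 2 := by
      rw [norm_mul, norm_mul, norm_pow, norm_pow]
      have h3 : ‖(n : ℂ) + 2‖ = n + 2 := by
        have : ((n : ℂ) + 2) = ((n + 2 : ℕ) : ℂ) := by push_cast; ring
        rw [this, Complex.norm_natCast]
        push_cast; ring
      rw [h3]
      gcongr
    calc _ ≤ 2 * (‖v + η‖ * ‖(v + η) ^ (n + 2) - v ^ (n + 2) - (n + 2) * v ^ (n + 1) * η‖ +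
          ‖((n : ℂ) + 2) * v ^ (n + 1) * η ^ 2‖) := by
            refine mul_le_mul_of_nonneg_left ((norm_add_le _ _).trans ?_) (by norm_num)
            rw [norm_mul]
      _ ≤ R * ((n + 2) * (n + 1) * R ^ n * ‖η‖ ^ 2) + 2 * ((n + 2) * R ^ (n + 1) * ‖η‖ ^ 2) := by
            linarith
      _ = _ := by push_cast; ring

/-! ### Symmetry under conjugation -/

theorem shp_conj (z : ℂ) : shp (conj z) = shp z := by
  simp [shp]

theorem mon_conj (s : ℕ → ℂ) (n : ℕ) : mon (fun i => conj (s i)) n = conj (mon s n) := by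
  unfold mon
  rw [map_prod]
  exact Finset.prod_congr rfl fun i _ => by rw [map_pow]

theorem Rs_conj (B α s : ℕ → ℂ) :
    Rs B (fun n => conj (α n)) (fun i => conj (s i)) = Rs B α s := by
  unfold Rs
  have h1 : ∀ l, ‖conj (s (l + 1)) - conj (s l)‖ = ‖s (l + 1) - s l‖ := by
    intro l
    rw [← map_sub, Complex.norm_conj]
  have h2 : (∑' n : ℕ, conj (α (n + 2)) * mon (fun i => conj (s i)) (n + 2)) =
      conj (∑' n : ℕ, α (n + 2) * mon s (n + 2)) := by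
    rw [Complex.conj_tsum]
    exact tsum_congr fun n => by rw [mon_conj, map_mul]
  simp only [h1, h2, shp_conj, Complex.conj_re]

/-- `b = B l` in the upper half plane, `conj (B l)` in the lower one -/
def Sy (v b b' : ℂ) (B B' : ℂ) : Prop :=
  (0 ≤ v.im ∧ b = B ∧ b' = B') ∨ (v.im ≤ 0 ∧ b = conj B ∧ b' = conj B')

theorem conj3 : conj (3 : ℂ) = 3 := map_ofNat _ 3

theorem conj6 : conj (6 : ℂ) = 6 := map_ofNat _ 6

theorem Bs_up {v b : ℂ} (h : 0 ≤ v.im) : Bs v b = b := by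
  unfold Bs; rw [if_pos h]

theorem modeL_sym {B α s : ℕ → ℂ} (hB : BOK B) {A r g4 γ : ℝ} (hs : ∀ i, ‖s i‖ ≤ 3 / 5)
    (hr : ‖s 0‖ ≤ r) (hr1 : r ≤ 1) (hA : ∀ n, 5 ≤ n → ‖α n‖ ≤ A)
    (hg4 : 2 * ‖α 3‖ * r ^ 3 * (3 / 5) ≤ g4) (hγ0 : 0 ≤ γ) (hγ1 : γ ≤ g4) (hγ2 : γ < 4 / 5)
    {b1 b2 : ℂ} (hb : Sy (s 0) b1 b2 (B 1) (B 2)) :
    2 * (α 2 * s 0 ^ 3).re - γ * ‖s 0‖ ^ 2
      - ‖α 2 * s 0 ^ 2 - b1 - (γ : ℂ) * conj (s 0)‖ ^ 2 / (4 / 5 - γ)
      - ((g4 - γ) * (9 / 25) + 2 * ‖α 4‖ * r ^ 4 * (3 / 5) ^ 6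
        + 11 / 5 * A * r ^ 5 * (3 / 5) ^ 10 + 8 / 100000)
      ≤ Rs B α s := by
  rcases hb with ⟨h0, rfl, rfl⟩ | ⟨h0, rfl, rfl⟩
  · have := Rs_modeL hB hs hr hr1 hA hg4 hγ0 hγ1 hγ2
    rwa [Bs_up h0] at this
  · have h0' : 0 ≤ (conj (s 0)).im := by rw [Complex.conj_im]; linarith
    have := Rs_modeL (α := fun n => conj (α n)) (s := fun i => conj (s i)) hB (A := A) (r := r)
      (g4 := g4) (γ := γ) (fun i => by rw [Complex.norm_conj]; exact hs i)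
      (by rw [Complex.norm_conj]; exact hr) hr1
      (fun n hn => by rw [Complex.norm_conj]; exact hA n hn)
      (by rw [Complex.norm_conj]; exact hg4) hγ0 hγ1 hγ2
    rw [Rs_conj, Bs_up h0', Complex.norm_conj, Complex.norm_conj] at this
    have e1 : (conj (α 2) * conj (s 0) ^ 3).re = (α 2 * s 0 ^ 3).re := by
      rw [← map_pow, ← map_mul, Complex.conj_re]
    have e2 : ‖conj (α 2) * conj (s 0) ^ 2 - B 1 - (γ : ℂ) * conj (conj (s 0))‖ =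
        ‖α 2 * s 0 ^ 2 - conj (B 1) - (γ : ℂ) * conj (s 0)‖ := by
      rw [← Complex.norm_conj]
      congr 1
      simp
    rw [e1, e2] at this
    exact this

theorem modeN_sym {B α s : ℕ → ℂ} (hB : BOK B) {A r c4 g5 p1 p2 : ℝ} (hs : ∀ i, ‖s i‖ ≤ 3 / 5)
    (hr : ‖s 0‖ ≤ r) (hr1 : r ≤ 1) (hA : ∀ n, 5 ≤ n → ‖α n‖ ≤ A)
    (hc4 : 2 * ‖α 3‖ * r ^ 3 ≤ c4) (hg5 : 2 * ‖α 4‖ * r ^ 4 * (3 / 5) ^ 3 ≤ g5)
    (hp1 : p1 = 4 / 5 - (c4 + g5) * (3 / 5 + 3 * r)) (hp2 : p2 = 1 / 10 - (c4 + g5) * r)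
    (hp1' : 0 < p1) (hp2' : 0 < p2) {b1 b2 : ℂ} (hb : Sy (s 0) b1 b2 (B 1) (B 2)) :
    2 * (α 2 * s 0 ^ 3 + α 3 * s 0 ^ 6).re
      - (‖α 2 * s 0 ^ 2 + 3 * α 3 * s 0 ^ 5 - b1‖ + 3 / 2 * g5 * r ^ 2) ^ 2 / p1
      - (‖α 3‖ * r ^ 5 + 64 / 100000 + g5 * r ^ 2 / 2) ^ 2 / p2
      - (g5 * r ^ 3 + 11 / 5 * A * r ^ 5 * (3 / 5) ^ 10 + 75 / 1000000)
      ≤ Rs B α s := by
  rcases hb with ⟨h0, rfl, rfl⟩ | ⟨h0, rfl, rfl⟩
  · have := Rs_modeN hB hs hr hr1 hA hc4 hg5 hp1 hp2 hp1' hp2'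
    rwa [Bs_up h0] at this
  · have h0' : 0 ≤ (conj (s 0)).im := by rw [Complex.conj_im]; linarith
    have := Rs_modeN (α := fun n => conj (α n)) (s := fun i => conj (s i)) hB (A := A) (r := r)
      (c4 := c4) (g5 := g5) (fun i => by rw [Complex.norm_conj]; exact hs i)
      (by rw [Complex.norm_conj]; exact hr) hr1
      (fun n hn => by rw [Complex.norm_conj]; exact hA n hn)
      (by rw [Complex.norm_conj]; exact hc4) (by rw [Complex.norm_conj]; exact hg5) hp1 hp2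
      hp1' hp2'
    rw [Rs_conj, Bs_up h0', Complex.norm_conj] at this
    have e1 : (conj (α 2) * conj (s 0) ^ 3 + conj (α 3) * conj (s 0) ^ 6).re =
        (α 2 * s 0 ^ 3 + α 3 * s 0 ^ 6).re := by
      rw [← map_pow, ← map_pow, ← map_mul, ← map_mul, ← map_add, Complex.conj_re]
    have e2 : ‖conj (α 2) * conj (s 0) ^ 2 + 3 * conj (α 3) * conj (s 0) ^ 5 - B 1‖ =
        ‖α 2 * s 0 ^ 2 + 3 * α 3 * s 0 ^ 5 - conj (B 1)‖ := by
      rw [← Complex.norm_conj]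
      congr 1
      simp [conj3]
    rw [e1, e2] at this
    exact this

theorem modeF_sym {B α s : ℕ → ℂ} (hB : BOK B) {A r c4 c5 c6 c7 : ℝ} (hs : ∀ i, ‖s i‖ ≤ 3 / 5)
    (hr : ‖s 0‖ ≤ r) (hr1 : r ≤ 9 / 25) (him : 1 / 8 ≤ |(s 0).im|) (hA4 : A ≤ 4)
    (hA : ∀ n, 5 ≤ n → ‖α n‖ ≤ A)
    (hc4 : 2 * ‖α 3‖ * r ^ 3 ≤ c4) (hc5 : 2 * ‖α 4‖ * r ^ 4 ≤ c5)
    (hc6 : 2 * A * r ^ 5 * (3 / 5) ^ 8 ≤ c6) (hc6' : c6 ≤ 1 / 3000)
    (hc7 : 1600 * A * r ^ 6 * (3 / 5) ^ 13 ≤ c7) (hc7' : c7 ≤ 1 / 80)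
    (hp1 : 0 < p1E r c4 c5 c6 c7) (hp2 : 0 < p2E r c4 c5 c6 c7) (hp3 : 0 < p3E r c5 c6 c7)
    {b1 b2 : ℂ} (hb : Sy (s 0) b1 b2 (B 1) (B 2)) :
    2 * (α 2 * s 0 ^ 3 + α 3 * s 0 ^ 6 + α 4 * s 0 ^ 10).re
      - (‖α 2 * s 0 ^ 2 + 3 * α 3 * s 0 ^ 5 + 6 * α 4 * s 0 ^ 9 - b1‖
          + 11 * A * r ^ 14) ^ 2 / p1E r c4 c5 c6 c7
      - (‖α 3 * s 0 ^ 5 + 3 * α 4 * s 0 ^ 9 - b2‖ + 7 * A * r ^ 14) ^ 2
          / p2E r c4 c5 c6 c7
      - (‖α 4‖ * r ^ 9 + 4 * A * r ^ 14 + 3 / 100000) ^ 2 / p3E r c5 c6 c7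
      - 11 / 5 * A * r ^ 15 - 1 / 10 ^ 8
      ≤ Rs B α s := by
  rcases hb with ⟨h0, rfl, rfl⟩ | ⟨h0, rfl, rfl⟩
  · have := Rs_modeF hB hs hr hr1 him hA4 hA hc4 hc5 hc6 hc6' hc7 hc7' hp1 hp2 hp3
    rwa [Bs_up h0, Bs_up h0] at this
  · have h0' : 0 ≤ (conj (s 0)).im := by rw [Complex.conj_im]; linarith
    have := Rs_modeF (α := fun n => conj (α n)) (s := fun i => conj (s i)) hB (A := A) (r := r)
      (c4 := c4) (c5 := c5) (c6 := c6) (c7 := c7) (fun i => by rw [Complex.norm_conj]; exact hs i)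
      (by rw [Complex.norm_conj]; exact hr) hr1
      (by rw [Complex.conj_im, abs_neg]; exact him) hA4
      (fun n hn => by rw [Complex.norm_conj]; exact hA n hn)
      (by rw [Complex.norm_conj]; exact hc4) (by rw [Complex.norm_conj]; exact hc5) hc6 hc6'
      hc7 hc7' hp1 hp2 hp3
    rw [Rs_conj, Bs_up h0', Bs_up h0', Complex.norm_conj (α 4)] at this
    have e1 : (conj (α 2) * conj (s 0) ^ 3 + conj (α 3) * conj (s 0) ^ 6 +
        conj (α 4) * conj (s 0) ^ 10).re =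
        (α 2 * s 0 ^ 3 + α 3 * s 0 ^ 6 + α 4 * s 0 ^ 10).re := by
      rw [← map_pow, ← map_pow, ← map_pow, ← map_mul, ← map_mul, ← map_mul, ← map_add, ← map_add,
        Complex.conj_re]
    have e2 : ‖conj (α 2) * conj (s 0) ^ 2 + 3 * conj (α 3) * conj (s 0) ^ 5 +
        6 * conj (α 4) * conj (s 0) ^ 9 - B 1‖ =
        ‖α 2 * s 0 ^ 2 + 3 * α 3 * s 0 ^ 5 + 6 * α 4 * s 0 ^ 9 - conj (B 1)‖ := by
      rw [← Complex.norm_conj]
      congr 1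
      simp [conj3, conj6]
    have e3 : ‖conj (α 3) * conj (s 0) ^ 5 + 3 * conj (α 4) * conj (s 0) ^ 9 - B 2‖ =
        ‖α 3 * s 0 ^ 5 + 3 * α 4 * s 0 ^ 9 - conj (B 2)‖ := by
      rw [← Complex.norm_conj]
      congr 1
      simp [conj3]
    rw [e1, e2, e3] at this
    exact this

/-! ### The common last step -/

theorem Ub.congr {x y : ℝ} {a : Int} (h : Ub x a) (e : x = y) : Ub y a := e ▸ h

theorem finish_sound {V P P1 g0 g1 : CB} {γ p x5 b2 rem cst rh : Int}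
    {v0 η Pv Pv0 P1' gv g0' g1' : ℂ} {X5 CST p' : ℝ}
    (hv0 : v0 = ⟨rv V.re, rv V.im⟩) (hVm : CB.Mem v0 V) (hγ : 0 ≤ γ) (hp : 0 < p)
    (hp' : rv p ≤ p') (hη : Ub ‖η‖ rh)
    (hP : CB.Mem Pv0 P) (hP1 : CB.Mem P1' P1)
    (hg0 : CB.Mem (g0' - (rv γ : ℂ) * conj v0) g0) (hg1 : CB.Mem g1' g1)
    (hb2 : Ub ‖gv - g0' - g1' * η‖ b2) (hrem : 2 * ‖Pv - Pv0 - P1' * η‖ ≤ rv rem)
    (hX5 : Ub X5 x5) (hC : CST ≤ rv cst) :
    ∃ c : ℂ, CB.Mem c (finish V P P1 g0 g1 γ p x5 b2 rem cst rh).lin ∧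
      rv (finish V P P1 g0 g1 γ p x5 b2 rem cst rh).val + (c * η).re ≤
        2 * Pv.re - rv γ * ‖v0 + η‖ ^ 2
          - (‖gv - (rv γ : ℂ) * conj (v0 + η)‖ + X5) ^ 2 / p' - CST := by
  have hγU : Ub (rv γ) γ := ⟨rv_nonneg hγ, le_rfl⟩
  have hp0 : 0 < rv p := rv_pos hp
  set G := g0' - (rv γ : ℂ) * conj v0 with hG
  set E := gv - g0' - g1' * η with hE
  set L := g1' * η - (rv γ : ℂ) * conj η with hL
  have hN : gv - (rv γ : ℂ) * conj (v0 + η) = G + (L + E) := by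
    rw [hG, hL, hE, map_add]; ring
  have hng := Ub_norm hg0
  have hb := (((Ub_norm hg1).add hγU).mul hη).add hb2
  have hLn : ‖L‖ ≤ (‖g1'‖ + rv γ) * ‖η‖ := by
    rw [hL]
    refine (norm_sub_le _ _).trans ?_
    rw [norm_mul, norm_mul, Complex.norm_conj, Complex.norm_real, Real.norm_eq_abs,
      abs_of_nonneg hγU.1]
    linarith
  have hLE : ‖L + E‖ ≤ (‖g1'‖ + rv γ) * ‖η‖ + ‖E‖ := (norm_add_le _ _).trans (by linarith)
  set b := (‖g1'‖ + rv γ) * ‖η‖ + ‖E‖ with hbdef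
  have hsqU := ((hng.mul hng).add (hb.mul hb)).add
    (((hng.nsm (n := 2) (by norm_num)).mul hb2).add
      (((hX5.nsm (n := 2) (by norm_num)).mul (hng.add hb)).add (hX5.mul hX5)))
  set sq := Int.add (Int.add (mulU (CB.up g0) (CB.up g0)) (mulU (Int.add (mulU (Int.add (CB.up g1) γ) rh) b2) (Int.add (mulU (Int.add (CB.up g1) γ) rh) b2)))
    (Int.add (mulU (Int.mul 2 (CB.up g0)) b2)
      (Int.add (mulU (Int.mul 2 x5) (Int.add (CB.up g0) (Int.add (mulU (Int.add (CB.up g1) γ) rh) b2))) (mulU x5 x5)))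
    with hsq
  -- the square
  have hGL : (conj G * L).re = ((conj G * g1' - (rv γ : ℂ) * G) * η).re := by
    rw [hL]
    simp only [Complex.mul_re, Complex.mul_im, Complex.sub_re, Complex.sub_im, Complex.conj_re,
      Complex.conj_im, Complex.ofReal_re, Complex.ofReal_im]
    ring
  have hGE : (conj G * E).re ≤ ‖G‖ * ‖E‖ := by
    have := (abs_le.1 (Complex.abs_re_le_norm (conj G * E))).2
    rwa [norm_mul, Complex.norm_conj] at this
  have hexp : ‖G + (L + E)‖ ^ 2 = ‖G‖ ^ 2 + 2 * (conj G * L).re + 2 * (conj G * E).re +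
      ‖L + E‖ ^ 2 := by
    rw [Complex.sq_norm, Complex.sq_norm, Complex.sq_norm]
    simp only [Complex.normSq_apply, Complex.mul_re, Complex.add_re, Complex.add_im,
      Complex.conj_re, Complex.conj_im]
    ring
  have hLE2 : ‖L + E‖ ^ 2 ≤ b ^ 2 := pow_le_pow_left₀ (norm_nonneg _) hLE 2
  have hNle : ‖G + (L + E)‖ ≤ ‖G‖ + b := (norm_add_le _ _).trans (by linarith)
  have hsq1 : (‖G + (L + E)‖ + X5) ^ 2 ≤ rv sq + 2 * (conj G * L).re := by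
    have h1 : (‖G + (L + E)‖ + X5) ^ 2 = ‖G + (L + E)‖ ^ 2 + 2 * X5 * ‖G + (L + E)‖ + X5 * X5 := by
      ring
    have h2 : 2 * X5 * ‖G + (L + E)‖ ≤ 2 * X5 * (‖G‖ + b) :=
      mul_le_mul_of_nonneg_left hNle (by have := hX5.1; linarith)
    have h3 := hsqU.2
    push_cast at h3
    rw [h1, hexp]
    linarith
  have hfrac : (‖G + (L + E)‖ + X5) ^ 2 / p' ≤
      rv (divU sq p) + 2 * (((conj G * g1' - (rv γ : ℂ) * G) * η).re / rv p) := by
    have h1 : (‖G + (L + E)‖ + X5) ^ 2 / p' ≤ (‖G + (L + E)‖ + X5) ^ 2 / rv p :=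
      div_le_div_of_nonneg_left (by positivity) hp0 hp'
    have h2 : (‖G + (L + E)‖ + X5) ^ 2 / rv p ≤ (rv sq + 2 * (conj G * L).re) / rv p :=
      div_le_div_of_nonneg_right hsq1 hp0.le
    have h3 : (rv sq + 2 * (conj G * L).re) / rv p = rv sq / rv p +
        2 * (((conj G * g1' - (rv γ : ℂ) * G) * η).re / rv p) := by
      rw [hGL]; ring
    have h4 := rv_div_le_divU (a := sq) hp
    linarith
  -- `vv`
  have hvv : Ub (‖v0‖ ^ 2) (Int.add (shr (Int.add (Int.mul V.re V.re) (Int.mul V.im V.im))) 1) := by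
    refine ⟨by positivity, ?_⟩
    have h1 := (shr_le (Int.add (Int.mul V.re V.re) (Int.mul V.im V.im))).2.le
    have h2 : ((Int.add (Int.mul V.re V.re) (Int.mul V.im V.im) : Int) : ℝ) =
        (V.re : ℝ) * V.re + (V.im : ℝ) * V.im := by
      have : Int.add (Int.mul V.re V.re) (Int.mul V.im V.im) = V.re * V.re + V.im * V.im := rfl
      rw [this]; push_cast; ring
    rw [h2] at h1
    rw [hv0, Complex.sq_norm, Complex.normSq_apply, rv_add]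
    simp only [rv]
    have h3 : ((V.re : ℝ) / 2 ^ 40 * ((V.re : ℝ) / 2 ^ 40) + (V.im : ℝ) / 2 ^ 40 * ((V.im : ℝ) / 2 ^ 40)) =
        (((V.re : ℝ) * V.re + (V.im : ℝ) * V.im) / 2 ^ 40) / 2 ^ 40 := by ring
    rw [h3, ← add_div]
    push_cast
    exact div_le_div_of_nonneg_right h1 (by positivity)
  have hγv := (hγU.mul hvv).2
  have hγη := (hγU.mul (hη.mul hη)).2
  have hvη : ‖v0 + η‖ ^ 2 = ‖v0‖ ^ 2 + 2 * (conj v0 * η).re + ‖η‖ * ‖η‖ := by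
    rw [← pow_two ‖η‖, Complex.sq_norm, Complex.sq_norm, Complex.sq_norm]
    simp only [Complex.normSq_apply, Complex.mul_re, Complex.add_re, Complex.add_im,
      Complex.conj_re, Complex.conj_im]
    ring
  have hPre : 2 * Pv.re ≥ 2 * Pv0.re + 2 * (P1' * η).re - rv rem := by
    have h1 := (abs_le.1 (Complex.abs_re_le_norm (Pv - Pv0 - P1' * η))).1
    rw [Complex.sub_re, Complex.sub_re] at h1
    linarith
  have hPg := hP.re_ge
  -- the linear term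
  refine ⟨2 * P1' - (rv (Int.mul 2 γ) : ℂ) * conj v0 -
    (2 * (conj G * g1' - (rv γ : ℂ) * G)) / (rv p : ℂ), ?_, ?_⟩
  · have m1 := hP1.nsm (n := 2) (by norm_num)
    have m2 := hVm.conjB.smul (x := Int.mul 2 γ) (by
      have : Int.mul 2 γ = 2 * γ := rfl
      rw [this]; omega)
    have m3 := (((hg0.conjB.mul hg1).sub (hg0.smul hγ)).nsm (n := 2) (by norm_num)).sdiv hp
    have m4 := (m1.sub m2).sub m3
    push_cast at m4
    exact m4
  · have hcη : ((2 * P1' - (rv (Int.mul 2 γ) : ℂ) * conj v0 -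
        (2 * (conj G * g1' - (rv γ : ℂ) * G)) / (rv p : ℂ)) * η).re =
        2 * (P1' * η).re - 2 * rv γ * (conj v0 * η).re -
          2 * (((conj G * g1' - (rv γ : ℂ) * G) * η).re / rv p) := by
      have e : (2 * P1' - (rv (Int.mul 2 γ) : ℂ) * conj v0 -
          (2 * (conj G * g1' - (rv γ : ℂ) * G)) / (rv p : ℂ)) * η =
          ((2 : ℝ) : ℂ) * (P1' * η) - ((2 * rv γ : ℝ) : ℂ) * (conj v0 * η) -
            ((2 / rv p : ℝ) : ℂ) * ((conj G * g1' - (rv γ : ℂ) * G) * η) := by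
        rw [rv_mul]
        push_cast
        ring
      rw [e, Complex.sub_re, Complex.sub_re, Complex.re_ofReal_mul, Complex.re_ofReal_mul,
        Complex.re_ofReal_mul]
      ring
    have hval : rv (finish V P P1 g0 g1 γ p x5 b2 rem cst rh).val =
        2 * rv (Int.add P.re (Int.neg P.rad)) -
        ((rv (mulU γ (Int.add (shr (Int.add (Int.mul V.re V.re) (Int.mul V.im V.im))) 1)) +
          rv (divU sq p)) + ((rv rem + rv (mulU γ (mulU rh rh))) + rv cst)) := by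
      simp only [finish, rv_add, rv_neg, rv_mul, hsq]
      push_cast
      ring
    rw [hcη, hval, hN, hvη]
    have h9 : rv γ * (‖v0‖ ^ 2 + 2 * (conj v0 * η).re + ‖η‖ * ‖η‖) =
        rv γ * ‖v0‖ ^ 2 + 2 * rv γ * (conj v0 * η).re + rv γ * (‖η‖ * ‖η‖) := by ring
    rw [h9]
    linarith

/-! ### The sides -/

theorem cond_some {b : Bool} {x : Option Side} {S : Side} (h : cond b x none = some S) :
    b = true ∧ x = some S := by
  cases b with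
  | false => simp at h
  | true => exact ⟨rfl, h⟩

theorem rv_le_real {a : Int} {x : ℝ} (h : (a : ℝ) ≤ x * 2 ^ 40) : rv a ≤ x := by
  unfold rv
  rw [div_le_iff₀ (by positivity)]
  exact h

theorem real_le_rv {a : Int} {x : ℝ} (h : x * 2 ^ 40 ≤ (a : ℝ)) : x ≤ rv a := by
  unfold rv
  rw [le_div_iff₀ (by positivity)]
  exact h

theorem Ub_const {a : Int} {x : ℝ} (h0 : 0 ≤ x) (h : x * 2 ^ 40 ≤ (a : ℝ)) : Ub x a :=
  ⟨h0, real_le_rv h⟩

theorem mem_mid (x y : Int) : CB.Mem (⟨rv x, rv y⟩ : ℂ) ⟨x, y, 0⟩ := by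
  unfold CB.Mem CB.mid
  simp [rv_zero]

/-- the common data of the three modes -/
structure Dat (B α s : ℕ → ℂ) (a1 a2 a3 a4 : CB) (A x y rh : Int) (b1 b2 : ℂ) (v0 η : ℂ) : Prop where
  hB : BOK B
  hs : ∀ i, ‖s i‖ ≤ 3 / 5
  h1 : CB.Mem (α 1) a1
  h2 : CB.Mem (α 2) a2
  h3 : CB.Mem (α 3) a3
  h4 : CB.Mem (α 4) a4
  hA : ∀ n, 5 ≤ n → ‖α n‖ ≤ rv A
  hv0 : v0 = ⟨rv x, rv y⟩
  hv : s 0 = v0 + η
  hη : Ub ‖η‖ rh
  hb : Sy (s 0) b1 b2 (B 1) (B 2)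

namespace Dat

variable {B α s : ℕ → ℂ} {a1 a2 a3 a4 : CB} {A x y rh : Int} {b1 b2 v0 η : ℂ}

theorem m0 (d : Dat B α s a1 a2 a3 a4 A x y rh b1 b2 v0 η) : CB.Mem v0 ⟨x, y, 0⟩ := by
  rw [d.hv0]; exact mem_mid x y

theorem hR (d : Dat B α s a1 a2 a3 a4 A x y rh b1 b2 v0 η) :
    Ub (‖v0‖ + ‖η‖) (Int.add (CB.up ⟨x, y, 0⟩) rh) := (Ub_norm d.m0).add d.hη

theorem vR (d : Dat B α s a1 a2 a3 a4 A x y rh b1 b2 v0 η) : ‖s 0‖ ≤ ‖v0‖ + ‖η‖ := by
  rw [d.hv]; exact norm_add_le _ _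

theorem hAU (d : Dat B α s a1 a2 a3 a4 A x y rh b1 b2 v0 η) : Ub (rv A) A :=
  ⟨(norm_nonneg _).trans (d.hA 5 le_rfl), le_rfl⟩

end Dat

theorem sideL_sound {B α s : ℕ → ℂ} {a1 a2 a3 a4 : CB} {A x y rh : Int} {b1 b2 v0 η : ℂ}
    (d : Dat B α s a1 a2 a3 a4 A x y rh b1 b2 v0 η) {full : Bool} {B1 : CB} {S : Side}
    (h : sideL full a1 a2 a3 a4 A B1 ⟨x, y, 0⟩ rh = some S) (hb1 : CB.Mem b1 B1) :
    ∃ c : ℂ, CB.Mem c S.lin ∧ rv S.val + (c * η).re ≤ 2 * (α 1 * s 0).re + Rs B α s := by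
  unfold sideL at h
  extract_lets r r2 r3 r4 n2 g4 γ p V2 V3 rh2 A22 cst at h
  obtain ⟨hp, h⟩ := cond_some h
  have hp : 0 < p := (isPos_iff p).1 hp
  have hS := Option.some.inj h
  clear h
  set R := ‖v0‖ + ‖η‖ with hRdef
  set t := ‖s 0‖ with ht
  have ht0 : 0 ≤ t := norm_nonneg _
  have htR : t ≤ R := d.vR
  have hR : Ub R r := d.hR
  have uT : Ub t r := hR.mono ht0 htR
  have uT3 : Ub (t * t * t) r3 := (uT.mul uT).mul uT
  have uT4 : Ub (t * t * (t * t)) r4 := (uT.mul uT).mul (uT.mul uT)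
  have un2 : Ub ‖α 2‖ n2 := Ub_norm d.h2
  have uη2 : Ub (‖η‖ * ‖η‖) rh2 := d.hη.mul d.hη
  have ucX : Ub (3 / 5) cX := Ub_const (by norm_num) (by norm_num [cX])
  have ucX2 : Ub (9 / 25) cX2 := Ub_const (by norm_num) (by norm_num [cX2])
  have ucX6 : Ub ((3 / 5) ^ 6) cX6 := Ub_const (by norm_num) (by norm_num [cX6])
  have ucX10 : Ub ((3 / 5) ^ 10) cX10 := Ub_const (by norm_num) (by norm_num [cX10])
  have uc : Ub (8 / 100000) 87960931 := Ub_const (by norm_num) (by norm_num)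
  have ug4 : Ub (2 * ‖α 3‖ * t ^ 3 * (3 / 5)) g4 :=
    (((((Ub_norm d.h3).nsm (n := 2) (by norm_num)).mul uT3).mul ucX).congr (by push_cast; ring))
  have uA22 : Ub (11 * rv A / 5) A22 :=
    ((d.hAU.nsm (n := 11) (by norm_num)).ediv (d := 5) (by norm_num)).congr (by push_cast; ring)
  have hγ0 : 0 ≤ γ ∧ rv γ ≤ rv g4 := by
    cases full with
    | false =>
      have : γ = 0 := rfl
      rw [this]
      exact ⟨le_rfl, by rw [rv_zero]; exact ug4.rv0⟩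
    | true =>
      have : γ = g4 := rfl
      rw [this]
      refine ⟨?_, le_rfl⟩
      have := ug4.rv0
      unfold rv at this
      by_contra hneg
      push Not at hneg
      have h1 : (g4 : ℝ) < 0 := by exact_mod_cast hneg
      have h2 : (g4 : ℝ) / 2 ^ 40 < 0 := div_neg_of_neg_of_pos h1 (by positivity)
      linarith
  have hc45 : rv c45 ≤ 4 / 5 := rv_le_real (by norm_num [c45])
  have hpv : rv p = rv c45 - rv γ := by
    have : p = Int.add c45 (Int.neg γ) := rfl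
    rw [this, rv_add, rv_neg]; ring
  have hp0 := rv_pos hp
  have hγ2 : rv γ < 4 / 5 := by linarith
  have uA0 : 0 ≤ rv A := d.hAU.1
  -- the constant
  have ucst : Ub ((rv g4 - rv γ) * (9 / 25) + 2 * ‖α 4‖ * t ^ 4 * (3 / 5) ^ 6
        + 11 / 5 * rv A * t ^ 5 * (3 / 5) ^ 10 + 8 / 100000) cst := by
    have e1 : Ub (rv g4 - rv γ) (Int.add g4 (Int.neg γ)) := by
      refine ⟨by linarith [hγ0.2], ?_⟩
      rw [rv_add, rv_neg]; linarith
    have e2 := ((((Ub_norm d.h4).nsm (n := 2) (by norm_num)).mul uT4).mul ucX6)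
    have e3 := (uA22.mul (uT4.mul uT)).mul ucX10
    exact (((e1.mul ucX2).add e2).add (e3.add uc)).congr (by push_cast; ring)
  -- the mode inequality
  have hmode := modeL_sym d.hB (A := rv A) (r := t) (g4 := rv g4) (γ := rv γ) d.hs le_rfl
    ((d.hs 0).trans (by norm_num)) d.hA ug4.2 (rv_nonneg hγ0.1) hγ0.2 hγ2 d.hb
  rw [← ht] at hmode
  -- balls
  have mV := d.m0
  have mV2 : CB.Mem (v0 * v0) V2 := mV.mul mV
  have mV3 : CB.Mem (v0 * v0 * v0) V3 := mV2.mul mV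
  have hsq := pow_second (v := v0) (η := η) (R := R) le_rfl 0
  have hcu := pow_second (v := v0) (η := η) (R := R) le_rfl 1
  have hfin := finish_sound (V := ⟨x, y, 0⟩)
    (P := CB.add (CB.mul a1 ⟨x, y, 0⟩) (CB.mul a2 V3))
    (P1 := CB.add a1 (CB.nsm 3 (CB.mul a2 V2)))
    (g0 := CB.sub (CB.sub (CB.mul a2 V2) B1) (CB.smul γ (CB.conj ⟨x, y, 0⟩)))
    (g1 := CB.nsm 2 (CB.mul a2 ⟨x, y, 0⟩)) (γ := γ) (p := p) (x5 := 0)
    (b2 := mulU n2 rh2) (rem := mulU (mulU (Int.mul 6 n2) r) rh2) (cst := cst) (rh := rh)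
    (v0 := v0) (η := η) (Pv := α 1 * s 0 + α 2 * s 0 ^ 3)
    (Pv0 := α 1 * v0 + α 2 * (v0 * v0 * v0)) (P1' := α 1 + (3 : Int) * (α 2 * (v0 * v0)))
    (gv := α 2 * s 0 ^ 2 - b1) (g0' := α 2 * (v0 * v0) - b1)
    (g1' := (2 : Int) * (α 2 * v0)) (X5 := 0)
    (CST := (rv g4 - rv γ) * (9 / 25) + 2 * ‖α 4‖ * t ^ 4 * (3 / 5) ^ 6
        + 11 / 5 * rv A * t ^ 5 * (3 / 5) ^ 10 + 8 / 100000) (p' := 4 / 5 - rv γ)
    d.hv0 mV hγ0.1 hp (by linarith) d.hη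
    ((d.h1.mul mV).add (d.h2.mul mV3)) (d.h1.add ((d.h2.mul mV2).nsm (by norm_num)))
    (((d.h2.mul mV2).sub hb1).sub (mV.conjB.smul hγ0.1))
    ((d.h2.mul mV).nsm (by norm_num))
    (by
      refine (un2.mul uη2).mono (norm_nonneg _) ?_
      have e : α 2 * s 0 ^ 2 - b1 - (α 2 * (v0 * v0) - b1) - (2 : Int) * (α 2 * v0) * η =
          α 2 * ((v0 + η) ^ (0 + 2) - v0 ^ (0 + 2) - ((0 : ℕ) + 2) * v0 ^ (0 + 1) * η) := by
        rw [d.hv]; push_cast; ring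
      rw [e, norm_mul]
      refine mul_le_mul_of_nonneg_left ?_ (norm_nonneg _)
      push_cast at hsq ⊢
      linarith)
    (by
      have u := (((un2.nsm (n := 6) (by norm_num)).mul hR).mul uη2).2
      refine le_trans ?_ u
      have e : α 1 * s 0 + α 2 * s 0 ^ 3 - (α 1 * v0 + α 2 * (v0 * v0 * v0)) -
          (α 1 + (3 : Int) * (α 2 * (v0 * v0))) * η =
          α 2 * ((v0 + η) ^ (1 + 2) - v0 ^ (1 + 2) - ((1 : ℕ) + 2) * v0 ^ (1 + 1) * η) := by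
        rw [d.hv]; push_cast; ring
      rw [e, norm_mul]
      have := mul_le_mul_of_nonneg_left hcu (norm_nonneg (α 2))
      push_cast at this ⊢
      linarith)
    ⟨le_rfl, by rw [rv_zero]⟩ ucst.2
  rw [hS] at hfin
  obtain ⟨c, hc, hle⟩ := hfin
  refine ⟨c, hc, hle.trans ?_⟩
  rw [← d.hv, ← ht, add_zero]
  have e1 : (α 1 * s 0 + α 2 * s 0 ^ 3).re = (α 1 * s 0).re + (α 2 * s 0 ^ 3).re := Complex.add_re _ _
  rw [e1]
  linarith

theorem pow_bound {v η : ℂ} {R : ℝ} (hR : ‖v‖ + ‖η‖ ≤ R) (n : ℕ) {k : ℝ}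
    (hm : ((n : ℝ) + 2) * (n + 1) = 2 * k) {c : ℂ} (hc : c = (n : ℂ) + 2) :
    ‖(v + η) ^ (n + 2) - v ^ (n + 2) - c * v ^ (n + 1) * η‖ ≤ k * R ^ n * ‖η‖ ^ 2 := by
  have h := pow_second hR n
  rw [hc]
  rw [hm] at h
  linarith

theorem sideN_sound {B α s : ℕ → ℂ} {a1 a2 a3 a4 : CB} {A x y rh : Int} {b1 b2 v0 η : ℂ}
    (d : Dat B α s a1 a2 a3 a4 A x y rh b1 b2 v0 η) {B1 : CB} {S : Side}
    (h : sideN a1 a2 a3 a4 A B1 ⟨x, y, 0⟩ rh = some S) (hb1 : CB.Mem b1 B1) :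
    ∃ c : ℂ, CB.Mem c S.lin ∧ rv S.val + (c * η).re ≤ 2 * (α 1 * s 0).re + Rs B α s := by
  unfold sideN at h
  extract_lets r r2 r3 r4 r5 n2 n3 n4 c4 g5 gs p1 p2 x5 V2 V3 V4 V5 V6 rh2 A22 E2 cst at h
  obtain ⟨hp, h⟩ := cond_some h
  rw [Bool.and_eq_true] at hp
  have hp1 : 0 < p1 := (isPos_iff p1).1 hp.1
  have hp2 : 0 < p2 := (isPos_iff p2).1 hp.2
  have hS := Option.some.inj h
  clear h
  set R := ‖v0‖ + ‖η‖ with hRdef
  set t := ‖s 0‖ with ht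
  have ht0 : 0 ≤ t := norm_nonneg _
  have htR : t ≤ R := d.vR
  have hR : Ub R r := d.hR
  have uT : Ub t r := hR.mono ht0 htR
  have uT2 : Ub (t * t) r2 := uT.mul uT
  have uT3 : Ub (t * t * t) r3 := (uT.mul uT).mul uT
  have uT4 : Ub (t * t * (t * t)) r4 := (uT.mul uT).mul (uT.mul uT)
  have uT5 : Ub (t * t * (t * t) * t) r5 := uT4.mul uT
  have uR3 : Ub (R * R * R) r3 := (hR.mul hR).mul hR
  have uR4 : Ub (R * R * (R * R)) r4 := (hR.mul hR).mul (hR.mul hR)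
  have un2 : Ub ‖α 2‖ n2 := Ub_norm d.h2
  have un3 : Ub ‖α 3‖ n3 := Ub_norm d.h3
  have un4 : Ub ‖α 4‖ n4 := Ub_norm d.h4
  have uη2 : Ub (‖η‖ * ‖η‖) rh2 := d.hη.mul d.hη
  have ucX : Ub (3 / 5) cX := Ub_const (by norm_num) (by norm_num [cX])
  have ucX3 : Ub ((3 / 5) ^ 3) cX3 := Ub_const (by norm_num) (by norm_num [cX3])
  have ucX10 : Ub ((3 / 5) ^ 10) cX10 := Ub_const (by norm_num) (by norm_num [cX10])
  have uc1 : Ub (64 / 100000) 703687442 := Ub_const (by norm_num) (by norm_num)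
  have uc2 : Ub (75 / 1000000) 82463373 := Ub_const (by norm_num) (by norm_num)
  have uc4 : Ub (2 * ‖α 3‖ * t ^ 3) c4 :=
    ((un3.nsm (n := 2) (by norm_num)).mul uT3).congr (by push_cast; ring)
  have ug5 : Ub (2 * ‖α 4‖ * t ^ 4 * (3 / 5) ^ 3) g5 :=
    (((un4.nsm (n := 2) (by norm_num)).mul uT4).mul ucX3).congr (by push_cast; ring)
  have uA22 : Ub (11 * rv A / 5) A22 :=
    ((d.hAU.nsm (n := 11) (by norm_num)).ediv (d := 5) (by norm_num)).congr (by push_cast; ring)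
  have vc4 : Ub (rv c4) c4 := ⟨uc4.rv0, le_rfl⟩
  have vg5 : Ub (rv g5) g5 := ⟨ug5.rv0, le_rfl⟩
  have ugs : Ub (rv c4 + rv g5) gs := vc4.add vg5
  -- the constants `p1`, `p2`
  have hp1v : rv p1 ≤ 4 / 5 - (rv c4 + rv g5) * (3 / 5 + 3 * t) := by
    have h1 := (ugs.mul (ucX.add (uT.nsm (n := 3) (by norm_num)))).2
    have h2 : rv c45 ≤ 4 / 5 := rv_le_real (by norm_num [c45])
    have h3 : rv p1 = rv c45 - rv (mulU gs (Int.add cX (Int.mul 3 r))) := by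
      have : p1 = Int.add c45 (Int.neg (mulU gs (Int.add cX (Int.mul 3 r)))) := rfl
      rw [this, rv_add, rv_neg]; ring
    push_cast at h1
    linarith
  have hp2v : rv p2 ≤ 1 / 10 - (rv c4 + rv g5) * t := by
    have h1 := (ugs.mul uT).2
    have h2 : rv 109951162777 ≤ 1 / 10 := rv_le_real (by norm_num)
    have h3 : rv p2 = rv 109951162777 - rv (mulU gs r) := by
      have : p2 = Int.add 109951162777 (Int.neg (mulU gs r)) := rfl
      rw [this, rv_add, rv_neg]; ring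
    linarith
  have hp10 := rv_pos hp1
  have hp20 := rv_pos hp2
  have uA0 : 0 ≤ rv A := d.hAU.1
  have ux5 : Ub (3 / 2 * rv g5 * t ^ 2) x5 :=
    (((vg5.nsm (n := 3) (by norm_num)).mul uT2).half).congr (by push_cast; ring)
  have uE2 : Ub (‖α 3‖ * t ^ 5 + 64 / 100000 + rv g5 * t ^ 2 / 2) E2 :=
    ((un3.mul uT5).add (uc1.add ((vg5.mul uT2).half))).congr (by ring)
  -- the constant
  have ucst : Ub (rv g5 * t ^ 3
      + (‖α 3‖ * t ^ 5 + 64 / 100000 + rv g5 * t ^ 2 / 2) ^ 2 /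
        (1 / 10 - (rv c4 + rv g5) * t)
      + 11 / 5 * rv A * t ^ 5 * (3 / 5) ^ 10 + 75 / 1000000) cst := by
    have e1 := vg5.mul uT3
    have e2 := (uE2.mul uE2).div hp2 hp2v
    have e3 := (uA22.mul uT5).mul ucX10
    exact ((e1.add e2).add (e3.add uc2)).congr (by ring)
  -- the mode inequality
  have hmode := modeN_sym d.hB (A := rv A) (r := t) (c4 := rv c4) (g5 := rv g5) d.hs le_rfl
    ((d.hs 0).trans (by norm_num)) d.hA uc4.2 ug5.2 rfl rfl (hp10.trans_le hp1v)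
    (hp20.trans_le hp2v) d.hb
  -- balls
  have mV := d.m0
  have mV2 : CB.Mem (v0 * v0) V2 := mV.mul mV
  have mV3 : CB.Mem (v0 * v0 * v0) V3 := mV2.mul mV
  have mV4 : CB.Mem (v0 * v0 * (v0 * v0)) V4 := mV2.mul mV2
  have mV5 : CB.Mem (v0 * v0 * (v0 * v0) * v0) V5 := mV4.mul mV
  have mV6 : CB.Mem (v0 * v0 * v0 * (v0 * v0 * v0)) V6 := mV3.mul mV3
  have q2 := pow_bound (v := v0) (η := η) (R := R) le_rfl 0 (k := 1) (by norm_num)
    (c := 2) (by norm_num)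
  have q3 := pow_bound (v := v0) (η := η) (R := R) le_rfl 1 (k := 3) (by norm_num)
    (c := 3) (by norm_num)
  have q5 := pow_bound (v := v0) (η := η) (R := R) le_rfl 3 (k := 10) (by norm_num)
    (c := 5) (by norm_num)
  have q6 := pow_bound (v := v0) (η := η) (R := R) le_rfl 4 (k := 15) (by norm_num)
    (c := 6) (by norm_num)
  norm_num at q2 q3 q5 q6
  have hfin := finish_sound (V := ⟨x, y, 0⟩)
    (P := CB.add (CB.mul a1 ⟨x, y, 0⟩) (CB.add (CB.mul a2 V3) (CB.mul a3 V6)))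
    (P1 := CB.add a1 (CB.add (CB.nsm 3 (CB.mul a2 V2)) (CB.nsm 6 (CB.mul a3 V5))))
    (g0 := CB.sub (CB.add (CB.mul a2 V2) (CB.nsm 3 (CB.mul a3 V5))) B1)
    (g1 := CB.add (CB.nsm 2 (CB.mul a2 ⟨x, y, 0⟩)) (CB.nsm 15 (CB.mul a3 V4)))
    (γ := 0) (p := p1) (x5 := x5)
    (b2 := mulU (Int.add n2 (mulU (Int.mul 30 n3) r3)) rh2)
    (rem := mulU (Int.add (mulU (Int.mul 6 n2) r) (mulU (Int.mul 30 n3) r4)) rh2)
    (cst := cst) (rh := rh)
    (v0 := v0) (η := η) (Pv := α 1 * s 0 + (α 2 * s 0 ^ 3 + α 3 * s 0 ^ 6))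
    (Pv0 := α 1 * v0 + (α 2 * (v0 * v0 * v0) + α 3 * (v0 * v0 * v0 * (v0 * v0 * v0))))
    (P1' := α 1 + ((3 : Int) * (α 2 * (v0 * v0)) + (6 : Int) * (α 3 * (v0 * v0 * (v0 * v0) * v0))))
    (gv := α 2 * s 0 ^ 2 + 3 * α 3 * s 0 ^ 5 - b1)
    (g0' := α 2 * (v0 * v0) + (3 : Int) * (α 3 * (v0 * v0 * (v0 * v0) * v0)) - b1)
    (g1' := (2 : Int) * (α 2 * v0) + (15 : Int) * (α 3 * (v0 * v0 * (v0 * v0))))
    (X5 := 3 / 2 * rv g5 * t ^ 2)
    (CST := rv g5 * t ^ 3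
      + (‖α 3‖ * t ^ 5 + 64 / 100000 + rv g5 * t ^ 2 / 2) ^ 2 /
        (1 / 10 - (rv c4 + rv g5) * t)
      + 11 / 5 * rv A * t ^ 5 * (3 / 5) ^ 10 + 75 / 1000000)
    (p' := 4 / 5 - (rv c4 + rv g5) * (3 / 5 + 3 * t))
    d.hv0 mV le_rfl hp1 hp1v d.hη
    ((d.h1.mul mV).add ((d.h2.mul mV3).add (d.h3.mul mV6)))
    (d.h1.add (((d.h2.mul mV2).nsm (by norm_num)).add ((d.h3.mul mV5).nsm (by norm_num))))
    (by
      have := ((d.h2.mul mV2).add ((d.h3.mul mV5).nsm (n := 3) (by norm_num))).sub hb1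
      rw [rv_zero, Complex.ofReal_zero, zero_mul, sub_zero]
      exact this)
    (((d.h2.mul mV).nsm (by norm_num)).add ((d.h3.mul mV4).nsm (by norm_num)))
    (by
      refine ((un2.add ((un3.nsm (n := 30) (by norm_num)).mul uR3)).mul uη2).mono
        (norm_nonneg _) ?_
      have e : α 2 * s 0 ^ 2 + 3 * α 3 * s 0 ^ 5 - b1 -
          (α 2 * (v0 * v0) + (3 : Int) * (α 3 * (v0 * v0 * (v0 * v0) * v0)) - b1) -
          ((2 : Int) * (α 2 * v0) + (15 : Int) * (α 3 * (v0 * v0 * (v0 * v0)))) * η =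
          α 2 * ((v0 + η) ^ 2 - v0 ^ 2 - 2 * v0 * η) +
          3 * (α 3 * ((v0 + η) ^ 5 - v0 ^ 5 - 5 * v0 ^ 4 * η)) := by
        rw [d.hv]; push_cast; ring
      rw [e]
      refine (norm_add_le _ _).trans ?_
      rw [norm_mul, norm_mul, norm_mul]
      have f1 := mul_le_mul_of_nonneg_left q2 (norm_nonneg (α 2))
      have f2 := mul_le_mul_of_nonneg_left q5 (norm_nonneg (α 3))
      have f3 : ‖(3 : ℂ)‖ = 3 := by norm_num
      rw [f3]
      push_cast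
      linarith [f1, f2])
    (by
      have u := ((((un2.nsm (n := 6) (by norm_num)).mul hR).add
        ((un3.nsm (n := 30) (by norm_num)).mul uR4)).mul uη2).2
      refine le_trans ?_ u
      have e : α 1 * s 0 + (α 2 * s 0 ^ 3 + α 3 * s 0 ^ 6) -
          (α 1 * v0 + (α 2 * (v0 * v0 * v0) + α 3 * (v0 * v0 * v0 * (v0 * v0 * v0)))) -
          (α 1 + ((3 : Int) * (α 2 * (v0 * v0)) +
            (6 : Int) * (α 3 * (v0 * v0 * (v0 * v0) * v0)))) * η =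
          α 2 * ((v0 + η) ^ 3 - v0 ^ 3 - 3 * v0 ^ 2 * η) +
          α 3 * ((v0 + η) ^ 6 - v0 ^ 6 - 6 * v0 ^ 5 * η) := by
        rw [d.hv]; push_cast; ring
      rw [e]
      have f0 := norm_add_le (α 2 * ((v0 + η) ^ 3 - v0 ^ 3 - 3 * v0 ^ 2 * η))
        (α 3 * ((v0 + η) ^ 6 - v0 ^ 6 - 6 * v0 ^ 5 * η))
      rw [norm_mul, norm_mul] at f0
      have f1 := mul_le_mul_of_nonneg_left q3 (norm_nonneg (α 2))
      have f2 := mul_le_mul_of_nonneg_left q6 (norm_nonneg (α 3))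
      push_cast
      linarith [f0, f1, f2])
    ux5 ucst.2
  rw [hS] at hfin
  obtain ⟨c, hc, hle⟩ := hfin
  refine ⟨c, hc, hle.trans ?_⟩
  rw [← d.hv, ← ht, rv_zero, Complex.ofReal_zero, zero_mul, zero_mul, sub_zero, sub_zero]
  have e1 : (α 1 * s 0 + (α 2 * s 0 ^ 3 + α 3 * s 0 ^ 6)).re =
      (α 1 * s 0).re + (α 2 * s 0 ^ 3 + α 3 * s 0 ^ 6).re := Complex.add_re _ _
  rw [e1]
  linarith

theorem sideF_sound {B α s : ℕ → ℂ} {a1 a2 a3 a4 : CB} {A x y rh hy : Int} {b1 b2 v0 η : ℂ}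
    (d : Dat B α s a1 a2 a3 a4 A x y rh b1 b2 v0 η) {B1 B2 : CB} {S : Side}
    (h : sideF a1 a2 a3 a4 A B1 B2 ⟨x, y, 0⟩ hy rh = some S) (hb1 : CB.Mem b1 B1)
    (hb2 : CB.Mem b2 B2) (him : |(s 0).im - rv y| ≤ rv hy) :
    ∃ c : ℂ, CB.Mem c S.lin ∧ rv S.val + (c * η).re ≤ 2 * (α 1 * s 0).re + Rs B α s := by
  unfold sideF at h
  extract_lets r r2 r3 r4 r5 r7 r8 r14 n2 n3 n4 c4 c5 c6 c7 k11 k22 k33 p1 p2 p3 V2 V3 V4 V5 V6 V8
    V9 V10 rh2 A22 E2 E3 cst at h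
  obtain ⟨hp, h⟩ := cond_some h
  simp only [Bool.and_eq_true, le_iff, isPos_iff] at hp
  obtain ⟨⟨⟨hr9, hyim⟩, hA4, hc6', hc7'⟩, hp1, hp2, hp3⟩ := hp
  have hS := Option.some.inj h
  clear h
  set R := ‖v0‖ + ‖η‖ with hRdef
  have hR : Ub R r := d.hR
  have uR2 : Ub (R * R) r2 := hR.mul hR
  have uR3 : Ub (R * R * R) r3 := uR2.mul hR
  have uR4 : Ub (R * R * (R * R)) r4 := uR2.mul uR2
  have uR5 : Ub (R * R * (R * R) * R) r5 := uR4.mul hR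
  have uR7 : Ub (R * R * (R * R) * (R * R * R)) r7 := uR4.mul uR3
  have uR8 : Ub (R * R * (R * R) * (R * R * (R * R))) r8 := uR4.mul uR4
  have uR14 : Ub (R ^ 14) r14 := (uR7.mul uR7).congr (by ring)
  have un2 : Ub ‖α 2‖ n2 := Ub_norm d.h2
  have un3 : Ub ‖α 3‖ n3 := Ub_norm d.h3
  have un4 : Ub ‖α 4‖ n4 := Ub_norm d.h4
  have uη2 : Ub (‖η‖ * ‖η‖) rh2 := d.hη.mul d.hη
  have hA := d.hAU
  have ucX : Ub (3 / 5) cX := Ub_const (by norm_num) (by norm_num [cX])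
  have ucX4 : Ub ((3 / 5) ^ 4) cX4 := Ub_const (by norm_num) (by norm_num [cX4])
  have ucX8 : Ub ((3 / 5) ^ 8) cX8 := Ub_const (by norm_num) (by norm_num [cX8])
  have ucX13 : Ub ((3 / 5) ^ 13) cX13 := Ub_const (by norm_num) (by norm_num [cX13])
  have uk1 : Ub (86 / 10000) 9455799999 := Ub_const (by norm_num) (by norm_num)
  have uk2 : Ub (163 / 10000) 17922039533 := Ub_const (by norm_num) (by norm_num)
  have uk3 : Ub (8 / 10000) 879609303 := Ub_const (by norm_num) (by norm_num)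
  have uk4 : Ub (3 / 100000) 32985349 := Ub_const (by norm_num) (by norm_num)
  have uk5 : Ub (1 / 10 ^ 8) 10996 := Ub_const (by norm_num) (by norm_num)
  have uc4 : Ub (2 * ‖α 3‖ * R ^ 3) c4 :=
    ((un3.nsm (n := 2) (by norm_num)).mul uR3).congr (by push_cast; ring)
  have uc5 : Ub (2 * ‖α 4‖ * R ^ 4) c5 :=
    ((un4.nsm (n := 2) (by norm_num)).mul uR4).congr (by push_cast; ring)
  have uc6 : Ub (2 * rv A * R ^ 5 * (3 / 5) ^ 8) c6 :=
    (((hA.nsm (n := 2) (by norm_num)).mul uR5).mul ucX8).congr (by push_cast; ring)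
  have uc7 : Ub (1600 * rv A * R ^ 6 * (3 / 5) ^ 13) c7 :=
    (((hA.nsm (n := 1600) (by norm_num)).mul (uR3.mul uR3)).mul ucX13).congr
      (by push_cast; ring)
  have uA22 : Ub (11 * rv A / 5) A22 :=
    ((hA.nsm (n := 11) (by norm_num)).ediv (d := 5) (by norm_num)).congr (by push_cast; ring)
  have vc4 : Ub (rv c4) c4 := ⟨uc4.rv0, le_rfl⟩
  have vc5 : Ub (rv c5) c5 := ⟨uc5.rv0, le_rfl⟩
  have vc6 : Ub (rv c6) c6 := ⟨uc6.rv0, le_rfl⟩
  have vc7 : Ub (rv c7) c7 := ⟨uc7.rv0, le_rfl⟩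
  have uK11 : Ub (K11 R) k11 := by
    have e := ((((hR.nsm (n := 432) (by norm_num)).add (uR2.nsm (n := 1620) (by norm_num))).add
      ((uR3.nsm (n := 3900) (by norm_num)).add (uR4.nsm (n := 11000) (by norm_num)))).ediv
        (d := 1000) (by norm_num))
    exact (ucX4.add e).congr (by unfold K11; push_cast; ring)
  have uK22 : Ub (K22 R) k22 := by
    have e := (((uR2.nsm (n := 540) (by norm_num)).add
      ((uR3.nsm (n := 2100) (by norm_num)).add (uR4.nsm (n := 6500) (by norm_num)))).ediv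
        (d := 1000) (by norm_num))
    exact e.congr (by unfold K22; push_cast; ring)
  have uK33 : Ub (K33 R) k33 :=
    ((uR4.nsm (n := 7) (by norm_num)).half).congr (by unfold K33; push_cast; ring)
  -- the constants `p1`, `p2`, `p3`
  have hp1v : rv p1 ≤ p1E R (rv c4) (rv c5) (rv c6) (rv c7) := by
    have h1 := (((vc4.mul (ucX.add (hR.nsm (n := 3) (by norm_num)))).add (vc5.mul uK11)).add
      ((vc6.nsm (n := 127) (by norm_num)).add (vc7.half.add uk1))).2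
    have h2 : rv c45 ≤ 4 / 5 := rv_le_real (by norm_num [c45])
    have h3 : rv p1 = rv c45 - rv (Int.add (Int.add (mulU c4 (Int.add cX (Int.mul 3 r)))
        (mulU c5 k11)) (Int.add (Int.mul 127 c6) (Int.add (halfU c7) 9455799999))) := by
      have : p1 = Int.add c45 (Int.neg (Int.add (Int.add (mulU c4 (Int.add cX (Int.mul 3 r)))
        (mulU c5 k11)) (Int.add (Int.mul 127 c6) (Int.add (halfU c7) 9455799999)))) := rfl
      rw [this, rv_add, rv_neg]; ring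
    unfold p1E
    push_cast at h1
    linarith
  have hp2v : rv p2 ≤ p2E R (rv c4) (rv c5) (rv c6) (rv c7) := by
    have h1 := (((vc4.mul hR).add (vc5.mul uK22)).add
      ((vc6.nsm (n := 53) (by norm_num)).add (vc7.half.half.add uk2))).2
    have h2 : rv 109951162777 ≤ 1 / 10 := rv_le_real (by norm_num)
    have h3 : rv p2 = rv 109951162777 - rv (Int.add (Int.add (mulU c4 r)
        (mulU c5 k22)) (Int.add (Int.mul 53 c6) (Int.add (halfU (halfU c7)) 17922039533))) := by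
      have : p2 = Int.add 109951162777 (Int.neg (Int.add (Int.add (mulU c4 r)
        (mulU c5 k22)) (Int.add (Int.mul 53 c6) (Int.add (halfU (halfU c7)) 17922039533)))) := rfl
      rw [this, rv_add, rv_neg]; ring
    unfold p2E
    push_cast at h1
    linarith
  have hp3v : rv p3 ≤ p3E R (rv c5) (rv c6) (rv c7) := by
    have h1 := ((vc5.mul uK33).add
      ((vc6.nsm (n := 22) (by norm_num)).add (vc7.half.half.half.add uk3))).2
    have h2 : rv 13743895347 ≤ 1 / 80 := rv_le_real (by norm_num)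
    have h3 : rv p3 = rv 13743895347 - rv (Int.add (mulU c5 k33)
        (Int.add (Int.mul 22 c6) (Int.add (halfU (halfU (halfU c7))) 879609303))) := by
      have : p3 = Int.add 13743895347 (Int.neg (Int.add (mulU c5 k33)
        (Int.add (Int.mul 22 c6) (Int.add (halfU (halfU (halfU c7))) 879609303)))) := rfl
      rw [this, rv_add, rv_neg]; ring
    unfold p3E
    push_cast at h1
    linarith
  have hp10 := rv_pos hp1
  have hp20 := rv_pos hp2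
  have hp30 := rv_pos hp3
  have uA0 : 0 ≤ rv A := hA.1
  have mV := d.m0
  have mV2 : CB.Mem (v0 * v0) V2 := mV.mul mV
  have mV3 : CB.Mem (v0 * v0 * v0) V3 := mV2.mul mV
  have mV4 : CB.Mem (v0 * v0 * (v0 * v0)) V4 := mV2.mul mV2
  have mV5 : CB.Mem (v0 * v0 * (v0 * v0) * v0) V5 := mV4.mul mV
  have mV6 : CB.Mem (v0 * v0 * v0 * (v0 * v0 * v0)) V6 := mV3.mul mV3
  have mV8 : CB.Mem (v0 * v0 * (v0 * v0) * (v0 * v0 * (v0 * v0))) V8 := mV4.mul mV4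
  have mV9 : CB.Mem (v0 * v0 * (v0 * v0) * (v0 * v0 * (v0 * v0) * v0)) V9 := mV4.mul mV5
  have mV10 : CB.Mem (v0 * v0 * (v0 * v0) * v0 * (v0 * v0 * (v0 * v0) * v0)) V10 := mV5.mul mV5
  have q2 := pow_bound (v := v0) (η := η) (R := R) le_rfl 0 (k := 1) (by norm_num)
    (c := 2) (by norm_num)
  have q3 := pow_bound (v := v0) (η := η) (R := R) le_rfl 1 (k := 3) (by norm_num)
    (c := 3) (by norm_num)
  have q5 := pow_bound (v := v0) (η := η) (R := R) le_rfl 3 (k := 10) (by norm_num)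
    (c := 5) (by norm_num)
  have q6 := pow_bound (v := v0) (η := η) (R := R) le_rfl 4 (k := 15) (by norm_num)
    (c := 6) (by norm_num)
  have q9 := pow_bound (v := v0) (η := η) (R := R) le_rfl 7 (k := 36) (by norm_num)
    (c := 9) (by norm_num)
  have q10 := pow_bound (v := v0) (η := η) (R := R) le_rfl 8 (k := 45) (by norm_num)
    (c := 10) (by norm_num)
  have q5' := pow_first (v := v0) (η := η) (R := R) le_rfl 4
  have q9' := pow_first (v := v0) (η := η) (R := R) le_rfl 8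
  norm_num at q2 q3 q5 q6 q9 q10 q5' q9'
  -- `E2`, `E3`
  have uE2 : Ub (‖α 3 * s 0 ^ 5 + 3 * α 4 * s 0 ^ 9 - b2‖ + 7 * rv A * R ^ 14) E2 := by
    have m := ((d.h3.mul mV5).add ((d.h4.mul mV9).nsm (n := 3) (by norm_num))).sub hb2
    have u1 := (((((un3.nsm (n := 5) (by norm_num)).mul uR4).add
      ((un4.nsm (n := 27) (by norm_num)).mul uR8)).mul d.hη).add
        ((hA.nsm (n := 7) (by norm_num)).mul uR14))
    refine ((Ub_norm m).add u1).mono (by positivity) ?_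
    have e : α 3 * s 0 ^ 5 + 3 * α 4 * s 0 ^ 9 - b2 =
        (α 3 * (v0 * v0 * (v0 * v0) * v0) +
          (3 : Int) * (α 4 * (v0 * v0 * (v0 * v0) * (v0 * v0 * (v0 * v0) * v0))) - b2) +
        (α 3 * ((v0 + η) ^ 5 - v0 ^ 5) + 3 * (α 4 * ((v0 + η) ^ 9 - v0 ^ 9))) := by
      rw [d.hv]; push_cast; ring
    rw [e]
    have f0 := norm_add_le (α 3 * (v0 * v0 * (v0 * v0) * v0) +
          (3 : Int) * (α 4 * (v0 * v0 * (v0 * v0) * (v0 * v0 * (v0 * v0) * v0))) - b2)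
        (α 3 * ((v0 + η) ^ 5 - v0 ^ 5) + 3 * (α 4 * ((v0 + η) ^ 9 - v0 ^ 9)))
    have f1 := norm_add_le (α 3 * ((v0 + η) ^ 5 - v0 ^ 5)) (3 * (α 4 * ((v0 + η) ^ 9 - v0 ^ 9)))
    have f3 : ‖(3 : ℂ)‖ = 3 := by norm_num
    rw [norm_mul, norm_mul, norm_mul, f3] at f1
    have f4 := mul_le_mul_of_nonneg_left q5' (norm_nonneg (α 3))
    have f5 := mul_le_mul_of_nonneg_left q9' (norm_nonneg (α 4))
    have f6 : ((5 : Int) : ℝ) * ‖α 3‖ * (R * R * (R * R)) = ‖α 3‖ * (5 * R ^ 4) := by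
      push_cast; ring
    have f7 : ((27 : Int) : ℝ) * ‖α 4‖ * (R * R * (R * R) * (R * R * (R * R))) =
        ‖α 4‖ * (27 * R ^ 8) := by
      push_cast; ring
    rw [f6, f7]
    push_cast at f0 ⊢
    linarith [f0, f1, f4, f5]
  have uE3 : Ub (‖α 4‖ * R ^ 9 + 4 * rv A * R ^ 14 + 3 / 100000) E3 :=
    ((un4.mul (uR8.mul hR)).add (((hA.nsm (n := 4) (by norm_num)).mul uR14).add uk4)).congr
      (by push_cast; ring)
  have ux5 : Ub (11 * rv A * R ^ 14) (mulU (Int.mul 11 A) r14) :=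
    ((hA.nsm (n := 11) (by norm_num)).mul uR14).congr (by push_cast; ring)
  -- the constant
  have ucst : Ub ((‖α 3 * s 0 ^ 5 + 3 * α 4 * s 0 ^ 9 - b2‖ + 7 * rv A * R ^ 14) ^ 2
          / p2E R (rv c4) (rv c5) (rv c6) (rv c7)
      + (‖α 4‖ * R ^ 9 + 4 * rv A * R ^ 14 + 3 / 100000) ^ 2 / p3E R (rv c5) (rv c6) (rv c7)
      + 11 / 5 * rv A * R ^ 15 + 1 / 10 ^ 8) cst := by
    have e1 := (uE2.mul uE2).div hp2 hp2v
    have e2 := (uE3.mul uE3).div hp3 hp3v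
    have e3 := (uA22.mul uR14).mul hR
    exact ((e1.add e2).add (e3.add uk5)).congr (by ring)
  -- the region
  have hR9 : R ≤ 9 / 25 := by
    refine hR.2.trans ((rv_mono hr9).trans (rv_le_real (by norm_num)))
  have him8 : 1 / 8 ≤ |(s 0).im| := by
    have h1 : rv (Int.add 137438953472 hy) ≤ rv (absI y) := rv_mono hyim
    rw [rv_add, absI_eq] at h1
    have h2 : rv |y| = |rv y| := by
      unfold rv
      rw [abs_div, abs_of_pos (by positivity : (0 : ℝ) < 2 ^ 40), Int.cast_abs]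
    have h3 : (1 : ℝ) / 8 ≤ rv 137438953472 := real_le_rv (by norm_num)
    have h4 : |rv y| ≤ |(s 0).im| + |(s 0).im - rv y| := by
      have := abs_sub_abs_le_abs_sub (rv y) (s 0).im
      rw [abs_sub_comm] at this
      linarith
    rw [h2] at h1
    linarith
  have hA4r : rv A ≤ 4 := (rv_mono hA4).trans (rv_le_real (by norm_num))
  have hc6r : rv c6 ≤ 1 / 3000 := (rv_mono hc6').trans (rv_le_real (by norm_num))
  have hc7r : rv c7 ≤ 1 / 80 := (rv_mono hc7').trans (rv_le_real (by norm_num))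
  -- the mode inequality
  have hmode := modeF_sym d.hB (A := rv A) (r := R) (c4 := rv c4) (c5 := rv c5) (c6 := rv c6)
    (c7 := rv c7) d.hs d.vR hR9 him8 hA4r d.hA uc4.2 uc5.2 uc6.2 hc6r uc7.2 hc7r
    (hp10.trans_le hp1v) (hp20.trans_le hp2v) (hp30.trans_le hp3v) d.hb
  have hfin := finish_sound (V := ⟨x, y, 0⟩)
    (P := CB.add (CB.add (CB.mul a1 ⟨x, y, 0⟩) (CB.mul a2 V3))
      (CB.add (CB.mul a3 V6) (CB.mul a4 V10)))
    (P1 := CB.add (CB.add a1 (CB.nsm 3 (CB.mul a2 V2)))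
      (CB.add (CB.nsm 6 (CB.mul a3 V5)) (CB.nsm 10 (CB.mul a4 V9))))
    (g0 := CB.sub (CB.add (CB.mul a2 V2)
      (CB.add (CB.nsm 3 (CB.mul a3 V5)) (CB.nsm 6 (CB.mul a4 V9)))) B1)
    (g1 := CB.add (CB.nsm 2 (CB.mul a2 ⟨x, y, 0⟩))
      (CB.add (CB.nsm 15 (CB.mul a3 V4)) (CB.nsm 54 (CB.mul a4 V8))))
    (γ := 0) (p := p1) (x5 := mulU (Int.mul 11 A) r14)
    (b2 := mulU (Int.add n2 (Int.add (mulU (Int.mul 30 n3) r3) (mulU (Int.mul 216 n4) r7))) rh2)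
    (rem := mulU (Int.add (mulU (Int.mul 6 n2) r)
      (Int.add (mulU (Int.mul 30 n3) r4) (mulU (Int.mul 90 n4) r8))) rh2)
    (cst := cst) (rh := rh)
    (v0 := v0) (η := η) (Pv := α 1 * s 0 + (α 2 * s 0 ^ 3 + α 3 * s 0 ^ 6 + α 4 * s 0 ^ 10))
    (Pv0 := α 1 * v0 + α 2 * (v0 * v0 * v0) + (α 3 * (v0 * v0 * v0 * (v0 * v0 * v0)) +
      α 4 * (v0 * v0 * (v0 * v0) * v0 * (v0 * v0 * (v0 * v0) * v0))))
    (P1' := α 1 + (3 : Int) * (α 2 * (v0 * v0)) +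
      ((6 : Int) * (α 3 * (v0 * v0 * (v0 * v0) * v0)) +
        (10 : Int) * (α 4 * (v0 * v0 * (v0 * v0) * (v0 * v0 * (v0 * v0) * v0)))))
    (gv := α 2 * s 0 ^ 2 + 3 * α 3 * s 0 ^ 5 + 6 * α 4 * s 0 ^ 9 - b1)
    (g0' := α 2 * (v0 * v0) + ((3 : Int) * (α 3 * (v0 * v0 * (v0 * v0) * v0)) +
      (6 : Int) * (α 4 * (v0 * v0 * (v0 * v0) * (v0 * v0 * (v0 * v0) * v0)))) - b1)
    (g1' := (2 : Int) * (α 2 * v0) + ((15 : Int) * (α 3 * (v0 * v0 * (v0 * v0))) +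
      (54 : Int) * (α 4 * (v0 * v0 * (v0 * v0) * (v0 * v0 * (v0 * v0))))))
    (X5 := 11 * rv A * R ^ 14)
    (CST := (‖α 3 * s 0 ^ 5 + 3 * α 4 * s 0 ^ 9 - b2‖ + 7 * rv A * R ^ 14) ^ 2
          / p2E R (rv c4) (rv c5) (rv c6) (rv c7)
      + (‖α 4‖ * R ^ 9 + 4 * rv A * R ^ 14 + 3 / 100000) ^ 2 / p3E R (rv c5) (rv c6) (rv c7)
      + 11 / 5 * rv A * R ^ 15 + 1 / 10 ^ 8)
    (p' := p1E R (rv c4) (rv c5) (rv c6) (rv c7))
    d.hv0 mV le_rfl hp1 hp1v d.hη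
    (((d.h1.mul mV).add (d.h2.mul mV3)).add ((d.h3.mul mV6).add (d.h4.mul mV10)))
    ((d.h1.add ((d.h2.mul mV2).nsm (by norm_num))).add
      (((d.h3.mul mV5).nsm (by norm_num)).add ((d.h4.mul mV9).nsm (by norm_num))))
    (by
      have := ((d.h2.mul mV2).add (((d.h3.mul mV5).nsm (n := 3) (by norm_num)).add
        ((d.h4.mul mV9).nsm (n := 6) (by norm_num)))).sub hb1
      rw [rv_zero, Complex.ofReal_zero, zero_mul, sub_zero]
      exact this)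
    (((d.h2.mul mV).nsm (by norm_num)).add (((d.h3.mul mV4).nsm (by norm_num)).add
      ((d.h4.mul mV8).nsm (by norm_num))))
    (by
      refine ((un2.add (((un3.nsm (n := 30) (by norm_num)).mul uR3).add
        ((un4.nsm (n := 216) (by norm_num)).mul uR7))).mul uη2).mono (norm_nonneg _) ?_
      have e : α 2 * s 0 ^ 2 + 3 * α 3 * s 0 ^ 5 + 6 * α 4 * s 0 ^ 9 - b1 -
          (α 2 * (v0 * v0) + ((3 : Int) * (α 3 * (v0 * v0 * (v0 * v0) * v0)) +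
            (6 : Int) * (α 4 * (v0 * v0 * (v0 * v0) * (v0 * v0 * (v0 * v0) * v0)))) - b1) -
          ((2 : Int) * (α 2 * v0) + ((15 : Int) * (α 3 * (v0 * v0 * (v0 * v0))) +
            (54 : Int) * (α 4 * (v0 * v0 * (v0 * v0) * (v0 * v0 * (v0 * v0)))))) * η =
          α 2 * ((v0 + η) ^ 2 - v0 ^ 2 - 2 * v0 * η) +
          3 * (α 3 * ((v0 + η) ^ 5 - v0 ^ 5 - 5 * v0 ^ 4 * η)) +
          6 * (α 4 * ((v0 + η) ^ 9 - v0 ^ 9 - 9 * v0 ^ 8 * η)) := by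
        rw [d.hv]; push_cast; ring
      rw [e]
      refine (norm_add₃_le).trans ?_
      rw [norm_mul, norm_mul, norm_mul, norm_mul, norm_mul]
      have f1 := mul_le_mul_of_nonneg_left q2 (norm_nonneg (α 2))
      have f2 := mul_le_mul_of_nonneg_left q5 (norm_nonneg (α 3))
      have f3 := mul_le_mul_of_nonneg_left q9 (norm_nonneg (α 4))
      have f4 : ‖(3 : ℂ)‖ = 3 := by norm_num
      have f5 : ‖(6 : ℂ)‖ = 6 := by norm_num
      rw [f4, f5]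
      push_cast
      linarith [f1, f2, f3])
    (by
      have u := ((((un2.nsm (n := 6) (by norm_num)).mul hR).add
        (((un3.nsm (n := 30) (by norm_num)).mul uR4).add
          ((un4.nsm (n := 90) (by norm_num)).mul uR8))).mul uη2).2
      refine le_trans ?_ u
      have e : α 1 * s 0 + (α 2 * s 0 ^ 3 + α 3 * s 0 ^ 6 + α 4 * s 0 ^ 10) -
          (α 1 * v0 + α 2 * (v0 * v0 * v0) + (α 3 * (v0 * v0 * v0 * (v0 * v0 * v0)) +
            α 4 * (v0 * v0 * (v0 * v0) * v0 * (v0 * v0 * (v0 * v0) * v0)))) -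
          (α 1 + (3 : Int) * (α 2 * (v0 * v0)) +
            ((6 : Int) * (α 3 * (v0 * v0 * (v0 * v0) * v0)) +
              (10 : Int) * (α 4 * (v0 * v0 * (v0 * v0) * (v0 * v0 * (v0 * v0) * v0))))) * η =
          α 2 * ((v0 + η) ^ 3 - v0 ^ 3 - 3 * v0 ^ 2 * η) +
          α 3 * ((v0 + η) ^ 6 - v0 ^ 6 - 6 * v0 ^ 5 * η) +
          α 4 * ((v0 + η) ^ 10 - v0 ^ 10 - 10 * v0 ^ 9 * η) := by
        rw [d.hv]; push_cast; ring
      rw [e]
      have f0 := norm_add₃_le (a := α 2 * ((v0 + η) ^ 3 - v0 ^ 3 - 3 * v0 ^ 2 * η))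
        (b := α 3 * ((v0 + η) ^ 6 - v0 ^ 6 - 6 * v0 ^ 5 * η))
        (c := α 4 * ((v0 + η) ^ 10 - v0 ^ 10 - 10 * v0 ^ 9 * η))
      rw [norm_mul, norm_mul, norm_mul] at f0
      have f1 := mul_le_mul_of_nonneg_left q3 (norm_nonneg (α 2))
      have f2 := mul_le_mul_of_nonneg_left q6 (norm_nonneg (α 3))
      have f3 := mul_le_mul_of_nonneg_left q10 (norm_nonneg (α 4))
      push_cast
      linarith [f0, f1, f2, f3])
    ux5 ucst.2
  rw [hS] at hfin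
  obtain ⟨c, hc, hle⟩ := hfin
  refine ⟨c, hc, hle.trans ?_⟩
  rw [← d.hv, rv_zero, Complex.ofReal_zero, zero_mul, zero_mul, sub_zero, sub_zero]
  have e1 : (α 1 * s 0 + (α 2 * s 0 ^ 3 + α 3 * s 0 ^ 6 + α 4 * s 0 ^ 10)).re =
      (α 1 * s 0).re + (α 2 * s 0 ^ 3 + α 3 * s 0 ^ 6 + α 4 * s 0 ^ 10).re := Complex.add_re _ _
  rw [e1]
  linarith

theorem mem_cB1 {B : ℕ → ℂ} (hB : BOK B) : CB.Mem (B 1) cB1 := by
  unfold CB.Mem CB.mid
  have h1 := hB.one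
  have h2 : ‖B1c - (⟨rv cB1.re, rv cB1.im⟩ : ℂ)‖ ≤ 1 / 2 ^ 40 := by
    refine (Complex.norm_le_abs_re_add_abs_im _).trans ?_
    have e1 : (B1c - (⟨rv cB1.re, rv cB1.im⟩ : ℂ)).re = -0.021618 - (-23769242369) / 2 ^ 40 := by
      simp [B1c, rv, cB1]
    have e2 : (B1c - (⟨rv cB1.re, rv cB1.im⟩ : ℂ)).im = 0.078288 - 86078566315 / 2 ^ 40 := by
      simp [B1c, rv, cB1]
    rw [e1, e2]
    norm_num [abs_le, abs_of_pos, abs_of_neg]
  have h3 : (15 / 100000 : ℝ) + 1 / 2 ^ 40 ≤ rv cB1.rad := by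
    norm_num [rv, cB1]
  have h4 := norm_sub_le_norm_sub_add_norm_sub (B 1) B1c (⟨rv cB1.re, rv cB1.im⟩ : ℂ)
  linarith

theorem mem_cB2 {B : ℕ → ℂ} (hB : BOK B) : CB.Mem (B 2) cB2 := by
  unfold CB.Mem CB.mid
  have h1 := hB.two
  have h2 : ‖B2c - (⟨rv cB2.re, rv cB2.im⟩ : ℂ)‖ ≤ 1 / 2 ^ 40 := by
    refine (Complex.norm_le_abs_re_add_abs_im _).trans ?_
    have e1 : (B2c - (⟨rv cB2.re, rv cB2.im⟩ : ℂ)).re = 0.000013 - 14293651 / 2 ^ 40 := by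
      simp [B2c, rv, cB2]
    have e2 : (B2c - (⟨rv cB2.re, rv cB2.im⟩ : ℂ)).im = -0.000627 - (-689393791) / 2 ^ 40 := by
      simp [B2c, rv, cB2]
    rw [e1, e2]
    norm_num [abs_le, abs_of_pos, abs_of_neg]
  have h3 : (1 / 100000 : ℝ) + 1 / 2 ^ 40 ≤ rv cB2.rad := by
    norm_num [rv, cB2]
  have h4 := norm_sub_le_norm_sub_add_norm_sub (B 2) B2c (⟨rv cB2.re, rv cB2.im⟩ : ℂ)
  linarith

theorem Ub_disc {x y : Int} {v : ℂ} {hx hy : Int} (hre : |v.re - rv x| ≤ rv hx)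
    (him : |v.im - rv y| ≤ rv hy) : Ub ‖v - ⟨rv x, rv y⟩‖ (nrm hx hy) := by
  refine ⟨norm_nonneg _, ?_⟩
  have h1 : ‖v - ⟨rv x, rv y⟩‖ = Real.sqrt ((v.re - rv x) ^ 2 + (v.im - rv y) ^ 2) := by
    rw [Complex.norm_eq_sqrt_sq_add_sq]
    simp
  have h2 : Real.sqrt ((v.re - rv x) ^ 2 + (v.im - rv y) ^ 2) ≤
      Real.sqrt (rv hx ^ 2 + rv hy ^ 2) := by
    refine Real.sqrt_le_sqrt (add_le_add ?_ ?_)
    · exact sq_le_sq' (by linarith [(abs_le.1 hre).1]) (abs_le.1 hre).2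
    · exact sq_le_sq' (by linarith [(abs_le.1 him).1]) (abs_le.1 him).2
  have h3 : Real.sqrt (rv hx ^ 2 + rv hy ^ 2) = Real.sqrt ((hx : ℝ) ^ 2 + (hy : ℝ) ^ 2) / 2 ^ 40 := by
    have e : rv hx ^ 2 + rv hy ^ 2 = ((hx : ℝ) ^ 2 + (hy : ℝ) ^ 2) / (2 ^ 40) ^ 2 := by
      unfold rv; ring
    rw [e, Real.sqrt_div' _ (by positivity), Real.sqrt_sq (by positivity)]
  have h4 := le_nrm hx hy
  rw [h1]
  refine h2.trans ?_
  rw [h3]
  unfold rv
  exact div_le_div_of_nonneg_right h4 (by positivity)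

end S2

theorem side_sound {B α s : ℕ → ℂ} (hB : BOK B) (hs : ∀ i, ‖s i‖ ≤ 3 / 5) {mode : ℕ}
    {a1 a2 a3 a4 : CB} {A x y hx hy : Int} {S : Side}
    (h : side mode a1 a2 a3 a4 A x y hx hy = some S) (hhx : 0 ≤ hx) (hhy : 0 ≤ hy)
    (h1 : CB.Mem (α 1) a1) (h2 : CB.Mem (α 2) a2) (h3 : CB.Mem (α 3) a3) (h4 : CB.Mem (α 4) a4)
    (hA : ∀ n, 5 ≤ n → ‖α n‖ ≤ rv A) (hre : |(s 0).re - rv x| ≤ rv hx)
    (him : |(s 0).im - rv y| ≤ rv hy) :
    ∃ c : ℂ, CB.Mem c S.lin ∧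
      rv S.val + (c * (s 0 - ⟨rv x, rv y⟩)).re ≤ 2 * (α 1 * s 0).re + Rs B α s := by
  have _ := hhx
  have _ := hhy
  obtain ⟨hcr, h⟩ := S2.cond_some h
  rw [le_iff, absI_eq] at hcr
  have hcr' : rv hy ≤ |rv y| := by
    have e : |rv y| = rv |y| := by
      unfold rv
      rw [abs_div, abs_of_pos (by positivity : (0 : ℝ) < 2 ^ 40), Int.cast_abs]
    rw [e]
    exact S2.rv_mono hcr
  obtain ⟨b1, b2, hb1, hb2, hb⟩ : ∃ b1 b2 : ℂ, CB.Mem b1 (signB y cB1) ∧ CB.Mem b2 (signB y cB2) ∧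
      S2.Sy (s 0) b1 b2 (B 1) (B 2) := by
    rcases le_or_gt 0 y with hy0 | hy0
    · have e : ∀ X : CB, signB y X = X := by
        intro X
        unfold signB
        rw [(le_iff 0 y).2 hy0]
        rfl
      refine ⟨B 1, B 2, by rw [e]; exact S2.mem_cB1 hB, by rw [e]; exact S2.mem_cB2 hB,
        Or.inl ⟨?_, rfl, rfl⟩⟩
      rw [abs_of_nonneg (S2.rv_nonneg hy0)] at hcr'
      have := (abs_le.1 him).1
      linarith
    · have e : ∀ X : CB, signB y X = CB.conj X := by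
        intro X
        unfold signB
        have : le 0 y = false := by
          rw [Bool.eq_false_iff]
          intro hh
          rw [le_iff] at hh
          omega
        rw [this]
        rfl
      refine ⟨conj (B 1), conj (B 2), by rw [e]; exact (S2.mem_cB1 hB).conjB,
        by rw [e]; exact (S2.mem_cB2 hB).conjB, Or.inr ⟨?_, rfl, rfl⟩⟩
      have hneg : rv y ≤ 0 := by
        have := S2.rv_mono hy0.le
        rwa [S2.rv_zero] at this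
      rw [abs_of_nonpos hneg] at hcr'
      have := (abs_le.1 him).2
      linarith
  have d : S2.Dat B α s a1 a2 a3 a4 A x y (nrm hx hy) b1 b2 ⟨rv x, rv y⟩ (s 0 - ⟨rv x, rv y⟩) :=
    { hB := hB, hs := hs, h1 := h1, h2 := h2, h3 := h3, h4 := h4, hA := hA, hv0 := rfl
      hv := by ring
      hη := S2.Ub_disc hre him
      hb := hb }
  rcases mode with _ | _ | _ | n
  · exact S2.sideL_sound d h hb1
  · exact S2.sideL_sound d h hb1
  · exact S2.sideF_sound d h hb1 hb2 him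
  · exact S2.sideN_sound d h hb1

end MaxTerm.PA.Chk
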