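import Pool.Agent.MaxTerm.PartA.Core

/-!
# Part A, module WinId: from a certificate (list of atoms) to a lower bound for `G`

`0 ≥ ∑ l (2 Re (conj e * F(w)) - ‖e‖^2 - K^2)`, `F = Win q j`, since `2 Re (conj e F) ≤ ‖e‖^2+‖F‖^2`.
Expanding `F` gives `∑ l 2 Re (conj e * F(w)) = 2 Re (∑ aR n * mon (rt q j) n + ∑ aL n * mon (lf q j) n)`
-/

open Filter Topology ComplexConjugate

namespace MaxTerm.PA

theorem norm_aR_le {L : List Atom} (hL : ∀ a ∈ L, a.OK) (n : ℕ) : ‖aR L n‖ ≤ cA L := by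
  induction L with
  | nil => simp [aR, cA]
  | cons a L ih =>
    have ha := hL a List.mem_cons_self
    have ih' := ih (fun b hb => hL b (List.mem_cons_of_mem _ hb))
    simp only [aR, cA, List.map_cons, List.sum_cons] at ih' ⊢
    refine (norm_add_le _ _).trans (add_le_add ?_ ih')
    rw [norm_mul, norm_mul, norm_pow, ha.1, one_pow, mul_one, Complex.norm_conj,
      Complex.norm_real, Real.norm_of_nonneg ha.2]

theorem norm_aL_le {L : List Atom} (hL : ∀ a ∈ L, a.OK) (n : ℕ) : ‖aL L n‖ ≤ cA L := by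
  induction L with
  | nil => simp [aL, cA]
  | cons a L ih =>
    have ha := hL a List.mem_cons_self
    have ih' := ih (fun b hb => hL b (List.mem_cons_of_mem _ hb))
    simp only [aL, cA, List.map_cons, List.sum_cons] at ih' ⊢
    refine (norm_add_le _ _).trans (add_le_add ?_ ih')
    rw [norm_mul, norm_mul, norm_pow, Complex.norm_conj, Complex.norm_conj, ha.1, one_pow, mul_one,
      Complex.norm_real, Real.norm_of_nonneg ha.2]

/-! ### auxiliary facts -/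

theorem wi_norm_mon_le {s : ℕ → ℂ} (hs : ∀ i, ‖s i‖ ≤ 3 / 5) (n : ℕ) :
    ‖mon s n‖ ≤ (3 / 5 : ℝ) ^ n := by
  unfold mon
  rw [norm_prod]
  calc ∏ i ∈ Finset.range n, ‖s i ^ (n - i)‖ ≤ ∏ _i ∈ Finset.range n, (3 / 5 : ℝ) := by
        refine Finset.prod_le_prod (fun i _ => norm_nonneg _) (fun i hi => ?_)
        rw [Finset.mem_range] at hi
        rw [norm_pow]
        calc ‖s i‖ ^ (n - i) ≤ (3 / 5 : ℝ) ^ (n - i) :=
              pow_le_pow_left₀ (norm_nonneg _) (hs i) _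
          _ ≤ (3 / 5 : ℝ) ^ 1 := pow_le_pow_of_le_one (by norm_num) (by norm_num) (by omega)
          _ = 3 / 5 := pow_one _
    _ = (3 / 5 : ℝ) ^ n := by rw [Finset.prod_const, Finset.card_range]

theorem wi_summable_mon {s : ℕ → ℂ} (hs : ∀ i, ‖s i‖ ≤ 3 / 5) {w : ℂ} (hw : ‖w‖ = 1) :
    Summable fun n : ℕ => mon s n * w ^ (2 * n + 1) := by
  refine Summable.of_norm_bounded (g := fun n : ℕ => (3 / 5 : ℝ) ^ n)
    (summable_geometric_of_lt_one (by norm_num) (by norm_num)) (fun n => ?_)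
  rw [norm_mul, norm_pow, hw, one_pow, mul_one]
  exact wi_norm_mon_le hs n

theorem wi_hasSum_aR {s : ℕ → ℂ} (hs : ∀ i, ‖s i‖ ≤ 3 / 5) {L : List Atom}
    (hL : ∀ a ∈ L, a.OK) :
    HasSum (fun n => aR L n * mon s n)
      (L.map fun a => (a.l : ℂ) * conj a.e * half s a.w).sum := by
  induction L with
  | nil => simp [aR]
  | cons a L ih =>
    have ha := hL a List.mem_cons_self
    have ih' := ih (fun b hb => hL b (List.mem_cons_of_mem _ hb))
    have h1 := ((wi_summable_mon hs ha.1).hasSum).mul_left ((a.l : ℂ) * conj a.e)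
    have h2 := h1.add ih'
    simp only [List.map_cons, List.sum_cons]
    have e : (fun n => aR (a :: L) n * mon s n) =
        fun n => (a.l : ℂ) * conj a.e * (mon s n * a.w ^ (2 * n + 1)) + aR L n * mon s n := by
      funext n
      simp only [aR, List.map_cons, List.sum_cons]
      ring
    rw [e]
    exact h2

theorem wi_hasSum_aL {s : ℕ → ℂ} (hs : ∀ i, ‖s i‖ ≤ 3 / 5) {L : List Atom}
    (hL : ∀ a ∈ L, a.OK) :
    HasSum (fun n => aL L n * mon s n)
      (L.map fun a => (a.l : ℂ) * conj a.e * half s (conj a.w)).sum := by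
  induction L with
  | nil => simp [aL]
  | cons a L ih =>
    have ha := hL a List.mem_cons_self
    have ih' := ih (fun b hb => hL b (List.mem_cons_of_mem _ hb))
    have hw : ‖conj a.w‖ = 1 := by rw [Complex.norm_conj]; exact ha.1
    have h1 := ((wi_summable_mon hs hw).hasSum).mul_left ((a.l : ℂ) * conj a.e)
    have h2 := h1.add ih'
    simp only [List.map_cons, List.sum_cons]
    have e : (fun n => aL (a :: L) n * mon s n) =
        fun n => (a.l : ℂ) * conj a.e * (mon s n * conj a.w ^ (2 * n + 1)) + aL L n * mon s n := by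
      funext n
      simp only [aL, List.map_cons, List.sum_cons]
      ring
    rw [e]
    exact h2

theorem wi_atom {K2 : ℝ} {a : Atom} (hl : 0 ≤ a.l) {z : ℂ} (hz : ‖z‖ ^ 2 ≤ K2) :
    2 * ((a.l : ℂ) * conj a.e * z).re - a.l * (‖a.e‖ ^ 2 + K2) ≤ 0 := by
  have h1 : ((a.l : ℂ) * conj a.e * z).re = a.l * (conj a.e * z).re := by
    rw [mul_assoc, Complex.re_ofReal_mul]
  have h2 : (conj a.e * z).re ≤ ‖a.e‖ * ‖z‖ := by
    calc (conj a.e * z).re ≤ ‖conj a.e * z‖ := Complex.re_le_norm _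
      _ = ‖a.e‖ * ‖z‖ := by rw [norm_mul, Complex.norm_conj]
  rw [h1]
  have h3 : 2 * (conj a.e * z).re ≤ ‖a.e‖ ^ 2 + K2 := by
    nlinarith [sq_nonneg (‖a.e‖ - ‖z‖)]
  nlinarith

theorem wi_list {K2 : ℝ} {L : List Atom} (hL : ∀ a ∈ L, a.OK) {x y : Atom → ℂ}
    (hz : ∀ a ∈ L, ‖x a + y a‖ ^ 2 ≤ K2) :
    2 * ((L.map fun a => (a.l : ℂ) * conj a.e * x a).sum +
      (L.map fun a => (a.l : ℂ) * conj a.e * y a).sum).re
      - (L.map fun a => a.l * (‖a.e‖ ^ 2 + K2)).sum ≤ 0 := by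
  induction L with
  | nil => simp
  | cons a L ih =>
    have ha := hL a List.mem_cons_self
    have ih' := ih (fun b hb => hL b (List.mem_cons_of_mem _ hb))
      (fun b hb => hz b (List.mem_cons_of_mem _ hb))
    have h1 := wi_atom ha.2 (hz a List.mem_cons_self)
    rw [mul_add, Complex.add_re] at h1
    simp only [List.map_cons, List.sum_cons, Complex.add_re] at ih' ⊢
    linarith

theorem wi_pc_hasSum : HasSum pc PT := by
  have h1 : HasSum (fun l : ℕ => pc (l + 3)) (1 / 40) := by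
    have h2 := (hasSum_geometric_of_lt_one (r := (1 / 2 : ℝ)) (by norm_num) (by norm_num)).mul_left
      (1 / 80 : ℝ)
    have e : (fun l : ℕ => pc (l + 3)) = fun l : ℕ => (1 / 80 : ℝ) * (1 / 2) ^ l := by
      funext l
      simp only [pc]
      rw [pow_add, one_div_pow]
      field_simp
      norm_num
    rw [e]
    have h3 : (1 / 80 : ℝ) * (1 - 1 / 2)⁻¹ = 1 / 40 := by norm_num
    rw [h3] at h2
    exact h2
  rw [hasSum_nat_add_iff] at h1
  have h4 : (1 / 40 : ℝ) + ∑ i ∈ Finset.range 3, pc i = PT := by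
    simp only [Finset.sum_range_succ, Finset.sum_range_zero, pc, PT]
    norm_num
  rw [h4] at h1
  exact h1

theorem wi_pc_nonneg (l : ℕ) : 0 ≤ pc l := by
  match l with
  | 0 => simp [pc]
  | 1 => simp only [pc]; norm_num
  | 2 => simp only [pc]; norm_num
  | (l + 3) => simp only [pc]; positivity

theorem wi_norm_shp (z : ℂ) : ‖shp z‖ = ‖z‖ := by
  rw [Complex.norm_def, Complex.norm_def, Complex.normSq_apply, Complex.normSq_apply]
  simp only [shp, abs_mul_abs_self]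

theorem wi_shp_conj (z : ℂ) : shp (conj z) = shp z := by
  simp [shp]

theorem wi_dist_le {x y : ℂ} (hx : ‖x‖ ≤ 3 / 5) (hy : ‖y‖ ≤ 3 / 5) : ‖x - y‖ ≤ 6 / 5 := by
  refine (norm_sub_le x y).trans ?_
  linarith

theorem wi_summable_pc {f : ℕ → ℝ} (h0 : ∀ l, 0 ≤ f l) (h : ∀ l, f l ≤ 6 / 5) :
    Summable fun l => pc l * f l ^ 2 := by
  refine Summable.of_nonneg_of_le (fun l => mul_nonneg (wi_pc_nonneg l) (sq_nonneg _)) (fun l => ?_)
    (wi_pc_hasSum.summable.mul_right ((6 / 5 : ℝ) ^ 2))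
  exact mul_le_mul_of_nonneg_left (pow_le_pow_left₀ (h0 l) (h l) 2) (wi_pc_nonneg l)

theorem wi_summable_B {B : ℕ → ℂ} (hB : Summable fun l => ‖B l‖) {f : ℕ → ℂ}
    (h : ∀ l, ‖f l‖ ≤ 6 / 5) : Summable fun l => B l * f l := by
  refine Summable.of_norm_bounded (g := fun l => ‖B l‖ * (6 / 5)) (hB.mul_right _) (fun l => ?_)
  rw [norm_mul]
  exact mul_le_mul_of_nonneg_left (h l) (norm_nonneg _)

theorem wi_shift {E : Type*} [NormedAddCommGroup E] [CompleteSpace E] {f : ℕ → E}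
    (hf : Summable f) (h0 : f 0 = 0) : ∑' l, f l = ∑' l, f (l + 1) := by
  have := hf.sum_add_tsum_nat_add 1
  simpa [h0] using this.symm

theorem wi_mon_one (s : ℕ → ℂ) : mon s 1 = s 0 := by
  simp [mon]

theorem wi_mon_zero (s : ℕ → ℂ) : mon s 0 = 1 := by
  simp [mon]

theorem wi_split {α : ℕ → ℂ} {s : ℕ → ℂ} {S : ℂ} (h : HasSum (fun n => α n * mon s n) S) :
    S = α 0 + α 1 * s 0 + ∑' n, α (n + 2) * mon s (n + 2) := by
  have := h.summable.sum_add_tsum_nat_add 2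
  rw [h.tsum_eq] at this
  rw [← this]
  simp [Finset.sum_range_succ, wi_mon_one, wi_mon_zero]

theorem wi_pot1 {q : ℤ → ℂ} (hX : ∀ i, ‖q i‖ ≤ 3 / 5) (j : ℤ) :
    (∑' l : ℕ, pc l * (‖q (j + l + 1) - q (j + l)‖ ^ 2 + ‖q (j - l + 1) - q (j - l)‖ ^ 2
      - 2 * ‖q (j + 1) - q j‖ ^ 2)) =
      (∑' l : ℕ, pc (l + 1) * ‖rt q j (l + 1) - rt q j l‖ ^ 2) +
      (∑' l : ℕ, pc (l + 1) * ‖lf q j (l + 1) - lf q j l‖ ^ 2) -
        PT * (2 * ‖q (j + 1) - q j‖ ^ 2) := by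
  have d1 : ∀ l : ℕ, ‖q (j + l + 1) - q (j + l)‖ ≤ 6 / 5 := fun l => wi_dist_le (hX _) (hX _)
  have d2 : ∀ l : ℕ, ‖q (j - l + 1) - q (j - l)‖ ≤ 6 / 5 := fun l => wi_dist_le (hX _) (hX _)
  have s1 := wi_summable_pc (fun l => norm_nonneg (q (j + l + 1) - q (j + l))) d1
  have s2 := wi_summable_pc (fun l => norm_nonneg (q (j - l + 1) - q (j - l))) d2
  have e1 : (∑' l : ℕ, pc l * (‖q (j + l + 1) - q (j + l)‖ ^ 2 + ‖q (j - l + 1) - q (j - l)‖ ^ 2
      - 2 * ‖q (j + 1) - q j‖ ^ 2)) =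
      (∑' l : ℕ, pc l * ‖q (j + l + 1) - q (j + l)‖ ^ 2) +
      (∑' l : ℕ, pc l * ‖q (j - l + 1) - q (j - l)‖ ^ 2) - PT * (2 * ‖q (j + 1) - q j‖ ^ 2) := by
    have h := (s1.hasSum.add s2.hasSum).sub (wi_pc_hasSum.mul_right (2 * ‖q (j + 1) - q j‖ ^ 2))
    rw [← h.tsum_eq]
    refine tsum_congr fun l => ?_
    ring
  have t1 : ∑' l : ℕ, pc l * ‖q (j + l + 1) - q (j + l)‖ ^ 2 =
      ∑' l : ℕ, pc (l + 1) * ‖rt q j (l + 1) - rt q j l‖ ^ 2 := by
    rw [wi_shift s1 (by simp [pc])]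
    refine tsum_congr fun l => ?_
    have a1 : j + ((l + 1 : ℕ) : ℤ) + 1 = j + 1 + ((l + 1 : ℕ) : ℤ) := by ring
    have a2 : j + ((l + 1 : ℕ) : ℤ) = j + 1 + (l : ℤ) := by push_cast; ring
    simp only [rt]
    rw [a1, a2]
  have t2 : ∑' l : ℕ, pc l * ‖q (j - l + 1) - q (j - l)‖ ^ 2 =
      ∑' l : ℕ, pc (l + 1) * ‖lf q j (l + 1) - lf q j l‖ ^ 2 := by
    rw [wi_shift s2 (by simp [pc])]
    refine tsum_congr fun l => ?_
    have a1 : j - ((l + 1 : ℕ) : ℤ) + 1 = j - (l : ℤ) := by push_cast; ring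
    simp only [lf]
    rw [a1, norm_sub_rev]
  rw [e1, t1, t2]

theorem wi_pot2 {q : ℤ → ℂ} {B : ℕ → ℂ} (hX : ∀ i, ‖q i‖ ≤ 3 / 5)
    (hB : Summable fun l => ‖B l‖) (j : ℤ) :
    (∑' l : ℕ, B l * ((shp (q (j + l + 1)) - shp (q (j + l)))
      - (shp (q (j - l + 1)) - shp (q (j - l))))) =
      (∑' l : ℕ, B (l + 1) * (shp (rt q j (l + 1)) - shp (rt q j l))) +
      (∑' l : ℕ, B (l + 1) * (shp (lf q j (l + 1)) - shp (lf q j l))) := by
  have hS : ∀ i, ‖shp (q i)‖ ≤ 3 / 5 := fun i => by rw [wi_norm_shp]; exact hX i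
  have f1 : ∀ l : ℕ, ‖shp (q (j + l + 1)) - shp (q (j + l))‖ ≤ 6 / 5 := fun l =>
    wi_dist_le (hS _) (hS _)
  have f2 : ∀ l : ℕ, ‖shp (q (j - l + 1)) - shp (q (j - l))‖ ≤ 6 / 5 := fun l =>
    wi_dist_le (hS _) (hS _)
  have u := (wi_summable_B hB f1).sub (wi_summable_B hB f2)
  have hB1 : Summable fun l => ‖B (l + 1)‖ := (summable_nat_add_iff 1).2 hB
  have v1 : Summable fun l : ℕ => B (l + 1) * (shp (rt q j (l + 1)) - shp (rt q j l)) :=
    wi_summable_B (B := fun l => B (l + 1)) hB1 fun l => wi_dist_le (hS _) (hS _)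
  have v2 : Summable fun l : ℕ => B (l + 1) * (shp (lf q j (l + 1)) - shp (lf q j l)) :=
    wi_summable_B (B := fun l => B (l + 1)) hB1 fun l => wi_dist_le (hS _) (hS _)
  have g1 : (∑' l : ℕ, B l * ((shp (q (j + l + 1)) - shp (q (j + l)))
      - (shp (q (j - l + 1)) - shp (q (j - l))))) =
      ∑' l : ℕ, (B l * (shp (q (j + l + 1)) - shp (q (j + l)))
      - B l * (shp (q (j - l + 1)) - shp (q (j - l)))) := by
    refine tsum_congr fun l => ?_
    rw [mul_sub]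
  have h0 : B 0 * (shp (q (j + (0 : ℕ) + 1)) - shp (q (j + (0 : ℕ))))
      - B 0 * (shp (q (j - (0 : ℕ) + 1)) - shp (q (j - (0 : ℕ)))) = 0 := by
    simp
  rw [g1, wi_shift u h0, ← v1.tsum_add v2]
  refine tsum_congr fun l => ?_
  have a1 : j + ((l + 1 : ℕ) : ℤ) + 1 = j + 1 + ((l + 1 : ℕ) : ℤ) := by ring
  have a2 : j + ((l + 1 : ℕ) : ℤ) = j + 1 + (l : ℤ) := by push_cast; ring
  have a3 : j - ((l + 1 : ℕ) : ℤ) + 1 = j - (l : ℤ) := by push_cast; ring
  simp only [rt, lf]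
  rw [a1, a2, a3]
  ring

theorem wi_cert {K K2 : ℝ} {q : ℤ → ℂ} (hC : BiChain K q)
    (hK2 : K ^ 2 ≤ K2) (hX : ∀ i, ‖q i‖ ≤ 3 / 5) {L : List Atom}
    (hL : ∀ a ∈ L, a.OK) (j : ℤ) :
    2 * ((aR L 0 + aR L 1 * q (j + 1) + ∑' n, aR L (n + 2) * mon (rt q j) (n + 2)) +
      (aL L 0 + aL L 1 * q j + ∑' n, aL L (n + 2) * mon (lf q j) (n + 2))).re
      - (L.map fun a => a.l * (‖a.e‖ ^ 2 + K2)).sum ≤ 0 := by
  have hr : ∀ i, ‖rt q j i‖ ≤ 3 / 5 := fun i => hX _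
  have hl : ∀ i, ‖lf q j i‖ ≤ 3 / 5 := fun i => hX _
  have hW : ∀ a ∈ L, ‖half (rt q j) a.w + half (lf q j) (conj a.w)‖ ^ 2 ≤ K2 := by
    intro a ha
    have h1 := hC.bound j a.w (hL a ha).1
    unfold Win at h1
    exact (pow_le_pow_left₀ (norm_nonneg _) h1 2).trans hK2
  have h1 := wi_list hL hW
  rw [wi_split (wi_hasSum_aR hr hL), wi_split (wi_hasSum_aL hl hL)] at h1
  have hr0 : rt q j 0 = q (j + 1) := by simp [rt]
  have hl0 : lf q j 0 = q j := by simp [lf]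
  rw [hr0, hl0] at h1
  exact h1

theorem G_ge {K K2 : ℝ} {q : ℤ → ℂ} {B : ℕ → ℂ} (hC : BiChain K q) (hK0 : 0 ≤ K)
    (hK2 : K ^ 2 ≤ K2) (hX : ∀ i, ‖q i‖ ≤ 3 / 5) (hB : Summable fun l => ‖B l‖) {L : List Atom}
    (hL : ∀ a ∈ L, a.OK) (j : ℤ) :
    c0 K2 L + 2 * (aR L 1 * q (j + 1)).re + 2 * (aL L 1 * q j).re
      - 2 * PT * ‖q (j + 1) - q j‖ ^ 2 + Rs B (aR L) (rt q j) + Rs B (aL L) (lf q j)
      ≤ G B q j := by
  have h1 := wi_cert hC hK2 hX hL j
  unfold G Rs c0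
  rw [wi_pot1 hX j, wi_pot2 hX hB j]
  generalize (∑' l : ℕ, pc (l + 1) * ‖rt q j (l + 1) - rt q j l‖ ^ 2) = X1
  generalize (∑' l : ℕ, pc (l + 1) * ‖lf q j (l + 1) - lf q j l‖ ^ 2) = X2
  generalize (∑' l : ℕ, B (l + 1) * (shp (rt q j (l + 1)) - shp (rt q j l))) = Y1
  generalize (∑' l : ℕ, B (l + 1) * (shp (lf q j (l + 1)) - shp (lf q j l))) = Y2
  generalize (∑' n : ℕ, aR L (n + 2) * mon (rt q j) (n + 2)) = Z1 at h1 ⊢
  generalize (∑' n : ℕ, aL L (n + 2) * mon (lf q j) (n + 2)) = Z2 at h1 ⊢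
  generalize (L.map fun a => a.l * (‖a.e‖ ^ 2 + K2)).sum = V at h1 ⊢
  generalize ‖q (j + 1) - q j‖ ^ 2 = D
  generalize aR L 1 * q (j + 1) = R1 at h1 ⊢
  generalize aL L 1 * q j = R2 at h1 ⊢
  simp only [Complex.add_re] at h1 ⊢
  linarith

/-! ### symmetries -/

theorem wi_mon_conj (s : ℕ → ℂ) (n : ℕ) : mon (fun i => conj (s i)) n = conj (mon s n) := by
  unfold mon
  rw [map_prod]
  refine Finset.prod_congr rfl fun i _ => ?_
  rw [map_pow]

theorem wi_half_conj (s : ℕ → ℂ) (w : ℂ) : half (fun i => conj (s i)) w = conj (half s (conj w)) := by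
  unfold half
  rw [Complex.conj_tsum]
  refine tsum_congr fun n => ?_
  rw [wi_mon_conj, map_mul, map_pow, Complex.conj_conj]

/-- complex conjugation -/
theorem BiChain.conj {K : ℝ} {q : ℤ → ℂ} (h : BiChain K q) : BiChain K (fun i => conj (q i)) := by
  refine ⟨fun j w hw => ?_, fun j => ?_⟩
  · have h1 := h.bound j (starRingEnd ℂ w) (by rw [Complex.norm_conj]; exact hw)
    have e : Win (fun i => starRingEnd ℂ (q i)) j w =
        starRingEnd ℂ (Win q j (starRingEnd ℂ w)) := by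
      unfold Win
      have e1 : rt (fun i => starRingEnd ℂ (q i)) j = fun i => starRingEnd ℂ (rt q j i) := rfl
      have e2 : lf (fun i => starRingEnd ℂ (q i)) j = fun i => starRingEnd ℂ (lf q j i) := rfl
      rw [e1, e2, wi_half_conj, wi_half_conj, map_add]
    rw [e, Complex.norm_conj]
    exact h1
  · simp only [Complex.norm_conj]
    exact h.pars j

theorem G_conj (B : ℕ → ℂ) (q : ℤ → ℂ) (j : ℤ) : G B (fun i => conj (q i)) j = G B q j := by
  unfold G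
  have e : ∀ x y : ℂ, ‖starRingEnd ℂ x - starRingEnd ℂ y‖ = ‖x - y‖ := by
    intro x y
    rw [← map_sub, Complex.norm_conj]
  simp only [e, wi_shp_conj]

/-- reversal: window `j` of `fun i => q (2 * j + 1 - i)` is the reversed window `j` of `q` -/
theorem BiChain.rev {K : ℝ} {q : ℤ → ℂ} (h : BiChain K q) (j : ℤ) :
    BiChain K (fun i => q (2 * j + 1 - i)) := by
  refine ⟨fun m w hw => ?_, fun m => ?_⟩
  · have h1 := h.bound (2 * j - m) (starRingEnd ℂ w) (by rw [Complex.norm_conj]; exact hw)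
    have e : Win (fun i => q (2 * j + 1 - i)) m w = Win q (2 * j - m) (starRingEnd ℂ w) := by
      unfold Win
      have e1 : rt (fun i => q (2 * j + 1 - i)) m = lf q (2 * j - m) := by
        funext i
        simp only [rt, lf]
        congr 1
        ring
      have e2 : lf (fun i => q (2 * j + 1 - i)) m = rt q (2 * j - m) := by
        funext i
        simp only [rt, lf]
        congr 1
        ring
      rw [e1, e2, Complex.conj_conj, add_comm]
    rw [e]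
    exact h1
  · have h1 := h.pars (2 * j - m)
    have a1 : 2 * j - m + 1 = 2 * j + 1 - m := by ring
    have a2 : 2 * j + 1 - (m + 1) = 2 * j - m := by ring
    rw [a1] at h1
    simp only [a2]
    linarith

theorem G_rev (B : ℕ → ℂ) (q : ℤ → ℂ) (j : ℤ) : G B (fun i => q (2 * j + 1 - i)) j = G B q j := by
  unfold G
  have a1 : ∀ l : ℤ, 2 * j + 1 - (j + l + 1) = j - l := fun l => by ring
  have a2 : ∀ l : ℤ, 2 * j + 1 - (j + l) = j - l + 1 := fun l => by ring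
  have a3 : ∀ l : ℤ, 2 * j + 1 - (j - l + 1) = j + l := fun l => by ring
  have a4 : ∀ l : ℤ, 2 * j + 1 - (j - l) = j + l + 1 := fun l => by ring
  have a5 : 2 * j + 1 - (j + 1) = j := by ring
  have a6 : 2 * j + 1 - j = j + 1 := by ring
  simp only [a5, a6]
  simp only [a1, a2, a3, a4]
  congr 1
  · refine tsum_congr fun l => ?_
    rw [norm_sub_rev (q (j - l)) (q (j - l + 1)), norm_sub_rev (q (j + l)) (q (j + l + 1)),
      norm_sub_rev (q j) (q (j + 1)), add_comm (‖q (j - l + 1) - q (j - l)‖ ^ 2)]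
  · congr 2
    refine tsum_congr fun l => ?_
    ring

end MaxTerm.PA
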