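import Pool.Agent.MaxTerm.PartA.ChkSound2
import Pool.Agent.MaxTerm.PartA.WinId

/-!
# Part A, soundness of the checker III: boxes and trees
-/

open ComplexConjugate

namespace MaxTerm.PA.Chk

/-- `(u, v)` belongs to the box -/
structure Box.Mem (u v : ℂ) (b : Box) : Prop where
  ux : |u.re - rv b.ux| ≤ rv b.hux
  uy : |u.im - rv b.uy| ≤ rv b.huy
  vx : |v.re - rv b.vx| ≤ rv b.hvx
  vy : |v.im - rv b.vy| ≤ rv b.hvy

/-- the half widths are non-negative (holds for the root boxes and is inherited) -/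
structure Box.Pos (b : Box) : Prop where
  ux : 0 ≤ b.hux
  uy : 0 ≤ b.huy
  vx : 0 ≤ b.hvx
  vy : 0 ≤ b.hvy

theorem cs3_rv_mul (n x : Int) : rv (Int.mul n x) = n * rv x := by
  unfold rv
  have : Int.mul n x = n * x := rfl
  rw [this]
  push_cast
  ring

theorem cs3_rv_mono {a b : Int} (h : a ≤ b) : rv a ≤ rv b := by
  unfold rv
  have : (a : ℝ) ≤ b := by exact_mod_cast h
  gcongr

theorem cs3_rv_nonneg {a : Int} (h : 0 ≤ a) : 0 ≤ rv a := by
  unfold rv
  have : (0 : ℝ) ≤ a := by exact_mod_cast h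
  positivity

theorem cs3_abs_rv (a : Int) : rv (absI a) = |rv a| := by
  rw [absI_eq]
  unfold rv
  rw [abs_div, abs_of_pos (by positivity : (0 : ℝ) < 2 ^ 40)]
  push_cast
  rfl

/-- rounded division by a positive integer -/
theorem cs3_ediv (x : Int) {n : Int} (hn : 0 < n) :
    rv (Int.ediv x n) ≤ rv x / n ∧ rv x / n ≤ rv (Int.ediv x n) + 1 / 2 ^ 40 := by
  have h1 : Int.ediv x n = x / n := rfl
  have h2 : (x / n) * n ≤ x := Int.ediv_mul_le x hn.ne'
  have h3 : x < (x / n + 1) * n := Int.lt_ediv_add_one_mul_self x hn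
  have hn' : (0 : ℝ) < n := by exact_mod_cast hn
  have h2' : ((x / n : ℤ) : ℝ) * n ≤ x := by exact_mod_cast h2
  have h3' : (x : ℝ) < (((x / n : ℤ) : ℝ) + 1) * n := by exact_mod_cast h3
  unfold rv
  rw [h1]
  constructor
  · rw [div_div, div_le_div_iff₀ (by positivity) (by positivity)]
    nlinarith
  · rw [div_div, ← add_div, div_le_div_iff₀ (by positivity) (by positivity)]
    nlinarith

/-- cost of a linear term -/
theorem cs3_lin {c η : ℂ} {a : CB} (hc : CB.Mem c a) {hx hy : Int} (hx' : |η.re| ≤ rv hx)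
    (hy' : |η.im| ≤ rv hy) : -(rv (linCost a hx hy)) ≤ (c * η).re := by
  have h1 := hc.abs_re_le
  have h2 := hc.abs_im_le
  have h3 : rv (Int.add (absI a.re) a.rad) * rv hx ≤ rv (mulU (Int.add (absI a.re) a.rad) hx) := rv_mul_le_mulU
  have h4 : rv (Int.add (absI a.im) a.rad) * rv hy ≤ rv (mulU (Int.add (absI a.im) a.rad) hy) := rv_mul_le_mulU
  unfold linCost
  rw [rv_add, Complex.mul_re]
  have h5 : |c.re * η.re| ≤ rv (Int.add (absI a.re) a.rad) * rv hx := by
    rw [abs_mul]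
    exact mul_le_mul h1 hx' (abs_nonneg _) ((abs_nonneg _).trans h1)
  have h6 : |c.im * η.im| ≤ rv (Int.add (absI a.im) a.rad) * rv hy := by
    rw [abs_mul]
    exact mul_le_mul h2 hy' (abs_nonneg _) ((abs_nonneg _).trans h2)
  have h7 := (abs_le.1 h5).1
  have h8 := (abs_le.1 h6).2
  linarith

/-- the ball of `37/10 conj d` -/
theorem cs3_C (dx dy : Int) : CB.Mem (⟨37 / 10 * rv dx, -(37 / 10 * rv dy)⟩ : ℂ)
    ⟨Int.ediv (Int.mul 37 dx) 10, Int.ediv (Int.mul (-37) dy) 10, 2⟩ := by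
  have h1 := cs3_ediv (Int.mul 37 dx) (n := 10) (by norm_num)
  have h2 := cs3_ediv (Int.mul (-37) dy) (n := 10) (by norm_num)
  rw [cs3_rv_mul] at h1 h2
  push_cast at h1 h2
  unfold CB.Mem
  have e1 : ((⟨37 / 10 * rv dx, -(37 / 10 * rv dy)⟩ : ℂ) -
      CB.mid ⟨Int.ediv (Int.mul 37 dx) 10, Int.ediv (Int.mul (-37) dy) 10, 2⟩).re =
      37 / 10 * rv dx - rv (Int.ediv (Int.mul 37 dx) 10) := by
    simp [CB.mid]
  have e2 : ((⟨37 / 10 * rv dx, -(37 / 10 * rv dy)⟩ : ℂ) -
      CB.mid ⟨Int.ediv (Int.mul 37 dx) 10, Int.ediv (Int.mul (-37) dy) 10, 2⟩).im =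
      -(37 / 10 * rv dy) - rv (Int.ediv (Int.mul (-37) dy) 10) := by
    simp [CB.mid]
  refine (Complex.norm_le_abs_re_add_abs_im _).trans ?_
  rw [e1, e2]
  have h3 : rv (2 : Int) = 1 / 2 ^ 40 + 1 / 2 ^ 40 := by
    unfold rv
    push_cast
    ring
  show _ ≤ rv 2
  rw [h3]
  refine add_le_add ?_ ?_
  · rw [abs_le]
    constructor <;> linarith [h1.1, h1.2]
  · rw [abs_le]
    constructor <;> linarith [h2.1, h2.2]

/-- upper bound of a sum of squares -/
theorem cs3_sq (a b c d : Int) : rv a ^ 2 + rv b ^ 2 + (rv c ^ 2 + rv d ^ 2) ≤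
    rv (Int.add (shr (Int.add (Int.add (Int.mul a a) (Int.mul b b))
      (Int.add (Int.mul c c) (Int.mul d d)))) 1) := by
  have h1 := (shr_le (Int.add (Int.add (Int.mul a a) (Int.mul b b)) (Int.add (Int.mul c c) (Int.mul d d)))).2
  have h2 : ((Int.add (Int.add (Int.mul a a) (Int.mul b b)) (Int.add (Int.mul c c) (Int.mul d d)) : Int) : ℝ) =
      (a : ℝ) ^ 2 + (b : ℝ) ^ 2 + ((c : ℝ) ^ 2 + (d : ℝ) ^ 2) := by
    have : (Int.add (Int.add (Int.mul a a) (Int.mul b b)) (Int.add (Int.mul c c) (Int.mul d d)) : Int) =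
      a ^ 2 + b ^ 2 + (c ^ 2 + d ^ 2) := by
      change a * a + b * b + (c * c + d * d) = _
      ring
    rw [this]
    push_cast
    ring
  rw [h2] at h1
  rw [rv_add]
  unfold rv
  have h3 : (a : ℝ) ^ 2 + (b : ℝ) ^ 2 + ((c : ℝ) ^ 2 + (d : ℝ) ^ 2) <
      ((shr (Int.add (Int.add (Int.mul a a) (Int.mul b b)) (Int.add (Int.mul c c) (Int.mul d d))) : ℝ) + 1) * 2 ^ 40 := by
    rwa [div_lt_iff₀ (by positivity)] at h1
  have h4 : ((a : ℝ) / 2 ^ 40) ^ 2 + ((b : ℝ) / 2 ^ 40) ^ 2 + (((c : ℝ) / 2 ^ 40) ^ 2 + ((d : ℝ) / 2 ^ 40) ^ 2) =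
      ((a : ℝ) ^ 2 + (b : ℝ) ^ 2 + ((c : ℝ) ^ 2 + (d : ℝ) ^ 2)) / 2 ^ 80 := by
    ring
  rw [h4, div_le_iff₀ (by positivity)]
  push_cast
  have h5 : (((shr (Int.add (Int.add (Int.mul a a) (Int.mul b b)) (Int.add (Int.mul c c) (Int.mul d d))) : ℤ) : ℝ) / 2 ^ 40 + 1 / 2 ^ 40) * 2 ^ 80 =
      (((shr (Int.add (Int.add (Int.mul a a) (Int.mul b b)) (Int.add (Int.mul c c) (Int.mul d d))) : ℤ) : ℝ) + 1) * 2 ^ 40 := by
    ring
  rw [h5]
  exact h3.le

theorem cs3_summable {B : ℕ → ℂ} (hB : BOK B) : Summable fun l => ‖B l‖ := by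
  rw [← summable_nat_add_iff 4]
  refine Summable.of_nonneg_of_le (fun l => norm_nonneg _) (fun l => ?_)
    (((summable_geometric_of_lt_one (r := (1 / 8 : ℝ)) (by norm_num) (by norm_num)).mul_left (1 / 10 ^ 7)))
  have h1 := hB.rest (l + 4) (by omega)
  rw [Nat.add_sub_cancel] at h1
  refine h1.trans (le_of_eq ?_)
  rw [one_div_pow]
  ring

theorem cs3_tot (X V U c Y A B : Int) : rv (Int.add (Int.add (Int.mul 2 X) (Int.add V U))
    (Int.neg (Int.add (Int.add c (Int.add Y 1)) (Int.add A B)))) =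
    2 * rv X + (rv V + rv U) - (rv c + (rv Y + rv 1) + (rv A + rv B)) := by
  rw [rv_add, rv_neg, rv_add, rv_add, rv_add, rv_add, rv_add, rv_add, cs3_rv_mul]
  push_cast
  ring

theorem boxOK_sound {K : ℝ} {q : ℤ → ℂ} {B : ℕ → ℂ} (hC : BiChain K q) (hK0 : 0 ≤ K)
    (hK : K ^ 2 ≤ 2.921267) (hX : ∀ i, ‖q i‖ ≤ 3 / 5) (hB : BOK B) {L : List At} {mv mu : ℕ}
    {b : Box} (hb : b.Pos) (h : boxOK L mv mu b = true) {j : ℤ} (hm : b.Mem (q j) (q (j + 1))) :
    1 / 2 ^ 40 ≤ G B q j := by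
  have MO := moments_sound L
  set m := moments L with hmdef
  set L' := L.map At.real with hL'
  have hOK : ∀ a ∈ L', a.OK := by
    intro a ha
    rw [hL', List.mem_map] at ha
    obtain ⟨a', -, rfl⟩ := ha
    exact At.real_OK a'
  unfold boxOK at h
  rw [← hmdef] at h
  dsimp only at h
  rcases hsv : side mv m.a1 m.a2 m.a3 m.a4 m.A b.vx b.vy b.hvx b.hvy with _ | sv
  · rw [hsv] at h
    exact absurd h (by simp)
  rw [hsv] at h
  dsimp only at h
  rcases hsu : side mu m.b1 m.b2 m.b3 m.b4 m.A b.ux b.uy b.hux b.huy with _ | su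
  · rw [hsu] at h
    exact absurd h (by simp)
  rw [hsu] at h
  dsimp only at h
  rw [isPos_iff] at h
  have hr0 : rt q j 0 = q (j + 1) := by simp [rt]
  have hl0 : lf q j 0 = q j := by simp [lf]
  obtain ⟨cv, hcv, hv⟩ := side_sound (α := aR L') (s := rt q j) hB (fun i => hX _) hsv hb.vx hb.vy
    MO.a1 MO.a2 MO.a3 MO.a4 (fun n _ => (norm_aR_le hOK n).trans MO.A)
    (by rw [hr0]; exact hm.vx) (by rw [hr0]; exact hm.vy)
  obtain ⟨cu, hcu, hu⟩ := side_sound (α := aL L') (s := lf q j) hB (fun i => hX _) hsu hb.ux hb.uy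
    MO.b1 MO.b2 MO.b3 MO.b4 (fun n _ => (norm_aL_le hOK n).trans MO.A)
    (by rw [hl0]; exact hm.ux) (by rw [hl0]; exact hm.uy)
  rw [hr0] at hv
  rw [hl0] at hu
  have hG := G_ge hC hK0 (hK.trans K2r_ge) hX (cs3_summable hB) hOK j
  refine le_trans ?_ hG
  -- constant part
  have hc0 : 2 * rv (Int.add (Int.add m.a0.re m.b0.re) (Int.neg (Int.add m.a0.rad m.b0.rad))) - rv m.cst ≤ c0 K2r L' := by
    unfold c0
    rw [MO.cst]
    have h1 := (MO.a0.add MO.b0).re_ge
    have h2 : rv (Int.add (Int.add m.a0.re m.b0.re) (Int.neg (Int.add m.a0.rad m.b0.rad))) ≤ (aR L' 0 + aL L' 0).re := h1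
    linarith
  -- the quadratic part
  set η : ℂ := q (j + 1) - ⟨rv b.vx, rv b.vy⟩ with hη
  set ξ : ℂ := q j - ⟨rv b.ux, rv b.uy⟩ with hξ
  have hη1 : |η.re| ≤ rv b.hvx := by
    have := hm.vx
    simpa [hη] using this
  have hη2 : |η.im| ≤ rv b.hvy := by
    have := hm.vy
    simpa [hη] using this
  have hξ1 : |ξ.re| ≤ rv b.hux := by
    have := hm.ux
    simpa [hξ] using this
  have hξ2 : |ξ.im| ≤ rv b.huy := by
    have := hm.uy
    simpa [hξ] using this
  set dx := Int.add b.vx (Int.neg b.ux) with hdx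
  set dy := Int.add b.vy (Int.neg b.uy) with hdy
  set sx := Int.add b.hux b.hvx with hsx
  set sy := Int.add b.huy b.hvy with hsy
  set dd := Int.add (shr (Int.add (Int.add (Int.mul dx dx) (Int.mul dy dy))
    (Int.add (Int.mul sx sx) (Int.mul sy sy)))) 1 with hdd
  set Cc : ℂ := ⟨37 / 10 * rv dx, -(37 / 10 * rv dy)⟩ with hCc
  set CBc : CB := ⟨Int.ediv (Int.mul 37 dx) 10, Int.ediv (Int.mul (-37) dy) 10, 2⟩ with hCB
  have hCm : CB.Mem Cc CBc := cs3_C dx dy
  have hlv := cs3_lin (hcv.sub hCm) hη1 hη2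
  have hlu := cs3_lin (hcu.add hCm) hξ1 hξ2
  have hsq := cs3_sq dx dy sx sy
  rw [← hdd] at hsq
  have hrdx : rv dx = rv b.vx - rv b.ux := by rw [hdx, rv_add, rv_neg]; ring
  have hrdy : rv dy = rv b.vy - rv b.uy := by rw [hdy, rv_add, rv_neg]; ring
  have hrsx : rv sx = rv b.hux + rv b.hvx := by rw [hsx, rv_add]
  have hrsy : rv sy = rv b.huy + rv b.hvy := by rw [hsy, rv_add]
  have hquad : 37 / 20 * ‖q (j + 1) - q j‖ ^ 2 ≤ 37 / 20 * rv dd + (Cc * η).re - (Cc * ξ).re := by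
    have e1 : q (j + 1) - q j = ⟨rv dx + (η.re - ξ.re), rv dy + (η.im - ξ.im)⟩ := by
      apply Complex.ext
      · simp only [hη, hξ, hrdx, Complex.sub_re]
        ring
      · simp only [hη, hξ, hrdy, Complex.sub_im]
        ring
    have e2 : ‖q (j + 1) - q j‖ ^ 2 = (rv dx + (η.re - ξ.re)) ^ 2 + (rv dy + (η.im - ξ.im)) ^ 2 := by
      rw [e1, ← Complex.normSq_eq_norm_sq, Complex.normSq_mk]
      ring
    have e3 : (η.re - ξ.re) ^ 2 ≤ rv sx ^ 2 := by
      have : |η.re - ξ.re| ≤ rv sx := by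
        rw [hrsx]
        refine (abs_sub _ _).trans ?_
        linarith
      exact sq_le_sq' (abs_le.1 this).1 (abs_le.1 this).2
    have e4 : (η.im - ξ.im) ^ 2 ≤ rv sy ^ 2 := by
      have : |η.im - ξ.im| ≤ rv sy := by
        rw [hrsy]
        refine (abs_sub _ _).trans ?_
        linarith
      exact sq_le_sq' (abs_le.1 this).1 (abs_le.1 this).2
    rw [e2]
    simp only [hCc, Complex.mul_re]
    nlinarith
  -- the total
  have htot : 1 / 2 ^ 40 ≤ rv (total m b sv su) := by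
    unfold rv
    have h1 : (1 : ℝ) ≤ (total m b sv su : ℤ) := by exact_mod_cast h
    gcongr
  have htotal : rv (total m b sv su) =
      2 * rv (Int.add (Int.add m.a0.re m.b0.re) (Int.neg (Int.add m.a0.rad m.b0.rad))) + (rv sv.val + rv su.val)
      - (rv m.cst + (rv (Int.ediv (Int.mul 37 dd) 20) + rv 1) +
        (rv (linCost (CB.sub sv.lin CBc) b.hvx b.hvy) + rv (linCost (CB.add su.lin CBc) b.hux b.huy))) := by
    exact cs3_tot _ _ _ _ _ _ _
  have hdd2 := (cs3_ediv (Int.mul 37 dd) (n := 20) (by norm_num)).2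
  rw [cs3_rv_mul] at hdd2
  push_cast at hdd2
  have h1 : rv 1 = 1 / 2 ^ 40 := by
    unfold rv
    push_cast
    ring
  rw [h1] at htotal
  have hPT : 2 * PT = 37 / 20 := by
    unfold PT
    norm_num
  have ev : ((cv - Cc) * η).re = (cv * η).re - (Cc * η).re := by rw [sub_mul, Complex.sub_re]
  have eu : ((cu + Cc) * ξ).re = (cu * ξ).re + (Cc * ξ).re := by rw [add_mul, Complex.add_re]
  rw [ev] at hlv
  rw [eu] at hlu
  rw [hPT]
  linarith

/-- what a checked tree says -/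
def Good (b : Box) : Prop :=
  ∀ {K : ℝ} {q : ℤ → ℂ} {B : ℕ → ℂ}, BiChain K q → 0 ≤ K → K ^ 2 ≤ 2.921267 → (∀ i, Reg (q i)) →
    BOK B → ∀ j : ℤ, b.Mem (q j) (q (j + 1)) → 0 ≤ (q j).im + (q (j + 1)).im →
    0 ≤ (q (j + 1)).re - (q j).re → ¬ (Near (q j) ∧ Near (q (j + 1))) → 1 / 2 ^ 40 ≤ G B q j

theorem cs3_half {x : Int} (h : Nat.beq (Nat.mod (Int.natAbs x) 2) 0 = true) : rv (half x) = rv x / 2 := by
  have h1 : Int.natAbs x % 2 = 0 := Nat.eq_of_beq_eq_true h
  have h2 : x % 2 = 0 := by omega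
  have h3 : half x * 2 = x := by
    change x / 2 * 2 = x
    omega
  unfold rv
  have h4 : ((half x : ℤ) : ℝ) * 2 = x := by exact_mod_cast h3
  rw [← h4]
  ring

theorem cs3_half_nonneg {x : Int} (h : 0 ≤ x) : 0 ≤ half x := by
  change 0 ≤ x / 2
  omega

/-- a number in an interval lies in one of the two halves -/
theorem cs3_halves {x h : Int} (he : Nat.beq (Nat.mod (Int.natAbs h) 2) 0 = true) {t : ℝ} (ht : |t - rv x| ≤ rv h) :
    |t - rv (Int.add x (Int.neg (half h)))| ≤ rv (half h) ∨ |t - rv (Int.add x (half h))| ≤ rv (half h) := by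
  rw [rv_add, rv_add, rv_neg, cs3_half he]
  rw [abs_le] at ht
  rcases le_total t (rv x) with h1 | h1
  · left
    rw [abs_le]
    constructor <;> linarith [ht.1, ht.2]
  · right
    rw [abs_le]
    constructor <;> linarith [ht.1, ht.2]

theorem cs3_lo_pos {b : Box} (hb : b.Pos) (d : ℕ) : (b.lo d).Pos := by
  match d with
  | 0 => exact ⟨cs3_half_nonneg hb.ux, hb.uy, hb.vx, hb.vy⟩
  | 1 => exact ⟨hb.ux, cs3_half_nonneg hb.uy, hb.vx, hb.vy⟩
  | 2 => exact ⟨hb.ux, hb.uy, cs3_half_nonneg hb.vx, hb.vy⟩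
  | (n + 3) => exact ⟨hb.ux, hb.uy, hb.vx, cs3_half_nonneg hb.vy⟩

theorem cs3_hi_pos {b : Box} (hb : b.Pos) (d : ℕ) : (b.hi d).Pos := by
  match d with
  | 0 => exact ⟨cs3_half_nonneg hb.ux, hb.uy, hb.vx, hb.vy⟩
  | 1 => exact ⟨hb.ux, cs3_half_nonneg hb.uy, hb.vx, hb.vy⟩
  | 2 => exact ⟨hb.ux, hb.uy, cs3_half_nonneg hb.vx, hb.vy⟩
  | (n + 3) => exact ⟨hb.ux, hb.uy, hb.vx, cs3_half_nonneg hb.vy⟩

theorem cs3_mem {b : Box} {d : ℕ} (he : b.even d = true) {u v : ℂ} (h : b.Mem u v) :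
    (b.lo d).Mem u v ∨ (b.hi d).Mem u v := by
  match d with
  | 0 =>
    rcases cs3_halves he h.ux with h1 | h1
    · exact Or.inl ⟨h1, h.uy, h.vx, h.vy⟩
    · exact Or.inr ⟨h1, h.uy, h.vx, h.vy⟩
  | 1 =>
    rcases cs3_halves he h.uy with h1 | h1
    · exact Or.inl ⟨h.ux, h1, h.vx, h.vy⟩
    · exact Or.inr ⟨h.ux, h1, h.vx, h.vy⟩
  | 2 =>
    rcases cs3_halves he h.vx with h1 | h1
    · exact Or.inl ⟨h.ux, h.uy, h1, h.vy⟩
    · exact Or.inr ⟨h.ux, h.uy, h1, h.vy⟩
  | (n + 3) =>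
    rcases cs3_halves he h.vy with h1 | h1
    · exact Or.inl ⟨h.ux, h.uy, h.vx, h1⟩
    · exact Or.inr ⟨h.ux, h.uy, h.vx, h1⟩

theorem cs3_rv_of_pos {x : Int} (h : isPos x = true) : 0 < rv x := by
  rw [isPos_iff] at h
  unfold rv
  have : (0 : ℝ) < x := by exact_mod_cast h
  positivity

/-- lower bound of the absolute value -/
theorem cs3_abs_low {t : ℝ} {y hy : Int} (h : |t - rv y| ≤ rv hy) :
    rv (cond (isPos (Int.add (absI y) (Int.neg hy))) (Int.add (absI y) (Int.neg hy)) 0) ≤ |t| := by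
  have h1 : rv (Int.add (absI y) (Int.neg hy)) ≤ |t| := by
    rw [rv_add, rv_neg, cs3_abs_rv]
    have h2 : |rv y| ≤ |t| + |t - rv y| := by
      have h3 : rv y = t - (t - rv y) := by ring
      calc |rv y| = |t - (t - rv y)| := by rw [← h3]
        _ ≤ |t| + |t - rv y| := abs_sub _ _
    linarith
  cases hc : isPos (Int.add (absI y) (Int.neg hy))
  · rw [cond_false]
    have : rv 0 = 0 := by unfold rv; simp
    rw [this]
    exact abs_nonneg _
  · rw [cond_true]
    exact h1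

theorem cs3_re_low {t : ℝ} {x hx : Int} (h : |t - rv x| ≤ rv hx) : rv (Int.add x (Int.neg hx)) ≤ t := by
  rw [rv_add, rv_neg]
  linarith [(abs_le.1 h).1]

theorem cs3_re_up {t : ℝ} {x hx : Int} (h : |t - rv x| ≤ rv hx) : rv (Int.neg (Int.add x hx)) ≤ -t := by
  rw [rv_neg, rv_add]
  linarith [(abs_le.1 h).2]

theorem cs3_out {k : ℕ} {x y hx hy : Int} (h : outQ k x y hx hy = true) {z : ℂ} (h1 : |z.re - rv x| ≤ rv hx)
    (h2 : |z.im - rv y| ≤ rv hy) (hz : Reg z) : False := by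
  have hlow := cs3_re_low h1
  have hup := cs3_re_up h1
  have hyl := cs3_abs_low h2
  have hxl := cs3_abs_low h1
  unfold outQ at h
  match k with
  | 0 =>
    dsimp only at h
    have h3 := cs3_rv_of_pos h
    rw [rv_add] at h3
    have h4 : rv (-252887674389) ≤ -(23 / 100) := by unfold rv; norm_num
    linarith [hz.a]
  | 1 =>
    dsimp only at h
    have h3 := cs3_rv_of_pos h
    rw [rv_add, rv_add, cs3_rv_mul] at h3
    have h4 : rv (-626721627833) ≤ -(57 / 100) := by unfold rv; norm_num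
    push_cast at h3
    linarith [hz.b]
  | 2 =>
    dsimp only at h
    have h3 := cs3_rv_of_pos h
    rw [rv_add, rv_add] at h3
    have h4 : rv (-434307092972) ≤ -(395 / 1000) := by unfold rv; norm_num
    linarith [hz.c]
  | 3 =>
    dsimp only at h
    have h3 := cs3_rv_of_pos h
    rw [rv_add, rv_add, cs3_rv_mul] at h3
    have h4 : rv (-747667906888) ≤ -(68 / 100) := by unfold rv; norm_num
    push_cast at h3
    linarith [hz.d]
  | 4 =>
    dsimp only at h
    have h3 := cs3_rv_of_pos h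
    rw [rv_add] at h3
    have h4 : rv (-428809534833) ≤ -(39 / 100) := by unfold rv; norm_num
    have h5 : rv (Int.add (absI y) (Int.neg hy)) ≤ |z.im| := by
      cases hc : isPos (Int.add (absI y) (Int.neg hy))
      · have h6 : ¬ (0 < Int.add (absI y) (Int.neg hy)) := by
          rw [← isPos_iff, hc]
          simp
        have h7 : rv (Int.add (absI y) (Int.neg hy)) ≤ rv 0 := cs3_rv_mono (not_lt.1 h6)
        have h8 : rv 0 = 0 := by unfold rv; simp
        rw [h8] at h7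
        exact h7.trans (abs_nonneg _)
      · rw [hc, cond_true] at hyl
        exact hyl
    linarith [hz.e]
  | 5 =>
    dsimp only at h
    have h3 := cs3_rv_of_pos h
    rw [rv_add, rv_add, cs3_rv_mul] at h3
    have h4 : rv (-1264438371943) ≤ -(115 / 100) := by unfold rv; norm_num
    push_cast at h3
    linarith [hz.f]
  | 6 =>
    dsimp only at h
    have h3 := cs3_rv_of_pos h
    rw [rv_add, rv_add] at h3
    have h4 : rv (-901599534777) ≤ -(82 / 100) := by unfold rv; norm_num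
    linarith [hz.g]
  | 7 =>
    dsimp only at h
    have h3 := cs3_rv_of_pos h
    rw [rv_add, rv_add, cs3_rv_mul] at h3
    have h4 : rv (-1489838255637) ≤ -(1355 / 1000) := by unfold rv; norm_num
    push_cast at h3
    linarith [hz.h]
  | (n + 8) =>
    change isPos (Int.add (Int.add (cond (isPos (Int.add (absI x) (Int.neg hx))) (Int.mul (Int.add (absI x) (Int.neg hx)) (Int.add (absI x) (Int.neg hx))) 0)
        (cond (isPos (Int.add (absI y) (Int.neg hy))) (Int.mul (Int.add (absI y) (Int.neg hy)) (Int.add (absI y) (Int.neg hy))) 0))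
        (-435213295061266502894224)) = true at h
    rw [isPos_iff] at h
    have key : ∀ (w : Int) (t : ℝ), rv (cond (isPos w) w 0) ≤ |t| →
        ((cond (isPos w) (Int.mul w w) 0 : Int) : ℝ) ≤ t ^ 2 * 2 ^ 80 := by
      intro w t hw
      cases hc : isPos w
      · rw [cond_false]
        push_cast
        positivity
      · rw [hc, cond_true] at hw
        rw [cond_true]
        rw [isPos_iff] at hc
        have hw0 : (0 : ℝ) < w := by exact_mod_cast hc
        have h5 : (w : ℝ) ≤ |t| * 2 ^ 40 := by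
          unfold rv at hw
          rwa [div_le_iff₀ (by positivity)] at hw
        have h6 : ((Int.mul w w : Int) : ℝ) = (w : ℝ) ^ 2 := by
          have : Int.mul w w = w ^ 2 := by
            change w * w = _
            ring
          rw [this]
          push_cast
          rfl
        rw [h6]
        calc (w : ℝ) ^ 2 ≤ (|t| * 2 ^ 40) ^ 2 := pow_le_pow_left₀ hw0.le h5 2
          _ = t ^ 2 * 2 ^ 80 := by rw [mul_pow, sq_abs]; ring
    have k1 := key _ _ hxl
    have k2 := key _ _ hyl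
    generalize (cond (isPos (Int.add (absI x) (Int.neg hx))) (Int.mul (Int.add (absI x) (Int.neg hx)) (Int.add (absI x) (Int.neg hx))) 0) = X at h k1
    generalize (cond (isPos (Int.add (absI y) (Int.neg hy))) (Int.mul (Int.add (absI y) (Int.neg hy)) (Int.add (absI y) (Int.neg hy))) 0) = Y at h k2
    change 0 < X + Y + (-435213295061266502894224) at h
    have h5 : (0 : ℝ) < X + Y + (-435213295061266502894224) := by exact_mod_cast h
    have h6 : z.re ^ 2 + z.im ^ 2 ≤ (3 / 5) ^ 2 := by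
      have h7 := pow_le_pow_left₀ (norm_nonneg z) hz.n 2
      rw [← Complex.normSq_eq_norm_sq, Complex.normSq_apply] at h7
      linarith
    norm_num at k1 k2 h5 h6
    linarith

theorem cs3_near {x y hx hy : Int} (h : nearQ x y hx hy = true) {z : ℂ} (h1 : |z.re - rv x| ≤ rv hx)
    (h2 : |z.im - rv y| ≤ rv hy) : Near z := by
  unfold nearQ at h
  rw [Bool.and_eq_true, le_iff, le_iff] at h
  have h3 := cs3_rv_mono h.1
  have h4 := cs3_rv_mono h.2
  rw [rv_add, cs3_abs_rv, rv_add] at h3 h4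
  have e1 : |rv 210232900782 + qc.re| ≤ 1 / 2 ^ 40 := by
    unfold rv qc
    norm_num [abs_le]
  have e2 : |rv (-225287107886) + qc.im| ≤ 1 / 2 ^ 40 := by
    unfold rv qc
    norm_num [abs_le]
  have e3 : rv 2199023253 + 1 / 2 ^ 40 ≤ 1 / 500 := by
    unfold rv
    norm_num
  constructor
  · have e4 : z.re - qc.re = (z.re - rv x) + (rv x + rv 210232900782) - (rv 210232900782 + qc.re) := by ring
    rw [e4]
    calc |(z.re - rv x) + (rv x + rv 210232900782) - (rv 210232900782 + qc.re)|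
        ≤ |(z.re - rv x) + (rv x + rv 210232900782)| + |rv 210232900782 + qc.re| := abs_sub _ _
      _ ≤ |z.re - rv x| + |rv x + rv 210232900782| + |rv 210232900782 + qc.re| := by
          gcongr
          exact abs_add_le _ _
      _ ≤ 1 / 500 := by linarith
  · have e4 : z.im - qc.im = (z.im - rv y) + (rv y + rv (-225287107886)) - (rv (-225287107886) + qc.im) := by ring
    rw [e4]
    calc |(z.im - rv y) + (rv y + rv (-225287107886)) - (rv (-225287107886) + qc.im)|
        ≤ |(z.im - rv y) + (rv y + rv (-225287107886))| + |rv (-225287107886) + qc.im| := abs_sub _ _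
      _ ≤ |z.im - rv y| + |rv y + rv (-225287107886)| + |rv (-225287107886) + qc.im| := by
          gcongr
          exact abs_add_le _ _
      _ ≤ 1 / 500 := by linarith

/-- combination of two halves -/
theorem good_split {b : Box} (hb : b.Pos) (d : ℕ) (he : b.even d = true) (h0 : Good (b.lo d))
    (h1 : Good (b.hi d)) : Good b := by
  intro K q B hC hK0 hK hR hB j hm h2 h3 h4
  rcases cs3_mem he hm with h | h
  · exact h0 hC hK0 hK hR hB j h h2 h3 h4
  · exact h1 hC hK0 hK hR hB j h h2 h3 h4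

theorem check_sound (t : Tree) {b : Box} (hb : b.Pos) (h : t.check b = true) : Good b := by
  induction t generalizing b with
  | split d l r ihl ihr =>
    unfold Tree.check at h
    rw [Bool.and_eq_true, Bool.and_eq_true] at h
    exact good_split hb d h.1 (ihl (cs3_lo_pos hb d) h.2.1) (ihr (cs3_hi_pos hb d) h.2.2)
  | cert mv mu L =>
    unfold Tree.check at h
    intro K q B hC hK0 hK hR hB j hm h2 h3 h4
    exact boxOK_sound hC hK0 hK (fun i => (hR i).n) hB hb h hm
  | outU k =>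
    unfold Tree.check at h
    intro K q B hC hK0 hK hR hB j hm h2 h3 h4
    exact (cs3_out h hm.ux hm.uy (hR j)).elim
  | outV k =>
    unfold Tree.check at h
    intro K q B hC hK0 hK hR hB j hm h2 h3 h4
    exact (cs3_out h hm.vx hm.vy (hR (j + 1))).elim
  | negM =>
    unfold Tree.check at h
    intro K q B hC hK0 hK hR hB j hm h2 h3 h4
    exfalso
    have h5 := cs3_rv_of_pos h
    rw [rv_neg, rv_add, rv_add, rv_add] at h5
    have h6 := (abs_le.1 hm.uy).2
    have h7 := (abs_le.1 hm.vy).2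
    linarith
  | negD =>
    unfold Tree.check at h
    intro K q B hC hK0 hK hR hB j hm h2 h3 h4
    exfalso
    have h5 := cs3_rv_of_pos h
    rw [rv_neg, rv_add, rv_add, rv_add, rv_neg] at h5
    have h6 := (abs_le.1 hm.ux).1
    have h7 := (abs_le.1 hm.vx).2
    linarith
  | near =>
    unfold Tree.check at h
    intro K q B hC hK0 hK hR hB j hm h2 h3 h4
    rw [Bool.and_eq_true] at h
    exact (h4 ⟨cs3_near h.1 hm.ux hm.uy, cs3_near h.2 hm.vx hm.vy⟩).elim

end MaxTerm.PA.Chk
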