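import Pool.Agent.MaxTerm.PartA.CritSer

/-!
# Part A: derivatives in the angle (used in `CritOf`)
-/

open Filter Topology ComplexConjugate

namespace MaxTerm.PA

/-- point of the circle -/
noncomputable def ex (t : ℝ) : ℂ := Complex.exp (Complex.I * t)

theorem norm_ex (t : ℝ) : ‖ex t‖ = 1 := by
  unfold ex
  rw [mul_comm]
  exact Complex.norm_exp_ofReal_mul_I t

theorem conj_ex (t : ℝ) : conj (ex t) = Complex.exp (-Complex.I * t) := by
  unfold ex
  rw [← Complex.exp_conj, map_mul, Complex.conj_I, Complex.conj_ofReal]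

theorem ex_zero : ex 0 = 1 := by
  unfold ex
  rw [Complex.ofReal_zero, mul_zero, Complex.exp_zero]

theorem hasDerivAt_pow_exp (s : ℂ) (k : ℕ) (t : ℝ) :
    HasDerivAt (fun t : ℝ => Complex.exp (s * t) ^ k) (k * s * Complex.exp (s * t) ^ k) t := by
  have h1 : HasDerivAt (fun t : ℝ => ((k : ℂ) * s) * (t : ℂ)) ((k : ℂ) * s) t := by
    simpa using (hasDerivAt_id t).ofReal_comp.const_mul ((k : ℂ) * s)
  have h2 := h1.cexp
  have e : ∀ t : ℝ, Complex.exp ((k : ℂ) * s * t) = Complex.exp (s * t) ^ k := by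
    intro t
    rw [← Complex.exp_nat_mul, mul_assoc]
  have e1 : (fun t : ℝ => Complex.exp (s * t) ^ k) = fun t : ℝ => Complex.exp ((k : ℂ) * s * t) :=
    funext fun t => (e t).symm
  rw [e1]
  refine h2.congr_deriv ?_
  rw [e, mul_comm]

theorem hasDerivAt_sm (k : ℕ) (t : ℝ) : HasDerivAt (fun t : ℝ => ex t ^ k + conj (ex t) ^ k)
    (Complex.I * (k * (ex t ^ k - conj (ex t) ^ k))) t := by
  have h1 := hasDerivAt_pow_exp Complex.I k t
  have h2 := hasDerivAt_pow_exp (-Complex.I) k t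
  have e1 : (fun t : ℝ => ex t ^ k + conj (ex t) ^ k) = fun t : ℝ =>
      Complex.exp (Complex.I * t) ^ k + Complex.exp (-Complex.I * t) ^ k :=
    funext fun t => by rw [conj_ex, ex]
  rw [e1]
  refine (h1.add h2).congr_deriv ?_
  rw [conj_ex, ex]
  ring

theorem hasDerivAt_df (k : ℕ) (t : ℝ) : HasDerivAt (fun t : ℝ => ex t ^ k - conj (ex t) ^ k)
    (Complex.I * (k * (ex t ^ k + conj (ex t) ^ k))) t := by
  have h1 := hasDerivAt_pow_exp Complex.I k t
  have h2 := hasDerivAt_pow_exp (-Complex.I) k t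
  have e1 : (fun t : ℝ => ex t ^ k - conj (ex t) ^ k) = fun t : ℝ =>
      Complex.exp (Complex.I * t) ^ k - Complex.exp (-Complex.I * t) ^ k :=
    funext fun t => by rw [conj_ex, ex]
  rw [e1]
  refine (h1.sub h2).congr_deriv ?_
  rw [conj_ex, ex]
  ring

theorem summable_T1 {q : ℂ} (hq : ‖q‖ ≤ 2803 / 10000) :
    Summable fun n : ℕ => 2 * ((2 * (n : ℝ) + 1) * ‖q‖ ^ ee n) := by
  have h := (tail5 (a := fun n : ℕ => ((2 * ((2 * (n : ℝ) + 1) * ‖q‖ ^ ee n) : ℝ) : ℂ)) (C := 11528 / 10 ^ 11) ?_).1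
  · exact (Complex.summable_ofReal).1 h
  · intro n
    have h0 : (0 : ℝ) ≤ 2 * ((n + 5 : ℕ) : ℝ) + 1 := by positivity
    rw [Complex.norm_real, Real.norm_of_nonneg (by positivity)]
    calc 2 * ((2 * ((n + 5 : ℕ) : ℝ) + 1) * ‖q‖ ^ ee (n + 5))
        ≤ 2 * ((11 * 20 ^ n) * (524 / 10 ^ 11 * (1 / 2000) ^ n)) := by
          refine mul_le_mul_of_nonneg_left ?_ (by norm_num)
          exact mul_le_mul (odd_one_le n) (pow_ee_le (norm_nonneg _) hq n) (by positivity) (by positivity)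
      _ = 11528 / 10 ^ 11 * (20 ^ n * (1 / 2000) ^ n) := by ring
      _ = _ := by rw [pow_split]

theorem summable_T2 {q : ℂ} (hq : ‖q‖ ≤ 2803 / 10000) :
    Summable fun n : ℕ => 2 * ((2 * (n : ℝ) + 1) ^ 2 * ‖q‖ ^ ee n) := by
  have h := (tail5 (a := fun n : ℕ => ((2 * ((2 * (n : ℝ) + 1) ^ 2 * ‖q‖ ^ ee n) : ℝ) : ℂ)) (C := 126808 / 10 ^ 11) ?_).1
  · exact (Complex.summable_ofReal).1 h
  · intro n
    have h0 : (0 : ℝ) ≤ 2 * ((n + 5 : ℕ) : ℝ) + 1 := by positivity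
    rw [Complex.norm_real, Real.norm_of_nonneg (by positivity)]
    calc 2 * ((2 * ((n + 5 : ℕ) : ℝ) + 1) ^ 2 * ‖q‖ ^ ee (n + 5))
        ≤ 2 * ((121 * 20 ^ n) * (524 / 10 ^ 11 * (1 / 2000) ^ n)) := by
          refine mul_le_mul_of_nonneg_left ?_ (by norm_num)
          exact mul_le_mul (odd_le n) (pow_ee_le (norm_nonneg _) hq n) (by positivity) (by positivity)
      _ = 126808 / 10 ^ 11 * (20 ^ n * (1 / 2000) ^ n) := by ring
      _ = _ := by rw [pow_split]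

theorem norm_odd (n : ℕ) : ‖(2 * (n : ℂ) + 1)‖ = 2 * (n : ℝ) + 1 := by
  have e : (2 * (n : ℂ) + 1) = ((2 * (n : ℝ) + 1 : ℝ) : ℂ) := by push_cast; ring
  rw [e, Complex.norm_real, Real.norm_of_nonneg (by positivity)]

theorem hasDerivAt_th {q : ℂ} (hq : ‖q‖ ≤ 2803 / 10000) (t : ℝ) :
    HasDerivAt (fun t : ℝ => th q (ex t)) (Complex.I * thw q (ex t)) t := by
  have h := hasDerivAt_tsum (𝕜 := ℝ) (summable_T1 hq)
    (g := fun (n : ℕ) (t : ℝ) => q ^ ee n * (ex t ^ (2 * n + 1) + conj (ex t) ^ (2 * n + 1)))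
    (g' := fun (n : ℕ) (t : ℝ) => q ^ ee n * (Complex.I * (((2 * n + 1 : ℕ) : ℂ) *
      (ex t ^ (2 * n + 1) - conj (ex t) ^ (2 * n + 1)))))
    (fun n y => (hasDerivAt_sm (2 * n + 1) y).const_mul _) (fun n y => ?_) (y₀ := t)
    (tail5 (tail_0 hq (norm_ex t))).1 t
  · have e1 : (fun t : ℝ => th q (ex t)) = fun t : ℝ =>
        ∑' n : ℕ, q ^ ee n * (ex t ^ (2 * n + 1) + conj (ex t) ^ (2 * n + 1)) :=
      funext fun t => th_eq hq (norm_ex t)
    have e2 : Complex.I * thw q (ex t) = ∑' n : ℕ, q ^ ee n * (Complex.I * (((2 * n + 1 : ℕ) : ℂ) *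
      (ex t ^ (2 * n + 1) - conj (ex t) ^ (2 * n + 1)))) := by
      unfold thw
      rw [← tsum_mul_left]
      refine tsum_congr fun n => ?_
      push_cast
      ring
    rw [e1, e2]
    exact h
  · rw [norm_mul, norm_mul, norm_mul, Complex.norm_I, one_mul, norm_pow, Complex.norm_natCast]
    have h1 := norm_df_le (norm_ex y) (2 * n + 1)
    push_cast
    calc ‖q‖ ^ ee n * ((2 * (n : ℝ) + 1) * ‖ex y ^ (2 * n + 1) - conj (ex y) ^ (2 * n + 1)‖)
        ≤ ‖q‖ ^ ee n * ((2 * (n : ℝ) + 1) * 2) := by gcongr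
      _ = _ := by ring

theorem hasDerivAt_thw {q : ℂ} (hq : ‖q‖ ≤ 2803 / 10000) (t : ℝ) :
    HasDerivAt (fun t : ℝ => Complex.I * thw q (ex t)) (thww q (ex t)) t := by
  have h := hasDerivAt_tsum (𝕜 := ℝ) (summable_T2 hq)
    (g := fun (n : ℕ) (t : ℝ) => (Complex.I * ((2 * (n : ℂ) + 1) * q ^ ee n)) *
      (ex t ^ (2 * n + 1) - conj (ex t) ^ (2 * n + 1)))
    (g' := fun (n : ℕ) (t : ℝ) => (Complex.I * ((2 * (n : ℂ) + 1) * q ^ ee n)) *
      (Complex.I * (((2 * n + 1 : ℕ) : ℂ) * (ex t ^ (2 * n + 1) + conj (ex t) ^ (2 * n + 1)))))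
    (fun n y => (hasDerivAt_df (2 * n + 1) y).const_mul _) (fun n y => ?_) (y₀ := t) ?_ t
  · have e1 : (fun t : ℝ => Complex.I * thw q (ex t)) = fun t : ℝ =>
        ∑' n : ℕ, (Complex.I * ((2 * (n : ℂ) + 1) * q ^ ee n)) *
      (ex t ^ (2 * n + 1) - conj (ex t) ^ (2 * n + 1)) := by
      funext t
      unfold thw
      rw [← tsum_mul_left]
      refine tsum_congr fun n => ?_
      ring
    have e2 : thww q (ex t) = ∑' n : ℕ, (Complex.I * ((2 * (n : ℂ) + 1) * q ^ ee n)) *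
      (Complex.I * (((2 * n + 1 : ℕ) : ℂ) * (ex t ^ (2 * n + 1) + conj (ex t) ^ (2 * n + 1)))) := by
      unfold thww
      rw [← tsum_neg]
      refine tsum_congr fun n => ?_
      push_cast
      linear_combination (-((2 * (n : ℂ) + 1) ^ 2 * q ^ ee n *
        (ex t ^ (2 * n + 1) + conj (ex t) ^ (2 * n + 1)))) * Complex.I_sq
    rw [e1, e2]
    exact h
  · rw [norm_mul, norm_mul, norm_mul, norm_mul, norm_mul, Complex.norm_I, one_mul, one_mul, norm_pow,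
      Complex.norm_natCast, norm_odd]
    have h1 := norm_sm_le (norm_ex y) (2 * n + 1)
    push_cast
    calc (2 * (n : ℝ) + 1) * ‖q‖ ^ ee n * ((2 * (n : ℝ) + 1) * ‖ex y ^ (2 * n + 1) + conj (ex y) ^ (2 * n + 1)‖)
        ≤ (2 * (n : ℝ) + 1) * ‖q‖ ^ ee n * ((2 * (n : ℝ) + 1) * 2) := by gcongr
      _ = _ := by ring
  · have h1 := (tail5 (a := fun n : ℕ => (2 * (n : ℂ) + 1) * q ^ ee n *
      (ex t ^ (2 * n + 1) - conj (ex t) ^ (2 * n + 1))) (tail_1 hq (norm_ex t))).1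
    exact (h1.mul_left Complex.I).congr fun n => by ring

/-- `‖T‖²` and its derivatives in the angle -/
noncomputable def Fo (q : ℂ) (t : ℝ) : ℝ := ‖th q (ex t)‖ ^ 2
noncomputable def Fp (q : ℂ) (t : ℝ) : ℝ := 2 * (conj (th q (ex t)) * (Complex.I * thw q (ex t))).re
noncomputable def Fpp (q : ℂ) (t : ℝ) : ℝ :=
  2 * (conj (Complex.I * thw q (ex t)) * (Complex.I * thw q (ex t)) + conj (th q (ex t)) * thww q (ex t)).re

theorem hasDerivAt_Fo {q : ℂ} (hq : ‖q‖ ≤ 2803 / 10000) (t : ℝ) : HasDerivAt (Fo q) (Fp q t) t := by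
  have h5 := (hasDerivAt_th hq t).norm_sq
  rw [Complex.inner, mul_comm (Complex.I * thw q (ex t))] at h5
  exact h5

theorem hasDerivAt_Fp {q : ℂ} (hq : ‖q‖ ≤ 2803 / 10000) (t : ℝ) : HasDerivAt (Fp q) (Fpp q t) t := by
  have h1 := hasDerivAt_th hq t
  have h2 := hasDerivAt_thw hq t
  have h3 : HasDerivAt (fun t : ℝ => conj (th q (ex t))) (conj (Complex.I * thw q (ex t))) t := h1.star
  have h4 := h3.mul h2
  have h5 : HasDerivAt (fun t : ℝ => (conj (th q (ex t)) * (Complex.I * thw q (ex t))).re)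
      (conj (Complex.I * thw q (ex t)) * (Complex.I * thw q (ex t)) + conj (th q (ex t)) * thww q (ex t)).re t :=
    (Complex.reCLM.hasFDerivAt.comp_hasDerivAt t h4)
  exact h5.const_mul 2

end MaxTerm.PA
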