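import Pool.Agent.MaxTerm.PartA.CritTM

/-!
# Part A: the numerical facts for `CritOf`
-/

open ComplexConjugate

namespace MaxTerm.PA

namespace Chk

namespace Crt

def tA : Int := Int.add (fx 35 1000) 1
def tB : Int := Int.add (fx 13 1000) 1
def tC : Int := Int.add (fx 1 10000) 1
def wA : TMq := TMq.expi u1 0 0 tA 0
def wB : TMq := TMq.cmul cw0 (TMq.expi u1 0 0 tB 0)
def wB0 : TMq := TMq.const cw0
def wC : TMq := TMq.cmul cw0 (TMq.expi u1 0 0 tC 0)
def wA0 : TMq := TMq.const ⟨1099511627776, 0, 0⟩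
def clA : CB := ⟨fx 4004 10000, 0, 2⟩
def clB : CB := ⟨fx 980808 1000000, 0, 2⟩
def ckap : CB := ⟨fx (-194) 1000, fx (-1111) 1000, 2⟩
def cc : CB := ⟨fx (-28) 100, 0, 2⟩
def tL : TMq := TMq.cmul ckap (TMq.add (TMq.cmul clA (tG (mkPw qTM wA0))) (TMq.cmul clB (tG (mkPw qTM wC))))
def tPsi : TMq := TMq.add (sm tL) (TMq.cmul cc (tF1 (mkPw qTM wC)))

theorem ev_F2A : le (TMq.ub u1 (TMq.add (tF2 (mkPw qTM wA)) (TMq.const ⟨2199023255552, 0, 0⟩)))
    164926744166 = true := by decide +kernel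

theorem ev_F2B : le (TMq.ub u1 (TMq.add (tF2 (mkPw qTM wB)) (TMq.const ⟨5324385057505, 0, 0⟩)))
    665204534804 = true := by decide +kernel

theorem ev_F1B : le (TMq.ub u1 (tF1 (mkPw qTM wB0))) 445302209 = true := by decide +kernel

theorem ev_GA : le (TMq.ub u1 (TMq.add (sm (tG (mkPw qTM wA0))) (TMq.const ⟨-6597069766656, 0, 0⟩)))
    1099511627776 = true := by decide +kernel

theorem ev_GB : le (TMq.ub u1 (TMq.add (sm (TMq.cmul ckap (tG (mkPw qTM wC)))) (TMq.const ⟨-2199023255552, 0, 0⟩)))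
    109951162777 = true := by decide +kernel

theorem ev_Psi : le (TMq.ub u1 tPsi) 10995116 = true := by decide +kernel

/-! ### soundness -/

theorem rv_u1 : rv u1 = 1 := by
  unfold rv u1
  norm_num

theorem norm_uu : ‖uu‖ = 2 / 100000 := by
  have h : ‖uu‖ ^ 2 = (2 / 100000) ^ 2 := by
    rw [← Complex.normSq_eq_norm_sq, Complex.normSq_apply]
    unfold uu
    norm_num
  exact (pow_left_inj₀ (norm_nonneg _) (by norm_num) (by norm_num)).1 h

/-- every `q` in the disc and every `d ∈ [-1, 1]` come from a point of the box -/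
theorem exists_pt {q : ℂ} (hq : ‖q - qc‖ ≤ 2 / 100000) {d : ℝ} (hd : |d| ≤ 1) :
    ∃ y : Ptq, y.In u1 ∧ qpt y = q ∧ y.y3 = d := by
  have hu : uu ≠ 0 := by
    rw [← norm_pos_iff, norm_uu]
    norm_num
  have h1 : ‖(q - qc) / uu‖ ≤ 1 := by
    rw [norm_div, norm_uu, div_le_one (by norm_num)]
    exact hq
  refine ⟨⟨((q - qc) / uu).re, ((q - qc) / uu).im, d, 0⟩, ⟨?_, ?_, ?_, ?_⟩, ?_, rfl⟩
  · rw [rv_u1]; exact (Complex.abs_re_le_norm _).trans h1
  · rw [rv_u1]; exact (Complex.abs_im_le_norm _).trans h1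
  · rw [rv_u1]; exact hd
  · rw [rv_u1, abs_zero]; norm_num
  · show qc + uu * ((((q - qc) / uu).re : ℂ) + Complex.I * (((q - qc) / uu).im : ℂ)) = q
    rw [mul_comm Complex.I, Complex.re_add_im]
    field_simp
    ring

theorem ang3 (t : Int) (y : Ptq) : TMq.ang 0 0 t 0 y = rv t * y.y3 := by
  unfold TMq.ang
  have : rv 0 = 0 := by unfold rv; norm_num
  rw [this]
  ring

theorem mem_one : CB.Mem 1 ⟨1099511627776, 0, 0⟩ := by
  have h := CB.mem_realq 1099511627776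
  have e : rv 1099511627776 = 1 := by unfold rv; norm_num
  rw [e, Complex.ofReal_one] at h
  exact h

theorem wA_ok : wA.Has u1 (fun y => Complex.exp (Complex.I * ((rv tA * y.y3 : ℝ) : ℂ))) := by
  refine (TMq.Has.expi (by decide +kernel) (by decide +kernel)).congr fun y _ => ?_
  rw [ang3]

theorem wB_ok : wB.Has u1 (fun y => w0c * Complex.exp (Complex.I * ((rv tB * y.y3 : ℝ) : ℂ))) := by
  refine ((TMq.Has.expi (by decide +kernel) (by decide +kernel)).cmul mem_cw0).congr fun y _ => ?_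
  rw [ang3]

theorem wC_ok : wC.Has u1 (fun y => w0c * Complex.exp (Complex.I * ((rv tC * y.y3 : ℝ) : ℂ))) := by
  refine ((TMq.Has.expi (by decide +kernel) (by decide +kernel)).cmul mem_cw0).congr fun y _ => ?_
  rw [ang3]

theorem wB0_ok : wB0.Has u1 (fun _ => w0c) := TMq.Has.const mem_cw0

theorem wA0_ok : wA0.Has u1 (fun _ => 1) := TMq.Has.const mem_one

theorem rv_tA : 35 / 1000 ≤ rv tA := by
  have : tA = 38482906973 := by decide +kernel
  rw [this]; unfold rv; norm_num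

theorem rv_tB : 13 / 1000 ≤ rv tB := by
  have : tB = 14293651162 := by decide +kernel
  rw [this]; unfold rv; norm_num

theorem rv_tC : 1 / 10000 ≤ rv tC := by
  have : tC = 109951163 := by decide +kernel
  rw [this]; unfold rv; norm_num

/-- from the kernel check to a norm bound -/
theorem bound_of {A : TMq} {f : Ptq → ℂ} (hA : A.Has u1 f) {N : Int} (h : le (TMq.ub u1 A) N = true)
    {y : Ptq} (hy : y.In u1) : ‖f y‖ ≤ rv N :=
  (hA.norm_le hy).trans (cs_rv_le ((le_iff _ _).1 h))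

/-- choose the point -/
theorem exists_pt' {q : ℂ} (hq : ‖q - qc‖ ≤ 2 / 100000) {t : Int} {b δ : ℝ} (hb : 0 < b) (ht : b ≤ rv t)
    (hδ : |δ| ≤ b) : ∃ y : Ptq, y.In u1 ∧ qpt y = q ∧ rv t * y.y3 = δ := by
  have h0 : 0 < rv t := lt_of_lt_of_le hb ht
  obtain ⟨y, h1, h2, h3⟩ := exists_pt hq (d := δ / rv t) (by
    rw [abs_div, abs_of_pos h0, div_le_one h0]
    exact hδ.trans ht)
  refine ⟨y, h1, h2, ?_⟩
  rw [h3]
  field_simp

theorem real_of_norm {x c : ℝ} {k : ℂ} {N : ℝ} (hk : k = (c : ℂ)) (h : ‖(x : ℂ) + k‖ ≤ N) :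
    |x + c| ≤ N := by
  rw [hk, ← Complex.ofReal_add, Complex.norm_real, Real.norm_eq_abs] at h
  exact h

theorem mem_realq' {x : Int} {c : ℝ} (h : rv x = c) : CB.Mem (c : ℂ) ⟨x, 0, 0⟩ := by
  rw [← h]
  exact CB.mem_realq x

theorem F2A {q : ℂ} (hq : ‖q - qc‖ ≤ 2 / 100000) {δ : ℝ} (hδ : |δ| ≤ 35 / 1000) :
    2 * (conj (pT1 q (Complex.exp (Complex.I * δ))) * pT1 q (Complex.exp (Complex.I * δ)) +
      conj (pT0 q (Complex.exp (Complex.I * δ))) * pT2 q (Complex.exp (Complex.I * δ))).re ≤ -18 / 10 := by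
  obtain ⟨y, h1, h2, h3⟩ := exists_pt' hq (by norm_num) rv_tA hδ
  have h := bound_of ((tF2_ok (mkPw_ok qTM_ok wA_ok)).add (TMq.Has.const (mem_realq' (c := 2)
    (by unfold rv; norm_num)))) ev_F2A h1
  rw [h2, h3] at h
  have h' := real_of_norm rfl h
  have e : rv 164926744166 ≤ 16 / 100 := by unfold rv; norm_num
  have := (abs_le.1 h').2
  linarith

theorem F2B {q : ℂ} (hq : ‖q - qc‖ ≤ 2 / 100000) {δ : ℝ} (hδ : |δ| ≤ 13 / 1000) {w : ℂ}
    (hw : w = w0c * Complex.exp (Complex.I * δ)) :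
    2 * (conj (pT1 q w) * pT1 q w + conj (pT0 q w) * pT2 q w).re ≤ -4237 / 1000 := by
  obtain ⟨y, h1, h2, h3⟩ := exists_pt' hq (by norm_num) rv_tB hδ
  have h := bound_of ((tF2_ok (mkPw_ok qTM_ok wB_ok)).add (TMq.Has.const (mem_realq' (c := 5324385057505 / 2 ^ 40)
    (by unfold rv; norm_num)))) ev_F2B h1
  rw [h2, h3, ← hw] at h
  have h' := real_of_norm rfl h
  have e : rv 665204534804 ≤ 60501 / 100000 := by unfold rv; norm_num
  have := (abs_le.1 h').2
  norm_num at this ⊢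
  linarith

theorem F1B {q : ℂ} (hq : ‖q - qc‖ ≤ 2 / 100000) :
    |2 * (conj (pT0 q w0c) * pT1 q w0c).re| ≤ 4051 / 10 ^ 7 := by
  obtain ⟨y, h1, h2, h3⟩ := exists_pt hq (d := 0) (by norm_num)
  have h := bound_of (tF1_ok (mkPw_ok qTM_ok wB0_ok)) ev_F1B h1
  rw [h2, Complex.norm_real, Real.norm_eq_abs] at h
  have e : rv 445302209 ≤ 4051 / 10 ^ 7 := by unfold rv; norm_num
  exact h.trans e

theorem GA {q : ℂ} (hq : ‖q - qc‖ ≤ 2 / 100000) :
    5 / 2 ≤ (conj (pT0 q 1) * pTq q 1).re := by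
  obtain ⟨y, h1, h2, h3⟩ := exists_pt hq (d := 0) (by norm_num)
  have h := bound_of ((sm_ok (tG_ok (mkPw_ok qTM_ok wA0_ok))).add (TMq.Has.const (mem_realq' (c := -6)
    (by unfold rv; norm_num)))) ev_GA h1
  rw [h2, Complex.add_conj] at h
  have h' := real_of_norm rfl h
  have e : rv 1099511627776 ≤ 1 := by unfold rv; norm_num
  have := (abs_le.1 h').1
  linarith

/-- the complex multiplier -/
noncomputable def kap : ℂ := ⟨-194 / 1000, -1111 / 1000⟩

theorem mem_kap : CB.Mem kap ckap := by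
  apply mem_of
  · unfold kap ckap rv
    simp only [fx_val]
    norm_num [abs_le]
  · unfold kap ckap rv
    simp only [fx_val]
    norm_num [abs_le]

theorem mem_lA : CB.Mem ((4004 / 10000 : ℝ) : ℂ) clA := by
  apply mem_of
  · unfold clA rv
    simp only [fx_val, Complex.ofReal_re]
    norm_num [abs_le]
  · unfold clA rv
    rw [Complex.ofReal_im]
    norm_num [abs_le]

theorem mem_lB : CB.Mem ((980808 / 1000000 : ℝ) : ℂ) clB := by
  apply mem_of
  · unfold clB rv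
    simp only [fx_val, Complex.ofReal_re]
    norm_num [abs_le]
  · unfold clB rv
    rw [Complex.ofReal_im]
    norm_num [abs_le]

theorem mem_cc : CB.Mem ((-28 / 100 : ℝ) : ℂ) cc := by
  apply mem_of
  · unfold cc rv
    simp only [fx_val, Complex.ofReal_re]
    norm_num [abs_le]
  · unfold cc rv
    rw [Complex.ofReal_im]
    norm_num [abs_le]

theorem GB {q : ℂ} (hq : ‖q - qc‖ ≤ 2 / 100000) {δ : ℝ} (hδ : |δ| ≤ 1 / 10000) {w : ℂ}
    (hw : w = w0c * Complex.exp (Complex.I * δ)) :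
    9 / 10 ≤ (kap * (conj (pT0 q w) * pTq q w)).re := by
  obtain ⟨y, h1, h2, h3⟩ := exists_pt' hq (by norm_num) rv_tC hδ
  have h := bound_of ((sm_ok ((tG_ok (mkPw_ok qTM_ok wC_ok)).cmul mem_kap)).add (TMq.Has.const (mem_realq' (c := -2)
    (by unfold rv; norm_num)))) ev_GB h1
  rw [h2, h3, ← hw, Complex.add_conj] at h
  have h' := real_of_norm rfl h
  have e : rv 109951162777 ≤ 2 / 10 := by unfold rv; norm_num
  have := (abs_le.1 h').1
  linarith

theorem Psi {q : ℂ} (hq : ‖q - qc‖ ≤ 2 / 100000) {δ : ℝ} (hδ : |δ| ≤ 1 / 10000) {w : ℂ}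
    (hw : w = w0c * Complex.exp (Complex.I * δ)) :
    |2 * (kap * (((4004 / 10000 : ℝ) : ℂ) * (conj (pT0 q 1) * pTq q 1) +
        ((980808 / 1000000 : ℝ) : ℂ) * (conj (pT0 q w) * pTq q w))).re
      + (-28 / 100) * (2 * (conj (pT0 q w) * pT1 q w).re)| ≤ 1 / 10 ^ 5 := by
  obtain ⟨y, h1, h2, h3⟩ := exists_pt' hq (by norm_num) rv_tC hδ
  have h := bound_of ((sm_ok ((((tG_ok (mkPw_ok qTM_ok wA0_ok)).cmul mem_lA).add
    ((tG_ok (mkPw_ok qTM_ok wC_ok)).cmul mem_lB)).cmul mem_kap)).add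
      ((tF1_ok (mkPw_ok qTM_ok wC_ok)).cmul mem_cc)) ev_Psi h1
  rw [h2, h3, ← hw, Complex.add_conj, ← Complex.ofReal_mul] at h
  have h' := real_of_norm rfl h
  have e : rv 10995116 ≤ 1 / 10 ^ 5 := by unfold rv; norm_num
  exact h'.trans e

end Crt

end Chk

end MaxTerm.PA
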