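import Pool.Agent.MaxTerm.PartA.CritCalc
import Pool.Agent.MaxTerm.PartA.CritNum
import Pool.Agent.MaxTerm.QHat

/-!
# Part A: descent direction, `th` versus `theta`, perturbation estimates (used in `CritOf`)
-/

open Filter Topology ComplexConjugate

namespace MaxTerm

/-- at a minimiser no direction decreases `|θ|` at all active points -/
theorem danskin_dir {q₀ : ℂ} (hq : ‖q₀‖ < 1) (hK : thetaMax q₀ = Kstar) (d : ℂ)
    (hneg : ∀ z : ℂ, ‖z‖ = 1 → ‖theta q₀ z‖ = Kstar →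
      (conj (theta q₀ z) * (thetaQ q₀ z * d)).re < 0) : False := by
  obtain ⟨r, hr1, hr2⟩ := exists_between hq
  have hr0 : 0 < r := (norm_nonneg q₀).trans_lt hr1
  -- the step
  obtain ⟨δ, hδ0, hδ⟩ : ∃ δ : ℝ, 0 < δ ∧ ∀ s : ℝ, 0 ≤ s → s ≤ δ → ‖q₀ + s * d‖ ≤ r := by
    refine ⟨(r - ‖q₀‖) / (‖d‖ + 1), by
      have := norm_nonneg d
      exact div_pos (by linarith) (by linarith), fun s hs0 hs => ?_⟩
    have hd1 : 0 < ‖d‖ + 1 := by have := norm_nonneg d; linarith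
    rw [le_div_iff₀ hd1] at hs
    refine (norm_add_le _ _).trans ?_
    rw [norm_mul, Complex.norm_real, Real.norm_of_nonneg hs0]
    nlinarith
  have hlt : ∀ s : ℝ, 0 ≤ s → s ≤ δ → ‖q₀ + s * d‖ < 1 := fun s h1 h2 =>
    (hδ s h1 h2).trans_lt hr2
  set t : ℕ → ℝ := fun n => δ / (n + 1) with ht
  have ht0 : ∀ n, 0 < t n := fun n => by rw [ht]; positivity
  have htδ : ∀ n, t n ≤ δ := fun n => by
    rw [ht]
    refine div_le_self hδ0.le ?_
    have : (0 : ℝ) ≤ n := Nat.cast_nonneg n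
    linarith
  have htlim : Tendsto t atTop (𝓝 0) := by
    have h1 := tendsto_one_div_add_atTop_nhds_zero_nat (𝕜 := ℝ)
    have h2 := h1.const_mul δ
    rw [mul_zero] at h2
    refine h2.congr fun n => ?_
    rw [ht]
    ring
  choose z hz hzmax using fun n => exists_max (hlt (t n) (ht0 n).le (htδ n))
  -- mean value theorem
  have hmv : ∀ n, ∃ s : ℝ, 0 < s ∧ s < t n ∧
      0 ≤ (conj (theta (q₀ + s * d) (z n)) * (thetaQ (q₀ + s * d) (z n) * d)).re := by
    intro n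
    have hder : ∀ s : ℝ, 0 ≤ s → s ≤ δ → HasDerivAt (fun s : ℝ => ‖theta (q₀ + s * d) (z n)‖ ^ 2)
        (2 * (conj (theta (q₀ + s * d) (z n)) * (thetaQ (q₀ + s * d) (z n) * d)).re) s := by
      intro s h1 h2
      have h3 : HasDerivAt (fun s : ℝ => q₀ + s * d) d s := by
        have := ((hasDerivAt_id s).ofReal_comp.mul_const d).const_add q₀
        simpa using this
      have h4 : HasDerivAt (fun s : ℝ => theta (q₀ + s * d) (z n))
          (thetaQ (q₀ + s * d) (z n) * d) s :=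
        HasDerivAt.comp (h₂ := fun q => theta q (z n)) s (hasDerivAt_theta (hlt s h1 h2) (hz n)) h3
      have h5 := h4.norm_sq
      rw [Complex.inner, mul_comm (thetaQ _ _ * d)] at h5
      exact h5
    obtain ⟨s, hs, hs'⟩ := exists_hasDerivAt_eq_slope
      (fun s : ℝ => ‖theta (q₀ + s * d) (z n)‖ ^ 2)
      (fun s : ℝ => 2 * (conj (theta (q₀ + s * d) (z n)) * (thetaQ (q₀ + s * d) (z n) * d)).re)
      (ht0 n)
      (fun s hs => (hder s hs.1 (hs.2.trans (htδ n))).continuousAt.continuousWithinAt)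
      (fun s hs => hder s hs.1.le (hs.2.le.trans (htδ n)))
    refine ⟨s, hs.1, hs.2, ?_⟩
    have h6 : ‖theta (q₀ + ((0 : ℝ) : ℂ) * d) (z n)‖ ≤ ‖theta (q₀ + (t n : ℂ) * d) (z n)‖ := by
      rw [hzmax n, Complex.ofReal_zero, zero_mul, add_zero]
      refine (norm_theta_le hq (hz n)).trans ?_
      rw [hK]
      exact Kstar_le (hlt (t n) (ht0 n).le (htδ n))
    have h7 : 0 ≤ (‖theta (q₀ + (t n : ℂ) * d) (z n)‖ ^ 2 -
        ‖theta (q₀ + ((0 : ℝ) : ℂ) * d) (z n)‖ ^ 2) / (t n - 0) := by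
      refine div_nonneg ?_ (by linarith [ht0 n])
      rw [sub_nonneg]
      exact pow_le_pow_left₀ (norm_nonneg _) h6 2
    rw [← hs'] at h7
    linarith
  choose s hs0 hst hs using hmv
  -- a convergent subsequence
  obtain ⟨zs, hzs, φ, hφ, hφlim⟩ := (isCompact_sphere (0 : ℂ) 1).tendsto_subseq
    (fun n => mem_sphere_zero_iff_norm.2 (hz n))
  have hzs1 : ‖zs‖ = 1 := mem_sphere_zero_iff_norm.1 hzs
  have htφ : Tendsto (fun n => t (φ n)) atTop (𝓝 0) := htlim.comp hφ.tendsto_atTop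
  have hsφ : Tendsto (fun n => s (φ n)) atTop (𝓝 0) :=
    squeeze_zero (fun n => (hs0 (φ n)).le) (fun n => (hst (φ n)).le) htφ
  have hmem0 : (q₀, zs) ∈ Metric.closedBall (0 : ℂ) r ×ˢ Metric.sphere (0 : ℂ) 1 :=
    ⟨by simpa using hr1.le, hzs⟩
  have hpt : ∀ x : ℕ → ℝ, (∀ n, 0 ≤ x n) → (∀ n, x n ≤ δ) → Tendsto x atTop (𝓝 0) →
      Tendsto (fun n => ((q₀ + (x n : ℂ) * d, z (φ n)) : ℂ × ℂ)) atTop
        (𝓝[Metric.closedBall (0 : ℂ) r ×ˢ Metric.sphere (0 : ℂ) 1] (q₀, zs)) := by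
    intro x hx0 hxδ hx
    refine tendsto_nhdsWithin_iff.2 ⟨?_, Eventually.of_forall fun n => ⟨?_, ?_⟩⟩
    · refine Tendsto.prodMk_nhds ?_ hφlim
      have h1 : Tendsto (fun n => (x n : ℂ)) atTop (𝓝 ((0 : ℝ) : ℂ)) :=
        (Complex.continuous_ofReal.tendsto 0).comp hx
      have h2 := (h1.mul_const d).const_add q₀
      simpa using h2
    · simpa using hδ (x n) (hx0 n) (hxδ n)
    · exact mem_sphere_zero_iff_norm.2 (hz (φ n))
  have hT := (continuousOn_theta hr0.le hr2) _ hmem0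
  have hTQ := (continuousOn_thetaQ hr0.le hr2) _ hmem0
  have hpt1 := hpt (fun n => t (φ n)) (fun n => (ht0 _).le) (fun n => htδ _) htφ
  have hpt2 := hpt (fun n => s (φ n)) (fun n => (hs0 _).le) (fun n => (hst _).le.trans (htδ _)) hsφ
  -- the limit point is active
  have hact' : ‖theta q₀ zs‖ = Kstar := by
    refine le_antisymm ((norm_theta_le hq hzs1).trans hK.le) ?_
    have h1 : Tendsto (fun n => ‖theta (q₀ + (t (φ n) : ℂ) * d) (z (φ n))‖) atTop
        (𝓝 ‖theta q₀ zs‖) := (hT.tendsto.comp hpt1).norm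
    refine ge_of_tendsto' h1 fun n => ?_
    rw [hzmax (φ n)]
    exact Kstar_le (hlt _ (ht0 _).le (htδ _))
  have h2 : Tendsto (fun n => (conj (theta (q₀ + (s (φ n) : ℂ) * d) (z (φ n))) *
      (thetaQ (q₀ + (s (φ n) : ℂ) * d) (z (φ n)) * d)).re) atTop
      (𝓝 (conj (theta q₀ zs) * (thetaQ q₀ zs * d)).re) := by
    have g1 := hT.tendsto.comp hpt2
    have g2 := hTQ.tendsto.comp hpt2
    have g3 := (Complex.continuous_conj.tendsto _).comp g1
    have g4 := g2.mul_const d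
    have g5 := (Complex.continuous_re.tendsto _).comp (g3.mul g4)
    exact g5
  have h3 : 0 ≤ (conj (theta q₀ zs) * (thetaQ q₀ zs * d)).re :=
    ge_of_tendsto' h2 fun n => hs (φ n)
  exact absurd (hneg zs hzs1 hact') (not_lt.2 h3)

namespace PA

/-! ### `th` and `theta` -/

theorem split_eq {c : ℤ → ℂ} (hc : Summable fun n => ‖c n‖) {w : ℂ} (hw : ‖w‖ = 1) :
    (∑' n : ℕ, c ((n : ℤ) + 1) * w ^ (2 * n + 1)) + ∑' n : ℕ, c (-(n : ℤ)) * (conj w) ^ (2 * n + 1)
      = conj w * ∑' n : ℤ, c n * (w ^ 2) ^ n := by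
  have hw0 : w ≠ 0 := by
    intro h; rw [h, norm_zero] at hw; exact zero_ne_one hw
  have hcw : conj w * w = 1 := by
    rw [mul_comm, Complex.mul_conj, Complex.normSq_eq_norm_sq, hw]; norm_num
  have hcw' : conj w = w⁻¹ := eq_inv_of_mul_eq_one_left hcw
  have hw2 : ‖w ^ 2‖ = 1 := by rw [norm_pow, hw, one_pow]
  set f : ℤ → ℂ := fun n => c n * (w ^ 2) ^ n with hf
  have hfs : Summable f := by
    apply Summable.of_norm
    refine hc.congr fun n => ?_
    rw [hf]; dsimp only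
    rw [norm_mul, norm_zpow, hw2, one_zpow, mul_one]
  have hg : Summable fun n : ℤ => f (-n) := by
    have g1 := (Equiv.neg ℤ).summable_iff.2 hfs
    exact g1
  have e1 : ∑' n : ℤ, f n = ∑' n : ℤ, f (-n) := ((Equiv.neg ℤ).tsum_eq f).symm
  have hp : Summable fun n : ℕ => f (-(n : ℤ)) := hg.comp_injective Nat.cast_injective
  have hq : Summable fun n : ℕ => f ((n : ℤ) + 1) := hfs.comp_injective (fun a b h => by
    simpa using h)
  have e2 : ∑' n : ℤ, f (-n) = (∑' n : ℕ, f (-(n : ℤ))) + ∑' n : ℕ, f ((n : ℤ) + 1) := by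
    have h := HasSum.of_nat_of_neg_add_one (f := fun n : ℤ => f (-n)) hp.hasSum
      (m' := ∑' n : ℕ, f ((n : ℤ) + 1)) (by simpa using hq.hasSum)
    exact h.tsum_eq
  have e3 : ∀ n : ℕ, c ((n : ℤ) + 1) * w ^ (2 * n + 1) = conj w * f ((n : ℤ) + 1) := by
    intro n
    have h1 : ((w ^ 2) ^ ((n : ℤ) + 1) : ℂ) = w ^ (2 * n + 1) * w := by
      rw [← Nat.cast_one, ← Nat.cast_add, zpow_natCast]; ring
    simp only [hf]
    rw [h1]
    linear_combination (-(c ((n : ℤ) + 1) * w ^ (2 * n + 1))) * hcw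
  have e4 : ∀ n : ℕ, c (-(n : ℤ)) * (conj w) ^ (2 * n + 1) = conj w * f (-(n : ℤ)) := by
    intro n
    simp only [hf]
    rw [zpow_neg, zpow_natCast, hcw', pow_succ, inv_pow, ← pow_mul]
    ring
  simp_rw [e3, e4]
  rw [tsum_mul_left, tsum_mul_left, ← mul_add, e1, e2, add_comm]

theorem ex_pos (n : ℕ) : ((((n : ℤ) + 1) * ((n : ℤ) + 1 - 1) / 2).toNat) = ee n := by
  unfold ee
  have e : ((n : ℤ) + 1) * ((n : ℤ) + 1 - 1) = ((n * (n + 1) : ℕ) : ℤ) := by push_cast; ring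
  rw [e]
  omega

theorem ex_neg' (n : ℕ) : (((-(n : ℤ)) * (-(n : ℤ) - 1) / 2).toNat) = ee n := by
  unfold ee
  have e : (-(n : ℤ)) * (-(n : ℤ) - 1) = ((n * (n + 1) : ℕ) : ℤ) := by push_cast; ring
  rw [e]
  omega

theorem th_theta {q w : ℂ} (hq : ‖q‖ < 1) (hw : ‖w‖ = 1) : th q w = conj w * theta q (w ^ 2) := by
  have h := split_eq (c := fun n : ℤ => q ^ (n * (n - 1) / 2).toNat) (summable_norm_coeff hq) hw
  rw [theta, ← h]
  unfold th half
  simp only [mon_const, ex_pos, ex_neg']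

theorem thq_thetaQ {q w : ℂ} (hq : ‖q‖ ≤ 2803 / 10000) (hw : ‖w‖ = 1) :
    thq q w = conj w * thetaQ q (w ^ 2) := by
  have hq1 : ‖q‖ < 1 := lt_of_le_of_lt hq (by norm_num)
  have hcw : ‖conj w‖ = 1 := by rw [RCLike.norm_conj, hw]
  have hs : Summable fun n : ℤ => ‖(((n * (n - 1) / 2).toNat : ℕ) : ℂ) *
      q ^ ((n * (n - 1) / 2).toNat - 1)‖ := by
    refine (summable_deriv (norm_nonneg q) hq1).congr fun n => ?_
    rw [norm_mul, norm_pow, Complex.norm_natCast]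
  have h := split_eq hs hw
  simp only [ex_pos, ex_neg'] at h
  rw [thetaQ, ← h, thq, ← Summable.tsum_add]
  · refine tsum_congr fun n => ?_
    ring
  · refine (tail5 (C := 2805 / 10 ^ 10) fun n => ?_).1
    rw [norm_mul, norm_mul, norm_pow, norm_pow, hw, one_pow, mul_one, Complex.norm_natCast]
    calc (ee (n + 5) : ℝ) * ‖q‖ ^ (ee (n + 5) - 1)
        ≤ (15 * 20 ^ n) * (187 / 10 ^ 10 * (1 / 2000) ^ n) :=
          mul_le_mul (ee_le n) (pow_ee_le' (norm_nonneg _) hq n) (by positivity) (by positivity)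
      _ = 2805 / 10 ^ 10 * (20 ^ n * (1 / 2000) ^ n) := by ring
      _ = _ := by rw [pow_split]
  · refine (tail5 (C := 2805 / 10 ^ 10) fun n => ?_).1
    rw [norm_mul, norm_mul, norm_pow, norm_pow, hcw, one_pow, mul_one, Complex.norm_natCast]
    calc (ee (n + 5) : ℝ) * ‖q‖ ^ (ee (n + 5) - 1)
        ≤ (15 * 20 ^ n) * (187 / 10 ^ 10 * (1 / 2000) ^ n) :=
          mul_le_mul (ee_le n) (pow_ee_le' (norm_nonneg _) hq n) (by positivity) (by positivity)
      _ = 2805 / 10 ^ 10 * (20 ^ n * (1 / 2000) ^ n) := by ring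
      _ = _ := by rw [pow_split]

theorem grad_eq {q w : ℂ} (hq : ‖q‖ ≤ 2803 / 10000) (hw : ‖w‖ = 1) :
    conj (theta q (w ^ 2)) * thetaQ q (w ^ 2) = conj (th q w) * thq q w := by
  have hq1 : ‖q‖ < 1 := lt_of_le_of_lt hq (by norm_num)
  have hcw : conj w * w = 1 := by
    rw [mul_comm, Complex.mul_conj, Complex.normSq_eq_norm_sq, hw]; norm_num
  rw [th_theta hq1 hw, thq_thetaQ hq hw, map_mul, Complex.conj_conj]
  linear_combination (-(conj (theta q (w ^ 2)) * thetaQ q (w ^ 2))) * hcw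

/-- every point of the circle is a square of a point of the circle -/
theorem exists_sq {z : ℂ} (hz : ‖z‖ = 1) : ∃ w : ℂ, ‖w‖ = 1 ∧ w ^ 2 = z := by
  obtain ⟨w, hw⟩ := IsSquare.exists_mul_self z (Complex.isSquare z) |>.imp fun w h => h
  refine ⟨w, ?_, by rw [hw]; ring⟩
  have h1 : ‖w‖ * ‖w‖ = 1 := by rw [← norm_mul, ← hw, hz]
  nlinarith [norm_nonneg w]

end PA

end MaxTerm
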