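import Pool.Agent.MaxTerm.PartA.CritDir

/-!
# Part A: contact points of the minimiser (used in `CritOf`)
-/

open Filter Topology ComplexConjugate

namespace MaxTerm.PA

open Chk.Crt

section basic

variable {q : ℂ}

theorem norm_q_le (hq : ‖q - qc‖ ≤ 2 / 100000) : ‖q‖ ≤ 2803 / 10000 := by
  have h1 : ‖qc‖ ≤ 28026 / 100000 := by
    have h : ‖qc‖ ^ 2 ≤ (28026 / 100000) ^ 2 := by
      rw [← Complex.normSq_eq_norm_sq, Complex.normSq_apply]
      unfold qc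
      norm_num
    exact (pow_le_pow_iff_left₀ (norm_nonneg _) (by norm_num) (by norm_num)).1 h
  have h2 := norm_add_le (q - qc) qc
  rw [sub_add_cancel] at h2
  norm_num at hq h1 ⊢
  linarith

theorem qh_eq : QHat.qh = qc := rfl

/-- Lipschitz estimate in `q` -/
theorem theta_lip (hq : ‖q - qc‖ ≤ 2 / 100000) {z : ℂ} (hz : ‖z‖ = 1) :
    ‖theta q z - theta qc z‖ ≤ 4985 / 10 ^ 8 := by
  obtain ⟨w, hw, rfl⟩ := exists_sq hz
  have hb : ∀ p ∈ Metric.closedBall qc (2 / 100000), ‖p‖ ≤ 2803 / 10000 := by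
    intro p hp
    exact norm_q_le (by simpa [dist_eq_norm] using hp)
  have h := Convex.norm_image_sub_le_of_norm_hasDerivWithin_le (f := fun p => theta p (w ^ 2))
    (f' := fun p => thetaQ p (w ^ 2)) (C := 24925 / 10000) (s := Metric.closedBall qc (2 / 100000))
    (fun p hp => (hasDerivAt_theta (lt_of_le_of_lt (hb p hp) (by norm_num)) hz).hasDerivWithinAt)
    (fun p hp => by
      have h1 := thq_thetaQ (hb p hp) hw
      have h2 := norm_thq_le (hb p hp) hw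
      rw [h1, norm_mul, RCLike.norm_conj, hw, one_mul] at h2
      exact h2)
    (convex_closedBall _ _) (x := qc) (y := q) (Metric.mem_closedBall_self (by norm_num))
    (by simpa [dist_eq_norm] using hq)
  refine h.trans ((mul_le_mul_of_nonneg_left hq (by norm_num)).trans ?_)
  norm_num

end basic

/-! ### localisation by the exact certificate -/

/-- the approximation of `theta qc z` -/
noncomputable def FF (z : ℂ) : ℂ := QHat.em z 0 + QHat.qh * QHat.em z 1 + QHat.p2 * QHat.em z 2 +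
  QHat.p3 * QHat.em z 3 + QHat.p4 * QHat.em z 4 + QHat.p5 * QHat.em z 5

theorem theta_FF {z : ℂ} (hz : ‖z‖ = 1) : ‖theta qc z - FF z‖ ≤ 1 / 10 ^ 10 := by
  have hq := QHat.norm_qh
  have hq1 : ‖QHat.qh‖ < 1 := lt_of_le_of_lt hq (by norm_num)
  have h1 := QHat.theta_split hq1 hz
  have h2 : 2 * (‖QHat.qh‖ ^ 21 / (1 - ‖QHat.qh‖)) ≤ 1 / 10 ^ 11 := by
    have h3 : ‖QHat.qh‖ ^ 21 ≤ (2803 / 10000) ^ 21 := pow_le_pow_left₀ (norm_nonneg _) hq 21
    have h4 : 0 < 1 - ‖QHat.qh‖ := by linarith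
    rw [← mul_div_assoc, div_le_iff₀ h4]
    have h5 : (7197 / 10000 : ℝ) ≤ 1 - ‖QHat.qh‖ := by linarith
    have h6 : 2 * ‖QHat.qh‖ ^ 21 ≤ 2 * (2803 / 10000) ^ 21 := by linarith
    refine h6.trans ?_
    calc (2 : ℝ) * (2803 / 10000) ^ 21 ≤ 1 / 10 ^ 11 * (7197 / 10000) := by norm_num
      _ ≤ _ := mul_le_mul_of_nonneg_left h5 (by norm_num)
  have hb : ∀ (n : ℕ) (p : ℂ) (m : ℕ), ‖QHat.qh ^ n - p‖ ≤ 2 * (1 / 10 ^ 14) →
      ‖(QHat.qh ^ n - p) * QHat.em z m‖ ≤ 4 / 10 ^ 14 := by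
    intro n p m h
    rw [norm_mul]
    calc ‖QHat.qh ^ n - p‖ * ‖QHat.em z m‖ ≤ (2 * (1 / 10 ^ 14)) * 2 :=
          mul_le_mul h (QHat.norm_em_le hz m) (norm_nonneg _) (by norm_num)
      _ = _ := by norm_num
  have g2 := hb 3 QHat.p2 2 QHat.b3
  have g3 := hb 6 QHat.p3 3 QHat.b6
  have g4 := hb 10 QHat.p4 4 QHat.b10
  have g5 := hb 15 QHat.p5 5 QHat.b15
  have e : theta qc z - FF z = (theta QHat.qh z - (QHat.em z 0 + QHat.qh * QHat.em z 1 +
      QHat.qh ^ 3 * QHat.em z 2 + QHat.qh ^ 6 * QHat.em z 3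
      + QHat.qh ^ 10 * QHat.em z 4 + QHat.qh ^ 15 * QHat.em z 5)) + (QHat.qh ^ 3 - QHat.p2) * QHat.em z 2
      + (QHat.qh ^ 6 - QHat.p3) * QHat.em z 3 + (QHat.qh ^ 10 - QHat.p4) * QHat.em z 4
      + (QHat.qh ^ 15 - QHat.p5) * QHat.em z 5 := by
    rw [FF, ← qh_eq]; ring
  rw [e]
  refine (norm_add_le _ _).trans ?_
  refine (add_le_add_left (norm_add_le _ _) _).trans ?_
  refine (add_le_add_left (add_le_add_left (norm_add_le _ _) _) _).trans ?_
  refine (add_le_add_left (add_le_add_left (add_le_add_left (norm_add_le _ _) _) _) _).trans ?_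
  have : (4 : ℝ) / 10 ^ 14 * 4 + 1 / 10 ^ 11 ≤ 1 / 10 ^ 10 := by norm_num
  linarith

theorem norm_FF_sq {z : ℂ} (hz : ‖z‖ = 1) :
    ‖FF z‖ ^ 2 = (2 + 2 * z.re) * (QHat.Are z.re ^ 2 + QHat.Aim z.re ^ 2) := by
  rw [FF, QHat.approx_eq hz, norm_mul, mul_pow, ← Complex.normSq_eq_norm_sq, ← Complex.normSq_eq_norm_sq]
  have h1 : Complex.normSq (1 + z) = 2 + 2 * z.re := by
    have h2 : Complex.normSq z = 1 := by rw [Complex.normSq_eq_norm_sq, hz]; norm_num
    rw [Complex.normSq_apply] at h2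
    rw [Complex.normSq_apply, Complex.add_re, Complex.add_im, Complex.one_re, Complex.one_im]
    linear_combination h2
  have h3 : Complex.normSq ⟨QHat.Are z.re, QHat.Aim z.re⟩ = QHat.Are z.re ^ 2 + QHat.Aim z.re ^ 2 := by
    rw [Complex.normSq_apply]; ring
  rw [h1, h3]

theorem Q_ge {x : ℝ} (hx : |x| ≤ 1) : 87 / 100 ≤ QHat.Q x := by
  have h1 := QHat.pow_bd hx 1
  have h2 : 0 ≤ x ^ 2 := sq_nonneg x
  have h3 := QHat.pow_bd hx 3
  have h4 : 0 ≤ x ^ 4 := by positivity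
  have h5 := QHat.pow_bd hx 5
  have h6 := QHat.pow_bd hx 6
  have h7 := QHat.pow_bd hx 7
  have h8 := QHat.pow_bd hx 8
  rw [pow_one] at h1
  unfold QHat.Q
  linarith [h1.1, h3.1, h5.1, h5.2, h6.1, h7.1, h8.1]

/-- second contact value of `x = Re z` -/
noncomputable def x1c : ℝ := 55216005659 / 200000000000

theorem contact_poly {q z : ℂ} (hq : ‖q - qc‖ ≤ 2 / 100000) (hz : ‖z‖ = 1)
    (h : ‖theta q 1‖ ≤ ‖theta q z‖) : (1 - z.re) * (z.re - x1c) ^ 2 ≤ 392 / 10 ^ 6 := by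
  have hx : |z.re| ≤ 1 := hz ▸ Complex.abs_re_le_norm z
  have a1 := theta_lip hq hz
  have a2 := theta_lip hq (norm_one (α := ℂ))
  have a3 := theta_FF hz
  have a4 := theta_FF (norm_one (α := ℂ))
  have b1 : ‖theta q z‖ ≤ ‖FF z‖ + (4985 / 10 ^ 8 + 1 / 10 ^ 10) := by
    have e : theta q z = FF z + ((theta q z - theta qc z) + (theta qc z - FF z)) := by ring
    have t1 := norm_add_le (FF z) ((theta q z - theta qc z) + (theta qc z - FF z))
    have t2 := norm_add_le (theta q z - theta qc z) (theta qc z - FF z)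
    rw [← e] at t1
    linarith
  have b2 : ‖FF 1‖ ≤ ‖theta q 1‖ + (4985 / 10 ^ 8 + 1 / 10 ^ 10) := by
    have e : FF 1 = theta q 1 - ((theta q 1 - theta qc 1) + (theta qc 1 - FF 1)) := by ring
    have t1 := norm_sub_le (theta q 1) ((theta q 1 - theta qc 1) + (theta qc 1 - FF 1))
    have t2 := norm_add_le (theta q 1 - theta qc 1) (theta qc 1 - FF 1)
    rw [← e] at t1
    linarith
  have b3 : ‖FF 1‖ ≤ ‖FF z‖ + 9971 / 10 ^ 8 := by
    have : (2 : ℝ) * (4985 / 10 ^ 8 + 1 / 10 ^ 10) ≤ 9971 / 10 ^ 8 := by norm_num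
    linarith
  have c1 := norm_FF_sq hz
  have c2 := norm_FF_sq (norm_one (α := ℂ))
  rw [Complex.one_re] at c2
  have c3 := QHat.cert_id z.re
  have c4 := QHat.cert_id 1
  have hR : QHat.R 1 ≤ 1 / 10 ^ 8 := by unfold QHat.R; norm_num
  have hR' := QHat.R_pos hx
  have hQ := Q_ge hx
  rw [← c1] at c3
  rw [← c2] at c4
  have d1 : ‖FF 1‖ ≤ 171 / 100 := by
    have : ‖FF 1‖ ^ 2 ≤ (171 / 100) ^ 2 := by
      have hR1 : 0 ≤ QHat.R 1 := QHat.R_pos (by norm_num)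
      norm_num at c4 ⊢
      linarith
    exact (pow_le_pow_iff_left₀ (norm_nonneg _) (by norm_num) (by norm_num)).1 this
  have d0 := norm_nonneg (FF z)
  have d00 := norm_nonneg (FF 1)
  have d2 : ‖FF 1‖ ^ 2 - ‖FF z‖ ^ 2 ≤ 9971 / 10 ^ 8 * (2 * (171 / 100)) := by
    rcases le_total ‖FF z‖ ‖FF 1‖ with h0 | h0
    · have e : ‖FF 1‖ ^ 2 - ‖FF z‖ ^ 2 = (‖FF 1‖ - ‖FF z‖) * (‖FF 1‖ + ‖FF z‖) := by ring
      rw [e]
      exact mul_le_mul (by linarith) (by linarith) (by linarith) (by norm_num)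
    · have : ‖FF 1‖ ^ 2 ≤ ‖FF z‖ ^ 2 := pow_le_pow_left₀ d00 h0 2
      have : (0 : ℝ) ≤ 9971 / 10 ^ 8 * (2 * (171 / 100)) := by norm_num
      linarith
  have d3 : (1 - z.re) * (z.re - x1c) ^ 2 * QHat.Q z.re ≤ 34102 / 10 ^ 8 := by
    have e : (1 - (1 : ℝ)) * (1 - 55216005659 / 200000000000) ^ 2 * QHat.Q 1 = 0 := by ring
    rw [e] at c4
    unfold x1c
    norm_num at d2 hR c3 c4 ⊢
    linarith
  have d4 : 0 ≤ (1 - z.re) * (z.re - x1c) ^ 2 :=
    mul_nonneg (by linarith [(abs_le.1 hx).2]) (sq_nonneg _)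
  have d5 : (1 - z.re) * (z.re - x1c) ^ 2 * (87 / 100) ≤ (1 - z.re) * (z.re - x1c) ^ 2 * QHat.Q z.re :=
    mul_le_mul_of_nonneg_left hQ d4
  norm_num at d3 d5 ⊢
  linarith

theorem poly_cases {x : ℝ} (hx : |x| ≤ 1) (h : (1 - x) * (x - x1c) ^ 2 ≤ 392 / 10 ^ 6) :
    1 - 77 / 10 ^ 5 ≤ x ∨ |x - x1c| ≤ 2375 / 10 ^ 5 := by
  obtain ⟨hx1, hx2⟩ := abs_le.1 hx
  by_contra hcon
  push Not at hcon
  obtain ⟨h1, h2⟩ := hcon
  have hs0 : 0 ≤ (x - x1c) ^ 2 := sq_nonneg _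
  have ex1 : x1c = 55216005659 / 200000000000 := rfl
  rcases le_total (6 / 10) x with h6 | h6
  · -- `x ≥ 0.6`
    have s1 : (1049 / 10000 : ℝ) ≤ (x - x1c) ^ 2 := by
      have : (3239 / 10000 : ℝ) ≤ x - x1c := by rw [ex1]; linarith
      nlinarith
    have u1 : 1 - x ≤ 374 / 10 ^ 5 := by
      by_contra hc
      push Not at hc
      have : (374 / 10 ^ 5 : ℝ) * (1049 / 10000) ≤ (1 - x) * (x - x1c) ^ 2 :=
        mul_le_mul hc.le s1 (by norm_num) (by linarith)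
      norm_num at this h
      linarith
    have s2 : (5185 / 10000 : ℝ) ≤ (x - x1c) ^ 2 := by
      have : (72016 / 100000 : ℝ) ≤ x - x1c := by rw [ex1]; linarith
      nlinarith
    have : (77 / 10 ^ 5 : ℝ) * (5185 / 10000) ≤ (1 - x) * (x - x1c) ^ 2 :=
      mul_le_mul (by linarith) s2 (by norm_num) (by linarith)
    norm_num at this h
    linarith
  · have s1 : (x - x1c) ^ 2 ≤ 98 / 10 ^ 5 := by
      by_contra hc
      push Not at hc
      have : (4 / 10 : ℝ) * (98 / 10 ^ 5) < (1 - x) * (x - x1c) ^ 2 :=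
        mul_lt_mul' (by linarith) hc (by norm_num) (by linarith)
      norm_num at this h
      linarith
    have a1 : |x - x1c| ≤ 314 / 10 ^ 4 := by
      refine abs_le_of_sq_le_sq ?_ (by norm_num)
      norm_num at s1 ⊢
      linarith
    have b1 := (abs_le.1 a1).2
    rw [ex1] at b1
    have s2 : (x - x1c) ^ 2 ≤ 5662 / 10 ^ 7 := by
      by_contra hc
      push Not at hc
      have : (6925 / 10000 : ℝ) * (5662 / 10 ^ 7) < (1 - x) * (x - x1c) ^ 2 :=
        mul_lt_mul' (by linarith) hc (by norm_num) (by linarith)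
      norm_num at this h
      linarith
    have a2 : |x - x1c| ≤ 238 / 10 ^ 4 := by
      refine abs_le_of_sq_le_sq ?_ (by norm_num)
      norm_num at s2 ⊢
      linarith
    have b2 := (abs_le.1 a2).2
    rw [ex1] at b2
    have s3 : (x - x1c) ^ 2 ≤ 56 / 10 ^ 5 := by
      by_contra hc
      push Not at hc
      have : (70011 / 100000 : ℝ) * (56 / 10 ^ 5) < (1 - x) * (x - x1c) ^ 2 :=
        mul_lt_mul' (by linarith) hc (by norm_num) (by linarith)
      norm_num at this h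
      linarith
    have a3 : |x - x1c| ≤ 2375 / 10 ^ 5 := by
      refine abs_le_of_sq_le_sq ?_ (by norm_num)
      norm_num at s3 ⊢
      linarith
    linarith

end MaxTerm.PA
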