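import Pool.Agent.MaxTerm.PartA.NearDefs
import Pool.Agent.MaxTerm.PartA.Bi
import Pool.Agent.MaxTerm.Danskin

/-!
# Part A: series facts for `th`, `thw`, `thq` (used in `CritOf`)
-/

open Filter Topology ComplexConjugate

namespace MaxTerm.PA

/-! ### tails -/

theorem tail5 {a : ℕ → ℂ} {C : ℝ} (h : ∀ n, ‖a (n + 5)‖ ≤ C * (1 / 100) ^ n) :
    Summable a ∧ ‖(∑' n, a n) - ∑ n ∈ Finset.range 5, a n‖ ≤ C * (100 / 99) := by
  have hgeo : HasSum (fun n : ℕ => C * (1 / 100 : ℝ) ^ n) (C * (1 - 1 / 100)⁻¹) :=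
    (hasSum_geometric_of_lt_one (by norm_num) (by norm_num)).mul_left _
  have hs5 : Summable fun n => a (n + 5) := Summable.of_norm_bounded hgeo.summable h
  have hs : Summable a := (summable_nat_add_iff 5).1 hs5
  refine ⟨hs, ?_⟩
  have e1 := hs.sum_add_tsum_nat_add 5
  rw [← e1, add_sub_cancel_left]
  refine (tsum_of_norm_bounded hgeo h).trans (le_of_eq ?_)
  norm_num

theorem ee_ge (n : ℕ) : 15 + 6 * n ≤ ee (n + 5) := by
  unfold ee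
  have h3 : (n + 5) * (n + 5 + 1) = (15 + 6 * n) * 2 + (n * n - n) := by
    have h : n ≤ n * n := Nat.le_mul_self n
    zify [h]
    ring
  rw [h3]
  omega

theorem pow_ee_le {r : ℝ} (h0 : 0 ≤ r) (hr : r ≤ 2803 / 10000) (n : ℕ) :
    r ^ ee (n + 5) ≤ 524 / 10 ^ 11 * (1 / 2000) ^ n := by
  have h1 : r ≤ 1 := by linarith [show (2803 / 10000 : ℝ) ≤ 1 by norm_num]
  have h2 : r ^ ee (n + 5) ≤ r ^ (15 + 6 * n) := pow_le_pow_of_le_one h0 h1 (ee_ge n)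
  have h3 : r ^ (15 + 6 * n) ≤ (2803 / 10000) ^ (15 + 6 * n) := pow_le_pow_left₀ h0 hr _
  refine (h2.trans h3).trans ?_
  rw [pow_add, pow_mul]
  refine mul_le_mul (by norm_num) (pow_le_pow_left₀ (by norm_num) (by norm_num) n)
    (by positivity) (by norm_num)

theorem pow_ee_le' {r : ℝ} (h0 : 0 ≤ r) (hr : r ≤ 2803 / 10000) (n : ℕ) :
    r ^ (ee (n + 5) - 1) ≤ 187 / 10 ^ 10 * (1 / 2000) ^ n := by
  have h1 : r ≤ 1 := by linarith [show (2803 / 10000 : ℝ) ≤ 1 by norm_num]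
  have h4 : 14 + 6 * n ≤ ee (n + 5) - 1 := by
    have := ee_ge n
    omega
  have h2 : r ^ (ee (n + 5) - 1) ≤ r ^ (14 + 6 * n) := pow_le_pow_of_le_one h0 h1 h4
  have h3 : r ^ (14 + 6 * n) ≤ (2803 / 10000) ^ (14 + 6 * n) := pow_le_pow_left₀ h0 hr _
  refine (h2.trans h3).trans ?_
  rw [pow_add, pow_mul]
  refine mul_le_mul (by norm_num) (pow_le_pow_left₀ (by norm_num) (by norm_num) n)
    (by positivity) (by norm_num)

theorem odd_le (n : ℕ) : (2 * ((n + 5 : ℕ) : ℝ) + 1) ^ 2 ≤ 121 * 20 ^ n := by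
  induction n with
  | zero => norm_num
  | succ n ih =>
    have h1 : (0 : ℝ) ≤ n := Nat.cast_nonneg n
    rw [pow_succ (20 : ℝ) n]
    push_cast at ih ⊢
    nlinarith

theorem ee_le (n : ℕ) : (ee (n + 5) : ℝ) ≤ 15 * 20 ^ n := by
  have h1 : (ee (n + 5) : ℝ) ≤ ((n + 5 : ℕ) : ℝ) * ((n + 5 + 1 : ℕ) : ℝ) / 2 := by
    unfold ee
    rw [le_div_iff₀ (by norm_num)]
    have := Nat.div_mul_le_self ((n + 5) * (n + 5 + 1)) 2
    exact_mod_cast this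
  refine h1.trans ?_
  clear h1
  induction n with
  | zero => norm_num
  | succ n ih =>
    have h1 : (0 : ℝ) ≤ n := Nat.cast_nonneg n
    rw [pow_succ (20 : ℝ) n]
    push_cast at ih ⊢
    nlinarith

theorem odd_one_le (n : ℕ) : (2 * ((n + 5 : ℕ) : ℝ) + 1) ≤ 11 * 20 ^ n := by
  induction n with
  | zero => norm_num
  | succ n ih =>
    have h1 : (0 : ℝ) ≤ n := Nat.cast_nonneg n
    rw [pow_succ (20 : ℝ) n]
    push_cast at ih ⊢
    nlinarith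

theorem norm_sm_le {w : ℂ} (hw : ‖w‖ = 1) (k : ℕ) : ‖w ^ k + conj w ^ k‖ ≤ 2 := by
  refine (norm_add_le _ _).trans ?_
  rw [norm_pow, norm_pow, RCLike.norm_conj, hw, one_pow]
  norm_num

theorem norm_df_le {w : ℂ} (hw : ‖w‖ = 1) (k : ℕ) : ‖w ^ k - conj w ^ k‖ ≤ 2 := by
  refine (norm_sub_le _ _).trans ?_
  rw [norm_pow, norm_pow, RCLike.norm_conj, hw, one_pow]
  norm_num

theorem mon_const (q : ℂ) (n : ℕ) : mon (fun _ => q) n = q ^ ee n := by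
  unfold mon ee
  rw [Finset.prod_pow_eq_pow_sum]
  congr 1
  have h1 : ∑ i ∈ Finset.range n, (n - i) = ∑ i ∈ Finset.range n, (i + 1) := by
    rw [← Finset.sum_range_reflect]
    refine Finset.sum_congr rfl fun i hi => ?_
    have := Finset.mem_range.1 hi
    omega
  have h2 := Finset.sum_range_id_mul_two (n + 1)
  rw [h1]
  have h3 : ∑ i ∈ Finset.range n, (i + 1) = ∑ i ∈ Finset.range (n + 1), i := by
    rw [Finset.sum_range_succ']; simp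
  rw [h3]
  rw [Nat.add_sub_cancel] at h2
  rw [mul_comm n (n + 1)]
  omega

section terms

variable {q w : ℂ}

theorem tail_a (hq : ‖q‖ ≤ 2803 / 10000) (hw : ‖w‖ = 1) (n : ℕ) :
    ‖q ^ ee (n + 5) * w ^ (2 * (n + 5) + 1)‖ ≤ 524 / 10 ^ 11 * (1 / 100) ^ n := by
  rw [norm_mul, norm_pow, norm_pow, hw, one_pow, mul_one]
  refine (pow_ee_le (norm_nonneg _) hq n).trans ?_
  exact mul_le_mul_of_nonneg_left (pow_le_pow_left₀ (by norm_num) (by norm_num) n) (by norm_num)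

theorem tail_0 (hq : ‖q‖ ≤ 2803 / 10000) (hw : ‖w‖ = 1) (n : ℕ) :
    ‖q ^ ee (n + 5) * (w ^ (2 * (n + 5) + 1) + conj w ^ (2 * (n + 5) + 1))‖
      ≤ 1048 / 10 ^ 11 * (1 / 100) ^ n := by
  rw [norm_mul, norm_pow]
  calc ‖q‖ ^ ee (n + 5) * ‖w ^ (2 * (n + 5) + 1) + conj w ^ (2 * (n + 5) + 1)‖
      ≤ (524 / 10 ^ 11 * (1 / 2000) ^ n) * 2 :=
        mul_le_mul (pow_ee_le (norm_nonneg _) hq n) (norm_sm_le hw _) (norm_nonneg _) (by positivity)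
    _ ≤ (524 / 10 ^ 11 * (1 / 100) ^ n) * 2 := by
        gcongr
        norm_num
    _ = _ := by ring

theorem pow_split (n : ℕ) : (20 : ℝ) ^ n * (1 / 2000) ^ n = (1 / 100) ^ n := by
  rw [← mul_pow]
  norm_num

theorem tail_1 (hq : ‖q‖ ≤ 2803 / 10000) (hw : ‖w‖ = 1) (n : ℕ) :
    ‖(2 * ((n + 5 : ℕ) : ℂ) + 1) * q ^ ee (n + 5) *
      (w ^ (2 * (n + 5) + 1) - conj w ^ (2 * (n + 5) + 1))‖ ≤ 11528 / 10 ^ 11 * (1 / 100) ^ n := by
  have e : (2 * ((n + 5 : ℕ) : ℂ) + 1) = ((2 * ((n + 5 : ℕ) : ℝ) + 1 : ℝ) : ℂ) := by push_cast; ring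
  have h0 : (0 : ℝ) ≤ 2 * ((n + 5 : ℕ) : ℝ) + 1 := by positivity
  rw [norm_mul, norm_mul, norm_pow, e, Complex.norm_real, Real.norm_of_nonneg h0]
  calc (2 * ((n + 5 : ℕ) : ℝ) + 1) * ‖q‖ ^ ee (n + 5) * ‖w ^ (2 * (n + 5) + 1) - conj w ^ (2 * (n + 5) + 1)‖
      ≤ (11 * 20 ^ n) * (524 / 10 ^ 11 * (1 / 2000) ^ n) * 2 := by
        refine mul_le_mul ?_ (norm_df_le hw _) (norm_nonneg _) (by positivity)
        exact mul_le_mul (odd_one_le n) (pow_ee_le (norm_nonneg _) hq n) (by positivity) (by positivity)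
    _ = 11528 / 10 ^ 11 * (20 ^ n * (1 / 2000) ^ n) := by ring
    _ = _ := by rw [pow_split]

theorem tail_2 (hq : ‖q‖ ≤ 2803 / 10000) (hw : ‖w‖ = 1) (n : ℕ) :
    ‖(2 * ((n + 5 : ℕ) : ℂ) + 1) ^ 2 * q ^ ee (n + 5) *
      (w ^ (2 * (n + 5) + 1) + conj w ^ (2 * (n + 5) + 1))‖ ≤ 126808 / 10 ^ 11 * (1 / 100) ^ n := by
  have e : (2 * ((n + 5 : ℕ) : ℂ) + 1) = ((2 * ((n + 5 : ℕ) : ℝ) + 1 : ℝ) : ℂ) := by push_cast; ring
  have h0 : (0 : ℝ) ≤ 2 * ((n + 5 : ℕ) : ℝ) + 1 := by positivity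
  rw [norm_mul, norm_mul, norm_pow, norm_pow, e, Complex.norm_real, Real.norm_of_nonneg h0]
  calc (2 * ((n + 5 : ℕ) : ℝ) + 1) ^ 2 * ‖q‖ ^ ee (n + 5) * ‖w ^ (2 * (n + 5) + 1) + conj w ^ (2 * (n + 5) + 1)‖
      ≤ (121 * 20 ^ n) * (524 / 10 ^ 11 * (1 / 2000) ^ n) * 2 := by
        refine mul_le_mul ?_ (norm_sm_le hw _) (norm_nonneg _) (by positivity)
        exact mul_le_mul (odd_le n) (pow_ee_le (norm_nonneg _) hq n) (by positivity) (by positivity)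
    _ = 126808 / 10 ^ 11 * (20 ^ n * (1 / 2000) ^ n) := by ring
    _ = _ := by rw [pow_split]

theorem tail_q (hq : ‖q‖ ≤ 2803 / 10000) (hw : ‖w‖ = 1) (n : ℕ) :
    ‖(ee (n + 5) : ℂ) * q ^ (ee (n + 5) - 1) *
      (w ^ (2 * (n + 5) + 1) + conj w ^ (2 * (n + 5) + 1))‖ ≤ 561 / 10 ^ 9 * (1 / 100) ^ n := by
  rw [norm_mul, norm_mul, norm_pow, Complex.norm_natCast]
  calc (ee (n + 5) : ℝ) * ‖q‖ ^ (ee (n + 5) - 1) * ‖w ^ (2 * (n + 5) + 1) + conj w ^ (2 * (n + 5) + 1)‖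
      ≤ (15 * 20 ^ n) * (187 / 10 ^ 10 * (1 / 2000) ^ n) * 2 := by
        refine mul_le_mul ?_ (norm_sm_le hw _) (norm_nonneg _) (by positivity)
        exact mul_le_mul (ee_le n) (pow_ee_le' (norm_nonneg _) hq n) (by positivity) (by positivity)
    _ = 561 / 10 ^ 9 * (20 ^ n * (1 / 2000) ^ n) := by ring
    _ = _ := by rw [pow_split]

end terms

/-- second derivative in `t` -/
noncomputable def thww (q w : ℂ) : ℂ :=
  -∑' n : ℕ, (2 * (n : ℂ) + 1) ^ 2 * q ^ ee n * (w ^ (2 * n + 1) + conj w ^ (2 * n + 1))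

/-! ### finite parts -/

/-- finite part of `th` -/
noncomputable def pT0 (q w : ℂ) : ℂ :=
  (w + conj w) + q * (w ^ 3 + conj w ^ 3) + q ^ 3 * (w ^ 5 + conj w ^ 5)
    + q ^ 6 * (w ^ 7 + conj w ^ 7) + q ^ 10 * (w ^ 9 + conj w ^ 9)

/-- finite part of `I * thw` -/
noncomputable def pT1 (q w : ℂ) : ℂ :=
  Complex.I * ((w - conj w) + 3 * (q * (w ^ 3 - conj w ^ 3)) + 5 * (q ^ 3 * (w ^ 5 - conj w ^ 5))
    + 7 * (q ^ 6 * (w ^ 7 - conj w ^ 7)) + 9 * (q ^ 10 * (w ^ 9 - conj w ^ 9)))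

/-- finite part of `thww` -/
noncomputable def pT2 (q w : ℂ) : ℂ :=
  -((w + conj w) + 9 * (q * (w ^ 3 + conj w ^ 3)) + 25 * (q ^ 3 * (w ^ 5 + conj w ^ 5))
    + 49 * (q ^ 6 * (w ^ 7 + conj w ^ 7)) + 81 * (q ^ 10 * (w ^ 9 + conj w ^ 9)))

/-- finite part of `thq` -/
noncomputable def pTq (q w : ℂ) : ℂ :=
  (w ^ 3 + conj w ^ 3) + 3 * (q ^ 2 * (w ^ 5 + conj w ^ 5))
    + 6 * (q ^ 5 * (w ^ 7 + conj w ^ 7)) + 10 * (q ^ 9 * (w ^ 9 + conj w ^ 9))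

section approx

variable {q w : ℂ}

theorem th_eq (hq : ‖q‖ ≤ 2803 / 10000) (hw : ‖w‖ = 1) :
    th q w = ∑' n : ℕ, q ^ ee n * (w ^ (2 * n + 1) + conj w ^ (2 * n + 1)) := by
  have hcw : ‖conj w‖ = 1 := by rw [RCLike.norm_conj, hw]
  unfold th half
  simp_rw [mon_const, mul_add]
  exact ((tail5 (tail_a hq hw)).1.tsum_add (tail5 (tail_a hq hcw)).1).symm

theorem th_approx (hq : ‖q‖ ≤ 2803 / 10000) (hw : ‖w‖ = 1) :
    ‖th q w - pT0 q w‖ ≤ 11 / 10 ^ 9 := by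
  rw [th_eq hq hw]
  have h := (tail5 (a := fun n : ℕ => q ^ ee n * (w ^ (2 * n + 1) + conj w ^ (2 * n + 1)))
    (tail_0 hq hw)).2
  have e : ∑ n ∈ Finset.range 5, q ^ ee n * (w ^ (2 * n + 1) + conj w ^ (2 * n + 1)) = pT0 q w := by
    simp only [Finset.sum_range_succ, Finset.sum_range_zero, ee, pT0]
    norm_num
  rw [e] at h
  refine h.trans ?_
  norm_num

theorem thw_approx (hq : ‖q‖ ≤ 2803 / 10000) (hw : ‖w‖ = 1) :
    ‖Complex.I * thw q w - pT1 q w‖ ≤ 12 / 10 ^ 8 := by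
  have h := (tail5 (a := fun n : ℕ => (2 * (n : ℂ) + 1) * q ^ ee n * (w ^ (2 * n + 1) - conj w ^ (2 * n + 1)))
    (tail_1 hq hw)).2
  have e : pT1 q w = Complex.I * ∑ n ∈ Finset.range 5, (2 * (n : ℂ) + 1) * q ^ ee n *
      (w ^ (2 * n + 1) - conj w ^ (2 * n + 1)) := by
    simp only [Finset.sum_range_succ, Finset.sum_range_zero, ee, pT1]
    push_cast
    norm_num
    ring
  rw [e, thw, ← mul_sub, norm_mul, Complex.norm_I, one_mul]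
  refine h.trans ?_
  norm_num

theorem thww_approx (hq : ‖q‖ ≤ 2803 / 10000) (hw : ‖w‖ = 1) :
    ‖thww q w - pT2 q w‖ ≤ 13 / 10 ^ 7 := by
  have h := (tail5 (a := fun n : ℕ => (2 * (n : ℂ) + 1) ^ 2 * q ^ ee n *
    (w ^ (2 * n + 1) + conj w ^ (2 * n + 1))) (tail_2 hq hw)).2
  have e : pT2 q w = -∑ n ∈ Finset.range 5, (2 * (n : ℂ) + 1) ^ 2 * q ^ ee n *
      (w ^ (2 * n + 1) + conj w ^ (2 * n + 1)) := by
    simp only [Finset.sum_range_succ, Finset.sum_range_zero, ee, pT2]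
    push_cast
    norm_num
    ring
  rw [e, thww, ← neg_sub', norm_neg]
  refine h.trans ?_
  norm_num

theorem thq_approx (hq : ‖q‖ ≤ 2803 / 10000) (hw : ‖w‖ = 1) :
    ‖thq q w - pTq q w‖ ≤ 6 / 10 ^ 7 := by
  have h := (tail5 (a := fun n : ℕ => (ee n : ℂ) * q ^ (ee n - 1) *
    (w ^ (2 * n + 1) + conj w ^ (2 * n + 1))) (tail_q hq hw)).2
  have e : ∑ n ∈ Finset.range 5, (ee n : ℂ) * q ^ (ee n - 1) *
      (w ^ (2 * n + 1) + conj w ^ (2 * n + 1)) = pTq q w := by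
    simp only [Finset.sum_range_succ, Finset.sum_range_zero, ee, pTq]
    push_cast
    norm_num
    ring
  rw [e] at h
  refine h.trans ?_
  norm_num

theorem norm_pT0_le (hq : ‖q‖ ≤ 2803 / 10000) (hw : ‖w‖ = 1) : ‖pT0 q w‖ ≤ 262 / 100 := by
  have b : ∀ (a k : ℕ), ‖q ^ a * (w ^ k + conj w ^ k)‖ ≤ (2803 / 10000) ^ a * 2 := by
    intro a k
    rw [norm_mul, norm_pow]
    exact mul_le_mul (pow_le_pow_left₀ (norm_nonneg _) hq a) (norm_sm_le hw k) (norm_nonneg _)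
      (by positivity)
  have b1 := b 1 3
  have b0 := b 0 1
  have b3 := b 3 5
  have b6 := b 6 7
  have b10 := b 10 9
  rw [pow_zero, one_mul, pow_one, pow_one] at b0
  rw [pow_one] at b1
  unfold pT0
  have t1 := norm_add_le ((w + conj w) + q * (w ^ 3 + conj w ^ 3) + q ^ 3 * (w ^ 5 + conj w ^ 5)
    + q ^ 6 * (w ^ 7 + conj w ^ 7)) (q ^ 10 * (w ^ 9 + conj w ^ 9))
  have t2 := norm_add_le ((w + conj w) + q * (w ^ 3 + conj w ^ 3) + q ^ 3 * (w ^ 5 + conj w ^ 5))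
    (q ^ 6 * (w ^ 7 + conj w ^ 7))
  have t3 := norm_add_le ((w + conj w) + q * (w ^ 3 + conj w ^ 3)) (q ^ 3 * (w ^ 5 + conj w ^ 5))
  have t4 := norm_add_le (w + conj w) (q * (w ^ 3 + conj w ^ 3))
  linarith

theorem norm_pT1_le (hq : ‖q‖ ≤ 2803 / 10000) (hw : ‖w‖ = 1) : ‖pT1 q w‖ ≤ 4 := by
  have b : ∀ (c : ℝ) (a k : ℕ), 0 ≤ c → ‖(c : ℂ) * (q ^ a * (w ^ k - conj w ^ k))‖
      ≤ c * ((2803 / 10000) ^ a * 2) := by
    intro c a k hc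
    rw [norm_mul, norm_mul, norm_pow, Complex.norm_real, Real.norm_of_nonneg hc]
    refine mul_le_mul_of_nonneg_left ?_ hc
    exact mul_le_mul (pow_le_pow_left₀ (norm_nonneg _) hq a) (norm_df_le hw k) (norm_nonneg _)
      (by positivity)
  have b1 := b 3 1 3 (by norm_num)
  have b0 := norm_df_le hw 1
  have b3 := b 5 3 5 (by norm_num)
  have b6 := b 7 6 7 (by norm_num)
  have b10 := b 9 10 9 (by norm_num)
  rw [pow_one, pow_one] at b0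
  rw [pow_one] at b1
  push_cast at b1 b3 b6 b10
  unfold pT1
  rw [norm_mul, Complex.norm_I, one_mul]
  have t1 := norm_add_le ((w - conj w) + 3 * (q * (w ^ 3 - conj w ^ 3)) + 5 * (q ^ 3 * (w ^ 5 - conj w ^ 5))
    + 7 * (q ^ 6 * (w ^ 7 - conj w ^ 7))) (9 * (q ^ 10 * (w ^ 9 - conj w ^ 9)))
  have t2 := norm_add_le ((w - conj w) + 3 * (q * (w ^ 3 - conj w ^ 3)) + 5 * (q ^ 3 * (w ^ 5 - conj w ^ 5)))
    (7 * (q ^ 6 * (w ^ 7 - conj w ^ 7)))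
  have t3 := norm_add_le ((w - conj w) + 3 * (q * (w ^ 3 - conj w ^ 3))) (5 * (q ^ 3 * (w ^ 5 - conj w ^ 5)))
  have t4 := norm_add_le (w - conj w) (3 * (q * (w ^ 3 - conj w ^ 3)))
  linarith

theorem norm_pT2_le (hq : ‖q‖ ≤ 2803 / 10000) (hw : ‖w‖ = 1) : ‖pT2 q w‖ ≤ 9 := by
  have b : ∀ (c : ℝ) (a k : ℕ), 0 ≤ c → ‖(c : ℂ) * (q ^ a * (w ^ k + conj w ^ k))‖
      ≤ c * ((2803 / 10000) ^ a * 2) := by
    intro c a k hc
    rw [norm_mul, norm_mul, norm_pow, Complex.norm_real, Real.norm_of_nonneg hc]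
    refine mul_le_mul_of_nonneg_left ?_ hc
    exact mul_le_mul (pow_le_pow_left₀ (norm_nonneg _) hq a) (norm_sm_le hw k) (norm_nonneg _)
      (by positivity)
  have b1 := b 9 1 3 (by norm_num)
  have b0 := norm_sm_le hw 1
  have b3 := b 25 3 5 (by norm_num)
  have b6 := b 49 6 7 (by norm_num)
  have b10 := b 81 10 9 (by norm_num)
  rw [pow_one, pow_one] at b0
  rw [pow_one] at b1
  push_cast at b1 b3 b6 b10
  unfold pT2
  rw [norm_neg]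
  have t1 := norm_add_le ((w + conj w) + 9 * (q * (w ^ 3 + conj w ^ 3)) + 25 * (q ^ 3 * (w ^ 5 + conj w ^ 5))
    + 49 * (q ^ 6 * (w ^ 7 + conj w ^ 7))) (81 * (q ^ 10 * (w ^ 9 + conj w ^ 9)))
  have t2 := norm_add_le ((w + conj w) + 9 * (q * (w ^ 3 + conj w ^ 3)) + 25 * (q ^ 3 * (w ^ 5 + conj w ^ 5)))
    (49 * (q ^ 6 * (w ^ 7 + conj w ^ 7)))
  have t3 := norm_add_le ((w + conj w) + 9 * (q * (w ^ 3 + conj w ^ 3))) (25 * (q ^ 3 * (w ^ 5 + conj w ^ 5)))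
  have t4 := norm_add_le (w + conj w) (9 * (q * (w ^ 3 + conj w ^ 3)))
  linarith

theorem norm_pTq_le (hq : ‖q‖ ≤ 2803 / 10000) (hw : ‖w‖ = 1) : ‖pTq q w‖ ≤ 24924 / 10000 := by
  have b : ∀ (c : ℝ) (a k : ℕ), 0 ≤ c → ‖(c : ℂ) * (q ^ a * (w ^ k + conj w ^ k))‖
      ≤ c * ((2803 / 10000) ^ a * 2) := by
    intro c a k hc
    rw [norm_mul, norm_mul, norm_pow, Complex.norm_real, Real.norm_of_nonneg hc]
    refine mul_le_mul_of_nonneg_left ?_ hc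
    exact mul_le_mul (pow_le_pow_left₀ (norm_nonneg _) hq a) (norm_sm_le hw k) (norm_nonneg _)
      (by positivity)
  have b1 := norm_sm_le hw 3
  have b3 := b 3 2 5 (by norm_num)
  have b6 := b 6 5 7 (by norm_num)
  have b10 := b 10 9 9 (by norm_num)
  push_cast at b3 b6 b10
  unfold pTq
  have t1 := norm_add_le ((w ^ 3 + conj w ^ 3) + 3 * (q ^ 2 * (w ^ 5 + conj w ^ 5))
    + 6 * (q ^ 5 * (w ^ 7 + conj w ^ 7))) (10 * (q ^ 9 * (w ^ 9 + conj w ^ 9)))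
  have t2 := norm_add_le ((w ^ 3 + conj w ^ 3) + 3 * (q ^ 2 * (w ^ 5 + conj w ^ 5)))
    (6 * (q ^ 5 * (w ^ 7 + conj w ^ 7)))
  have t3 := norm_add_le (w ^ 3 + conj w ^ 3) (3 * (q ^ 2 * (w ^ 5 + conj w ^ 5)))
  linarith

theorem norm_thq_le (hq : ‖q‖ ≤ 2803 / 10000) (hw : ‖w‖ = 1) : ‖thq q w‖ ≤ 24925 / 10000 := by
  have h1 := thq_approx hq hw
  have h2 := norm_pTq_le hq hw
  have h3 := norm_add_le (thq q w - pTq q w) (pTq q w)
  rw [sub_add_cancel] at h3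
  linarith

end approx

end MaxTerm.PA
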