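import Pool.Agent.MaxTerm.PartA.ChkSound1

/-!
# Part A, near region: second order Taylor models in four real variables

A Taylor model `M : TMq` encloses a function `f : Ptq → ℂ` on the box `|y_i| ≤ δ`:
`f y = c + ∑ l_i y_i + ∑_{i ≤ j} q_ij(y) y_i y_j`, with fixed (ghost) numbers `c, l_i` in the balls
`M.c, M.l_i` and with `q_ij(y)` in the balls `M.q_ij` for every `y` in the box.
The ghost numbers are the value and the partial derivatives of `f` at `0`.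
-/

open ComplexConjugate

namespace MaxTerm.PA.Chk

namespace CB

/-- enlarge the radius -/
def inflq (a : CB) (r : Int) : CB := ⟨a.re, a.im, Int.add a.rad r⟩

end CB

/-- second order Taylor model in four real variables -/
structure TMq where
  c : CB
  l1 : CB
  l2 : CB
  l3 : CB
  l4 : CB
  q11 : CB
  q12 : CB
  q13 : CB
  q14 : CB
  q22 : CB
  q23 : CB
  q24 : CB
  q33 : CB
  q34 : CB
  q44 : CB

/-- a point of `ℝ⁴` -/
structure Ptq where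
  y1 : ℝ
  y2 : ℝ
  y3 : ℝ
  y4 : ℝ

/-- the box `|y_i| ≤ δ` -/
structure Ptq.In (δ : Int) (y : Ptq) : Prop where
  h1 : |y.y1| ≤ rv δ
  h2 : |y.y2| ≤ rv δ
  h3 : |y.y3| ≤ rv δ
  h4 : |y.y4| ≤ rv δ

/-- the ghost affine part -/
structure Linq where
  c : ℂ
  l1 : ℂ
  l2 : ℂ
  l3 : ℂ
  l4 : ℂ

/-- the linear part -/
noncomputable def Linq.ev (g : Linq) (y : Ptq) : ℂ := g.l1 * y.y1 + g.l2 * y.y2 + g.l3 * y.y3 + g.l4 * y.y4

/-- the quadratic part (depends on the point) -/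
structure Quadq where
  q11 : ℂ
  q12 : ℂ
  q13 : ℂ
  q14 : ℂ
  q22 : ℂ
  q23 : ℂ
  q24 : ℂ
  q33 : ℂ
  q34 : ℂ
  q44 : ℂ

/-- the quadratic part -/
noncomputable def Quadq.ev (h : Quadq) (y : Ptq) : ℂ :=
  h.q11 * y.y1 * y.y1 + h.q12 * y.y1 * y.y2 + h.q13 * y.y1 * y.y3 + h.q14 * y.y1 * y.y4
    + h.q22 * y.y2 * y.y2 + h.q23 * y.y2 * y.y3 + h.q24 * y.y2 * y.y4
    + h.q33 * y.y3 * y.y3 + h.q34 * y.y3 * y.y4
    + h.q44 * y.y4 * y.y4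

structure Linq.Mem (g : Linq) (M : TMq) : Prop where
  c : CB.Mem g.c M.c
  l1 : CB.Mem g.l1 M.l1
  l2 : CB.Mem g.l2 M.l2
  l3 : CB.Mem g.l3 M.l3
  l4 : CB.Mem g.l4 M.l4

structure Quadq.Mem (h : Quadq) (M : TMq) : Prop where
  q11 : CB.Mem h.q11 M.q11
  q12 : CB.Mem h.q12 M.q12
  q13 : CB.Mem h.q13 M.q13
  q14 : CB.Mem h.q14 M.q14
  q22 : CB.Mem h.q22 M.q22
  q23 : CB.Mem h.q23 M.q23
  q24 : CB.Mem h.q24 M.q24
  q33 : CB.Mem h.q33 M.q33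
  q34 : CB.Mem h.q34 M.q34
  q44 : CB.Mem h.q44 M.q44

/-- `M` encloses `f` on the box `|y_i| ≤ δ` -/
def TMq.Has (δ : Int) (M : TMq) (f : Ptq → ℂ) : Prop :=
  ∃ g : Linq, g.Mem M ∧ ∀ y : Ptq, y.In δ → ∃ h : Quadq, h.Mem M ∧ f y = g.c + g.ev y + h.ev y

namespace TMq

def add (A B : TMq) : TMq :=
  ⟨CB.add A.c B.c, CB.add A.l1 B.l1, CB.add A.l2 B.l2, CB.add A.l3 B.l3, CB.add A.l4 B.l4,
   CB.add A.q11 B.q11, CB.add A.q12 B.q12, CB.add A.q13 B.q13, CB.add A.q14 B.q14, CB.add A.q22 B.q22,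
   CB.add A.q23 B.q23, CB.add A.q24 B.q24, CB.add A.q33 B.q33, CB.add A.q34 B.q34, CB.add A.q44 B.q44⟩

def neg (A : TMq) : TMq :=
  ⟨CB.neg A.c, CB.neg A.l1, CB.neg A.l2, CB.neg A.l3, CB.neg A.l4,
   CB.neg A.q11, CB.neg A.q12, CB.neg A.q13, CB.neg A.q14, CB.neg A.q22,
   CB.neg A.q23, CB.neg A.q24, CB.neg A.q33, CB.neg A.q34, CB.neg A.q44⟩

def conjT (A : TMq) : TMq :=
  ⟨CB.conj A.c, CB.conj A.l1, CB.conj A.l2, CB.conj A.l3, CB.conj A.l4,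
   CB.conj A.q11, CB.conj A.q12, CB.conj A.q13, CB.conj A.q14, CB.conj A.q22,
   CB.conj A.q23, CB.conj A.q24, CB.conj A.q33, CB.conj A.q34, CB.conj A.q44⟩

/-- multiplication by an integer `n ≥ 0` -/
def nsm (n : Int) (A : TMq) : TMq :=
  ⟨CB.nsm n A.c, CB.nsm n A.l1, CB.nsm n A.l2, CB.nsm n A.l3, CB.nsm n A.l4,
   CB.nsm n A.q11, CB.nsm n A.q12, CB.nsm n A.q13, CB.nsm n A.q14, CB.nsm n A.q22,
   CB.nsm n A.q23, CB.nsm n A.q24, CB.nsm n A.q33, CB.nsm n A.q34, CB.nsm n A.q44⟩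

/-- multiplication by a constant -/
def cmul (k : CB) (A : TMq) : TMq :=
  ⟨CB.mul k A.c, CB.mul k A.l1, CB.mul k A.l2, CB.mul k A.l3, CB.mul k A.l4,
   CB.mul k A.q11, CB.mul k A.q12, CB.mul k A.q13, CB.mul k A.q14, CB.mul k A.q22,
   CB.mul k A.q23, CB.mul k A.q24, CB.mul k A.q33, CB.mul k A.q34, CB.mul k A.q44⟩

/-- division by a fixed point real number `p > 0` -/
def sdiv (A : TMq) (p : Int) : TMq :=
  ⟨CB.sdiv A.c p, CB.sdiv A.l1 p, CB.sdiv A.l2 p, CB.sdiv A.l3 p, CB.sdiv A.l4 p,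
   CB.sdiv A.q11 p, CB.sdiv A.q12 p, CB.sdiv A.q13 p, CB.sdiv A.q14 p, CB.sdiv A.q22 p,
   CB.sdiv A.q23 p, CB.sdiv A.q24 p, CB.sdiv A.q33 p, CB.sdiv A.q34 p, CB.sdiv A.q44 p⟩

/-- affine function -/
def affine (c l1 l2 l3 l4 : CB) : TMq :=
  ⟨c, l1, l2, l3, l4, zeroCB, zeroCB, zeroCB, zeroCB, zeroCB, zeroCB, zeroCB, zeroCB, zeroCB, zeroCB⟩

/-- constant -/
def const (c : CB) : TMq := affine c zeroCB zeroCB zeroCB zeroCB

/-- replace the constant by the exact value `0` -/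
def sub0 (A : TMq) : TMq :=
  ⟨zeroCB, A.l1, A.l2, A.l3, A.l4, A.q11, A.q12, A.q13, A.q14, A.q22, A.q23, A.q24, A.q33, A.q34, A.q44⟩

/-- bound of the linear part on the box -/
def lb (δ : Int) (A : TMq) : Int :=
  mulU δ (Int.add (Int.add (CB.up A.l1) (CB.up A.l2)) (Int.add (CB.up A.l3) (CB.up A.l4)))

/-- sum of the bounds of the quadratic coefficients -/
def qs (A : TMq) : Int :=
  Int.add (Int.add (Int.add (CB.up A.q11) (CB.up A.q12)) (Int.add (CB.up A.q13) (CB.up A.q14)))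
    (Int.add (Int.add (Int.add (CB.up A.q22) (CB.up A.q23)) (Int.add (CB.up A.q24) (CB.up A.q33)))
      (Int.add (CB.up A.q34) (CB.up A.q44)))

/-- bound of the quadratic part on the box -/
def qb (δ : Int) (A : TMq) : Int := mulU (mulU δ δ) (qs A)

/-- bound of the whole function on the box -/
def ub (δ : Int) (A : TMq) : Int := Int.add (CB.up A.c) (Int.add (lb δ A) (qb δ A))

/-- a diagonal coefficient of a product -/
def mdiag (na nb : Int) (ac bc aq bq ai bi : CB) : CB :=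
  CB.inflq (CB.add (CB.add (CB.mul ac bq) (CB.mul bc aq)) (CB.mul ai bi))
    (Int.add (mulU na (CB.up bq)) (mulU nb (CB.up aq)))

/-- an off-diagonal coefficient of a product -/
def moff (na nb : Int) (ac bc aq bq ai bi aj bj : CB) : CB :=
  CB.inflq (CB.add (CB.add (CB.mul ac bq) (CB.mul bc aq)) (CB.add (CB.mul ai bj) (CB.mul aj bi)))
    (Int.add (mulU na (CB.up bq)) (mulU nb (CB.up aq)))

/-- product, given the bounds `na` of `ℓ_A + Q_A` and `nb` of `ℓ_B` -/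
def mulN (na nb : Int) (A B : TMq) : TMq :=
  ⟨CB.mul A.c B.c,
   CB.add (CB.mul A.c B.l1) (CB.mul B.c A.l1),
   CB.add (CB.mul A.c B.l2) (CB.mul B.c A.l2),
   CB.add (CB.mul A.c B.l3) (CB.mul B.c A.l3),
   CB.add (CB.mul A.c B.l4) (CB.mul B.c A.l4),
   mdiag na nb A.c B.c A.q11 B.q11 A.l1 B.l1,
   moff na nb A.c B.c A.q12 B.q12 A.l1 B.l1 A.l2 B.l2,
   moff na nb A.c B.c A.q13 B.q13 A.l1 B.l1 A.l3 B.l3,
   moff na nb A.c B.c A.q14 B.q14 A.l1 B.l1 A.l4 B.l4,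
   mdiag na nb A.c B.c A.q22 B.q22 A.l2 B.l2,
   moff na nb A.c B.c A.q23 B.q23 A.l2 B.l2 A.l3 B.l3,
   moff na nb A.c B.c A.q24 B.q24 A.l2 B.l2 A.l4 B.l4,
   mdiag na nb A.c B.c A.q33 B.q33 A.l3 B.l3,
   moff na nb A.c B.c A.q34 B.q34 A.l3 B.l3 A.l4 B.l4,
   mdiag na nb A.c B.c A.q44 B.q44 A.l4 B.l4⟩

/-- product -/
def mul (δ : Int) (A B : TMq) : TMq := mulN (Int.add (lb δ A) (qb δ A)) (lb δ B) A B

/-- `exp (i τ)`, `τ = ∑ t_i y_i` with fixed point reals `t_i` -/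
def expi (δ t1 t2 t3 t4 : Int) : TMq :=
  let T := mulU δ (Int.add (Int.add (absI t1) (absI t2)) (Int.add (absI t3) (absI t4)))
  let k : CB := ⟨-549755813888, 0, Int.add (Int.ediv (Int.mul 2 T) 9) 1⟩
  let b1 : CB := ⟨t1, 0, 0⟩
  let b2 : CB := ⟨t2, 0, 0⟩
  let b3 : CB := ⟨t3, 0, 0⟩
  let b4 : CB := ⟨t4, 0, 0⟩
  ⟨⟨1099511627776, 0, 0⟩, ⟨0, t1, 0⟩, ⟨0, t2, 0⟩, ⟨0, t3, 0⟩, ⟨0, t4, 0⟩,
   CB.mul k (CB.mul b1 b1),
   CB.nsm 2 (CB.mul k (CB.mul b1 b2)),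
   CB.nsm 2 (CB.mul k (CB.mul b1 b3)),
   CB.nsm 2 (CB.mul k (CB.mul b1 b4)),
   CB.mul k (CB.mul b2 b2),
   CB.nsm 2 (CB.mul k (CB.mul b2 b3)),
   CB.nsm 2 (CB.mul k (CB.mul b2 b4)),
   CB.mul k (CB.mul b3 b3),
   CB.nsm 2 (CB.mul k (CB.mul b3 b4)),
   CB.mul k (CB.mul b4 b4)⟩

end TMq


/-! ### soundness -/

theorem CB.Mem.inflq {z e : ℂ} {a : CB} {r : Int} (hz : CB.Mem z a) (he : ‖e‖ ≤ rv r) :
    CB.Mem (z + e) (CB.inflq a r) := by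
  unfold CB.Mem at *
  have h1 : (CB.inflq a r).mid = a.mid := rfl
  have h2 : rv (CB.inflq a r).rad = rv a.rad + rv r := rv_add _ _
  rw [h1, h2]
  calc ‖z + e - a.mid‖ = ‖(z - a.mid) + e‖ := by ring_nf
    _ ≤ ‖z - a.mid‖ + ‖e‖ := norm_add_le _ _
    _ ≤ _ := add_le_add hz he

theorem CB.mem_zeroq : CB.Mem 0 zeroCB := by
  unfold CB.Mem
  have h1 : zeroCB.mid = 0 := by
    apply Complex.ext <;> simp [CB.mid, zeroCB, rv]
  rw [h1]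
  simp [zeroCB, rv]

theorem Ptq.zero_in {δ : Int} (hδ : 0 ≤ δ) : Ptq.In δ ⟨0, 0, 0, 0⟩ := by
  have : 0 ≤ rv δ := by unfold rv; positivity
  exact ⟨by simpa using this, by simpa using this, by simpa using this, by simpa using this⟩

namespace TMq.Has

variable {δ : Int} {A B : TMq} {f g : Ptq → ℂ}

theorem congr (h : A.Has δ f) (hfg : ∀ y, y.In δ → g y = f y) : A.Has δ g := by
  obtain ⟨ga, hga, ha⟩ := h
  refine ⟨ga, hga, fun y hy => ?_⟩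
  rw [hfg y hy]
  exact ha y hy

theorem neg (hA : A.Has δ f) : TMq.Has δ (A.neg) (fun y => -f y) := by
  obtain ⟨ga, hga, ha⟩ := hA
  refine ⟨⟨-ga.c, -ga.l1, -ga.l2, -ga.l3, -ga.l4⟩,
    ⟨hga.c.neg, hga.l1.neg, hga.l2.neg, hga.l3.neg, hga.l4.neg⟩, fun y hy => ?_⟩
  obtain ⟨pp, hp, e⟩ := ha y hy
  refine ⟨⟨-pp.q11, -pp.q12, -pp.q13, -pp.q14, -pp.q22, -pp.q23, -pp.q24, -pp.q33, -pp.q34, -pp.q44⟩,
    ⟨hp.q11.neg, hp.q12.neg, hp.q13.neg, hp.q14.neg, hp.q22.neg, hp.q23.neg, hp.q24.neg, hp.q33.neg, hp.q34.neg, hp.q44.neg⟩, ?_⟩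
  simp only [e, Linq.ev, Quadq.ev]
  ring

theorem nsm (hA : A.Has δ f) {n : Int} (hn : 0 ≤ n) : TMq.Has δ (A.nsm n) (fun y => (n : ℂ) * f y) := by
  obtain ⟨ga, hga, ha⟩ := hA
  refine ⟨⟨(n : ℂ) * ga.c, (n : ℂ) * ga.l1, (n : ℂ) * ga.l2, (n : ℂ) * ga.l3, (n : ℂ) * ga.l4⟩,
    ⟨hga.c.nsm hn, hga.l1.nsm hn, hga.l2.nsm hn, hga.l3.nsm hn, hga.l4.nsm hn⟩, fun y hy => ?_⟩
  obtain ⟨pp, hp, e⟩ := ha y hy
  refine ⟨⟨(n : ℂ) * pp.q11, (n : ℂ) * pp.q12, (n : ℂ) * pp.q13, (n : ℂ) * pp.q14, (n : ℂ) * pp.q22, (n : ℂ) * pp.q23, (n : ℂ) * pp.q24, (n : ℂ) * pp.q33, (n : ℂ) * pp.q34, (n : ℂ) * pp.q44⟩,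
    ⟨hp.q11.nsm hn, hp.q12.nsm hn, hp.q13.nsm hn, hp.q14.nsm hn, hp.q22.nsm hn, hp.q23.nsm hn, hp.q24.nsm hn, hp.q33.nsm hn, hp.q34.nsm hn, hp.q44.nsm hn⟩, ?_⟩
  simp only [e, Linq.ev, Quadq.ev]
  ring

theorem cmul (hA : A.Has δ f) {k : CB} {z : ℂ} (hk : CB.Mem z k) : TMq.Has δ (A.cmul k) (fun y => z * f y) := by
  obtain ⟨ga, hga, ha⟩ := hA
  refine ⟨⟨z * ga.c, z * ga.l1, z * ga.l2, z * ga.l3, z * ga.l4⟩,
    ⟨hk.mul hga.c, hk.mul hga.l1, hk.mul hga.l2, hk.mul hga.l3, hk.mul hga.l4⟩, fun y hy => ?_⟩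
  obtain ⟨pp, hp, e⟩ := ha y hy
  refine ⟨⟨z * pp.q11, z * pp.q12, z * pp.q13, z * pp.q14, z * pp.q22, z * pp.q23, z * pp.q24, z * pp.q33, z * pp.q34, z * pp.q44⟩,
    ⟨hk.mul hp.q11, hk.mul hp.q12, hk.mul hp.q13, hk.mul hp.q14, hk.mul hp.q22, hk.mul hp.q23, hk.mul hp.q24, hk.mul hp.q33, hk.mul hp.q34, hk.mul hp.q44⟩, ?_⟩
  simp only [e, Linq.ev, Quadq.ev]
  ring

theorem sdiv (hA : A.Has δ f) {p : Int} (hp0 : 0 < p) : TMq.Has δ (A.sdiv p) (fun y => f y / (rv p : ℂ)) := by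
  obtain ⟨ga, hga, ha⟩ := hA
  refine ⟨⟨ga.c / (rv p : ℂ), ga.l1 / (rv p : ℂ), ga.l2 / (rv p : ℂ), ga.l3 / (rv p : ℂ), ga.l4 / (rv p : ℂ)⟩,
    ⟨hga.c.sdiv hp0, hga.l1.sdiv hp0, hga.l2.sdiv hp0, hga.l3.sdiv hp0, hga.l4.sdiv hp0⟩, fun y hy => ?_⟩
  obtain ⟨pp, hp, e⟩ := ha y hy
  refine ⟨⟨pp.q11 / (rv p : ℂ), pp.q12 / (rv p : ℂ), pp.q13 / (rv p : ℂ), pp.q14 / (rv p : ℂ), pp.q22 / (rv p : ℂ), pp.q23 / (rv p : ℂ), pp.q24 / (rv p : ℂ), pp.q33 / (rv p : ℂ), pp.q34 / (rv p : ℂ), pp.q44 / (rv p : ℂ)⟩,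
    ⟨hp.q11.sdiv hp0, hp.q12.sdiv hp0, hp.q13.sdiv hp0, hp.q14.sdiv hp0, hp.q22.sdiv hp0, hp.q23.sdiv hp0, hp.q24.sdiv hp0, hp.q33.sdiv hp0, hp.q34.sdiv hp0, hp.q44.sdiv hp0⟩, ?_⟩
  simp only [e, Linq.ev, Quadq.ev]
  ring

theorem conjT (hA : A.Has δ f) : TMq.Has δ (A.conjT) (fun y => conj (f y)) := by
  obtain ⟨ga, hga, ha⟩ := hA
  refine ⟨⟨conj ga.c, conj ga.l1, conj ga.l2, conj ga.l3, conj ga.l4⟩,
    ⟨hga.c.conjB, hga.l1.conjB, hga.l2.conjB, hga.l3.conjB, hga.l4.conjB⟩, fun y hy => ?_⟩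
  obtain ⟨pp, hp, e⟩ := ha y hy
  refine ⟨⟨conj pp.q11, conj pp.q12, conj pp.q13, conj pp.q14, conj pp.q22, conj pp.q23, conj pp.q24, conj pp.q33, conj pp.q34, conj pp.q44⟩,
    ⟨hp.q11.conjB, hp.q12.conjB, hp.q13.conjB, hp.q14.conjB, hp.q22.conjB, hp.q23.conjB, hp.q24.conjB, hp.q33.conjB, hp.q34.conjB, hp.q44.conjB⟩, ?_⟩
  simp only [e, Linq.ev, Quadq.ev, map_add, map_mul, Complex.conj_ofReal]

theorem add (hA : A.Has δ f) (hB : B.Has δ g) : TMq.Has δ (A.add B) (fun y => f y + g y) := by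
  obtain ⟨ga, hga, ha⟩ := hA
  obtain ⟨gb, hgb, hb⟩ := hB
  refine ⟨⟨ga.c + gb.c, ga.l1 + gb.l1, ga.l2 + gb.l2, ga.l3 + gb.l3, ga.l4 + gb.l4⟩,
    ⟨hga.c.add hgb.c, hga.l1.add hgb.l1, hga.l2.add hgb.l2, hga.l3.add hgb.l3, hga.l4.add hgb.l4⟩, fun y hy => ?_⟩
  obtain ⟨p, hp, e⟩ := ha y hy
  obtain ⟨r, hr, e'⟩ := hb y hy
  refine ⟨⟨p.q11 + r.q11, p.q12 + r.q12, p.q13 + r.q13, p.q14 + r.q14, p.q22 + r.q22, p.q23 + r.q23, p.q24 + r.q24, p.q33 + r.q33, p.q34 + r.q34, p.q44 + r.q44⟩,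
    ⟨hp.q11.add hr.q11, hp.q12.add hr.q12, hp.q13.add hr.q13, hp.q14.add hr.q14, hp.q22.add hr.q22, hp.q23.add hr.q23, hp.q24.add hr.q24, hp.q33.add hr.q33, hp.q34.add hr.q34, hp.q44.add hr.q44⟩, ?_⟩
  simp only [e, e', Linq.ev, Quadq.ev]
  ring

theorem sub0 (hA : A.Has δ f) (hδ : 0 ≤ δ) : TMq.Has δ A.sub0 (fun y => f y - f ⟨0, 0, 0, 0⟩) := by
  obtain ⟨ga, hga, ha⟩ := hA
  have h0 : f ⟨0, 0, 0, 0⟩ = ga.c := by
    obtain ⟨p, _, e⟩ := ha ⟨0, 0, 0, 0⟩ (Ptq.zero_in hδ)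
    simp only [e, Linq.ev, Quadq.ev]
    simp
  refine ⟨⟨0, ga.l1, ga.l2, ga.l3, ga.l4⟩, ⟨CB.mem_zeroq, hga.l1, hga.l2, hga.l3, hga.l4⟩, fun y hy => ?_⟩
  obtain ⟨p, hp, e⟩ := ha y hy
  refine ⟨p, ⟨hp.q11, hp.q12, hp.q13, hp.q14, hp.q22, hp.q23, hp.q24, hp.q33, hp.q34, hp.q44⟩, ?_⟩
  simp only [h0, e, Linq.ev]
  ring

theorem affine {c l1 l2 l3 l4 : CB} {k m1 m2 m3 m4 : ℂ} (hc : CB.Mem k c) (h1 : CB.Mem m1 l1)
    (h2 : CB.Mem m2 l2) (h3 : CB.Mem m3 l3) (h4 : CB.Mem m4 l4) :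
    TMq.Has δ (TMq.affine c l1 l2 l3 l4)
      (fun y => k + m1 * y.y1 + m2 * y.y2 + m3 * y.y3 + m4 * y.y4) := by
  refine ⟨⟨k, m1, m2, m3, m4⟩, ⟨hc, h1, h2, h3, h4⟩, fun y _ => ?_⟩
  refine ⟨⟨0, 0, 0, 0, 0, 0, 0, 0, 0, 0⟩, ⟨CB.mem_zeroq, CB.mem_zeroq, CB.mem_zeroq, CB.mem_zeroq, CB.mem_zeroq, CB.mem_zeroq, CB.mem_zeroq, CB.mem_zeroq, CB.mem_zeroq, CB.mem_zeroq⟩, ?_⟩
  simp only [Linq.ev, Quadq.ev]
  ring

theorem const {c : CB} {k : ℂ} (hc : CB.Mem k c) : TMq.Has δ (TMq.const c) (fun _ => k) := by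
  refine (affine hc CB.mem_zeroq CB.mem_zeroq CB.mem_zeroq CB.mem_zeroq).congr fun y _ => ?_
  ring

end TMq.Has

theorem Linq.norm_ev_le {δ : Int} {A : TMq} {g : Linq} (hg : g.Mem A) {y : Ptq} (hy : y.In δ) :
    ‖g.ev y‖ ≤ rv (TMq.lb δ A) := by
  have e1 : rv (Int.add (Int.add (CB.up A.l1) (CB.up A.l2)) (Int.add (CB.up A.l3) (CB.up A.l4)))
      = rv (CB.up A.l1) + rv (CB.up A.l2) + (rv (CB.up A.l3) + rv (CB.up A.l4)) := by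
    simp only [rv_add]
  have h1 := hg.l1.norm_le
  have h2 := hg.l2.norm_le
  have h3 := hg.l3.norm_le
  have h4 := hg.l4.norm_le
  have n1 := norm_nonneg g.l1
  have n2 := norm_nonneg g.l2
  have n3 := norm_nonneg g.l3
  have n4 := norm_nonneg g.l4
  have b : ∀ (z : ℂ) (t u : ℝ), ‖z‖ ≤ u → |t| ≤ rv δ → ‖z * (t : ℂ)‖ ≤ rv δ * u := by
    intro z t u hz ht
    rw [norm_mul, Complex.norm_real, Real.norm_eq_abs, mul_comm]
    exact mul_le_mul ht hz (norm_nonneg _) ((abs_nonneg _).trans ht)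
  calc ‖g.ev y‖ ≤ ‖g.l1 * (y.y1 : ℂ)‖ + ‖g.l2 * (y.y2 : ℂ)‖ + ‖g.l3 * (y.y3 : ℂ)‖ + ‖g.l4 * (y.y4 : ℂ)‖ := by
        unfold Linq.ev
        exact (norm_add_le _ _).trans (add_le_add ((norm_add_le _ _).trans
          (add_le_add (norm_add_le _ _) le_rfl)) le_rfl)
    _ ≤ rv δ * rv (CB.up A.l1) + rv δ * rv (CB.up A.l2) + rv δ * rv (CB.up A.l3) + rv δ * rv (CB.up A.l4) := by
        gcongr
        · exact b _ _ _ h1 hy.h1
        · exact b _ _ _ h2 hy.h2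
        · exact b _ _ _ h3 hy.h3
        · exact b _ _ _ h4 hy.h4
    _ = rv δ * rv (Int.add (Int.add (CB.up A.l1) (CB.up A.l2)) (Int.add (CB.up A.l3) (CB.up A.l4))) := by
        rw [e1]; ring
    _ ≤ _ := rv_mul_le_mulU

theorem Quadq.norm_ev_le {δ : Int} {A : TMq} {h : Quadq} (hh : h.Mem A) {y : Ptq} (hy : y.In δ) :
    ‖h.ev y‖ ≤ rv (TMq.qb δ A) := by
  have hd : 0 ≤ rv δ := (abs_nonneg _).trans hy.h1
  have b : ∀ (z : ℂ) (s t u : ℝ), ‖z‖ ≤ u → |s| ≤ rv δ → |t| ≤ rv δ →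
      ‖z * (s : ℂ) * (t : ℂ)‖ ≤ rv δ * rv δ * u := by
    intro z s t u hz hs ht
    rw [norm_mul, norm_mul, Complex.norm_real, Complex.norm_real, Real.norm_eq_abs, Real.norm_eq_abs]
    have h1 : |s| * |t| ≤ rv δ * rv δ := mul_le_mul hs ht (abs_nonneg _) hd
    calc ‖z‖ * |s| * |t| = (|s| * |t|) * ‖z‖ := by ring
      _ ≤ (rv δ * rv δ) * u := mul_le_mul h1 hz (norm_nonneg _) (mul_nonneg hd hd)
  have e1 : rv (TMq.qs A) = rv (CB.up A.q11) + rv (CB.up A.q12) + rv (CB.up A.q13) + rv (CB.up A.q14) + rv (CB.up A.q22) + rv (CB.up A.q23) + rv (CB.up A.q24) + rv (CB.up A.q33) + rv (CB.up A.q34) + rv (CB.up A.q44) := by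
    simp only [TMq.qs, rv_add]
    ring

  have h_q11 := hh.q11.norm_le
  have h_q12 := hh.q12.norm_le
  have h_q13 := hh.q13.norm_le
  have h_q14 := hh.q14.norm_le
  have h_q22 := hh.q22.norm_le
  have h_q23 := hh.q23.norm_le
  have h_q24 := hh.q24.norm_le
  have h_q33 := hh.q33.norm_le
  have h_q34 := hh.q34.norm_le
  have h_q44 := hh.q44.norm_le
  have k_q11 := b _ _ _ _ h_q11 hy.h1 hy.h1
  have k_q12 := b _ _ _ _ h_q12 hy.h1 hy.h2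
  have k_q13 := b _ _ _ _ h_q13 hy.h1 hy.h3
  have k_q14 := b _ _ _ _ h_q14 hy.h1 hy.h4
  have k_q22 := b _ _ _ _ h_q22 hy.h2 hy.h2
  have k_q23 := b _ _ _ _ h_q23 hy.h2 hy.h3
  have k_q24 := b _ _ _ _ h_q24 hy.h2 hy.h4
  have k_q33 := b _ _ _ _ h_q33 hy.h3 hy.h3
  have k_q34 := b _ _ _ _ h_q34 hy.h3 hy.h4
  have k_q44 := b _ _ _ _ h_q44 hy.h4 hy.h4
  have hs : 0 ≤ rv (TMq.qs A) := by
    rw [e1]
    have := (norm_nonneg _).trans h_q11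
    have := (norm_nonneg _).trans h_q12
    have := (norm_nonneg _).trans h_q13
    have := (norm_nonneg _).trans h_q14
    have := (norm_nonneg _).trans h_q22
    have := (norm_nonneg _).trans h_q23
    have := (norm_nonneg _).trans h_q24
    have := (norm_nonneg _).trans h_q33
    have := (norm_nonneg _).trans h_q34
    have := (norm_nonneg _).trans h_q44
    positivity
  have hdd : 0 ≤ rv δ * rv δ := mul_nonneg hd hd
  calc ‖h.ev y‖ ≤ ‖h.q11 * (y.y1 : ℂ) * (y.y1 : ℂ)‖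
      + ‖h.q12 * (y.y1 : ℂ) * (y.y2 : ℂ)‖
      + ‖h.q13 * (y.y1 : ℂ) * (y.y3 : ℂ)‖
      + ‖h.q14 * (y.y1 : ℂ) * (y.y4 : ℂ)‖
      + ‖h.q22 * (y.y2 : ℂ) * (y.y2 : ℂ)‖
      + ‖h.q23 * (y.y2 : ℂ) * (y.y3 : ℂ)‖
      + ‖h.q24 * (y.y2 : ℂ) * (y.y4 : ℂ)‖
      + ‖h.q33 * (y.y3 : ℂ) * (y.y3 : ℂ)‖
      + ‖h.q34 * (y.y3 : ℂ) * (y.y4 : ℂ)‖
      + ‖h.q44 * (y.y4 : ℂ) * (y.y4 : ℂ)‖ := by
        unfold Quadq.ev
        repeat' first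
          | exact le_rfl
          | refine (norm_add_le _ _).trans (add_le_add ?_ le_rfl)
    _ ≤ rv δ * rv δ * rv (TMq.qs A) := by
        rw [e1]
        linarith
    _ ≤ rv (mulU δ δ) * rv (TMq.qs A) := mul_le_mul_of_nonneg_right rv_mul_le_mulU hs
    _ ≤ _ := rv_mul_le_mulU

/-- bound of the function -/
theorem TMq.Has.norm_le {δ : Int} {A : TMq} {f : Ptq → ℂ} (hA : A.Has δ f) {y : Ptq} (hy : y.In δ) :
    ‖f y‖ ≤ rv (TMq.ub δ A) := by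
  obtain ⟨ga, hga, ha⟩ := hA
  obtain ⟨p, hp, e⟩ := ha y hy
  have e1 : rv (TMq.ub δ A) = rv (CB.up A.c) + (rv (TMq.lb δ A) + rv (TMq.qb δ A)) := by
    simp only [TMq.ub, rv_add]
  rw [e, e1]
  have h1 := hga.c.norm_le
  have h2 := Linq.norm_ev_le hga hy
  have h3 := Quadq.norm_ev_le hp hy
  have h4 : ‖ga.c + ga.ev y + p.ev y‖ ≤ ‖ga.c‖ + ‖ga.ev y‖ + ‖p.ev y‖ :=
    (norm_add_le _ _).trans (add_le_add (norm_add_le _ _) le_rfl)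
  linarith

theorem TMq.mem_extra {na nb : Int} {aq bq : CB} {x y p r : ℂ} (hx : ‖x‖ ≤ rv na) (hy : ‖y‖ ≤ rv nb)
    (hp : CB.Mem p aq) (hr : CB.Mem r bq) :
    ‖x * r + y * p‖ ≤ rv (Int.add (mulU na (CB.up bq)) (mulU nb (CB.up aq))) := by
  rw [rv_add]
  refine (norm_add_le _ _).trans (add_le_add ?_ ?_)
  · rw [norm_mul]
    exact (mul_le_mul hx hr.norm_le (norm_nonneg _) ((norm_nonneg _).trans hx)).trans rv_mul_le_mulU
  · rw [norm_mul]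
    exact (mul_le_mul hy hp.norm_le (norm_nonneg _) ((norm_nonneg _).trans hy)).trans rv_mul_le_mulU

theorem TMq.Has.mul {δ : Int} {A B : TMq} {f g : Ptq → ℂ} (hA : A.Has δ f) (hB : B.Has δ g) :
    TMq.Has δ (A.mul δ B) (fun y => f y * g y) := by
  obtain ⟨ga, hga, ha⟩ := hA
  obtain ⟨gb, hgb, hb⟩ := hB
  refine ⟨⟨ga.c * gb.c, ga.c * gb.l1 + gb.c * ga.l1, ga.c * gb.l2 + gb.c * ga.l2, ga.c * gb.l3 + gb.c * ga.l3, ga.c * gb.l4 + gb.c * ga.l4⟩,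
    ⟨hga.c.mul hgb.c, (hga.c.mul hgb.l1).add (hgb.c.mul hga.l1), (hga.c.mul hgb.l2).add (hgb.c.mul hga.l2), (hga.c.mul hgb.l3).add (hgb.c.mul hga.l3), (hga.c.mul hgb.l4).add (hgb.c.mul hga.l4)⟩, fun y hy => ?_⟩
  obtain ⟨p, hp, e⟩ := ha y hy
  obtain ⟨r, hr, e'⟩ := hb y hy
  have nA : ‖ga.ev y + p.ev y‖ ≤ rv (Int.add (TMq.lb δ A) (TMq.qb δ A)) := by
    rw [rv_add]
    exact (norm_add_le _ _).trans (add_le_add (Linq.norm_ev_le hga hy) (Quadq.norm_ev_le hp hy))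
  have nB : ‖gb.ev y‖ ≤ rv (TMq.lb δ B) := Linq.norm_ev_le hgb hy
  set X := ga.ev y + p.ev y with hX
  set Y := gb.ev y with hY
  refine ⟨⟨ga.c * r.q11 + gb.c * p.q11 + ga.l1 * gb.l1 + (X * r.q11 + Y * p.q11),
    ga.c * r.q12 + gb.c * p.q12 + (ga.l1 * gb.l2 + ga.l2 * gb.l1) + (X * r.q12 + Y * p.q12),
    ga.c * r.q13 + gb.c * p.q13 + (ga.l1 * gb.l3 + ga.l3 * gb.l1) + (X * r.q13 + Y * p.q13),
    ga.c * r.q14 + gb.c * p.q14 + (ga.l1 * gb.l4 + ga.l4 * gb.l1) + (X * r.q14 + Y * p.q14),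
    ga.c * r.q22 + gb.c * p.q22 + ga.l2 * gb.l2 + (X * r.q22 + Y * p.q22),
    ga.c * r.q23 + gb.c * p.q23 + (ga.l2 * gb.l3 + ga.l3 * gb.l2) + (X * r.q23 + Y * p.q23),
    ga.c * r.q24 + gb.c * p.q24 + (ga.l2 * gb.l4 + ga.l4 * gb.l2) + (X * r.q24 + Y * p.q24),
    ga.c * r.q33 + gb.c * p.q33 + ga.l3 * gb.l3 + (X * r.q33 + Y * p.q33),
    ga.c * r.q34 + gb.c * p.q34 + (ga.l3 * gb.l4 + ga.l4 * gb.l3) + (X * r.q34 + Y * p.q34),
    ga.c * r.q44 + gb.c * p.q44 + ga.l4 * gb.l4 + (X * r.q44 + Y * p.q44)⟩,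
    ⟨(((hga.c.mul hr.q11).add (hgb.c.mul hp.q11)).add (hga.l1.mul hgb.l1)).inflq (TMq.mem_extra nA nB hp.q11 hr.q11),
    (((hga.c.mul hr.q12).add (hgb.c.mul hp.q12)).add ((hga.l1.mul hgb.l2).add (hga.l2.mul hgb.l1))).inflq (TMq.mem_extra nA nB hp.q12 hr.q12),
    (((hga.c.mul hr.q13).add (hgb.c.mul hp.q13)).add ((hga.l1.mul hgb.l3).add (hga.l3.mul hgb.l1))).inflq (TMq.mem_extra nA nB hp.q13 hr.q13),
    (((hga.c.mul hr.q14).add (hgb.c.mul hp.q14)).add ((hga.l1.mul hgb.l4).add (hga.l4.mul hgb.l1))).inflq (TMq.mem_extra nA nB hp.q14 hr.q14),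
    (((hga.c.mul hr.q22).add (hgb.c.mul hp.q22)).add (hga.l2.mul hgb.l2)).inflq (TMq.mem_extra nA nB hp.q22 hr.q22),
    (((hga.c.mul hr.q23).add (hgb.c.mul hp.q23)).add ((hga.l2.mul hgb.l3).add (hga.l3.mul hgb.l2))).inflq (TMq.mem_extra nA nB hp.q23 hr.q23),
    (((hga.c.mul hr.q24).add (hgb.c.mul hp.q24)).add ((hga.l2.mul hgb.l4).add (hga.l4.mul hgb.l2))).inflq (TMq.mem_extra nA nB hp.q24 hr.q24),
    (((hga.c.mul hr.q33).add (hgb.c.mul hp.q33)).add (hga.l3.mul hgb.l3)).inflq (TMq.mem_extra nA nB hp.q33 hr.q33),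
    (((hga.c.mul hr.q34).add (hgb.c.mul hp.q34)).add ((hga.l3.mul hgb.l4).add (hga.l4.mul hgb.l3))).inflq (TMq.mem_extra nA nB hp.q34 hr.q34),
    (((hga.c.mul hr.q44).add (hgb.c.mul hp.q44)).add (hga.l4.mul hgb.l4)).inflq (TMq.mem_extra nA nB hp.q44 hr.q44)⟩, ?_⟩
  have k1 : f y = ga.c + X := by rw [e, hX]; ring
  have k2 : g y = gb.c + Y + r.ev y := by rw [e']
  have k3 : X = ga.ev y + p.ev y := hX
  beta_reduce
  rw [k1, k2]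
  have k4 : (ga.c + X) * (gb.c + Y + r.ev y)
      = ga.c * gb.c + (ga.c * Y + gb.c * ga.ev y) + (ga.c * r.ev y + gb.c * p.ev y + ga.ev y * Y + (X * r.ev y + Y * p.ev y)) := by
    rw [k3]; ring
  rw [k4, hY]
  clear_value X Y
  simp only [Linq.ev, Quadq.ev]
  ring


/-! ### the exponential -/

theorem TMq.exp_kappa {τ : ℝ} (hτ : |τ| ≤ 1) :
    ∃ κ : ℂ, ‖κ - (-1 / 2 : ℂ)‖ ≤ 2 / 9 * |τ| ∧
      Complex.exp (Complex.I * τ) = 1 + Complex.I * τ + κ * (τ : ℂ) ^ 2 := by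
  rcases eq_or_ne τ 0 with h0 | h0
  · refine ⟨-1 / 2, ?_, ?_⟩
    · simp [h0]
    · simp [h0]
  · have hτc : (τ : ℂ) ≠ 0 := by exact_mod_cast h0
    refine ⟨(Complex.exp (Complex.I * τ) - 1 - Complex.I * τ) / (τ : ℂ) ^ 2, ?_, ?_⟩
    · have hx : ‖Complex.I * (τ : ℂ)‖ = |τ| := by
        rw [norm_mul, Complex.norm_I, one_mul, Complex.norm_real, Real.norm_eq_abs]
      have h1 := Complex.exp_bound (x := Complex.I * τ) (by rw [hx]; exact hτ) (n := 3) (by norm_num)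
      rw [hx] at h1
      simp only [Finset.sum_range_succ, Finset.sum_range_zero, Nat.factorial, pow_zero, pow_one,
        Nat.cast_one, div_one, zero_add, mul_one] at h1
      norm_num at h1
      have e : (Complex.exp (Complex.I * τ) - 1 - Complex.I * τ) / (τ : ℂ) ^ 2 - (-1 / 2 : ℂ)
          = (Complex.exp (Complex.I * τ) - (1 + Complex.I * τ + (Complex.I * τ) ^ 2 / 2)) / (τ : ℂ) ^ 2 := by
        rw [mul_pow, Complex.I_sq]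
        field_simp
        ring
      rw [e, norm_div, norm_pow, Complex.norm_real, Real.norm_eq_abs]
      have hpos : 0 < |τ| := abs_pos.2 h0
      rw [div_le_iff₀ (by positivity)]
      calc _ ≤ |τ| ^ 3 * (2 / 9) := h1
        _ = 2 / 9 * |τ| * |τ| ^ 2 := by ring
    · field_simp
      ring

/-- the argument of the exponential -/
noncomputable def TMq.ang (t1 t2 t3 t4 : Int) (y : Ptq) : ℝ :=
  rv t1 * y.y1 + rv t2 * y.y2 + rv t3 * y.y3 + rv t4 * y.y4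

theorem CB.mem_realq (t : Int) : CB.Mem (rv t : ℂ) ⟨t, 0, 0⟩ := by
  unfold CB.Mem
  have h0 : rv 0 = 0 := by simp [rv]
  have h1 : (CB.mid ⟨t, 0, 0⟩ : ℂ) = (rv t : ℂ) := by
    apply Complex.ext
    · rw [Complex.ofReal_re]; rfl
    · rw [Complex.ofReal_im]; exact h0
  rw [h1, sub_self, norm_zero]
  exact h0.ge

theorem CB.mem_imagq (t : Int) : CB.Mem (Complex.I * (rv t : ℂ)) ⟨0, t, 0⟩ := by
  unfold CB.Mem
  have h0 : rv 0 = 0 := by simp [rv]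
  have h1 : (CB.mid ⟨0, t, 0⟩ : ℂ) = Complex.I * (rv t : ℂ) := by
    apply Complex.ext
    · rw [Complex.I_mul_re, Complex.ofReal_im, neg_zero]; exact h0
    · rw [Complex.I_mul_im, Complex.ofReal_re]; rfl
  rw [h1, sub_self, norm_zero]
  exact h0.ge

theorem rv_absIq (x : Int) : rv (absI x) = |rv x| := by
  rw [absI_eq]
  unfold rv
  rw [abs_div, Int.cast_abs]
  norm_num

theorem TMq.Has.expi {δ : Int} (hδ : 0 ≤ δ) {t1 t2 t3 t4 : Int}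
    (hT : mulU δ (Int.add (Int.add (absI t1) (absI t2)) (Int.add (absI t3) (absI t4))) ≤ 1099511627776) :
    TMq.Has δ (TMq.expi δ t1 t2 t3 t4)
      (fun y => Complex.exp (Complex.I * (TMq.ang t1 t2 t3 t4 y : ℝ))) := by
  set T := mulU δ (Int.add (Int.add (absI t1) (absI t2)) (Int.add (absI t3) (absI t4))) with hTdef
  have hd : 0 ≤ rv δ := by unfold rv; positivity
  refine ⟨⟨1, Complex.I * (rv t1 : ℂ), Complex.I * (rv t2 : ℂ), Complex.I * (rv t3 : ℂ),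
    Complex.I * (rv t4 : ℂ)⟩, ⟨?_, CB.mem_imagq t1, CB.mem_imagq t2, CB.mem_imagq t3, CB.mem_imagq t4⟩,
    fun y hy => ?_⟩
  · have := CB.mem_realq 1099511627776
    have e : rv 1099511627776 = 1 := by unfold rv; norm_num
    rw [e, Complex.ofReal_one] at this
    exact this
  · have hang : |TMq.ang t1 t2 t3 t4 y| ≤ rv T := by
      have b : ∀ (t : Int) (s : ℝ), |s| ≤ rv δ → |rv t * s| ≤ rv δ * rv (absI t) := by
        intro t s hs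
        rw [abs_mul, rv_absIq, mul_comm]
        exact mul_le_mul_of_nonneg_right hs (abs_nonneg _)
      have h1 := b t1 _ hy.h1
      have h2 := b t2 _ hy.h2
      have h3 := b t3 _ hy.h3
      have h4 := b t4 _ hy.h4
      have e : rv δ * rv (Int.add (Int.add (absI t1) (absI t2)) (Int.add (absI t3) (absI t4)))
          = rv δ * rv (absI t1) + rv δ * rv (absI t2) + rv δ * rv (absI t3) + rv δ * rv (absI t4) := by
        simp only [rv_add]; ring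
      have h5 : rv δ * rv (Int.add (Int.add (absI t1) (absI t2)) (Int.add (absI t3) (absI t4))) ≤ rv T :=
        rv_mul_le_mulU
      rw [e] at h5
      have h6 : |TMq.ang t1 t2 t3 t4 y| ≤ |rv t1 * y.y1| + |rv t2 * y.y2| + |rv t3 * y.y3| + |rv t4 * y.y4| := by
        unfold TMq.ang
        exact (abs_add_le _ _).trans (add_le_add ((abs_add_le _ _).trans
          (add_le_add (abs_add_le _ _) le_rfl)) le_rfl)
      linarith
    have hT1 : rv T ≤ 1 := by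
      unfold rv
      rw [div_le_one (by positivity)]
      have : (T : ℝ) ≤ 1099511627776 := by exact_mod_cast hT
      linarith
    obtain ⟨κ, hκ, e⟩ := TMq.exp_kappa (hang.trans hT1)
    have hk : CB.Mem κ ⟨-549755813888, 0, Int.add (Int.ediv (Int.mul 2 T) 9) 1⟩ := by
      unfold CB.Mem
      have h1 : (CB.mid ⟨-549755813888, 0, Int.add (Int.ediv (Int.mul 2 T) 9) 1⟩ : ℂ) = -1 / 2 := by
        apply Complex.ext
        · simp only [CB.mid, rv]; norm_num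
        · simp only [CB.mid, rv]; norm_num
      rw [h1]
      refine hκ.trans ((mul_le_mul_of_nonneg_left hang (by norm_num)).trans ?_)
      have h2 : ((2 * T : ℤ) : ℝ) / 9 ≤ ((2 * T / 9 : ℤ) : ℝ) + 1 := by
        have h3 : (2 * T : ℤ) < (2 * T / 9 + 1) * 9 := Int.lt_ediv_add_one_mul_self _ (by norm_num)
        rw [div_le_iff₀ (by norm_num)]
        exact_mod_cast h3.le
      have h4 : rv (Int.add (Int.ediv (Int.mul 2 T) 9) 1) = (((2 * T / 9 : ℤ) : ℝ) + 1) / 2 ^ 40 := by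
        have : Int.add (Int.ediv (Int.mul 2 T) 9) 1 = 2 * T / 9 + 1 := rfl
        rw [this]
        unfold rv
        push_cast
        ring
      rw [h4]
      have h5 : 2 / 9 * rv T = (((2 * T : ℤ) : ℝ) / 9) / 2 ^ 40 := by
        unfold rv
        push_cast
        ring
      rw [h5]
      gcongr
    refine ⟨⟨κ * ((rv t1 : ℂ) * (rv t1 : ℂ)),
      ((2 : ℤ) : ℂ) * (κ * ((rv t1 : ℂ) * (rv t2 : ℂ))),
      ((2 : ℤ) : ℂ) * (κ * ((rv t1 : ℂ) * (rv t3 : ℂ))),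
      ((2 : ℤ) : ℂ) * (κ * ((rv t1 : ℂ) * (rv t4 : ℂ))),
      κ * ((rv t2 : ℂ) * (rv t2 : ℂ)),
      ((2 : ℤ) : ℂ) * (κ * ((rv t2 : ℂ) * (rv t3 : ℂ))),
      ((2 : ℤ) : ℂ) * (κ * ((rv t2 : ℂ) * (rv t4 : ℂ))),
      κ * ((rv t3 : ℂ) * (rv t3 : ℂ)),
      ((2 : ℤ) : ℂ) * (κ * ((rv t3 : ℂ) * (rv t4 : ℂ))),
      κ * ((rv t4 : ℂ) * (rv t4 : ℂ))⟩,
      ⟨hk.mul ((CB.mem_realq t1).mul (CB.mem_realq t1)),
      (hk.mul ((CB.mem_realq t1).mul (CB.mem_realq t2))).nsm (by norm_num),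
      (hk.mul ((CB.mem_realq t1).mul (CB.mem_realq t3))).nsm (by norm_num),
      (hk.mul ((CB.mem_realq t1).mul (CB.mem_realq t4))).nsm (by norm_num),
      hk.mul ((CB.mem_realq t2).mul (CB.mem_realq t2)),
      (hk.mul ((CB.mem_realq t2).mul (CB.mem_realq t3))).nsm (by norm_num),
      (hk.mul ((CB.mem_realq t2).mul (CB.mem_realq t4))).nsm (by norm_num),
      hk.mul ((CB.mem_realq t3).mul (CB.mem_realq t3)),
      (hk.mul ((CB.mem_realq t3).mul (CB.mem_realq t4))).nsm (by norm_num),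
      hk.mul ((CB.mem_realq t4).mul (CB.mem_realq t4))⟩, ?_⟩
    beta_reduce
    rw [e]
    simp only [Linq.ev, Quadq.ev, TMq.ang]
    push_cast
    ring

end MaxTerm.PA.Chk
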