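import Pool.Agent.MaxTerm.PartA.CritSer
import Pool.Agent.MaxTerm.PartA.T0

/-!
# Part A: Taylor model evaluation for `CritOf`

Variables: `y1, y2` (`q = qc + 2/10^5 * u * (y1 + I y2)`, `u = (285 - 68 I)/293`) and `y3` (rotation of `w`),
all in `[-1, 1]`.
-/

open ComplexConjugate

namespace MaxTerm.PA

namespace Chk

namespace Crt

/-- fixed point rounding of a rational number -/
def fx (a b : Int) : Int := Int.ediv (Int.mul a 1099511627776) b

/-- `1` -/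
def u1 : Int := 1099511627776

/-- `I` -/
def iC : CB := ⟨0, 1099511627776, 0⟩

/-- powers of `q` and `w` -/
structure Pw where
  q1 : TMq
  q2 : TMq
  q3 : TMq
  q5 : TMq
  q6 : TMq
  q9 : TMq
  q10 : TMq
  w1 : TMq
  w3 : TMq
  w5 : TMq
  w7 : TMq
  w9 : TMq

def mkPw (Q W : TMq) : Pw :=
  let q2 := TMq.mul u1 Q Q
  let q3 := TMq.mul u1 q2 Q
  let q5 := TMq.mul u1 q3 q2
  let q6 := TMq.mul u1 q3 q3
  let q9 := TMq.mul u1 q6 q3
  let q10 := TMq.mul u1 q9 Q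
  let w2 := TMq.mul u1 W W
  let w3 := TMq.mul u1 w2 W
  let w5 := TMq.mul u1 w3 w2
  let w7 := TMq.mul u1 w5 w2
  let w9 := TMq.mul u1 w7 w2
  ⟨Q, q2, q3, q5, q6, q9, q10, W, w3, w5, w7, w9⟩

structure Pw.OK (P : Pw) (q w : Ptq → ℂ) : Prop where
  q1 : P.q1.Has u1 q
  q2 : P.q2.Has u1 (fun y => q y ^ 2)
  q3 : P.q3.Has u1 (fun y => q y ^ 3)
  q5 : P.q5.Has u1 (fun y => q y ^ 5)
  q6 : P.q6.Has u1 (fun y => q y ^ 6)
  q9 : P.q9.Has u1 (fun y => q y ^ 9)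
  q10 : P.q10.Has u1 (fun y => q y ^ 10)
  w1 : P.w1.Has u1 w
  w3 : P.w3.Has u1 (fun y => w y ^ 3)
  w5 : P.w5.Has u1 (fun y => w y ^ 5)
  w7 : P.w7.Has u1 (fun y => w y ^ 7)
  w9 : P.w9.Has u1 (fun y => w y ^ 9)

theorem mkPw_ok {Q W : TMq} {q w : Ptq → ℂ} (hQ : Q.Has u1 q) (hW : W.Has u1 w) : (mkPw Q W).OK q w := by
  have q2 : (TMq.mul u1 Q Q).Has u1 (fun y => q y ^ 2) := (hQ.mul hQ).congr fun y _ => by ring
  have q3 := (q2.mul hQ).congr (g := fun y => q y ^ 3) fun y _ => by ring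
  have q5 := (q3.mul q2).congr (g := fun y => q y ^ 5) fun y _ => by ring
  have q6 := (q3.mul q3).congr (g := fun y => q y ^ 6) fun y _ => by ring
  have q9 := (q6.mul q3).congr (g := fun y => q y ^ 9) fun y _ => by ring
  have q10 := (q9.mul hQ).congr (g := fun y => q y ^ 10) fun y _ => by ring
  have w2 : (TMq.mul u1 W W).Has u1 (fun y => w y ^ 2) := (hW.mul hW).congr fun y _ => by ring
  have w3 := (w2.mul hW).congr (g := fun y => w y ^ 3) fun y _ => by ring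
  have w5 := (w3.mul w2).congr (g := fun y => w y ^ 5) fun y _ => by ring
  have w7 := (w5.mul w2).congr (g := fun y => w y ^ 7) fun y _ => by ring
  have w9 := (w7.mul w2).congr (g := fun y => w y ^ 9) fun y _ => by ring
  exact ⟨hQ, q2, q3, q5, q6, q9, q10, hW, w3, w5, w7, w9⟩

def sm (A : TMq) : TMq := TMq.add A (TMq.conjT A)
def df (A : TMq) : TMq := TMq.add A (TMq.neg (TMq.conjT A))

theorem sm_ok {A : TMq} {f : Ptq → ℂ} (h : A.Has u1 f) : (sm A).Has u1 (fun y => f y + conj (f y)) :=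
  h.add h.conjT

theorem df_ok {A : TMq} {f : Ptq → ℂ} (h : A.Has u1 f) : (df A).Has u1 (fun y => f y - conj (f y)) :=
  (h.add h.conjT.neg).congr fun y _ => by ring

def tT0 (P : Pw) : TMq :=
  TMq.add (sm P.w1) (TMq.add (TMq.mul u1 P.q1 (sm P.w3)) (TMq.add (TMq.mul u1 P.q3 (sm P.w5))
    (TMq.add (TMq.mul u1 P.q6 (sm P.w7)) (TMq.mul u1 P.q10 (sm P.w9)))))

def tT1 (P : Pw) : TMq :=
  TMq.cmul iC (TMq.add (df P.w1) (TMq.add (TMq.nsm 3 (TMq.mul u1 P.q1 (df P.w3)))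
    (TMq.add (TMq.nsm 5 (TMq.mul u1 P.q3 (df P.w5)))
    (TMq.add (TMq.nsm 7 (TMq.mul u1 P.q6 (df P.w7))) (TMq.nsm 9 (TMq.mul u1 P.q10 (df P.w9)))))))

def tT2 (P : Pw) : TMq :=
  TMq.neg (TMq.add (sm P.w1) (TMq.add (TMq.nsm 9 (TMq.mul u1 P.q1 (sm P.w3)))
    (TMq.add (TMq.nsm 25 (TMq.mul u1 P.q3 (sm P.w5)))
    (TMq.add (TMq.nsm 49 (TMq.mul u1 P.q6 (sm P.w7))) (TMq.nsm 81 (TMq.mul u1 P.q10 (sm P.w9)))))))

def tTq (P : Pw) : TMq :=
  TMq.add (sm P.w3) (TMq.add (TMq.nsm 3 (TMq.mul u1 P.q2 (sm P.w5)))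
    (TMq.add (TMq.nsm 6 (TMq.mul u1 P.q5 (sm P.w7))) (TMq.nsm 10 (TMq.mul u1 P.q9 (sm P.w9)))))

theorem mem_iC : CB.Mem Complex.I iC := by
  have h := CB.mem_imagq 1099511627776
  have e : rv 1099511627776 = 1 := by unfold rv; norm_num
  rw [e, Complex.ofReal_one, mul_one] at h
  exact h

section ok

variable {P : Pw} {q w : Ptq → ℂ}

theorem tT0_ok (h : P.OK q w) : (tT0 P).Has u1 (fun y => pT0 (q y) (w y)) := by
  refine (((sm_ok h.w1).add ((h.q1.mul (sm_ok h.w3)).add ((h.q3.mul (sm_ok h.w5)).add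
    ((h.q6.mul (sm_ok h.w7)).add (h.q10.mul (sm_ok h.w9))))))).congr fun y _ => ?_
  simp only [pT0, map_pow]
  ring

theorem tT1_ok (h : P.OK q w) : (tT1 P).Has u1 (fun y => pT1 (q y) (w y)) := by
  have n3 : (0 : Int) ≤ 3 := by norm_num
  have n5 : (0 : Int) ≤ 5 := by norm_num
  have n7 : (0 : Int) ≤ 7 := by norm_num
  have n9 : (0 : Int) ≤ 9 := by norm_num
  refine (((df_ok h.w1).add (((h.q1.mul (df_ok h.w3)).nsm n3).add (((h.q3.mul (df_ok h.w5)).nsm n5).add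
    (((h.q6.mul (df_ok h.w7)).nsm n7).add ((h.q10.mul (df_ok h.w9)).nsm n9))))).cmul mem_iC).congr fun y _ => ?_
  simp only [pT1, map_pow]
  push_cast
  ring

theorem tT2_ok (h : P.OK q w) : (tT2 P).Has u1 (fun y => pT2 (q y) (w y)) := by
  have n3 : (0 : Int) ≤ 9 := by norm_num
  have n5 : (0 : Int) ≤ 25 := by norm_num
  have n7 : (0 : Int) ≤ 49 := by norm_num
  have n9 : (0 : Int) ≤ 81 := by norm_num
  refine (((sm_ok h.w1).add (((h.q1.mul (sm_ok h.w3)).nsm n3).add (((h.q3.mul (sm_ok h.w5)).nsm n5).add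
    (((h.q6.mul (sm_ok h.w7)).nsm n7).add ((h.q10.mul (sm_ok h.w9)).nsm n9))))).neg).congr fun y _ => ?_
  simp only [pT2, map_pow]
  push_cast
  ring

theorem tTq_ok (h : P.OK q w) : (tTq P).Has u1 (fun y => pTq (q y) (w y)) := by
  have n3 : (0 : Int) ≤ 3 := by norm_num
  have n5 : (0 : Int) ≤ 6 := by norm_num
  have n7 : (0 : Int) ≤ 10 := by norm_num
  refine ((sm_ok h.w3).add (((h.q2.mul (sm_ok h.w5)).nsm n3).add (((h.q5.mul (sm_ok h.w7)).nsm n5).add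
    ((h.q9.mul (sm_ok h.w9)).nsm n7)))).congr fun y _ => ?_
  simp only [pTq, map_pow]
  push_cast
  ring

end ok

/-- finite part of the derivative of `‖T‖²` in `t` -/
def tF1 (P : Pw) : TMq := sm (TMq.mul u1 (TMq.conjT (tT0 P)) (tT1 P))

/-- finite part of the second derivative of `‖T‖²` in `t` -/
def tF2 (P : Pw) : TMq :=
  sm (TMq.add (TMq.mul u1 (TMq.conjT (tT1 P)) (tT1 P)) (TMq.mul u1 (TMq.conjT (tT0 P)) (tT2 P)))

/-- finite part of `conj T * T_q` -/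
def tG (P : Pw) : TMq := TMq.mul u1 (TMq.conjT (tT0 P)) (tTq P)

theorem tF1_ok {P : Pw} {q w : Ptq → ℂ} (h : P.OK q w) : (tF1 P).Has u1
    (fun y => ((2 * (conj (pT0 (q y) (w y)) * pT1 (q y) (w y)).re : ℝ) : ℂ)) := by
  refine (sm_ok ((tT0_ok h).conjT.mul (tT1_ok h))).congr fun y _ => ?_
  rw [Complex.add_conj]

theorem tF2_ok {P : Pw} {q w : Ptq → ℂ} (h : P.OK q w) : (tF2 P).Has u1
    (fun y => ((2 * (conj (pT1 (q y) (w y)) * pT1 (q y) (w y) +
      conj (pT0 (q y) (w y)) * pT2 (q y) (w y)).re : ℝ) : ℂ)) := by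
  refine (sm_ok (((tT1_ok h).conjT.mul (tT1_ok h)).add ((tT0_ok h).conjT.mul (tT2_ok h)))).congr
    fun y _ => ?_
  rw [Complex.add_conj]

theorem tG_ok {P : Pw} {q w : Ptq → ℂ} (h : P.OK q w) : (tG P).Has u1
    (fun y => conj (pT0 (q y) (w y)) * pTq (q y) (w y)) :=
  (tT0_ok h).conjT.mul (tTq_ok h)

/-! ### the parameters -/

theorem mem_of {z : ℂ} {b : CB} (h1 : |z.re - rv b.re| ≤ rv b.rad / 2) (h2 : |z.im - rv b.im| ≤ rv b.rad / 2) :
    CB.Mem z b := by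
  unfold CB.Mem
  refine (Complex.norm_le_abs_re_add_abs_im _).trans ?_
  rw [Complex.sub_re, Complex.sub_im]
  have e1 : b.mid.re = rv b.re := rfl
  have e2 : b.mid.im = rv b.im := rfl
  rw [e1, e2]
  linarith

def cq : CB := ⟨fx (-1912057094) 10000000000, fx 2048974310 10000000000, 2⟩
def cu1 : CB := ⟨fx 570 29300000, fx (-136) 29300000, 2⟩
def cu2 : CB := ⟨fx 136 29300000, fx 570 29300000, 2⟩
/-- `q = qc + 2/10^5 * u * (y1 + I y2)` -/
def qTM : TMq := TMq.affine cq cu1 cu2 zeroCB zeroCB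

/-- the step -/
noncomputable def uu : ℂ := ⟨570 / 29300000, -136 / 29300000⟩

/-- the point `q` -/
noncomputable def qpt (y : Ptq) : ℂ := qc + uu * (y.y1 + Complex.I * y.y2)

theorem fx_val (a b : Int) : fx a b = a * 1099511627776 / b := rfl

theorem mem_cq : CB.Mem qc cq := by
  apply mem_of
  · unfold qc cq rv
    simp only [fx_val]
    norm_num [abs_le]
  · unfold qc cq rv
    simp only [fx_val]
    norm_num [abs_le]

theorem mem_cu1 : CB.Mem uu cu1 := by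
  apply mem_of
  · unfold uu cu1 rv
    simp only [fx_val]
    norm_num [abs_le]
  · unfold uu cu1 rv
    simp only [fx_val]
    norm_num [abs_le]

theorem mem_cu2 : CB.Mem (uu * Complex.I) cu2 := by
  apply mem_of
  · unfold uu cu2 rv
    simp only [fx_val, Complex.mul_re, Complex.I_re, Complex.I_im]
    norm_num [abs_le]
  · unfold uu cu2 rv
    simp only [fx_val, Complex.mul_im, Complex.I_re, Complex.I_im]
    norm_num [abs_le]

theorem qTM_ok : qTM.Has u1 qpt := by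
  refine (TMq.Has.affine mem_cq mem_cu1 mem_cu2 CB.mem_zeroq CB.mem_zeroq).congr fun y _ => ?_
  unfold qpt
  ring

/-- centre of the rotation -/
noncomputable def w0c : ℂ := ⟨690899 / 864949, 520380 / 864949⟩

def cw0 : CB := ⟨fx 690899 864949, fx 520380 864949, 2⟩

theorem mem_cw0 : CB.Mem w0c cw0 := by
  apply mem_of
  · unfold w0c cw0 rv
    simp only [fx_val]
    norm_num [abs_le]
  · unfold w0c cw0 rv
    simp only [fx_val]
    norm_num [abs_le]

end Crt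

end Chk

end MaxTerm.PA
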