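import Pool.Agent.MaxTerm.PartA.ModeEA

/-!
# Part A, mode E: sums of the remainders, exchange of the summations, folding
-/

open Filter Topology ComplexConjugate

namespace MaxTerm.PA.ModeE

/-- the `W` sum of the squares of the differences -/
noncomputable def WW (s : ℕ → ℂ) : ℝ := ∑' l : ℕ, ‖s (l + 1) - s l‖ ^ 2 / 2 ^ (l + 1)

theorem dd_le {s : ℕ → ℂ} (hs : ∀ i, ‖s i‖ ≤ 3 / 5) (l : ℕ) : ‖s (l + 1) - s l‖ ≤ 6 / 5 := by
  have h1 := hs (l + 1)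
  have h2 := hs l
  have h3 := norm_sub_le (s (l + 1)) (s l)
  linarith

theorem summable_half : Summable fun l : ℕ => (1 / 2 : ℝ) ^ l :=
  summable_geometric_of_lt_one (by norm_num) (by norm_num)

theorem summable_W {s : ℕ → ℂ} (hs : ∀ i, ‖s i‖ ≤ 3 / 5) :
    Summable fun l : ℕ => ‖s (l + 1) - s l‖ ^ 2 / 2 ^ (l + 1) := by
  refine Summable.of_nonneg_of_le (fun l => by positivity) (fun l => ?_) summable_half
  have h := dd_le hs l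
  have h1 : ‖s (l + 1) - s l‖ ^ 2 ≤ 2 := by
    have := pow_le_pow_left₀ (norm_nonneg _) h 2
    norm_num at this
    linarith
  have h2 : (1 / 2 : ℝ) ^ l * 2 ^ (l + 1) = 2 := by
    rw [pow_succ, ← mul_assoc, ← mul_pow]
    norm_num
  rw [div_le_iff₀ (by positivity), h2]
  exact h1

theorem WW_nonneg (s : ℕ → ℂ) : 0 ≤ WW s := tsum_nonneg fun l => by positivity

theorem Tm_le_W {s : ℕ → ℂ} (hs : ∀ i, ‖s i‖ ≤ 3 / 5) (n : ℕ) : Tm s n ^ 2 ≤ Gn n * WW s := by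
  refine (Tm_sq_le s n).trans (mul_le_mul_of_nonneg_left ?_ (Gn_nonneg n))
  exact (summable_W hs).sum_le_tsum _ fun l _ => by positivity

/-- the decay of the bounds of the remainders -/
theorem t_le {r : ℝ} (hr0 : 0 ≤ r) (hr1 : r ≤ 9 / 25) (k : ℕ) :
    r ^ (k + 6) * ((3 / 5 : ℝ) ^ (ee (k + 5)) * Gn (k + 4)) ≤
      1314 * r ^ 6 * (3 / 5) ^ 15 * (1 / 8) ^ k := by
  induction k with
  | zero =>
    rw [zero_add, Gn_four, show ee (0 + 5) = 15 from rfl]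
    apply le_of_eq
    ring
  | succ k ih =>
    have h1 : ee (k + 1 + 5) = ee (k + 5) + (k + 6) := ee_succ (k + 5)
    have h2 := Gn_le (k + 4) (by omega)
    have h3 : (3 / 5 : ℝ) ^ (k + 6) ≤ (3 / 5) ^ 6 :=
      pow_le_pow_of_le_one (by norm_num) (by norm_num) (by omega)
    have g0 := Gn_nonneg (k + 4)
    calc r ^ (k + 1 + 6) * ((3 / 5 : ℝ) ^ (ee (k + 1 + 5)) * Gn (k + 1 + 4))
        ≤ r ^ (k + 1 + 6) * ((3 / 5 : ℝ) ^ (ee (k + 1 + 5)) * (4 * Gn (k + 4))) := by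
          apply mul_le_mul_of_nonneg_left _ (by positivity)
          apply mul_le_mul_of_nonneg_left _ (by positivity)
          exact h2
      _ = r ^ (k + 6) * ((3 / 5 : ℝ) ^ (ee (k + 5)) * Gn (k + 4)) * (r * (3 / 5 : ℝ) ^ (k + 6) * 4) := by
          rw [h1, pow_add (3 / 5 : ℝ)]
          ring
      _ ≤ r ^ (k + 6) * ((3 / 5 : ℝ) ^ (ee (k + 5)) * Gn (k + 4)) * (1 / 8) := by
          apply mul_le_mul_of_nonneg_left _ (by positivity)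
          calc r * (3 / 5 : ℝ) ^ (k + 6) * 4 ≤ (9 / 25) * (3 / 5 : ℝ) ^ 6 * 4 := by gcongr
            _ ≤ 1 / 8 := by norm_num
      _ ≤ 1314 * r ^ 6 * (3 / 5) ^ 15 * (1 / 8) ^ k * (1 / 8) := by
          apply mul_le_mul_of_nonneg_right ih (by norm_num)
      _ = _ := by ring

theorem Rm_ge_four {s : ℕ → ℂ} {r : ℝ} (hs : ∀ i, ‖s i‖ ≤ 3 / 5) (hv : s 0 ≠ 0) (hr : ‖s 0‖ ≤ r)
    (hr1 : r ≤ 9 / 25) (k : ℕ) :
    ‖Rm s (k + 4)‖ ≤ 657 * r ^ 6 * (3 / 5) ^ 13 * WW s * (1 / 8) ^ k := by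
  have hr0 : 0 ≤ r := (norm_nonneg _).trans hr
  have h := Rm_le hs hv hr (k + 4)
  have h2 := Tm_le_W hs (k + 4)
  have h3 := t_le hr0 hr1 k
  have h4 := WW_nonneg s
  have h5 : (3 / 5 : ℝ) ^ 2 * ‖Rm s (k + 4)‖ ≤
      (3 / 5) ^ 2 * (657 * r ^ 6 * (3 / 5) ^ 13 * WW s * (1 / 8) ^ k) := by
    calc (3 / 5 : ℝ) ^ 2 * ‖Rm s (k + 4)‖
        ≤ r ^ (k + 6) * ((3 / 5 : ℝ) ^ ee (k + 5) * Tm s (k + 4) ^ 2 / 2) := h
      _ ≤ r ^ (k + 6) * ((3 / 5 : ℝ) ^ ee (k + 5) * (Gn (k + 4) * WW s) / 2) := by gcongr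
      _ = r ^ (k + 6) * ((3 / 5 : ℝ) ^ (ee (k + 5)) * Gn (k + 4)) * (WW s / 2) := by ring
      _ ≤ 1314 * r ^ 6 * (3 / 5) ^ 15 * (1 / 8) ^ k * (WW s / 2) :=
          mul_le_mul_of_nonneg_right h3 (by positivity)
      _ = _ := by ring
  exact le_of_mul_le_mul_left h5 (by positivity)

theorem summable_Rm {s α : ℕ → ℂ} {r M : ℝ} (hs : ∀ i, ‖s i‖ ≤ 3 / 5) (hv : s 0 ≠ 0)
    (hr : ‖s 0‖ ≤ r) (hr1 : r ≤ 9 / 25) (hM : ∀ n, ‖α (n + 2)‖ ≤ M) :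
    Summable fun n => ‖α (n + 2) * Rm s n‖ := by
  rw [← summable_nat_add_iff 4]
  have hr0 : 0 ≤ r := (norm_nonneg _).trans hr
  have hM0 : 0 ≤ M := (norm_nonneg _).trans (hM 0)
  have h4 := WW_nonneg s
  refine Summable.of_nonneg_of_le (fun _ => norm_nonneg _) (fun k => ?_)
    ((summable_geometric_of_lt_one (r := 1 / 8) (by norm_num) (by norm_num)).mul_left
      (M * (657 * r ^ 6 * (3 / 5) ^ 13 * WW s)))
  rw [norm_mul, mul_assoc M]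
  exact mul_le_mul (hM _) (Rm_ge_four hs hv hr hr1 k) (norm_nonneg _) hM0

theorem S2_le {s α : ℕ → ℂ} {A r c4 c5 c6 c7 M : ℝ} (hs : ∀ i, ‖s i‖ ≤ 3 / 5) (hv : s 0 ≠ 0)
    (hr : ‖s 0‖ ≤ r) (hr1 : r ≤ 9 / 25) (hM : ∀ n, ‖α (n + 2)‖ ≤ M) (hA : ∀ n, 5 ≤ n → ‖α n‖ ≤ A)
    (hc4 : 2 * ‖α 3‖ * r ^ 3 ≤ c4) (hc5 : 2 * ‖α 4‖ * r ^ 4 ≤ c5)
    (hc6 : 2 * A * r ^ 5 * (3 / 5) ^ 8 ≤ c6)
    (hc7 : 1600 * A * r ^ 6 * (3 / 5) ^ 13 ≤ c7) :
    -(2 * (∑' n : ℕ, α (n + 2) * Rm s n).re) ≤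
      c4 * ((3 / 5 + 3 * r) * ‖s 1 - s 0‖ ^ 2 + r * ‖s 2 - s 1‖ ^ 2) +
      c5 * (K11 r * ‖s 1 - s 0‖ ^ 2 + K22 r * ‖s 2 - s 1‖ ^ 2 + K33 r * ‖s 3 - s 2‖ ^ 2) +
      c6 * (127 * ‖s 1 - s 0‖ ^ 2 + 53 * ‖s 2 - s 1‖ ^ 2 + 22 * ‖s 3 - s 2‖ ^ 2 +
        11 * ‖s 4 - s 3‖ ^ 2) + c7 * WW s := by
  have hr0 : 0 ≤ r := (norm_nonneg _).trans hr
  have hA0 : 0 ≤ A := (norm_nonneg _).trans (hA 5 le_rfl)
  have hW := WW_nonneg s
  have hsum := summable_Rm hs hv hr hr1 hM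
  have h1 : -(∑' n : ℕ, α (n + 2) * Rm s n).re ≤ ∑' n : ℕ, ‖α (n + 2) * Rm s n‖ := by
    refine (neg_le_abs _).trans ((Complex.abs_re_le_norm _).trans ?_)
    exact norm_tsum_le_tsum_norm hsum
  have h2 := hsum.sum_add_tsum_nat_add 4
  have h3 : ∑' k : ℕ, ‖α (k + 4 + 2) * Rm s (k + 4)‖ ≤
      A * (657 * r ^ 6 * (3 / 5) ^ 13 * WW s) * (8 / 7) := by
    have hg : HasSum (fun k : ℕ => (1 / 8 : ℝ) ^ k) (8 / 7) := by
      have := hasSum_geometric_of_lt_one (r := (1 / 8 : ℝ)) (by norm_num) (by norm_num)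
      norm_num at this ⊢
      exact this
    have hg2 := hg.mul_left (A * (657 * r ^ 6 * (3 / 5) ^ 13 * WW s))
    rw [← hg2.tsum_eq]
    refine Summable.tsum_le_tsum (fun k => ?_) ((summable_nat_add_iff 4).2 hsum) hg2.summable
    rw [norm_mul, mul_assoc A]
    exact mul_le_mul (hA _ (by omega)) (Rm_ge_four hs hv hr hr1 k) (norm_nonneg _) hA0
  have h4 : ∑ i ∈ Finset.range 4, ‖α (i + 2) * Rm s i‖ =
      ‖α 3‖ * ‖Rm s 1‖ + ‖α 4‖ * ‖Rm s 2‖ + ‖α 5‖ * ‖Rm s 3‖ := by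
    simp [Finset.sum_range_succ, Rm_zero]
  rw [h4] at h2
  have k1 := mul_le_mul_of_nonneg_left (Rm_one hs hr) (norm_nonneg (α 3))
  have k2 := mul_le_mul_of_nonneg_left (Rm_two hs hr) (norm_nonneg (α 4))
  have k3 : ‖α 5‖ * ‖Rm s 3‖ ≤ A * (r ^ 5 * (3 / 5) ^ 8 * (127 * ‖s 1 - s 0‖ ^ 2 +
      53 * ‖s 2 - s 1‖ ^ 2 + 22 * ‖s 3 - s 2‖ ^ 2 + 11 * ‖s 4 - s 3‖ ^ 2)) :=
    mul_le_mul (hA 5 le_rfl) (Rm_three hs hv hr) (norm_nonneg _) hA0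
  have m1 : 2 * (‖α 3‖ * (r ^ 3 * ((3 / 5 + 3 * r) * ‖s 1 - s 0‖ ^ 2 + r * ‖s 2 - s 1‖ ^ 2))) ≤
      c4 * ((3 / 5 + 3 * r) * ‖s 1 - s 0‖ ^ 2 + r * ‖s 2 - s 1‖ ^ 2) := by
    have := mul_le_mul_of_nonneg_right hc4
      (show 0 ≤ (3 / 5 + 3 * r) * ‖s 1 - s 0‖ ^ 2 + r * ‖s 2 - s 1‖ ^ 2 by positivity)
    refine le_trans (le_of_eq ?_) this
    ring
  have m2 : 2 * (‖α 4‖ * (r ^ 4 * (K11 r * ‖s 1 - s 0‖ ^ 2 + K22 r * ‖s 2 - s 1‖ ^ 2 +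
      K33 r * ‖s 3 - s 2‖ ^ 2))) ≤
      c5 * (K11 r * ‖s 1 - s 0‖ ^ 2 + K22 r * ‖s 2 - s 1‖ ^ 2 + K33 r * ‖s 3 - s 2‖ ^ 2) := by
    have := mul_le_mul_of_nonneg_right hc5
      (show 0 ≤ K11 r * ‖s 1 - s 0‖ ^ 2 + K22 r * ‖s 2 - s 1‖ ^ 2 + K33 r * ‖s 3 - s 2‖ ^ 2 by
        unfold K11 K22 K33
        positivity)
    refine le_trans (le_of_eq ?_) this
    ring
  have m3 : 2 * (A * (r ^ 5 * (3 / 5) ^ 8 * (127 * ‖s 1 - s 0‖ ^ 2 +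
      53 * ‖s 2 - s 1‖ ^ 2 + 22 * ‖s 3 - s 2‖ ^ 2 + 11 * ‖s 4 - s 3‖ ^ 2))) ≤
      c6 * (127 * ‖s 1 - s 0‖ ^ 2 + 53 * ‖s 2 - s 1‖ ^ 2 + 22 * ‖s 3 - s 2‖ ^ 2 +
        11 * ‖s 4 - s 3‖ ^ 2) := by
    have := mul_le_mul_of_nonneg_right hc6
      (show 0 ≤ 127 * ‖s 1 - s 0‖ ^ 2 + 53 * ‖s 2 - s 1‖ ^ 2 + 22 * ‖s 3 - s 2‖ ^ 2 +
        11 * ‖s 4 - s 3‖ ^ 2 by positivity)
    refine le_trans (le_of_eq ?_) this
    ring
  have m4 : 2 * (A * (657 * r ^ 6 * (3 / 5) ^ 13 * WW s) * (8 / 7)) ≤ c7 * WW s := by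
    have h5 := mul_le_mul_of_nonneg_right hc7 hW
    have h6 : 0 ≤ A * r ^ 6 * (3 / 5) ^ 13 * WW s := by positivity
    have h7 : 2 * (A * (657 * r ^ 6 * (3 / 5) ^ 13 * WW s) * (8 / 7)) =
        (10512 / 7) * (A * r ^ 6 * (3 / 5) ^ 13 * WW s) := by ring
    have h8 : 1600 * A * r ^ 6 * (3 / 5) ^ 13 * WW s =
        1600 * (A * r ^ 6 * (3 / 5) ^ 13 * WW s) := by ring
    rw [h8] at h5
    rw [h7]
    linarith
  linarith

/-! ### exchange of the summations -/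

theorem ee_ge (n : ℕ) : 3 * n + 2 ≤ ee (n + 2) - 1 := by
  induction n with
  | zero => decide
  | succ n ih =>
    have h : ee (n + 1 + 2) = ee (n + 2) + (n + 3) := ee_succ (n + 2)
    rw [h]
    rcases n with _ | n
    · decide
    · omega

theorem gw_le (n l : ℕ) : gw (n + 2) (l + 1) ≤ 4 ^ n := by
  have h1 : gw (n + 2) (l + 1) ≤ (n + 1) * (n + 2) / 2 := by
    rw [gw]
    apply Nat.div_le_div_right
    apply Nat.mul_le_mul <;> omega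
  have h2 : (n + 1) * (n + 2) ≤ 2 * 4 ^ n := by
    induction n with
    | zero => decide
    | succ n ih =>
      have : 2 * 4 ^ (n + 1) = 4 * (2 * 4 ^ n) := by ring
      rw [this]
      have h3 := Nat.mul_le_mul_left 4 (ih (by
        rw [gw]
        apply Nat.div_le_div_right
        apply Nat.mul_le_mul <;> omega))
      nlinarith
  omega

theorem vpow_le {v : ℂ} (hv : ‖v‖ ≤ 9 / 25) (n : ℕ) : ‖v‖ ^ (ee (n + 2) - 1) ≤ (1 / 16) ^ n := by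
  calc ‖v‖ ^ (ee (n + 2) - 1) ≤ ‖v‖ ^ (3 * n) :=
        pow_le_pow_of_le_one (norm_nonneg _) (by linarith) ((Nat.le_add_right _ 2).trans (ee_ge n))
    _ = (‖v‖ ^ 3) ^ n := by rw [pow_mul]
    _ ≤ (1 / 16) ^ n := by
        apply pow_le_pow_left₀ (by positivity)
        calc ‖v‖ ^ 3 ≤ (9 / 25) ^ 3 := pow_le_pow_left₀ (norm_nonneg _) hv 3
          _ ≤ 1 / 16 := by norm_num

/-- the coefficients of the first order expansion -/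
noncomputable def ec (α : ℕ → ℂ) (v : ℂ) (n l : ℕ) : ℂ :=
  (gw (n + 2) (l + 1) : ℂ) * α (n + 2) * v ^ (ee (n + 2) - 1)

theorem ec_le {α : ℕ → ℂ} {v : ℂ} {M : ℝ} (hv : ‖v‖ ≤ 9 / 25) (hM : ∀ n, ‖α (n + 2)‖ ≤ M)
    (n l : ℕ) : ‖ec α v n l‖ ≤ M * (1 / 2) ^ l * (1 / 2) ^ n := by
  have hM0 : 0 ≤ M := (norm_nonneg _).trans (hM 0)
  rcases Nat.lt_or_ge n l with h | h
  · rw [ec, gw_zero (n + 2) (l + 1) (by omega)]
    simp only [Nat.cast_zero, zero_mul, norm_zero]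
    positivity
  · rw [ec, norm_mul, norm_mul, norm_pow, Complex.norm_natCast]
    have h1 : (gw (n + 2) (l + 1) : ℝ) ≤ 4 ^ n := by exact_mod_cast gw_le n l
    calc (gw (n + 2) (l + 1) : ℝ) * ‖α (n + 2)‖ * ‖v‖ ^ (ee (n + 2) - 1)
        ≤ 4 ^ n * M * (1 / 16) ^ n := by
          apply mul_le_mul _ (vpow_le hv n) (by positivity) (by positivity)
          exact mul_le_mul h1 (hM n) (norm_nonneg _) (by positivity)
      _ = M * ((1 / 2) ^ n * (1 / 2) ^ n) := by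
          rw [mul_comm ((4 : ℝ) ^ n), mul_assoc, ← mul_pow, ← mul_pow]
          norm_num
      _ ≤ M * ((1 / 2) ^ l * (1 / 2) ^ n) := by
          apply mul_le_mul_of_nonneg_left _ hM0
          apply mul_le_mul_of_nonneg_right _ (by positivity)
          exact pow_le_pow_of_le_one (by norm_num) (by norm_num) h
      _ = _ := by ring

theorem ec_summable {α : ℕ → ℂ} {v : ℂ} {M : ℝ} (hv : ‖v‖ ≤ 9 / 25) (hM : ∀ n, ‖α (n + 2)‖ ≤ M)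
    (l : ℕ) : Summable fun n => ‖ec α v n l‖ :=
  Summable.of_nonneg_of_le (fun _ => norm_nonneg _) (fun n => ec_le hv hM n l)
    (summable_half.mul_left _)

/-- the first order coefficients `E'_l` -/
noncomputable def E1 (α : ℕ → ℂ) (v : ℂ) (l : ℕ) : ℂ := ∑' n, ec α v n l

theorem E1_le {α : ℕ → ℂ} {v : ℂ} {M : ℝ} (hv : ‖v‖ ≤ 9 / 25) (hM : ∀ n, ‖α (n + 2)‖ ≤ M)
    (l : ℕ) : ‖E1 α v l‖ ≤ 2 * M * (1 / 2) ^ l := by
  refine (norm_tsum_le_tsum_norm (ec_summable hv hM l)).trans ?_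
  have h := (hasSum_geometric_two).mul_left (M * (1 / 2) ^ l)
  calc ∑' n, ‖ec α v n l‖ ≤ ∑' n, M * (1 / 2) ^ l * (1 / 2) ^ n :=
        (ec_summable hv hM l).tsum_le_tsum (fun n => ec_le hv hM n l) h.summable
    _ = 2 * M * (1 / 2) ^ l := by
        rw [h.tsum_eq]
        ring

theorem ec_swap {s α : ℕ → ℂ} {M : ℝ} (hs : ∀ i, ‖s i‖ ≤ 3 / 5) (hv : ‖s 0‖ ≤ 9 / 25)
    (hM : ∀ n, ‖α (n + 2)‖ ≤ M) :
    ∑' n : ℕ, α (n + 2) * (s 0 ^ (ee (n + 2) - 1) *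
      ∑ l ∈ Finset.range (n + 1), (gw (n + 2) (l + 1) : ℂ) * (s (l + 1) - s l)) =
    ∑' l : ℕ, E1 α (s 0) l * (s (l + 1) - s l) := by
  have hM0 : 0 ≤ M := (norm_nonneg _).trans (hM 0)
  have h1 : Summable fun p : ℕ × ℕ => ec α (s 0) p.1 p.2 * (s (p.2 + 1) - s p.2) := by
    have h2 : Summable fun p : ℕ × ℕ => (M * (6 / 5) * (1 / 2) ^ p.1) * (1 / 2) ^ p.2 :=
      Summable.mul_of_nonneg (summable_half.mul_left (M * (6 / 5))) summable_half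
        (fun _ => by positivity) (fun _ => by positivity)
    refine Summable.of_norm_bounded h2 fun p => ?_
    rw [norm_mul]
    calc ‖ec α (s 0) p.1 p.2‖ * ‖s (p.2 + 1) - s p.2‖
        ≤ (M * (1 / 2) ^ p.2 * (1 / 2) ^ p.1) * (6 / 5) :=
          mul_le_mul (ec_le hv hM _ _) (dd_le hs _) (norm_nonneg _) (by positivity)
      _ = _ := by ring
  have h3 := h1.tsum_comm (f := fun n l => ec α (s 0) n l * (s (l + 1) - s l))
  have h4 : ∀ n, ∑' l, ec α (s 0) n l * (s (l + 1) - s l) = α (n + 2) * (s 0 ^ (ee (n + 2) - 1) *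
      ∑ l ∈ Finset.range (n + 1), (gw (n + 2) (l + 1) : ℂ) * (s (l + 1) - s l)) := by
    intro n
    rw [tsum_eq_sum (s := Finset.range (n + 1)), Finset.mul_sum, Finset.mul_sum]
    · refine Finset.sum_congr rfl fun l _ => ?_
      rw [ec]
      ring
    · intro l hl
      rw [Finset.mem_range] at hl
      rw [ec, gw_zero (n + 2) (l + 1) (by omega)]
      simp
  have h5 : ∀ l, ∑' n, ec α (s 0) n l * (s (l + 1) - s l) = E1 α (s 0) l * (s (l + 1) - s l) := by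
    intro l
    rw [E1, tsum_mul_right]
  rw [tsum_congr h4, tsum_congr h5] at h3
  exact h3.symm

theorem summable_v {α : ℕ → ℂ} {v : ℂ} {M : ℝ} (hv : ‖v‖ ≤ 9 / 25)
    (hM : ∀ n, ‖α (n + 2)‖ ≤ M) : Summable fun n => α (n + 2) * v ^ ee (n + 2) := by
  have hM0 : 0 ≤ M := (norm_nonneg _).trans (hM 0)
  refine Summable.of_norm_bounded ((summable_geometric_of_lt_one (r := 1 / 16) (by norm_num)
    (by norm_num)).mul_left M) fun n => ?_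
  rw [norm_mul, norm_pow]
  refine mul_le_mul (hM n) (le_trans ?_ (vpow_le hv n)) (by positivity) hM0
  exact pow_le_pow_of_le_one (norm_nonneg _) (by linarith) (Nat.sub_le _ _)

theorem summable_mid {s α : ℕ → ℂ} {M : ℝ} (hs : ∀ i, ‖s i‖ ≤ 3 / 5) (hv : ‖s 0‖ ≤ 9 / 25)
    (hM : ∀ n, ‖α (n + 2)‖ ≤ M) :
    Summable fun n : ℕ => α (n + 2) * (s 0 ^ (ee (n + 2) - 1) *
      ∑ l ∈ Finset.range (n + 1), (gw (n + 2) (l + 1) : ℂ) * (s (l + 1) - s l)) := by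
  have hM0 : 0 ≤ M := (norm_nonneg _).trans (hM 0)
  refine Summable.of_norm_bounded ((summable_half.mul_left (M * (6 / 5) * 2))) fun n => ?_
  have h : α (n + 2) * (s 0 ^ (ee (n + 2) - 1) *
      ∑ l ∈ Finset.range (n + 1), (gw (n + 2) (l + 1) : ℂ) * (s (l + 1) - s l)) =
      ∑ l ∈ Finset.range (n + 1), ec α (s 0) n l * (s (l + 1) - s l) := by
    rw [Finset.mul_sum, Finset.mul_sum]
    refine Finset.sum_congr rfl fun l _ => ?_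
    rw [ec]
    ring
  rw [h]
  refine (norm_sum_le _ _).trans ?_
  calc ∑ l ∈ Finset.range (n + 1), ‖ec α (s 0) n l * (s (l + 1) - s l)‖
      ≤ ∑ l ∈ Finset.range (n + 1), (M * (6 / 5) * (1 / 2) ^ n) * (1 / 2) ^ l := by
        refine Finset.sum_le_sum fun l _ => ?_
        rw [norm_mul]
        calc ‖ec α (s 0) n l‖ * ‖s (l + 1) - s l‖ ≤ (M * (1 / 2) ^ l * (1 / 2) ^ n) * (6 / 5) :=
              mul_le_mul (ec_le hv hM _ _) (dd_le hs _) (norm_nonneg _) (by positivity)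
          _ = _ := by ring
    _ = (M * (6 / 5) * (1 / 2) ^ n) * ∑ l ∈ Finset.range (n + 1), (1 / 2 : ℝ) ^ l := by
        rw [Finset.mul_sum]
    _ ≤ (M * (6 / 5) * (1 / 2) ^ n) * 2 := by
        apply mul_le_mul_of_nonneg_left _ (by positivity)
        exact hasSum_geometric_two.summable.sum_le_tsum _ (fun _ _ => by positivity) |>.trans
          (le_of_eq hasSum_geometric_two.tsum_eq)
    _ = _ := by ring

/-- the expansion of the whole series -/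
theorem expand {s α : ℕ → ℂ} {M : ℝ} (hs : ∀ i, ‖s i‖ ≤ 3 / 5) (hv0 : s 0 ≠ 0)
    (hv : ‖s 0‖ ≤ 9 / 25) (hM : ∀ n, ‖α (n + 2)‖ ≤ M) :
    ∑' n : ℕ, α (n + 2) * mon s (n + 2) = (∑' n : ℕ, α (n + 2) * s 0 ^ ee (n + 2)) +
      (∑' l : ℕ, E1 α (s 0) l * (s (l + 1) - s l)) + ∑' n : ℕ, α (n + 2) * Rm s n := by
  have h1 := summable_v hv hM
  have h2 := summable_mid hs hv hM
  have h3 : Summable fun n : ℕ => α (n + 2) * Rm s n :=
    (summable_Rm hs hv0 hv le_rfl hM).of_norm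
  rw [← ec_swap hs hv hM, ← h1.tsum_add h2, ← (h1.add h2).tsum_add h3]
  refine tsum_congr fun n => ?_
  rw [Rm]
  ring

end MaxTerm.PA.ModeE
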