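import Pool.Agent.MaxTerm.PartA.NearFrame
import Pool.Agent.MaxTerm.PartA.ModeEB

/-!
# Part A, near region: the terms `n ≥ 5` of the `EE` series

With `s = ‖u - q0‖ + ‖v - q0‖` every term `tR n l`, `tL n l` (`n ≥ 5`, `l ≥ 1`) is at most
`(1/2000) (1/16)^(n-5) s`. Main result: `near_tail`.
-/

open Filter Topology ComplexConjugate

namespace MaxTerm.PA.NearTail

open MaxTerm.PA.ModeE (sum_ee ee_succ ee_pos ec ec_le ec_summable gw_zero)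

theorem pow_sub_le {r : ℝ} {x y : ℂ} (hx : ‖x‖ ≤ r) (hy : ‖y‖ ≤ r) (n : ℕ) :
    ‖x ^ (n + 1) - y ^ (n + 1)‖ ≤ (n + 1) * r ^ n * ‖x - y‖ := by
  have hr : 0 ≤ r := (norm_nonneg _).trans hx
  induction n with
  | zero => simp
  | succ n ih =>
    have e : x ^ (n + 1 + 1) - y ^ (n + 1 + 1) = x ^ (n + 1) * (x - y) + (x ^ (n + 1) - y ^ (n + 1)) * y := by
      ring
    rw [e]
    calc ‖x ^ (n + 1) * (x - y) + (x ^ (n + 1) - y ^ (n + 1)) * y‖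
        ≤ ‖x‖ ^ (n + 1) * ‖x - y‖ + ‖x ^ (n + 1) - y ^ (n + 1)‖ * ‖y‖ := by
          refine (norm_add_le _ _).trans ?_
          rw [norm_mul, norm_mul, norm_pow]
      _ ≤ r ^ (n + 1) * ‖x - y‖ + ((n + 1) * r ^ n * ‖x - y‖) * r := by
          apply add_le_add
          · exact mul_le_mul_of_nonneg_right (pow_le_pow_left₀ (norm_nonneg _) hx _) (norm_nonneg _)
          · exact mul_le_mul ih hy (norm_nonneg _) (by positivity)
      _ = _ := by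
          push_cast
          ring

theorem pow_sub_le' {r : ℝ} {x y : ℂ} (hx : ‖x‖ ≤ r) (hy : ‖y‖ ≤ r) (n : ℕ) :
    ‖x ^ n - y ^ n‖ ≤ n * r ^ (n - 1) * ‖x - y‖ := by
  rcases n with _ | n
  · simp
  · have := pow_sub_le hx hy n
    simpa using this

theorem half_const (q w : ℂ) : half (fun _ => q) w = ∑' n : ℕ, q ^ ee n * w ^ (2 * n + 1) := by
  rw [half]
  refine tsum_congr fun n => ?_
  rw [mon, Finset.prod_pow_eq_pow_sum, sum_ee]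

theorem ee_ge_self (n : ℕ) : n ≤ ee n := by
  induction n with
  | zero => exact Nat.zero_le _
  | succ n ih =>
    rw [ee_succ]
    omega

theorem b0 (n : ℕ) : (3 / 10 : ℝ) ^ ee n ≤ (1 / 2) ^ n :=
  (pow_le_pow_of_le_one (by norm_num) (by norm_num) (ee_ge_self n)).trans
    (pow_le_pow_left₀ (by norm_num) (by norm_num) n)

theorem b1 (n : ℕ) : (2 * n + 1) * (3 / 10 : ℝ) ^ ee n ≤ 2 * (1 / 2) ^ n := by
  rcases n with _ | n
  · norm_num [ee]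
  induction n with
  | zero => norm_num [ee]
  | succ n ih =>
    rw [ee_succ, pow_add]
    have h1 : (3 / 10 : ℝ) ^ (n + 1 + 1) ≤ 1 / 10 := by
      calc (3 / 10 : ℝ) ^ (n + 1 + 1) ≤ (3 / 10) ^ 2 :=
            pow_le_pow_of_le_one (by norm_num) (by norm_num) (by omega)
        _ ≤ 1 / 10 := by norm_num
    have h2 : (2 * ((n + 1 + 1 : ℕ) : ℝ) + 1) ≤ 5 * (2 * ((n + 1 : ℕ) : ℝ) + 1) := by
      push_cast
      have : (0 : ℝ) ≤ n := Nat.cast_nonneg n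
      linarith
    calc (2 * ((n + 1 + 1 : ℕ) : ℝ) + 1) * ((3 / 10 : ℝ) ^ ee (n + 1) * (3 / 10) ^ (n + 1 + 1))
        ≤ (5 * (2 * ((n + 1 : ℕ) : ℝ) + 1)) * ((3 / 10 : ℝ) ^ ee (n + 1) * (1 / 10)) := by gcongr
      _ = ((2 * ((n + 1 : ℕ) : ℝ) + 1) * (3 / 10 : ℝ) ^ ee (n + 1)) * (1 / 2) := by ring
      _ ≤ (2 * (1 / 2) ^ (n + 1)) * (1 / 2) := mul_le_mul_of_nonneg_right ih (by norm_num)
      _ = 2 * (1 / 2) ^ (n + 1 + 1) := by ring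

theorem b2 (n : ℕ) : (ee n : ℝ) * (3 / 10 : ℝ) ^ (ee n - 1) ≤ 2 * (1 / 2) ^ n := by
  rcases n with _ | n
  · norm_num [ee]
  induction n with
  | zero => norm_num [ee]
  | succ n ih =>
    have e0 := ee_succ (n + 1)
    have e1 : ee (n + 1 + 1) - 1 = (ee (n + 1) - 1) + (n + 1 + 1) := by
      have := ee_pos n
      omega
    have h1 : (3 / 10 : ℝ) ^ (n + 1 + 1) ≤ 1 / 10 := by
      calc (3 / 10 : ℝ) ^ (n + 1 + 1) ≤ (3 / 10) ^ 2 :=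
            pow_le_pow_of_le_one (by norm_num) (by norm_num) (by omega)
        _ ≤ 1 / 10 := by norm_num
    have h2 : (ee (n + 1 + 1) : ℝ) ≤ 5 * (ee (n + 1) : ℝ) := by
      have h3 := ee_ge_self (n + 1)
      have : ee (n + 1 + 1) ≤ 5 * ee (n + 1) := by omega
      exact_mod_cast this
    rw [e1, pow_add]
    calc (ee (n + 1 + 1) : ℝ) * ((3 / 10 : ℝ) ^ (ee (n + 1) - 1) * (3 / 10) ^ (n + 1 + 1))
        ≤ (5 * (ee (n + 1) : ℝ)) * ((3 / 10 : ℝ) ^ (ee (n + 1) - 1) * (1 / 10)) := by gcongr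
      _ = ((ee (n + 1) : ℝ) * (3 / 10 : ℝ) ^ (ee (n + 1) - 1)) * (1 / 2) := by ring
      _ ≤ (2 * (1 / 2) ^ (n + 1)) * (1 / 2) := mul_le_mul_of_nonneg_right ih (by norm_num)
      _ = 2 * (1 / 2) ^ (n + 1 + 1) := by ring

theorem half_term_le {q w : ℂ} (hq : ‖q‖ ≤ 3 / 10) (hw : ‖w‖ = 1) (n : ℕ) :
    ‖q ^ ee n * w ^ (2 * n + 1)‖ ≤ (1 / 2) ^ n := by
  rw [norm_mul, norm_pow, norm_pow, hw, one_pow, mul_one]
  exact (pow_le_pow_left₀ (norm_nonneg _) hq _).trans (b0 n)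

theorem half_summable {q w : ℂ} (hq : ‖q‖ ≤ 3 / 10) (hw : ‖w‖ = 1) :
    Summable fun n : ℕ => q ^ ee n * w ^ (2 * n + 1) :=
  Summable.of_norm_bounded ModeE.summable_half (half_term_le hq hw)

theorem half_le {q w : ℂ} (hq : ‖q‖ ≤ 3 / 10) (hw : ‖w‖ = 1) : ‖half (fun _ => q) w‖ ≤ 2 := by
  rw [half_const]
  exact tsum_of_norm_bounded hasSum_geometric_two (half_term_le hq hw)

theorem half_sub_le {q q' w w' : ℂ} (hq : ‖q‖ ≤ 3 / 10) (hq' : ‖q'‖ ≤ 3 / 10) (hw : ‖w‖ = 1)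
    (hw' : ‖w'‖ = 1) : ‖half (fun _ => q) w - half (fun _ => q') w'‖ ≤
      4 * (‖q - q'‖ + ‖w - w'‖) := by
  rw [half_const, half_const, ← (half_summable hq hw).tsum_sub (half_summable hq' hw')]
  have h : HasSum (fun n : ℕ => (2 * (‖q - q'‖ + ‖w - w'‖)) * (1 / 2 : ℝ) ^ n)
      ((2 * (‖q - q'‖ + ‖w - w'‖)) * 2) := hasSum_geometric_two.mul_left _
  have e4 : 4 * (‖q - q'‖ + ‖w - w'‖) = (2 * (‖q - q'‖ + ‖w - w'‖)) * 2 := by ring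
  rw [e4]
  refine tsum_of_norm_bounded h fun n => ?_
  have e : q ^ ee n * w ^ (2 * n + 1) - q' ^ ee n * w' ^ (2 * n + 1) =
      (q ^ ee n - q' ^ ee n) * w ^ (2 * n + 1) + q' ^ ee n * (w ^ (2 * n + 1) - w' ^ (2 * n + 1)) := by
    ring
  rw [e]
  have h1 := pow_sub_le' hq hq' (ee n)
  have h2 : ‖w ^ (2 * n + 1) - w' ^ (2 * n + 1)‖ ≤ (2 * n + 1) * ‖w - w'‖ := by
    have := pow_sub_le (r := 1) hw.le hw'.le (2 * n)
    push_cast at this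
    simpa using this
  have h3 : ‖q' ^ ee n‖ ≤ (3 / 10) ^ ee n := by
    rw [norm_pow]
    exact pow_le_pow_left₀ (norm_nonneg _) hq' _
  calc ‖(q ^ ee n - q' ^ ee n) * w ^ (2 * n + 1) + q' ^ ee n * (w ^ (2 * n + 1) - w' ^ (2 * n + 1))‖
      ≤ ‖q ^ ee n - q' ^ ee n‖ * 1 + ‖q' ^ ee n‖ * ‖w ^ (2 * n + 1) - w' ^ (2 * n + 1)‖ := by
        refine (norm_add_le _ _).trans ?_
        rw [norm_mul, norm_mul, norm_pow w, hw, one_pow]
    _ ≤ ((ee n : ℝ) * (3 / 10) ^ (ee n - 1) * ‖q - q'‖) * 1 +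
        (3 / 10) ^ ee n * ((2 * n + 1) * ‖w - w'‖) := by gcongr
    _ = ((ee n : ℝ) * (3 / 10) ^ (ee n - 1)) * ‖q - q'‖ +
        ((2 * n + 1) * (3 / 10) ^ ee n) * ‖w - w'‖ := by ring
    _ ≤ (2 * (1 / 2) ^ n) * ‖q - q'‖ + (2 * (1 / 2) ^ n) * ‖w - w'‖ := by
        apply add_le_add
        · exact mul_le_mul_of_nonneg_right (b2 n) (norm_nonneg _)
        · exact mul_le_mul_of_nonneg_right (b1 n) (norm_nonneg _)
    _ = _ := by ring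

theorem Fc_le {u v w : ℂ} (hu : ‖u‖ ≤ 3 / 10) (hv : ‖v‖ ≤ 3 / 10) (hw : ‖w‖ = 1) :
    ‖Fc u v w‖ ≤ 4 := by
  have h1 := half_le hv hw
  have h2 := half_le hu (w := conj w) (by rw [Complex.norm_conj, hw])
  refine (norm_add_le _ _).trans ?_
  linarith

theorem Fc_sub_le {u v w u' v' w' : ℂ} (hu : ‖u‖ ≤ 3 / 10) (hv : ‖v‖ ≤ 3 / 10) (hw : ‖w‖ = 1)
    (hu' : ‖u'‖ ≤ 3 / 10) (hv' : ‖v'‖ ≤ 3 / 10) (hw' : ‖w'‖ = 1) :
    ‖Fc u v w - Fc u' v' w'‖ ≤ 4 * (‖u - u'‖ + ‖v - v'‖) + 8 * ‖w - w'‖ := by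
  have h1 := half_sub_le hv hv' hw hw'
  have h2 := half_sub_le hu hu' (w := conj w) (w' := conj w') (by rw [Complex.norm_conj, hw])
    (by rw [Complex.norm_conj, hw'])
  rw [← map_sub, Complex.norm_conj] at h2
  have e : Fc u v w - Fc u' v' w' = (half (fun _ => v) w - half (fun _ => v') w') +
      (half (fun _ => u) (conj w) - half (fun _ => u') (conj w')) := by
    rw [Fc, Fc]
    ring
  rw [e]
  refine (norm_add_le _ _).trans ?_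
  linarith

/-- one atom is close to its base atom -/
structure Cl (s : ℝ) (a b : Atom) : Prop where
  wa : ‖a.w‖ = 1
  wb : ‖b.w‖ = 1
  w : ‖a.w - b.w‖ ≤ 7 / 5 * s
  l : |a.l - b.l| ≤ 5 / 4 * s
  la : |a.l| ≤ 11 / 20
  lb : |b.l| ≤ 11 / 20
  ea : ‖a.e‖ ≤ 4
  eb : ‖b.e‖ ≤ 4
  e : ‖a.e - b.e‖ ≤ 16 * s

theorem Cl.moment {s : ℝ} {a b : Atom} (hs : 0 ≤ s) (h : Cl s a b) (m : ℕ) (hm : 11 ≤ m) :
    ‖(a.l : ℂ) * conj a.e * a.w ^ m - (b.l : ℂ) * conj b.e * b.w ^ m‖ ≤ 5 * m * s := by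
  have e : (a.l : ℂ) * conj a.e * a.w ^ m - (b.l : ℂ) * conj b.e * b.w ^ m =
      ((a.l - b.l : ℝ) : ℂ) * conj a.e * a.w ^ m + (b.l : ℂ) * conj (a.e - b.e) * a.w ^ m +
        (b.l : ℂ) * conj b.e * (a.w ^ m - b.w ^ m) := by
    rw [map_sub]
    push_cast
    ring
  rw [e]
  have h1 : ‖a.w ^ m - b.w ^ m‖ ≤ m * (7 / 5 * s) := by
    have := pow_sub_le' (r := 1) h.wa.le h.wb.le m
    rw [one_pow, mul_one] at this
    exact this.trans (mul_le_mul_of_nonneg_left h.w (Nat.cast_nonneg _))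
  have n1 : ‖a.w ^ m‖ = 1 := by rw [norm_pow, h.wa, one_pow]
  have hm' : (11 : ℝ) ≤ m := by exact_mod_cast hm
  calc _ ≤ ‖((a.l - b.l : ℝ) : ℂ) * conj a.e * a.w ^ m‖ + ‖(b.l : ℂ) * conj (a.e - b.e) * a.w ^ m‖ +
        ‖(b.l : ℂ) * conj b.e * (a.w ^ m - b.w ^ m)‖ := norm_add₃_le
    _ = |a.l - b.l| * ‖a.e‖ + |b.l| * ‖a.e - b.e‖ + |b.l| * ‖b.e‖ * ‖a.w ^ m - b.w ^ m‖ := by
        rw [norm_mul, norm_mul, norm_mul, norm_mul, norm_mul, norm_mul, n1, Complex.norm_conj,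
          Complex.norm_conj, Complex.norm_conj, Complex.norm_real, Complex.norm_real,
          Real.norm_eq_abs, Real.norm_eq_abs]
        ring
    _ ≤ 5 / 4 * s * 4 + 11 / 20 * (16 * s) + 11 / 20 * 4 * (m * (7 / 5 * s)) := by
        refine add_le_add (add_le_add ?_ ?_) ?_
        · exact mul_le_mul h.l h.ea (norm_nonneg _) (by positivity)
        · exact mul_le_mul h.lb h.e (norm_nonneg _) (by norm_num)
        · exact mul_le_mul (mul_le_mul h.lb h.eb (norm_nonneg _) (by norm_num)) h1 (norm_nonneg _)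
            (by norm_num)
    _ ≤ 5 * m * s := by nlinarith

theorem Cl.bound {s : ℝ} {a b : Atom} (h : Cl s a b) (m : ℕ) :
    ‖(a.l : ℂ) * conj a.e * a.w ^ m‖ ≤ 3 := by
  rw [norm_mul, norm_mul, norm_pow, h.wa, one_pow, mul_one, Complex.norm_conj, Complex.norm_real,
    Real.norm_eq_abs]
  calc |a.l| * ‖a.e‖ ≤ 11 / 20 * 4 := mul_le_mul h.la h.ea (norm_nonneg _) (by norm_num)
    _ ≤ 3 := by norm_num

theorem Cl.bound' {s : ℝ} {a b : Atom} (h : Cl s a b) (m : ℕ) :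
    ‖(b.l : ℂ) * conj b.e * b.w ^ m‖ ≤ 3 := by
  rw [norm_mul, norm_mul, norm_pow, h.wb, one_pow, mul_one, Complex.norm_conj, Complex.norm_real,
    Real.norm_eq_abs]
  calc |b.l| * ‖b.e‖ ≤ 11 / 20 * 4 := mul_le_mul h.lb h.eb (norm_nonneg _) (by norm_num)
    _ ≤ 3 := by norm_num

/-! ### the three atoms -/

theorem base (q0 w0 : ℂ) (lB : ℝ) : natoms q0 w0 lB q0 q0 =
    [⟨1, lAc, Fc q0 q0 1⟩, ⟨w0, lB / 2, Fc q0 q0 w0⟩, ⟨conj w0, lB / 2, Fc q0 q0 (conj w0)⟩] := by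
  have h : dl q0 q0 q0 = 0 := by
    rw [dl]
    ring
  simp [natoms, tau, h]

theorem Fc_conj (q w : ℂ) : Fc q q (conj w) = Fc q q w := by
  rw [Fc, Fc, Complex.conj_conj, add_comm]

theorem aL_base (q0 w0 : ℂ) (lB : ℝ) (n : ℕ) :
    aL (natoms q0 w0 lB q0 q0) n = aR (natoms q0 w0 lB q0 q0) n := by
  rw [base, aL, aR]
  simp only [List.map_cons, List.map_nil, List.sum_cons, List.sum_nil, map_one,
    Complex.conj_conj, Fc_conj]
  ring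

/-- the numerical facts -/
structure Geo (q0 w0 u v : ℂ) (lB s : ℝ) : Prop where
  hq : ‖q0‖ ≤ 3 / 10
  hu : ‖u‖ ≤ 3 / 10
  hv : ‖v‖ ≤ 3 / 10
  hui : 0 ≤ u.im
  hvi : 0 ≤ v.im
  hw : ‖w0‖ = 1
  s0 : 0 ≤ s
  hs : s = ‖u - q0‖ + ‖v - q0‖
  s1 : s ≤ 84 / 10000
  l1 : 97 / 100 ≤ lB
  l2 : lB ≤ 982 / 1000

theorem norm_le_of_box {z : ℂ} {e : ℝ} (h1 : |z.re| ≤ e) (h2 : |z.im| ≤ e) : ‖z‖ ≤ 2 * e :=
  (Complex.norm_le_abs_re_add_abs_im z).trans (by linarith)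

theorem geo {q0 w0 : ℂ} {lB : ℝ} (hp : PB q0 w0 lB) {u v : ℂ} (hu : SB q0 u) (hv : SB q0 v) :
    Geo q0 w0 u v lB (‖u - q0‖ + ‖v - q0‖) := by
  have hqc : ‖qc‖ ≤ 281 / 1000 := by
    rw [← sq_le_sq₀ (norm_nonneg _) (by norm_num), ← Complex.normSq_eq_norm_sq,
      Complex.normSq_apply]
    norm_num [qc]
  have h1 : ‖q0‖ ≤ 282 / 1000 := by
    have e : q0 = (q0 - qc) + qc := by ring
    rw [e]
    refine (norm_add_le _ _).trans ?_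
    have := hp.q
    linarith
  have h2 := norm_le_of_box hu.re hu.im
  have h3 := norm_le_of_box hv.re hv.im
  have hqi : 0.2047 ≤ q0.im := by
    have h4 := (Complex.abs_im_le_norm _).trans hp.q
    rw [Complex.sub_im, abs_le] at h4
    have : qc.im = 0.2048974310 := rfl
    rw [this] at h4
    linarith [h4.1]
  have h5 : ‖u‖ ≤ 3 / 10 := by
    have e : u = (u - q0) + q0 := by ring
    rw [e]
    refine (norm_add_le _ _).trans ?_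
    linarith
  have h6 : ‖v‖ ≤ 3 / 10 := by
    have e : v = (v - q0) + q0 := by ring
    rw [e]
    refine (norm_add_le _ _).trans ?_
    linarith
  have h7 := hu.im
  have h8 := hv.im
  rw [Complex.sub_im, abs_le] at h7 h8
  have h9 := hp.l
  rw [abs_le, lBc] at h9
  refine ⟨by linarith, h5, h6, by linarith [h7.1], by linarith [h8.1], hp.w, by positivity, rfl,
    by linarith, by linarith [h9.1], by linarith [h9.2]⟩

theorem Geo.dl {q0 w0 u v : ℂ} {lB s : ℝ} (h : Geo q0 w0 u v lB s) : ‖dl q0 u v‖ ≤ s / 2 := by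
  have e : MaxTerm.PA.dl q0 u v = ((u - q0) + (v - q0)) / 2 := by
    rw [MaxTerm.PA.dl]
    ring
  rw [e, norm_div, Complex.norm_ofNat, h.hs]
  have := norm_add_le (u - q0) (v - q0)
  linarith

theorem Geo.D {q0 w0 u v : ℂ} {lB s : ℝ} (h : Geo q0 w0 u v lB s) : ‖v - u‖ ≤ s := by
  have e : v - u = (v - q0) - (u - q0) := by ring
  rw [e, h.hs]
  have := norm_sub_le (v - q0) (u - q0)
  linarith

theorem exp_sub_one_le (x : ℝ) : ‖Complex.exp (Complex.I * x) - 1‖ ≤ |x| :=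
  Real.norm_exp_I_mul_ofReal_sub_one_le

theorem norm_expI (x : ℝ) : ‖Complex.exp (Complex.I * x)‖ = 1 := by
  rw [mul_comm]
  exact Complex.norm_exp_ofReal_mul_I x

theorem Geo.tau {q0 w0 u v : ℂ} {lB s : ℝ} (h : Geo q0 w0 u v lB s) : |tau q0 u v| ≤ 7 / 5 * s := by
  have h1 := (Complex.abs_re_le_norm _).trans h.dl
  have h2 := (Complex.abs_im_le_norm _).trans h.dl
  have h0 := h.s0
  rw [abs_le] at h1 h2 ⊢
  rw [MaxTerm.PA.tau]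
  constructor <;> linarith [h1.1, h1.2, h2.1, h2.2]

theorem Geo.g {q0 w0 u v : ℂ} {lB s : ℝ} (h : Geo q0 w0 u v lB s) :
    |-(27 / 20) * (v - u).re - 113 / 100 * (v - u).im| ≤ 178 / 100 * s := by
  have h1 : (-(27 / 20) * (v - u).re - 113 / 100 * (v - u).im) ^ 2 ≤ (178 / 100 * s) ^ 2 := by
    have h2 : (v - u).re ^ 2 + (v - u).im ^ 2 = ‖v - u‖ ^ 2 := by
      rw [← Complex.normSq_eq_norm_sq, Complex.normSq_apply]
      ring
    have h3 := pow_le_pow_left₀ (norm_nonneg _) h.D 2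
    nlinarith [sq_nonneg (113 / 100 * (v - u).re - 27 / 20 * (v - u).im)]
  exact abs_le_of_sq_le_sq h1 (mul_nonneg (by norm_num) h.s0)

theorem cl1 {q0 w0 u v : ℂ} {lB s : ℝ} (h : Geo q0 w0 u v lB s) :
    Cl s ⟨Complex.exp (Complex.I * ((7 / 5 * (v - u).re : ℝ) : ℂ)), lAc + 8 / 5 * (dl q0 u v).im,
      Fc u v (Complex.exp (Complex.I * ((7 / 5 * (v - u).re : ℝ) : ℂ)))⟩ ⟨1, lAc, Fc q0 q0 1⟩ := by
  have hw := norm_expI (7 / 5 * (v - u).re)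
  have h1 := exp_sub_one_le (7 / 5 * (v - u).re)
  have h2 : |7 / 5 * (v - u).re| ≤ 7 / 5 * s := by
    rw [abs_mul, abs_of_pos (by norm_num : (0 : ℝ) < 7 / 5)]
    exact mul_le_mul_of_nonneg_left ((Complex.abs_re_le_norm _).trans h.D) (by norm_num)
  have h3 := (Complex.abs_im_le_norm _).trans h.dl
  have h0 := h.s0
  have h5 := h.s1
  have h4 := Fc_sub_le h.hu h.hv hw h.hq h.hq (norm_one (α := ℂ))
  rw [← h.hs] at h4
  rw [abs_le] at h3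
  refine ⟨hw, norm_one, h1.trans h2, ?_, ?_, ?_, Fc_le h.hu h.hv hw, Fc_le h.hq h.hq norm_one, ?_⟩
  · change |lAc + 8 / 5 * (dl q0 u v).im - lAc| ≤ 5 / 4 * s
    rw [abs_le]
    constructor <;> linarith [h3.1, h3.2]
  · change |lAc + 8 / 5 * (dl q0 u v).im| ≤ 11 / 20
    rw [abs_le, lAc]
    constructor <;> linarith [h3.1, h3.2]
  · change |lAc| ≤ 11 / 20
    rw [abs_le, lAc]
    norm_num
  · change ‖Fc u v _ - Fc q0 q0 1‖ ≤ 16 * s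
    linarith [h1.trans h2]

theorem clB {q0 w0 u v : ℂ} {lB s g : ℝ} (h : Geo q0 w0 u v lB s) (hg : |g| ≤ 178 / 100 * s)
    {w wb : ℂ} (hw : ‖w‖ = 1) (hwb : ‖wb‖ = 1) (hd : ‖w - wb‖ ≤ 7 / 5 * s) :
    Cl s ⟨w, lB / 2 * (1 + g), Fc u v w⟩ ⟨wb, lB / 2, Fc q0 q0 wb⟩ := by
  have h0 := h.s0
  have h5 := h.s1
  have hl1 := h.l1
  have hl2 := h.l2
  have h4 := Fc_sub_le h.hu h.hv hw h.hq h.hq hwb
  rw [← h.hs] at h4
  have hgl : |lB / 2 * g| ≤ 491 / 1000 * (178 / 100 * s) := by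
    rw [abs_mul, abs_of_pos (by linarith : 0 < lB / 2)]
    exact mul_le_mul (by linarith) hg (abs_nonneg _) (by norm_num)
  rw [abs_le] at hgl
  refine ⟨hw, hwb, hd, ?_, ?_, ?_, Fc_le h.hu h.hv hw, Fc_le h.hq h.hq hwb, ?_⟩
  · change |lB / 2 * (1 + g) - lB / 2| ≤ 5 / 4 * s
    rw [abs_le]
    constructor <;> linarith [hgl.1, hgl.2]
  · change |lB / 2 * (1 + g)| ≤ 11 / 20
    rw [abs_le]
    constructor <;> linarith [hgl.1, hgl.2]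
  · change |lB / 2| ≤ 11 / 20
    rw [abs_le]
    constructor <;> linarith
  · change ‖Fc u v _ - Fc q0 q0 _‖ ≤ 16 * s
    linarith

theorem wB {q0 w0 u v : ℂ} {lB s : ℝ} (h : Geo q0 w0 u v lB s) :
    ‖w0 * Complex.exp (Complex.I * (tau q0 u v : ℂ))‖ = 1 ∧
      ‖w0 * Complex.exp (Complex.I * (tau q0 u v : ℂ)) - w0‖ ≤ 7 / 5 * s := by
  constructor
  · rw [norm_mul, h.hw, norm_expI, one_mul]
  · have e : w0 * Complex.exp (Complex.I * (tau q0 u v : ℂ)) - w0 =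
        w0 * (Complex.exp (Complex.I * (tau q0 u v : ℂ)) - 1) := by ring
    rw [e, norm_mul, h.hw, one_mul]
    exact (exp_sub_one_le _).trans h.tau

theorem Cl.cj {s : ℝ} {a b : Atom} (h : Cl s a b) :
    Cl s ⟨conj a.w, a.l, a.e⟩ ⟨conj b.w, b.l, b.e⟩ := by
  refine ⟨?_, ?_, ?_, h.l, h.la, h.lb, h.ea, h.eb, h.e⟩
  · change ‖conj a.w‖ = 1
    rw [Complex.norm_conj, h.wa]
  · change ‖conj b.w‖ = 1
    rw [Complex.norm_conj, h.wb]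
  · change ‖conj a.w - conj b.w‖ ≤ 7 / 5 * s
    rw [← map_sub, Complex.norm_conj]
    exact h.w

theorem three {s : ℝ} (hs : 0 ≤ s) {a1 a2 a3 b1 b2 b3 : Atom} (k1 : Cl s a1 b1) (k2 : Cl s a2 b2)
    (k3 : Cl s a3 b3) (n : ℕ) :
    ‖aR [a1, a2, a3] n‖ ≤ 9 ∧ ‖aR [b1, b2, b3] n‖ ≤ 9 ∧ (5 ≤ n →
      ‖aR [a1, a2, a3] n - aR [b1, b2, b3] n‖ ≤ 15 * ((2 * n + 1 : ℕ) : ℝ) * s) := by
  simp only [aR, List.map_cons, List.map_nil, List.sum_cons, List.sum_nil, add_zero]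
  refine ⟨?_, ?_, fun hn => ?_⟩
  · rw [← add_assoc]
    refine norm_add₃_le.trans ?_
    have h1 := k1.bound (2 * n + 1)
    have h2 := k2.bound (2 * n + 1)
    have h3 := k3.bound (2 * n + 1)
    linarith
  · rw [← add_assoc]
    refine norm_add₃_le.trans ?_
    have h1 := k1.bound' (2 * n + 1)
    have h2 := k2.bound' (2 * n + 1)
    have h3 := k3.bound' (2 * n + 1)
    linarith
  · have h1 := k1.moment hs (2 * n + 1) (by omega)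
    have h2 := k2.moment hs (2 * n + 1) (by omega)
    have h3 := k3.moment hs (2 * n + 1) (by omega)
    have e : ∀ x1 x2 x3 y1 y2 y3 : ℂ, x1 + (x2 + x3) - (y1 + (y2 + y3)) =
        (x1 - y1) + (x2 - y2) + (x3 - y3) := by
      intros
      ring
    rw [e]
    refine norm_add₃_le.trans ?_
    linarith

theorem moments {q0 w0 u v : ℂ} {lB s : ℝ} (h : Geo q0 w0 u v lB s) (n : ℕ) :
    ‖aR (natoms q0 w0 lB u v) n‖ ≤ 9 ∧ ‖aL (natoms q0 w0 lB u v) n‖ ≤ 9 ∧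
    ‖aR (natoms q0 w0 lB q0 q0) n‖ ≤ 9 ∧ (5 ≤ n →
      ‖aR (natoms q0 w0 lB u v) n - aR (natoms q0 w0 lB q0 q0) n‖ ≤ 15 * ((2 * n + 1 : ℕ) : ℝ) * s ∧
      ‖aL (natoms q0 w0 lB u v) n - aR (natoms q0 w0 lB q0 q0) n‖ ≤
        15 * ((2 * n + 1 : ℕ) : ℝ) * s) := by
  have k1 := cl1 h
  have k2 := clB h h.g (wB h).1 h.hw (wB h).2
  have hg' : |-(-(27 / 20) * (v - u).re - 113 / 100 * (v - u).im)| ≤ 178 / 100 * s := by
    rw [abs_neg]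
    exact h.g
  have k3 := clB h hg' (w := conj (w0 * Complex.exp (Complex.I * (tau q0 u v : ℂ))))
    (wb := conj w0) (by rw [Complex.norm_conj]; exact (wB h).1) (by rw [Complex.norm_conj]; exact h.hw)
    (by rw [← map_sub, Complex.norm_conj]; exact (wB h).2)
  rw [← sub_eq_add_neg] at k3
  have t1 := three h.s0 k1 k2 k3 n
  have t2 := three h.s0 k1.cj k2.cj k3.cj n
  have e1 : aR (natoms q0 w0 lB u v) n = aR [_, _, _] n := rfl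
  have eb : natoms q0 w0 lB q0 q0 = [_, _, _] := base q0 w0 lB
  have ebL := aL_base q0 w0 lB n
  rw [eb] at ebL ⊢
  refine ⟨t1.1, t2.1, t1.2.1, fun hn => ⟨t1.2.2 hn, ?_⟩⟩
  rw [← ebL]
  exact t2.2.2 hn

/-! ### the terms -/

theorem gw_sq (n l : ℕ) (hl : 1 ≤ l) : (gw n l : ℝ) ≤ (n : ℝ) ^ 2 / 2 := by
  have h1 : (n - l) * (n - l + 1) ≤ n * n := by
    rcases Nat.lt_or_ge n l with h | h
    · rw [Nat.sub_eq_zero_of_le h.le]
      simp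
    · exact Nat.mul_le_mul (Nat.sub_le _ _) (by omega)
  have h2 : (gw n l : ℝ) ≤ (((n - l) * (n - l + 1) : ℕ) : ℝ) / ((2 : ℕ) : ℝ) := Nat.cast_div_le
  have h3 : (((n - l) * (n - l + 1) : ℕ) : ℝ) ≤ ((n * n : ℕ) : ℝ) := by exact_mod_cast h1
  rw [Nat.cast_mul n n] at h3
  norm_num at h2
  push_cast at h3
  nlinarith

theorem ee_sq (n : ℕ) (hn : 5 ≤ n) : (ee n : ℝ) ≤ 3 / 5 * (n : ℝ) ^ 2 := by
  have h2 : (ee n : ℝ) ≤ ((n * (n + 1) : ℕ) : ℝ) / ((2 : ℕ) : ℝ) := Nat.cast_div_le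
  have hn' : (5 : ℝ) ≤ n := by exact_mod_cast hn
  push_cast at h2
  nlinarith

theorem ee_ge15 (n : ℕ) : 15 + n ≤ ee (n + 5) := by
  induction n with
  | zero => decide
  | succ n ih =>
    have : ee (n + 1 + 5) = ee (n + 5) + (n + 5 + 1) := ee_succ (n + 5)
    omega

theorem pow4_le (n : ℕ) : 4 * ((n + 5 : ℕ) : ℝ) ^ 4 * (3 / 10) ^ (ee (n + 5) - 2) ≤
    1 / 2000 * (1 / 16) ^ n := by
  induction n with
  | zero => norm_num [ee]
  | succ n ih =>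
    have h0 := ee_ge15 n
    have h1 : ee (n + 1 + 5) - 2 = (ee (n + 5) - 2) + (n + 6) := by
      have : ee (n + 1 + 5) = ee (n + 5) + (n + 5 + 1) := ee_succ (n + 5)
      omega
    have h2 : (3 / 10 : ℝ) ^ (n + 6) ≤ 1 / 1000 := by
      calc (3 / 10 : ℝ) ^ (n + 6) ≤ (3 / 10) ^ 6 :=
            pow_le_pow_of_le_one (by norm_num) (by norm_num) (by omega)
        _ ≤ 1 / 1000 := by norm_num
    have h3 : ((n + 1 + 5 : ℕ) : ℝ) ^ 4 ≤ 3 * ((n + 5 : ℕ) : ℝ) ^ 4 := by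
      have h4 : ((n + 1 + 5 : ℕ) : ℝ) ≤ 6 / 5 * ((n + 5 : ℕ) : ℝ) := by
        push_cast
        have : (0 : ℝ) ≤ n := Nat.cast_nonneg n
        linarith
      calc ((n + 1 + 5 : ℕ) : ℝ) ^ 4 ≤ (6 / 5 * ((n + 5 : ℕ) : ℝ)) ^ 4 :=
            pow_le_pow_left₀ (Nat.cast_nonneg _) h4 4
        _ = (6 / 5) ^ 4 * ((n + 5 : ℕ) : ℝ) ^ 4 := mul_pow _ _ _
        _ ≤ 3 * ((n + 5 : ℕ) : ℝ) ^ 4 := mul_le_mul_of_nonneg_right (by norm_num) (by positivity)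
    rw [h1, pow_add]
    calc 4 * ((n + 1 + 5 : ℕ) : ℝ) ^ 4 * ((3 / 10 : ℝ) ^ (ee (n + 5) - 2) * (3 / 10) ^ (n + 6))
        ≤ 4 * (3 * ((n + 5 : ℕ) : ℝ) ^ 4) * ((3 / 10 : ℝ) ^ (ee (n + 5) - 2) * (1 / 1000)) := by
          gcongr
      _ = (4 * ((n + 5 : ℕ) : ℝ) ^ 4 * (3 / 10 : ℝ) ^ (ee (n + 5) - 2)) * (3 / 1000) := by ring
      _ ≤ (1 / 2000 * (1 / 16) ^ n) * (3 / 1000) := mul_le_mul_of_nonneg_right ih (by norm_num)
      _ ≤ (1 / 2000 * (1 / 16) ^ n) * (1 / 16) :=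
          mul_le_mul_of_nonneg_left (by norm_num) (by positivity)
      _ = 1 / 2000 * (1 / 16) ^ (n + 1) := by ring

/-- the general term -/
noncomputable def T (α α0 : ℕ → ℂ) (x q : ℂ) (n l : ℕ) : ℂ :=
  (gw n l : ℂ) * (α n * x ^ (ee n - 1) - α0 n * q ^ (ee n - 1))

/-- data of one side -/
structure Side (α α0 : ℕ → ℂ) (x q : ℂ) (s : ℝ) : Prop where
  s0 : 0 ≤ s
  hx : ‖x‖ ≤ 3 / 10
  hq : ‖q‖ ≤ 3 / 10
  hxq : ‖x - q‖ ≤ s
  m : ∀ n, ‖α n‖ ≤ 9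
  m0 : ∀ n, ‖α0 n‖ ≤ 9
  d : ∀ n, 5 ≤ n → ‖α n - α0 n‖ ≤ 15 * ((2 * n + 1 : ℕ) : ℝ) * s

theorem Side.term {α α0 : ℕ → ℂ} {x q : ℂ} {s : ℝ} (h : Side α α0 x q s) (n l : ℕ) (hl : 1 ≤ l) :
    ‖T α α0 x q (n + 5) l‖ ≤ (1 / 2000 * (1 / 16) ^ n) * s := by
  have he := ee_ge15 n
  obtain ⟨e, he'⟩ : ∃ e, ee (n + 5) = e + 2 := ⟨ee (n + 5) - 2, by omega⟩
  have hd := h.d (n + 5) (by omega)
  have hes := ee_sq (n + 5) (by omega)
  have hp := pow4_le n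
  have hg := gw_sq (n + 5) l hl
  have hpw := pow_sub_le h.hx h.hq e
  have s0 := h.s0
  rw [T]
  have e1 : ee (n + 5) - 1 = e + 1 := by omega
  have e2 : ee (n + 5) - 2 = e := by omega
  rw [e2] at hp
  rw [he'] at hes
  rw [e1]
  have e3 : α (n + 5) * x ^ (e + 1) - α0 (n + 5) * q ^ (e + 1) =
      (α (n + 5) - α0 (n + 5)) * x ^ (e + 1) + α0 (n + 5) * (x ^ (e + 1) - q ^ (e + 1)) := by ring
  rw [e3, norm_mul, Complex.norm_natCast]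
  have hxe : ‖x ^ (e + 1)‖ ≤ (3 / 10) ^ (e + 1) := by
    rw [norm_pow]
    exact pow_le_pow_left₀ (norm_nonneg _) h.hx _
  have hN : (5 : ℝ) ≤ ((n + 5 : ℕ) : ℝ) := by
    push_cast
    have : (0 : ℝ) ≤ n := Nat.cast_nonneg n
    linarith
  have h2N : ((2 * (n + 5) + 1 : ℕ) : ℝ) = 2 * ((n + 5 : ℕ) : ℝ) + 1 := by
    push_cast
    ring
  rw [h2N] at hd
  generalize ((n + 5 : ℕ) : ℝ) = N at *
  have he0 : (0 : ℝ) ≤ e := Nat.cast_nonneg e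
  push_cast at hes
  have hr : (0 : ℝ) < (3 / 10) ^ e := by positivity
  have hb : ‖(α (n + 5) - α0 (n + 5)) * x ^ (e + 1) + α0 (n + 5) * (x ^ (e + 1) - q ^ (e + 1))‖ ≤
      (8 * N ^ 2) * (3 / 10) ^ e * s := by
    calc _ ≤ ‖α (n + 5) - α0 (n + 5)‖ * ‖x ^ (e + 1)‖ +
          ‖α0 (n + 5)‖ * ‖x ^ (e + 1) - q ^ (e + 1)‖ := by
          refine (norm_add_le _ _).trans ?_
          rw [norm_mul, norm_mul]
      _ ≤ (15 * (2 * N + 1) * s) * (3 / 10) ^ (e + 1) + 9 * ((e + 1) * (3 / 10) ^ e * s) := by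
          apply add_le_add
          · exact mul_le_mul hd hxe (norm_nonneg _) (by positivity)
          · exact mul_le_mul (h.m0 _) (hpw.trans (mul_le_mul_of_nonneg_left h.hxq (by positivity)))
              (norm_nonneg _) (by norm_num)
      _ = (15 * (2 * N + 1) * (3 / 10) + 9 * (e + 1)) * ((3 / 10) ^ e * s) := by
          rw [pow_succ]
          ring
      _ ≤ (8 * N ^ 2) * ((3 / 10) ^ e * s) := by
          apply mul_le_mul_of_nonneg_right _ (by positivity)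
          nlinarith
      _ = _ := by ring
  calc (gw (n + 5) l : ℝ) * _ ≤ (N ^ 2 / 2) * ((8 * N ^ 2) * (3 / 10) ^ e * s) :=
        mul_le_mul hg hb (norm_nonneg _) (by positivity)
    _ = (4 * N ^ 4 * (3 / 10) ^ e) * s := by ring
    _ ≤ _ := mul_le_mul_of_nonneg_right hp s0

theorem Side.term0 {α α0 : ℕ → ℂ} {x q : ℂ} {s : ℝ} (h : Side α α0 x q s) (n l : ℕ) (hl : 1 ≤ l) :
    ‖T α α0 x q (n + 5) l‖ ≤ (1 / 2000 * s) * (1 / 4) ^ n := by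
  refine (h.term n l hl).trans ?_
  have h1 : (1 / 16 : ℝ) ^ n ≤ (1 / 4) ^ n := pow_le_pow_left₀ (by norm_num) (by norm_num) n
  have := mul_le_mul_of_nonneg_left h1 h.s0
  nlinarith

theorem Side.term4 {α α0 : ℕ → ℂ} {x q : ℂ} {s : ℝ} (h : Side α α0 x q s) (n k : ℕ) :
    ‖T α α0 x q (n + 5) (k + 4)‖ ≤ (1 / 2000 * (1 / 4) ^ k * s) * (1 / 4) ^ n := by
  have s0 := h.s0
  rcases Nat.lt_or_ge n k with hk | hk
  · rw [T, gw_zero (n + 5) (k + 4) (by omega)]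
    simp only [Nat.cast_zero, zero_mul, norm_zero]
    positivity
  · refine (h.term n (k + 4) (by omega)).trans ?_
    have h1 : (1 / 16 : ℝ) ^ n = (1 / 4) ^ n * (1 / 4) ^ n := by
      rw [← mul_pow]
      norm_num
    have h2 : (1 / 4 : ℝ) ^ n ≤ (1 / 4) ^ k := pow_le_pow_of_le_one (by norm_num) (by norm_num) hk
    rw [h1]
    have h3 : (1 / 4 : ℝ) ^ n * (1 / 4) ^ n * s ≤ (1 / 4) ^ k * (1 / 4) ^ n * s := by gcongr
    nlinarith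

theorem hasSum_quarter : HasSum (fun n : ℕ => (1 / 4 : ℝ) ^ n) (4 / 3) := by
  have := hasSum_geometric_of_lt_one (r := (1 / 4 : ℝ)) (by norm_num) (by norm_num)
  norm_num at this ⊢
  exact this

theorem Side.tail {α α0 : ℕ → ℂ} {x q : ℂ} {s : ℝ} (h : Side α α0 x q s) (l : ℕ) (hl : 1 ≤ l) :
    ‖∑' n : ℕ, T α α0 x q (n + 5) l‖ ≤ 1 / 1500 * s := by
  have h1 := hasSum_quarter.mul_left (1 / 2000 * s)
  refine (tsum_of_norm_bounded h1 fun n => h.term0 n l hl).trans (le_of_eq ?_)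
  ring

theorem Side.tail4 {α α0 : ℕ → ℂ} {x q : ℂ} {s : ℝ} (h : Side α α0 x q s) (k : ℕ) :
    ‖∑' n : ℕ, T α α0 x q (n + 5) (k + 4)‖ ≤ 1 / 1500 * s * (1 / 4) ^ k := by
  have h1 := hasSum_quarter.mul_left (1 / 2000 * (1 / 4) ^ k * s)
  refine (tsum_of_norm_bounded h1 fun n => h.term4 n k).trans (le_of_eq ?_)
  ring

theorem Side.summable {α α0 : ℕ → ℂ} {x q : ℂ} {s : ℝ} (h : Side α α0 x q s) (l : ℕ)
    (hl : 1 ≤ l) : Summable fun n : ℕ => T α α0 x q (n + 2) l := by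
  rw [← summable_nat_add_iff 3]
  exact Summable.of_norm_bounded (hasSum_quarter.mul_left (1 / 2000 * s)).summable
    fun n => h.term0 n l hl

theorem Side.split {α α0 : ℕ → ℂ} {x q : ℂ} {s : ℝ} (h : Side α α0 x q s) (l : ℕ)
    (hl : 1 ≤ l) : ∑' n : ℕ, T α α0 x q (n + 2) l =
      (T α α0 x q 2 l + T α α0 x q 3 l + T α α0 x q 4 l) + ∑' n : ℕ, T α α0 x q (n + 5) l := by
  rw [← (h.summable l hl).sum_add_tsum_nat_add 3]
  simp [Finset.sum_range_succ]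

theorem Side.split4 {α α0 : ℕ → ℂ} {x q : ℂ} {s : ℝ} (h : Side α α0 x q s) (k : ℕ) :
    ∑' n : ℕ, T α α0 x q (n + 2) (k + 4) = ∑' n : ℕ, T α α0 x q (n + 5) (k + 4) := by
  rw [h.split (k + 4) (by omega)]
  have z : ∀ n, n ≤ 4 → T α α0 x q n (k + 4) = 0 := fun n hn => by
    rw [T, gw_zero n (k + 4) (by omega), Nat.cast_zero, zero_mul]
  rw [z 2 (by omega), z 3 (by omega), z 4 (by omega)]
  ring

/-- the value of the `EE` series -/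
theorem Side.EE {α α0 : ℕ → ℂ} {x q : ℂ} {s : ℝ} (h : Side α α0 x q s) (hx : 0 ≤ x.im)
    {B : ℕ → ℂ} (hB : ∀ l, B l = ∑' n : ℕ, (gw (n + 2) l : ℂ) * α0 (n + 2) * q ^ (ee (n + 2) - 1))
    (l : ℕ) : MaxTerm.PA.EE B α x (l + 1) = ∑' n : ℕ, T α α0 x q (n + 2) (l + 1) := by
  have h1 : Summable fun n => ec α x n l :=
    (ec_summable (M := 9) (h.hx.trans (by norm_num)) (fun n => h.m _) l).of_norm
  have h2 : Summable fun n => ec α0 q n l :=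
    (ec_summable (M := 9) (h.hq.trans (by norm_num)) (fun n => h.m0 _) l).of_norm
  rw [MaxTerm.PA.EE, Bs, if_pos hx, hB]
  have h3 := h1.tsum_sub h2
  rw [show (∑' n : ℕ, (gw (n + 2) (l + 1) : ℂ) * α (n + 2) * x ^ (ee (n + 2) - 1)) =
    ∑' n, ec α x n l from rfl, show (∑' n : ℕ, (gw (n + 2) (l + 1) : ℂ) * α0 (n + 2) *
      q ^ (ee (n + 2) - 1)) = ∑' n, ec α0 q n l from rfl, ← h3]
  refine tsum_congr fun n => ?_
  rw [ec, ec, T]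
  ring

/-! ### the weights -/

theorem np1 : 7 / 10 ≤ npE 1 := by
  rw [show npE 1 = p1E nr nc4 nc5 nc6 nc7 from rfl, p1E, K11, nr, nc4, nc5, nc6, nc7]
  norm_num

theorem np2 : 6 / 100 ≤ npE 2 := by
  rw [show npE 2 = p2E nr nc4 nc5 nc6 nc7 from rfl, p2E, K22, nr, nc4, nc5, nc6, nc7]
  norm_num

theorem np3 : 7 / 1000 ≤ npE 3 := by
  rw [show npE 3 = p3E nr nc5 nc6 nc7 from rfl, p3E, K33, nr, nc5, nc6, nc7]
  norm_num

theorem np4 (k : ℕ) : npE (k + 4) = (1 / 40) / 2 ^ (k + 4) := rfl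

theorem sq_split {f e : ℂ} {E p c : ℝ} (he : ‖e‖ ≤ E) (hc : 0 < c) (hp : c ≤ p) :
    ‖f + e‖ ^ 2 / p ≤ 101 / 100 * (‖f‖ ^ 2 / p) + 101 * E ^ 2 / c := by
  have hp0 : 0 < p := hc.trans_le hp
  have h1 : ‖f + e‖ ^ 2 ≤ 101 / 100 * ‖f‖ ^ 2 + 101 * ‖e‖ ^ 2 := by
    have h2 := norm_add_le f e
    have h3 := pow_le_pow_left₀ (norm_nonneg _) h2 2
    nlinarith [sq_nonneg (‖f‖ - 100 * ‖e‖)]
  have h4 : ‖e‖ ^ 2 ≤ E ^ 2 := pow_le_pow_left₀ (norm_nonneg _) he 2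
  calc ‖f + e‖ ^ 2 / p ≤ (101 / 100 * ‖f‖ ^ 2 + 101 * E ^ 2) / p := by
        apply div_le_div_of_nonneg_right _ hp0.le
        linarith
    _ = 101 / 100 * (‖f‖ ^ 2 / p) + 101 * E ^ 2 / p := by ring
    _ ≤ 101 / 100 * (‖f‖ ^ 2 / p) + 101 * E ^ 2 / c := by
        have : 101 * E ^ 2 / p ≤ 101 * E ^ 2 / c := div_le_div_of_nonneg_left (by positivity) hc hp
        linarith

theorem Side.main {α α0 : ℕ → ℂ} {x q : ℂ} {s : ℝ} (h : Side α α0 x q s) (hx : 0 ≤ x.im)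
    {B : ℕ → ℂ} (hB : ∀ l, B l = ∑' n : ℕ, (gw (n + 2) l : ℂ) * α0 (n + 2) * q ^ (ee (n + 2) - 1)) :
    ∑' l : ℕ, ‖MaxTerm.PA.EE B α x (l + 1)‖ ^ 2 / npE (l + 1) ≤
      101 / 100 * (‖T α α0 x q 2 1 + T α α0 x q 3 1 + T α α0 x q 4 1‖ ^ 2 / npE 1 +
        ‖T α α0 x q 2 2 + T α α0 x q 3 2 + T α α0 x q 4 2‖ ^ 2 / npE 2 +
        ‖T α α0 x q 2 3 + T α α0 x q 3 3 + T α α0 x q 4 3‖ ^ 2 / npE 3) + 8 / 1000 * s ^ 2 := by
  have s0 := h.s0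
  have h4 : ∀ k : ℕ, ‖MaxTerm.PA.EE B α x (k + 3 + 1)‖ ^ 2 / npE (k + 3 + 1) ≤
      (3 / 10000 * s ^ 2) * (1 / 8) ^ k := by
    intro k
    rw [h.EE hx hB, show k + 3 + 1 = k + 4 from rfl, h.split4 k, np4]
    have h5 := pow_le_pow_left₀ (norm_nonneg _) (h.tail4 k) 2
    rw [div_le_iff₀ (by positivity)]
    refine h5.trans ?_
    have e1 : ((1 / 4 : ℝ) ^ k) ^ 2 = (1 / 8) ^ k * (1 / 2) ^ k := by
      rw [← pow_mul, mul_comm k 2, pow_mul, ← mul_pow]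
      norm_num
    have e2 : (1 / 40 : ℝ) / 2 ^ (k + 4) = (1 / 640) * (1 / 2) ^ k := by
      rw [pow_add, one_div_pow]
      field_simp
      norm_num
    rw [mul_pow, e1, e2]
    have h6 : 0 ≤ s ^ 2 * ((1 / 8 : ℝ) ^ k * (1 / 2) ^ k) := by positivity
    nlinarith
  have hg : HasSum (fun k : ℕ => (1 / 8 : ℝ) ^ k) (8 / 7) := by
    have := hasSum_geometric_of_lt_one (r := (1 / 8 : ℝ)) (by norm_num) (by norm_num)
    norm_num at this ⊢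
    exact this
  have hg2 := hg.mul_left (3 / 10000 * s ^ 2)
  have hn4 : ∀ k : ℕ, 0 ≤ ‖MaxTerm.PA.EE B α x (k + 3 + 1)‖ ^ 2 / npE (k + 3 + 1) := by
    intro k
    rw [show k + 3 + 1 = k + 4 from rfl, np4]
    positivity
  have hs4 : Summable fun k : ℕ => ‖MaxTerm.PA.EE B α x (k + 3 + 1)‖ ^ 2 / npE (k + 3 + 1) :=
    Summable.of_nonneg_of_le hn4 h4 hg2.summable
  have hs : Summable fun l : ℕ => ‖MaxTerm.PA.EE B α x (l + 1)‖ ^ 2 / npE (l + 1) := by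
    rw [← summable_nat_add_iff 3]
    exact hs4
  rw [← hs.sum_add_tsum_nat_add 3]
  have h5 : ∑' k : ℕ, ‖MaxTerm.PA.EE B α x (k + 3 + 1)‖ ^ 2 / npE (k + 3 + 1) ≤
      (3 / 10000 * s ^ 2) * (8 / 7) := by
    rw [← hg2.tsum_eq]
    exact hs4.tsum_le_tsum h4 hg2.summable
  simp only [Finset.sum_range_succ, Finset.sum_range_zero, zero_add]
  have t1 := sq_split (f := T α α0 x q 2 1 + T α α0 x q 3 1 + T α α0 x q 4 1)
    (h.tail 1 le_rfl) (by norm_num) np1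
  have t2 := sq_split (f := T α α0 x q 2 2 + T α α0 x q 3 2 + T α α0 x q 4 2)
    (h.tail 2 (by norm_num)) (by norm_num) np2
  have t3 := sq_split (f := T α α0 x q 2 3 + T α α0 x q 3 3 + T α α0 x q 4 3)
    (h.tail 3 (by norm_num)) (by norm_num) np3
  rw [← h.split 1 le_rfl, ← h.EE hx hB 0] at t1
  rw [← h.split 2 (by norm_num), ← h.EE hx hB 1] at t2
  rw [← h.split 3 (by norm_num), ← h.EE hx hB 2] at t3
  simp only [zero_add, Nat.reduceAdd] at t1 t2 t3 h5 ⊢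
  have hs2 : 0 ≤ s ^ 2 := by positivity
  nlinarith

theorem sideR {q0 w0 u v : ℂ} {lB s : ℝ} (h : Geo q0 w0 u v lB s) :
    Side (aR (natoms q0 w0 lB u v)) (aR (natoms q0 w0 lB q0 q0)) v q0 s := by
  refine ⟨h.s0, h.hv, h.hq, ?_, fun n => (moments h n).1, fun n => (moments h n).2.2.1,
    fun n hn => ((moments h n).2.2.2 hn).1⟩
  rw [h.hs]
  linarith [norm_nonneg (u - q0)]

theorem sideL {q0 w0 u v : ℂ} {lB s : ℝ} (h : Geo q0 w0 u v lB s) :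
    Side (aL (natoms q0 w0 lB u v)) (aR (natoms q0 w0 lB q0 q0)) u q0 s := by
  refine ⟨h.s0, h.hu, h.hq, ?_, fun n => (moments h n).2.1, fun n => (moments h n).2.2.1,
    fun n hn => ((moments h n).2.2.2 hn).2⟩
  rw [h.hs]
  linarith [norm_nonneg (v - q0)]

end MaxTerm.PA.NearTail

namespace MaxTerm.PA

open NearTail in
/-- the `EE` part of the near functional on both sides -/
theorem near_tail {q0 w0 : ℂ} {lB : ℝ} (hp : PB q0 w0 lB) {u v : ℂ} (hu : SB q0 u)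
    (hv : SB q0 v) :
    (∑' l : ℕ, ‖EE (Bst q0 w0 lB) (aR (natoms q0 w0 lB u v)) v (l + 1)‖ ^ 2 / npE (l + 1)) ≤
      101 / 100 * (‖finR q0 w0 lB u v 1‖ ^ 2 / npE 1 + ‖finR q0 w0 lB u v 2‖ ^ 2 / npE 2
          + ‖finR q0 w0 lB u v 3‖ ^ 2 / npE 3) +
        16 / 1000 * (‖u - q0‖ ^ 2 + ‖v - q0‖ ^ 2) ∧
    (∑' l : ℕ, ‖EE (Bst q0 w0 lB) (aL (natoms q0 w0 lB u v)) u (l + 1)‖ ^ 2 / npE (l + 1)) ≤
      101 / 100 * (‖finL q0 w0 lB u v 1‖ ^ 2 / npE 1 + ‖finL q0 w0 lB u v 2‖ ^ 2 / npE 2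
          + ‖finL q0 w0 lB u v 3‖ ^ 2 / npE 3) +
        16 / 1000 * (‖u - q0‖ ^ 2 + ‖v - q0‖ ^ 2) := by
  have h := geo hp hu hv
  have h1 := (sideR h).main h.hvi (B := Bst q0 w0 lB) (fun _ => rfl)
  have h2 := (sideL h).main h.hui (B := Bst q0 w0 lB) (fun _ => rfl)
  have h3 : (‖u - q0‖ + ‖v - q0‖) ^ 2 ≤ 2 * (‖u - q0‖ ^ 2 + ‖v - q0‖ ^ 2) := by
    nlinarith [sq_nonneg (‖u - q0‖ - ‖v - q0‖)]
  constructor
  · refine h1.trans ?_
    change 101 / 100 * (‖finR q0 w0 lB u v 1‖ ^ 2 / npE 1 + ‖finR q0 w0 lB u v 2‖ ^ 2 / npE 2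
          + ‖finR q0 w0 lB u v 3‖ ^ 2 / npE 3) + _ ≤ _
    linarith
  · refine h2.trans ?_
    change 101 / 100 * (‖finL q0 w0 lB u v 1‖ ^ 2 / npE 1 + ‖finL q0 w0 lB u v 2‖ ^ 2 / npE 2
          + ‖finL q0 w0 lB u v 3‖ ^ 2 / npE 3) + _ ≤ _
    linarith

end MaxTerm.PA
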