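import Pool.Agent.MaxTerm.PartA.NearFin
import Pool.Agent.MaxTerm.PartA.NearTail

/-!
# Part A: the second order expansion of the near functional

Numerically the best constant is `2.86` instead of `2` (for all parameters in `PB`, all `u, v` in `SB`).
The finite part is `near_fin`, the tails are `near_tail`.
-/

open Filter Topology ComplexConjugate

namespace MaxTerm.PA

theorem S_expand {q0 w0 : ℂ} {lB : ℝ} (hp : PB q0 w0 lB) (κ : ℝ) {u v : ℂ} (hu : SB q0 u)
    (hv : SB q0 v) :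
    S1 q0 w0 lB κ u v + 2 * (‖u - q0‖ ^ 2 + ‖v - q0‖ ^ 2) ≤ Sf q0 w0 lB κ u v := by
  have h1 := near_fin hp κ hu hv
  obtain ⟨h2, h3⟩ := near_tail hp hu hv
  have h4 : 0 ≤ ‖u - q0‖ ^ 2 + ‖v - q0‖ ^ 2 := by positivity
  have h5 : 2 * PT = 37 / 20 := by
    rw [PT]
    norm_num
  rw [Sf, h5]
  linarith

end MaxTerm.PA
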