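import Pool.Agent.MaxTerm.PartA.Far.All

/-!
# Part A: the far region

`Good root0`, `Good root1`, `Good root2` are `g_r0_`, `g_r1_`, `g_r2_` of `Far/All.lean`.
`root0`: both links in the upper half plane, `root1`: `v` in the lower half plane, `root2`: `u` in the
lower half plane; the `x`-range is `[-0.625, 0.25]`, the `|y|`-range `[0, 0.390625]`; this contains `Reg`.
If `Im (u + v) < 0` pass to the conjugate chain, if `Re (v - u) < 0` to the reversed chain
(`BiChain.conj`, `G_conj`, `BiChain.rev`, `G_rev`).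
-/

open ComplexConjugate

namespace MaxTerm.PA

theorem Reg.conj {z : ℂ} (h : Reg z) : Reg (conj z) := by
  have e1 : (starRingEnd ℂ z).re = z.re := Complex.conj_re z
  have e2 : |(starRingEnd ℂ z).im| = |z.im| := by rw [Complex.conj_im, abs_neg]
  refine ⟨?_, ?_, ?_, ?_, ?_, ?_, ?_, ?_, ?_⟩
  · rw [Complex.norm_conj]; exact h.n
  · rw [e1]; exact h.a
  · rw [e1, e2]; exact h.b
  · rw [e1, e2]; exact h.c
  · rw [e1, e2]; exact h.d
  · rw [e2]; exact h.e
  · rw [e1, e2]; exact h.f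
  · rw [e1, e2]; exact h.g
  · rw [e1, e2]; exact h.h

open Chk in
theorem reg_re {z : ℂ} (h : Reg z) : |z.re - rv (-206158430208)| ≤ rv 481036337152 := by
  have h1 : |z.re| ≤ 3 / 5 := (Complex.abs_re_le_norm z).trans h.n
  have h2 := h.a
  have h3 := (abs_le.1 h1).1
  unfold rv
  norm_num
  rw [abs_le]
  constructor <;> linarith

open Chk in
theorem reg_im_up {z : ℂ} (h : Reg z) (h0 : 0 ≤ z.im) :
    |z.im - rv 214748364800| ≤ rv 214748364800 := by
  have h1 := (abs_le.1 h.e).2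
  unfold rv
  norm_num
  rw [abs_le]
  constructor <;> linarith

open Chk in
theorem reg_im_lo {z : ℂ} (h : Reg z) (h0 : z.im ≤ 0) :
    |z.im - rv (-214748364800)| ≤ rv 214748364800 := by
  have h1 := (abs_le.1 h.e).1
  unfold rv
  norm_num
  rw [abs_le]
  constructor <;> linarith

open Chk in
/-- the normalised case -/
theorem far_aux {K : ℝ} {q : ℤ → ℂ} {B : ℕ → ℂ} (hC : BiChain K q) (hK0 : 0 ≤ K)
    (hK : K ^ 2 ≤ 2.921267) (hreg : ∀ i, Reg (q i)) (hB : BOK B) (j : ℤ)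
    (him : 0 ≤ (q j).im + (q (j + 1)).im) (hre : 0 ≤ (q (j + 1)).re - (q j).re)
    (hn : ¬ (Near (q j) ∧ Near (q (j + 1)))) : 1 / 2 ^ 40 ≤ G B q j := by
  rcases le_total 0 (q j).im with hu | hu
  · rcases le_total 0 (q (j + 1)).im with hv | hv
    · exact g_r0_ hC hK0 hK hreg hB j
        ⟨reg_re (hreg j), reg_im_up (hreg j) hu, reg_re (hreg (j + 1)), reg_im_up (hreg (j + 1)) hv⟩
        him hre hn
    · exact g_r1_ hC hK0 hK hreg hB j
        ⟨reg_re (hreg j), reg_im_up (hreg j) hu, reg_re (hreg (j + 1)), reg_im_lo (hreg (j + 1)) hv⟩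
        him hre hn
  · have hv : 0 ≤ (q (j + 1)).im := by linarith
    exact g_r2_ hC hK0 hK hreg hB j
      ⟨reg_re (hreg j), reg_im_lo (hreg j) hu, reg_re (hreg (j + 1)), reg_im_up (hreg (j + 1)) hv⟩
      him hre hn

/-- the case `0 ≤ Im (u + v)` -/
theorem far_aux2 {K : ℝ} {q : ℤ → ℂ} {B : ℕ → ℂ} (hC : BiChain K q) (hK0 : 0 ≤ K)
    (hK : K ^ 2 ≤ 2.921267) (hreg : ∀ i, Reg (q i)) (hB : BOK B) (j : ℤ)
    (him : 0 ≤ (q j).im + (q (j + 1)).im)
    (hn : ¬ (Near (q j) ∧ Near (q (j + 1)))) : 1 / 2 ^ 40 ≤ G B q j := by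
  rcases le_total 0 ((q (j + 1)).re - (q j).re) with hre | hre
  · exact far_aux hC hK0 hK hreg hB j him hre hn
  · have a5 : 2 * j + 1 - (j + 1) = j := by ring
    have a6 : 2 * j + 1 - j = j + 1 := by ring
    have h := far_aux (hC.rev j) hK0 hK (fun i => hreg (2 * j + 1 - i)) hB j
      (by simp only [a5, a6]; linarith) (by simp only [a5, a6]; linarith)
      (by simp only [a5, a6]; exact fun hh => hn ⟨hh.2, hh.1⟩)
    rwa [G_rev] at h

theorem far_main {K : ℝ} {q : ℤ → ℂ} {B : ℕ → ℂ} (hC : BiChain K q) (hK0 : 0 ≤ K)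
    (hK : K ^ 2 ≤ 2.921267) (hreg : ∀ i, Reg (q i)) (hB : BOK B) (j : ℤ)
    (hn : ¬ (Near (q j) ∧ Near (q (j + 1))))
    (hn' : ¬ (Near (conj (q j)) ∧ Near (conj (q (j + 1))))) :
    1 / 2 ^ 40 ≤ G B q j := by
  rcases le_total 0 ((q j).im + (q (j + 1)).im) with him | him
  · exact far_aux2 hC hK0 hK hreg hB j him hn
  · have h := far_aux2 hC.conj hK0 hK (fun i => (hreg i).conj) hB j
      (by simp only [Complex.conj_im]; linarith) hn'
    rwa [G_conj] at h

end MaxTerm.PA
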