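import Pool.Agent.MaxTerm.PartA.RegSound
import Pool.Agent.MaxTerm.PartA.RegData1
import Pool.Agent.MaxTerm.PartA.RegData2
import Pool.Agent.MaxTerm.PartA.WinId

/-! # Part A: the a-priori region (owner: helper13) -/

open ComplexConjugate

namespace MaxTerm.PA

namespace Chk

/-! ### geometric tails -/

theorem tail_geo {b : ℕ → ℝ} {W : ℝ} (h0 : ∀ n, 0 ≤ b n)
    (hr : ∀ n, 6 ≤ n → b (n + 1) ≤ b n / 10) (h6 : b 6 * (10 / 9) ≤ W) (N : ℕ) :
    ∑ n ∈ Finset.Ico 6 N, b n ≤ W := by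
  have key : ∀ m : ℕ, (∑ n ∈ Finset.Ico 6 (6 + m), b n) + b (6 + m) * (10 / 9) ≤ b 6 * (10 / 9) := by
    intro m
    induction m with
    | zero => simp
    | succ m ih =>
      have e : 6 + (m + 1) = (6 + m) + 1 := by omega
      rw [e, Finset.sum_Ico_succ_top (by omega)]
      have := hr (6 + m) (by omega)
      linarith
  rcases le_total N 6 with h | h
  · rw [Finset.Ico_eq_empty_of_le h, Finset.sum_empty]
    have := h0 6
    linarith
  · obtain ⟨m, rfl⟩ := Nat.exists_eq_add_of_le h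
    have := key m
    have := h0 (6 + m)
    linarith

/-- bounds of pass 1 -/
noncomputable def bd1 (n : ℕ) : ℝ :=
  (921267 / 2000000) ^ (n ^ 2 / 4) * (24 / 25) ^ ((n + 1) / 2)

/-- bounds of pass 2 -/
noncomputable def bd2 (n : ℕ) : ℝ := (33 / 50) ^ (n * (n + 1) / 2)

theorem bd1_nonneg (n : ℕ) : 0 ≤ bd1 n := by unfold bd1; positivity

theorem bd2_nonneg (n : ℕ) : 0 ≤ bd2 n := by unfold bd2; positivity

theorem bd1_ratio (n : ℕ) (hn : 6 ≤ n) : bd1 (n + 1) ≤ bd1 n / 10 := by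
  unfold bd1
  have h1 : n ^ 2 / 4 + 3 ≤ (n + 1) ^ 2 / 4 := by
    have : (n + 1) ^ 2 = n ^ 2 + 2 * n + 1 := by ring
    omega
  have h2 : (n + 1) / 2 ≤ (n + 1 + 1) / 2 := by omega
  have h3 : (921267 / 2000000 : ℝ) ^ ((n + 1) ^ 2 / 4) ≤ (921267 / 2000000 : ℝ) ^ (n ^ 2 / 4 + 3) :=
    pow_le_pow_of_le_one (by norm_num) (by norm_num) h1
  have h4 : (24 / 25 : ℝ) ^ ((n + 1 + 1) / 2) ≤ (24 / 25 : ℝ) ^ ((n + 1) / 2) :=
    pow_le_pow_of_le_one (by norm_num) (by norm_num) h2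
  have h5 : (921267 / 2000000 : ℝ) ^ 3 ≤ 1 / 10 := by norm_num
  calc (921267 / 2000000 : ℝ) ^ ((n + 1) ^ 2 / 4) * (24 / 25) ^ ((n + 1 + 1) / 2)
      ≤ (921267 / 2000000 : ℝ) ^ (n ^ 2 / 4 + 3) * (24 / 25) ^ ((n + 1) / 2) :=
        mul_le_mul h3 h4 (by positivity) (by positivity)
    _ = ((921267 / 2000000 : ℝ) ^ (n ^ 2 / 4) * (24 / 25) ^ ((n + 1) / 2))
        * (921267 / 2000000 : ℝ) ^ 3 := by rw [pow_add]; ring
    _ ≤ ((921267 / 2000000 : ℝ) ^ (n ^ 2 / 4) * (24 / 25) ^ ((n + 1) / 2)) * (1 / 10) :=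
        mul_le_mul_of_nonneg_left h5 (by positivity)
    _ = _ := by ring

theorem bd2_ratio (n : ℕ) (hn : 6 ≤ n) : bd2 (n + 1) ≤ bd2 n / 10 := by
  unfold bd2
  have h3 : (n + 1) * (n + 1 + 1) / 2 = (n + 1) + n * (n + 1) / 2 := by
    rw [show (n + 1) * (n + 1 + 1) = n * (n + 1) + (n + 1) * 2 by ring,
      Nat.add_mul_div_right _ _ (by norm_num)]
    ring
  rw [h3, pow_add]
  have h4 : (33 / 50 : ℝ) ^ (n + 1) ≤ (33 / 50 : ℝ) ^ 7 :=
    pow_le_pow_of_le_one (by norm_num) (by norm_num) (by omega)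
  have h5 : (33 / 50 : ℝ) ^ 7 ≤ 1 / 10 := by norm_num
  have h6 : 0 ≤ (33 / 50 : ℝ) ^ (n * (n + 1) / 2) := by positivity
  nlinarith

theorem ok1 : ParOK par1 bd1 (1 / 1000) := by
  constructor
  case n1 => exact bd1_nonneg _
  case n2 => exact bd1_nonneg _
  case n3 => exact bd1_nonneg _
  case n4 => exact bd1_nonneg _
  case n5 => exact bd1_nonneg _
  case nW => norm_num
  all_goals norm_num [bd1, par1, rv]

theorem ok2 : ParOK par2 bd2 (1 / 5000) := by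
  constructor
  case n1 => exact bd2_nonneg _
  case n2 => exact bd2_nonneg _
  case n3 => exact bd2_nonneg _
  case n4 => exact bd2_nonneg _
  case n5 => exact bd2_nonneg _
  case nW => norm_num
  all_goals norm_num [bd2, par2, rv]

theorem tail1 (N : ℕ) : ∑ n ∈ Finset.Ico 6 N, bd1 n ≤ 1 / 1000 :=
  tail_geo bd1_nonneg bd1_ratio (by norm_num [bd1]) N

theorem tail2 (N : ℕ) : ∑ n ∈ Finset.Ico 6 N, bd2 n ≤ 1 / 5000 :=
  tail_geo bd2_nonneg bd2_ratio (by norm_num [bd2]) N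

theorem rootBox {z : ℂ} (hz : ‖z‖ ≤ 1) (him : 0 ≤ z.im) :
    InB z 0 549755813888 1099511627776 549755813888 := by
  have h1 := (Complex.abs_re_le_norm z).trans hz
  have h2 := (Complex.abs_im_le_norm z).trans hz
  have e0 : rv 0 = 0 := by simp [rv]
  have e1 : rv 549755813888 = 1 / 2 := by norm_num [rv]
  have e2 : rv 1099511627776 = 1 := by norm_num [rv]
  unfold InB
  rw [e0, e1, e2, sub_zero]
  refine ⟨h1, ?_⟩
  rw [abs_le] at h2 ⊢
  constructor <;> linarith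

/-! ### pass 1 -/

theorem pass1_up {K : ℝ} {q : ℤ → ℂ} (hC : BiChain K q) (hK0 : 0 ≤ K) (hK : K ^ 2 ≤ 2.921267)
    (j : ℤ) (him : 0 ≤ (q (j + 1)).im) : ‖q (j + 1)‖ ≤ 33 / 50 := by
  have h24 : ‖q (j + 1)‖ ≤ 24 / 25 := by
    have h1 := hC.pars (j + 1)
    have h2 : ‖q (j + 1)‖ ^ 2 ≤ (24 / 25) ^ 2 := by nlinarith [sq_nonneg ‖q (j + 1 + 1)‖]
    exact (sq_le_sq₀ (norm_nonneg _) (by norm_num)).1 h2
  have hco : ‖q (j + 1)‖ ≤ rv 1055531162666 := h24.trans (by norm_num [rv])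
  have hT : ‖q (j + 1)‖ ≤ rv 725677674330 := by
    refine RT.sound (P := par1) (co := 1055531162666) (inn := inD 725677674330) ?_ hco ?_ tree1 0
      549755813888 1099511627776 549755813888 tree1_check
      (rootBox (h24.trans (by norm_num)) him)
    · intro L0 L1 x y hx hy h hz
      exact (regBox_sound hC hK0 hK (fun i n => mon_le_pars hC hK i n) tail1 ok1 h j hz).elim
    · intro x y hx hy h hz
      exact inD_sound h hz (by norm_num)
  exact hT.trans (by norm_num [rv])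

theorem pass1 {K : ℝ} {q : ℤ → ℂ} (hC : BiChain K q) (hK0 : 0 ≤ K) (hK : K ^ 2 ≤ 2.921267)
    (i : ℤ) : ‖q i‖ ≤ 33 / 50 := by
  obtain ⟨j, rfl⟩ : ∃ j, i = j + 1 := ⟨i - 1, by ring⟩
  rcases le_total 0 (q (j + 1)).im with h | h
  · exact pass1_up hC hK0 hK j h
  · have := pass1_up hC.conj hK0 hK j (by simpa using h)
    simpa using this

/-! ### pass 2 -/

theorem rv_le_of {a b : Int} (h : le a b = true) : rv a ≤ rv b := rv_le ((le_iff _ _).1 h)

theorem inReg_sound {x y hx hy : Int} (h : inReg x y hx hy = true) {z : ℂ}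
    (hz : InB z x y hx hy) : Reg z := by
  unfold inReg at h
  simp only [Bool.and_eq_true] at h
  obtain ⟨h0, ⟨⟨h1, h2⟩, h3, h4⟩, ⟨h5, h6⟩, h7, h8⟩ := h
  have hn := inD_sound h0 hz (by norm_num)
  have k1 := rv_le_of h1
  have k2 := rv_le_of h2
  have k3 := rv_le_of h3
  have k4 := rv_le_of h4
  have k5 := rv_le_of h5
  have k6 := rv_le_of h6
  have k7 := rv_le_of h7
  have k8 := rv_le_of h8
  simp only [rv_add, rv_neg, rv_mul_int, rv_absI] at k1 k2 k3 k4 k5 k6 k7 k8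
  obtain ⟨hre, him⟩ := hz
  have ai := abs_le_of him
  have ar := abs_le.1 hre
  have n0 : rv 659706976663 ≤ 3 / 5 := by norm_num [rv]
  have n1 : rv 252887674388 ≤ 23 / 100 := by norm_num [rv]
  have n2 : rv 626721627832 ≤ 57 / 100 := by norm_num [rv]
  have n3 : rv 434307092971 ≤ 395 / 1000 := by norm_num [rv]
  have n4 : rv 747667906887 ≤ 68 / 100 := by norm_num [rv]
  have n5 : rv 428809534832 ≤ 39 / 100 := by norm_num [rv]
  have n6 : rv 1264438371942 ≤ 115 / 100 := by norm_num [rv]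
  have n7 : rv 901599534776 ≤ 82 / 100 := by norm_num [rv]
  have n8 : rv 1489838255636 ≤ 1355 / 1000 := by norm_num [rv]
  push_cast at k2 k4 k6 k8
  constructor <;> linarith [ar.1, ar.2]

theorem pass2_up {K : ℝ} {q : ℤ → ℂ} (hC : BiChain K q) (hK0 : 0 ≤ K) (hK : K ^ 2 ≤ 2.921267)
    (j : ℤ) (him : 0 ≤ (q (j + 1)).im) : Reg (q (j + 1)) := by
  have hX := pass1 hC hK0 hK
  have hco : ‖q (j + 1)‖ ≤ rv 725677674334 := (hX _).trans (by norm_num [rv])
  refine RT.sound (P := par2) (co := 725677674334) (inn := inReg) ?_ hco ?_ tree2 0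
    549755813888 1099511627776 549755813888 tree2_check
    (rootBox ((hX _).trans (by norm_num)) him)
  · intro L0 L1 x y hx hy h hz
    exact (regBox_sound hC hK0 hK (fun i n => mon_le_of_le hX i n) tail2 ok2 h j hz).elim
  · intro x y hx hy h hz
    exact inReg_sound h hz

theorem Reg.of_conj {z : ℂ} (h : Reg (conj z)) : Reg z := by
  obtain ⟨hn, ha, hb, hc, hd, he, hf, hg, hh⟩ := h
  simp only [RCLike.norm_conj, Complex.conj_re, Complex.conj_im, abs_neg] at *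
  exact ⟨hn, ha, hb, hc, hd, he, hf, hg, hh⟩

end Chk

theorem region {K : ℝ} {q : ℤ → ℂ} (hC : BiChain K q) (hK0 : 0 ≤ K) (hK : K ^ 2 ≤ 2.921267) :
    ∀ j, Reg (q j) := by
  intro i
  obtain ⟨j, rfl⟩ : ∃ j, i = j + 1 := ⟨i - 1, by ring⟩
  rcases le_total 0 (q (j + 1)).im with h | h
  · exact Chk.pass2_up hC hK0 hK j h
  · exact Chk.Reg.of_conj (Chk.pass2_up hC.conj hK0 hK j (by simpa using h))

end MaxTerm.PA
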