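import Pool.Agent.MaxTerm.PartA.Expand
import Pool.Agent.MaxTerm.PartA.Region
import Pool.Agent.MaxTerm.PartA.FarMain
import Pool.Agent.MaxTerm.PartA.Bi
import Pool.Agent.MaxTerm.QHat2
import Pool.Agent.MaxTerm.Danskin

/-!
# Part A: localisation of the minimiser, the soft part
-/

open Filter Topology ComplexConjugate

namespace MaxTerm.PA

namespace LocA

theorem kstar_nonneg : 0 ≤ Kstar := by
  apply Real.sInf_nonneg
  rintro _ ⟨q, _, rfl⟩
  exact thetaMax_nonneg q

theorem kstar_sq_le : Kstar ^ 2 ≤ 2.921266961 := by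
  have h1 : ‖(⟨-0.1912057094, 0.2048974310⟩ : ℂ)‖ < 1 := by
    rw [← abs_of_nonneg (norm_nonneg (⟨-0.1912057094, 0.2048974310⟩ : ℂ)),
      ← sq_lt_sq₀ (abs_nonneg _) (by norm_num), sq_abs, Complex.sq_norm, Complex.normSq_apply]
    norm_num
  exact (pow_le_pow_left₀ kstar_nonneg (Kstar_le h1) 2).trans thetaMax_qhat2

theorem theta_conj (q z : ℂ) : theta (conj q) (conj z) = conj (theta q z) := by
  unfold theta
  rw [Complex.conj_tsum]
  refine tsum_congr fun n => ?_
  rw [map_mul, map_pow, map_zpow₀]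

theorem thetaMax_conj (q : ℂ) : thetaMax (conj q) = thetaMax q := by
  unfold thetaMax
  congr 1
  ext x
  constructor
  · rintro ⟨z, hz, rfl⟩
    refine ⟨conj z, ?_, ?_⟩
    · rw [mem_sphere_zero_iff_norm] at hz ⊢
      rw [Complex.norm_conj, hz]
    · simp only
      rw [← Complex.norm_conj, ← theta_conj, Complex.conj_conj]
  · rintro ⟨z, hz, rfl⟩
    refine ⟨conj z, ?_, ?_⟩
    · rw [mem_sphere_zero_iff_norm] at hz ⊢
      rw [Complex.norm_conj, hz]
    · simp only
      rw [theta_conj, Complex.norm_conj]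

theorem norm_th_le {q w : ℂ} (hq : ‖q‖ < 1) (hw : ‖w‖ = 1) : ‖th q w‖ ≤ thetaMax q := by
  rw [norm_th hq hw]
  exact norm_theta_le hq (by rw [norm_pow, hw, one_pow])

theorem pars_min {q : ℂ} (hq : ‖q‖ < 1) : ‖q‖ ^ 2 + ‖q‖ ^ 2 ≤ thetaMax q ^ 2 - 2 := by
  have h := theta_bessel hq {0, 1, 2, -1}
  have e : ∑ n ∈ ({0, 1, 2, -1} : Finset ℤ), (‖q‖ ^ (n * (n - 1) / 2).toNat) ^ 2
      = 2 + 2 * ‖q‖ ^ 2 := by
    rw [Finset.sum_insert (by decide), Finset.sum_insert (by decide), Finset.sum_insert (by decide),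
      Finset.sum_singleton]
    have e3 : (-1 * (-1 - 1) / 2 : ℤ).toNat = 1 := by decide
    have e4 : (2 * (2 - 1) / 2 : ℤ).toNat = 1 := by decide
    have e5 : (1 * (1 - 1) / 2 : ℤ).toNat = 0 := by decide
    have e6 : (0 * (0 - 1) / 2 : ℤ).toNat = 0 := by decide
    rw [e3, e4, e5, e6]
    ring
  rw [e] at h
  linarith

theorem biChain_const {q : ℂ} (hq : ‖q‖ < 1) : BiChain (thetaMax q) (fun _ => q) := by
  constructor
  · intro j w hw
    exact norm_th_le hq hw
  · intro j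
    exact pars_min hq

theorem G_const (B : ℕ → ℂ) (q : ℂ) (j : ℤ) : G B (fun _ => q) j = 0 := by
  unfold G
  simp

/-- an admissible sequence of coefficients -/
noncomputable def Bx : ℕ → ℂ
  | 1 => B1c
  | 2 => B2c
  | _ => 0

theorem BOK_Bx : BOK Bx := by
  constructor
  · have : Bx 1 = B1c := rfl
    rw [this, sub_self, norm_zero]
    norm_num
  · have : Bx 2 = B2c := rfl
    rw [this, sub_self, norm_zero]
    norm_num
  · have : Bx 3 = 0 := rfl
    rw [this, norm_zero]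
    norm_num
  · intro l hl
    obtain ⟨m, rfl⟩ : ∃ m, l = m + 4 := ⟨l - 4, by omega⟩
    have : Bx (m + 4) = 0 := rfl
    rw [this, norm_zero]
    positivity

end LocA

open LocA

theorem near_of_min {q : ℂ} (hq : ‖q‖ < 1) (hK : thetaMax q = Kstar) :
    Near q ∨ Near (conj q) := by
  have hC : BiChain Kstar (fun _ => q) := by
    rw [← hK]
    exact biChain_const hq
  have hK2 : Kstar ^ 2 ≤ 2.921267 := by
    have := kstar_sq_le
    norm_num at this ⊢
    linarith
  have hreg := region hC kstar_nonneg hK2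
  by_contra hcon
  rw [not_or] at hcon
  have h := far_main hC kstar_nonneg hK2 hreg BOK_Bx 0 (fun hh => hcon.1 hh.1)
    (fun hh => hcon.2 hh.1)
  rw [G_const] at h
  norm_num at h

/-- the near functional is not positive at a minimiser -/
theorem Sf_nonpos {q q0 w0 : ℂ} {lB κ : ℝ} (hq : ‖q‖ < 1) (hK : thetaMax q = Kstar)
    (hp : PB q0 w0 lB) (hs : SB q0 q) (hκ : Kstar ^ 2 ≤ κ) : Sf q0 w0 lB κ q q ≤ 0 := by
  have hdl : dl q0 q q = q - q0 := by
    unfold dl
    ring
  have hat : ∀ w : ℂ, ‖w‖ = 1 → ‖Fc q q w‖ ^ 2 - κ ≤ 0 := by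
    intro w hw
    have h1 : ‖Fc q q w‖ ≤ Kstar := by
      rw [← th_eq_Fc, ← hK]
      exact norm_th_le hq hw
    have h2 : ‖Fc q q w‖ ^ 2 ≤ Kstar ^ 2 := pow_le_pow_left₀ (norm_nonneg _) h1 2
    linarith
  have hlB : 0 ≤ lB := by
    have h := (abs_le.1 hp.l).1
    unfold lBc at h
    linarith
  have hwB : ‖w0 * Complex.exp (Complex.I * (tau q0 q q : ℂ))‖ = 1 := by
    rw [norm_mul, hp.w, mul_comm Complex.I, Complex.norm_exp_ofReal_mul_I, one_mul]
  have hw1 : 0 ≤ lAc + 8 / 5 * (dl q0 q q).im := by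
    have h := (abs_le.1 hs.im).1
    rw [hdl]
    unfold lAc
    linarith
  have h1 : ((natoms q0 w0 lB q q).map fun a => a.l * (‖a.e‖ ^ 2 - κ)).sum ≤ 0 := by
    unfold natoms
    simp only [sub_self, Complex.zero_re, Complex.zero_im, mul_zero, Complex.ofReal_zero,
      Complex.exp_zero, add_zero, sub_zero, mul_one, List.map_cons, List.map_nil, List.sum_cons,
      List.sum_nil]
    have a1 := mul_nonpos_of_nonneg_of_nonpos hw1 (hat 1 norm_one)
    have a2 := mul_nonpos_of_nonneg_of_nonpos (by positivity : 0 ≤ lB / 2) (hat _ hwB)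
    have a3 := mul_nonpos_of_nonneg_of_nonpos (by positivity : 0 ≤ lB / 2)
      (hat (conj (w0 * Complex.exp (Complex.I * (tau q0 q q : ℂ)))) (by rw [Complex.norm_conj, hwB]))
    linarith
  have hnp : ∀ l : ℕ, 0 ≤ npE (l + 1) := by
    intro l
    rcases l with _ | _ | _ | l
    · exact le_trans (by norm_num) NearTail.np1
    · exact le_trans (by norm_num) NearTail.np2
    · exact le_trans (by norm_num) NearTail.np3
    · rw [show l + 1 + 1 + 1 + 1 = l + 4 by ring, NearTail.np4]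
      positivity
  have h2 : ∀ f : ℕ → ℂ, 0 ≤ ∑' l : ℕ, ‖f l‖ ^ 2 / npE (l + 1) := fun f =>
    tsum_nonneg fun l => div_nonneg (by positivity) (hnp l)
  have h3 := h2 fun l => EE (Bst q0 w0 lB) (aR (natoms q0 w0 lB q q)) q (l + 1)
  have h4 := h2 fun l => EE (Bst q0 w0 lB) (aL (natoms q0 w0 lB q q)) q (l + 1)
  unfold Sf
  rw [sub_self, norm_zero]
  
  linarith

end MaxTerm.PA
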