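import Pool.Agent.MaxTerm.PartA.BOKst

/-!
# Part A: numerical values at the rational parameter point (for `Loc`)
-/

open Filter Topology ComplexConjugate

namespace MaxTerm.PA

namespace LocB

open Chk BStar

/-- rational point of the circle near the second contact point -/
noncomputable def w0c : ℂ := ⟨1749802053 / 2190609485, 1317938804 / 2190609485⟩

/-- multiplier -/
noncomputable def lBx : ℝ := 0.980808087

theorem norm_w0c : ‖w0c‖ = 1 := by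
  have h : ‖w0c‖ ^ 2 = 1 := by
    rw [Complex.sq_norm, Complex.normSq_apply]
    unfold w0c
    norm_num
  have h0 := norm_nonneg w0c
  nlinarith

theorem norm_qc : ‖qc‖ ≤ 2803 / 10000 := norm_q_le (by rw [sub_self, norm_zero]; norm_num)

theorem PB_c : PB qc w0c lBx := by
  refine ⟨?_, norm_w0c, ?_, ?_⟩
  · rw [sub_self, norm_zero]
    norm_num
  · rw [← abs_of_nonneg (norm_nonneg (w0c - w1c)),
      ← sq_le_sq₀ (abs_nonneg _) (by norm_num), sq_abs, Complex.sq_norm, Complex.normSq_apply,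
      Complex.sub_re, Complex.sub_im]
    unfold w0c w1c
    norm_num
  · unfold lBx lBc
    rw [abs_le]
    constructor <;> norm_num

/-! ### series -/

theorem ee_add_six (n : ℕ) : 21 + 7 * n ≤ ee (n + 6) := by
  induction n with
  | zero => decide
  | succ n ih =>
    rw [show n + 1 + 6 = (n + 6) + 1 by ring, ModeE.ee_succ]
    omega

theorem ee_six_le (n : ℕ) : ee (n + 6) ≤ 21 * 2 ^ n := by
  induction n with
  | zero => decide
  | succ n ih =>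
    rw [show n + 1 + 6 = (n + 6) + 1 by ring, ModeE.ee_succ, pow_succ]
    have : n + 1 ≤ 2 ^ n := Nat.lt_two_pow_self
    omega

theorem qpow_le {q : ℂ} (hq : ‖q‖ ≤ 2803 / 10000) (n : ℕ) :
    ‖q‖ ^ ee (n + 6) ≤ (2803 / 10000) ^ 21 * ((2803 / 10000) ^ 7) ^ n := by
  rw [← pow_mul, ← pow_add]
  calc ‖q‖ ^ ee (n + 6) ≤ (2803 / 10000) ^ ee (n + 6) :=
        pow_le_pow_left₀ (norm_nonneg _) hq _
    _ ≤ (2803 / 10000) ^ (21 + 7 * n) :=
        pow_le_pow_of_le_one (by norm_num) (by norm_num) (ee_add_six n)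

theorem qpow_le' {q : ℂ} (hq : ‖q‖ ≤ 2803 / 10000) (n : ℕ) :
    ‖q‖ ^ (ee (n + 6) - 1) ≤ (2803 / 10000) ^ 20 * ((2803 / 10000) ^ 7) ^ n := by
  rw [← pow_mul, ← pow_add]
  calc ‖q‖ ^ (ee (n + 6) - 1) ≤ (2803 / 10000) ^ (ee (n + 6) - 1) :=
        pow_le_pow_left₀ (norm_nonneg _) hq _
    _ ≤ (2803 / 10000) ^ (20 + 7 * n) :=
        pow_le_pow_of_le_one (by norm_num) (by norm_num) (by have := ee_add_six n; omega)

theorem w_add {w : ℂ} (hw : ‖w‖ = 1) (k : ℕ) : ‖w ^ k + conj w ^ k‖ ≤ 2 := by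
  refine (norm_add_le _ _).trans ?_
  rw [norm_pow, norm_pow, Complex.norm_conj, hw, one_pow]
  norm_num

theorem w_sub {w : ℂ} (hw : ‖w‖ = 1) (k : ℕ) : ‖w ^ k - conj w ^ k‖ ≤ 2 := by
  refine (norm_sub_le _ _).trans ?_
  rw [norm_pow, norm_pow, Complex.norm_conj, hw, one_pow]
  norm_num

theorem th_sum {q w : ℂ} (hq : ‖q‖ ≤ 2803 / 10000) (hw : ‖w‖ = 1) :
    th q w = ∑' n : ℕ, q ^ ee n * (w ^ (2 * n + 1) + conj w ^ (2 * n + 1)) := by
  unfold th half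
  have hw' : ‖conj w‖ = 1 := by rw [Complex.norm_conj, hw]
  simp only [mon_const]
  rw [← (summable_half hq hw).tsum_add (summable_half hq hw')]
  refine tsum_congr fun n => ?_
  rw [← mul_add]

theorem e0 : ee 0 = 0 := rfl
theorem e1 : ee 1 = 1 := rfl
theorem e2 : ee 2 = 3 := rfl
theorem e3 : ee 3 = 6 := rfl
theorem e4 : ee 4 = 10 := rfl
theorem e5 : ee 5 = 15 := rfl

theorem th_six {q w : ℂ} (hq : ‖q‖ ≤ 2803 / 10000) (hw : ‖w‖ = 1) :
    ‖th q w - ((w ^ 1 + conj (w ^ 1)) + (q * (w ^ 3 + conj (w ^ 3)) +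
      (q ^ 3 * (w ^ 5 + conj (w ^ 5)) + (q ^ 6 * (w ^ 7 + conj (w ^ 7)) +
      (q ^ 10 * (w ^ 9 + conj (w ^ 9)) + q ^ 15 * (w ^ 11 + conj (w ^ 11)))))))‖ ≤ rv 6 := by
  rw [th_sum hq hw]
  have h := norm_tsum_sub_le
    (f := fun n : ℕ => q ^ ee n * (w ^ (2 * n + 1) + conj w ^ (2 * n + 1)))
    (C := 2 * (2803 / 10000) ^ 21) (x := (2803 / 10000) ^ 7) (by norm_num) (by norm_num) 6
    (fun n => ?_)
  · have e : ∑ n ∈ Finset.range 6, q ^ ee n * (w ^ (2 * n + 1) + conj w ^ (2 * n + 1)) =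
        (w ^ 1 + conj (w ^ 1)) + (q * (w ^ 3 + conj (w ^ 3)) +
      (q ^ 3 * (w ^ 5 + conj (w ^ 5)) + (q ^ 6 * (w ^ 7 + conj (w ^ 7)) +
      (q ^ 10 * (w ^ 9 + conj (w ^ 9)) + q ^ 15 * (w ^ 11 + conj (w ^ 11)))))) := by
      simp only [Finset.sum_range_succ, Finset.sum_range_zero, zero_add, e0, e1, e2, e3, e4, e5,
        map_pow]
      norm_num
      ring
    rw [e] at h
    refine h.trans ?_
    unfold rv
    norm_num
  · rw [norm_mul, norm_pow]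
    have h1 := w_add hw (2 * (n + 6) + 1)
    have h2 := qpow_le hq n
    calc ‖q‖ ^ ee (n + 6) * ‖w ^ (2 * (n + 6) + 1) + conj w ^ (2 * (n + 6) + 1)‖
        ≤ ((2803 / 10000) ^ 21 * ((2803 / 10000) ^ 7) ^ n) * 2 := by gcongr
      _ = _ := by ring

theorem thq_six {q w : ℂ} (hq : ‖q‖ ≤ 2803 / 10000) (hw : ‖w‖ = 1) :
    ‖thq q w - ((w ^ 3 + conj (w ^ 3)) + (3 * (q ^ 2 * (w ^ 5 + conj (w ^ 5))) +
      (6 * (q ^ 5 * (w ^ 7 + conj (w ^ 7))) + (10 * (q ^ 9 * (w ^ 9 + conj (w ^ 9))) +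
      15 * (q ^ 14 * (w ^ 11 + conj (w ^ 11)))))))‖ ≤ rv 415 := by
  unfold thq
  have h := norm_tsum_sub_le
    (f := fun n : ℕ => (ee n : ℂ) * q ^ (ee n - 1) * (w ^ (2 * n + 1) + conj w ^ (2 * n + 1)))
    (C := 42 * (2803 / 10000) ^ 20) (x := 2 * (2803 / 10000) ^ 7) (by norm_num) (by norm_num) 6
    (fun n => ?_)
  · have e : ∑ n ∈ Finset.range 6,
        (ee n : ℂ) * q ^ (ee n - 1) * (w ^ (2 * n + 1) + conj w ^ (2 * n + 1)) =
        (w ^ 3 + conj (w ^ 3)) + (3 * (q ^ 2 * (w ^ 5 + conj (w ^ 5))) +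
      (6 * (q ^ 5 * (w ^ 7 + conj (w ^ 7))) + (10 * (q ^ 9 * (w ^ 9 + conj (w ^ 9))) +
      15 * (q ^ 14 * (w ^ 11 + conj (w ^ 11)))))) := by
      simp only [Finset.sum_range_succ, Finset.sum_range_zero, zero_add, e0, e1, e2, e3, e4, e5,
        map_pow]
      norm_num
      ring
    rw [e] at h
    refine h.trans ?_
    unfold rv
    norm_num
  · rw [norm_mul, norm_mul, norm_pow, Complex.norm_natCast]
    have h1 := w_add hw (2 * (n + 6) + 1)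
    have h2 := qpow_le' hq n
    have h3 : ((ee (n + 6) : ℕ) : ℝ) ≤ 21 * 2 ^ n := by exact_mod_cast ee_six_le n
    calc ((ee (n + 6) : ℕ) : ℝ) * ‖q‖ ^ (ee (n + 6) - 1) *
          ‖w ^ (2 * (n + 6) + 1) + conj w ^ (2 * (n + 6) + 1)‖
        ≤ (21 * 2 ^ n) * ((2803 / 10000) ^ 20 * ((2803 / 10000) ^ 7) ^ n) * 2 := by gcongr
      _ = 42 * (2803 / 10000) ^ 20 * (2 * (2803 / 10000) ^ 7) ^ n := by
          rw [mul_pow 2]
          ring

theorem thw_six {q w : ℂ} (hq : ‖q‖ ≤ 2803 / 10000) (hw : ‖w‖ = 1) :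
    ‖thw q w - ((w ^ 1 - conj (w ^ 1)) + (3 * (q * (w ^ 3 - conj (w ^ 3))) +
      (5 * (q ^ 3 * (w ^ 5 - conj (w ^ 5))) + (7 * (q ^ 6 * (w ^ 7 - conj (w ^ 7))) +
      (9 * (q ^ 10 * (w ^ 9 - conj (w ^ 9))) + 11 * (q ^ 15 * (w ^ 11 - conj (w ^ 11))))))))‖
      ≤ rv 72 := by
  unfold thw
  have h := norm_tsum_sub_le
    (f := fun n : ℕ => (2 * (n : ℂ) + 1) * q ^ ee n * (w ^ (2 * n + 1) - conj w ^ (2 * n + 1)))
    (C := 26 * (2803 / 10000) ^ 21) (x := 2 * (2803 / 10000) ^ 7) (by norm_num) (by norm_num) 6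
    (fun n => ?_)
  · have e : ∑ n ∈ Finset.range 6,
        (2 * (n : ℂ) + 1) * q ^ ee n * (w ^ (2 * n + 1) - conj w ^ (2 * n + 1)) =
        (w ^ 1 - conj (w ^ 1)) + (3 * (q * (w ^ 3 - conj (w ^ 3))) +
      (5 * (q ^ 3 * (w ^ 5 - conj (w ^ 5))) + (7 * (q ^ 6 * (w ^ 7 - conj (w ^ 7))) +
      (9 * (q ^ 10 * (w ^ 9 - conj (w ^ 9))) + 11 * (q ^ 15 * (w ^ 11 - conj (w ^ 11))))))) := by
      simp only [Finset.sum_range_succ, Finset.sum_range_zero, zero_add, e0, e1, e2, e3, e4, e5,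
        map_pow]
      norm_num
      ring
    rw [e] at h
    refine h.trans ?_
    unfold rv
    norm_num
  · rw [norm_mul, norm_mul, norm_pow]
    have h1 := w_sub hw (2 * (n + 6) + 1)
    have h2 := qpow_le hq n
    have h3 : ‖(2 * ((n + 6 : ℕ) : ℂ) + 1)‖ ≤ 13 * 2 ^ n := by
      have e : (2 * ((n + 6 : ℕ) : ℂ) + 1) = ((2 * (n + 6) + 1 : ℕ) : ℂ) := by push_cast; ring
      rw [e, Complex.norm_natCast]
      have : 2 * (n + 6) + 1 ≤ 13 * 2 ^ n := by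
        have : n + 1 ≤ 2 ^ n := Nat.lt_two_pow_self
        omega
      exact_mod_cast this
    calc ‖(2 * ((n + 6 : ℕ) : ℂ) + 1)‖ * ‖q‖ ^ ee (n + 6) *
          ‖w ^ (2 * (n + 6) + 1) - conj w ^ (2 * (n + 6) + 1)‖
        ≤ (13 * 2 ^ n) * ((2803 / 10000) ^ 21 * ((2803 / 10000) ^ 7) ^ n) * 2 := by gcongr
      _ = 26 * (2803 / 10000) ^ 21 * (2 * (2803 / 10000) ^ 7) ^ n := by
          rw [mul_pow 2]
          ring

/-! ### the balls -/

def qb : CB := ⟨-210232900783, 225287107885, 2⟩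
def wb : CB := ⟨878261377371, 661500395035, 2⟩
def la : CB := ⟨440244455761, 0, 2⟩
def lb : CB := ⟨1078409896273, 0, 2⟩
def ib : CB := ⟨0, 1099511627776, 2⟩
def q2 : CB := CB.mul qb qb
def q3 : CB := CB.mul q2 qb
def q5 : CB := CB.mul q3 q2
def q6 : CB := CB.mul q3 q3
def q9 : CB := CB.mul q6 q3
def q10 : CB := CB.mul q5 q5
def q14 : CB := CB.mul q9 q5
def q15 : CB := CB.mul q9 q6
def w2 : CB := CB.mul wb wb
def w3 : CB := CB.mul w2 wb
def w5 : CB := CB.mul w3 w2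
def w7 : CB := CB.mul w5 w2
def w9 : CB := CB.mul w7 w2
def w11 : CB := CB.mul w9 w2

def ad (a : CB) : CB := CB.add a (CB.conj a)
def sb (a : CB) : CB := CB.sub a (CB.conj a)

def thF (a1 a3 a5 a7 a9 a11 : CB) : CB :=
  inflB (CB.add a1 (CB.add (CB.mul qb a3) (CB.add (CB.mul q3 a5) (CB.add (CB.mul q6 a7)
    (CB.add (CB.mul q10 a9) (CB.mul q15 a11)))))) 6

def thqF (a3 a5 a7 a9 a11 : CB) : CB :=
  inflB (CB.add a3 (CB.add (CB.nsm 3 (CB.mul q2 a5)) (CB.add (CB.nsm 6 (CB.mul q5 a7))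
    (CB.add (CB.nsm 10 (CB.mul q9 a9)) (CB.nsm 15 (CB.mul q14 a11)))))) 415

def thwF (a1 a3 a5 a7 a9 a11 : CB) : CB :=
  inflB (CB.add a1 (CB.add (CB.nsm 3 (CB.mul qb a3)) (CB.add (CB.nsm 5 (CB.mul q3 a5))
    (CB.add (CB.nsm 7 (CB.mul q6 a7)) (CB.add (CB.nsm 9 (CB.mul q10 a9))
      (CB.nsm 11 (CB.mul q15 a11))))))) 72

def tA : CB := thF (ad oneB) (ad oneB) (ad oneB) (ad oneB) (ad oneB) (ad oneB)
def tB : CB := thF (ad wb) (ad w3) (ad w5) (ad w7) (ad w9) (ad w11)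
def gA : CB := thqF (ad oneB) (ad oneB) (ad oneB) (ad oneB) (ad oneB)
def gB : CB := thqF (ad w3) (ad w5) (ad w7) (ad w9) (ad w11)
def tw : CB := thwF (sb wb) (sb w3) (sb w5) (sb w7) (sb w9) (sb w11)
def nAb : CB := CB.mul (CB.conj tA) tA
def nBb : CB := CB.mul (CB.conj tB) tB
def lg : CB := CB.add (CB.mul (CB.mul la (CB.conj tA)) gA) (CB.mul (CB.mul lb (CB.conj tB)) gB)
def cr : CB := CB.mul (CB.conj tB) (CB.mul ib tw)

theorem chkA : 3211966990413 ≤ Int.add nAb.re (Int.neg nAb.rad) := by decide +kernel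
theorem chkA' : Int.add (absI nAb.re) nAb.rad ≤ 3211966991017 := by decide +kernel
theorem chkB : 3211966990413 ≤ Int.add nBb.re (Int.neg nBb.rad) := by decide +kernel
theorem chkL : CB.up lg ≤ 5497 := by decide +kernel
theorem chkC : Int.add (absI cr.re) cr.rad ≤ 1099 := by decide +kernel

theorem mem_qb : CB.Mem qc qb := by
  apply mem_ball (c := qc) (ε := 0) (by simp)
  · rw [ulp_eq, abs_le]
    unfold qc rv
    constructor <;> norm_num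
  · rw [ulp_eq, abs_le]
    unfold qc rv
    constructor <;> norm_num
  · rw [ulp_eq]
    unfold rv
    norm_num

theorem mem_wb : CB.Mem w0c wb := by
  apply mem_ball (c := w0c) (ε := 0) (by simp)
  · rw [ulp_eq, abs_le]
    unfold w0c rv
    constructor <;> norm_num
  · rw [ulp_eq, abs_le]
    unfold w0c rv
    constructor <;> norm_num
  · rw [ulp_eq]
    unfold rv
    norm_num

theorem mem_la' : CB.Mem (lAc : ℂ) la := by
  apply mem_real_ball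
  rw [abs_le]
  unfold lAc rv
  constructor <;> norm_num

theorem mem_lb' : CB.Mem (lBx : ℂ) lb := by
  apply mem_real_ball
  rw [abs_le]
  unfold lBx rv
  constructor <;> norm_num

theorem mem_ib : CB.Mem Complex.I ib := by
  apply mem_ball (c := Complex.I) (ε := 0) (by simp)
  · rw [ulp_eq, abs_le, Complex.I_re]
    unfold rv
    constructor <;> norm_num
  · rw [ulp_eq, abs_le, Complex.I_im]
    unfold rv
    constructor <;> norm_num
  · rw [ulp_eq]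
    unfold rv
    norm_num

theorem mem_ad {z : ℂ} {a : CB} (h : CB.Mem z a) : CB.Mem (z + conj z) (ad a) := h.add h.conjB

theorem mem_sb {z : ℂ} {a : CB} (h : CB.Mem z a) : CB.Mem (z - conj z) (sb a) := h.sub h.conjB

theorem qpows : CB.Mem (qc ^ 2) q2 ∧ CB.Mem (qc ^ 3) q3 ∧ CB.Mem (qc ^ 5) q5 ∧
    CB.Mem (qc ^ 6) q6 ∧ CB.Mem (qc ^ 9) q9 ∧ CB.Mem (qc ^ 10) q10 ∧ CB.Mem (qc ^ 14) q14 ∧
    CB.Mem (qc ^ 15) q15 := by
  have m1 := mem_qb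
  have m2 : CB.Mem (qc ^ 2) q2 := by
    rw [pow_two]; exact m1.mul m1
  have m3 : CB.Mem (qc ^ 3) q3 := by
    rw [pow_succ]; exact m2.mul m1
  have m5 : CB.Mem (qc ^ 5) q5 := by
    rw [show qc ^ 5 = qc ^ 3 * qc ^ 2 by ring]; exact m3.mul m2
  have m6 : CB.Mem (qc ^ 6) q6 := by
    rw [show qc ^ 6 = qc ^ 3 * qc ^ 3 by ring]; exact m3.mul m3
  have m9 : CB.Mem (qc ^ 9) q9 := by
    rw [show qc ^ 9 = qc ^ 6 * qc ^ 3 by ring]; exact m6.mul m3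
  have m10 : CB.Mem (qc ^ 10) q10 := by
    rw [show qc ^ 10 = qc ^ 5 * qc ^ 5 by ring]; exact m5.mul m5
  have m14 : CB.Mem (qc ^ 14) q14 := by
    rw [show qc ^ 14 = qc ^ 9 * qc ^ 5 by ring]; exact m9.mul m5
  have m15 : CB.Mem (qc ^ 15) q15 := by
    rw [show qc ^ 15 = qc ^ 9 * qc ^ 6 by ring]; exact m9.mul m6
  exact ⟨m2, m3, m5, m6, m9, m10, m14, m15⟩

theorem wpows : CB.Mem (w0c ^ 1) wb ∧ CB.Mem (w0c ^ 3) w3 ∧ CB.Mem (w0c ^ 5) w5 ∧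
    CB.Mem (w0c ^ 7) w7 ∧ CB.Mem (w0c ^ 9) w9 ∧ CB.Mem (w0c ^ 11) w11 := by
  have m1 := mem_wb
  have m2 : CB.Mem (w0c ^ 2) w2 := by
    rw [pow_two]; exact m1.mul m1
  have m3 : CB.Mem (w0c ^ 3) w3 := by
    rw [pow_succ]; exact m2.mul m1
  have m5 : CB.Mem (w0c ^ 5) w5 := by
    rw [show w0c ^ 5 = w0c ^ 3 * w0c ^ 2 by ring]; exact m3.mul m2
  have m7 : CB.Mem (w0c ^ 7) w7 := by
    rw [show w0c ^ 7 = w0c ^ 5 * w0c ^ 2 by ring]; exact m5.mul m2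
  have m9 : CB.Mem (w0c ^ 9) w9 := by
    rw [show w0c ^ 9 = w0c ^ 7 * w0c ^ 2 by ring]; exact m7.mul m2
  have m11 : CB.Mem (w0c ^ 11) w11 := by
    rw [show w0c ^ 11 = w0c ^ 9 * w0c ^ 2 by ring]; exact m9.mul m2
  refine ⟨?_, m3, m5, m7, m9, m11⟩
  rw [pow_one]
  exact m1

theorem mem_th {w : ℂ} (hw : ‖w‖ = 1) {a1 a3 a5 a7 a9 a11 : CB}
    (h1 : CB.Mem (w ^ 1 + conj (w ^ 1)) a1) (h3 : CB.Mem (w ^ 3 + conj (w ^ 3)) a3)
    (h5 : CB.Mem (w ^ 5 + conj (w ^ 5)) a5) (h7 : CB.Mem (w ^ 7 + conj (w ^ 7)) a7)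
    (h9 : CB.Mem (w ^ 9 + conj (w ^ 9)) a9) (h11 : CB.Mem (w ^ 11 + conj (w ^ 11)) a11) :
    CB.Mem (th qc w) (thF a1 a3 a5 a7 a9 a11) := by
  obtain ⟨m2, m3, m5, m6, m9, m10, m14, m15⟩ := qpows
  exact mem_inflB (h1.add ((mem_qb.mul h3).add ((m3.mul h5).add ((m6.mul h7).add
    ((m10.mul h9).add (m15.mul h11)))))) (th_six norm_qc hw)

theorem nsm' {z : ℂ} {a : CB} (n : ℕ) (h : CB.Mem z a) : CB.Mem ((n : ℂ) * z) (CB.nsm n a) := by
  have := h.nsm (n := n) (by positivity)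
  simpa using this

theorem mem_thq' {w : ℂ} (hw : ‖w‖ = 1) {a3 a5 a7 a9 a11 : CB}
    (h3 : CB.Mem (w ^ 3 + conj (w ^ 3)) a3)
    (h5 : CB.Mem (w ^ 5 + conj (w ^ 5)) a5) (h7 : CB.Mem (w ^ 7 + conj (w ^ 7)) a7)
    (h9 : CB.Mem (w ^ 9 + conj (w ^ 9)) a9) (h11 : CB.Mem (w ^ 11 + conj (w ^ 11)) a11) :
    CB.Mem (thq qc w) (thqF a3 a5 a7 a9 a11) := by
  obtain ⟨m2, m3, m5, m6, m9, m10, m14, m15⟩ := qpows
  have k5 := nsm' 3 (m2.mul h5)
  have k7 := nsm' 6 (m5.mul h7)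
  have k9 := nsm' 10 (m9.mul h9)
  have k11 := nsm' 15 (m14.mul h11)
  push_cast at k5 k7 k9 k11
  exact mem_inflB (h3.add (k5.add (k7.add (k9.add k11)))) (thq_six norm_qc hw)

theorem mem_thw' {w : ℂ} (hw : ‖w‖ = 1) {a1 a3 a5 a7 a9 a11 : CB}
    (h1 : CB.Mem (w ^ 1 - conj (w ^ 1)) a1) (h3 : CB.Mem (w ^ 3 - conj (w ^ 3)) a3)
    (h5 : CB.Mem (w ^ 5 - conj (w ^ 5)) a5) (h7 : CB.Mem (w ^ 7 - conj (w ^ 7)) a7)
    (h9 : CB.Mem (w ^ 9 - conj (w ^ 9)) a9) (h11 : CB.Mem (w ^ 11 - conj (w ^ 11)) a11) :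
    CB.Mem (thw qc w) (thwF a1 a3 a5 a7 a9 a11) := by
  obtain ⟨m2, m3, m5, m6, m9, m10, m14, m15⟩ := qpows
  have k3 := nsm' 3 (mem_qb.mul h3)
  have k5 := nsm' 5 (m3.mul h5)
  have k7 := nsm' 7 (m6.mul h7)
  have k9 := nsm' 9 (m10.mul h9)
  have k11 := nsm' 11 (m15.mul h11)
  push_cast at k3 k5 k7 k9 k11
  exact mem_inflB (h1.add (k3.add (k5.add (k7.add (k9.add k11))))) (thw_six norm_qc hw)

theorem one_pow' (k : ℕ) : CB.Mem ((1 : ℂ) ^ k + conj ((1 : ℂ) ^ k)) (ad oneB) := by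
  rw [one_pow]
  exact mem_ad mem_one

theorem mem_tA : CB.Mem (th qc 1) tA :=
  mem_th norm_one (one_pow' _) (one_pow' _) (one_pow' _) (one_pow' _) (one_pow' _) (one_pow' _)

theorem mem_gA : CB.Mem (thq qc 1) gA :=
  mem_thq' norm_one (one_pow' _) (one_pow' _) (one_pow' _) (one_pow' _) (one_pow' _)

theorem mem_tB : CB.Mem (th qc w0c) tB := by
  obtain ⟨m1, m3, m5, m7, m9, m11⟩ := wpows
  exact mem_th norm_w0c (mem_ad m1) (mem_ad m3) (mem_ad m5) (mem_ad m7) (mem_ad m9) (mem_ad m11)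

theorem mem_gB : CB.Mem (thq qc w0c) gB := by
  obtain ⟨m1, m3, m5, m7, m9, m11⟩ := wpows
  exact mem_thq' norm_w0c (mem_ad m3) (mem_ad m5) (mem_ad m7) (mem_ad m9) (mem_ad m11)

theorem mem_tw : CB.Mem (thw qc w0c) tw := by
  obtain ⟨m1, m3, m5, m7, m9, m11⟩ := wpows
  exact mem_thw' norm_w0c (mem_sb m1) (mem_sb m3) (mem_sb m5) (mem_sb m7) (mem_sb m9) (mem_sb m11)

theorem conj_mul_self_re (z : ℂ) : (conj z * z).re = ‖z‖ ^ 2 := by
  rw [Complex.sq_norm, Complex.normSq_apply]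
  simp [Complex.mul_re]

theorem nA_ge : 2.92126696005 ≤ ‖th qc 1‖ ^ 2 := by
  have h := (mem_tA.conjB.mul mem_tA).re_ge
  rw [conj_mul_self_re] at h
  refine le_trans ?_ ((cs_rv_le chkA).trans h)
  unfold rv
  norm_num

theorem nA_le : ‖th qc 1‖ ^ 2 ≤ 2.9212669606 := by
  have h := (mem_tA.conjB.mul mem_tA).abs_re_le
  rw [conj_mul_self_re] at h
  refine (le_abs_self _).trans (h.trans ((cs_rv_le chkA').trans ?_))
  unfold rv
  norm_num

theorem nB_ge : 2.92126696005 ≤ ‖th qc w0c‖ ^ 2 := by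
  have h := (mem_tB.conjB.mul mem_tB).re_ge
  rw [conj_mul_self_re] at h
  refine le_trans ?_ ((cs_rv_le chkB).trans h)
  unfold rv
  norm_num

theorem lag_le : ‖Lag qc w0c lBx‖ ≤ 5 / 10 ^ 9 := by
  have h : CB.Mem (Lag qc w0c lBx) lg :=
    ((mem_la'.mul mem_tA.conjB).mul mem_gA).add ((mem_lb'.mul mem_tB.conjB).mul mem_gB)
  refine h.norm_le.trans ((cs_rv_le chkL).trans ?_)
  unfold rv
  norm_num

theorem cr_le : |(conj (th qc w0c) * (Complex.I * thw qc w0c)).re| ≤ 1 / 10 ^ 9 := by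
  have h : CB.Mem (conj (th qc w0c) * (Complex.I * thw qc w0c)) cr :=
    mem_tB.conjB.mul (mem_ib.mul mem_tw)
  refine h.abs_re_le.trans ((cs_rv_le chkC).trans ?_)
  unfold rv
  norm_num

end LocB

end MaxTerm.PA
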