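import Pool.Agent.MaxTerm.PartA.LocA
import Pool.Agent.MaxTerm.PartA.LocB

/-!
# Part A: localisation of the minimiser, the key inequality
-/

open Filter Topology ComplexConjugate

namespace MaxTerm.PA

open LocA LocB

/-- the inequality `0 ≥ Sf ≥ S1 + 4 |δ|²` at the rational parameter point -/
theorem loc_key {q : ℂ} (hq : ‖q‖ < 1) (hK : thetaMax q = Kstar) (hn : Near q) :
    lAc * (‖th qc 1‖ ^ 2 - Kstar ^ 2) + lBx * (‖th qc w0c‖ ^ 2 - Kstar ^ 2)
      - 5 / 10 ^ 11 - 32 / 10000 * |‖th qc 1‖ ^ 2 - Kstar ^ 2| + 4 * ‖q - qc‖ ^ 2 ≤ 0 := by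
  have hs : SB qc q := by
    refine ⟨?_, ?_⟩
    · rw [Complex.sub_re]
      exact hn.re.trans (by norm_num)
    · rw [Complex.sub_im]
      exact hn.im.trans (by norm_num)
  have h1 := S_expand PB_c (Kstar ^ 2) hs hs
  have h2 := Sf_nonpos hq hK PB_c hs le_rfl
  have hdl : dl qc q q = q - qc := by
    unfold dl
    ring
  have hre := hn.re
  have him := hn.im
  rw [← Complex.sub_re] at hre
  rw [← Complex.sub_im] at him
  have hd : ‖q - qc‖ ≤ 4 / 1000 := by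
    have := Complex.norm_le_abs_re_add_abs_im (q - qc)
    linarith
  have hL : -(2 / 10 ^ 11) ≤ (Lag qc w0c lBx * dl qc q q).re := by
    have h3 := (abs_le.1 (Complex.abs_re_le_norm (Lag qc w0c lBx * dl qc q q))).1
    rw [norm_mul, hdl] at h3
    have h4 : ‖Lag qc w0c lBx‖ * ‖q - qc‖ ≤ 5 / 10 ^ 9 * (4 / 1000) :=
      mul_le_mul lag_le hd (norm_nonneg _) (by norm_num)
    rw [hdl]
    have h5 : (5 : ℝ) / 10 ^ 9 * (4 / 1000) = 2 / 10 ^ 11 := by norm_num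
    rw [h5] at h4
    linarith
  have ht : |tau qc q q| ≤ 18 / 10000 := by
    unfold tau
    rw [hdl]
    rw [abs_le] at hre him ⊢
    constructor <;> linarith [hre.1, hre.2, him.1, him.2]
  have hC : -(1 / 10 ^ 11) ≤ 2 * lBx * tau qc q q *
      (conj (th qc w0c) * (Complex.I * thw qc w0c)).re := by
    have h3 : |2 * lBx * tau qc q q * (conj (th qc w0c) * (Complex.I * thw qc w0c)).re| ≤
        2 * lBx * (18 / 10000) * (1 / 10 ^ 9) := by
      rw [abs_mul, abs_mul]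
      have e : |2 * lBx| = 2 * lBx := abs_of_nonneg (by unfold lBx; norm_num)
      rw [e]
      have e2 : (0 : ℝ) ≤ 2 * lBx := by unfold lBx; norm_num
      exact mul_le_mul (mul_le_mul_of_nonneg_left ht e2) cr_le (abs_nonneg _) (by positivity)
    have h4 := (abs_le.1 h3).1
    refine le_trans ?_ h4
    unfold lBx
    norm_num
  have hI : -(32 / 10000 * |‖th qc 1‖ ^ 2 - Kstar ^ 2|) ≤
      8 / 5 * (dl qc q q).im * (‖th qc 1‖ ^ 2 - Kstar ^ 2) := by
    have h3 : |8 / 5 * (dl qc q q).im * (‖th qc 1‖ ^ 2 - Kstar ^ 2)| ≤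
        32 / 10000 * |‖th qc 1‖ ^ 2 - Kstar ^ 2| := by
      rw [abs_mul, abs_mul, hdl]
      refine mul_le_mul_of_nonneg_right ?_ (abs_nonneg _)
      rw [abs_of_pos (by norm_num : (0 : ℝ) < 8 / 5)]
      linarith
    exact (abs_le.1 h3).1
  unfold S1 at h1
  have e1 : (5 : ℝ) / 10 ^ 11 = 2 * (2 / 10 ^ 11) + 1 / 10 ^ 11 := by norm_num
  rw [e1]
  linarith

namespace LocC

theorem loc_aux {q : ℂ} (hq : ‖q‖ < 1) (hK : thetaMax q = Kstar) (hn : Near q) :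
    ‖q - qc‖ ≤ 2 / 100000 := by
  have h := loc_key hq hK hn
  have hA := nA_ge
  have hB := nB_ge
  have hk := kstar_sq_le
  rw [← sq_le_sq₀ (norm_nonneg _) (by norm_num)]
  set x := ‖th qc 1‖ ^ 2 - Kstar ^ 2 with hx
  set y := ‖th qc w0c‖ ^ 2 - Kstar ^ 2 with hy
  have hx1 : -(95 / 10 ^ 11) ≤ x := by
    rw [hx]
    norm_num at hA hk ⊢
    linarith
  have hy1 : -(95 / 10 ^ 11) ≤ y := by
    rw [hy]
    norm_num at hB hk ⊢
    linarith
  unfold lAc lBx at h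
  norm_num at h hx1 hy1 ⊢
  rcases abs_cases x with ⟨h1, h2⟩ | ⟨h1, h2⟩ <;> rw [h1] at h <;> linarith

theorem sq_ge_aux {q : ℂ} (hq : ‖q‖ < 1) (hK : thetaMax q = Kstar) (hn : Near q) :
    2.921266959 ≤ Kstar ^ 2 := by
  have h := loc_key hq hK hn
  have hA := nA_ge
  have hB := nB_ge
  by_contra hcon
  push Not at hcon
  set x := ‖th qc 1‖ ^ 2 - Kstar ^ 2 with hx
  set y := ‖th qc w0c‖ ^ 2 - Kstar ^ 2 with hy
  have hx1 : 105 / 10 ^ 11 ≤ x := by
    rw [hx]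
    norm_num at hA hcon ⊢
    linarith
  have hy1 : 105 / 10 ^ 11 ≤ y := by
    rw [hy]
    norm_num at hB hcon ⊢
    linarith
  have hd : 0 ≤ ‖q - qc‖ ^ 2 := by positivity
  unfold lAc lBx at h
  norm_num at h hx1 hy1
  rcases abs_cases x with ⟨h1, h2⟩ | ⟨h1, h2⟩ <;> rw [h1] at h <;> linarith

theorem near_min_aux : ∃ q : ℂ, ‖q‖ < 1 ∧ thetaMax q = Kstar ∧ Near q := by
  obtain ⟨q, hq, hK⟩ := exists_thetaMax_eq_Kstar
  rcases near_of_min hq hK with h | h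
  · exact ⟨q, hq, hK, h⟩
  · exact ⟨conj q, by rw [Complex.norm_conj]; exact hq, by rw [thetaMax_conj, hK], h⟩

theorem kstar_sq_ge : 2.921266959 ≤ Kstar ^ 2 := by
  obtain ⟨q, hq, hK, hn⟩ := near_min_aux
  exact sq_ge_aux hq hK hn

end LocC

end MaxTerm.PA
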