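import Pool.Agent.MaxTerm.PartA.ModeEC

/-!
# Part A, mode E (exact to first order; small `v` away from the real axis)

`v = s 0`, `D l = s l - s (l-1)`, `d l = ‖D l‖`, `X = 3/5`, `‖v‖ ≤ r ≤ 9/25`, `1/8 ≤ |v.im|`.

Proof.
* General expansion: `mon s n = v^(ee n) + v^(ee n - 1) ∑_l gw n l D_l + R_n` with
  `‖R_n‖ ≤ (1/2) r^n X^(n(n-1)/2-2) (∑_{l=1}^{n-1} gw n l d_l)²` for `n ≥ 3` (`v^n` is a common factor,
  the other `n(n-1)/2` factors are all `≤ X`; `∏ x_m - v^N - v^(N-1) ∑ (x_m - v)` is at most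
  `X^(N-2) ∑_{m<l} ‖x_m - v‖‖x_l - v‖`), and `R_n = 0` for `n ≤ 2`.
* `n = 3`: `‖R₃‖ ≤ r³ ((X + 3r) d₁² + r d₂²)` (see mode N): cost `c4 (X+3r)`, `c4 r`.
* `n = 4`: with `x₁=s₁-v, x₂=s₂-v, x₃=s₃-v`: `s₁³s₂²s₃ - v⁶ - v⁵(3x₁+2x₂+x₃)` is at most
  `|x₁|²(X⁴+2rX³) + |x₁||x₂|(3r²X²+3r³X) + |x₂|² r³X + 3r⁴|x₁||x₃| + 2r⁴|x₂||x₃|`;
  with `|x₁|=d₁, |x₂|≤d₁+d₂, |x₃|≤d₁+d₂+d₃` and `ab ≤ (a²+b²)/2` this is
  `≤ K11 d₁² + K22 d₂² + K33 d₃²`: cost `c5 K11, c5 K22, c5 K33`.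
* `n = 5`: general bound, `(10d₁+6d₂+3d₃+d₄)²/2 ≤ 126.3 d₁² + 52.6 d₂² + 21.1 d₃² + 10.6 d₄²`,
  cost `127 c6, 53 c6, 22 c6, 11 c6`.
* `n ≥ 6`: general bound and Cauchy: `(∑ g d)² ≤ (∑ g² 2^l)(∑ 2^(-l) d_l²)`, `∑_l (gw 6 l)² 2^l = 1314`,
  `∑_l (gw 7 l)² 2^l = 3510`, crude for `n ≥ 8`; total cost `c7 2^(-l)` for `d_l²`.
* folding of `B 1`: no cost (`0 ≤ (B 1).im`). For `l ≥ 2` : if `v` is in the upper half plane,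
  `shp z = z + i n(z)`, `n(z) = 2 max 0 (-z.im)`, and `n(z) ≤ ‖z - v‖²/(2 v.im) ≤ 4 ‖z - v‖²`; so
  `-2 Re (B l (shp s_l - shp s_{l-1})) ≥ -2 Re (B l D_l) - 2 ‖B l‖ * 4 (d₁+...+d_l)²`;
  `8 ‖B 2‖ (d₁+d₂)² ≤ 8‖B 2‖ (3/2 d₁² + 3 d₂²)`, `8 ‖B l‖ l (d₁²+...+d_l²)` for `l ≥ 3`.
  Total cost: `86/10000, 163/10000, 8/10000` for `d₁², d₂², d₃²`, and small for `l ≥ 4`.
  (lower half plane: conjugate everything.)
* finally `p d² + 2 Re (E D) ≥ -‖E‖²/p` for every `l`.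
-/

open Filter Topology ComplexConjugate

namespace MaxTerm.PA

namespace ModeE

theorem term_ge {p d : ℝ} {E D : ℂ} (hp : 0 < p) (hd : ‖D‖ = d) :
    -(‖E‖ ^ 2 / p) ≤ p * d ^ 2 + 2 * (E * D).re := by
  have h1 : -(‖E‖ * d) ≤ (E * D).re := by
    rw [← hd, ← norm_mul]
    exact (abs_le.1 (Complex.abs_re_le_norm _)).1
  have h2 : p * (p * d ^ 2 - 2 * (‖E‖ * d) + ‖E‖ ^ 2 / p) = (p * d - ‖E‖) ^ 2 := by
    field_simp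
    ring
  have h3 : 0 ≤ p * d ^ 2 - 2 * (‖E‖ * d) + ‖E‖ ^ 2 / p := by
    by_contra h
    push Not at h
    have := mul_neg_of_pos_of_neg hp h
    rw [h2] at this
    exact absurd this (not_lt.2 (sq_nonneg _))
  linarith

theorem pE_pos {r c4 c5 c6 c7 : ℝ} (hp1 : 0 < p1E r c4 c5 c6 c7) (hp2 : 0 < p2E r c4 c5 c6 c7)
    (hp3 : 0 < p3E r c5 c6 c7) (l : ℕ) : 0 < pE r c4 c5 c6 c7 (l + 1) := by
  rcases l with _ | _ | _ | k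
  · exact hp1
  · exact hp2
  · exact hp3
  · change 0 < (1 / 40 : ℝ) / 2 ^ (k + 4)
    positivity

theorem EE_eq {B α : ℕ → ℂ} {v : ℂ} (hv : 0 ≤ v.im) (l : ℕ) :
    EE B α v (l + 1) = E1 α v l - B (l + 1) := by
  rw [EE, Bs, if_pos hv]
  rfl

theorem summable_EE {B α : ℕ → ℂ} {v : ℂ} {M : ℝ} (hB : BOK B) (hv : 0 ≤ v.im)
    (hv1 : ‖v‖ ≤ 9 / 25) (hM : ∀ n, ‖α (n + 2)‖ ≤ M) (r c4 c5 c6 c7 : ℝ) :
    Summable fun l => ‖EE B α v (l + 1)‖ ^ 2 / pE r c4 c5 c6 c7 (l + 1) := by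
  have hM0 : 0 ≤ M := (norm_nonneg _).trans (hM 0)
  rw [← summable_nat_add_iff 3]
  refine Summable.of_nonneg_of_le (fun k => ?_) (fun k => ?_)
    (summable_half.mul_left (10 * (2 * M + 1) ^ 2))
  · change 0 ≤ ‖EE B α v (k + 3 + 1)‖ ^ 2 / ((1 / 40 : ℝ) / 2 ^ (k + 4))
    positivity
  · change ‖EE B α v (k + 3 + 1)‖ ^ 2 / ((1 / 40 : ℝ) / 2 ^ (k + 4)) ≤ _
    have h1 : ‖EE B α v (k + 3 + 1)‖ ≤ (2 * M + 1) * (1 / 2) ^ (k + 3) := by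
      rw [EE_eq hv]
      refine (norm_sub_le _ _).trans ?_
      have a1 := E1_le hv1 hM (k + 3)
      have a2 := B_le hB (k + 3)
      linarith
    have h2 := pow_le_pow_left₀ (norm_nonneg _) h1 2
    rw [div_div_eq_mul_div, div_le_iff₀ (by norm_num)]
    calc ‖EE B α v (k + 3 + 1)‖ ^ 2 * 2 ^ (k + 4)
        ≤ ((2 * M + 1) * (1 / 2) ^ (k + 3)) ^ 2 * 2 ^ (k + 4) :=
          mul_le_mul_of_nonneg_right h2 (by positivity)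
      _ = (2 * M + 1) ^ 2 * (1 / 2) ^ (k + 3) * ((1 / 2 * 2) ^ (k + 3)) * 2 := by
          rw [mul_pow (1 / 2 : ℝ) 2 (k + 3)]
          ring
      _ ≤ _ := by
          rw [pow_add (1 / 2 : ℝ) k 3]
          norm_num
          have : 0 ≤ (2 * M + 1) ^ 2 * (1 / 2 : ℝ) ^ k := by positivity
          rw [one_div, inv_pow] at this
          nlinarith

theorem summable_pd {s : ℕ → ℂ} (hs : ∀ i, ‖s i‖ ≤ 3 / 5) (p : ℕ → ℝ) (c : ℝ)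
    (h : ∀ k, p (k + 4) = c / 2 ^ (k + 4)) :
    Summable fun l : ℕ => p (l + 1) * ‖s (l + 1) - s l‖ ^ 2 := by
  rw [← summable_nat_add_iff 3]
  have h1 := ((summable_nat_add_iff 3).2 (summable_W hs)).mul_left c
  refine h1.congr fun k => ?_
  change c * (‖s (k + 3 + 1) - s (k + 3)‖ ^ 2 / 2 ^ (k + 4)) =
    p (k + 4) * ‖s (k + 3 + 1) - s (k + 3)‖ ^ 2
  rw [h]
  ring

/-- the costs fit into the weights -/
theorem costs {s : ℕ → ℂ} (hs : ∀ i, ‖s i‖ ≤ 3 / 5) {r c4 c5 c6 c7 : ℝ}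
    (hc6 : c6 ≤ 1 / 3000) (hc7 : c7 ≤ 1 / 80) :
    (∑' l : ℕ, pE r c4 c5 c6 c7 (l + 1) * ‖s (l + 1) - s l‖ ^ 2) +
      (c4 * ((3 / 5 + 3 * r) * ‖s 1 - s 0‖ ^ 2 + r * ‖s 2 - s 1‖ ^ 2) +
      c5 * (K11 r * ‖s 1 - s 0‖ ^ 2 + K22 r * ‖s 2 - s 1‖ ^ 2 + K33 r * ‖s 3 - s 2‖ ^ 2) +
      c6 * (127 * ‖s 1 - s 0‖ ^ 2 + 53 * ‖s 2 - s 1‖ ^ 2 + 22 * ‖s 3 - s 2‖ ^ 2 +
        11 * ‖s 4 - s 3‖ ^ 2) + c7 * WW s) +
      (768 / 100000 * ‖s 1 - s 0‖ ^ 2 + 1536 / 100000 * ‖s 2 - s 1‖ ^ 2 +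
      72 / 100000 * (‖s 1 - s 0‖ ^ 2 + ‖s 2 - s 1‖ ^ 2 + ‖s 3 - s 2‖ ^ 2) +
      1024 / 10 ^ 7 * WW s) ≤
    ∑' l : ℕ, pc (l + 1) * ‖s (l + 1) - s l‖ ^ 2 := by
  have h1 : Summable fun l : ℕ => pc (l + 1) * ‖s (l + 1) - s l‖ ^ 2 :=
    summable_pd hs pc (1 / 10) fun k => rfl
  have h2 : Summable fun l : ℕ => pE r c4 c5 c6 c7 (l + 1) * ‖s (l + 1) - s l‖ ^ 2 :=
    summable_pd hs (pE r c4 c5 c6 c7) (1 / 40) fun k => rfl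
  have h3 := (summable_W hs).mul_left (c7 + 1024 / 10 ^ 7)
  have h4 := (h1.sub h2).sub h3
  have h5 := h4.sum_le_tsum (Finset.range 4) (fun l hl => by
    rw [Finset.mem_range, not_lt] at hl
    obtain ⟨k, rfl⟩ := Nat.exists_eq_add_of_le hl
    have e1 : pc (4 + k + 1) = (1 / 10) / 2 ^ (k + 5) := by
      rw [show 4 + k + 1 = (k + 2) + 3 by omega]
      rfl
    have e2 : pE r c4 c5 c6 c7 (4 + k + 1) = (1 / 40) / 2 ^ (k + 5) := by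
      rw [show 4 + k + 1 = (k + 1) + 4 by omega]
      rfl
    rw [e1, e2, show 4 + k + 1 = k + 5 by omega]
    have e3 : (1 / 10 : ℝ) / 2 ^ (k + 5) * ‖s (k + 5) - s (4 + k)‖ ^ 2 -
        1 / 40 / 2 ^ (k + 5) * ‖s (k + 5) - s (4 + k)‖ ^ 2 -
        (c7 + 1024 / 10 ^ 7) * (‖s (k + 5) - s (4 + k)‖ ^ 2 / 2 ^ (k + 5)) =
        (1 / 10 - 1 / 40 - (c7 + 1024 / 10 ^ 7)) * (‖s (k + 5) - s (4 + k)‖ ^ 2 / 2 ^ (k + 5)) := by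
      ring
    rw [e3]
    apply mul_nonneg _ (by positivity)
    norm_num
    linarith)
  rw [(h1.sub h2).tsum_sub h3, h1.tsum_sub h2, tsum_mul_left] at h5
  have e0 : pc (0 + 1) = 4 / 5 := rfl
  have e1 : pc (1 + 1) = 1 / 10 := rfl
  have e2 : pc (2 + 1) = (1 / 10) / 2 ^ 3 := rfl
  have e3 : pc (3 + 1) = (1 / 10) / 2 ^ 4 := rfl
  have f0 : pE r c4 c5 c6 c7 (0 + 1) = p1E r c4 c5 c6 c7 := rfl
  have f1 : pE r c4 c5 c6 c7 (1 + 1) = p2E r c4 c5 c6 c7 := rfl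
  have f2 : pE r c4 c5 c6 c7 (2 + 1) = p3E r c5 c6 c7 := rfl
  have f3 : pE r c4 c5 c6 c7 (3 + 1) = (1 / 40) / 2 ^ 4 := rfl
  simp only [Finset.sum_range_succ, Finset.sum_range_zero, e0, e1, e2, e3, f0, f1, f2, f3] at h5
  simp only [zero_add, Nat.reduceAdd] at h5
  change _ ≤ (_ - _) - (c7 + 1024 / 10 ^ 7) * WW s at h5
  unfold p1E p2E p3E at h5
  have p0 : 0 ≤ ‖s 1 - s 0‖ ^ 2 := by positivity
  have p1 : 0 ≤ ‖s 2 - s 1‖ ^ 2 := by positivity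
  have p2 : 0 ≤ ‖s 3 - s 2‖ ^ 2 := by positivity
  have p3 : 0 ≤ ‖s 4 - s 3‖ ^ 2 := by positivity
  generalize WW s = W at *
  generalize ‖s 1 - s 0‖ ^ 2 = a at *
  generalize ‖s 2 - s 1‖ ^ 2 = b at *
  generalize ‖s 3 - s 2‖ ^ 2 = c at *
  generalize ‖s 4 - s 3‖ ^ 2 = d at *
  have q3 : 0 ≤ (1 / 160 - 1 / 640 - (c7 + 1024 / 10 ^ 7) / 16 - 11 * c6) * d := by
    apply mul_nonneg _ p3
    norm_num
    linarith
  generalize (∑' l : ℕ, pE r c4 c5 c6 c7 (l + 1) * ‖s (l + 1) - s l‖ ^ 2) = SE at *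
  generalize (∑' l : ℕ, pc (l + 1) * ‖s (l + 1) - s l‖ ^ 2) = SP at *
  norm_num at h5 q3 ⊢
  nlinarith [h5, q3, p0, p1, p2]

/-- the exact mode in the upper half plane -/
theorem up {B α s : ℕ → ℂ} (hB : BOK B) {A r c4 c5 c6 c7 : ℝ} (hs : ∀ i, ‖s i‖ ≤ 3 / 5)
    (hr : ‖s 0‖ ≤ r) (hr1 : r ≤ 9 / 25) (him : 1 / 8 ≤ (s 0).im)
    (hA : ∀ n, 5 ≤ n → ‖α n‖ ≤ A)
    (hc4 : 2 * ‖α 3‖ * r ^ 3 ≤ c4) (hc5 : 2 * ‖α 4‖ * r ^ 4 ≤ c5)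
    (hc6 : 2 * A * r ^ 5 * (3 / 5) ^ 8 ≤ c6) (hc6' : c6 ≤ 1 / 3000)
    (hc7 : 1600 * A * r ^ 6 * (3 / 5) ^ 13 ≤ c7) (hc7' : c7 ≤ 1 / 80)
    (hp1 : 0 < p1E r c4 c5 c6 c7) (hp2 : 0 < p2E r c4 c5 c6 c7) (hp3 : 0 < p3E r c5 c6 c7) :
    2 * (∑' n : ℕ, α (n + 2) * s 0 ^ ee (n + 2)).re
      - ∑' l : ℕ, ‖EE B α (s 0) (l + 1)‖ ^ 2 / pE r c4 c5 c6 c7 (l + 1)
      ≤ Rs B α s := by
  have hv0 : s 0 ≠ 0 := by
    intro h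
    rw [h, Complex.zero_im] at him
    linarith
  have hv1 : ‖s 0‖ ≤ 9 / 25 := hr.trans hr1
  have hv2 : 0 ≤ (s 0).im := by linarith
  obtain ⟨M, hM⟩ : ∃ M : ℝ, ∀ n, ‖α (n + 2)‖ ≤ M := by
    refine ⟨‖α 2‖ + ‖α 3‖ + ‖α 4‖ + A, fun n => ?_⟩
    have hA0 : 0 ≤ A := (norm_nonneg _).trans (hA 5 le_rfl)
    have a2 := norm_nonneg (α 2)
    have a3 := norm_nonneg (α 3)
    have a4 := norm_nonneg (α 4)
    rcases n with _ | _ | _ | k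
    · simp only [zero_add]
      linarith
    · simp only [zero_add, Nat.reduceAdd]
      linarith
    · simp only [zero_add, Nat.reduceAdd]
      linarith
    · have := hA (k + 1 + 1 + 1 + 2) (by omega)
      linarith
  have h1 := S2_le hs hv0 hr hr1 hM hA hc4 hc5 hc6 hc7
  have h2 := fold_total hB hs him
  have h3 := costs (s := s) hs (r := r) (c4 := c4) (c5 := c5) hc6' hc7'
  have h4 := expand hs hv0 hv1 hM
  have h5 := summable_EE hB hv2 hv1 hM r c4 c5 c6 c7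
  have h6 : Summable fun l : ℕ => pE r c4 c5 c6 c7 (l + 1) * ‖s (l + 1) - s l‖ ^ 2 :=
    summable_pd hs (pE r c4 c5 c6 c7) (1 / 40) fun k => rfl
  have h7 := summable_ED hs hv1 hM
  have h8 := summable_BD hB hs
  have h9 : HasSum (fun l => EE B α (s 0) (l + 1) * (s (l + 1) - s l))
      ((∑' l, E1 α (s 0) l * (s (l + 1) - s l)) - ∑' l, B (l + 1) * (s (l + 1) - s l)) := by
    have := h7.hasSum.sub h8.hasSum
    refine this.congr_fun ?_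
    intro l
    rw [EE_eq hv2]
    ring
  have h10 := hasSum_le (fun l => term_ge (pE_pos hp1 hp2 hp3 l)
    (rfl : ‖s (l + 1) - s l‖ = ‖s (l + 1) - s l‖)) h5.hasSum.neg
    (h6.hasSum.add ((Complex.hasSum_re h9).mul_left 2))
  rw [Rs, h4, Complex.add_re, Complex.add_re]
  rw [Complex.sub_re] at h10
  linarith

theorem conj_ee {α : ℕ → ℂ} (v : ℂ) : (∑' n : ℕ, conj (α (n + 2)) * conj v ^ ee (n + 2)) =
    conj (∑' n : ℕ, α (n + 2) * v ^ ee (n + 2)) := by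
  rw [Complex.conj_tsum]
  refine tsum_congr fun n => ?_
  rw [map_mul, map_pow]

theorem conj_EE {B α : ℕ → ℂ} {v : ℂ} (hv : v.im < 0) (l : ℕ) :
    EE B (fun n => conj (α n)) (conj v) l = conj (EE B α v l) := by
  have h1 : 0 ≤ (conj v).im := by
    rw [Complex.conj_im]
    linarith
  rw [EE, EE, Bs, Bs, if_pos h1, if_neg (not_le.2 hv), map_sub, Complex.conj_conj,
    Complex.conj_tsum]
  congr 1
  refine tsum_congr fun n => ?_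
  rw [map_mul, map_mul, map_pow, Complex.conj_natCast]

theorem shp_conj (z : ℂ) : shp (conj z) = shp z := by
  simp [shp]

theorem conj_mon (s : ℕ → ℂ) (n : ℕ) : mon (fun i => conj (s i)) n = conj (mon s n) := by
  rw [mon, mon, map_prod]
  exact Finset.prod_congr rfl fun i _ => by rw [map_pow]

theorem conj_Rs (B α s : ℕ → ℂ) :
    Rs B (fun n => conj (α n)) (fun i => conj (s i)) = Rs B α s := by
  have h1 : ∑' l : ℕ, pc (l + 1) * ‖conj (s (l + 1)) - conj (s l)‖ ^ 2 =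
      ∑' l : ℕ, pc (l + 1) * ‖s (l + 1) - s l‖ ^ 2 := by
    refine tsum_congr fun l => ?_
    rw [← map_sub, Complex.norm_conj]
  have h2 : ∑' n : ℕ, conj (α (n + 2)) * mon (fun i => conj (s i)) (n + 2) =
      conj (∑' n : ℕ, α (n + 2) * mon s (n + 2)) := by
    rw [Complex.conj_tsum]
    refine tsum_congr fun n => ?_
    rw [conj_mon, map_mul]
  rw [Rs, Rs, h1, h2, Complex.conj_re]
  simp only [shp_conj]

end ModeE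

/-- the exact mode. -/
theorem Rs_modeE {B α s : ℕ → ℂ} (hB : BOK B) {A r c4 c5 c6 c7 : ℝ} (hs : ∀ i, ‖s i‖ ≤ 3 / 5)
    (hr : ‖s 0‖ ≤ r) (hr1 : r ≤ 9 / 25) (him : 1 / 8 ≤ |(s 0).im|)
    (hA : ∀ n, 5 ≤ n → ‖α n‖ ≤ A)
    (hc4 : 2 * ‖α 3‖ * r ^ 3 ≤ c4) (hc5 : 2 * ‖α 4‖ * r ^ 4 ≤ c5)
    (hc6 : 2 * A * r ^ 5 * (3 / 5) ^ 8 ≤ c6) (hc6' : c6 ≤ 1 / 3000)
    (hc7 : 1600 * A * r ^ 6 * (3 / 5) ^ 13 ≤ c7) (hc7' : c7 ≤ 1 / 80)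
    (hp1 : 0 < p1E r c4 c5 c6 c7) (hp2 : 0 < p2E r c4 c5 c6 c7) (hp3 : 0 < p3E r c5 c6 c7) :
    2 * (∑' n : ℕ, α (n + 2) * s 0 ^ ee (n + 2)).re
      - ∑' l : ℕ, ‖EE B α (s 0) (l + 1)‖ ^ 2 / pE r c4 c5 c6 c7 (l + 1)
      ≤ Rs B α s := by
  rcases le_or_gt 0 (s 0).im with h | h
  · rw [abs_of_nonneg h] at him
    exact ModeE.up hB hs hr hr1 him hA hc4 hc5 hc6 hc6' hc7 hc7' hp1 hp2 hp3
  · rw [abs_of_neg h] at him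
    have h1 := ModeE.up (B := B) (α := fun n => conj (α n)) (s := fun i => conj (s i)) hB
      (fun i => by rw [Complex.norm_conj]; exact hs i) (by rw [Complex.norm_conj]; exact hr) hr1
      (by rw [Complex.conj_im]; exact him) (fun n hn => by rw [Complex.norm_conj]; exact hA n hn)
      (by rw [Complex.norm_conj]; exact hc4) (by rw [Complex.norm_conj]; exact hc5)
      hc6 hc6' hc7 hc7' hp1 hp2 hp3
    rw [ModeE.conj_Rs, ModeE.conj_ee, Complex.conj_re] at h1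
    simp only [ModeE.conj_EE h, Complex.norm_conj] at h1
    exact h1

end MaxTerm.PA
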