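import Pool.Agent.MaxTerm.PartA.ModeEB

/-!
# Part A, mode E: folding and the final assembly (upper half plane)
-/

open Filter Topology ComplexConjugate

namespace MaxTerm.PA.ModeE

/-- the amount of folding -/
noncomputable def Nf (z : ℂ) : ℝ := 2 * max 0 (-z.im)

theorem Nf_nonneg (z : ℂ) : 0 ≤ Nf z := by
  unfold Nf
  positivity

theorem shp_eq (z : ℂ) : shp z = z + (Nf z : ℂ) * Complex.I := by
  apply Complex.ext
  · simp [shp]
  · simp only [shp, Complex.add_im, Complex.mul_im, Complex.ofReal_re, Complex.I_im, mul_one,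
      Complex.ofReal_im, Complex.I_re, mul_zero, add_zero, Nf]
    rcases le_total 0 z.im with h | h
    · rw [abs_of_nonneg h, max_eq_left (by linarith)]
      ring
    · rw [abs_of_nonpos h, max_eq_right (by linarith)]
      ring

theorem Nf_le {v z : ℂ} (hv : 1 / 8 ≤ v.im) : Nf z ≤ 4 * ‖z - v‖ ^ 2 := by
  rcases le_total 0 z.im with h | h
  · rw [Nf, max_eq_left (by linarith), mul_zero]
    positivity
  · rw [Nf, max_eq_right (by linarith)]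
    have h1 : (z.im - v.im) ^ 2 ≤ ‖z - v‖ ^ 2 := by
      rw [← sq_abs (z.im - v.im), ← Complex.sub_im]
      exact pow_le_pow_left₀ (abs_nonneg _) (Complex.abs_im_le_norm _) 2
    nlinarith [sq_nonneg (z.im + v.im)]

theorem norm_shp (z : ℂ) : ‖shp z‖ = ‖z‖ := by
  rw [← sq_eq_sq₀ (norm_nonneg _) (norm_nonneg _), ← Complex.normSq_eq_norm_sq,
    ← Complex.normSq_eq_norm_sq, Complex.normSq_apply, Complex.normSq_apply]
  simp [shp]

theorem B2_le {B : ℕ → ℂ} (hB : BOK B) : ‖B 2‖ ≤ 64 / 100000 := by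
  have h1 : ‖B2c‖ ≤ 63 / 100000 := by
    rw [← sq_le_sq₀ (norm_nonneg _) (by norm_num), ← Complex.normSq_eq_norm_sq,
      Complex.normSq_apply]
    norm_num [B2c]
  have h2 : B 2 = (B 2 - B2c) + B2c := by ring
  rw [h2]
  refine (norm_add_le _ _).trans ?_
  have := hB.two
  linarith

theorem B1_im {B : ℕ → ℂ} (hB : BOK B) : 0 ≤ (B 1).im := by
  have h1 := (Complex.abs_im_le_norm _).trans hB.one
  rw [Complex.sub_im, abs_le] at h1
  have : B1c.im = 0.078288 := rfl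
  rw [this] at h1
  linarith [h1.1]

theorem B_le {B : ℕ → ℂ} (hB : BOK B) (l : ℕ) : ‖B (l + 1)‖ ≤ (1 / 2) ^ l := by
  rcases l with _ | _ | _ | k
  · have h1 : ‖B1c‖ ≤ 1 / 2 := by
      rw [← sq_le_sq₀ (norm_nonneg _) (by norm_num), ← Complex.normSq_eq_norm_sq,
        Complex.normSq_apply]
      norm_num [B1c]
    have h2 : B (0 + 1) = (B 1 - B1c) + B1c := by
      rw [zero_add]
      ring
    rw [h2]
    refine (norm_add_le _ _).trans ?_
    have := hB.one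
    norm_num
    linarith
  · have := B2_le hB
    norm_num
    linarith
  · have := hB.three
    norm_num
    linarith
  · have h := hB.rest (k + 4) (by omega)
    rw [Nat.add_sub_cancel] at h
    refine h.trans ?_
    calc (1 / 10 ^ 7 : ℝ) / 8 ^ k = 1 / 10 ^ 7 * (1 / 8) ^ k := by
          rw [one_div_pow]
          ring
      _ ≤ 1 / 8 * (1 / 2) ^ k := by
          apply mul_le_mul (by norm_num) _ (by positivity) (by norm_num)
          exact pow_le_pow_left₀ (by norm_num) (by norm_num) k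
      _ = (1 / 2) ^ (k + 1 + 1 + 1) := by ring

theorem summable_BD {B s : ℕ → ℂ} (hB : BOK B) (hs : ∀ i, ‖s i‖ ≤ 3 / 5) :
    Summable fun l => B (l + 1) * (s (l + 1) - s l) := by
  refine Summable.of_norm_bounded (summable_half.mul_right (6 / 5)) fun l => ?_
  rw [norm_mul]
  exact mul_le_mul (B_le hB l) (dd_le hs l) (norm_nonneg _) (by positivity)

theorem summable_ED {α s : ℕ → ℂ} {M : ℝ} (hs : ∀ i, ‖s i‖ ≤ 3 / 5) (hv : ‖s 0‖ ≤ 9 / 25)
    (hM : ∀ n, ‖α (n + 2)‖ ≤ M) : Summable fun l => E1 α (s 0) l * (s (l + 1) - s l) := by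
  have hM0 : 0 ≤ M := (norm_nonneg _).trans (hM 0)
  refine Summable.of_norm_bounded (summable_half.mul_left (2 * M * (6 / 5))) fun l => ?_
  rw [norm_mul]
  calc ‖E1 α (s 0) l‖ * ‖s (l + 1) - s l‖ ≤ (2 * M * (1 / 2) ^ l) * (6 / 5) :=
        mul_le_mul (E1_le hv hM l) (dd_le hs l) (norm_nonneg _) (by positivity)
    _ = _ := by ring

/-- the differences of the folding are small -/
theorem fold_diff {s : ℕ → ℂ} (hv : 1 / 8 ≤ (s 0).im) (l : ℕ) :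
    |Nf (s (l + 1)) - Nf (s l)| ≤ 4 * (∑ j ∈ Finset.range (l + 1), ‖s (j + 1) - s j‖) ^ 2 := by
  have tel : ∀ i, ‖s i - s 0‖ ≤ ∑ j ∈ Finset.range i, ‖s (j + 1) - s j‖ := fun i => by
    rw [← Finset.sum_range_sub]
    exact norm_sum_le _ _
  have h1 : Nf (s (l + 1)) ≤ 4 * (∑ j ∈ Finset.range (l + 1), ‖s (j + 1) - s j‖) ^ 2 := by
    refine (Nf_le hv).trans ?_
    have := pow_le_pow_left₀ (norm_nonneg _) (tel (l + 1)) 2
    linarith
  have h2 : Nf (s l) ≤ 4 * (∑ j ∈ Finset.range (l + 1), ‖s (j + 1) - s j‖) ^ 2 := by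
    refine (Nf_le hv).trans ?_
    have h3 : ‖s l - s 0‖ ≤ ∑ j ∈ Finset.range (l + 1), ‖s (j + 1) - s j‖ := by
      refine (tel l).trans ?_
      rw [Finset.sum_range_succ]
      have := norm_nonneg (s (l + 1) - s l)
      linarith
    have := pow_le_pow_left₀ (norm_nonneg _) h3 2
    linarith
  rw [abs_le]
  have h3 := Nf_nonneg (s (l + 1))
  have h4 := Nf_nonneg (s l)
  constructor <;> linarith

/-- the cost of folding -/
noncomputable def fc (s : ℕ → ℂ) : ℕ → ℝ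
  | 0 => 0
  | 1 => 768 / 100000 * ‖s 1 - s 0‖ ^ 2 + 1536 / 100000 * ‖s 2 - s 1‖ ^ 2
  | 2 => 72 / 100000 * (‖s 1 - s 0‖ ^ 2 + ‖s 2 - s 1‖ ^ 2 + ‖s 3 - s 2‖ ^ 2)
  | (k + 3) => 512 / 10 ^ 7 * WW s * (1 / 2) ^ k

theorem fc_hasSum (s : ℕ → ℂ) : HasSum (fc s)
    (768 / 100000 * ‖s 1 - s 0‖ ^ 2 + 1536 / 100000 * ‖s 2 - s 1‖ ^ 2 +
      72 / 100000 * (‖s 1 - s 0‖ ^ 2 + ‖s 2 - s 1‖ ^ 2 + ‖s 3 - s 2‖ ^ 2) +
      1024 / 10 ^ 7 * WW s) := by
  rw [← hasSum_nat_add_iff' 3]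
  have h := hasSum_geometric_two.mul_left (512 / 10 ^ 7 * WW s)
  simp only [Finset.sum_range_succ, Finset.sum_range_zero]
  have e : (fun n => fc s (n + 3)) = fun k => 512 / 10 ^ 7 * WW s * (1 / 2) ^ k := rfl
  have f0 : fc s 0 = 0 := rfl
  have f1 : fc s 1 = 768 / 100000 * ‖s 1 - s 0‖ ^ 2 + 1536 / 100000 * ‖s 2 - s 1‖ ^ 2 := rfl
  have f2 : fc s 2 = 72 / 100000 * (‖s 1 - s 0‖ ^ 2 + ‖s 2 - s 1‖ ^ 2 + ‖s 3 - s 2‖ ^ 2) := rfl
  rw [e, f0, f1, f2]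
  have ev : 768 / 100000 * ‖s 1 - s 0‖ ^ 2 + 1536 / 100000 * ‖s 2 - s 1‖ ^ 2 +
      72 / 100000 * (‖s 1 - s 0‖ ^ 2 + ‖s 2 - s 1‖ ^ 2 + ‖s 3 - s 2‖ ^ 2) +
      1024 / 10 ^ 7 * WW s - (0 + 0 + (768 / 100000 * ‖s 1 - s 0‖ ^ 2 +
      1536 / 100000 * ‖s 2 - s 1‖ ^ 2) +
      72 / 100000 * (‖s 1 - s 0‖ ^ 2 + ‖s 2 - s 1‖ ^ 2 + ‖s 3 - s 2‖ ^ 2)) =
      512 / 10 ^ 7 * WW s * 2 := by ring
  rw [ev]
  exact h

theorem fold_term {B s : ℕ → ℂ} (hB : BOK B) (hs : ∀ i, ‖s i‖ ≤ 3 / 5) (hv : 1 / 8 ≤ (s 0).im)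
    (l : ℕ) : (B (l + 1) * (shp (s (l + 1)) - shp (s l))).re ≤
      (B (l + 1) * (s (l + 1) - s l)).re + fc s l / 2 := by
  have e : (B (l + 1) * (shp (s (l + 1)) - shp (s l))).re =
      (B (l + 1) * (s (l + 1) - s l)).re - (B (l + 1)).im * (Nf (s (l + 1)) - Nf (s l)) := by
    rw [shp_eq, shp_eq]
    simp only [Complex.mul_re, Complex.sub_re, Complex.add_re, Complex.sub_im, Complex.add_im,
      Complex.mul_im, Complex.ofReal_re, Complex.ofReal_im, Complex.I_re, Complex.I_im]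
    ring
  rw [e]
  have hgen : -((B (l + 1)).im * (Nf (s (l + 1)) - Nf (s l))) ≤
      ‖B (l + 1)‖ * (4 * (∑ j ∈ Finset.range (l + 1), ‖s (j + 1) - s j‖) ^ 2) := by
    refine (neg_le_abs _).trans ?_
    rw [abs_mul]
    exact mul_le_mul (Complex.abs_im_le_norm _) (fold_diff hv l) (abs_nonneg _) (norm_nonneg _)
  rcases l with _ | _ | _ | k
  · have h0 : Nf (s 0) = 0 := by
      rw [Nf, max_eq_left (by linarith), mul_zero]
    have h1 : 0 ≤ (B (0 + 1)).im * (Nf (s (0 + 1)) - Nf (s 0)) := by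
      rw [h0, sub_zero]
      exact mul_nonneg (B1_im hB) (Nf_nonneg _)
    have h2 : fc s 0 = 0 := rfl
    rw [h2]
    linarith
  · have h1 : fc s (0 + 1) = 768 / 100000 * ‖s 1 - s 0‖ ^ 2 + 1536 / 100000 * ‖s 2 - s 1‖ ^ 2 := rfl
    have h2 : ∑ j ∈ Finset.range (0 + 1 + 1), ‖s (j + 1) - s j‖ = ‖s 1 - s 0‖ + ‖s 2 - s 1‖ := by
      simp [Finset.sum_range_succ]
    rw [h2] at hgen
    rw [h1]
    have h3 := B2_le hB
    have h4 : ‖B (0 + 1 + 1)‖ * (4 * (‖s 1 - s 0‖ + ‖s 2 - s 1‖) ^ 2) ≤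
        64 / 100000 * (4 * (‖s 1 - s 0‖ + ‖s 2 - s 1‖) ^ 2) :=
      mul_le_mul_of_nonneg_right h3 (by positivity)
    nlinarith [sq_nonneg (‖s 1 - s 0‖ - 2 * ‖s 2 - s 1‖)]
  · have h1 : fc s (0 + 1 + 1) =
        72 / 100000 * (‖s 1 - s 0‖ ^ 2 + ‖s 2 - s 1‖ ^ 2 + ‖s 3 - s 2‖ ^ 2) := rfl
    have h2 : ∑ j ∈ Finset.range (0 + 1 + 1 + 1), ‖s (j + 1) - s j‖ =
        ‖s 1 - s 0‖ + ‖s 2 - s 1‖ + ‖s 3 - s 2‖ := by
      simp [Finset.sum_range_succ]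
    rw [h2] at hgen
    rw [h1]
    have h3 := hB.three
    have h4 : ‖B (0 + 1 + 1 + 1)‖ * (4 * (‖s 1 - s 0‖ + ‖s 2 - s 1‖ + ‖s 3 - s 2‖) ^ 2) ≤
        3 / 100000 * (4 * (‖s 1 - s 0‖ + ‖s 2 - s 1‖ + ‖s 3 - s 2‖) ^ 2) :=
      mul_le_mul_of_nonneg_right h3 (by positivity)
    nlinarith [sq_nonneg (‖s 1 - s 0‖ - ‖s 2 - s 1‖), sq_nonneg (‖s 1 - s 0‖ - ‖s 3 - s 2‖),
      sq_nonneg (‖s 2 - s 1‖ - ‖s 3 - s 2‖)]
  · have h1 : fc s (k + 1 + 1 + 1) = 512 / 10 ^ 7 * WW s * (1 / 2) ^ k := rfl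
    rw [h1]
    have h2 := hB.rest (k + 1 + 1 + 1 + 1) (by omega)
    have h3 : k + 1 + 1 + 1 + 1 - 4 = k := by omega
    rw [h3] at h2
    have hW := WW_nonneg s
    have h4 : (∑ j ∈ Finset.range (k + 1 + 1 + 1 + 1), ‖s (j + 1) - s j‖) ^ 2 ≤
        ((k : ℝ) + 4) * (2 ^ (k + 4) * WW s) := by
      have h5 := sq_sum_le_card_mul_sum_sq (s := Finset.range (k + 1 + 1 + 1 + 1))
        (f := fun j => ‖s (j + 1) - s j‖)
      refine h5.trans ?_
      rw [Finset.card_range]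
      push_cast
      have h6 : (k : ℝ) + 1 + 1 + 1 + 1 = k + 4 := by ring
      rw [h6]
      apply mul_le_mul_of_nonneg_left _ (by positivity)
      calc ∑ j ∈ Finset.range (k + 1 + 1 + 1 + 1), ‖s (j + 1) - s j‖ ^ 2
          ≤ ∑ j ∈ Finset.range (k + 1 + 1 + 1 + 1),
              2 ^ (k + 4) * (‖s (j + 1) - s j‖ ^ 2 / 2 ^ (j + 1)) := by
            refine Finset.sum_le_sum fun j hj => ?_
            rw [Finset.mem_range] at hj
            have h7 : (2 : ℝ) ^ (j + 1) ≤ 2 ^ (k + 4) := pow_le_pow_right₀ (by norm_num) (by omega)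
            rw [mul_div_assoc', le_div_iff₀ (by positivity), mul_comm]
            exact mul_le_mul_of_nonneg_right h7 (by positivity)
        _ = 2 ^ (k + 4) * ∑ j ∈ Finset.range (k + 1 + 1 + 1 + 1),
              (‖s (j + 1) - s j‖ ^ 2 / 2 ^ (j + 1)) := by rw [Finset.mul_sum]
        _ ≤ 2 ^ (k + 4) * WW s := by
            apply mul_le_mul_of_nonneg_left _ (by positivity)
            exact (summable_W hs).sum_le_tsum _ fun l _ => by positivity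
    have h8 : ((k : ℝ) + 4) ≤ 4 * 2 ^ k := by
      have : k + 4 ≤ 4 * 2 ^ k := by
        have := Nat.lt_two_pow_self (n := k)
        omega
      exact_mod_cast this
    have h9 : ‖B (k + 1 + 1 + 1 + 1)‖ * (4 * (∑ j ∈ Finset.range (k + 1 + 1 + 1 + 1),
        ‖s (j + 1) - s j‖) ^ 2) ≤ 512 / 10 ^ 7 * WW s * (1 / 2) ^ k / 2 := by
      calc ‖B (k + 1 + 1 + 1 + 1)‖ * (4 * (∑ j ∈ Finset.range (k + 1 + 1 + 1 + 1),
            ‖s (j + 1) - s j‖) ^ 2)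
          ≤ (1 / 10 ^ 7) / 8 ^ k * (4 * ((4 * 2 ^ k) * (2 ^ (k + 4) * WW s))) := by
            gcongr
            exact h4.trans (mul_le_mul_of_nonneg_right h8 (by positivity))
        _ = 256 / 10 ^ 7 * WW s * ((2 : ℝ) ^ k * 2 ^ k / 8 ^ k) := by
            rw [pow_add (2 : ℝ) k 4]
            ring
        _ = 512 / 10 ^ 7 * WW s * (1 / 2) ^ k / 2 := by
            rw [← mul_pow, ← div_pow]
            norm_num
            ring
    linarith

theorem summable_Bshp {B s : ℕ → ℂ} (hB : BOK B) (hs : ∀ i, ‖s i‖ ≤ 3 / 5) :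
    Summable fun l => B (l + 1) * (shp (s (l + 1)) - shp (s l)) := by
  refine Summable.of_norm_bounded (summable_half.mul_right (6 / 5)) fun l => ?_
  rw [norm_mul]
  refine mul_le_mul (B_le hB l) ?_ (norm_nonneg _) (by positivity)
  refine (norm_sub_le _ _).trans ?_
  rw [norm_shp, norm_shp]
  linarith [hs l, hs (l + 1)]

theorem fold_total {B s : ℕ → ℂ} (hB : BOK B) (hs : ∀ i, ‖s i‖ ≤ 3 / 5) (hv : 1 / 8 ≤ (s 0).im) :
    2 * (∑' l, B (l + 1) * (shp (s (l + 1)) - shp (s l))).re ≤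
      2 * (∑' l, B (l + 1) * (s (l + 1) - s l)).re +
      (768 / 100000 * ‖s 1 - s 0‖ ^ 2 + 1536 / 100000 * ‖s 2 - s 1‖ ^ 2 +
      72 / 100000 * (‖s 1 - s 0‖ ^ 2 + ‖s 2 - s 1‖ ^ 2 + ‖s 3 - s 2‖ ^ 2) +
      1024 / 10 ^ 7 * WW s) := by
  have h1 := summable_Bshp hB hs
  have h2 := summable_BD hB hs
  have h3 := (fc_hasSum s)
  have h4 := (h3.div_const 2)
  rw [Complex.re_tsum h1, Complex.re_tsum h2]
  have h5 := ((Complex.hasSum_re h2.hasSum).add h4)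
  have h6 := hasSum_le (fun l => fold_term hB hs hv l) (Complex.hasSum_re h1.hasSum) h5
  rw [Complex.re_tsum h1, Complex.re_tsum h2] at h6
  linarith

end MaxTerm.PA.ModeE
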