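import Pool.Agent.MaxTerm.PartA.Core

/-!
# Part A: common lemmas for the three lower bounds of `Rs` (one sided functional)

Notation: `v = s 0`, `D l = s (l+1) - s l`, `X = 3/5`.
-/

open Filter Topology ComplexConjugate

namespace MaxTerm.PA

/-- weight of `D_l = s l - s (l-1)` in the first order expansion of `mon s n` around the constant
sequence: `g n l = (n-l)(n-l+1)/2` (`0` if `n ≤ l`). -/
def gw (n l : ℕ) : ℕ := (n - l) * (n - l + 1) / 2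

/-- total degree of `mon s n` -/
def ee (n : ℕ) : ℕ := n * (n + 1) / 2

/-- `E_l = ∑_{n ≥ 2} g n l * α n * v^(ee n - 1) - Bs v (B l)` -/
noncomputable def EE (B α : ℕ → ℂ) (v : ℂ) (l : ℕ) : ℂ :=
  (∑' n : ℕ, (gw (n + 2) l : ℂ) * α (n + 2) * v ^ (ee (n + 2) - 1)) - Bs v (B l)

/-- second order weights of `mon s 4` (`n = 4`), see `Rs_modeE` -/
noncomputable def K11 (r : ℝ) : ℝ :=
  ((3/5) ^ 4 + 2 * r * (3/5) ^ 3) + (3/2) * (3 * r ^ 2 * (3/5) ^ 2 + 3 * r ^ 3 * (3/5))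
    + 2 * (r ^ 3 * (3/5)) + 2 * (3 * r ^ 4) + (5/2) * (2 * r ^ 4)

noncomputable def K22 (r : ℝ) : ℝ :=
  (1/2) * (3 * r ^ 2 * (3/5) ^ 2 + 3 * r ^ 3 * (3/5)) + 2 * (r ^ 3 * (3/5))
    + (1/2) * (3 * r ^ 4) + (5/2) * (2 * r ^ 4)

noncomputable def K33 (r : ℝ) : ℝ := (1/2) * (3 * r ^ 4) + 2 * r ^ 4

/-- the three first constants of the exact mode -/
noncomputable def p1E (r c4 c5 c6 c7 : ℝ) : ℝ :=
  4 / 5 - c4 * (3 / 5 + 3 * r) - c5 * K11 r - 127 * c6 - c7 / 2 - 86 / 10000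

noncomputable def p2E (r c4 c5 c6 c7 : ℝ) : ℝ :=
  1 / 10 - c4 * r - c5 * K22 r - 53 * c6 - c7 / 4 - 163 / 10000

noncomputable def p3E (r c5 c6 c7 : ℝ) : ℝ :=
  1 / 80 - c5 * K33 r - 22 * c6 - c7 / 8 - 8 / 10000

/-- weights in the exact mode -/
noncomputable def pE (r c4 c5 c6 c7 : ℝ) : ℕ → ℝ
  | 0 => 1
  | 1 => p1E r c4 c5 c6 c7
  | 2 => p2E r c4 c5 c6 c7
  | 3 => p3E r c5 c6 c7
  | (l + 4) => (1 / 40) / 2 ^ (l + 4)

end MaxTerm.PA
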