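import Pool.Agent.MaxTerm.PartA.Modes

/-!
# Part A: common lemmas for the modes L and N

`Rs_ge`: everything except the linear and quadratic terms in `D 1`, `D 2` is estimated.
-/

open Filter Topology ComplexConjugate

namespace MaxTerm.PA

theorem mon_succ_eq (s : ℕ → ℂ) (n : ℕ) :
    mon s (n + 1) = s 0 ^ (n + 1) * mon (fun i => s (i + 1)) n := by
  unfold mon
  rw [Finset.prod_range_succ', mul_comm]
  simp only [Nat.sub_zero]
  congr 1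
  refine Finset.prod_congr rfl fun i _ => ?_
  rw [Nat.add_sub_add_right]

theorem norm_mon_le_X {s : ℕ → ℂ} (hs : ∀ i, ‖s i‖ ≤ 3 / 5) (n : ℕ) :
    ‖mon s n‖ ≤ (3 / 5) ^ (n * (n + 1) / 2) := by
  induction n generalizing s with
  | zero => simp [mon]
  | succ n ih =>
    rw [mon_succ_eq, norm_mul, norm_pow]
    have h1 : ‖s 0‖ ^ (n + 1) ≤ (3 / 5 : ℝ) ^ (n + 1) := pow_le_pow_left₀ (norm_nonneg _) (hs 0) _
    have h2 := ih (s := fun i => s (i + 1)) fun i => hs (i + 1)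
    have h3 : (n + 1) * (n + 1 + 1) / 2 = (n + 1) + n * (n + 1) / 2 := by
      have : (n + 1) * (n + 1 + 1) = 2 * (n + 1) + n * (n + 1) := by ring
      rw [this]
      omega
    rw [h3, pow_add (3 / 5 : ℝ)]
    exact mul_le_mul h1 h2 (norm_nonneg _) (by positivity)

theorem norm_mon_five_le {s : ℕ → ℂ} {r : ℝ} (hs : ∀ i, ‖s i‖ ≤ 3 / 5) (hr : ‖s 0‖ ≤ r)
    (hr1 : r ≤ 1) (n : ℕ) :
    ‖mon s (n + 5)‖ ≤ r ^ 5 * (3 / 5) ^ 10 * ((3 / 5) ^ 5) ^ n := by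
  have hr0 : 0 ≤ r := (norm_nonneg _).trans hr
  have e : n + 5 = (n + 4) + 1 := rfl
  rw [e, mon_succ_eq, norm_mul, norm_pow, mul_assoc]
  have h1 : ‖s 0‖ ^ (n + 4 + 1) ≤ r ^ 5 := by
    refine (pow_le_pow_left₀ (norm_nonneg _) hr _).trans ?_
    exact pow_le_pow_of_le_one hr0 hr1 (by omega)
  have h2 : ‖mon (fun i => s (i + 1)) (n + 4)‖ ≤ (3 / 5 : ℝ) ^ ((n + 4) * (n + 4 + 1) / 2) :=
    norm_mon_le_X (s := fun i => s (i + 1)) (fun i => hs (i + 1)) _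
  have h3 : (3 / 5 : ℝ) ^ ((n + 4) * (n + 4 + 1) / 2) ≤ (3 / 5) ^ 10 * ((3 / 5) ^ 5) ^ n := by
    rw [← pow_mul, ← pow_add]
    refine pow_le_pow_of_le_one (by norm_num) (by norm_num) ?_
    rw [Nat.le_div_iff_mul_le two_pos]
    nlinarith [Nat.zero_le n, Nat.le_self_pow (two_ne_zero) n]
  exact mul_le_mul h1 (h2.trans h3) (norm_nonneg _) (by positivity)

theorem summable_alpha_mon {α s : ℕ → ℂ} {A r : ℝ} (hs : ∀ i, ‖s i‖ ≤ 3 / 5)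
    (hr : ‖s 0‖ ≤ r) (hr1 : r ≤ 1) (hA : ∀ n, 5 ≤ n → ‖α n‖ ≤ A) :
    Summable fun n : ℕ => α (n + 2) * mon s (n + 2) := by
  rw [← summable_nat_add_iff 3]
  have h0 : Summable fun n : ℕ => A * (r ^ 5 * (3 / 5) ^ 10) * ((3 / 5 : ℝ) ^ 5) ^ n :=
    (summable_geometric_of_lt_one (by norm_num) (by norm_num)).mul_left _
  refine Summable.of_norm_bounded h0 fun n => ?_
  rw [norm_mul, mul_assoc]
  have hA0 : 0 ≤ A := (norm_nonneg _).trans (hA 5 le_rfl)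
  exact mul_le_mul (hA _ (by omega)) (norm_mon_five_le hs hr hr1 n) (norm_nonneg _) hA0

theorem norm_tail_le {α s : ℕ → ℂ} {A r : ℝ} (hs : ∀ i, ‖s i‖ ≤ 3 / 5)
    (hr : ‖s 0‖ ≤ r) (hr1 : r ≤ 1) (hA : ∀ n, 5 ≤ n → ‖α n‖ ≤ A) :
    ‖∑' n : ℕ, α (n + 3 + 2) * mon s (n + 3 + 2)‖ ≤ 11 / 10 * A * r ^ 5 * (3 / 5) ^ 10 := by
  have hA0 : 0 ≤ A := (norm_nonneg _).trans (hA 5 le_rfl)
  have hr0 : 0 ≤ r := (norm_nonneg _).trans hr
  have h0 : HasSum (fun n : ℕ => A * (r ^ 5 * (3 / 5) ^ 10) * ((3 / 5 : ℝ) ^ 5) ^ n)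
      (A * (r ^ 5 * (3 / 5) ^ 10) * (1 - (3 / 5 : ℝ) ^ 5)⁻¹) :=
    (hasSum_geometric_of_lt_one (by norm_num) (by norm_num)).mul_left _
  refine (tsum_of_norm_bounded h0 fun n => ?_).trans ?_
  · rw [norm_mul, mul_assoc]
    exact mul_le_mul (hA _ (by omega)) (norm_mon_five_le hs hr hr1 n) (norm_nonneg _) hA0
  · have h1 : (1 - (3 / 5 : ℝ) ^ 5)⁻¹ ≤ 11 / 10 := by norm_num
    have h2 : 0 ≤ A * (r ^ 5 * (3 / 5) ^ 10) := by positivity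
    nlinarith

theorem two_re_series_ge {α s : ℕ → ℂ} {A r : ℝ} (hs : ∀ i, ‖s i‖ ≤ 3 / 5)
    (hr : ‖s 0‖ ≤ r) (hr1 : r ≤ 1) (hA : ∀ n, 5 ≤ n → ‖α n‖ ≤ A) :
    2 * (α 2 * (s 0 ^ 2 * s 1)).re + 2 * (α 3 * (s 0 ^ 3 * s 1 ^ 2 * s 2)).re
      - 2 * ‖α 4‖ * ‖s 0 ^ 4 * s 1 ^ 3 * s 2 ^ 2 * s 3‖ - 11 / 5 * A * r ^ 5 * (3 / 5) ^ 10
      ≤ 2 * (∑' n : ℕ, α (n + 2) * mon s (n + 2)).re := by
  have h1 := (summable_alpha_mon hs hr hr1 hA).sum_add_tsum_nat_add 3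
  rw [← h1, Finset.sum_range_succ, Finset.sum_range_succ, Finset.sum_range_one]
  have h2 := norm_tail_le hs hr hr1 hA
  have h3 := (abs_le.1 ((Complex.abs_re_le_norm
    (∑' n : ℕ, α (n + 3 + 2) * mon s (n + 3 + 2))).trans h2)).1
  have m2 : mon s (0 + 2) = s 0 ^ 2 * s 1 := by
    simp [mon, Finset.prod_range_succ]
  have m3 : mon s (1 + 2) = s 0 ^ 3 * s 1 ^ 2 * s 2 := by
    simp [mon, Finset.prod_range_succ]
  have m4 : mon s (2 + 2) = s 0 ^ 4 * s 1 ^ 3 * s 2 ^ 2 * s 3 := by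
    simp [mon, Finset.prod_range_succ]
  rw [m2, m3, m4]
  have h4 : -(‖α 4‖ * ‖s 0 ^ 4 * s 1 ^ 3 * s 2 ^ 2 * s 3‖) ≤
      (α (2 + 2) * (s 0 ^ 4 * s 1 ^ 3 * s 2 ^ 2 * s 3)).re := by
    rw [← norm_mul]
    exact (abs_le.1 (Complex.abs_re_le_norm _)).1
  simp only [Complex.add_re]
  have e2 : α (0 + 2) = α 2 := rfl
  have e3 : α (1 + 2) = α 3 := rfl
  rw [e2, e3]
  linarith

theorem norm_shp_sub_le (z w : ℂ) : ‖shp z - shp w‖ ≤ ‖z - w‖ := by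
  have h : |(|z.im| - |w.im|)| ≤ |z.im - w.im| := abs_abs_sub_abs_le z.im w.im
  rw [Complex.norm_eq_sqrt_sq_add_sq, Complex.norm_eq_sqrt_sq_add_sq]
  refine Real.sqrt_le_sqrt ?_
  have h1 : (shp z - shp w).re = z.re - w.re := rfl
  have h2 : (shp z - shp w).im = |z.im| - |w.im| := rfl
  have h3 : (z - w).re = z.re - w.re := rfl
  have h4 : (z - w).im = z.im - w.im := rfl
  rw [h1, h2, h3, h4]
  have := sq_le_sq.2 h
  linarith

theorem norm_step_le {s : ℕ → ℂ} (hs : ∀ i, ‖s i‖ ≤ 3 / 5) (i : ℕ) :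
    ‖s (i + 1) - s i‖ ≤ 6 / 5 := by
  have := norm_sub_le (s (i + 1)) (s i)
  have := hs i
  have := hs (i + 1)
  linarith

/-- folding of the coefficient `B 1` costs nothing -/
theorem fold_one {b v s₁ : ℂ} (hb : 0 ≤ b.im) :
    (b * (shp s₁ - shp v)).re ≤ (Bs v b * (s₁ - v)).re := by
  unfold Bs
  have h1 : (b * (shp s₁ - shp v)).re = b.re * (s₁.re - v.re) - b.im * (|s₁.im| - |v.im|) := by
    rw [Complex.mul_re]
    rfl
  rw [h1]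
  split_ifs with h
  · rw [abs_of_nonneg h, Complex.mul_re, Complex.sub_re, Complex.sub_im]
    have := mul_le_mul_of_nonneg_left (le_abs_self s₁.im) hb
    nlinarith
  · rw [abs_of_neg (not_le.1 h), Complex.mul_re, Complex.sub_re, Complex.sub_im, Complex.conj_re,
      Complex.conj_im]
    have := mul_le_mul_of_nonneg_left (neg_abs_le s₁.im) hb
    nlinarith

theorem BOK.im_one_nonneg {B : ℕ → ℂ} (hB : BOK B) : 0 ≤ (B 1).im := by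
  have h1 := (abs_le.1 ((Complex.abs_im_le_norm (B 1 - B1c)).trans hB.one)).1
  have h2 : (B 1 - B1c).im = (B 1).im - 0.078288 := rfl
  rw [h2] at h1
  norm_num at h1
  linarith

theorem BOK.norm_two_le {B : ℕ → ℂ} (hB : BOK B) : ‖B 2‖ ≤ 64 / 100000 := by
  have h1 : ‖B 2‖ ≤ ‖B 2 - B2c‖ + ‖B2c‖ := by
    have := norm_add_le (B 2 - B2c) B2c
    rwa [sub_add_cancel] at this
  have h2 : ‖B2c‖ ≤ 63 / 100000 := by
    rw [Complex.norm_eq_sqrt_sq_add_sq]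
    refine Real.sqrt_le_iff.2 ⟨by norm_num, ?_⟩
    change (0.000013 : ℝ) ^ 2 + (-0.000627) ^ 2 ≤ _
    norm_num
  have := hB.two
  linarith

theorem summable_B {B s : ℕ → ℂ} (hB : BOK B) (hs : ∀ i, ‖s i‖ ≤ 3 / 5) :
    Summable fun l : ℕ => B (l + 1) * (shp (s (l + 1)) - shp (s l)) := by
  rw [← summable_nat_add_iff 3]
  have h0 : Summable fun n : ℕ => (1 / 10 ^ 7 * (6 / 5)) * (1 / 8 : ℝ) ^ n :=
    (summable_geometric_of_lt_one (by norm_num) (by norm_num)).mul_left _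
  refine Summable.of_norm_bounded h0 fun n => ?_
  rw [norm_mul]
  have h1 := hB.rest (n + 3 + 1) (by omega)
  have e : n + 3 + 1 - 4 = n := by omega
  rw [e] at h1
  have h2 := (norm_shp_sub_le (s (n + 3 + 1)) (s (n + 3))).trans (norm_step_le hs (n + 3))
  calc _ ≤ 1 / 10 ^ 7 / 8 ^ n * (6 / 5 : ℝ) := mul_le_mul h1 h2 (norm_nonneg _) (by positivity)
    _ = _ := by rw [one_div_pow]; ring

theorem norm_tail_B {B s : ℕ → ℂ} (hB : BOK B) (hs : ∀ i, ‖s i‖ ≤ 3 / 5) :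
    ‖∑' l : ℕ, B (l + 3 + 1) * (shp (s (l + 3 + 1)) - shp (s (l + 3)))‖ ≤ 15 / 10 ^ 8 := by
  have h0 : HasSum (fun n : ℕ => (1 / 10 ^ 7 * (6 / 5)) * (1 / 8 : ℝ) ^ n)
      ((1 / 10 ^ 7 * (6 / 5)) * (1 - 1 / 8 : ℝ)⁻¹) :=
    (hasSum_geometric_of_lt_one (by norm_num) (by norm_num)).mul_left _
  refine (tsum_of_norm_bounded h0 fun n => ?_).trans (by norm_num)
  rw [norm_mul]
  have h1 := hB.rest (n + 3 + 1) (by omega)
  have e : n + 3 + 1 - 4 = n := by omega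
  rw [e] at h1
  have h2 := (norm_shp_sub_le (s (n + 3 + 1)) (s (n + 3))).trans (norm_step_le hs (n + 3))
  calc _ ≤ 1 / 10 ^ 7 / 8 ^ n * (6 / 5 : ℝ) := mul_le_mul h1 h2 (norm_nonneg _) (by positivity)
    _ = _ := by rw [one_div_pow]; ring

theorem re_B_series_le {B s : ℕ → ℂ} (hB : BOK B) (hs : ∀ i, ‖s i‖ ≤ 3 / 5) :
    2 * (∑' l : ℕ, B (l + 1) * (shp (s (l + 1)) - shp (s l))).re ≤
      2 * (Bs (s 0) (B 1) * (s 1 - s 0)).re + 2 * (64 / 100000) * ‖s 2 - s 1‖ + 75 / 1000000 := by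
  rw [← (summable_B hB hs).sum_add_tsum_nat_add 3, Finset.sum_range_succ, Finset.sum_range_succ,
    Finset.sum_range_one]
  have h1 := (abs_le.1 ((Complex.abs_re_le_norm
    (∑' l : ℕ, B (l + 3 + 1) * (shp (s (l + 3 + 1)) - shp (s (l + 3))))).trans
    (norm_tail_B hB hs))).2
  have h2 : (B (0 + 1) * (shp (s (0 + 1)) - shp (s 0))).re ≤ (Bs (s 0) (B 1) * (s 1 - s 0)).re :=
    fold_one hB.im_one_nonneg
  have h3 : (B (1 + 1) * (shp (s (1 + 1)) - shp (s 1))).re ≤ 64 / 100000 * ‖s 2 - s 1‖ := by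
    refine (Complex.re_le_norm _).trans ?_
    rw [norm_mul]
    exact mul_le_mul hB.norm_two_le (norm_shp_sub_le _ _) (norm_nonneg _) (by norm_num)
  have h4 : (B (2 + 1) * (shp (s (2 + 1)) - shp (s 2))).re ≤ 3 / 100000 * (6 / 5) := by
    refine (Complex.re_le_norm _).trans ?_
    rw [norm_mul]
    exact mul_le_mul hB.three ((norm_shp_sub_le _ _).trans (norm_step_le hs 2)) (norm_nonneg _)
      (by norm_num)
  simp only [Complex.add_re]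
  linarith

theorem summable_pc {s : ℕ → ℂ} (hs : ∀ i, ‖s i‖ ≤ 3 / 5) :
    Summable fun l : ℕ => pc (l + 1) * ‖s (l + 1) - s l‖ ^ 2 := by
  rw [← summable_nat_add_iff 2]
  have h0 : Summable fun n : ℕ => (1 / 80 * (6 / 5) ^ 2) * (1 / 2 : ℝ) ^ n :=
    (summable_geometric_of_lt_one (by norm_num) (by norm_num)).mul_left _
  refine Summable.of_nonneg_of_le (fun n => ?_) (fun n => ?_) h0
  · have : pc (n + 2 + 1) = (1 / 10) / 2 ^ (n + 3) := rfl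
    rw [this]
    positivity
  · have : pc (n + 2 + 1) = (1 / 10) / 2 ^ (n + 3) := rfl
    rw [this]
    have h1 : ‖s (n + 2 + 1) - s (n + 2)‖ ^ 2 ≤ (6 / 5 : ℝ) ^ 2 :=
      pow_le_pow_left₀ (norm_nonneg _) (norm_step_le hs _) 2
    calc _ ≤ (1 / 10) / 2 ^ (n + 3) * (6 / 5 : ℝ) ^ 2 :=
          mul_le_mul_of_nonneg_left h1 (by positivity)
      _ = _ := by rw [one_div_pow, pow_add]; ring

theorem pc_series_ge {s : ℕ → ℂ} (hs : ∀ i, ‖s i‖ ≤ 3 / 5) :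
    4 / 5 * ‖s 1 - s 0‖ ^ 2 + 1 / 10 * ‖s 2 - s 1‖ ^ 2 ≤
      ∑' l : ℕ, pc (l + 1) * ‖s (l + 1) - s l‖ ^ 2 := by
  have h := (summable_pc hs).sum_le_tsum (Finset.range 2) (fun l _ => ?_)
  · rw [Finset.sum_range_succ, Finset.sum_range_one] at h
    exact h
  · refine mul_nonneg ?_ (by positivity)
    rcases l with _ | _ | l
    · change (0 : ℝ) ≤ 4 / 5
      norm_num
    · change (0 : ℝ) ≤ 1 / 10
      norm_num
    · change (0 : ℝ) ≤ (1 / 10) / 2 ^ (l + 3)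
      positivity

/-- everything except the linear and quadratic terms in `D 1`, `D 2` is estimated -/
theorem Rs_ge {B α s : ℕ → ℂ} (hB : BOK B) {A r : ℝ} (hs : ∀ i, ‖s i‖ ≤ 3 / 5)
    (hr : ‖s 0‖ ≤ r) (hr1 : r ≤ 1) (hA : ∀ n, 5 ≤ n → ‖α n‖ ≤ A) :
    4 / 5 * ‖s 1 - s 0‖ ^ 2 + 1 / 10 * ‖s 2 - s 1‖ ^ 2
      + 2 * (α 2 * (s 0 ^ 2 * s 1)).re + 2 * (α 3 * (s 0 ^ 3 * s 1 ^ 2 * s 2)).re
      - 2 * ‖α 4‖ * ‖s 0 ^ 4 * s 1 ^ 3 * s 2 ^ 2 * s 3‖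
      - 2 * (Bs (s 0) (B 1) * (s 1 - s 0)).re - 2 * (64 / 100000) * ‖s 2 - s 1‖
      - (11 / 5 * A * r ^ 5 * (3 / 5) ^ 10 + 75 / 1000000) ≤ Rs B α s := by
  have h1 := two_re_series_ge hs hr hr1 hA
  have h2 := re_B_series_le hB hs
  have h3 := pc_series_ge hs
  unfold Rs
  linarith

/-- completing the square -/
theorem square_ge {p F d : ℝ} (hp : 0 < p) : -(F ^ 2 / p) ≤ p * d ^ 2 - 2 * F * d := by
  have h : p * d ^ 2 - 2 * F * d + F ^ 2 / p = (p * d - F) ^ 2 / p := by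
    field_simp
    ring
  have h2 : 0 ≤ (p * d - F) ^ 2 / p := by positivity
  linarith

end MaxTerm.PA
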