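import Pool.Agent.MaxTerm.PartA.NearDefs
import Pool.Agent.MaxTerm.PartA.WinId

/-!
# Part A, near region: crude numerical bounds of the moments on the near box (for `NearMain`)
-/

open Filter Topology ComplexConjugate

namespace MaxTerm.PA

/-! ### truncation of `half` for a constant sequence -/

/-- truncated half window function -/
noncomputable def nmP (v w : ℂ) : ℂ := w + v * w ^ 3 + v ^ 3 * w ^ 5 + v ^ 6 * w ^ 7

theorem nm_mon (v : ℂ) (n : ℕ) : mon (fun _ => v) n = v ^ ee n := by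
  unfold mon ee
  rw [Finset.prod_pow_eq_pow_sum]
  congr 1
  have h1 : ∑ i ∈ Finset.range n, (n - i) = ∑ i ∈ Finset.range n, (i + 1) := by
    rw [← Finset.sum_range_reflect]
    refine Finset.sum_congr rfl fun i hi => ?_
    have := Finset.mem_range.1 hi
    omega
  have h2 := Finset.sum_range_id_mul_two (n + 1)
  rw [h1]
  have h3 : ∑ i ∈ Finset.range n, (i + 1) = ∑ i ∈ Finset.range (n + 1), i := by
    rw [Finset.sum_range_succ']; simp
  rw [h3]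
  rw [Nat.add_sub_cancel] at h2
  rw [Nat.mul_comm n (n + 1), ← h2]
  simp

theorem nm_ee_ge (n : ℕ) : 10 + n ≤ ee (n + 4) := by
  unfold ee
  have : (10 + n) * 2 ≤ (n + 4) * (n + 4 + 1) := by nlinarith
  omega

theorem nm_half {v w : ℂ} (hv : ‖v‖ ≤ 2835 / 10000) (hw : ‖w‖ = 1) :
    ‖half (fun _ => v) w - nmP v w‖ ≤ 5 / 10 ^ 6 := by
  have hs : Summable fun n : ℕ => mon (fun _ => v) n * w ^ (2 * n + 1) :=
    wi_summable_mon (fun _ => hv.trans (by norm_num)) hw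
  have h1 := hs.sum_add_tsum_nat_add 4
  have h2 : half (fun _ => v) w - nmP v w =
      ∑' n : ℕ, mon (fun _ => v) (n + 4) * w ^ (2 * (n + 4) + 1) := by
    unfold half
    rw [← h1]
    simp only [Finset.sum_range_succ, Finset.range_zero, Finset.sum_empty, nm_mon, nmP]
    norm_num [ee]
  rw [h2]
  have hg : HasSum (fun n : ℕ => (2835 / 10000 : ℝ) ^ 10 * (2835 / 10000 : ℝ) ^ n)
      ((2835 / 10000 : ℝ) ^ 10 * (1 - 2835 / 10000)⁻¹) :=
    (hasSum_geometric_of_lt_one (by norm_num) (by norm_num)).mul_left _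
  refine (tsum_of_norm_bounded hg fun n => ?_).trans (by norm_num)
  rw [norm_mul, norm_pow, hw, one_pow, mul_one, nm_mon, norm_pow, ← pow_add]
  calc ‖v‖ ^ ee (n + 4) ≤ (2835 / 10000 : ℝ) ^ ee (n + 4) :=
        pow_le_pow_left₀ (norm_nonneg _) hv _
    _ ≤ (2835 / 10000 : ℝ) ^ (10 + n) :=
        pow_le_pow_of_le_one (by norm_num) (by norm_num) (nm_ee_ge n)

/-! ### Lipschitz bounds -/

theorem nm_pow {a b : ℂ} {R : ℝ} (ha : ‖a‖ ≤ R) (hb : ‖b‖ ≤ R) (n : ℕ) :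
    ‖a ^ (n + 1) - b ^ (n + 1)‖ ≤ (n + 1) * R ^ n * ‖a - b‖ := by
  have hR : 0 ≤ R := (norm_nonneg _).trans ha
  induction n with
  | zero => simp
  | succ n ih =>
    have e : a ^ (n + 1 + 1) - b ^ (n + 1 + 1) =
        a ^ (n + 1) * (a - b) + (a ^ (n + 1) - b ^ (n + 1)) * b := by ring
    rw [e]
    refine (norm_add_le _ _).trans ?_
    rw [norm_mul, norm_mul, norm_pow]
    have h1 : ‖a‖ ^ (n + 1) ≤ R ^ (n + 1) := pow_le_pow_left₀ (norm_nonneg _) ha _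
    have h2 := mul_le_mul_of_nonneg_right h1 (norm_nonneg (a - b))
    have h3 : ‖a ^ (n + 1) - b ^ (n + 1)‖ * ‖b‖ ≤ (n + 1) * R ^ n * ‖a - b‖ * R :=
      mul_le_mul ih hb (norm_nonneg _) (by positivity)
    push_cast
    calc ‖a‖ ^ (n + 1) * ‖a - b‖ + ‖a ^ (n + 1) - b ^ (n + 1)‖ * ‖b‖
        ≤ R ^ (n + 1) * ‖a - b‖ + (n + 1) * R ^ n * ‖a - b‖ * R := add_le_add h2 h3
      _ = (n + 1 + 1) * R ^ (n + 1) * ‖a - b‖ := by ring

theorem nm_P_left {v v' w : ℂ} (hv : ‖v‖ ≤ 2835 / 10000) (hv' : ‖v'‖ ≤ 2835 / 10000)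
    (hw : ‖w‖ = 1) : ‖nmP v w - nmP v' w‖ ≤ 1253 / 1000 * ‖v - v'‖ := by
  have e : nmP v w - nmP v' w =
      (v - v') * w ^ 3 + (v ^ 3 - v' ^ 3) * w ^ 5 + (v ^ 6 - v' ^ 6) * w ^ 7 := by
    unfold nmP; ring
  rw [e]
  have h3 := nm_pow hv hv' 2
  have h6 := nm_pow hv hv' 5
  have n1 : ‖(v - v') * w ^ 3‖ = ‖v - v'‖ := by rw [norm_mul, norm_pow, hw]; simp
  have n2 : ‖(v ^ 3 - v' ^ 3) * w ^ 5‖ = ‖v ^ 3 - v' ^ 3‖ := by rw [norm_mul, norm_pow, hw]; simp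
  have n3 : ‖(v ^ 6 - v' ^ 6) * w ^ 7‖ = ‖v ^ 6 - v' ^ 6‖ := by rw [norm_mul, norm_pow, hw]; simp
  have t := norm_add₃_le (a := (v - v') * w ^ 3) (b := (v ^ 3 - v' ^ 3) * w ^ 5)
    (c := (v ^ 6 - v' ^ 6) * w ^ 7)
  rw [n1, n2, n3] at t
  norm_num at h3 h6
  have := norm_nonneg (v - v')
  linarith

theorem nm_P_right {v w w' : ℂ} (hv : ‖v‖ ≤ 2835 / 10000) (hw : ‖w‖ ≤ 1) (hw' : ‖w'‖ ≤ 1) :
    ‖nmP v w - nmP v w'‖ ≤ 197 / 100 * ‖w - w'‖ := by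
  have e : nmP v w - nmP v w' =
      (w - w') + v * (w ^ 3 - w' ^ 3) + (v ^ 3 * (w ^ 5 - w' ^ 5) + v ^ 6 * (w ^ 7 - w' ^ 7)) := by
    unfold nmP; ring
  rw [e]
  have h3 := nm_pow hw hw' 2
  have h5 := nm_pow hw hw' 4
  have h7 := nm_pow hw hw' 6
  norm_num only at h3 h5 h7
  have hv0 := norm_nonneg v
  have hd := norm_nonneg (w - w')
  have v3 : ‖v‖ ^ 3 ≤ (2835 / 10000 : ℝ) ^ 3 := pow_le_pow_left₀ hv0 hv _
  have v6 : ‖v‖ ^ 6 ≤ (2835 / 10000 : ℝ) ^ 6 := pow_le_pow_left₀ hv0 hv _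
  have n1 : ‖v * (w ^ 3 - w' ^ 3)‖ ≤ 2835 / 10000 * (3 * ‖w - w'‖) := by
    rw [norm_mul]; exact mul_le_mul hv h3 (norm_nonneg _) (by norm_num)
  have n2 : ‖v ^ 3 * (w ^ 5 - w' ^ 5)‖ ≤ (2835 / 10000 : ℝ) ^ 3 * (5 * ‖w - w'‖) := by
    rw [norm_mul, norm_pow]; exact mul_le_mul v3 h5 (norm_nonneg _) (by norm_num)
  have n3 : ‖v ^ 6 * (w ^ 7 - w' ^ 7)‖ ≤ (2835 / 10000 : ℝ) ^ 6 * (7 * ‖w - w'‖) := by
    rw [norm_mul, norm_pow]; exact mul_le_mul v6 h7 (norm_nonneg _) (by norm_num)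
  have t := norm_add₃_le (a := w - w') (b := v * (w ^ 3 - w' ^ 3))
    (c := v ^ 3 * (w ^ 5 - w' ^ 5) + v ^ 6 * (w ^ 7 - w' ^ 7))
  have t2 := norm_add_le (v ^ 3 * (w ^ 5 - w' ^ 5)) (v ^ 6 * (w ^ 7 - w' ^ 7))
  linarith

theorem nm_sym {z : ℂ} (hz : ‖z‖ = 1) (n : ℕ) :
    ‖z ^ (n + 1) + conj z ^ (n + 1) - 2‖ ≤ ((n + 1) * ‖z - 1‖) ^ 2 := by
  set y := z ^ (n + 1) with hy
  have hy1 : ‖y‖ = 1 := by rw [hy, norm_pow, hz, one_pow]
  rw [← map_pow, ← hy]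
  have h1 : y + conj y - 2 = ((-(‖y - 1‖ ^ 2) : ℝ) : ℂ) := by
    have h2 : ‖y - 1‖ ^ 2 = 2 - 2 * y.re := by
      have h3 : ‖y‖ ^ 2 = 1 := by rw [hy1]; norm_num
      rw [Complex.sq_norm, Complex.normSq_apply] at h3 ⊢
      simp only [Complex.sub_re, Complex.sub_im, Complex.one_re, Complex.one_im]
      nlinarith
    rw [h2, Complex.add_conj]
    push_cast
    ring
  rw [h1, Complex.norm_real, norm_neg, Real.norm_eq_abs, abs_of_nonneg (sq_nonneg _)]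
  refine pow_le_pow_left₀ (norm_nonneg _) ?_ 2
  have := nm_pow (a := z) (b := 1) (R := 1) hz.le (by simp) n
  rw [one_pow, one_pow, mul_one, ← hy] at this
  exact this

theorem nm_P_one {v w : ℂ} (hv : ‖v‖ ≤ 2835 / 10000) (hw : ‖w‖ = 1) :
    ‖nmP v w + nmP v (conj w) - (nmP v 1 + nmP v 1)‖ ≤ 415 / 100 * ‖w - 1‖ ^ 2 := by
  have e : nmP v w + nmP v (conj w) - (nmP v 1 + nmP v 1) =
      (w ^ (0 + 1) + conj w ^ (0 + 1) - 2) + v * (w ^ (2 + 1) + conj w ^ (2 + 1) - 2) +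
      (v ^ 3 * (w ^ (4 + 1) + conj w ^ (4 + 1) - 2) +
        v ^ 6 * (w ^ (6 + 1) + conj w ^ (6 + 1) - 2)) := by
    unfold nmP; ring
  rw [e]
  have h1 := nm_sym hw 0
  have h3 := nm_sym hw 2
  have h5 := nm_sym hw 4
  have h7 := nm_sym hw 6
  have hv0 := norm_nonneg v
  have hd := sq_nonneg ‖w - 1‖
  have v3 : ‖v‖ ^ 3 ≤ (2835 / 10000 : ℝ) ^ 3 := pow_le_pow_left₀ hv0 hv _
  have v6 : ‖v‖ ^ 6 ≤ (2835 / 10000 : ℝ) ^ 6 := pow_le_pow_left₀ hv0 hv _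
  have n1 : ‖v * (w ^ (2 + 1) + conj w ^ (2 + 1) - 2)‖ ≤ 2835 / 10000 * (9 * ‖w - 1‖ ^ 2) := by
    rw [norm_mul]
    refine mul_le_mul hv (h3.trans (le_of_eq ?_)) (norm_nonneg _) (by norm_num)
    push_cast; ring
  have n2 : ‖v ^ 3 * (w ^ (4 + 1) + conj w ^ (4 + 1) - 2)‖ ≤
      (2835 / 10000 : ℝ) ^ 3 * (25 * ‖w - 1‖ ^ 2) := by
    rw [norm_mul, norm_pow]
    refine mul_le_mul v3 (h5.trans (le_of_eq ?_)) (norm_nonneg _) (by norm_num)
    push_cast; ring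
  have n3 : ‖v ^ 6 * (w ^ (6 + 1) + conj w ^ (6 + 1) - 2)‖ ≤
      (2835 / 10000 : ℝ) ^ 6 * (49 * ‖w - 1‖ ^ 2) := by
    rw [norm_mul, norm_pow]
    refine mul_le_mul v6 (h7.trans (le_of_eq ?_)) (norm_nonneg _) (by norm_num)
    push_cast; ring
  have t := norm_add₃_le (a := w ^ (0 + 1) + conj w ^ (0 + 1) - 2)
    (b := v * (w ^ (2 + 1) + conj w ^ (2 + 1) - 2))
    (c := v ^ 3 * (w ^ (4 + 1) + conj w ^ (4 + 1) - 2) +
        v ^ 6 * (w ^ (6 + 1) + conj w ^ (6 + 1) - 2))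
  have t2 := norm_add_le (v ^ 3 * (w ^ (4 + 1) + conj w ^ (4 + 1) - 2))
    (v ^ 6 * (w ^ (6 + 1) + conj w ^ (6 + 1) - 2))
  have h1' : ‖w ^ (0 + 1) + conj w ^ (0 + 1) - 2‖ ≤ ‖w - 1‖ ^ 2 := by
    refine h1.trans (le_of_eq ?_)
    push_cast; ring
  linarith

/-! ### exact powers of the numerical centres -/

theorem nm_mk_mul (a b c d x y : ℝ) (hx : a * c - b * d = x) (hy : a * d + b * c = y) :
    (⟨a, b⟩ : ℂ) * ⟨c, d⟩ = ⟨x, y⟩ := by
  rw [← hx, ← hy]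
  apply Complex.ext <;> simp

theorem nm_q2 : qc ^ 2 = ⟨-4236979627533213 / 781250000000000000, -195887793242962757 / 2500000000000000000⟩ := by
  rw [sq, qc]
  exact nm_mk_mul _ _ _ _ _ _ (by norm_num) (by norm_num)

theorem nm_q3 : qc ^ 3 = ⟨1068233415625222554547535851 / 62500000000000000000000000000, 173383982495011827175811231 / 12500000000000000000000000000⟩ := by
  rw [pow_succ, nm_q2, qc]
  exact nm_mk_mul _ _ _ _ _ _ (by norm_num) (by norm_num)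

theorem nm_q6 : qc ^ 6 = ⟨12174140487892665055680101717462391051349088827715943 / 122070312500000000000000000000000000000000000000000000000, 185214563835350281062563169938726573915476702980942581 / 390625000000000000000000000000000000000000000000000000000⟩ := by
  rw [show qc ^ 6 = qc ^ 3 * qc ^ 3 by ring, nm_q3]
  exact nm_mk_mul _ _ _ _ _ _ (by norm_num) (by norm_num)

theorem nm_w2 : w1c ^ 2 = ⟨2760800344171549 / 10000000000000000, 480567322385577 / 500000000000000⟩ := by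
  rw [sq, w1c]
  exact nm_mk_mul _ _ _ _ _ _ (by norm_num) (by norm_num)

theorem nm_w3 : w1c ^ 3 = ⟨-357722920844647731995957 / 1000000000000000000000000, 93382776681628966053417 / 100000000000000000000000⟩ := by
  rw [pow_succ, nm_w2, w1c]
  exact nm_mk_mul _ _ _ _ _ _ (by norm_num) (by norm_num)

theorem nm_w5 : w1c ^ 5 = ⟨-9962943752350101178099630062635855749193 / 10000000000000000000000000000000000000000, -17201738090036797716156054856194518289 / 200000000000000000000000000000000000000⟩ := by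
  rw [show w1c ^ 5 = w1c ^ 3 * w1c ^ 2 by ring, nm_w3, nm_w2]
  exact nm_mk_mul _ _ _ _ _ _ (by norm_num) (by norm_num)

theorem nm_w7 : w1c ^ 7 = ⟨-19239105326142969851253221680870827608209864703992556957 / 100000000000000000000000000000000000000000000000000000000, -9813183226486614760951707326759820796846412070874977027 / 10000000000000000000000000000000000000000000000000000000⟩ := by
  rw [show w1c ^ 7 = w1c ^ 5 * w1c ^ 2 by ring, nm_w5, nm_w2]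
  exact nm_mk_mul _ _ _ _ _ _ (by norm_num) (by norm_num)

theorem nm_w9 : w1c ^ 9 = ⟨890063708840377742048936300623775416687649342214565283245304129866499407 / 1000000000000000000000000000000000000000000000000000000000000000000000000, -45583610292459957962514957577502529516802671041257115716938823297623201 / 100000000000000000000000000000000000000000000000000000000000000000000000⟩ := by
  rw [show w1c ^ 9 = w1c ^ 7 * w1c ^ 2 by ring, nm_w7, nm_w2]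
  exact nm_mk_mul _ _ _ _ _ _ (by norm_num) (by norm_num)

/-- approximate value of `th qc 1` -/
noncomputable def nmEA : ℂ := ⟨3303943 / 2000000, 2192423 / 5000000⟩

/-- approximate value of `th qc w1c` -/
noncomputable def nmEB : ℂ := ⟨17002503 / 10000000, -1744141 / 10000000⟩

theorem nm_EA : ‖nmP qc 1 + nmP qc 1 - nmEA‖ ≤ 1 / 10 ^ 6 := by
  refine (Complex.norm_le_abs_re_add_abs_im _).trans ?_
  have e : nmP qc 1 + nmP qc 1 - nmEA = 2 + 2 * qc + 2 * qc ^ 3 + 2 * qc ^ 6 - nmEA := by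
    unfold nmP; ring
  rw [e, nm_q3, nm_q6, qc, nmEA]
  simp only [Complex.sub_re, Complex.add_re, Complex.mul_re, Complex.sub_im, Complex.add_im,
    Complex.mul_im, Complex.re_ofNat, Complex.im_ofNat]
  norm_num [abs_le]

theorem nm_conj_sum (v w : ℂ) : nmP v w + nmP v (conj w) =
    ((2 * w.re : ℝ) : ℂ) + v * ((2 * (w ^ 3).re : ℝ) : ℂ) + v ^ 3 * ((2 * (w ^ 5).re : ℝ) : ℂ) +
      v ^ 6 * ((2 * (w ^ 7).re : ℝ) : ℂ) := by
  rw [← Complex.add_conj, ← Complex.add_conj, ← Complex.add_conj, ← Complex.add_conj]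
  simp only [map_pow]
  unfold nmP
  ring

theorem nm_EB : ‖nmP qc w1c + nmP qc (conj w1c) - nmEB‖ ≤ 1 / 10 ^ 6 := by
  refine (Complex.norm_le_abs_re_add_abs_im _).trans ?_
  rw [nm_conj_sum, nm_w3, nm_w5, nm_w7, nm_q3, nm_q6, qc, nmEB, w1c]
  simp only [Complex.sub_re, Complex.add_re, Complex.mul_re, Complex.sub_im, Complex.add_im,
    Complex.mul_im, Complex.ofReal_re, Complex.ofReal_im]
  norm_num [abs_le]

theorem nm_norm_EA : ‖nmEA‖ ≤ 17092 / 10000 := by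
  rw [← abs_of_nonneg (norm_nonneg nmEA), ← sq_le_sq₀ (abs_nonneg _) (by norm_num), sq_abs,
    Complex.sq_norm, Complex.normSq_apply, nmEA]
  norm_num

theorem nm_norm_EB : ‖nmEB‖ ≤ 17092 / 10000 := by
  rw [← abs_of_nonneg (norm_nonneg nmEB), ← sq_le_sq₀ (abs_nonneg _) (by norm_num), sq_abs,
    Complex.sq_norm, Complex.normSq_apply, nmEB]
  norm_num

theorem nm_norm_qc : ‖qc‖ ≤ 28026 / 100000 := by
  rw [← abs_of_nonneg (norm_nonneg qc), ← sq_le_sq₀ (abs_nonneg _) (by norm_num), sq_abs,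
    Complex.sq_norm, Complex.normSq_apply, qc]
  norm_num

theorem nm_norm_w1c : ‖w1c‖ ≤ 1 := by
  rw [← abs_of_nonneg (norm_nonneg w1c), ← sq_le_sq₀ (abs_nonneg _) (by norm_num), sq_abs,
    Complex.sq_norm, Complex.normSq_apply, w1c]
  norm_num

/-- centre of the third moments -/
theorem nm_C7 : ‖(lAc : ℂ) * conj nmEA + ((lBc * (w1c ^ 7).re : ℝ) : ℂ) * conj nmEB‖ ≤
    3995 / 10000 := by
  rw [← abs_of_nonneg (norm_nonneg _), ← sq_le_sq₀ (abs_nonneg _) (by norm_num), sq_abs,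
    Complex.sq_norm, Complex.normSq_apply, nm_w7, nmEA, nmEB, lAc, lBc]
  simp only [Complex.add_re, Complex.mul_re, Complex.add_im, Complex.mul_im, Complex.ofReal_re,
    Complex.ofReal_im, Complex.conj_re, Complex.conj_im]
  norm_num

theorem nm_C9 : ‖(lAc : ℂ) * conj nmEA + ((lBc * (w1c ^ 9).re : ℝ) : ℂ) * conj nmEB‖ ≤
    2146 / 1000 := by
  rw [← abs_of_nonneg (norm_nonneg _), ← sq_le_sq₀ (abs_nonneg _) (by norm_num), sq_abs,
    Complex.sq_norm, Complex.normSq_apply, nm_w9, nmEA, nmEB, lAc, lBc]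
  simp only [Complex.add_re, Complex.mul_re, Complex.add_im, Complex.mul_im, Complex.ofReal_re,
    Complex.ofReal_im, Complex.conj_re, Complex.conj_im]
  norm_num

/-! ### the moments -/

/-- general bound -/
theorem nm_gen {eA e1 e2 Z Y EA EB : ℂ} {lA lB g ρ lA0 lB0 : ℝ} (hZ : ‖Z‖ = 1) (hY : ‖Y‖ = 1)
    (hA0 : 0 ≤ lA0) (hB0 : 0 ≤ lB) {E D : ℝ} (h1 : ‖e1‖ ≤ E) (h2 : ‖e2‖ ≤ E)
    (h3 : ‖e1 - EB‖ ≤ D) (h4 : ‖e2 - EB‖ ≤ D) :
    ‖(lA : ℂ) * conj eA * Z + ((lB / 2 * (1 + g) : ℝ) : ℂ) * conj e1 * Y +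
      ((lB / 2 * (1 - g) : ℝ) : ℂ) * conj e2 * conj Y‖ ≤
    ‖(lA0 : ℂ) * conj EA + ((lB0 * ρ : ℝ) : ℂ) * conj EB‖ + |lA - lA0| * ‖eA‖ +
      lA0 * ‖Z - 1‖ * ‖eA‖ + lA0 * ‖eA - EA‖ + lB * D + lB * |g| * E +
      |lB * Y.re - lB0 * ρ| * ‖EB‖ := by
  have hYc : Y + conj Y = ((2 * Y.re : ℝ) : ℂ) := Complex.add_conj Y
  have e : (lA : ℂ) * conj eA * Z + ((lB / 2 * (1 + g) : ℝ) : ℂ) * conj e1 * Y +
      ((lB / 2 * (1 - g) : ℝ) : ℂ) * conj e2 * conj Y =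
      ((lA0 : ℂ) * conj EA + ((lB0 * ρ : ℝ) : ℂ) * conj EB) +
      (((lA - lA0 : ℝ) : ℂ) * conj eA * Z + (lA0 : ℂ) * conj eA * (Z - 1) +
        (lA0 : ℂ) * conj (eA - EA)) +
      (((lB / 2 : ℝ) : ℂ) * (conj (e1 - EB) * Y + conj (e2 - EB) * conj Y) +
        ((lB / 2 * g : ℝ) : ℂ) * (conj e1 * Y - conj e2 * conj Y) +
        ((lB * Y.re - lB0 * ρ : ℝ) : ℂ) * conj EB) := by
    simp only [map_sub]
    push_cast at hYc ⊢
    linear_combination ((lB : ℂ) / 2 * conj EB) * hYc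
  rw [e]
  have t1 := norm_add₃_le (a := (lA0 : ℂ) * conj EA + ((lB0 * ρ : ℝ) : ℂ) * conj EB)
    (b := ((lA - lA0 : ℝ) : ℂ) * conj eA * Z + (lA0 : ℂ) * conj eA * (Z - 1) +
        (lA0 : ℂ) * conj (eA - EA))
    (c := ((lB / 2 : ℝ) : ℂ) * (conj (e1 - EB) * Y + conj (e2 - EB) * conj Y) +
        ((lB / 2 * g : ℝ) : ℂ) * (conj e1 * Y - conj e2 * conj Y) +
        ((lB * Y.re - lB0 * ρ : ℝ) : ℂ) * conj EB)
  have t2 := norm_add₃_le (a := ((lA - lA0 : ℝ) : ℂ) * conj eA * Z)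
    (b := (lA0 : ℂ) * conj eA * (Z - 1)) (c := (lA0 : ℂ) * conj (eA - EA))
  have t3 := norm_add₃_le
    (a := ((lB / 2 : ℝ) : ℂ) * (conj (e1 - EB) * Y + conj (e2 - EB) * conj Y))
    (b := ((lB / 2 * g : ℝ) : ℂ) * (conj e1 * Y - conj e2 * conj Y))
    (c := ((lB * Y.re - lB0 * ρ : ℝ) : ℂ) * conj EB)
  have a1 : ‖((lA - lA0 : ℝ) : ℂ) * conj eA * Z‖ = |lA - lA0| * ‖eA‖ := by
    rw [norm_mul, norm_mul, hZ, mul_one, Complex.norm_real, Complex.norm_conj, Real.norm_eq_abs]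
  have a2 : ‖(lA0 : ℂ) * conj eA * (Z - 1)‖ = lA0 * ‖Z - 1‖ * ‖eA‖ := by
    rw [norm_mul, norm_mul, Complex.norm_real, Complex.norm_conj, Real.norm_eq_abs,
      abs_of_nonneg hA0]
    ring
  have a3 : ‖(lA0 : ℂ) * conj (eA - EA)‖ = lA0 * ‖eA - EA‖ := by
    rw [norm_mul, Complex.norm_real, Complex.norm_conj, Real.norm_eq_abs, abs_of_nonneg hA0]
  have b1 : ‖conj (e1 - EB) * Y + conj (e2 - EB) * conj Y‖ ≤ 2 * D := by
    refine (norm_add_le _ _).trans ?_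
    rw [norm_mul, norm_mul, Complex.norm_conj, Complex.norm_conj, Complex.norm_conj, hY]
    linarith
  have b2 : ‖conj e1 * Y - conj e2 * conj Y‖ ≤ 2 * E := by
    refine (norm_sub_le _ _).trans ?_
    rw [norm_mul, norm_mul, Complex.norm_conj, Complex.norm_conj, Complex.norm_conj, hY]
    linarith
  have a4 : ‖((lB / 2 : ℝ) : ℂ) * (conj (e1 - EB) * Y + conj (e2 - EB) * conj Y)‖ ≤ lB * D := by
    rw [norm_mul, Complex.norm_real, Real.norm_eq_abs, abs_of_nonneg (by linarith)]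
    calc lB / 2 * ‖conj (e1 - EB) * Y + conj (e2 - EB) * conj Y‖ ≤ lB / 2 * (2 * D) :=
          mul_le_mul_of_nonneg_left b1 (by linarith)
      _ = lB * D := by ring
  have a5 : ‖((lB / 2 * g : ℝ) : ℂ) * (conj e1 * Y - conj e2 * conj Y)‖ ≤ lB * |g| * E := by
    rw [norm_mul, Complex.norm_real, Real.norm_eq_abs, abs_mul,
      abs_of_nonneg (show 0 ≤ lB / 2 by linarith)]
    calc lB / 2 * |g| * ‖conj e1 * Y - conj e2 * conj Y‖ ≤ lB / 2 * |g| * (2 * E) :=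
          mul_le_mul_of_nonneg_left b2 (by positivity)
      _ = lB * |g| * E := by ring
  have a6 : ‖((lB * Y.re - lB0 * ρ : ℝ) : ℂ) * conj EB‖ = |lB * Y.re - lB0 * ρ| * ‖EB‖ := by
    rw [norm_mul, Complex.norm_real, Complex.norm_conj, Real.norm_eq_abs]
  rw [a1, a2, a3] at t2
  rw [a6] at t3
  linarith

end MaxTerm.PA
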