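import Pool.Agent.MaxTerm.PartA.TM

/-!
# Part A, near region: the ghost affine part of a Taylor model is determined by value and derivatives
-/

open ComplexConjugate Filter Topology Asymptotics

namespace MaxTerm.PA.Chk

theorem hasDerivAt_of_sq_bound {φ : ℝ → ℂ} {l : ℂ} {C ε : ℝ} (hε : 0 < ε)
    (h : ∀ t : ℝ, |t| ≤ ε → ‖φ t - φ 0 - l * t‖ ≤ C * t ^ 2) : HasDerivAt φ l 0 := by
  rw [hasDerivAt_iff_isLittleO]
  have h1 : (fun t : ℝ => φ t - φ 0 - (t - 0) • l) =O[𝓝 0] fun t : ℝ => t ^ 2 := by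
    refine IsBigO.of_bound C ?_
    have : ∀ᶠ t : ℝ in 𝓝 0, |t| ≤ ε := by
      have := Metric.closedBall_mem_nhds (0 : ℝ) hε
      filter_upwards [this] with t ht
      rwa [Metric.mem_closedBall, Real.dist_eq, sub_zero] at ht
    filter_upwards [this] with t ht
    have h2 := h t ht
    have e : φ t - φ 0 - (t - 0) • l = φ t - φ 0 - l * t := by
      rw [sub_zero, Complex.real_smul, mul_comm]
    rw [e, norm_pow, Real.norm_eq_abs, sq_abs]
    exact h2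
  refine h1.trans_isLittleO ?_
  have h3 : (fun t : ℝ => t ^ 2) =o[𝓝 0] fun t : ℝ => t := by
    have := isLittleO_pow_id (𝕜 := ℝ) (n := 2) (by norm_num)
    simpa using this
  simpa using h3

/-- axes -/
def axis : Fin 4 → ℝ → Pt
  | 0 => fun t => ⟨t, 0, 0, 0⟩
  | 1 => fun t => ⟨0, t, 0, 0⟩
  | 2 => fun t => ⟨0, 0, t, 0⟩
  | 3 => fun t => ⟨0, 0, 0, t⟩

theorem axis_zero (i : Fin 4) : axis i 0 = ⟨0, 0, 0, 0⟩ := by
  fin_cases i <;> rfl

/-- the box contains a neighbourhood of `0` on the axes -/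
def AxIn (Y : Bx) (ε : ℝ) : Prop := ∀ (i : Fin 4) (t : ℝ), |t| ≤ ε → (axis i t).In Y

theorem AxIn.zero {Y : Bx} {ε : ℝ} (h : AxIn Y ε) (hε : 0 < ε) : Pt.In Y ⟨0, 0, 0, 0⟩ := by
  have := h 0 0 (by rw [abs_zero]; exact hε.le)
  exact this

/-- the ghost affine part is given by the value and the derivatives -/
theorem TM.Has.axis_deriv {Y : Bx} {ε : ℝ} (hε : 0 < ε) (hε1 : ε ≤ 1) (hY : AxIn Y ε) {A : TM} {f : Pt → ℂ}
    {g : Lin} {h : Quad} (hh : h.Mem A)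
    (ha : ∀ y : Pt, y.In Y → ∃ d : Cub, d.Mem A ∧ f y = g.c + g.ev y + h.ev y + d.ev y) :
    f ⟨0, 0, 0, 0⟩ = g.c ∧ HasDerivAt (fun t : ℝ => f (axis 0 t)) g.l1 0 ∧
      HasDerivAt (fun t : ℝ => f (axis 1 t)) g.l2 0 ∧ HasDerivAt (fun t : ℝ => f (axis 2 t)) g.l3 0 ∧
      HasDerivAt (fun t : ℝ => f (axis 3 t)) g.l4 0 := by
  have hc : f ⟨0, 0, 0, 0⟩ = g.c := by
    obtain ⟨p, _, e⟩ := ha ⟨0, 0, 0, 0⟩ (hY.zero hε)
    rw [e]
    simp [Lin.ev, Quad.ev, Cub.ev]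
  have key : ∀ (i : Fin 4) (l : ℂ) (qf : ℂ) (df : Cub → ℂ) (Q D : CB), (∀ t, g.ev (axis i t) = l * t) →
      (∀ t, h.ev (axis i t) = qf * (t : ℂ) ^ 2) → (∀ (d : Cub) t, d.ev (axis i t) = df d * (t : ℂ) ^ 3) →
      CB.Mem qf Q → (∀ d : Cub, d.Mem A → CB.Mem (df d) D) →
      HasDerivAt (fun t : ℝ => f (axis i t)) l 0 := by
    intro i l qf df Q D hlin hquad hcub hmemq hmemd
    refine hasDerivAt_of_sq_bound (φ := fun t : ℝ => f (axis i t)) (C := rv Q.up + rv D.up) hε fun t ht => ?_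
    obtain ⟨p, hp, e⟩ := ha (axis i t) (hY i t ht)
    have e2 : f (axis i t) - f (axis i 0) - l * t = (qf + df p * t) * (t : ℂ) ^ 2 := by
      rw [axis_zero, hc, e, hlin, hquad, hcub]
      ring
    show ‖f (axis i t) - f (axis i 0) - l * t‖ ≤ _
    rw [e2, norm_mul, norm_pow, Complex.norm_real, Real.norm_eq_abs, sq_abs]
    refine mul_le_mul_of_nonneg_right ?_ (sq_nonneg t)
    refine (norm_add_le _ _).trans (add_le_add hmemq.norm_le ?_)
    rw [norm_mul, Complex.norm_real, Real.norm_eq_abs]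
    have h1 := (hmemd p hp).norm_le
    have h2 : |t| ≤ 1 := ht.trans hε1
    calc ‖df p‖ * |t| ≤ rv D.up * 1 := mul_le_mul h1 h2 (abs_nonneg _) ((norm_nonneg _).trans h1)
      _ = _ := mul_one _
  refine ⟨hc, ?_, ?_, ?_, ?_⟩
  · exact key 0 g.l1 h.q11 Cub.d111 A.q11 A.d111 (fun t => by simp only [Lin.ev, axis, Complex.ofReal_zero]; ring)
      (fun t => by simp only [Quad.ev, axis, Complex.ofReal_zero]; ring) (fun d t => by simp only [Cub.ev, axis, Complex.ofReal_zero]; ring) hh.q11 (fun d hd => hd.d111)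
  · exact key 1 g.l2 h.q22 Cub.d222 A.q22 A.d222 (fun t => by simp only [Lin.ev, axis, Complex.ofReal_zero]; ring)
      (fun t => by simp only [Quad.ev, axis, Complex.ofReal_zero]; ring) (fun d t => by simp only [Cub.ev, axis, Complex.ofReal_zero]; ring) hh.q22 (fun d hd => hd.d222)
  · exact key 2 g.l3 h.q33 Cub.d333 A.q33 A.d333 (fun t => by simp only [Lin.ev, axis, Complex.ofReal_zero]; ring)
      (fun t => by simp only [Quad.ev, axis, Complex.ofReal_zero]; ring) (fun d t => by simp only [Cub.ev, axis, Complex.ofReal_zero]; ring) hh.q33 (fun d hd => hd.d333)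
  · exact key 3 g.l4 h.q44 Cub.d444 A.q44 A.d444 (fun t => by simp only [Lin.ev, axis, Complex.ofReal_zero]; ring)
      (fun t => by simp only [Quad.ev, axis, Complex.ofReal_zero]; ring) (fun d t => by simp only [Cub.ev, axis, Complex.ofReal_zero]; ring) hh.q44 (fun d hd => hd.d444)

/-- expansion with known value and derivatives -/
theorem TM.Has.expand {Y : Bx} {ε : ℝ} (hε : 0 < ε) (hε1 : ε ≤ 1) (hY : AxIn Y ε) {A : TM} {f : Pt → ℂ}
    (hA : A.Has Y f) {c l1 l2 l3 l4 : ℂ} (h0 : f ⟨0, 0, 0, 0⟩ = c)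
    (h1 : HasDerivAt (fun t : ℝ => f (axis 0 t)) l1 0) (h2 : HasDerivAt (fun t : ℝ => f (axis 1 t)) l2 0)
    (h3 : HasDerivAt (fun t : ℝ => f (axis 2 t)) l3 0) (h4 : HasDerivAt (fun t : ℝ => f (axis 3 t)) l4 0) :
    ∃ h : Quad, h.Mem A ∧ ∀ y : Pt, y.In Y → ∃ d : Cub, d.Mem A ∧
      f y = c + (l1 * y.y1 + l2 * y.y2 + l3 * y.y3 + l4 * y.y4) + h.ev y + d.ev y := by
  obtain ⟨g, hg, h, hh, ha⟩ := hA
  obtain ⟨k0, k1, k2, k3, k4⟩ := TM.Has.axis_deriv hε hε1 hY hh ha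
  refine ⟨h, hh, fun y hy => ?_⟩
  obtain ⟨d, hd, e⟩ := ha y hy
  refine ⟨d, hd, ?_⟩
  rw [e, ← k0, h0]
  simp only [Lin.ev, k1.unique h1, k2.unique h2, k3.unique h3, k4.unique h4]

/-- product of two functions vanishing at `0` -/
theorem TM.Has.mulQ {Y : Bx} {ε : ℝ} (hε : 0 < ε) (hε1 : ε ≤ 1) (hY : AxIn Y ε) {A B : TM} {f g : Pt → ℂ}
    (hA : A.Has Y f) (hB : B.Has Y g) (hf : f ⟨0, 0, 0, 0⟩ = 0) (hg : g ⟨0, 0, 0, 0⟩ = 0) :
    ∃ h : Quad, h.Mem (A.mul Y B) ∧ ∀ y : Pt, y.In Y → ∃ d : Cub, d.Mem (A.mul Y B) ∧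
      f y * g y = h.ev y + d.ev y := by
  have hAB := hA.mul hB
  obtain ⟨ga, _, pa, hpa, ha⟩ := hA
  obtain ⟨gb, _, pb, hpb, hb⟩ := hB
  obtain ⟨_, a1, a2, a3, a4⟩ := TM.Has.axis_deriv hε hε1 hY hpa ha
  obtain ⟨_, b1, b2, b3, b4⟩ := TM.Has.axis_deriv hε hε1 hY hpb hb
  have key : ∀ (i : Fin 4) (l m : ℂ), HasDerivAt (fun t : ℝ => f (axis i t)) l 0 →
      HasDerivAt (fun t : ℝ => g (axis i t)) m 0 →
      HasDerivAt (fun t : ℝ => f (axis i t) * g (axis i t)) 0 0 := by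
    intro i l m hl hm
    have h := hl.mul hm
    rw [axis_zero, hf, hg, mul_zero, zero_mul, add_zero] at h
    exact h
  obtain ⟨h, hh, H⟩ := TM.Has.expand hε hε1 hY hAB (c := 0) (by rw [hf, zero_mul])
    (key 0 _ _ a1 b1) (key 1 _ _ a2 b2) (key 2 _ _ a3 b3) (key 3 _ _ a4 b4)
  refine ⟨h, hh, fun y hy => ?_⟩
  obtain ⟨d, hd, e⟩ := H y hy
  refine ⟨d, hd, ?_⟩
  rw [e]
  ring

end MaxTerm.PA.Chk
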