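import Pool.Agent.MaxTerm.PartA.NearQ
import Pool.Agent.MaxTerm.PartA.TMDeriv
import Pool.Agent.MaxTerm.PartA.NearTail

/-!
# Part A, near region: Taylor models of the costs
-/

open ComplexConjugate

namespace MaxTerm.PA.Chk.NL

open MaxTerm.PA
open MaxTerm.PA.NearTail (aL_base)

variable {q0 w0 : ℂ} {lB : ℝ}

/-- base point -/
abbrev O0 : Pt := ⟨0, 0, 0, 0⟩

theorem dd_le1 : dd ≤ 1 := by unfold dd rv dl; norm_num

theorem axin : AxIn Y0 dd := by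
  intro i t ht
  rw [in_iff]
  have h0 : |(0 : ℝ)| ≤ dd := by rw [abs_zero]; exact dd_pos.le
  fin_cases i
  · exact ⟨ht, h0, h0, h0⟩
  · exact ⟨h0, ht, h0, h0⟩
  · exact ⟨h0, h0, ht, h0⟩
  · exact ⟨h0, h0, h0, ht⟩

theorem O0_in : O0.In Y0 := axin.zero dd_pos

theorem uF_O (q0 : ℂ) : uF q0 O0 = q0 := by
  simp [uF]

theorem vF_O (q0 : ℂ) : vF q0 O0 = q0 := by
  simp [vF]

/-- real numbers near a dyadic centre -/
theorem mem_ofReal {x : ℝ} {a r : Int} (h : |x - rv a| ≤ rv r) : CB.Mem (x : ℂ) ⟨a, 0, r⟩ := by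
  show ‖(x : ℂ) - CB.mid ⟨a, 0, r⟩‖ ≤ rv r
  have e : (x : ℂ) - CB.mid ⟨a, 0, r⟩ = ((x - rv a : ℝ) : ℂ) := by
    apply Complex.ext
    · simp [CB.mid]
    · have h0 : rv 0 = 0 := by simp [rv]
      simp [CB.mid, h0]
  rw [e, Complex.norm_real, Real.norm_eq_abs]
  exact h

theorem mem_kp1 : CB.Mem ((101 / 100 / npE 1 : ℝ) : ℂ) kp1 := by
  apply mem_ofReal
  rw [show npE 1 = p1E nr nc4 nc5 nc6 nc7 from rfl, p1E, K11, nr, nc4, nc5, nc6, nc7, rv, rv, abs_le]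
  constructor <;> norm_num

theorem mem_kp2 : CB.Mem ((101 / 100 / npE 2 : ℝ) : ℂ) kp2 := by
  apply mem_ofReal
  rw [show npE 2 = p2E nr nc4 nc5 nc6 nc7 from rfl, p2E, K22, nr, nc4, nc5, nc6, nc7, rv, rv, abs_le]
  constructor <;> norm_num

theorem mem_kp3 : CB.Mem ((101 / 100 / npE 3 : ℝ) : ℂ) kp3 := by
  apply mem_ofReal
  rw [show npE 3 = p3E nr nc5 nc6 nc7 from rfl, p3E, K33, nr, nc5, nc6, nc7, rv, rv, abs_le]
  constructor <;> norm_num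

/-! ### the E functions -/

theorem has_r2 (hp : PB q0 w0 lB) : (r2 Y0).Has Y0
    (fun y => aR (natoms q0 w0 lB (uF q0 y) (vF q0 y)) 2 * vF q0 y ^ 2) := (has_aR2 hp).mul (has_v2 hp)
theorem has_r3 (hp : PB q0 w0 lB) : (r3 Y0).Has Y0
    (fun y => aR (natoms q0 w0 lB (uF q0 y) (vF q0 y)) 3 * vF q0 y ^ 5) := (has_aR3 hp).mul (has_v5 hp)
theorem has_r4 (hp : PB q0 w0 lB) : (r4 Y0).Has Y0
    (fun y => aR (natoms q0 w0 lB (uF q0 y) (vF q0 y)) 4 * vF q0 y ^ 9) := (has_aR4 hp).mul (has_v9 hp)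
theorem has_s2 (hp : PB q0 w0 lB) : (s2 Y0).Has Y0
    (fun y => aL (natoms q0 w0 lB (uF q0 y) (vF q0 y)) 2 * uF q0 y ^ 2) := (has_aL2 hp).mul (has_u2 hp)
theorem has_s3 (hp : PB q0 w0 lB) : (s3 Y0).Has Y0
    (fun y => aL (natoms q0 w0 lB (uF q0 y) (vF q0 y)) 3 * uF q0 y ^ 5) := (has_aL3 hp).mul (has_u5 hp)
theorem has_s4 (hp : PB q0 w0 lB) : (s4 Y0).Has Y0
    (fun y => aL (natoms q0 w0 lB (uF q0 y) (vF q0 y)) 4 * uF q0 y ^ 9) := (has_aL4 hp).mul (has_u9 hp)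

theorem has_E1R (hp : PB q0 w0 lB) : (E1R Y0).Has Y0
    (fun y => finR q0 w0 lB (uF q0 y) (vF q0 y) 1) := by
  have h := ((has_r2 hp).add (((has_r3 hp).nsm (n := 3) (by norm_num)).add
    ((has_r4 hp).nsm (n := 6) (by norm_num)))).sub0 O0_in
  refine h.congr fun y _ => ?_
  rw [show (⟨0, 0, 0, 0⟩ : Pt) = O0 from rfl, uF_O, vF_O]
  simp only [finR, tR, gw, ee]
  push_cast
  ring

theorem has_E2R (hp : PB q0 w0 lB) : (E2R Y0).Has Y0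
    (fun y => finR q0 w0 lB (uF q0 y) (vF q0 y) 2) := by
  have h := ((has_r3 hp).add ((has_r4 hp).nsm (n := 3) (by norm_num))).sub0 O0_in
  refine h.congr fun y _ => ?_
  rw [show (⟨0, 0, 0, 0⟩ : Pt) = O0 from rfl, uF_O, vF_O]
  simp only [finR, tR, gw, ee]
  push_cast
  ring

theorem has_E3R (hp : PB q0 w0 lB) : (E3R Y0).Has Y0
    (fun y => finR q0 w0 lB (uF q0 y) (vF q0 y) 3) := by
  have h := (has_r4 hp).sub0 O0_in
  refine h.congr fun y _ => ?_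
  rw [show (⟨0, 0, 0, 0⟩ : Pt) = O0 from rfl, uF_O, vF_O]
  simp only [finR, tR, gw, ee]
  push_cast
  ring

theorem has_E1L (hp : PB q0 w0 lB) : (E1L Y0).Has Y0
    (fun y => finL q0 w0 lB (uF q0 y) (vF q0 y) 1) := by
  have h := ((has_s2 hp).add (((has_s3 hp).nsm (n := 3) (by norm_num)).add
    ((has_s4 hp).nsm (n := 6) (by norm_num)))).sub0 O0_in
  refine h.congr fun y _ => ?_
  rw [show (⟨0, 0, 0, 0⟩ : Pt) = O0 from rfl, uF_O, vF_O, aL_base, aL_base, aL_base]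
  simp only [finL, tL, gw, ee]
  push_cast
  ring

theorem has_E2L (hp : PB q0 w0 lB) : (E2L Y0).Has Y0
    (fun y => finL q0 w0 lB (uF q0 y) (vF q0 y) 2) := by
  have h := ((has_s3 hp).add ((has_s4 hp).nsm (n := 3) (by norm_num))).sub0 O0_in
  refine h.congr fun y _ => ?_
  rw [show (⟨0, 0, 0, 0⟩ : Pt) = O0 from rfl, uF_O, vF_O, aL_base, aL_base]
  simp only [finL, tL, gw, ee]
  push_cast
  ring

theorem has_E3L (hp : PB q0 w0 lB) : (E3L Y0).Has Y0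
    (fun y => finL q0 w0 lB (uF q0 y) (vF q0 y) 3) := by
  have h := (has_s4 hp).sub0 O0_in
  refine h.congr fun y _ => ?_
  rw [show (⟨0, 0, 0, 0⟩ : Pt) = O0 from rfl, uF_O, vF_O, aL_base]
  simp only [finL, tL, gw, ee]
  push_cast
  ring

theorem finR_O (q0 w0 : ℂ) (lB : ℝ) (l : ℕ) : finR q0 w0 lB (uF q0 O0) (vF q0 O0) l = 0 := by
  rw [uF_O, vF_O]
  simp [finR, tR]

theorem finL_O (q0 w0 : ℂ) (lB : ℝ) (l : ℕ) : finL q0 w0 lB (uF q0 O0) (vF q0 O0) l = 0 := by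
  rw [uF_O, vF_O]
  simp [finL, tL, aL_base]

/-- squares of functions vanishing at the base point -/
theorem sq_hasQ {A : TM} {f : Pt → ℂ} (h : A.Has Y0 f) (h0 : f O0 = 0) :
    (sqT Y0 A).HasQ Y0 (fun y => ((‖f y‖ ^ 2 : ℝ) : ℂ)) := by
  have k := TM.Has.mulQ dd_pos dd_le1 axin h h.conjT h0 (by
    show conj (f O0) = 0
    rw [h0, map_zero])
  have k2 : (sqT Y0 A).HasQ Y0 (fun y => f y * conj (f y)) := k
  refine k2.congr fun y _ => ?_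
  rw [Complex.mul_conj, Complex.normSq_eq_norm_sq]

/-- the total cost -/
noncomputable def costF (q0 w0 : ℂ) (lB : ℝ) (u v : ℂ) : ℝ :=
  101 / 100 / npE 1 * (‖finR q0 w0 lB u v 1‖ ^ 2 + ‖finL q0 w0 lB u v 1‖ ^ 2)
    + (101 / 100 / npE 2 * (‖finR q0 w0 lB u v 2‖ ^ 2 + ‖finL q0 w0 lB u v 2‖ ^ 2)
      + 101 / 100 / npE 3 * (‖finR q0 w0 lB u v 3‖ ^ 2 + ‖finL q0 w0 lB u v 3‖ ^ 2))

theorem cost_hasQ (hp : PB q0 w0 lB) : (costT Y0).HasQ Y0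
    (fun y => (costF q0 w0 lB (uF q0 y) (vF q0 y) : ℂ)) := by
  have h := (((sq_hasQ (has_E1R hp) (finR_O q0 w0 lB 1)).add (sq_hasQ (has_E1L hp) (finL_O q0 w0 lB 1))).cmul
    mem_kp1).add ((((sq_hasQ (has_E2R hp) (finR_O q0 w0 lB 2)).add (sq_hasQ (has_E2L hp)
      (finL_O q0 w0 lB 2))).cmul mem_kp2).add (((sq_hasQ (has_E3R hp) (finR_O q0 w0 lB 3)).add
        (sq_hasQ (has_E3L hp) (finL_O q0 w0 lB 3))).cmul mem_kp3))
  refine TM.HasQ.congr h fun y _ => ?_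
  unfold costF
  push_cast
  ring

end MaxTerm.PA.Chk.NL
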