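import Pool.Agent.MaxTerm.PartA.Modes

/-!
# Part A, near region: definitions

`qc` numerical minimiser, `w1c = exp (i t1c)` numerical second contact point (half angle),
`lAc`, `lBc` numerical multipliers. A parameter point is `(q0, w0, lB)`.
-/

open Filter Topology ComplexConjugate

namespace MaxTerm.PA

/-- window function of the two constant chain: `v` to the right, `u` to the left -/
noncomputable def Fc (u v w : ℂ) : ℂ := half (fun _ => v) w + half (fun _ => u) (conj w)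

theorem th_eq_Fc (q w : ℂ) : th q w = Fc q q w := rfl

/-- `∂_q th` -/
noncomputable def thq (q w : ℂ) : ℂ :=
  ∑' n : ℕ, (ee n : ℂ) * q ^ (ee n - 1) * (w ^ (2 * n + 1) + conj w ^ (2 * n + 1))

/-- `(1/i) ∂_t th (q, e^{it})` -/
noncomputable def thw (q w : ℂ) : ℂ :=
  ∑' n : ℕ, (2 * (n : ℂ) + 1) * q ^ ee n * (w ^ (2 * n + 1) - conj w ^ (2 * n + 1))

noncomputable def lAc : ℝ := 4004 / 10000
/-- true value `0.980808087` -/
noncomputable def lBc : ℝ := 980808 / 1000000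
/-- true value `0.79877406957 + 0.60163110441 i` -/
noncomputable def w1c : ℂ := ⟨0.79877407, 0.6016311⟩

/-- the parameter ball -/
structure PB (q0 w0 : ℂ) (lB : ℝ) : Prop where
  q : ‖q0 - qc‖ ≤ 1 / 10000
  w : ‖w0‖ = 1
  w' : ‖w0 - w1c‖ ≤ 2 / 10000
  l : |lB - lBc| ≤ 1 / 1000

/-- the small box around `q0` -/
structure SB (q0 u : ℂ) : Prop where
  re : |(u - q0).re| ≤ 21 / 10000
  im : |(u - q0).im| ≤ 21 / 10000

/-- mean deviation -/
noncomputable def dl (q0 u v : ℂ) : ℂ := (u + v) / 2 - q0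

/-- rotation of the second atom -/
noncomputable def tau (q0 u v : ℂ) : ℝ := -(1 / 5) * (dl q0 u v).re + 7 / 10 * (dl q0 u v).im

/-- the three moving atoms of the near certificate -/
noncomputable def natoms (q0 w0 : ℂ) (lB : ℝ) (u v : ℂ) : List Atom :=
  let wA := Complex.exp (Complex.I * ((7 / 5 * (v - u).re : ℝ) : ℂ))
  let wB := w0 * Complex.exp (Complex.I * (tau q0 u v : ℂ))
  let g := -(27 / 20) * (v - u).re - 113 / 100 * (v - u).im
  [⟨wA, lAc + 8 / 5 * (dl q0 u v).im, Fc u v wA⟩,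
   ⟨wB, lB / 2 * (1 + g), Fc u v wB⟩,
   ⟨conj wB, lB / 2 * (1 - g), Fc u v (conj wB)⟩]

/-- coefficients of the linear potentials: `B_l = ∑_{n≥2} g n l Γ_n q0^(ee n - 1)` -/
noncomputable def Bst (q0 w0 : ℂ) (lB : ℝ) (l : ℕ) : ℂ :=
  ∑' n : ℕ, (gw (n + 2) l : ℂ) * aR (natoms q0 w0 lB q0 q0) (n + 2) * q0 ^ (ee (n + 2) - 1)

/-- numerical constants of mode E on the near box: `A ≤ nA`, `‖v‖ ≤ nr`, ... -/
noncomputable def nA : ℝ := 5 / 2
noncomputable def nr : ℝ := 2835 / 10000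
noncomputable def nc4 : ℝ := 22 / 1000
noncomputable def nc5 : ℝ := 30 / 1000
noncomputable def nc6 : ℝ := 16 / 100000
noncomputable def nc7 : ℝ := 3 / 1000

/-- weights of mode E -/
noncomputable def npE : ℕ → ℝ := pE nr nc4 nc5 nc6 nc7

/-- the near functional -/
noncomputable def Sf (q0 w0 : ℂ) (lB κ : ℝ) (u v : ℂ) : ℝ :=
  ((natoms q0 w0 lB u v).map fun a => a.l * (‖a.e‖ ^ 2 - κ)).sum
    - 2 * PT * ‖v - u‖ ^ 2
    - (∑' l : ℕ, ‖EE (Bst q0 w0 lB) (aR (natoms q0 w0 lB u v)) v (l + 1)‖ ^ 2 / npE (l + 1))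
    - ∑' l : ℕ, ‖EE (Bst q0 w0 lB) (aL (natoms q0 w0 lB u v)) u (l + 1)‖ ^ 2 / npE (l + 1)

/-- the Lagrange expression (gradient in the direction of constant chains) -/
noncomputable def Lag (q0 w0 : ℂ) (lB : ℝ) : ℂ :=
  lAc * conj (th q0 1) * thq q0 1 + lB * conj (th q0 w0) * thq q0 w0

/-- the first order part of `Sf` -/
noncomputable def S1 (q0 w0 : ℂ) (lB κ : ℝ) (u v : ℂ) : ℝ :=
  lAc * (‖th q0 1‖ ^ 2 - κ) + lB * (‖th q0 w0‖ ^ 2 - κ)
    + 2 * (Lag q0 w0 lB * dl q0 u v).re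
    + 2 * lB * tau q0 u v * (conj (th q0 w0) * (Complex.I * thw q0 w0)).re
    + 8 / 5 * (dl q0 u v).im * (‖th q0 1‖ ^ 2 - κ)

/-- the critical parameters: minimiser, second contact point, multiplier -/
structure Crit (qs w1 : ℂ) (lB : ℝ) : Prop where
  q : ‖qs - qc‖ ≤ 2 / 100000
  w : ‖w1‖ = 1
  w' : ‖w1 - w1c‖ ≤ 1 / 10000
  l : |lB - lBc| ≤ 3 / 10000
  KA : ‖th qs 1‖ = Kstar
  KB : ‖th qs w1‖ = Kstar
  lag : Lag qs w1 lB = 0
  crit : (conj (th qs w1) * (Complex.I * thw qs w1)).re = 0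

end MaxTerm.PA
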