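import Pool.Agent.MaxTerm.PartA.TM

/-!
# Part A, near region: the computation

Taylor models of the atoms, weights, window values, moments and costs of the near certificate on a box `Y`,
and the test of the resulting quadratic form.
-/

namespace MaxTerm.PA.Chk.NL

def q0B : CB := ⟨-210232900783, 225287107885, 109951165⟩
def w0B : CB := ⟨878261377930, 661500390081, 219902328⟩
/-- `lB / 2` -/
def lBB : CB := ⟨539204900307, 0, 549755816⟩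
def lAB : CB := ⟨440244455761, 0, 2⟩
def one : CB := ⟨1099511627776, 0, 0⟩
def zer : CB := ⟨0, 0, 0⟩
def k08 : CB := ⟨879609302220, 0, 2⟩
def k135 : CB := ⟨1484340697497, 0, 2⟩
def km135 : CB := ⟨-1484340697498, 0, 2⟩
def k113 : CB := ⟨1242448139386, 0, 2⟩
def km113 : CB := ⟨-1242448139387, 0, 2⟩
def a1p : CB := ⟨1539316278886, 0, 2⟩
def a1m : CB := ⟨-1539316278887, 0, 2⟩
def b1m : CB := ⟨-109951162778, 0, 2⟩
def b1p : CB := ⟨384829069721, 0, 2⟩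
def a3p : CB := ⟨4617948836659, 0, 2⟩
def a3m : CB := ⟨-4617948836660, 0, 2⟩
def b3m : CB := ⟨-329853488333, 0, 2⟩
def b3p : CB := ⟨1154487209164, 0, 2⟩
def a5p : CB := ⟨7696581394432, 0, 2⟩
def a5m : CB := ⟨-7696581394432, 0, 2⟩
def b5m : CB := ⟨-549755813888, 0, 2⟩
def b5p : CB := ⟨1924145348608, 0, 2⟩
def a7p : CB := ⟨10775213952204, 0, 2⟩
def a7m : CB := ⟨-10775213952205, 0, 2⟩
def b7m : CB := ⟨-769658139444, 0, 2⟩
def b7p : CB := ⟨2693803488051, 0, 2⟩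
def a9p : CB := ⟨13853846509977, 0, 2⟩
def a9m : CB := ⟨-13853846509978, 0, 2⟩
def b9m : CB := ⟨-989560464999, 0, 2⟩
def b9p : CB := ⟨3463461627494, 0, 2⟩

def w2B : CB := CB.mul w0B w0B
def w3B : CB := CB.mul w0B w2B
def w5B : CB := CB.mul w3B w2B
def w7B : CB := CB.mul w5B w2B
def w9B : CB := CB.mul w7B w2B

def uT : TM := TM.affine q0B one TM.cI zer zer
def vT : TM := TM.affine q0B zer zer one TM.cI

/-- `w_A ^ 1` -/
def A1 (Y : Bx) : TM := TM.expi Y a1m zer a1p zer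
/-- `w_A ^ 3` -/
def A3 (Y : Bx) : TM := TM.expi Y a3m zer a3p zer
/-- `w_A ^ 5` -/
def A5 (Y : Bx) : TM := TM.expi Y a5m zer a5p zer
/-- `w_A ^ 7` -/
def A7 (Y : Bx) : TM := TM.expi Y a7m zer a7p zer
/-- `w_A ^ 9` -/
def A9 (Y : Bx) : TM := TM.expi Y a9m zer a9p zer
/-- `w_B ^ 1` -/
def B1 (Y : Bx) : TM := TM.cmul w0B (TM.expi Y b1m b1p b1m b1p)
/-- `w_B ^ 3` -/
def B3 (Y : Bx) : TM := TM.cmul w3B (TM.expi Y b3m b3p b3m b3p)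
/-- `w_B ^ 5` -/
def B5 (Y : Bx) : TM := TM.cmul w5B (TM.expi Y b5m b5p b5m b5p)
/-- `w_B ^ 7` -/
def B7 (Y : Bx) : TM := TM.cmul w7B (TM.expi Y b7m b7p b7m b7p)
/-- `w_B ^ 9` -/
def B9 (Y : Bx) : TM := TM.cmul w9B (TM.expi Y b9m b9p b9m b9p)

def LA : TM := TM.affine lAB zer k08 zer k08
def LB : TM := TM.cmul lBB (TM.affine one k135 k113 km135 km113)
def LC : TM := TM.cmul lBB (TM.affine one km135 km113 k135 k113)

def tl : TM :=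
  ⟨⟨0, 0, 110000⟩, ⟨0, 0, 4400000⟩, ⟨0, 0, 4400000⟩, ⟨0, 0, 4400000⟩, ⟨0, 0, 4400000⟩,
   ⟨0, 0, 270000000⟩, ⟨0, 0, 270000000⟩, ⟨0, 0, 270000000⟩, ⟨0, 0, 270000000⟩, ⟨0, 0, 270000000⟩,
   ⟨0, 0, 270000000⟩, ⟨0, 0, 270000000⟩, ⟨0, 0, 270000000⟩, ⟨0, 0, 270000000⟩, ⟨0, 0, 270000000⟩,
   ⟨0, 0, 27000000000⟩, ⟨0, 0, 27000000000⟩, ⟨0, 0, 27000000000⟩, ⟨0, 0, 27000000000⟩, ⟨0, 0, 27000000000⟩,
   ⟨0, 0, 27000000000⟩, ⟨0, 0, 27000000000⟩, ⟨0, 0, 27000000000⟩, ⟨0, 0, 27000000000⟩, ⟨0, 0, 27000000000⟩,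
   ⟨0, 0, 27000000000⟩, ⟨0, 0, 27000000000⟩, ⟨0, 0, 27000000000⟩, ⟨0, 0, 27000000000⟩, ⟨0, 0, 27000000000⟩,
   ⟨0, 0, 27000000000⟩, ⟨0, 0, 27000000000⟩, ⟨0, 0, 27000000000⟩, ⟨0, 0, 27000000000⟩, ⟨0, 0, 27000000000⟩⟩

def v2 (Y : Bx) : TM := TM.mul Y vT vT
def v3 (Y : Bx) : TM := TM.mul Y (v2 Y) vT
def v5 (Y : Bx) : TM := TM.mul Y (v3 Y) (v2 Y)
def v6 (Y : Bx) : TM := TM.mul Y (v3 Y) (v3 Y)
def v9 (Y : Bx) : TM := TM.mul Y (v6 Y) (v3 Y)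
def v10 (Y : Bx) : TM := TM.mul Y (v9 Y) vT
def u2 (Y : Bx) : TM := TM.mul Y uT uT
def u3 (Y : Bx) : TM := TM.mul Y (u2 Y) uT
def u5 (Y : Bx) : TM := TM.mul Y (u3 Y) (u2 Y)
def u6 (Y : Bx) : TM := TM.mul Y (u3 Y) (u3 Y)
def u9 (Y : Bx) : TM := TM.mul Y (u6 Y) (u3 Y)
def u10 (Y : Bx) : TM := TM.mul Y (u9 Y) uT

/-- one half of the window value -/
def hf (Y : Bx) (x1 x3 x6 x10 w1 w3 w5 w7 w9 : TM) : TM :=
  TM.add (TM.add w1 (TM.mul Y x1 w3)) (TM.add (TM.mul Y x3 w5) (TM.add (TM.mul Y x6 w7) (TM.mul Y x10 w9)))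

/-- window value for the atom with powers `w1, ..., w9` -/
def FT (Y : Bx) (w1 w3 w5 w7 w9 : TM) : TM :=
  TM.add (TM.add (hf Y vT (v3 Y) (v6 Y) (v10 Y) w1 w3 w5 w7 w9)
    (hf Y uT (u3 Y) (u6 Y) (u10 Y) w1.conjT w3.conjT w5.conjT w7.conjT w9.conjT)) tl

def FA (Y : Bx) : TM := FT Y (A1 Y) (A3 Y) (A5 Y) (A7 Y) (A9 Y)
def FB (Y : Bx) : TM := FT Y (B1 Y) (B3 Y) (B5 Y) (B7 Y) (B9 Y)
def FC (Y : Bx) : TM := FT Y (B1 Y).conjT (B3 Y).conjT (B5 Y).conjT (B7 Y).conjT (B9 Y).conjT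

/-- `L conj F` -/
def cA (Y : Bx) : TM := TM.mul Y (FA Y).conjT LA
def cB (Y : Bx) : TM := TM.mul Y (FB Y).conjT LB
def cC (Y : Bx) : TM := TM.mul Y (FC Y).conjT LC

/-- `∑ L |F|²` -/
def mainT (Y : Bx) : TM :=
  TM.add (TM.mul Y (cA Y) (FA Y)) (TM.add (TM.mul Y (cB Y) (FB Y)) (TM.mul Y (cC Y) (FC Y)))

def mom (Y : Bx) (a b c : TM) : TM :=
  TM.add (TM.mul Y (cA Y) a) (TM.add (TM.mul Y (cB Y) b) (TM.mul Y (cC Y) c))

def aR2 (Y : Bx) : TM := mom Y (A5 Y) (B5 Y) (B5 Y).conjT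
def aR3 (Y : Bx) : TM := mom Y (A7 Y) (B7 Y) (B7 Y).conjT
def aR4 (Y : Bx) : TM := mom Y (A9 Y) (B9 Y) (B9 Y).conjT
def aL2 (Y : Bx) : TM := mom Y (A5 Y).conjT (B5 Y).conjT (B5 Y)
def aL3 (Y : Bx) : TM := mom Y (A7 Y).conjT (B7 Y).conjT (B7 Y)
def aL4 (Y : Bx) : TM := mom Y (A9 Y).conjT (B9 Y).conjT (B9 Y)

def r2 (Y : Bx) : TM := TM.mul Y (aR2 Y) (v2 Y)
def r3 (Y : Bx) : TM := TM.mul Y (aR3 Y) (v5 Y)
def r4 (Y : Bx) : TM := TM.mul Y (aR4 Y) (v9 Y)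
def s2 (Y : Bx) : TM := TM.mul Y (aL2 Y) (u2 Y)
def s3 (Y : Bx) : TM := TM.mul Y (aL3 Y) (u5 Y)
def s4 (Y : Bx) : TM := TM.mul Y (aL4 Y) (u9 Y)

def E1R (Y : Bx) : TM := TM.sub0 (TM.add (r2 Y) (TM.add (TM.nsm 3 (r3 Y)) (TM.nsm 6 (r4 Y))))
def E2R (Y : Bx) : TM := TM.sub0 (TM.add (r3 Y) (TM.nsm 3 (r4 Y)))
def E3R (Y : Bx) : TM := TM.sub0 (r4 Y)
def E1L (Y : Bx) : TM := TM.sub0 (TM.add (s2 Y) (TM.add (TM.nsm 3 (s3 Y)) (TM.nsm 6 (s4 Y))))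
def E2L (Y : Bx) : TM := TM.sub0 (TM.add (s3 Y) (TM.nsm 3 (s4 Y)))
def E3L (Y : Bx) : TM := TM.sub0 (s4 Y)

def sqT (Y : Bx) (E : TM) : TM := TM.mul Y E E.conjT

/-- `(101/100) / npE 1` -/
def kp1 : CB := ⟨1539370542329, 0, 2⟩
/-- `(101/100) / npE 2` -/
def kp2 : CB := ⟨17287961802047, 0, 2⟩
/-- `(101/100) / npE 3` -/
def kp3 : CB := ⟨155822724717214, 0, 2⟩

/-- total cost -/
def costT (Y : Bx) : TM := TM.add (TM.cmul kp1 (TM.add (sqT Y (E1R Y)) (sqT Y (E1L Y))))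
  (TM.add (TM.cmul kp2 (TM.add (sqT Y (E2R Y)) (sqT Y (E2L Y))))
    (TM.cmul kp3 (TM.add (sqT Y (E3R Y)) (sqT Y (E3L Y)))))

def totT (Y : Bx) : TM := TM.add (mainT Y) (TM.neg (costT Y))

/-- lower bound of the real part -/
def lo (a : CB) : Int := Int.add a.re (Int.neg a.rad)

/-- upper bound of the absolute value of the real part of `a + s` -/
def ab (a : CB) (s : Int) : Int := Int.add (absI (Int.add a.re s)) a.rad

/-- the box `|y_i| ≤ 2308974419 / 2^40`, `2308974419 = ⌈0.0021 * 2^40⌉` -/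
def dl : Int := 2308974419

def Y0 : Bx := ⟨⟨0, 0, dl⟩, ⟨0, 0, dl⟩, ⟨0, 0, dl⟩, ⟨0, 0, dl⟩⟩

/-- `|q| + dl (∑ |d|)` for the cubic coefficients assigned to `q` -/
def e1 (q : CB) (s : Int) (a : CB) : Int := Int.add (ab q s) (mulU dl (ab a 0))
def e2 (q : CB) (s : Int) (a b : CB) : Int := Int.add (ab q s) (mulU dl (Int.add (ab a 0) (ab b 0)))
def e3 (q : CB) (s : Int) (a b c : CB) : Int :=
  Int.add (ab q s) (mulU dl (Int.add (Int.add (ab a 0) (ab b 0)) (ab c 0)))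
def e4 (q : CB) (s : Int) (a b c d : CB) : Int :=
  Int.add (ab q s) (mulU dl (Int.add (Int.add (ab a 0) (ab b 0)) (Int.add (ab c 0) (ab d 0))))

/-- bounds of the off-diagonal coefficients (`d_ijk` is assigned to the pair `(i, k)`) -/
def e12 (A : TM) : Int := e2 A.q12 0 A.d112 A.d122
def e13 (A : TM) : Int := e3 A.q13 4068193022772 A.d113 A.d123 A.d133
def e14 (A : TM) : Int := e4 A.q14 0 A.d114 A.d124 A.d134 A.d144
def e23 (A : TM) : Int := e2 A.q23 0 A.d223 A.d233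
def e24 (A : TM) : Int := e3 A.q24 4068193022772 A.d224 A.d234 A.d244
def e34 (A : TM) : Int := e2 A.q34 0 A.d334 A.d344

/-- lower bound of the diagonal coefficients minus `37/20 + 21/10 = 79/20` -/
def dg (q d : CB) : Int :=
  Int.add (Int.add (lo q) (-4343070929716)) (Int.neg (mulU dl (ab d 0)))

/-- weighted diagonal dominance (weight ratio `1/2` for the pairs of different parity) of
`tot - 37/20 |v-u|² - 21/10 |y|²` -/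
def dom (A : TM) : Bool :=
  and (and (isPos (Int.add (Int.mul 4 (dg A.q11 A.d111)) (Int.neg (Int.add (Int.mul 2 (e13 A)) (Int.mul 4 (Int.add (e12 A) (e14 A)))))))
      (isPos (Int.add (Int.mul 4 (dg A.q33 A.d333)) (Int.neg (Int.add (Int.mul 2 (e13 A)) (Int.mul 4 (Int.add (e23 A) (e34 A))))))))
    (and (isPos (Int.add (Int.mul 4 (dg A.q22 A.d222)) (Int.neg (Int.add (Int.mul 2 (e24 A)) (Int.add (e12 A) (e23 A))))))
      (isPos (Int.add (Int.mul 4 (dg A.q44 A.d444)) (Int.neg (Int.add (Int.mul 2 (e24 A)) (Int.add (e14 A) (e34 A)))))))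

end MaxTerm.PA.Chk.NL
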