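import Pool.Agent.MaxTerm.PartA.U1

/-!
# Part A, near region: value and gradient of the moving certificate at the base point

`near_val`, `near_grad`: the sum `∑ l ‖Fc u v w‖²` over `natoms u v` has value `S1 0 q0 q0` at
`u = v = q0`, and its derivative along `(q0 + t da, q0 + t db)` is `S1 0 (q0+da) (q0+db) - S1 0 q0 q0`.
-/

open Filter Topology ComplexConjugate

namespace MaxTerm.PA

/-- `∂_q half` -/
noncomputable def ngQ (q w : ℂ) : ℂ := ∑' n : ℕ, (ee n : ℂ) * q ^ (ee n - 1) * w ^ (2 * n + 1)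

/-- `w ∂_w half` -/
noncomputable def ngW (q w : ℂ) : ℂ := ∑' n : ℕ, (2 * (n : ℂ) + 1) * q ^ ee n * w ^ (2 * n + 1)

theorem ng_ee_le (n : ℕ) : (ee n : ℝ) ≤ (2 * (n : ℝ) + 1) ^ 2 := by
  have h : ee n ≤ (2 * n + 1) ^ 2 := by
    unfold ee
    refine (Nat.div_le_self _ _).trans ?_
    nlinarith
  exact_mod_cast h

theorem ng_bQ (n : ℕ) {r : ℝ} (h0 : 0 < r) :
    (ee n : ℝ) * r ^ (ee n - 1) ≤ r⁻¹ * ((2 * (n : ℝ) + 1) ^ 2 * r ^ ee n) := by
  rcases Nat.eq_zero_or_pos (ee n) with h | h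
  · rw [h]
    simp only [Nat.cast_zero, zero_mul]
    positivity
  · have h1 : r ^ ee n = r ^ (ee n - 1) * r := by rw [← pow_succ]; congr 1; omega
    rw [h1]
    have h2 : r⁻¹ * ((2 * (n : ℝ) + 1) ^ 2 * (r ^ (ee n - 1) * r)) =
        (2 * (n : ℝ) + 1) ^ 2 * r ^ (ee n - 1) := by
      field_simp
    rw [h2]
    exact mul_le_mul_of_nonneg_right (ng_ee_le n) (by positivity)

theorem ng_summableQ {q w : ℂ} (hq : ‖q‖ < 1) (hw : ‖w‖ = 1) :
    Summable fun n : ℕ => (ee n : ℂ) * q ^ (ee n - 1) * w ^ (2 * n + 1) := by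
  obtain ⟨r, hr1, hr2⟩ := exists_between hq
  have hr0 : 0 < r := (norm_nonneg q).trans_lt hr1
  refine Summable.of_norm_bounded ((u1_summable 2 hr0.le hr2).mul_left r⁻¹) fun n => ?_
  refine le_trans ?_ (ng_bQ n hr0)
  rw [norm_mul, norm_mul, norm_pow, norm_pow, hw, one_pow, mul_one, Complex.norm_natCast]
  gcongr

theorem ng_norm_odd (n : ℕ) : ‖(2 * (n : ℂ) + 1)‖ = 2 * (n : ℝ) + 1 := by
  rw [show (2 * (n : ℂ) + 1) = (((2 * n + 1 : ℝ)) : ℂ) by push_cast; ring, Complex.norm_real,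
    Real.norm_eq_abs, abs_of_nonneg (by positivity)]

theorem ng_summableW {q w : ℂ} (hq : ‖q‖ < 1) (hw : ‖w‖ = 1) :
    Summable fun n : ℕ => (2 * (n : ℂ) + 1) * q ^ ee n * w ^ (2 * n + 1) := by
  refine Summable.of_norm_bounded (u1_summable 1 (norm_nonneg q) hq) fun n => ?_
  rw [norm_mul, norm_mul, norm_pow, norm_pow, hw, one_pow, mul_one, ng_norm_odd, pow_one]

theorem ng_rot (w0 : ℂ) (hw : ‖w0‖ = 1) (c y : ℝ) :
    ‖w0 * Complex.exp (Complex.I * ((c * y : ℝ) : ℂ))‖ = 1 := by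
  rw [norm_mul, hw, one_mul, mul_comm]
  exact Complex.norm_exp_ofReal_mul_I _

/-- the derivative of `half` along a path -/
theorem ng_half {q0 w0 : ℂ} (hq : ‖q0‖ < 1) (hw : ‖w0‖ = 1) (d : ℂ) (c : ℝ) :
    HasDerivAt (fun t : ℝ => half (fun _ => q0 + t * d)
        (w0 * Complex.exp (Complex.I * ((c * t : ℝ) : ℂ))))
      (d * ngQ q0 w0 + Complex.I * c * ngW q0 w0) 0 := by
  obtain ⟨r, hr1, hr2⟩ := exists_between hq
  have hr0 : 0 < r := (norm_nonneg q0).trans_lt hr1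
  obtain ⟨δ, hδ, hδ2⟩ : ∃ δ : ℝ, 0 < δ ∧ δ * (‖d‖ + 1) ≤ r - ‖q0‖ :=
    ⟨(r - ‖q0‖) / (‖d‖ + 1), by
      have : 0 < r - ‖q0‖ := by linarith
      positivity, by
      rw [div_mul_cancel₀]
      positivity⟩
  have hball : ∀ y ∈ Metric.ball (0 : ℝ) δ, ‖q0 + (y : ℂ) * d‖ ≤ r := by
    intro y hy
    rw [Metric.mem_ball, dist_zero_right, Real.norm_eq_abs] at hy
    refine (norm_add_le _ _).trans ?_
    rw [norm_mul, Complex.norm_real, Real.norm_eq_abs]
    have h1 : |y| * ‖d‖ ≤ δ * (‖d‖ + 1) := by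
      have := norm_nonneg d
      have := abs_nonneg y
      nlinarith
    linarith
  have hsum : d * ngQ q0 w0 + Complex.I * c * ngW q0 w0 =
      ∑' n : ℕ, (d * ((ee n : ℂ) * (q0 + ((0 : ℝ) : ℂ) * d) ^ (ee n - 1) *
        (w0 * Complex.exp (Complex.I * ((c * (0 : ℝ) : ℝ) : ℂ))) ^ (2 * n + 1)) +
        Complex.I * c * ((2 * (n : ℂ) + 1) * (q0 + ((0 : ℝ) : ℂ) * d) ^ ee n *
        (w0 * Complex.exp (Complex.I * ((c * (0 : ℝ) : ℝ) : ℂ))) ^ (2 * n + 1))) := by
    simp only [Complex.ofReal_zero, zero_mul, add_zero, mul_zero, Complex.exp_zero, mul_one]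
    rw [((ng_summableQ hq hw).mul_left d).tsum_add ((ng_summableW hq hw).mul_left _),
      tsum_mul_left, tsum_mul_left]
    rfl
  rw [hsum]
  have he : (fun t : ℝ => half (fun _ => q0 + t * d)
      (w0 * Complex.exp (Complex.I * ((c * t : ℝ) : ℂ)))) = fun t : ℝ => ∑' n : ℕ,
        (q0 + t * d) ^ ee n * (w0 * Complex.exp (Complex.I * ((c * t : ℝ) : ℂ))) ^ (2 * n + 1) := by
    funext t
    unfold half
    simp only [nm_mon]
  rw [he]
  refine hasDerivAt_tsum_of_isPreconnected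
    (u := fun n : ℕ => ‖d‖ * (r⁻¹ * ((2 * (n : ℝ) + 1) ^ 2 * r ^ ee n)) +
      |c| * ((2 * (n : ℝ) + 1) ^ 1 * r ^ ee n))
    (((u1_summable 2 hr0.le hr2).mul_left r⁻¹).mul_left _ |>.add
      ((u1_summable 1 hr0.le hr2).mul_left _))
    (t := Metric.ball (0 : ℝ) δ) Metric.isOpen_ball (convex_ball (0 : ℝ) δ).isPreconnected
    (g' := fun (n : ℕ) (y : ℝ) => d * ((ee n : ℂ) * (q0 + (y : ℂ) * d) ^ (ee n - 1) *
        (w0 * Complex.exp (Complex.I * ((c * y : ℝ) : ℂ))) ^ (2 * n + 1)) +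
        Complex.I * c * ((2 * (n : ℂ) + 1) * (q0 + (y : ℂ) * d) ^ ee n *
        (w0 * Complex.exp (Complex.I * ((c * y : ℝ) : ℂ))) ^ (2 * n + 1)))
    (fun n y hy => ?_) (fun n y hy => ?_) (y₀ := 0) (Metric.mem_ball_self hδ) ?_
    (Metric.mem_ball_self hδ)
  · have h0 : HasDerivAt (fun y : ℝ => Complex.I * ((c * y : ℝ) : ℂ)) (Complex.I * c) y := by
      have h1 : HasDerivAt (fun y : ℝ => ((c * y : ℝ) : ℂ)) (c : ℂ) y := by
        have := ((hasDerivAt_id y).const_mul c).ofReal_comp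
        simpa using this
      simpa using h1.const_mul Complex.I
    have h1 : HasDerivAt (fun y : ℝ => w0 * Complex.exp (Complex.I * ((c * y : ℝ) : ℂ)))
        (w0 * (Complex.exp (Complex.I * ((c * y : ℝ) : ℂ)) * (Complex.I * c))) y :=
      h0.cexp.const_mul w0
    have h2 := h1.pow (2 * n + 1)
    have h3 : HasDerivAt (fun y : ℝ => q0 + (y : ℂ) * d) d y := by
      have := ((Complex.ofRealCLM.hasDerivAt (x := y)).mul_const d).const_add q0
      simpa using this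
    have h4 := h3.pow (ee n)
    refine (h4.mul h2).congr_deriv ?_
    simp only [Pi.pow_apply, Nat.add_sub_cancel]
    push_cast
    ring
  · have hn := ng_rot w0 hw c y
    have hb := hball y hy
    refine (norm_add_le _ _).trans (add_le_add ?_ ?_)
    · rw [norm_mul, norm_mul, norm_mul, norm_pow, norm_pow, hn, one_pow, mul_one,
        Complex.norm_natCast]
      refine mul_le_mul_of_nonneg_left (le_trans ?_ (ng_bQ n hr0)) (norm_nonneg _)
      gcongr
    · rw [norm_mul, norm_mul, Complex.norm_I, one_mul, Complex.norm_real, Real.norm_eq_abs,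
        norm_mul, norm_mul, norm_pow, norm_pow, hn, one_pow, mul_one, ng_norm_odd, pow_one]
      gcongr
  · have : Summable fun n : ℕ => q0 ^ ee n * w0 ^ (2 * n + 1) := u1_half_summable hq hw
    simpa using this

theorem ng_thq {q w : ℂ} (hq : ‖q‖ < 1) (hw : ‖w‖ = 1) : thq q w = ngQ q w + ngQ q (conj w) := by
  have hw' : ‖conj w‖ = 1 := by rw [Complex.norm_conj]; exact hw
  unfold thq ngQ
  rw [← (ng_summableQ hq hw).tsum_add (ng_summableQ hq hw')]
  exact tsum_congr fun n => by ring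

theorem ng_thw {q w : ℂ} (hq : ‖q‖ < 1) (hw : ‖w‖ = 1) : thw q w = ngW q w - ngW q (conj w) := by
  have hw' : ‖conj w‖ = 1 := by rw [Complex.norm_conj]; exact hw
  unfold thw ngW
  rw [← (ng_summableW hq hw).tsum_sub (ng_summableW hq hw')]
  exact tsum_congr fun n => by ring

theorem ng_conj_rot (w0 : ℂ) (x : ℝ) : conj (w0 * Complex.exp (Complex.I * (x : ℂ))) =
    conj w0 * Complex.exp (Complex.I * ((-x : ℝ) : ℂ)) := by
  rw [map_mul, ← Complex.exp_conj, map_mul, Complex.conj_I, Complex.conj_ofReal]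
  congr 2
  push_cast
  ring

/-- the derivative of a window value -/
theorem ng_Fc {q0 w0 : ℂ} (hq : ‖q0‖ < 1) (hw : ‖w0‖ = 1) (da db : ℂ) (c : ℝ) :
    HasDerivAt (fun t : ℝ => Fc (q0 + t * da) (q0 + t * db)
        (w0 * Complex.exp (Complex.I * ((c * t : ℝ) : ℂ))))
      (db * ngQ q0 w0 + da * ngQ q0 (conj w0) + Complex.I * c * thw q0 w0) 0 := by
  have hw' : ‖conj w0‖ = 1 := by rw [Complex.norm_conj]; exact hw
  have h1 := ng_half hq hw db c
  have h2 := ng_half hq hw' da (-c)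
  have e : (fun t : ℝ => Fc (q0 + t * da) (q0 + t * db)
      (w0 * Complex.exp (Complex.I * ((c * t : ℝ) : ℂ)))) =
      fun t : ℝ => half (fun _ => q0 + t * db) (w0 * Complex.exp (Complex.I * ((c * t : ℝ) : ℂ))) +
        half (fun _ => q0 + t * da) (conj w0 * Complex.exp (Complex.I * ((-c * t : ℝ) : ℂ))) := by
    funext t
    unfold Fc
    rw [ng_conj_rot, neg_mul]
  rw [e]
  refine (h1.add h2).congr_deriv ?_
  rw [ng_thw hq hw]
  push_cast
  ring

theorem ng_Fc_conj {q0 w0 : ℂ} (hq : ‖q0‖ < 1) (hw : ‖w0‖ = 1) (da db : ℂ) (c : ℝ) :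
    HasDerivAt (fun t : ℝ => Fc (q0 + t * da) (q0 + t * db)
        (conj (w0 * Complex.exp (Complex.I * ((c * t : ℝ) : ℂ)))))
      (db * ngQ q0 (conj w0) + da * ngQ q0 w0 + Complex.I * c * thw q0 w0) 0 := by
  have hw' : ‖conj w0‖ = 1 := by rw [Complex.norm_conj]; exact hw
  have h := ng_Fc hq hw' da db (-c)
  have e : (fun t : ℝ => Fc (q0 + t * da) (q0 + t * db)
      (conj (w0 * Complex.exp (Complex.I * ((c * t : ℝ) : ℂ))))) =
      fun t : ℝ => Fc (q0 + t * da) (q0 + t * db)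
        (conj w0 * Complex.exp (Complex.I * ((-c * t : ℝ) : ℂ))) := by
    funext t
    rw [ng_conj_rot, neg_mul]
  rw [e]
  refine h.congr_deriv ?_
  rw [ng_thw hq hw, ng_thw hq hw', Complex.conj_conj]
  push_cast
  ring

theorem ng_Fc_conj_val (q w : ℂ) : Fc q q (conj w) = th q w := by
  unfold Fc th
  rw [Complex.conj_conj, add_comm]

theorem PB.lt_one {q0 w0 : ℂ} {lB : ℝ} (hp : PB q0 w0 lB) : ‖q0‖ < 1 := by
  have h1 := norm_add_le (q0 - qc) qc
  rw [sub_add_cancel] at h1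
  have h2 := nm_norm_qc
  have h3 := hp.q
  linarith

theorem near_val {q0 w0 : ℂ} {lB : ℝ} :
    ((natoms q0 w0 lB q0 q0).map fun a => a.l * ‖a.e‖ ^ 2).sum = S1 q0 w0 lB 0 q0 q0 := by
  have hdl : dl q0 q0 q0 = 0 := by unfold dl; ring
  have htau : tau q0 q0 q0 = 0 := by unfold tau; rw [hdl]; simp
  unfold natoms S1
  simp only [htau, hdl, sub_self, Complex.zero_re, Complex.zero_im, mul_zero, Complex.ofReal_zero,
    Complex.exp_zero, mul_one, add_zero, sub_zero, List.map_cons, List.map_nil, List.sum_cons,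
    List.sum_nil, zero_mul]
  rw [← th_eq_Fc, ← th_eq_Fc, ng_Fc_conj_val]
  ring

theorem near_grad {q0 w0 : ℂ} {lB : ℝ} (hp : PB q0 w0 lB) (da db : ℂ) :
    HasDerivAt (fun t : ℝ => ((natoms q0 w0 lB (q0 + t * da) (q0 + t * db)).map
        fun a => a.l * ‖a.e‖ ^ 2).sum)
      (S1 q0 w0 lB 0 (q0 + da) (q0 + db) - S1 q0 w0 lB 0 q0 q0) 0 := by
  have hq := hp.lt_one
  have hw := hp.w
  have h1 : ‖(1 : ℂ)‖ = 1 := norm_one
  obtain ⟨m, hm⟩ : ∃ m : ℂ, m = (da + db) / 2 := ⟨_, rfl⟩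
  obtain ⟨τ, hτ⟩ : ∃ τ : ℝ, τ = -(1 / 5) * m.re + 7 / 10 * m.im := ⟨_, rfl⟩
  obtain ⟨γ, hγ⟩ : ∃ γ : ℝ, γ = -(27 / 20) * (db - da).re - 113 / 100 * (db - da).im := ⟨_, rfl⟩
  have hdl : ∀ t : ℝ, dl q0 (q0 + t * da) (q0 + t * db) = t * m := fun t => by
    rw [hm]
    unfold dl
    ring
  have hsub : ∀ t : ℝ, (q0 + t * db) - (q0 + t * da) = t * (db - da) := fun t => by ring
  have htau : ∀ t : ℝ, tau q0 (q0 + t * da) (q0 + t * db) = τ * t := fun t => by
    unfold tau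
    rw [hdl, Complex.re_ofReal_mul, Complex.im_ofReal_mul, hτ]
    ring
  have hfun : (fun t : ℝ => ((natoms q0 w0 lB (q0 + t * da) (q0 + t * db)).map
        fun a => a.l * ‖a.e‖ ^ 2).sum) = fun t : ℝ =>
      (lAc + 8 / 5 * m.im * t) * ‖Fc (q0 + t * da) (q0 + t * db)
        (1 * Complex.exp (Complex.I * ((7 / 5 * (db - da).re * t : ℝ) : ℂ)))‖ ^ 2 +
      ((lB / 2 * (1 + γ * t)) * ‖Fc (q0 + t * da) (q0 + t * db)
        (w0 * Complex.exp (Complex.I * ((τ * t : ℝ) : ℂ)))‖ ^ 2 +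
      (lB / 2 * (1 - γ * t)) * ‖Fc (q0 + t * da) (q0 + t * db)
        (conj (w0 * Complex.exp (Complex.I * ((τ * t : ℝ) : ℂ))))‖ ^ 2) := by
    funext t
    unfold natoms
    simp only [List.map_cons, List.map_nil, List.sum_cons, List.sum_nil, add_zero]
    rw [htau, hdl, hsub, Complex.re_ofReal_mul, Complex.im_ofReal_mul, Complex.im_ofReal_mul, hγ,
      one_mul]
    have e1 : 7 / 5 * (t * (db - da).re) = 7 / 5 * (db - da).re * t := by ring
    rw [e1]
    ring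
  rw [hfun]
  have hA := u1_sq_deriv (ng_Fc hq h1 da db (7 / 5 * (db - da).re))
  have hB := u1_sq_deriv (ng_Fc hq hw da db τ)
  have hC := u1_sq_deriv (ng_Fc_conj hq hw da db τ)
  have hlA : HasDerivAt (fun t : ℝ => lAc + 8 / 5 * m.im * t) (8 / 5 * m.im) 0 := by
    simpa using ((hasDerivAt_id (0 : ℝ)).const_mul (8 / 5 * m.im)).const_add lAc
  have hlB : HasDerivAt (fun t : ℝ => lB / 2 * (1 + γ * t)) (lB / 2 * γ) 0 := by
    simpa using (((hasDerivAt_id (0 : ℝ)).const_mul γ).const_add 1).const_mul (lB / 2)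
  have hlC : HasDerivAt (fun t : ℝ => lB / 2 * (1 - γ * t)) (lB / 2 * (-γ)) 0 := by
    simpa using (((hasDerivAt_id (0 : ℝ)).const_mul γ).const_sub 1).const_mul (lB / 2)
  refine ((hlA.mul hA).add ((hlB.mul hB).add (hlC.mul hC))).congr_deriv ?_
  have hdl0 : dl q0 q0 q0 = 0 := by unfold dl; ring
  have htau0 : tau q0 q0 q0 = 0 := by unfold tau; rw [hdl0]; simp
  have hdl1 : dl q0 (q0 + da) (q0 + db) = m := by
    have := hdl 1
    simpa using this
  have htau1 : tau q0 (q0 + da) (q0 + db) = τ := by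
    have := htau 1
    simpa using this
  unfold S1
  rw [hdl0, htau0, hdl1, htau1]
  simp only [Complex.ofReal_zero, zero_mul, mul_zero, add_zero, Complex.exp_zero, mul_one,
    sub_zero, Complex.zero_re, Complex.zero_im, map_one]
  rw [← th_eq_Fc, ← th_eq_Fc, ng_Fc_conj_val]
  have hthw1 : thw q0 1 = 0 := by
    rw [ng_thw hq h1, map_one, sub_self]
  have hthq1 : ngQ q0 1 = thq q0 1 / 2 := by
    rw [ng_thq hq h1, map_one]
    ring
  rw [hthw1, hthq1]
  unfold Lag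
  rw [ng_thq hq hw]
  have e2 : db = 2 * m - da := by rw [hm]; ring
  rw [mul_zero, e2]
  generalize th q0 1 = a
  generalize th q0 w0 = b
  generalize thq q0 1 = x
  generalize ngQ q0 w0 = y1
  generalize ngQ q0 (conj w0) = y2
  generalize thw q0 w0 = W
  have e3 : (2 * m - da) * (x / 2) + da * (x / 2) + 0 = x * m := by ring
  rw [e3]
  have e4 : ∀ c : ℝ, ∀ z : ℂ, c * (2 * z.re) = (2 * ((c : ℂ) * z)).re := fun c z => by
    rw [show (2 : ℂ) * ((c : ℂ) * z) = ((2 * c : ℝ) : ℂ) * z by push_cast; ring,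
      Complex.re_ofReal_mul]
    ring
  have e5 : 2 * ((lAc * conj a * x + lB * conj b * (y1 + y2)) * m).re +
      2 * lB * τ * (conj b * (Complex.I * W)).re =
      (2 * ((lAc : ℂ) * (conj a * (x * m)))).re +
        (2 * (((lB / 2 : ℝ) : ℂ) * (conj b * ((2 * m - da) * y1 + da * y2 + Complex.I * τ * W))) +
        2 * (((lB / 2 : ℝ) : ℂ) * (conj b * ((2 * m - da) * y2 + da * y1 + Complex.I * τ * W)))).re := by
    rw [← Complex.add_re, show 2 * lB * τ * (conj b * (Complex.I * W)).re =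
      (((2 * lB * τ : ℝ) : ℂ) * (conj b * (Complex.I * W))).re from
        (Complex.re_ofReal_mul _ _).symm,
      show 2 * ((lAc * conj a * x + lB * conj b * (y1 + y2)) * m).re =
        (((2 : ℝ) : ℂ) * ((lAc * conj a * x + lB * conj b * (y1 + y2)) * m)).re from
        (Complex.re_ofReal_mul _ _).symm, ← Complex.add_re]
    congr 1
    push_cast
    ring
  rw [e4, e4, e4]
  rw [Complex.add_re (2 * _) (2 * _)] at e5
  linarith

end MaxTerm.PA
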