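import Pool.Agent.MaxTerm.PartA.NearFrame
import Pool.Agent.MaxTerm.PartA.NearCost
import Pool.Agent.MaxTerm.PartA.NearGrad

/-!
# Part A, near region: the finite part

Taylor models of `Fc u v w_i`, the weights, `aR n`, `aL n` (`n = 2, 3, 4`), kernel evaluation.
-/

open Filter Topology ComplexConjugate

namespace MaxTerm.PA

namespace Chk.NL

variable {q0 w0 : ℂ} {lB : ℝ}

/-- the main sum -/
noncomputable def mainF (q0 w0 : ℂ) (lB : ℝ) (u v : ℂ) : ℝ :=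
  ((natoms q0 w0 lB u v).map fun a => a.l * ‖a.e‖ ^ 2).sum

theorem has_mainF (hp : PB q0 w0 lB) : (mainT Y0).Has Y0
    (fun y => (mainF q0 w0 lB (uF q0 y) (vF q0 y) : ℂ)) :=
  (has_main hp).congr fun y _ => main_pt q0 w0 lB y

theorem main_axis (hp : PB q0 w0 lB) (i : Fin 4) (da db : ℂ)
    (h : ∀ t : ℝ, uF q0 (axis i t) = q0 + t * da ∧ vF q0 (axis i t) = q0 + t * db) :
    HasDerivAt (fun t : ℝ => ((mainF q0 w0 lB (uF q0 (axis i t)) (vF q0 (axis i t)) : ℝ) : ℂ))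
      ((S1 q0 w0 lB 0 (q0 + da) (q0 + db) - S1 q0 w0 lB 0 q0 q0 : ℝ) : ℂ) 0 := by
  have k := (near_grad hp da db).ofReal_comp
  have e : (fun t : ℝ => ((mainF q0 w0 lB (uF q0 (axis i t)) (vF q0 (axis i t)) : ℝ) : ℂ)) =
      fun t : ℝ => ((((natoms q0 w0 lB (q0 + t * da) (q0 + t * db)).map fun a => a.l * ‖a.e‖ ^ 2).sum : ℝ) : ℂ) := by
    funext t
    rw [(h t).1, (h t).2]
    rfl
  rw [e]
  exact k

theorem S1_affine (q0 w0 : ℂ) (lB : ℝ) (y : Pt) :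
    S1 q0 w0 lB 0 (uF q0 y) (vF q0 y) = S1 q0 w0 lB 0 q0 q0
      + ((S1 q0 w0 lB 0 (q0 + 1) (q0 + 0) - S1 q0 w0 lB 0 q0 q0) * y.y1
        + (S1 q0 w0 lB 0 (q0 + Complex.I) (q0 + 0) - S1 q0 w0 lB 0 q0 q0) * y.y2
        + (S1 q0 w0 lB 0 (q0 + 0) (q0 + 1) - S1 q0 w0 lB 0 q0 q0) * y.y3
        + (S1 q0 w0 lB 0 (q0 + 0) (q0 + Complex.I) - S1 q0 w0 lB 0 q0 q0) * y.y4) := by
  have key : ∀ x y : ℝ, ∀ u v : ℂ, PA.dl q0 u v = ⟨x, y⟩ → S1 q0 w0 lB 0 u v =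
      lAc * (‖th q0 1‖ ^ 2) + lB * (‖th q0 w0‖ ^ 2)
      + 2 * ((Lag q0 w0 lB).re * x - (Lag q0 w0 lB).im * y)
      + 2 * lB * (-(1 / 5) * x + 7 / 10 * y) * (conj (th q0 w0) * (Complex.I * thw q0 w0)).re
      + 8 / 5 * y * (‖th q0 1‖ ^ 2) := by
    intro x y u v h
    unfold S1 tau
    rw [h, Complex.mul_re]
    simp only [sub_zero]
  rw [key ((y.y1 + y.y3) / 2) ((y.y2 + y.y4) / 2) _ _ (by
      apply Complex.ext
      · simp [PA.dl, uF, vF]; ring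
      · simp [PA.dl, uF, vF]; ring),
    key 0 0 q0 q0 (by apply Complex.ext <;> simp [PA.dl]),
    key (1 / 2) 0 (q0 + 1) (q0 + 0) (by
      apply Complex.ext
      · simp [PA.dl]; ring
      · simp [PA.dl]),
    key 0 (1 / 2) (q0 + Complex.I) (q0 + 0) (by
      apply Complex.ext
      · simp [PA.dl]
      · simp [PA.dl]; ring),
    key (1 / 2) 0 (q0 + 0) (q0 + 1) (by
      apply Complex.ext
      · simp [PA.dl]; ring
      · simp [PA.dl]),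
    key 0 (1 / 2) (q0 + 0) (q0 + Complex.I) (by
      apply Complex.ext
      · simp [PA.dl]
      · simp [PA.dl]; ring)]
  ring

theorem main_hasQ (hp : PB q0 w0 lB) : (mainT Y0).HasQ Y0
    (fun y => ((mainF q0 w0 lB (uF q0 y) (vF q0 y) - S1 q0 w0 lB 0 (uF q0 y) (vF q0 y) : ℝ) : ℂ)) := by
  obtain ⟨h, hh, H⟩ := TM.Has.expand dd_pos dd_le1 axin (has_mainF hp)
    (c := ((S1 q0 w0 lB 0 q0 q0 : ℝ) : ℂ)) (by
      show ((mainF q0 w0 lB (uF q0 O0) (vF q0 O0) : ℝ) : ℂ) = _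
      rw [uF_O, vF_O]
      congr 1
      exact near_val)
    (main_axis hp 0 1 0 fun t => by
      constructor
      · apply Complex.ext <;> simp [uF, axis]
      · apply Complex.ext <;> simp [vF, axis])
    (main_axis hp 1 Complex.I 0 fun t => by
      constructor
      · apply Complex.ext <;> simp [uF, axis]
      · apply Complex.ext <;> simp [vF, axis])
    (main_axis hp 2 0 1 fun t => by
      constructor
      · apply Complex.ext <;> simp [uF, axis]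
      · apply Complex.ext <;> simp [vF, axis])
    (main_axis hp 3 0 Complex.I fun t => by
      constructor
      · apply Complex.ext <;> simp [uF, axis]
      · apply Complex.ext <;> simp [vF, axis])
  refine ⟨h, hh, fun y hy => ?_⟩
  obtain ⟨d, hd, e⟩ := H y hy
  refine ⟨d, hd, ?_⟩
  show ((mainF q0 w0 lB (uF q0 y) (vF q0 y) - S1 q0 w0 lB 0 (uF q0 y) (vF q0 y) : ℝ) : ℂ) = _
  rw [Complex.ofReal_sub, e, S1_affine q0 w0 lB y]
  push_cast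
  ring

theorem tot_hasQ (hp : PB q0 w0 lB) : (totT Y0).HasQ Y0
    (fun y => ((mainF q0 w0 lB (uF q0 y) (vF q0 y) - S1 q0 w0 lB 0 (uF q0 y) (vF q0 y)
      - costF q0 w0 lB (uF q0 y) (vF q0 y) : ℝ) : ℂ)) := by
  refine ((main_hasQ hp).add (cost_hasQ hp).neg).congr fun y _ => ?_
  push_cast
  ring

set_option maxRecDepth 100000 in
/-- kernel evaluation -/
theorem dom_tot : dom (totT Y0) = true := by decide +kernel

theorem near_core (hp : PB q0 w0 lB) {u v : ℂ} (hu : SB q0 u) (hv : SB q0 v) :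
    S1 q0 w0 lB 0 u v + 37 / 20 * ‖v - u‖ ^ 2 + 21 / 10 * (‖u - q0‖ ^ 2 + ‖v - q0‖ ^ 2)
      + costF q0 w0 lB u v ≤ mainF q0 w0 lB u v := by
  obtain ⟨h, hh, H⟩ := tot_hasQ hp
  obtain ⟨k, hk, e⟩ := H (pt q0 u v) (pt_in hu hv)
  have hd := dom_sound dom_tot hh hk (pt_in hu hv)
  rw [← e, Complex.ofReal_re, uF_pt, vF_pt] at hd
  have e1 : ‖v - u‖ ^ 2 = ((pt q0 u v).y3 - (pt q0 u v).y1) ^ 2 + ((pt q0 u v).y4 - (pt q0 u v).y2) ^ 2 := by
    rw [← Complex.normSq_eq_norm_sq, Complex.normSq_apply]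
    simp only [pt, Complex.sub_re, Complex.sub_im]
    ring
  have e2 : ‖u - q0‖ ^ 2 = (pt q0 u v).y1 ^ 2 + (pt q0 u v).y2 ^ 2 := by
    rw [← Complex.normSq_eq_norm_sq, Complex.normSq_apply]
    simp only [pt]
    ring
  have e3 : ‖v - q0‖ ^ 2 = (pt q0 u v).y3 ^ 2 + (pt q0 u v).y4 ^ 2 := by
    rw [← Complex.normSq_eq_norm_sq, Complex.normSq_apply]
    simp only [pt]
    ring
  rw [e1, e2, e3]
  linarith

end Chk.NL

theorem near_fin {q0 w0 : ℂ} {lB : ℝ} (hp : PB q0 w0 lB) (κ : ℝ) {u v : ℂ} (hu : SB q0 u)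
    (hv : SB q0 v) :
    S1 q0 w0 lB κ u v + 21 / 10 * (‖u - q0‖ ^ 2 + ‖v - q0‖ ^ 2) ≤
      ((natoms q0 w0 lB u v).map fun a => a.l * (‖a.e‖ ^ 2 - κ)).sum - 37 / 20 * ‖v - u‖ ^ 2
      - 101 / 100 * (‖finR q0 w0 lB u v 1‖ ^ 2 / npE 1 + ‖finR q0 w0 lB u v 2‖ ^ 2 / npE 2
          + ‖finR q0 w0 lB u v 3‖ ^ 2 / npE 3)
      - 101 / 100 * (‖finL q0 w0 lB u v 1‖ ^ 2 / npE 1 + ‖finL q0 w0 lB u v 2‖ ^ 2 / npE 2
          + ‖finL q0 w0 lB u v 3‖ ^ 2 / npE 3) := by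
  have h := Chk.NL.near_core hp hu hv
  have e1 : ((natoms q0 w0 lB u v).map fun a => a.l * (‖a.e‖ ^ 2 - κ)).sum =
      Chk.NL.mainF q0 w0 lB u v - κ * (lAc + 8 / 5 * (dl q0 u v).im + lB) := by
    unfold Chk.NL.mainF natoms
    simp only [List.map_cons, List.map_nil, List.sum_cons, List.sum_nil]
    ring
  have e2 : S1 q0 w0 lB κ u v = S1 q0 w0 lB 0 u v - κ * (lAc + 8 / 5 * (dl q0 u v).im + lB) := by
    unfold S1
    ring
  have e3 : Chk.NL.costF q0 w0 lB u v =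
      101 / 100 * (‖finR q0 w0 lB u v 1‖ ^ 2 / npE 1 + ‖finR q0 w0 lB u v 2‖ ^ 2 / npE 2
          + ‖finR q0 w0 lB u v 3‖ ^ 2 / npE 3)
      + 101 / 100 * (‖finL q0 w0 lB u v 1‖ ^ 2 / npE 1 + ‖finL q0 w0 lB u v 2‖ ^ 2 / npE 2
          + ‖finL q0 w0 lB u v 3‖ ^ 2 / npE 3) := by
    unfold Chk.NL.costF
    ring
  rw [e1, e2]
  rw [e3] at h
  linarith

end MaxTerm.PA
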