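import Pool.Agent.MaxTerm.PartA.NearDefs

/-!
# Part A, near region: the frame (terms of the `EE` series relative to the base point)

`tR n l` is the term number `n` of `EE (Bst q0 w0 lB) (aR (natoms u v)) v l`, relative to the base
point `u = v = q0`; `tL n l` the same on the left side. `finR l`, `finL l` are the sums of the terms
`n = 2, 3, 4`.
-/

open Filter Topology ComplexConjugate

namespace MaxTerm.PA

/-- term `n` of the right series -/
noncomputable def tR (q0 w0 : ℂ) (lB : ℝ) (u v : ℂ) (n l : ℕ) : ℂ :=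
  (gw n l : ℂ) * (aR (natoms q0 w0 lB u v) n * v ^ (ee n - 1)
    - aR (natoms q0 w0 lB q0 q0) n * q0 ^ (ee n - 1))

/-- term `n` of the left series -/
noncomputable def tL (q0 w0 : ℂ) (lB : ℝ) (u v : ℂ) (n l : ℕ) : ℂ :=
  (gw n l : ℂ) * (aL (natoms q0 w0 lB u v) n * u ^ (ee n - 1)
    - aR (natoms q0 w0 lB q0 q0) n * q0 ^ (ee n - 1))

/-- finite part of the right series -/
noncomputable def finR (q0 w0 : ℂ) (lB : ℝ) (u v : ℂ) (l : ℕ) : ℂ :=
  tR q0 w0 lB u v 2 l + tR q0 w0 lB u v 3 l + tR q0 w0 lB u v 4 l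

/-- finite part of the left series -/
noncomputable def finL (q0 w0 : ℂ) (lB : ℝ) (u v : ℂ) (l : ℕ) : ℂ :=
  tL q0 w0 lB u v 2 l + tL q0 w0 lB u v 3 l + tL q0 w0 lB u v 4 l

end MaxTerm.PA
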