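import Pool.Agent.MaxTerm.PartA.NearAux

/-!
# Part A, near region: the moments of the near certificate on the near box (for `NearMain`)
-/

open Filter Topology ComplexConjugate

namespace MaxTerm.PA

theorem nm_near_norm {u : ℂ} (hu : Near u) : ‖u - qc‖ ≤ 28285 / 10000000 := by
  rw [← abs_of_nonneg (norm_nonneg (u - qc)), ← sq_le_sq₀ (abs_nonneg _) (by norm_num), sq_abs,
    Complex.sq_norm, Complex.normSq_apply, Complex.sub_re, Complex.sub_im]
  obtain ⟨a1, a2⟩ := abs_le.1 hu.re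
  obtain ⟨b1, b2⟩ := abs_le.1 hu.im
  nlinarith

theorem nm_near_le {u : ℂ} (hu : Near u) : ‖u‖ ≤ 2835 / 10000 := by
  have h1 := nm_near_norm hu
  have h2 := nm_norm_qc
  have h3 : ‖u‖ ≤ ‖u - qc‖ + ‖qc‖ := by
    have := norm_add_le (u - qc) qc
    rwa [sub_add_cancel] at this
  linarith

theorem nm_qc_le : ‖qc‖ ≤ 2835 / 10000 := nm_norm_qc.trans (by norm_num)

theorem nm_Fc {u v w : ℂ} (hu : Near u) (hv : Near v) (hw : ‖w‖ = 1) :
    ‖Fc u v w - (nmP qc w + nmP qc (conj w))‖ ≤ 71 / 10000 := by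
  have hw' : ‖conj w‖ = 1 := by rw [Complex.norm_conj]; exact hw
  have h1 := nm_half (nm_near_le hv) hw
  have h2 := nm_half (nm_near_le hu) hw'
  have h3 := nm_P_left (nm_near_le hv) nm_qc_le hw
  have h4 := nm_P_left (nm_near_le hu) nm_qc_le hw'
  have h5 := nm_near_norm hv
  have h6 := nm_near_norm hu
  have e : Fc u v w - (nmP qc w + nmP qc (conj w)) =
      ((half (fun _ => v) w - nmP v w) + (half (fun _ => u) (conj w) - nmP u (conj w))) +
      ((nmP v w - nmP qc w) + (nmP u (conj w) - nmP qc (conj w))) := by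
    unfold Fc; ring
  rw [e]
  have t1 := norm_add_le ((half (fun _ => v) w - nmP v w) +
    (half (fun _ => u) (conj w) - nmP u (conj w)))
    ((nmP v w - nmP qc w) + (nmP u (conj w) - nmP qc (conj w)))
  have t2 := norm_add_le (half (fun _ => v) w - nmP v w)
    (half (fun _ => u) (conj w) - nmP u (conj w))
  have t3 := norm_add_le (nmP v w - nmP qc w) (nmP u (conj w) - nmP qc (conj w))
  linarith

theorem nm_eA {u v w : ℂ} (hu : Near u) (hv : Near v) (hw : ‖w‖ = 1)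
    (hw1 : ‖w - 1‖ ≤ 6 / 1000) : ‖Fc u v w - nmEA‖ ≤ 73 / 10000 := by
  have h1 := nm_Fc hu hv hw
  have h2 := nm_P_one nm_qc_le hw
  have h3 := nm_EA
  have e : Fc u v w - nmEA = (Fc u v w - (nmP qc w + nmP qc (conj w))) +
      (nmP qc w + nmP qc (conj w) - (nmP qc 1 + nmP qc 1)) + (nmP qc 1 + nmP qc 1 - nmEA) := by
    ring
  rw [e]
  have t := norm_add₃_le (a := Fc u v w - (nmP qc w + nmP qc (conj w)))
    (b := nmP qc w + nmP qc (conj w) - (nmP qc 1 + nmP qc 1)) (c := nmP qc 1 + nmP qc 1 - nmEA)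
  have h4 : ‖w - 1‖ ^ 2 ≤ (6 / 1000 : ℝ) ^ 2 := pow_le_pow_left₀ (norm_nonneg _) hw1 _
  norm_num at h4
  linarith

theorem nm_eB {u v w : ℂ} (hu : Near u) (hv : Near v) (hw : ‖w‖ = 1) {d : ℝ}
    (hw1 : ‖w - w1c‖ ≤ d) : ‖Fc u v w - nmEB‖ ≤ 711 / 100000 + 394 / 100 * d := by
  have h1 := nm_Fc hu hv hw
  have h3 := nm_EB
  have h2 := nm_P_right (v := qc) nm_qc_le hw.le nm_norm_w1c
  have h4 := nm_P_right (v := qc) (w := conj w) (w' := conj w1c) nm_qc_le
    (by rw [Complex.norm_conj]; exact hw.le) (by rw [Complex.norm_conj]; exact nm_norm_w1c)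
  rw [← map_sub, Complex.norm_conj] at h4
  have e : Fc u v w - nmEB = (Fc u v w - (nmP qc w + nmP qc (conj w))) +
      ((nmP qc w - nmP qc w1c) + (nmP qc (conj w) - nmP qc (conj w1c))) +
      (nmP qc w1c + nmP qc (conj w1c) - nmEB) := by
    ring
  rw [e]
  have t := norm_add₃_le (a := Fc u v w - (nmP qc w + nmP qc (conj w)))
    (b := (nmP qc w - nmP qc w1c) + (nmP qc (conj w) - nmP qc (conj w1c)))
    (c := nmP qc w1c + nmP qc (conj w1c) - nmEB)
  have t2 := norm_add_le (nmP qc w - nmP qc w1c) (nmP qc (conj w) - nmP qc (conj w1c))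
  linarith

/-- `Fc` at the conjugate point -/
theorem nm_eB' {u v w : ℂ} (hu : Near u) (hv : Near v) (hw : ‖w‖ = 1) {d : ℝ}
    (hw1 : ‖w - w1c‖ ≤ d) : ‖Fc u v (conj w) - nmEB‖ ≤ 711 / 100000 + 394 / 100 * d := by
  have hw' : ‖conj w‖ = 1 := by rw [Complex.norm_conj]; exact hw
  have h1 := nm_Fc hu hv hw'
  rw [Complex.conj_conj] at h1
  have h3 := nm_EB
  have h2 := nm_P_right (v := qc) nm_qc_le hw.le nm_norm_w1c
  have h4 := nm_P_right (v := qc) (w := conj w) (w' := conj w1c) nm_qc_le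
    (by rw [Complex.norm_conj]; exact hw.le) (by rw [Complex.norm_conj]; exact nm_norm_w1c)
  rw [← map_sub, Complex.norm_conj] at h4
  have e : Fc u v (conj w) - nmEB = (Fc u v (conj w) - (nmP qc (conj w) + nmP qc w)) +
      ((nmP qc w - nmP qc w1c) + (nmP qc (conj w) - nmP qc (conj w1c))) +
      (nmP qc w1c + nmP qc (conj w1c) - nmEB) := by
    ring
  rw [e]
  have t := norm_add₃_le (a := Fc u v (conj w) - (nmP qc (conj w) + nmP qc w))
    (b := (nmP qc w - nmP qc w1c) + (nmP qc (conj w) - nmP qc (conj w1c)))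
    (c := nmP qc w1c + nmP qc (conj w1c) - nmEB)
  have t2 := norm_add_le (nmP qc w - nmP qc w1c) (nmP qc (conj w) - nmP qc (conj w1c))
  linarith

/-- real part of the powers of the second atom -/
theorem nm_re {w : ℂ} (hw : ‖w‖ = 1) {d lB : ℝ} (hw1 : ‖w - w1c‖ ≤ d) (hB : 0 ≤ lB)
    (hl : |lB - lBc| ≤ 8 / 10000) (n : ℕ) :
    |lB * (w ^ (n + 1)).re - lBc * (w1c ^ (n + 1)).re| ≤ lB * ((n + 1) * d) + 8 / 10000 := by
  have h1 := nm_pow (R := 1) hw.le nm_norm_w1c n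
  rw [one_pow, mul_one] at h1
  have h2 : |(w ^ (n + 1)).re - (w1c ^ (n + 1)).re| ≤ (n + 1) * d := by
    rw [← Complex.sub_re]
    refine (Complex.abs_re_le_norm _).trans (h1.trans ?_)
    exact mul_le_mul_of_nonneg_left hw1 (by positivity)
  have h3 : |(w1c ^ (n + 1)).re| ≤ 1 := by
    refine (Complex.abs_re_le_norm _).trans ?_
    rw [norm_pow]
    exact pow_le_one₀ (norm_nonneg _) nm_norm_w1c
  have e : lB * (w ^ (n + 1)).re - lBc * (w1c ^ (n + 1)).re =
      lB * ((w ^ (n + 1)).re - (w1c ^ (n + 1)).re) + (lB - lBc) * (w1c ^ (n + 1)).re := by ring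
  rw [e]
  refine (abs_add_le _ _).trans ?_
  rw [abs_mul, abs_mul, abs_of_nonneg hB]
  have h4 := mul_le_mul_of_nonneg_left h2 hB
  have h5 : |lB - lBc| * |(w1c ^ (n + 1)).re| ≤ 8 / 10000 * 1 :=
    mul_le_mul hl h3 (abs_nonneg _) (by norm_num)
  linarith

/-- the linear constraints between mean deviation and difference -/
theorem nm_lin {p r c q t : ℝ} (h1 : |p - c| ≤ 1 / 500) (h2 : |r - c| ≤ 1 / 500)
    (h3 : |q - c| ≤ 2 / 100000) (ht : t = (p + r) / 2 - q) :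
    |t| + |r - p| / 2 ≤ 202 / 100000 := by
  subst ht
  rw [abs_le] at h1 h2 h3
  rcases abs_cases ((p + r) / 2 - q) with h | h <;> rcases abs_cases (r - p) with h' | h' <;>
    linarith [h1.1, h1.2, h2.1, h2.2, h3.1, h3.2, h.1, h'.1]

/-- all data of the near certificate -/
structure NMData (L : List Atom) : Prop where
  ok : ∀ a ∈ L, a.OK
  one : 1 ≤ (L.map fun a => a.l).sum
  r3 : ‖aR L 3‖ ≤ 48 / 100
  l3 : ‖aL L 3‖ ≤ 48 / 100
  r4 : ‖aR L 4‖ ≤ 23 / 10
  l4 : ‖aL L 4‖ ≤ 23 / 10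
  cA : cA L ≤ 5 / 2

theorem nm_data {qs w1 : ℂ} {lB : ℝ} (hq : ‖qs - qc‖ ≤ 2 / 100000) (hw : ‖w1‖ = 1)
    (hw' : ‖w1 - w1c‖ ≤ 1 / 10000) (hl : |lB - lBc| ≤ 8 / 10000) {u v : ℂ} (hu : Near u)
    (hv : Near v) : NMData (natoms qs w1 lB u v) := by
  -- linear constraints
  have hqr : |qs.re - qc.re| ≤ 2 / 100000 := by
    rw [← Complex.sub_re]; exact (Complex.abs_re_le_norm _).trans hq
  have hqi : |qs.im - qc.im| ≤ 2 / 100000 := by
    rw [← Complex.sub_im]; exact (Complex.abs_im_le_norm _).trans hq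
  have hdr : (dl qs u v).re = (u.re + v.re) / 2 - qs.re := by
    unfold dl
    simp [Complex.sub_re, Complex.add_re]
  have hdi : (dl qs u v).im = (u.im + v.im) / 2 - qs.im := by
    unfold dl
    simp [Complex.sub_im, Complex.add_im]
  have c1 := nm_lin hu.re hv.re hqr hdr
  have c2 := nm_lin hu.im hv.im hqi hdi
  set A := |(dl qs u v).re| with hA
  set Bq := |(dl qs u v).im| with hBq
  set X := |v.re - u.re| with hX
  set Y := |v.im - u.im| with hY
  have hA0 : 0 ≤ A := abs_nonneg _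
  have hB0 : 0 ≤ Bq := abs_nonneg _
  have hX0 : 0 ≤ X := abs_nonneg _
  have hY0 : 0 ≤ Y := abs_nonneg _
  -- lB
  have hl' := abs_le.1 hl
  have hlB1 : 98 / 100 ≤ lB := by
    have := hl'.1
    unfold lBc at this
    linarith
  have hlB2 : lB ≤ 98161 / 100000 := by
    have := hl'.2
    unfold lBc at this
    linarith
  -- the atoms
  set wA := Complex.exp (Complex.I * ((7 / 5 * (v - u).re : ℝ) : ℂ)) with hwA
  set wB := w1 * Complex.exp (Complex.I * (tau qs u v : ℂ)) with hwB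
  set g := -(27 / 20) * (v - u).re - 113 / 100 * (v - u).im with hg
  have nwA : ‖wA‖ = 1 := by rw [hwA, mul_comm]; exact Complex.norm_exp_ofReal_mul_I _
  have nwB : ‖wB‖ = 1 := by
    rw [hwB, norm_mul, hw, mul_comm Complex.I, Complex.norm_exp_ofReal_mul_I, one_mul]
  have nwB' : ‖conj wB‖ = 1 := by rw [Complex.norm_conj]; exact nwB
  have dA : ‖wA - 1‖ ≤ 7 / 5 * X := by
    rw [hwA]
    refine (Real.norm_exp_I_mul_ofReal_sub_one_le).trans ?_
    rw [Real.norm_eq_abs, abs_mul, Complex.sub_re, abs_of_nonneg (by norm_num : (0 : ℝ) ≤ 7 / 5)]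
  have hτ : |tau qs u v| ≤ 1 / 5 * A + 7 / 10 * Bq := by
    unfold tau
    refine (abs_add_le _ _).trans ?_
    rw [abs_mul, abs_mul]
    norm_num
    rw [hA, hBq]
  set T := 1 / 5 * A + 7 / 10 * Bq with hT
  have hT0 : 0 ≤ T := by rw [hT]; linarith
  have dB : ‖wB - w1c‖ ≤ T + 1 / 10000 := by
    have e : wB - w1c = w1 * (Complex.exp (Complex.I * (tau qs u v : ℂ)) - 1) + (w1 - w1c) := by
      rw [hwB]; ring
    rw [e]
    refine (norm_add_le _ _).trans ?_
    rw [norm_mul, hw, one_mul]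
    have := Real.norm_exp_I_mul_ofReal_sub_one_le (x := tau qs u v)
    rw [Real.norm_eq_abs] at this
    linarith
  have hg1 : |g| ≤ 27 / 20 * X + 113 / 100 * Y := by
    rw [hg, Complex.sub_re, Complex.sub_im]
    refine (abs_sub _ _).trans ?_
    rw [abs_mul, abs_mul]
    norm_num
    rw [hX, hY]
  have hg2 : |g| ≤ 12 / 1000 := by linarith
  have hg3 := abs_le.1 hg2
  have eA := nm_eA hu hv nwA (dA.trans (by linarith))
  have e1 := nm_eB hu hv nwB dB
  have e2 := nm_eB' hu hv nwB dB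
  set D := 711 / 100000 + 394 / 100 * (T + 1 / 10000) with hD
  have hD1 : D ≤ 15 / 1000 := by rw [hD, hT]; linarith
  have nA : ‖Fc u v wA‖ ≤ 17165 / 10000 := by
    have := norm_add_le (Fc u v wA - nmEA) nmEA
    rw [sub_add_cancel] at this
    have h2 := nm_norm_EA
    linarith
  have n1 : ‖Fc u v wB‖ ≤ 17242 / 10000 := by
    have := norm_add_le (Fc u v wB - nmEB) nmEB
    rw [sub_add_cancel] at this
    have h2 := nm_norm_EB
    linarith
  have n2 : ‖Fc u v (conj wB)‖ ≤ 17242 / 10000 := by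
    have := norm_add_le (Fc u v (conj wB) - nmEB) nmEB
    rw [sub_add_cancel] at this
    have h2 := nm_norm_EB
    linarith
  have hB5 : |8 / 5 * (dl qs u v).im| = 8 / 5 * Bq := by
    rw [abs_mul, hBq]; norm_num
  have hB6 := abs_le.1 (le_of_eq hB5)
  have hlA : |lAc + 8 / 5 * (dl qs u v).im - lAc| ≤ 8 / 5 * Bq := by
    rw [add_sub_cancel_left]; exact hB5.le
  have hL : natoms qs w1 lB u v = [⟨wA, lAc + 8 / 5 * (dl qs u v).im, Fc u v wA⟩,
      ⟨wB, lB / 2 * (1 + g), Fc u v wB⟩, ⟨conj wB, lB / 2 * (1 - g), Fc u v (conj wB)⟩] := rfl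
  have hlA0 : 0 ≤ lAc + 8 / 5 * (dl qs u v).im := by
    have := hB6.1
    unfold lAc
    linarith
  have hlp : 0 ≤ lB / 2 * (1 + g) := mul_nonneg (by linarith) (by linarith [hg3.1])
  have hlm : 0 ≤ lB / 2 * (1 - g) := mul_nonneg (by linarith) (by linarith [hg3.2])
  -- the six terms
  have key : ∀ (n : ℕ) (Z W : ℂ) (C : ℝ), ‖Z‖ = 1 → ‖W‖ = 1 → ‖Z - 1‖ ≤ ((n : ℝ) + 1) * (7 / 5 * X) →
      W.re = (wB ^ (n + 1)).re →
      ‖(lAc : ℂ) * conj nmEA + ((lBc * (w1c ^ (n + 1)).re : ℝ) : ℂ) * conj nmEB‖ ≤ C →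
      ‖((lAc + 8 / 5 * (dl qs u v).im : ℝ) : ℂ) * conj (Fc u v wA) * Z +
        ((lB / 2 * (1 + g) : ℝ) : ℂ) * conj (Fc u v wB) * W +
        ((lB / 2 * (1 - g) : ℝ) : ℂ) * conj (Fc u v (conj wB)) * conj W‖ ≤
      C + 8 / 5 * Bq * (17165 / 10000) +
        4004 / 10000 * (((n : ℝ) + 1) * (7 / 5 * X)) * (17165 / 10000) +
        4004 / 10000 * (73 / 10000) + 98161 / 100000 * D +
        98161 / 100000 * (27 / 20 * X + 113 / 100 * Y) * (17242 / 10000) +
        (98161 / 100000 * (((n : ℝ) + 1) * (T + 1 / 10000)) + 8 / 10000) * (17092 / 10000) := by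
    intro n Z W C hZ hW hZ1 hWre hC
    have h := nm_gen (eA := Fc u v wA) (e1 := Fc u v wB) (e2 := Fc u v (conj wB)) (EA := nmEA)
      (EB := nmEB) (lA := lAc + 8 / 5 * (dl qs u v).im) (lB := lB) (g := g)
      (ρ := (w1c ^ (n + 1)).re) (lA0 := lAc) (lB0 := lBc) hZ hW (by unfold lAc; norm_num)
      (by linarith) n1 n2 e1 e2
    have hre := nm_re nwB dB (by linarith) hl n
    rw [← hWre] at hre
    have t1 : |lAc + 8 / 5 * (dl qs u v).im - lAc| * ‖Fc u v wA‖ ≤ 8 / 5 * Bq * (17165 / 10000) :=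
      mul_le_mul hlA nA (norm_nonneg _) (by linarith)
    have t2 : lAc * ‖Z - 1‖ * ‖Fc u v wA‖ ≤
        4004 / 10000 * (((n : ℝ) + 1) * (7 / 5 * X)) * (17165 / 10000) := by
      refine mul_le_mul ?_ nA (norm_nonneg _) (by positivity)
      exact mul_le_mul (by unfold lAc; exact le_rfl) hZ1 (norm_nonneg _) (by norm_num)
    have t3 : lAc * ‖Fc u v wA - nmEA‖ ≤ 4004 / 10000 * (73 / 10000) :=
      mul_le_mul (by unfold lAc; exact le_rfl) eA (norm_nonneg _) (by norm_num)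
    have hD0 : 0 ≤ D := (norm_nonneg _).trans e1
    have t4 : lB * D ≤ 98161 / 100000 * D := mul_le_mul_of_nonneg_right hlB2 hD0
    have t5 : lB * |g| * (17242 / 10000) ≤
        98161 / 100000 * (27 / 20 * X + 113 / 100 * Y) * (17242 / 10000) := by
      refine mul_le_mul_of_nonneg_right ?_ (by norm_num)
      exact mul_le_mul hlB2 hg1 (abs_nonneg _) (by norm_num)
    have t6 : |lB * W.re - lBc * (w1c ^ (n + 1)).re| * ‖nmEB‖ ≤
        (98161 / 100000 * (((n : ℝ) + 1) * (T + 1 / 10000)) + 8 / 10000) * (17092 / 10000) := by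
      refine mul_le_mul (hre.trans ?_) nm_norm_EB (norm_nonneg _) (by positivity)
      have : lB * (((n : ℝ) + 1) * (T + 1 / 10000)) ≤
          98161 / 100000 * (((n : ℝ) + 1) * (T + 1 / 10000)) :=
        mul_le_mul_of_nonneg_right hlB2 (by positivity)
      linarith
    linarith
  have hZ1 : ∀ n : ℕ, ‖wA ^ (n + 1) - 1‖ ≤ ((n : ℝ) + 1) * (7 / 5 * X) := by
    intro n
    have := nm_pow (a := wA) (b := 1) (R := 1) nwA.le (by simp) n
    rw [one_pow, one_pow, mul_one] at this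
    exact this.trans (mul_le_mul_of_nonneg_left dA (by positivity))
  have hZ2 : ∀ n : ℕ, ‖conj wA ^ (n + 1) - 1‖ ≤ ((n : ℝ) + 1) * (7 / 5 * X) := by
    intro n
    have e : conj wA ^ (n + 1) - 1 = conj (wA ^ (n + 1) - 1) := by simp
    rw [e, Complex.norm_conj]
    exact hZ1 n
  have nz1 : ∀ n : ℕ, ‖wA ^ (n + 1)‖ = 1 := fun n => by rw [norm_pow, nwA, one_pow]
  have nz2 : ∀ n : ℕ, ‖conj wA ^ (n + 1)‖ = 1 := fun n => by
    rw [norm_pow, Complex.norm_conj, nwA, one_pow]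
  have nw1 : ∀ n : ℕ, ‖wB ^ (n + 1)‖ = 1 := fun n => by rw [norm_pow, nwB, one_pow]
  have nw2 : ∀ n : ℕ, ‖conj wB ^ (n + 1)‖ = 1 := fun n => by rw [norm_pow, nwB', one_pow]
  have re2 : ∀ n : ℕ, (conj wB ^ (n + 1)).re = (wB ^ (n + 1)).re := fun n => by
    rw [← map_pow, Complex.conj_re]
  have eR : ∀ n : ℕ, aR (natoms qs w1 lB u v) n =
      ((lAc + 8 / 5 * (dl qs u v).im : ℝ) : ℂ) * conj (Fc u v wA) * wA ^ (2 * n + 1) +
        ((lB / 2 * (1 + g) : ℝ) : ℂ) * conj (Fc u v wB) * wB ^ (2 * n + 1) +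
        ((lB / 2 * (1 - g) : ℝ) : ℂ) * conj (Fc u v (conj wB)) * conj (wB ^ (2 * n + 1)) := by
    intro n
    rw [hL]
    simp only [aR, List.map_cons, List.map_nil, List.sum_cons, List.sum_nil, map_pow]
    ring
  have eL : ∀ n : ℕ, aL (natoms qs w1 lB u v) n =
      ((lAc + 8 / 5 * (dl qs u v).im : ℝ) : ℂ) * conj (Fc u v wA) * conj wA ^ (2 * n + 1) +
        ((lB / 2 * (1 + g) : ℝ) : ℂ) * conj (Fc u v wB) * conj wB ^ (2 * n + 1) +
        ((lB / 2 * (1 - g) : ℝ) : ℂ) * conj (Fc u v (conj wB)) * conj (conj wB ^ (2 * n + 1)) := by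
    intro n
    rw [hL]
    simp only [aL, List.map_cons, List.map_nil, List.sum_cons, List.sum_nil, map_pow]
    ring
  refine ⟨?_, ?_, ?_, ?_, ?_, ?_, ?_⟩
  · rw [hL]
    intro a ha
    simp only [List.mem_cons, List.not_mem_nil, or_false] at ha
    rcases ha with rfl | rfl | rfl
    · exact ⟨nwA, hlA0⟩
    · exact ⟨nwB, hlp⟩
    · exact ⟨nwB', hlm⟩
  · rw [hL]
    simp only [List.map_cons, List.map_nil, List.sum_cons, List.sum_nil]
    have := hB6.1
    unfold lAc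
    linarith
  · rw [eR 3]
    have := key 6 (wA ^ 7) (wB ^ 7) _ (nz1 6) (nw1 6) (hZ1 6) rfl nm_C7
    refine this.trans ?_
    rw [hD, hT]
    push_cast
    linarith
  · rw [eL 3]
    have := key 6 (conj wA ^ 7) (conj wB ^ 7) _ (nz2 6) (nw2 6) (hZ2 6) (re2 6) nm_C7
    refine this.trans ?_
    rw [hD, hT]
    push_cast
    linarith
  · rw [eR 4]
    have := key 8 (wA ^ 9) (wB ^ 9) _ (nz1 8) (nw1 8) (hZ1 8) rfl nm_C9
    refine this.trans ?_
    rw [hD, hT]
    push_cast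
    linarith
  · rw [eL 4]
    have := key 8 (conj wA ^ 9) (conj wB ^ 9) _ (nz2 8) (nw2 8) (hZ2 8) (re2 8) nm_C9
    refine this.trans ?_
    rw [hD, hT]
    push_cast
    linarith
  · rw [hL]
    simp only [PA.cA, List.map_cons, List.map_nil, List.sum_cons, List.sum_nil]
    have t1 : (lAc + 8 / 5 * (dl qs u v).im) * ‖Fc u v wA‖ ≤ 404 / 1000 * (17165 / 10000) := by
      refine mul_le_mul ?_ nA (norm_nonneg _) (by norm_num)
      have := hB6.2
      unfold lAc
      linarith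
    have t2 := mul_le_mul_of_nonneg_left n1 hlp
    have t3 := mul_le_mul_of_nonneg_left n2 hlm
    have t4 : lB / 2 * (1 + g) * (17242 / 10000) + lB / 2 * (1 - g) * (17242 / 10000) =
        lB * (17242 / 10000) := by ring
    linarith

end MaxTerm.PA
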