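import Pool.Agent.MaxTerm.PartA.Expand
import Pool.Agent.MaxTerm.PartA.ModeE
import Pool.Agent.MaxTerm.PartA.WinId
import Pool.Agent.MaxTerm.PartA.BOKst
import Pool.Agent.MaxTerm.PartA.NearNum

/-!
# Part A: the near region

`G_ge` with the atoms `natoms qs w1 lB u v`, `Rs_modeE` on both sides (`A = nA`, `r = nr`, ...):
`c0 + 2 Re (aR 1 v) + 2 Re (aL 1 u) + 2 Re ∑_{n≥2} (aR n v^ee n + aL n u^ee n)
   = ∑ l (2 Re (conj e Fc) - ‖e‖² - K²) = ∑ l (‖Fc‖² - K²)`,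
so `G ≥ Sf qs w1 lB (K²) u v = Sf qs w1 lB (Kstar²) u v + (∑ l) (Kstar² - K²)`, and `S_expand` with `S1 = 0`
(`Crit`) gives `G ≥ (∑ l) (Kstar² - K²) ≥ Kstar² - K²`.
Numerical conditions: `‖aR 3‖, ‖aL 3‖ ≤ 0.48` (true `0.40`), `‖aR 4‖, ‖aL 4‖ ≤ 2.3` (true `2.15`), `cA ≤ 5/2`
(true `2.361`), all for `u, v` in `SB qs`.
-/

open Filter Topology ComplexConjugate

namespace MaxTerm.PA

theorem nm_list {u v : ℂ} {K2 : ℝ} {L : List Atom} (hL : ∀ a ∈ L, a.e = Fc u v a.w) :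
    2 * ((L.map fun a => (a.l : ℂ) * conj a.e * half (fun _ => v) a.w).sum +
      (L.map fun a => (a.l : ℂ) * conj a.e * half (fun _ => u) (conj a.w)).sum).re -
      (L.map fun a => a.l * (‖a.e‖ ^ 2 + K2)).sum =
    (L.map fun a => a.l * (‖a.e‖ ^ 2 - K2)).sum := by
  induction L with
  | nil => simp
  | cons a L ih =>
    have ih' := ih (fun b hb => hL b (List.mem_cons_of_mem _ hb))
    have ha := hL a List.mem_cons_self
    simp only [List.map_cons, List.sum_cons, Complex.add_re] at ih' ⊢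
    have h1 : (a.l : ℂ) * conj a.e * half (fun _ => v) a.w +
        (a.l : ℂ) * conj a.e * half (fun _ => u) (conj a.w) =
        ((a.l * ‖a.e‖ ^ 2 : ℝ) : ℂ) := by
      rw [← mul_add]
      have : half (fun _ => v) a.w + half (fun _ => u) (conj a.w) = a.e := by
        rw [ha]; rfl
      rw [this, mul_assoc, Complex.conj_mul']
      push_cast
      ring
    have h2 := congrArg Complex.re h1
    rw [Complex.add_re, Complex.ofReal_re] at h2
    linarith

theorem nm_shift {K2 K2' : ℝ} (L : List Atom) :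
    (L.map fun a => a.l * (‖a.e‖ ^ 2 - K2)).sum =
      (L.map fun a => a.l * (‖a.e‖ ^ 2 - K2')).sum + (L.map fun a => a.l).sum * (K2' - K2) := by
  induction L with
  | nil => simp
  | cons a L ih =>
    simp only [List.map_cons, List.sum_cons]
    rw [ih]
    ring

theorem nm_p1 : 0 < p1E nr nc4 nc5 nc6 nc7 := by
  unfold p1E K11 nr nc4 nc5 nc6 nc7
  norm_num

theorem nm_p2 : 0 < p2E nr nc4 nc5 nc6 nc7 := by
  unfold p2E K22 nr nc4 nc5 nc6 nc7
  norm_num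

theorem nm_p3 : 0 < p3E nr nc5 nc6 nc7 := by
  unfold p3E K33 nr nc5 nc6 nc7
  norm_num

/-- mode E on the near box -/
theorem nm_modeE {B α s : ℕ → ℂ} (hB : BOK B) (hs : ∀ i, ‖s i‖ ≤ 3 / 5) (hn : Near (s 0))
    (hA : ∀ n, ‖α n‖ ≤ 5 / 2) (h3 : ‖α 3‖ ≤ 48 / 100) (h4 : ‖α 4‖ ≤ 23 / 10) :
    2 * (∑' n : ℕ, α (n + 2) * s 0 ^ ee (n + 2)).re
      - ∑' l : ℕ, ‖EE B α (s 0) (l + 1)‖ ^ 2 / npE (l + 1) ≤ Rs B α s := by
  refine Rs_modeE (A := nA) (r := nr) (c4 := nc4) (c5 := nc5) (c6 := nc6) (c7 := nc7) hB hs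
    (nm_near_le hn) (by unfold nr; norm_num) ?_ (fun n _ => hA n) ?_ ?_ ?_ ?_ ?_ ?_ nm_p1 nm_p2
    nm_p3
  · have := (abs_le.1 hn.im).1
    unfold qc at this
    simp only at this
    have h5 : 1 / 8 ≤ (s 0).im := by linarith
    exact h5.trans (le_abs_self _)
  · unfold nr nc4
    have := norm_nonneg (α 3)
    nlinarith
  · unfold nr nc5
    have := norm_nonneg (α 4)
    nlinarith
  · unfold nA nr nc6; norm_num
  · unfold nc6; norm_num
  · unfold nA nr nc7; norm_num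
  · unfold nc7; norm_num

theorem nm_SB {qs u : ℂ} (hq : ‖qs - qc‖ ≤ 2 / 100000) (hu : Near u) : SB qs u := by
  have hqr : |qs.re - qc.re| ≤ 2 / 100000 := by
    rw [← Complex.sub_re]; exact (Complex.abs_re_le_norm _).trans hq
  have hqi : |qs.im - qc.im| ≤ 2 / 100000 := by
    rw [← Complex.sub_im]; exact (Complex.abs_im_le_norm _).trans hq
  have h1 := abs_le.1 hqr
  have h2 := abs_le.1 hqi
  have h3 := abs_le.1 hu.re
  have h4 := abs_le.1 hu.im
  refine ⟨?_, ?_⟩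
  · rw [Complex.sub_re, abs_le]
    constructor <;> linarith [h1.1, h1.2, h3.1, h3.2]
  · rw [Complex.sub_im, abs_le]
    constructor <;> linarith [h2.1, h2.2, h4.1, h4.2]

theorem nm_summable_B {B : ℕ → ℂ} (hB : BOK B) : Summable fun l => ‖B l‖ := by
  rw [← summable_nat_add_iff 1]
  exact Summable.of_nonneg_of_le (fun _ => norm_nonneg _) (fun l => ModeE.B_le hB l)
    ModeE.summable_half

theorem near_main {qs w1 : ℂ} {lB : ℝ} (hc : Crit qs w1 lB) {K : ℝ} {q : ℤ → ℂ}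
    (hC : BiChain K q) (hK0 : 0 ≤ K) (hK : K < Kstar) (hX : ∀ i, ‖q i‖ ≤ 3 / 5) (j : ℤ)
    (hu : Near (q j)) (hv : Near (q (j + 1))) :
    Kstar ^ 2 - K ^ 2 ≤ G (Bst qs w1 lB) q j := by
  have hd := nm_data hc.q hc.w hc.w' (hc.l.trans (by norm_num)) hu hv
  have hB := BOK_Bst hc.q hc.w hc.w' hc.l
  have hG := G_ge (K2 := K ^ 2) hC hK0 le_rfl hX (nm_summable_B hB) hd.ok j
  have hrt : rt q j 0 = q (j + 1) := by simp [rt]
  have hlf : lf q j 0 = q j := by simp [lf]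
  have hR := nm_modeE (s := rt q j) hB (fun i => hX _) (by rw [hrt]; exact hv)
    (fun n => (norm_aR_le hd.ok n).trans hd.cA) hd.r3 hd.r4
  have hL := nm_modeE (s := lf q j) hB (fun i => hX _) (by rw [hlf]; exact hu)
    (fun n => (norm_aL_le hd.ok n).trans hd.cA) hd.l3 hd.l4
  rw [hrt] at hR
  rw [hlf] at hL
  have sR := wi_split (wi_hasSum_aR (s := fun _ => q (j + 1)) (fun _ => hX _) hd.ok)
  have sL := wi_split (wi_hasSum_aL (s := fun _ => q j) (fun _ => hX _) hd.ok)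
  simp only [nm_mon] at sR sL
  have hE : ∀ a ∈ natoms qs w1 lB (q j) (q (j + 1)), a.e = Fc (q j) (q (j + 1)) a.w := by
    intro a ha
    simp only [natoms, List.mem_cons, List.not_mem_nil, or_false] at ha
    rcases ha with rfl | rfl | rfl <;> rfl
  have hlist := nm_list (K2 := K ^ 2) hE
  rw [nm_shift (K2 := K ^ 2) (K2' := Kstar ^ 2), sR, sL] at hlist
  have hp : PB qs w1 lB := by
    refine ⟨hc.q.trans (by norm_num), hc.w, hc.w'.trans (by norm_num), hc.l.trans (by norm_num)⟩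
  have hS := S_expand hp (Kstar ^ 2) (nm_SB hc.q hu) (nm_SB hc.q hv)
  have hS1 : S1 qs w1 lB (Kstar ^ 2) (q j) (q (j + 1)) = 0 := by
    unfold S1
    rw [hc.KA, hc.KB, hc.lag, hc.crit]
    simp
  rw [hS1] at hS
  have hS2 : 0 ≤ Sf qs w1 lB (Kstar ^ 2) (q j) (q (j + 1)) := by
    have := sq_nonneg ‖q j - qs‖
    have := sq_nonneg ‖q (j + 1) - qs‖
    linarith
  unfold Sf at hS2
  have hone : Kstar ^ 2 - K ^ 2 ≤
      ((natoms qs w1 lB (q j) (q (j + 1))).map fun a => a.l).sum * (Kstar ^ 2 - K ^ 2) := by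
    have h0 : 0 ≤ Kstar ^ 2 - K ^ 2 := by nlinarith
    nlinarith [hd.one]
  unfold c0 at hG
  simp only [Complex.add_re] at hlist hG
  linarith

end MaxTerm.PA
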