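import Pool.Agent.MaxTerm.PartA.NearTM
import Pool.Agent.MaxTerm.PartA.NearFrame

/-!
# Part A, near region: quadratic forms, positivity of the total form
-/

open ComplexConjugate

namespace MaxTerm.PA.Chk

/-- `f` is a quadratic plus a cubic form enclosed by `M` -/
def TM.HasQ (Y : Bx) (M : TM) (f : Pt → ℂ) : Prop :=
  ∃ h : Quad, h.Mem M ∧ ∀ y : Pt, y.In Y → ∃ d : Cub, d.Mem M ∧ f y = h.ev y + d.ev y

namespace TM.HasQ

variable {Y : Bx} {A B : TM} {f g : Pt → ℂ}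

theorem congr (h : A.HasQ Y f) (hfg : ∀ y, y.In Y → g y = f y) : A.HasQ Y g := by
  obtain ⟨h, hh, ha⟩ := h
  refine ⟨h, hh, fun y hy => ?_⟩
  rw [hfg y hy]
  exact ha y hy

theorem neg (hA : A.HasQ Y f) : TM.HasQ Y (A.neg) (fun y => -f y) := by
  obtain ⟨pa, hpa, ha⟩ := hA
  refine ⟨⟨-pa.q11, -pa.q12, -pa.q13, -pa.q14, -pa.q22, -pa.q23,
   -pa.q24, -pa.q33, -pa.q34, -pa.q44⟩,
    ⟨hpa.q11.neg, hpa.q12.neg, hpa.q13.neg, hpa.q14.neg, hpa.q22.neg, hpa.q23.neg,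
   hpa.q24.neg, hpa.q33.neg, hpa.q34.neg, hpa.q44.neg⟩, fun y hy => ?_⟩
  obtain ⟨dd, hd, e⟩ := ha y hy
  refine ⟨⟨-dd.d111, -dd.d112, -dd.d113, -dd.d114, -dd.d122, -dd.d123,
   -dd.d124, -dd.d133, -dd.d134, -dd.d144, -dd.d222, -dd.d223,
   -dd.d224, -dd.d233, -dd.d234, -dd.d244, -dd.d333, -dd.d334,
   -dd.d344, -dd.d444⟩,
    ⟨hd.d111.neg, hd.d112.neg, hd.d113.neg, hd.d114.neg, hd.d122.neg, hd.d123.neg,
   hd.d124.neg, hd.d133.neg, hd.d134.neg, hd.d144.neg, hd.d222.neg, hd.d223.neg,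
   hd.d224.neg, hd.d233.neg, hd.d234.neg, hd.d244.neg, hd.d333.neg, hd.d334.neg,
   hd.d344.neg, hd.d444.neg⟩, ?_⟩
  simp only [e, Quad.ev, Cub.ev]
  ring

theorem cmul (hA : A.HasQ Y f) {k : CB} {z : ℂ} (hk : CB.Mem z k) : TM.HasQ Y (A.cmul k) (fun y => z * f y) := by
  obtain ⟨pa, hpa, ha⟩ := hA
  refine ⟨⟨z * pa.q11, z * pa.q12, z * pa.q13, z * pa.q14, z * pa.q22, z * pa.q23,
   z * pa.q24, z * pa.q33, z * pa.q34, z * pa.q44⟩,
    ⟨hk.mul hpa.q11, hk.mul hpa.q12, hk.mul hpa.q13, hk.mul hpa.q14, hk.mul hpa.q22, hk.mul hpa.q23,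
   hk.mul hpa.q24, hk.mul hpa.q33, hk.mul hpa.q34, hk.mul hpa.q44⟩, fun y hy => ?_⟩
  obtain ⟨dd, hd, e⟩ := ha y hy
  refine ⟨⟨z * dd.d111, z * dd.d112, z * dd.d113, z * dd.d114, z * dd.d122, z * dd.d123,
   z * dd.d124, z * dd.d133, z * dd.d134, z * dd.d144, z * dd.d222, z * dd.d223,
   z * dd.d224, z * dd.d233, z * dd.d234, z * dd.d244, z * dd.d333, z * dd.d334,
   z * dd.d344, z * dd.d444⟩,
    ⟨hk.mul hd.d111, hk.mul hd.d112, hk.mul hd.d113, hk.mul hd.d114, hk.mul hd.d122, hk.mul hd.d123,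
   hk.mul hd.d124, hk.mul hd.d133, hk.mul hd.d134, hk.mul hd.d144, hk.mul hd.d222, hk.mul hd.d223,
   hk.mul hd.d224, hk.mul hd.d233, hk.mul hd.d234, hk.mul hd.d244, hk.mul hd.d333, hk.mul hd.d334,
   hk.mul hd.d344, hk.mul hd.d444⟩, ?_⟩
  simp only [e, Quad.ev, Cub.ev]
  ring

theorem add (hA : A.HasQ Y f) (hB : B.HasQ Y g) : TM.HasQ Y (A.add B) (fun y => f y + g y) := by
  obtain ⟨pa, hpa, ha⟩ := hA
  obtain ⟨pb, hpb, hb⟩ := hB
  refine ⟨⟨pa.q11 + pb.q11, pa.q12 + pb.q12, pa.q13 + pb.q13, pa.q14 + pb.q14, pa.q22 + pb.q22, pa.q23 + pb.q23,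
   pa.q24 + pb.q24, pa.q33 + pb.q33, pa.q34 + pb.q34, pa.q44 + pb.q44⟩,
    ⟨hpa.q11.add hpb.q11, hpa.q12.add hpb.q12, hpa.q13.add hpb.q13, hpa.q14.add hpb.q14, hpa.q22.add hpb.q22, hpa.q23.add hpb.q23,
   hpa.q24.add hpb.q24, hpa.q33.add hpb.q33, hpa.q34.add hpb.q34, hpa.q44.add hpb.q44⟩, fun y hy => ?_⟩
  obtain ⟨da, hda, e⟩ := ha y hy
  obtain ⟨db, hdb, e'⟩ := hb y hy
  refine ⟨⟨da.d111 + db.d111, da.d112 + db.d112, da.d113 + db.d113, da.d114 + db.d114, da.d122 + db.d122, da.d123 + db.d123,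
   da.d124 + db.d124, da.d133 + db.d133, da.d134 + db.d134, da.d144 + db.d144, da.d222 + db.d222, da.d223 + db.d223,
   da.d224 + db.d224, da.d233 + db.d233, da.d234 + db.d234, da.d244 + db.d244, da.d333 + db.d333, da.d334 + db.d334,
   da.d344 + db.d344, da.d444 + db.d444⟩,
    ⟨hda.d111.add hdb.d111, hda.d112.add hdb.d112, hda.d113.add hdb.d113, hda.d114.add hdb.d114, hda.d122.add hdb.d122, hda.d123.add hdb.d123,
   hda.d124.add hdb.d124, hda.d133.add hdb.d133, hda.d134.add hdb.d134, hda.d144.add hdb.d144, hda.d222.add hdb.d222, hda.d223.add hdb.d223,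
   hda.d224.add hdb.d224, hda.d233.add hdb.d233, hda.d234.add hdb.d234, hda.d244.add hdb.d244, hda.d333.add hdb.d333, hda.d334.add hdb.d334,
   hda.d344.add hdb.d344, hda.d444.add hdb.d444⟩, ?_⟩
  simp only [e, e', Quad.ev, Cub.ev]
  ring

end TM.HasQ

namespace NL

open MaxTerm.PA

/-! ### positivity -/

theorem lo_le {z : ℂ} {a : CB} (h : CB.Mem z a) : rv (lo a) ≤ z.re := h.re_ge

theorem ab_ge {z : ℂ} {a : CB} (h : CB.Mem z a) : |z.re| ≤ rv (ab a 0) := by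
  have h1 := h.abs_re_le
  have e : ab a 0 = Int.add (absI a.re) a.rad := by
    unfold ab
    rw [show Int.add a.re 0 = a.re from Int.add_zero _]
  rw [e]
  exact h1

/-- `3.7` rounded -/
theorem ab_ge37 {z : ℂ} {a : CB} (h : CB.Mem z a) : |z.re + 37 / 10| ≤ rv (ab a 4068193022772) + 1 / 2 ^ 40 := by
  have h1 : |z.re - rv a.re| ≤ rv a.rad := by
    have h2 := Complex.abs_re_le_norm (z - a.mid)
    have h3 : (z - a.mid).re = z.re - rv a.re := rfl
    rw [h3] at h2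
    exact h2.trans h
  have e : rv (ab a 4068193022772) = |rv a.re + rv 4068193022772| + rv a.rad := by
    simp only [ab, rv_add, rv_absI]
  have e2 : |(37 / 10 : ℝ) - rv 4068193022772| ≤ 1 / 2 ^ 40 := by
    unfold rv
    rw [abs_le]
    constructor <;> norm_num
  rw [e]
  have e3 : z.re + 37 / 10 = (z.re - rv a.re) + (rv a.re + rv 4068193022772) + (37 / 10 - rv 4068193022772) := by ring
  rw [e3]
  refine (abs_add_le _ _).trans ?_
  have := abs_add_le (z.re - rv a.re) (rv a.re + rv 4068193022772)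
  linarith


theorem cub_le {z : ℂ} {a : CB} (h : CB.Mem z a) {x y t : ℝ} (hy : |y| ≤ rv dl) :
    -(rv dl * rv (ab a 0) * (|x| * |t|)) ≤ z.re * (x * y * t) := by
  have h1 := ab_ge h
  have h2 : |z.re * (x * y * t)| ≤ rv dl * rv (ab a 0) * (|x| * |t|) := by
    rw [abs_mul, abs_mul, abs_mul]
    have h3 : |z.re| * |y| ≤ rv (ab a 0) * rv dl := mul_le_mul h1 hy (abs_nonneg _) ((abs_nonneg _).trans h1)
    have h4 : 0 ≤ |x| * |t| := by positivity
    calc |z.re| * (|x| * |y| * |t|) = (|z.re| * |y|) * (|x| * |t|) := by ring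
      _ ≤ (rv (ab a 0) * rv dl) * (|x| * |t|) := mul_le_mul_of_nonneg_right h3 h4
      _ = _ := by ring
  exact (abs_le.1 h2).1

theorem quad_le {c e x t : ℝ} (h : |c| ≤ e) : -(e * (|x| * |t|)) ≤ c * (x * t) := by
  have h2 : |c * (x * t)| ≤ e * (|x| * |t|) := by
    rw [abs_mul, abs_mul]
    exact mul_le_mul_of_nonneg_right h (by positivity)
  exact (abs_le.1 h2).1

/-- pairs of different parity: `x` has the small weight -/
theorem off1 {e x t : ℝ} (he : 0 ≤ e) : e * (|x| * |t|) ≤ e * (x ^ 2 + 1 / 4 * t ^ 2) := by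
  apply mul_le_mul_of_nonneg_left _ he
  rw [← sq_abs x, ← sq_abs t]
  nlinarith [sq_nonneg (|x| - 1 / 2 * |t|)]

theorem off2 {e x t : ℝ} (he : 0 ≤ e) : e * (|x| * |t|) ≤ e * (1 / 2 * x ^ 2 + 1 / 2 * t ^ 2) := by
  apply mul_le_mul_of_nonneg_left _ he
  rw [← sq_abs x, ← sq_abs t]
  nlinarith [sq_nonneg (|x| - |t|)]


set_option maxHeartbeats 4000000 in
/-- positivity of the total form -/
theorem dom_sound {A : TM} (hA : dom A = true) {h : Quad} (hh : h.Mem A) {k : Cub} (hk : k.Mem A) {y : Pt}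
    (hy : y.In Y0) :
    37 / 20 * ((y.y3 - y.y1) ^ 2 + (y.y4 - y.y2) ^ 2) + 21 / 10 * (y.y1 ^ 2 + y.y2 ^ 2 + y.y3 ^ 2 + y.y4 ^ 2)
      ≤ (h.ev y + k.ev y).re := by
  have hb := (in_iff y).1 hy
  unfold dd at hb
  simp only [dom, Bool.and_eq_true, isPos_iff] at hA
  obtain ⟨⟨r1, r3⟩, r2, r4⟩ := hA
  have pz : ∀ {x : Int}, 0 < x → 0 < rv x := by
    intro x hx
    unfold rv
    have : (0 : ℝ) < x := by exact_mod_cast hx
    positivity
  have m4 : ∀ x : Int, rv (Int.mul 4 x) = 4 * rv x := by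
    intro x
    show rv (4 * x) = _
    unfold rv
    push_cast
    ring
  have m2 : ∀ x : Int, rv (Int.mul 2 x) = 2 * rv x := by
    intro x
    show rv (2 * x) = _
    unfold rv
    push_cast
    ring
  -- the one ulp of the `3.7` terms is absorbed: integers `> 0` are `≥ 1`
  have pz1 : ∀ {x : Int}, 0 < x → 1 / 2 ^ 40 ≤ rv x := by
    intro x hx
    unfold rv
    have : (1 : ℝ) ≤ x := by exact_mod_cast hx
    gcongr
  have R1 := pz1 r1
  have R2 := pz1 r2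
  have R3 := pz1 r3
  have R4 := pz1 r4
  simp only [rv_add, rv_neg, m4, m2] at R1 R2 R3 R4
  have hdl : 0 ≤ rv dl := by unfold rv dl; norm_num
  -- diagonal
  have dgl : ∀ {z w : ℂ} {a b : CB} {x : ℝ}, CB.Mem z a → CB.Mem w b → |x| ≤ rv dl →
      (rv (dg a b) + 79 / 20 + 1 / 2 * (1 / 2 ^ 40)) * x ^ 2 ≤ z.re * (x * x) + w.re * (x * x * x) := by
    intro z w a b x hz hw hx
    have e1 := lo_le hz
    have e2 := cub_le hw (x := x) (t := x) hx
    have e3 : rv (dg a b) = rv (lo a) + rv (-4343070929716) + -rv (mulU dl (ab b 0)) := by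
      simp only [dg, rv_add, rv_neg]
    have e4 : rv (-4343070929716) ≤ -(79 / 20) - 1 / 2 * (1 / 2 ^ 40) := by unfold rv; norm_num
    have e5 : rv dl * rv (ab b 0) ≤ rv (mulU dl (ab b 0)) := rv_mul_le_mulU
    have e6 : |x| * |x| = x ^ 2 := by rw [← sq, sq_abs]
    rw [e6] at e2
    have e7 : 0 ≤ x ^ 2 := sq_nonneg x
    have e8 : (rv (dg a b) + 79 / 20 + 1 / 2 * (1 / 2 ^ 40)) * x ^ 2 ≤ (z.re - rv dl * rv (ab b 0)) * x ^ 2 := by
      apply mul_le_mul_of_nonneg_right _ e7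
      linarith
    nlinarith

  have D1 := dgl hh.q11 hk.d111 hb.h1
  have D2 := dgl hh.q22 hk.d222 hb.h2
  have D3 := dgl hh.q33 hk.d333 hb.h3
  have D4 := dgl hh.q44 hk.d444 hb.h4
  have F12 : -((rv (e12 A)) * (|y.y1| * |y.y2|)) ≤ (h.q12.re) * (y.y1 * y.y2)
      + (k.d112.re * (y.y1 * y.y1 * y.y2) + k.d122.re * (y.y1 * y.y2 * y.y2)) := by
    have a0 := quad_le (x := y.y1) (t := y.y2) (ab_ge hh.q12)
    have a1 := cub_le hk.d112 (x := y.y1) (t := y.y2) hb.h1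
    have a2 := cub_le hk.d122 (x := y.y1) (t := y.y2) hb.h2
    have b0 : rv dl * rv (Int.add (ab A.d112 0) (ab A.d122 0)) ≤ rv (mulU dl (Int.add (ab A.d112 0) (ab A.d122 0))) :=
      rv_mul_le_mulU
    have b1 : rv (e12 A) = rv (ab A.q12 0) + rv (mulU dl (Int.add (ab A.d112 0) (ab A.d122 0))) := by
      simp only [e12, e2, rv_add]
    have b2 : rv (Int.add (ab A.d112 0) (ab A.d122 0)) = rv (ab A.d112 0) + rv (ab A.d122 0) := by
      simp only [rv_add]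
    rw [b2] at b0
    have b3 : 0 ≤ |y.y1| * |y.y2| := by positivity
    have b4 := mul_le_mul_of_nonneg_right b0 b3
    rw [b1]
    linarith
  have N12 : 0 ≤ rv (e12 A) := by
    have b0 : rv dl * rv (Int.add (ab A.d112 0) (ab A.d122 0)) ≤ rv (mulU dl (Int.add (ab A.d112 0) (ab A.d122 0))) :=
      rv_mul_le_mulU
    have b1 : rv (e12 A) = rv (ab A.q12 0) + rv (mulU dl (Int.add (ab A.d112 0) (ab A.d122 0))) := by
      simp only [e12, e2, rv_add]
    have b2 : rv (Int.add (ab A.d112 0) (ab A.d122 0)) = rv (ab A.d112 0) + rv (ab A.d122 0) := by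
      simp only [rv_add]
    have c0 := (abs_nonneg _).trans (ab_ge hk.d112)
    have c1 := (abs_nonneg _).trans (ab_ge hk.d122)
    have c := (abs_nonneg _).trans (ab_ge hh.q12)
    have b5 : 0 ≤ rv dl * (rv (ab A.d112 0) + rv (ab A.d122 0)) := by positivity
    rw [b2] at b0
    rw [b1]
    linarith
  have F13 : -((rv (e13 A) + 1 / 2 ^ 40) * (|y.y1| * |y.y3|)) ≤ (h.q13.re + 37 / 10) * (y.y1 * y.y3)
      + (k.d113.re * (y.y1 * y.y1 * y.y3) + k.d123.re * (y.y1 * y.y2 * y.y3) + k.d133.re * (y.y1 * y.y3 * y.y3)) := by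
    have a0 := quad_le (x := y.y1) (t := y.y3) (ab_ge37 hh.q13)
    have a1 := cub_le hk.d113 (x := y.y1) (t := y.y3) hb.h1
    have a2 := cub_le hk.d123 (x := y.y1) (t := y.y3) hb.h2
    have a3 := cub_le hk.d133 (x := y.y1) (t := y.y3) hb.h3
    have b0 : rv dl * rv (Int.add (Int.add (ab A.d113 0) (ab A.d123 0)) (ab A.d133 0)) ≤ rv (mulU dl (Int.add (Int.add (ab A.d113 0) (ab A.d123 0)) (ab A.d133 0))) :=
      rv_mul_le_mulU
    have b1 : rv (e13 A) = rv (ab A.q13 4068193022772) + rv (mulU dl (Int.add (Int.add (ab A.d113 0) (ab A.d123 0)) (ab A.d133 0))) := by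
      simp only [e13, e3, rv_add]
    have b2 : rv (Int.add (Int.add (ab A.d113 0) (ab A.d123 0)) (ab A.d133 0)) = rv (ab A.d113 0) + rv (ab A.d123 0) + rv (ab A.d133 0) := by
      simp only [rv_add]
    rw [b2] at b0
    have b3 : 0 ≤ |y.y1| * |y.y3| := by positivity
    have b4 := mul_le_mul_of_nonneg_right b0 b3
    rw [b1]
    linarith
  have N13 : 0 ≤ rv (e13 A) + 1 / 2 ^ 40 := by
    have b0 : rv dl * rv (Int.add (Int.add (ab A.d113 0) (ab A.d123 0)) (ab A.d133 0)) ≤ rv (mulU dl (Int.add (Int.add (ab A.d113 0) (ab A.d123 0)) (ab A.d133 0))) :=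
      rv_mul_le_mulU
    have b1 : rv (e13 A) = rv (ab A.q13 4068193022772) + rv (mulU dl (Int.add (Int.add (ab A.d113 0) (ab A.d123 0)) (ab A.d133 0))) := by
      simp only [e13, e3, rv_add]
    have b2 : rv (Int.add (Int.add (ab A.d113 0) (ab A.d123 0)) (ab A.d133 0)) = rv (ab A.d113 0) + rv (ab A.d123 0) + rv (ab A.d133 0) := by
      simp only [rv_add]
    have c0 := (abs_nonneg _).trans (ab_ge hk.d113)
    have c1 := (abs_nonneg _).trans (ab_ge hk.d123)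
    have c2 := (abs_nonneg _).trans (ab_ge hk.d133)
    have c := (abs_nonneg _).trans (ab_ge37 hh.q13)
    have b5 : 0 ≤ rv dl * (rv (ab A.d113 0) + rv (ab A.d123 0) + rv (ab A.d133 0)) := by positivity
    rw [b2] at b0
    rw [b1]
    linarith
  have F14 : -((rv (e14 A)) * (|y.y1| * |y.y4|)) ≤ (h.q14.re) * (y.y1 * y.y4)
      + (k.d114.re * (y.y1 * y.y1 * y.y4) + k.d124.re * (y.y1 * y.y2 * y.y4) + k.d134.re * (y.y1 * y.y3 * y.y4) + k.d144.re * (y.y1 * y.y4 * y.y4)) := by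
    have a0 := quad_le (x := y.y1) (t := y.y4) (ab_ge hh.q14)
    have a1 := cub_le hk.d114 (x := y.y1) (t := y.y4) hb.h1
    have a2 := cub_le hk.d124 (x := y.y1) (t := y.y4) hb.h2
    have a3 := cub_le hk.d134 (x := y.y1) (t := y.y4) hb.h3
    have a4 := cub_le hk.d144 (x := y.y1) (t := y.y4) hb.h4
    have b0 : rv dl * rv (Int.add (Int.add (ab A.d114 0) (ab A.d124 0)) (Int.add (ab A.d134 0) (ab A.d144 0))) ≤ rv (mulU dl (Int.add (Int.add (ab A.d114 0) (ab A.d124 0)) (Int.add (ab A.d134 0) (ab A.d144 0)))) :=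
      rv_mul_le_mulU
    have b1 : rv (e14 A) = rv (ab A.q14 0) + rv (mulU dl (Int.add (Int.add (ab A.d114 0) (ab A.d124 0)) (Int.add (ab A.d134 0) (ab A.d144 0)))) := by
      simp only [e14, e4, rv_add]
    have b2 : rv (Int.add (Int.add (ab A.d114 0) (ab A.d124 0)) (Int.add (ab A.d134 0) (ab A.d144 0))) = rv (ab A.d114 0) + rv (ab A.d124 0) + rv (ab A.d134 0) + rv (ab A.d144 0) := by
      simp only [rv_add]; ring
    rw [b2] at b0
    have b3 : 0 ≤ |y.y1| * |y.y4| := by positivity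
    have b4 := mul_le_mul_of_nonneg_right b0 b3
    rw [b1]
    linarith
  have N14 : 0 ≤ rv (e14 A) := by
    have b0 : rv dl * rv (Int.add (Int.add (ab A.d114 0) (ab A.d124 0)) (Int.add (ab A.d134 0) (ab A.d144 0))) ≤ rv (mulU dl (Int.add (Int.add (ab A.d114 0) (ab A.d124 0)) (Int.add (ab A.d134 0) (ab A.d144 0)))) :=
      rv_mul_le_mulU
    have b1 : rv (e14 A) = rv (ab A.q14 0) + rv (mulU dl (Int.add (Int.add (ab A.d114 0) (ab A.d124 0)) (Int.add (ab A.d134 0) (ab A.d144 0)))) := by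
      simp only [e14, e4, rv_add]
    have b2 : rv (Int.add (Int.add (ab A.d114 0) (ab A.d124 0)) (Int.add (ab A.d134 0) (ab A.d144 0))) = rv (ab A.d114 0) + rv (ab A.d124 0) + rv (ab A.d134 0) + rv (ab A.d144 0) := by
      simp only [rv_add]; ring
    have c0 := (abs_nonneg _).trans (ab_ge hk.d114)
    have c1 := (abs_nonneg _).trans (ab_ge hk.d124)
    have c2 := (abs_nonneg _).trans (ab_ge hk.d134)
    have c3 := (abs_nonneg _).trans (ab_ge hk.d144)
    have c := (abs_nonneg _).trans (ab_ge hh.q14)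
    have b5 : 0 ≤ rv dl * (rv (ab A.d114 0) + rv (ab A.d124 0) + rv (ab A.d134 0) + rv (ab A.d144 0)) := by positivity
    rw [b2] at b0
    rw [b1]
    linarith
  have F23 : -((rv (e23 A)) * (|y.y2| * |y.y3|)) ≤ (h.q23.re) * (y.y2 * y.y3)
      + (k.d223.re * (y.y2 * y.y2 * y.y3) + k.d233.re * (y.y2 * y.y3 * y.y3)) := by
    have a0 := quad_le (x := y.y2) (t := y.y3) (ab_ge hh.q23)
    have a1 := cub_le hk.d223 (x := y.y2) (t := y.y3) hb.h2
    have a2 := cub_le hk.d233 (x := y.y2) (t := y.y3) hb.h3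
    have b0 : rv dl * rv (Int.add (ab A.d223 0) (ab A.d233 0)) ≤ rv (mulU dl (Int.add (ab A.d223 0) (ab A.d233 0))) :=
      rv_mul_le_mulU
    have b1 : rv (e23 A) = rv (ab A.q23 0) + rv (mulU dl (Int.add (ab A.d223 0) (ab A.d233 0))) := by
      simp only [e23, e2, rv_add]
    have b2 : rv (Int.add (ab A.d223 0) (ab A.d233 0)) = rv (ab A.d223 0) + rv (ab A.d233 0) := by
      simp only [rv_add]
    rw [b2] at b0
    have b3 : 0 ≤ |y.y2| * |y.y3| := by positivity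
    have b4 := mul_le_mul_of_nonneg_right b0 b3
    rw [b1]
    linarith
  have N23 : 0 ≤ rv (e23 A) := by
    have b0 : rv dl * rv (Int.add (ab A.d223 0) (ab A.d233 0)) ≤ rv (mulU dl (Int.add (ab A.d223 0) (ab A.d233 0))) :=
      rv_mul_le_mulU
    have b1 : rv (e23 A) = rv (ab A.q23 0) + rv (mulU dl (Int.add (ab A.d223 0) (ab A.d233 0))) := by
      simp only [e23, e2, rv_add]
    have b2 : rv (Int.add (ab A.d223 0) (ab A.d233 0)) = rv (ab A.d223 0) + rv (ab A.d233 0) := by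
      simp only [rv_add]
    have c0 := (abs_nonneg _).trans (ab_ge hk.d223)
    have c1 := (abs_nonneg _).trans (ab_ge hk.d233)
    have c := (abs_nonneg _).trans (ab_ge hh.q23)
    have b5 : 0 ≤ rv dl * (rv (ab A.d223 0) + rv (ab A.d233 0)) := by positivity
    rw [b2] at b0
    rw [b1]
    linarith
  have F24 : -((rv (e24 A) + 1 / 2 ^ 40) * (|y.y2| * |y.y4|)) ≤ (h.q24.re + 37 / 10) * (y.y2 * y.y4)
      + (k.d224.re * (y.y2 * y.y2 * y.y4) + k.d234.re * (y.y2 * y.y3 * y.y4) + k.d244.re * (y.y2 * y.y4 * y.y4)) := by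
    have a0 := quad_le (x := y.y2) (t := y.y4) (ab_ge37 hh.q24)
    have a1 := cub_le hk.d224 (x := y.y2) (t := y.y4) hb.h2
    have a2 := cub_le hk.d234 (x := y.y2) (t := y.y4) hb.h3
    have a3 := cub_le hk.d244 (x := y.y2) (t := y.y4) hb.h4
    have b0 : rv dl * rv (Int.add (Int.add (ab A.d224 0) (ab A.d234 0)) (ab A.d244 0)) ≤ rv (mulU dl (Int.add (Int.add (ab A.d224 0) (ab A.d234 0)) (ab A.d244 0))) :=
      rv_mul_le_mulU
    have b1 : rv (e24 A) = rv (ab A.q24 4068193022772) + rv (mulU dl (Int.add (Int.add (ab A.d224 0) (ab A.d234 0)) (ab A.d244 0))) := by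
      simp only [e24, e3, rv_add]
    have b2 : rv (Int.add (Int.add (ab A.d224 0) (ab A.d234 0)) (ab A.d244 0)) = rv (ab A.d224 0) + rv (ab A.d234 0) + rv (ab A.d244 0) := by
      simp only [rv_add]
    rw [b2] at b0
    have b3 : 0 ≤ |y.y2| * |y.y4| := by positivity
    have b4 := mul_le_mul_of_nonneg_right b0 b3
    rw [b1]
    linarith
  have N24 : 0 ≤ rv (e24 A) + 1 / 2 ^ 40 := by
    have b0 : rv dl * rv (Int.add (Int.add (ab A.d224 0) (ab A.d234 0)) (ab A.d244 0)) ≤ rv (mulU dl (Int.add (Int.add (ab A.d224 0) (ab A.d234 0)) (ab A.d244 0))) :=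
      rv_mul_le_mulU
    have b1 : rv (e24 A) = rv (ab A.q24 4068193022772) + rv (mulU dl (Int.add (Int.add (ab A.d224 0) (ab A.d234 0)) (ab A.d244 0))) := by
      simp only [e24, e3, rv_add]
    have b2 : rv (Int.add (Int.add (ab A.d224 0) (ab A.d234 0)) (ab A.d244 0)) = rv (ab A.d224 0) + rv (ab A.d234 0) + rv (ab A.d244 0) := by
      simp only [rv_add]
    have c0 := (abs_nonneg _).trans (ab_ge hk.d224)
    have c1 := (abs_nonneg _).trans (ab_ge hk.d234)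
    have c2 := (abs_nonneg _).trans (ab_ge hk.d244)
    have c := (abs_nonneg _).trans (ab_ge37 hh.q24)
    have b5 : 0 ≤ rv dl * (rv (ab A.d224 0) + rv (ab A.d234 0) + rv (ab A.d244 0)) := by positivity
    rw [b2] at b0
    rw [b1]
    linarith
  have F34 : -((rv (e34 A)) * (|y.y3| * |y.y4|)) ≤ (h.q34.re) * (y.y3 * y.y4)
      + (k.d334.re * (y.y3 * y.y3 * y.y4) + k.d344.re * (y.y3 * y.y4 * y.y4)) := by
    have a0 := quad_le (x := y.y3) (t := y.y4) (ab_ge hh.q34)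
    have a1 := cub_le hk.d334 (x := y.y3) (t := y.y4) hb.h3
    have a2 := cub_le hk.d344 (x := y.y3) (t := y.y4) hb.h4
    have b0 : rv dl * rv (Int.add (ab A.d334 0) (ab A.d344 0)) ≤ rv (mulU dl (Int.add (ab A.d334 0) (ab A.d344 0))) :=
      rv_mul_le_mulU
    have b1 : rv (e34 A) = rv (ab A.q34 0) + rv (mulU dl (Int.add (ab A.d334 0) (ab A.d344 0))) := by
      simp only [e34, e2, rv_add]
    have b2 : rv (Int.add (ab A.d334 0) (ab A.d344 0)) = rv (ab A.d334 0) + rv (ab A.d344 0) := by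
      simp only [rv_add]
    rw [b2] at b0
    have b3 : 0 ≤ |y.y3| * |y.y4| := by positivity
    have b4 := mul_le_mul_of_nonneg_right b0 b3
    rw [b1]
    linarith
  have N34 : 0 ≤ rv (e34 A) := by
    have b0 : rv dl * rv (Int.add (ab A.d334 0) (ab A.d344 0)) ≤ rv (mulU dl (Int.add (ab A.d334 0) (ab A.d344 0))) :=
      rv_mul_le_mulU
    have b1 : rv (e34 A) = rv (ab A.q34 0) + rv (mulU dl (Int.add (ab A.d334 0) (ab A.d344 0))) := by
      simp only [e34, e2, rv_add]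
    have b2 : rv (Int.add (ab A.d334 0) (ab A.d344 0)) = rv (ab A.d334 0) + rv (ab A.d344 0) := by
      simp only [rv_add]
    have c0 := (abs_nonneg _).trans (ab_ge hk.d334)
    have c1 := (abs_nonneg _).trans (ab_ge hk.d344)
    have c := (abs_nonneg _).trans (ab_ge hh.q34)
    have b5 : 0 ≤ rv dl * (rv (ab A.d334 0) + rv (ab A.d344 0)) := by positivity
    rw [b2] at b0
    rw [b1]
    linarith
  have G12 := off1 (x := y.y1) (t := y.y2) N12
  have G14 := off1 (x := y.y1) (t := y.y4) N14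
  have G23 := off1 (x := y.y3) (t := y.y2) N23
  have G34 := off1 (x := y.y3) (t := y.y4) N34
  have G13 := off2 (x := y.y1) (t := y.y3) N13
  have G24 := off2 (x := y.y2) (t := y.y4) N24
  rw [mul_comm |y.y3| |y.y2|] at G23
  have ere : (h.ev y + k.ev y).re = h.q11.re * (y.y1 * y.y1) + h.q12.re * (y.y1 * y.y2) + h.q13.re * (y.y1 * y.y3) + h.q14.re * (y.y1 * y.y4) + h.q22.re * (y.y2 * y.y2) + h.q23.re * (y.y2 * y.y3) + h.q24.re * (y.y2 * y.y4) + h.q33.re * (y.y3 * y.y3) + h.q34.re * (y.y3 * y.y4) + h.q44.re * (y.y4 * y.y4)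
      + (k.d111.re * (y.y1 * y.y1 * y.y1)
        + k.d112.re * (y.y1 * y.y1 * y.y2)
        + k.d113.re * (y.y1 * y.y1 * y.y3)
        + k.d114.re * (y.y1 * y.y1 * y.y4)
        + k.d122.re * (y.y1 * y.y2 * y.y2)
        + k.d123.re * (y.y1 * y.y2 * y.y3)
        + k.d124.re * (y.y1 * y.y2 * y.y4)
        + k.d133.re * (y.y1 * y.y3 * y.y3)
        + k.d134.re * (y.y1 * y.y3 * y.y4)
        + k.d144.re * (y.y1 * y.y4 * y.y4)
        + k.d222.re * (y.y2 * y.y2 * y.y2)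
        + k.d223.re * (y.y2 * y.y2 * y.y3)
        + k.d224.re * (y.y2 * y.y2 * y.y4)
        + k.d233.re * (y.y2 * y.y3 * y.y3)
        + k.d234.re * (y.y2 * y.y3 * y.y4)
        + k.d244.re * (y.y2 * y.y4 * y.y4)
        + k.d333.re * (y.y3 * y.y3 * y.y3)
        + k.d334.re * (y.y3 * y.y3 * y.y4)
        + k.d344.re * (y.y3 * y.y4 * y.y4)
        + k.d444.re * (y.y4 * y.y4 * y.y4)) := by
    have rq : ∀ (z : ℂ) (a b : ℝ), (z * ((a : ℂ) * (b : ℂ))).re = z.re * (a * b) := by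
      intro z a b
      rw [← Complex.ofReal_mul, Complex.re_mul_ofReal]
    have rc : ∀ (z : ℂ) (a b c : ℝ), (z * ((a : ℂ) * (b : ℂ) * (c : ℂ))).re = z.re * (a * b * c) := by
      intro z a b c
      rw [← Complex.ofReal_mul, ← Complex.ofReal_mul, Complex.re_mul_ofReal]
    simp only [Quad.ev, Cub.ev, Complex.add_re, rq, rc]
  rw [ere]
  have q1 : 0 ≤ y.y1 ^ 2 := sq_nonneg _
  have q2 : 0 ≤ y.y2 ^ 2 := sq_nonneg _
  have q3 : 0 ≤ y.y3 ^ 2 := sq_nonneg _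
  have q4 : 0 ≤ y.y4 ^ 2 := sq_nonneg _
  have u0 : (0 : ℝ) < 1 / 2 ^ 40 := by positivity
  have S1 : 0 ≤ (rv (dg A.q11 A.d111) + 1 / 2 * (1 / 2 ^ 40) - (1 / 2 * (rv (e13 A) + 1 / 2 ^ 40) + (rv (e12 A) + rv (e14 A)))) * y.y1 ^ 2 := by
    apply mul_nonneg _ q1
    linarith
  have S3 : 0 ≤ (rv (dg A.q33 A.d333) + 1 / 2 * (1 / 2 ^ 40) - (1 / 2 * (rv (e13 A) + 1 / 2 ^ 40) + (rv (e23 A) + rv (e34 A)))) * y.y3 ^ 2 := by
    apply mul_nonneg _ q3
    linarith
  have S2 : 0 ≤ (rv (dg A.q22 A.d222) + 1 / 2 * (1 / 2 ^ 40) - (1 / 2 * (rv (e24 A) + 1 / 2 ^ 40) + 1 / 4 * (rv (e12 A) + rv (e23 A)))) * y.y2 ^ 2 := by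
    apply mul_nonneg _ q2
    linarith
  have S4 : 0 ≤ (rv (dg A.q44 A.d444) + 1 / 2 * (1 / 2 ^ 40) - (1 / 2 * (rv (e24 A) + 1 / 2 ^ 40) + 1 / 4 * (rv (e14 A) + rv (e34 A)))) * y.y4 ^ 2 := by
    apply mul_nonneg _ q4
    linarith
  linarith

end NL

end MaxTerm.PA.Chk
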