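import Pool.Agent.MaxTerm.PartA.TMNorm
import Pool.Agent.MaxTerm.PartA.NearEval
import Pool.Agent.MaxTerm.PartA.NearTail

/-!
# Part A, near region: the Taylor models of `NearEval` enclose the objects of `NearDefs`
-/

open ComplexConjugate

namespace MaxTerm.PA.Chk.NL

open MaxTerm.PA

/-! ### constants -/

theorem mem_real' {x : ℝ} {a r : Int} (h : |x - rv a| ≤ rv r) : CB.Mem (x : ℂ) ⟨a, 0, r⟩ := by
  unfold CB.Mem
  have e : (CB.mid ⟨a, 0, r⟩ : ℂ) = (rv a : ℂ) := by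
    apply Complex.ext
    · rfl
    · rw [Complex.ofReal_im]
      show rv 0 = 0
      simp [rv]
  rw [e, ← Complex.ofReal_sub, Complex.norm_real, Real.norm_eq_abs]
  exact h

theorem mem_near {z c : ℂ} {r : ℝ} (hz : ‖z - c‖ ≤ r) {a b s : Int} (h1 : |c.re - rv a| ≤ 1 / 2 ^ 40)
    (h2 : |c.im - rv b| ≤ 1 / 2 ^ 40) (h3 : r + 2 / 2 ^ 40 ≤ rv s) : CB.Mem z ⟨a, b, s⟩ := by
  unfold CB.Mem
  have h4 : ‖c - (CB.mid ⟨a, b, s⟩ : ℂ)‖ ≤ 2 / 2 ^ 40 := by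
    refine (Complex.norm_le_abs_re_add_abs_im _).trans ?_
    have e1 : (c - (CB.mid ⟨a, b, s⟩ : ℂ)).re = c.re - rv a := rfl
    have e2 : (c - (CB.mid ⟨a, b, s⟩ : ℂ)).im = c.im - rv b := rfl
    rw [e1, e2]
    have : (2 : ℝ) / 2 ^ 40 = 1 / 2 ^ 40 + 1 / 2 ^ 40 := by ring
    rw [this]
    exact add_le_add h1 h2
  have e : z - (CB.mid ⟨a, b, s⟩ : ℂ) = (z - c) + (c - (CB.mid ⟨a, b, s⟩ : ℂ)) := by ring
  rw [e]
  show _ ≤ rv s
  exact (norm_add_le _ _).trans (by linarith)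

theorem mem_k08 : CB.Mem ((4 / 5 : ℝ) : ℂ) k08 := by
  refine mem_real' ?_
  unfold rv
  rw [abs_le]
  constructor <;> norm_num

theorem mem_k135 : CB.Mem ((27 / 20 : ℝ) : ℂ) k135 := by
  refine mem_real' ?_
  unfold rv
  rw [abs_le]
  constructor <;> norm_num

theorem mem_km135 : CB.Mem ((-(27 / 20) : ℝ) : ℂ) km135 := by
  refine mem_real' ?_
  unfold rv
  rw [abs_le]
  constructor <;> norm_num

theorem mem_k113 : CB.Mem ((113 / 100 : ℝ) : ℂ) k113 := by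
  refine mem_real' ?_
  unfold rv
  rw [abs_le]
  constructor <;> norm_num

theorem mem_km113 : CB.Mem ((-(113 / 100) : ℝ) : ℂ) km113 := by
  refine mem_real' ?_
  unfold rv
  rw [abs_le]
  constructor <;> norm_num

theorem mem_a1p : CB.Mem ((7 / 5 : ℝ) : ℂ) a1p := by
  refine mem_real' ?_
  unfold rv
  rw [abs_le]
  constructor <;> norm_num

theorem mem_a1m : CB.Mem ((-(7 / 5) : ℝ) : ℂ) a1m := by
  refine mem_real' ?_
  unfold rv
  rw [abs_le]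
  constructor <;> norm_num

theorem mem_b1m : CB.Mem ((-(1 / 10) : ℝ) : ℂ) b1m := by
  refine mem_real' ?_
  unfold rv
  rw [abs_le]
  constructor <;> norm_num

theorem mem_b1p : CB.Mem ((7 / 20 : ℝ) : ℂ) b1p := by
  refine mem_real' ?_
  unfold rv
  rw [abs_le]
  constructor <;> norm_num

theorem mem_a3p : CB.Mem ((21 / 5 : ℝ) : ℂ) a3p := by
  refine mem_real' ?_
  unfold rv
  rw [abs_le]
  constructor <;> norm_num

theorem mem_a3m : CB.Mem ((-(21 / 5) : ℝ) : ℂ) a3m := by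
  refine mem_real' ?_
  unfold rv
  rw [abs_le]
  constructor <;> norm_num

theorem mem_b3m : CB.Mem ((-(3 / 10) : ℝ) : ℂ) b3m := by
  refine mem_real' ?_
  unfold rv
  rw [abs_le]
  constructor <;> norm_num

theorem mem_b3p : CB.Mem ((21 / 20 : ℝ) : ℂ) b3p := by
  refine mem_real' ?_
  unfold rv
  rw [abs_le]
  constructor <;> norm_num

theorem mem_a5p : CB.Mem ((7 / 1 : ℝ) : ℂ) a5p := by
  refine mem_real' ?_
  unfold rv
  rw [abs_le]
  constructor <;> norm_num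

theorem mem_a5m : CB.Mem ((-(7 / 1) : ℝ) : ℂ) a5m := by
  refine mem_real' ?_
  unfold rv
  rw [abs_le]
  constructor <;> norm_num

theorem mem_b5m : CB.Mem ((-(1 / 2) : ℝ) : ℂ) b5m := by
  refine mem_real' ?_
  unfold rv
  rw [abs_le]
  constructor <;> norm_num

theorem mem_b5p : CB.Mem ((7 / 4 : ℝ) : ℂ) b5p := by
  refine mem_real' ?_
  unfold rv
  rw [abs_le]
  constructor <;> norm_num

theorem mem_a7p : CB.Mem ((49 / 5 : ℝ) : ℂ) a7p := by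
  refine mem_real' ?_
  unfold rv
  rw [abs_le]
  constructor <;> norm_num

theorem mem_a7m : CB.Mem ((-(49 / 5) : ℝ) : ℂ) a7m := by
  refine mem_real' ?_
  unfold rv
  rw [abs_le]
  constructor <;> norm_num

theorem mem_b7m : CB.Mem ((-(7 / 10) : ℝ) : ℂ) b7m := by
  refine mem_real' ?_
  unfold rv
  rw [abs_le]
  constructor <;> norm_num

theorem mem_b7p : CB.Mem ((49 / 20 : ℝ) : ℂ) b7p := by
  refine mem_real' ?_
  unfold rv
  rw [abs_le]
  constructor <;> norm_num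

theorem mem_a9p : CB.Mem ((63 / 5 : ℝ) : ℂ) a9p := by
  refine mem_real' ?_
  unfold rv
  rw [abs_le]
  constructor <;> norm_num

theorem mem_a9m : CB.Mem ((-(63 / 5) : ℝ) : ℂ) a9m := by
  refine mem_real' ?_
  unfold rv
  rw [abs_le]
  constructor <;> norm_num

theorem mem_b9m : CB.Mem ((-(9 / 10) : ℝ) : ℂ) b9m := by
  refine mem_real' ?_
  unfold rv
  rw [abs_le]
  constructor <;> norm_num

theorem mem_b9p : CB.Mem ((63 / 20 : ℝ) : ℂ) b9p := by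
  refine mem_real' ?_
  unfold rv
  rw [abs_le]
  constructor <;> norm_num


theorem mem_lAB : CB.Mem (lAc : ℂ) lAB := by
  refine mem_real' ?_
  unfold rv lAc
  rw [abs_le]
  constructor <;> norm_num

variable {q0 w0 : ℂ} {lB : ℝ}

theorem mem_q0 (hp : PB q0 w0 lB) : CB.Mem q0 q0B := by
  refine mem_near hp.q ?_ ?_ ?_
  · unfold rv qc; rw [abs_le]; constructor <;> norm_num
  · unfold rv qc; rw [abs_le]; constructor <;> norm_num
  · unfold rv; norm_num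

theorem mem_w0 (hp : PB q0 w0 lB) : CB.Mem w0 w0B := by
  refine mem_near hp.w' ?_ ?_ ?_
  · unfold rv w1c; rw [abs_le]; constructor <;> norm_num
  · unfold rv w1c; rw [abs_le]; constructor <;> norm_num
  · unfold rv; norm_num

theorem mem_lBB (hp : PB q0 w0 lB) : CB.Mem ((lB / 2 : ℝ) : ℂ) lBB := by
  refine mem_real' ?_
  have h := abs_le.1 hp.l
  unfold rv
  unfold lBc at h
  rw [abs_le]
  constructor
  · norm_num; linarith [h.1]
  · norm_num; linarith [h.2]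

/-! ### the objects as functions of `y` -/

/-- `u` -/
noncomputable def uF (q0 : ℂ) (y : Pt) : ℂ := q0 + 1 * y.y1 + Complex.I * y.y2 + 0 * y.y3 + 0 * y.y4

/-- `v` -/
noncomputable def vF (q0 : ℂ) (y : Pt) : ℂ := q0 + 0 * y.y1 + 0 * y.y2 + 1 * y.y3 + Complex.I * y.y4

/-- `w_A` -/
noncomputable def wAf (y : Pt) : ℂ := Complex.exp (Complex.I * (TM.ang (-(7 / 5)) 0 (7 / 5) 0 y : ℝ))

/-- `w_B` -/
noncomputable def wBf (w0 : ℂ) (y : Pt) : ℂ :=
  w0 * Complex.exp (Complex.I * (TM.ang (-(1 / 10)) (7 / 20) (-(1 / 10)) (7 / 20) y : ℝ))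

theorem has_u (hp : PB q0 w0 lB) : uT.Has Y0 (uF q0) :=
  TM.Has.affine (mem_q0 hp) CB.mem_one CB.mem_I CB.mem_zero CB.mem_zero

theorem has_v (hp : PB q0 w0 lB) : vT.Has Y0 (vF q0) :=
  TM.Has.affine (mem_q0 hp) CB.mem_zero CB.mem_zero CB.mem_one CB.mem_I

theorem mem_zr : CB.Mem ((0 : ℝ) : ℂ) zer := by
  rw [Complex.ofReal_zero]
  exact CB.mem_zero

theorem expang (t1 t2 t3 t4 : ℝ) (k : ℕ) (y : Pt) :
    Complex.exp (Complex.I * (TM.ang (k * t1) (k * t2) (k * t3) (k * t4) y : ℝ))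
      = Complex.exp (Complex.I * (TM.ang t1 t2 t3 t4 y : ℝ)) ^ k := by
  rw [← Complex.exp_nat_mul]
  congr 1
  simp only [TM.ang]
  push_cast
  ring

theorem has_A1 : (A1 Y0).Has Y0 (fun y => wAf y ^ 1) := by
  refine (TM.Has.expi mem_a1m mem_zr mem_a1p mem_zr (by decide +kernel)).congr fun y _ => ?_
  rw [wAf, ← expang]
  congr 3
  simp only [TM.ang]
  push_cast
  ring


theorem has_A3 : (A3 Y0).Has Y0 (fun y => wAf y ^ 3) := by
  refine (TM.Has.expi mem_a3m mem_zr mem_a3p mem_zr (by decide +kernel)).congr fun y _ => ?_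
  rw [wAf, ← expang]
  congr 3
  simp only [TM.ang]
  push_cast
  ring


theorem has_A5 : (A5 Y0).Has Y0 (fun y => wAf y ^ 5) := by
  refine (TM.Has.expi mem_a5m mem_zr mem_a5p mem_zr (by decide +kernel)).congr fun y _ => ?_
  rw [wAf, ← expang]
  congr 3
  simp only [TM.ang]
  push_cast
  ring


theorem has_A7 : (A7 Y0).Has Y0 (fun y => wAf y ^ 7) := by
  refine (TM.Has.expi mem_a7m mem_zr mem_a7p mem_zr (by decide +kernel)).congr fun y _ => ?_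
  rw [wAf, ← expang]
  congr 3
  simp only [TM.ang]
  push_cast
  ring


theorem has_A9 : (A9 Y0).Has Y0 (fun y => wAf y ^ 9) := by
  refine (TM.Has.expi mem_a9m mem_zr mem_a9p mem_zr (by decide +kernel)).congr fun y _ => ?_
  rw [wAf, ← expang]
  congr 3
  simp only [TM.ang]
  push_cast
  ring

theorem mem_w2 (hp : PB q0 w0 lB) : CB.Mem (w0 ^ 2) w2B := by
  rw [sq]; exact (mem_w0 hp).mul (mem_w0 hp)

theorem mem_w3 (hp : PB q0 w0 lB) : CB.Mem (w0 ^ 3) w3B := by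
  rw [show w0 ^ 3 = w0 * w0 ^ 2 by ring]; exact (mem_w0 hp).mul (mem_w2 hp)

theorem mem_w5 (hp : PB q0 w0 lB) : CB.Mem (w0 ^ 5) w5B := by
  rw [show w0 ^ 5 = w0 ^ 3 * w0 ^ 2 by ring]; exact (mem_w3 hp).mul (mem_w2 hp)

theorem mem_w7 (hp : PB q0 w0 lB) : CB.Mem (w0 ^ 7) w7B := by
  rw [show w0 ^ 7 = w0 ^ 5 * w0 ^ 2 by ring]; exact (mem_w5 hp).mul (mem_w2 hp)

theorem mem_w9 (hp : PB q0 w0 lB) : CB.Mem (w0 ^ 9) w9B := by
  rw [show w0 ^ 9 = w0 ^ 7 * w0 ^ 2 by ring]; exact (mem_w7 hp).mul (mem_w2 hp)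

theorem mem_w0' (hp : PB q0 w0 lB) : CB.Mem (w0 ^ 1) w0B := by
  rw [pow_one]; exact mem_w0 hp

theorem has_B1 (hp : PB q0 w0 lB) : (B1 Y0).Has Y0 (fun y => wBf w0 y ^ 1) := by
  refine ((TM.Has.expi mem_b1m mem_b1p mem_b1m mem_b1p (by decide +kernel)).cmul
    (mem_w0' hp)).congr fun y _ => ?_
  rw [wBf, mul_pow, ← expang]
  congr 4
  simp only [TM.ang]
  push_cast
  ring


theorem has_B3 (hp : PB q0 w0 lB) : (B3 Y0).Has Y0 (fun y => wBf w0 y ^ 3) := by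
  refine ((TM.Has.expi mem_b3m mem_b3p mem_b3m mem_b3p (by decide +kernel)).cmul
    (mem_w3 hp)).congr fun y _ => ?_
  rw [wBf, mul_pow, ← expang]
  congr 4
  simp only [TM.ang]
  push_cast
  ring


theorem has_B5 (hp : PB q0 w0 lB) : (B5 Y0).Has Y0 (fun y => wBf w0 y ^ 5) := by
  refine ((TM.Has.expi mem_b5m mem_b5p mem_b5m mem_b5p (by decide +kernel)).cmul
    (mem_w5 hp)).congr fun y _ => ?_
  rw [wBf, mul_pow, ← expang]
  congr 4
  simp only [TM.ang]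
  push_cast
  ring


theorem has_B7 (hp : PB q0 w0 lB) : (B7 Y0).Has Y0 (fun y => wBf w0 y ^ 7) := by
  refine ((TM.Has.expi mem_b7m mem_b7p mem_b7m mem_b7p (by decide +kernel)).cmul
    (mem_w7 hp)).congr fun y _ => ?_
  rw [wBf, mul_pow, ← expang]
  congr 4
  simp only [TM.ang]
  push_cast
  ring


theorem has_B9 (hp : PB q0 w0 lB) : (B9 Y0).Has Y0 (fun y => wBf w0 y ^ 9) := by
  refine ((TM.Has.expi mem_b9m mem_b9p mem_b9m mem_b9p (by decide +kernel)).cmul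
    (mem_w9 hp)).congr fun y _ => ?_
  rw [wBf, mul_pow, ← expang]
  congr 4
  simp only [TM.ang]
  push_cast
  ring

/-! ### weights -/

/-- `L_A` -/
noncomputable def LAf (y : Pt) : ℂ := lAc + 0 * y.y1 + ((4 / 5 : ℝ) : ℂ) * y.y2 + 0 * y.y3 + ((4 / 5 : ℝ) : ℂ) * y.y4

/-- `L_B` -/
noncomputable def LBf (lB : ℝ) (y : Pt) : ℂ :=
  ((lB / 2 : ℝ) : ℂ) * (1 + ((27 / 20 : ℝ) : ℂ) * y.y1 + ((113 / 100 : ℝ) : ℂ) * y.y2
    + ((-(27 / 20) : ℝ) : ℂ) * y.y3 + ((-(113 / 100) : ℝ) : ℂ) * y.y4)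

/-- `L_C` -/
noncomputable def LCf (lB : ℝ) (y : Pt) : ℂ :=
  ((lB / 2 : ℝ) : ℂ) * (1 + ((-(27 / 20) : ℝ) : ℂ) * y.y1 + ((-(113 / 100) : ℝ) : ℂ) * y.y2
    + ((27 / 20 : ℝ) : ℂ) * y.y3 + ((113 / 100 : ℝ) : ℂ) * y.y4)

theorem has_LA : LA.Has Y0 LAf := TM.Has.affine mem_lAB CB.mem_zero mem_k08 CB.mem_zero mem_k08

theorem has_LB (hp : PB q0 w0 lB) : LB.Has Y0 (LBf lB) :=
  (TM.Has.affine CB.mem_one mem_k135 mem_k113 mem_km135 mem_km113).cmul (mem_lBB hp)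

theorem has_LC (hp : PB q0 w0 lB) : LC.Has Y0 (LCf lB) :=
  (TM.Has.affine CB.mem_one mem_km135 mem_km113 mem_k135 mem_k113).cmul (mem_lBB hp)

/-! ### the tails -/

/-- size of the box -/
noncomputable def dd : ℝ := rv dl

theorem dd_pos : 0 < dd := by unfold dd rv dl; norm_num

theorem dd_le : 8 * dd ≤ 3 / 100 := by unfold dd rv dl; norm_num

theorem in_iff (y : Pt) : y.In Y0 ↔ Box4 dd y := by
  have h0 : rv 0 = 0 := by simp [rv]
  have key : ∀ t : ℝ, CB.Mem (t : ℂ) ⟨0, 0, dl⟩ ↔ |t| ≤ dd := by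
    intro t
    unfold CB.Mem
    have e : (CB.mid ⟨0, 0, dl⟩ : ℂ) = 0 := by
      apply Complex.ext <;> simp [CB.mid, rv]
    rw [e, sub_zero, Complex.norm_real, Real.norm_eq_abs]
    rfl
  constructor
  · intro h
    exact ⟨(key _).1 h.h1, (key _).1 h.h2, (key _).1 h.h3, (key _).1 h.h4⟩
  · intro h
    exact ⟨(key _).2 h.h1, (key _).2 h.h2, (key _).2 h.h3, (key _).2 h.h4⟩

theorem norm_q0 (hp : PB q0 w0 lB) : ‖q0‖ ≤ 2805 / 10000 := by
  have h1 : ‖qc‖ ≤ 28035 / 100000 := by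
    rw [Complex.norm_def]
    refine Real.sqrt_le_iff.2 ⟨by norm_num, ?_⟩
    rw [Complex.normSq_apply]
    unfold qc
    norm_num
  have h2 : ‖q0‖ ≤ ‖q0 - qc‖ + ‖qc‖ := by
    calc ‖q0‖ = ‖(q0 - qc) + qc‖ := by ring_nf
      _ ≤ _ := norm_add_le _ _
  linarith [hp.q]

theorem nb_v (hp : PB q0 w0 lB) : NB (3 / 100) dd (vF q0) (3105 / 10000) := by
  have h := NB.affine (X := 3 / 100) (d := dd) (s := 1) (c := q0) (l1 := 0) (l2 := 0) (l3 := 1)
    (l4 := Complex.I) (by simp) (by simp) (by simp) (by simp)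
  refine NB.mono h ?_
  linarith [norm_q0 hp]

theorem nb_u (hp : PB q0 w0 lB) : NB (3 / 100) dd (uF q0) (3105 / 10000) := by
  have h := NB.affine (X := 3 / 100) (d := dd) (s := 1) (c := q0) (l1 := 1) (l2 := Complex.I) (l3 := 0)
    (l4 := 0) (by simp) (by simp) (by simp) (by simp)
  refine NB.mono h ?_
  linarith [norm_q0 hp]

theorem nb_wA : NB (3 / 100) dd wAf (10438 / 10000) := by
  have h := NB.exp (X := 3 / 100) (d := dd) (T := 7 / 5) (t1 := -(7 / 5)) (t2 := 0) (t3 := 7 / 5) (t4 := 0)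
    (by norm_num) (by norm_num) (by rw [abs_neg, abs_of_pos] <;> norm_num) (by rw [abs_zero]; norm_num)
    (by rw [abs_of_pos]; norm_num) (by rw [abs_zero]; norm_num) (by have := dd_le; linarith)
  exact NB.mono h (by norm_num)

theorem nb_wB (hp : PB q0 w0 lB) : NB (3 / 100) dd (wBf w0) (10438 / 10000) := by
  have h := NB.exp (X := 3 / 100) (d := dd) (T := 7 / 20) (t1 := -(1 / 10)) (t2 := 7 / 20) (t3 := -(1 / 10))
    (t4 := 7 / 20) (by norm_num) (by norm_num) (by rw [abs_neg, abs_of_pos] <;> norm_num)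
    (by rw [abs_of_pos]; norm_num) (by rw [abs_neg, abs_of_pos] <;> norm_num)
    (by rw [abs_of_pos]; norm_num) (by have := dd_le; linarith)
  have h0 := NB.const (X := 3 / 100) (d := dd) w0
  have h1 := h0.mul dd_pos.le dd_le h
  rw [hp.w] at h1
  exact NB.mono h1 (by norm_num)

/-- one tail -/
theorem nb_tail' {v w : Pt → ℂ} (hv : NB (3 / 100) dd v (3105 / 10000)) (hw : NB (3 / 100) dd w (10438 / 10000)) :
    NB (3 / 100) dd (fun y => ∑' n : ℕ, v y ^ ee (n + 5) * w y ^ (2 * (n + 5) + 1)) (4 / 10 ^ 8) ∧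
    ∀ y, Box4 dd y → Summable fun n : ℕ => v y ^ ee (n + 5) * w y ^ (2 * (n + 5) + 1) := by
  have ht : ∀ n : ℕ, NB (3 / 100) dd (fun y => v y ^ ee (n + 5) * w y ^ (2 * (n + 5) + 1))
      ((3105 / 10000) ^ 15 * (10438 / 10000) ^ 11 * ((3105 / 10000) ^ 5 * (10438 / 10000) ^ 2) ^ n) := by
    intro n
    have h1 := (hv.pow dd_pos.le dd_le (ee (n + 5))).mul dd_pos.le dd_le (hw.pow dd_pos.le dd_le (2 * (n + 5) + 1))
    refine NB.mono h1 ?_
    have h2 : (3105 / 10000 : ℝ) ^ ee (n + 5) ≤ (3105 / 10000) ^ (15 + 5 * n) := by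
      refine pow_le_pow_of_le_one (by norm_num) (by norm_num) ?_
      unfold ee
      rw [Nat.le_div_iff_mul_le (by norm_num)]
      nlinarith
    calc (3105 / 10000 : ℝ) ^ ee (n + 5) * (10438 / 10000) ^ (2 * (n + 5) + 1)
        ≤ (3105 / 10000) ^ (15 + 5 * n) * (10438 / 10000) ^ (2 * (n + 5) + 1) :=
          mul_le_mul_of_nonneg_right h2 (by positivity)
      _ = _ := by
          rw [show 2 * (n + 5) + 1 = 11 + 2 * n by ring, pow_add, pow_add, mul_pow, ← pow_mul, ← pow_mul]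
          ring
  have hr : (0 : ℝ) ≤ (3105 / 10000) ^ 5 * (10438 / 10000) ^ 2 := by positivity
  have hr1 : (3105 / 10000 : ℝ) ^ 5 * (10438 / 10000) ^ 2 < 1 := by norm_num
  have hs := (hasSum_geometric_of_lt_one hr hr1).mul_left ((3105 / 10000 : ℝ) ^ 15 * (10438 / 10000) ^ 11)
  refine NB.tsum dd_pos.le (by norm_num) ht hs.summable ?_
  rw [hs.tsum_eq]
  norm_num

theorem nb_tail {v w : Pt → ℂ} (hv : NB (3 / 100) dd v (3105 / 10000)) (hw : NB (3 / 100) dd w (10438 / 10000)) :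
    NB (3 / 100) dd (fun y => ∑' n : ℕ, v y ^ ee (n + 5) * w y ^ (2 * (n + 5) + 1)) (4 / 10 ^ 8) :=
  (nb_tail' hv hw).1

theorem half_split {v w : ℂ} (hs : Summable fun n : ℕ => v ^ ee (n + 5) * w ^ (2 * (n + 5) + 1)) :
    PA.half (fun _ => v) w = ((w ^ 1 + v * w ^ 3) + (v ^ 3 * w ^ 5 + (v ^ 6 * w ^ 7 + v ^ 10 * w ^ 9)))
      + ∑' n : ℕ, v ^ ee (n + 5) * w ^ (2 * (n + 5) + 1) := by
  rw [NearTail.half_const, ← Summable.sum_add_tsum_nat_add' (f := fun n => v ^ ee n * w ^ (2 * n + 1)) (k := 5) hs]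
  congr 1
  simp only [Finset.sum_range_succ, Finset.sum_range_zero, ee]
  norm_num
  ring

theorem tl_eq : tl = TM.zc 110000 4400000 270000000 27000000000 := rfl

theorem has_tl {u v w : Pt → ℂ} (hu : NB (3 / 100) dd u (3105 / 10000)) (hv : NB (3 / 100) dd v (3105 / 10000))
    (hw : NB (3 / 100) dd w (10438 / 10000)) :
    tl.Has Y0 (fun y => (∑' n : ℕ, v y ^ ee (n + 5) * w y ^ (2 * (n + 5) + 1))
      + ∑' n : ℕ, u y ^ ee (n + 5) * (conj (w y)) ^ (2 * (n + 5) + 1)) := by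
  rw [tl_eq]
  refine NB.has (X := 3 / 100) (d := dd) (N := 4 / 10 ^ 8 + 4 / 10 ^ 8) (by norm_num) dd_pos.le
    (fun y hy => (in_iff y).1 hy) ((nb_tail hv hw).add (nb_tail hu hw.conj)) ?_ ?_ ?_ ?_
  · unfold rv; norm_num
  · unfold rv; norm_num
  · unfold rv; norm_num
  · unfold rv; norm_num

/-! ### powers -/

theorem has_v2 (hp : PB q0 w0 lB) : (v2 Y0).Has Y0 (fun y => vF q0 y ^ 2) :=
  ((has_v hp).mul (has_v hp)).congr fun y _ => by ring

theorem has_v3 (hp : PB q0 w0 lB) : (v3 Y0).Has Y0 (fun y => vF q0 y ^ 3) :=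
  ((has_v2 hp).mul (has_v hp)).congr fun y _ => by ring

theorem has_v5 (hp : PB q0 w0 lB) : (v5 Y0).Has Y0 (fun y => vF q0 y ^ 5) :=
  ((has_v3 hp).mul (has_v2 hp)).congr fun y _ => by ring

theorem has_v6 (hp : PB q0 w0 lB) : (v6 Y0).Has Y0 (fun y => vF q0 y ^ 6) :=
  ((has_v3 hp).mul (has_v3 hp)).congr fun y _ => by ring

theorem has_v9 (hp : PB q0 w0 lB) : (v9 Y0).Has Y0 (fun y => vF q0 y ^ 9) :=
  ((has_v6 hp).mul (has_v3 hp)).congr fun y _ => by ring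

theorem has_v10 (hp : PB q0 w0 lB) : (v10 Y0).Has Y0 (fun y => vF q0 y ^ 10) :=
  ((has_v9 hp).mul (has_v hp)).congr fun y _ => by ring


theorem has_u2 (hp : PB q0 w0 lB) : (u2 Y0).Has Y0 (fun y => uF q0 y ^ 2) :=
  ((has_u hp).mul (has_u hp)).congr fun y _ => by ring

theorem has_u3 (hp : PB q0 w0 lB) : (u3 Y0).Has Y0 (fun y => uF q0 y ^ 3) :=
  ((has_u2 hp).mul (has_u hp)).congr fun y _ => by ring

theorem has_u5 (hp : PB q0 w0 lB) : (u5 Y0).Has Y0 (fun y => uF q0 y ^ 5) :=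
  ((has_u3 hp).mul (has_u2 hp)).congr fun y _ => by ring

theorem has_u6 (hp : PB q0 w0 lB) : (u6 Y0).Has Y0 (fun y => uF q0 y ^ 6) :=
  ((has_u3 hp).mul (has_u3 hp)).congr fun y _ => by ring

theorem has_u9 (hp : PB q0 w0 lB) : (u9 Y0).Has Y0 (fun y => uF q0 y ^ 9) :=
  ((has_u6 hp).mul (has_u3 hp)).congr fun y _ => by ring

theorem has_u10 (hp : PB q0 w0 lB) : (u10 Y0).Has Y0 (fun y => uF q0 y ^ 10) :=
  ((has_u9 hp).mul (has_u hp)).congr fun y _ => by ring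

/-- one half -/
theorem has_hf {x1 x3 x6 x10 w1 w3 w5 w7 w9 : TM} {x w : Pt → ℂ} (h1 : x1.Has Y0 x)
    (h3 : x3.Has Y0 fun y => x y ^ 3) (h6 : x6.Has Y0 fun y => x y ^ 6) (h10 : x10.Has Y0 fun y => x y ^ 10)
    (k1 : w1.Has Y0 fun y => w y ^ 1) (k3 : w3.Has Y0 fun y => w y ^ 3) (k5 : w5.Has Y0 fun y => w y ^ 5)
    (k7 : w7.Has Y0 fun y => w y ^ 7) (k9 : w9.Has Y0 fun y => w y ^ 9) :
    (hf Y0 x1 x3 x6 x10 w1 w3 w5 w7 w9).Has Y0 (fun y => (w y ^ 1 + x y * w y ^ 3)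
      + (x y ^ 3 * w y ^ 5 + (x y ^ 6 * w y ^ 7 + x y ^ 10 * w y ^ 9))) :=
  (k1.add (h1.mul k3)).add ((h3.mul k5).add ((h6.mul k7).add (h10.mul k9)))

theorem has_conj {A : TM} {w : Pt → ℂ} {k : ℕ} (h : A.Has Y0 fun y => w y ^ k) :
    A.conjT.Has Y0 fun y => (conj (w y)) ^ k :=
  h.conjT.congr fun _ _ => (map_pow _ _ _).symm

theorem has_FT (hp : PB q0 w0 lB) {w : Pt → ℂ} {w1 w3 w5 w7 w9 : TM} (hw : NB (3 / 100) dd w (10438 / 10000))
    (k1 : w1.Has Y0 fun y => w y ^ 1) (k3 : w3.Has Y0 fun y => w y ^ 3) (k5 : w5.Has Y0 fun y => w y ^ 5)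
    (k7 : w7.Has Y0 fun y => w y ^ 7) (k9 : w9.Has Y0 fun y => w y ^ 9) :
    (FT Y0 w1 w3 w5 w7 w9).Has Y0 (fun y => Fc (uF q0 y) (vF q0 y) (w y)) := by
  have a := has_hf (has_v hp) (has_v3 hp) (has_v6 hp) (has_v10 hp) k1 k3 k5 k7 k9
  have b := has_hf (w := fun y => conj (w y)) (has_u hp) (has_u3 hp) (has_u6 hp) (has_u10 hp) (has_conj k1)
    (has_conj k3) (has_conj k5) (has_conj k7) (has_conj k9)
  have t := has_tl (nb_u hp) (nb_v hp) hw
  refine ((a.add b).add t).congr fun y hy => ?_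
  have hy' := (in_iff y).1 hy
  have s1 := (nb_tail' (nb_v hp) hw).2 y hy'
  have s2 := (nb_tail' (nb_u hp) hw.conj).2 y hy'
  unfold Fc
  rw [half_split s1, half_split s2]
  ring

theorem has_FA (hp : PB q0 w0 lB) : (FA Y0).Has Y0 (fun y => Fc (uF q0 y) (vF q0 y) (wAf y)) :=
  has_FT hp nb_wA has_A1 has_A3 has_A5 has_A7 has_A9

theorem has_FB (hp : PB q0 w0 lB) : (FB Y0).Has Y0 (fun y => Fc (uF q0 y) (vF q0 y) (wBf w0 y)) :=
  has_FT hp (nb_wB hp) (has_B1 hp) (has_B3 hp) (has_B5 hp) (has_B7 hp) (has_B9 hp)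

theorem has_FC (hp : PB q0 w0 lB) : (FC Y0).Has Y0 (fun y => Fc (uF q0 y) (vF q0 y) (conj (wBf w0 y))) :=
  has_FT hp (nb_wB hp).conj (has_conj (has_B1 hp)) (has_conj (has_B3 hp)) (has_conj (has_B5 hp))
    (has_conj (has_B7 hp)) (has_conj (has_B9 hp))

/-! ### moments -/

theorem has_cA (hp : PB q0 w0 lB) : (cA Y0).Has Y0
    (fun y => conj (Fc (uF q0 y) (vF q0 y) (wAf y)) * LAf y) := (has_FA hp).conjT.mul has_LA

theorem has_cB (hp : PB q0 w0 lB) : (cB Y0).Has Y0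
    (fun y => conj (Fc (uF q0 y) (vF q0 y) (wBf w0 y)) * LBf lB y) := (has_FB hp).conjT.mul (has_LB hp)

theorem has_cC (hp : PB q0 w0 lB) : (cC Y0).Has Y0
    (fun y => conj (Fc (uF q0 y) (vF q0 y) (conj (wBf w0 y))) * LCf lB y) := (has_FC hp).conjT.mul (has_LC hp)

/-- the parameter point belonging to `(u, v)` -/
noncomputable def pt (q0 u v : ℂ) : Pt := ⟨(u - q0).re, (u - q0).im, (v - q0).re, (v - q0).im⟩

theorem uF_pt (q0 u v : ℂ) : uF q0 (pt q0 u v) = u := by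
  unfold uF pt
  apply Complex.ext <;> simp

theorem vF_pt (q0 u v : ℂ) : vF q0 (pt q0 u v) = v := by
  unfold vF pt
  apply Complex.ext <;> simp

theorem pt_in {u v : ℂ} (hu : SB q0 u) (hv : SB q0 v) : (pt q0 u v).In Y0 := by
  rw [in_iff]
  have h : (21 / 10000 : ℝ) ≤ dd := by unfold dd rv dl; norm_num
  exact ⟨hu.re.trans h, hu.im.trans h, hv.re.trans h, hv.im.trans h⟩

/-! ### connection with `natoms` -/

/-- the moment function with powers `k` of the three points -/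
noncomputable def momF (q0 w0 : ℂ) (lB : ℝ) (a b c : Pt → ℂ) (y : Pt) : ℂ :=
  conj (Fc (uF q0 y) (vF q0 y) (wAf y)) * LAf y * a y
    + (conj (Fc (uF q0 y) (vF q0 y) (wBf w0 y)) * LBf lB y * b y
      + conj (Fc (uF q0 y) (vF q0 y) (conj (wBf w0 y))) * LCf lB y * c y)

theorem has_mom (hp : PB q0 w0 lB) {A B C : TM} {a b c : Pt → ℂ} (ha : A.Has Y0 a) (hb : B.Has Y0 b)
    (hc : C.Has Y0 c) : (mom Y0 A B C).Has Y0 (momF q0 w0 lB a b c) :=
  ((has_cA hp).mul ha).add (((has_cB hp).mul hb).add ((has_cC hp).mul hc))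

theorem has_main (hp : PB q0 w0 lB) : (mainT Y0).Has Y0 (momF q0 w0 lB
    (fun y => Fc (uF q0 y) (vF q0 y) (wAf y)) (fun y => Fc (uF q0 y) (vF q0 y) (wBf w0 y))
    (fun y => Fc (uF q0 y) (vF q0 y) (conj (wBf w0 y)))) :=
  has_mom hp (has_FA hp) (has_FB hp) (has_FC hp)

theorem natoms_pt (q0 w0 : ℂ) (lB : ℝ) (y : Pt) : natoms q0 w0 lB (uF q0 y) (vF q0 y) =
    [⟨wAf y, (LAf y).re, Fc (uF q0 y) (vF q0 y) (wAf y)⟩,
     ⟨wBf w0 y, (LBf lB y).re, Fc (uF q0 y) (vF q0 y) (wBf w0 y)⟩,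
     ⟨conj (wBf w0 y), (LCf lB y).re, Fc (uF q0 y) (vF q0 y) (conj (wBf w0 y))⟩] := by
  have e1 : (vF q0 y - uF q0 y).re = y.y3 - y.y1 := by simp [vF, uF]
  have e2 : (vF q0 y - uF q0 y).im = y.y4 - y.y2 := by simp [vF, uF]
  have e3 : (PA.dl q0 (uF q0 y) (vF q0 y)).re = (y.y1 + y.y3) / 2 := by
    simp [PA.dl, vF, uF]; ring
  have e4 : (PA.dl q0 (uF q0 y) (vF q0 y)).im = (y.y2 + y.y4) / 2 := by
    simp [PA.dl, vF, uF]; ring
  have a1 : (7 / 5 * (vF q0 y - uF q0 y).re : ℝ) = TM.ang (-(7 / 5)) 0 (7 / 5) 0 y := by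
    rw [e1]; unfold TM.ang; ring
  have a2 : tau q0 (uF q0 y) (vF q0 y) = TM.ang (-(1 / 10)) (7 / 20) (-(1 / 10)) (7 / 20) y := by
    unfold tau; rw [e3, e4]; unfold TM.ang; ring
  have l1 : lAc + 8 / 5 * (PA.dl q0 (uF q0 y) (vF q0 y)).im = (LAf y).re := by
    rw [e4]; simp [LAf]; ring
  have l2 : lB / 2 * (1 + (-(27 / 20) * (vF q0 y - uF q0 y).re - 113 / 100 * (vF q0 y - uF q0 y).im))
      = (LBf lB y).re := by
    rw [e1, e2, LBf, Complex.re_ofReal_mul]; congr 1; simp; ring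
  have l3 : lB / 2 * (1 - (-(27 / 20) * (vF q0 y - uF q0 y).re - 113 / 100 * (vF q0 y - uF q0 y).im))
      = (LCf lB y).re := by
    rw [e1, e2, LCf, Complex.re_ofReal_mul]; congr 1; simp; ring
  unfold natoms
  simp only [a1, a2, l1, l2, l3]
  rfl

theorem LAf_real (y : Pt) : (((LAf y).re : ℝ) : ℂ) = LAf y := by
  apply Complex.ext
  · simp
  · simp [LAf]

theorem LBf_real (lB : ℝ) (y : Pt) : (((LBf lB y).re : ℝ) : ℂ) = LBf lB y := by
  apply Complex.ext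
  · simp
  · simp [LBf]

theorem LCf_real (lB : ℝ) (y : Pt) : (((LCf lB y).re : ℝ) : ℂ) = LCf lB y := by
  apply Complex.ext
  · simp
  · simp [LCf]

theorem aR_pt (q0 w0 : ℂ) (lB : ℝ) (y : Pt) (n : ℕ) :
    aR (natoms q0 w0 lB (uF q0 y) (vF q0 y)) n = momF q0 w0 lB (fun y => wAf y ^ (2 * n + 1))
      (fun y => wBf w0 y ^ (2 * n + 1)) (fun y => (conj (wBf w0 y)) ^ (2 * n + 1)) y := by
  rw [natoms_pt, aR]
  simp only [List.map_cons, List.map_nil, List.sum_cons, List.sum_nil, LAf_real, LBf_real, LCf_real, momF]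
  ring

theorem aL_pt (q0 w0 : ℂ) (lB : ℝ) (y : Pt) (n : ℕ) :
    aL (natoms q0 w0 lB (uF q0 y) (vF q0 y)) n = momF q0 w0 lB (fun y => (conj (wAf y)) ^ (2 * n + 1))
      (fun y => (conj (wBf w0 y)) ^ (2 * n + 1)) (fun y => wBf w0 y ^ (2 * n + 1)) y := by
  rw [natoms_pt, aL]
  simp only [List.map_cons, List.map_nil, List.sum_cons, List.sum_nil, LAf_real, LBf_real, LCf_real, momF,
    Complex.conj_conj]
  ring

theorem main_pt (q0 w0 : ℂ) (lB : ℝ) (y : Pt) :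
    ((((natoms q0 w0 lB (uF q0 y) (vF q0 y)).map fun a => a.l * ‖a.e‖ ^ 2).sum : ℝ) : ℂ)
      = momF q0 w0 lB (fun y => Fc (uF q0 y) (vF q0 y) (wAf y)) (fun y => Fc (uF q0 y) (vF q0 y) (wBf w0 y))
    (fun y => Fc (uF q0 y) (vF q0 y) (conj (wBf w0 y))) y := by
  rw [natoms_pt]
  simp only [List.map_cons, List.map_nil, List.sum_cons, List.sum_nil, momF]
  have k : ∀ z : ℂ, ((‖z‖ ^ 2 : ℝ) : ℂ) = conj z * z := fun z => by
    rw [mul_comm, Complex.mul_conj, Complex.normSq_eq_norm_sq]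
  push_cast
  rw [← Complex.ofReal_pow, ← Complex.ofReal_pow, ← Complex.ofReal_pow, k, k, k, LAf_real, LBf_real, LCf_real]
  ring

theorem has_aR2 (hp : PB q0 w0 lB) : (aR2 Y0).Has Y0 (fun y => aR (natoms q0 w0 lB (uF q0 y) (vF q0 y)) 2) :=
  (has_mom hp has_A5 (has_B5 hp) (has_conj (has_B5 hp))).congr fun y _ => aR_pt q0 w0 lB y 2

theorem has_aR3 (hp : PB q0 w0 lB) : (aR3 Y0).Has Y0 (fun y => aR (natoms q0 w0 lB (uF q0 y) (vF q0 y)) 3) :=
  (has_mom hp has_A7 (has_B7 hp) (has_conj (has_B7 hp))).congr fun y _ => aR_pt q0 w0 lB y 3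

theorem has_aR4 (hp : PB q0 w0 lB) : (aR4 Y0).Has Y0 (fun y => aR (natoms q0 w0 lB (uF q0 y) (vF q0 y)) 4) :=
  (has_mom hp has_A9 (has_B9 hp) (has_conj (has_B9 hp))).congr fun y _ => aR_pt q0 w0 lB y 4

theorem has_aL2 (hp : PB q0 w0 lB) : (aL2 Y0).Has Y0 (fun y => aL (natoms q0 w0 lB (uF q0 y) (vF q0 y)) 2) :=
  (has_mom hp (has_conj has_A5) (has_conj (has_B5 hp)) (has_B5 hp)).congr fun y _ => aL_pt q0 w0 lB y 2

theorem has_aL3 (hp : PB q0 w0 lB) : (aL3 Y0).Has Y0 (fun y => aL (natoms q0 w0 lB (uF q0 y) (vF q0 y)) 3) :=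
  (has_mom hp (has_conj has_A7) (has_conj (has_B7 hp)) (has_B7 hp)).congr fun y _ => aL_pt q0 w0 lB y 3

theorem has_aL4 (hp : PB q0 w0 lB) : (aL4 Y0).Has Y0 (fun y => aL (natoms q0 w0 lB (uF q0 y) (vF q0 y)) 4) :=
  (has_mom hp (has_conj has_A9) (has_conj (has_B9 hp)) (has_B9 hp)).congr fun y _ => aL_pt q0 w0 lB y 4

end MaxTerm.PA.Chk.NL
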