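import Pool.Agent.MaxTerm.PartA.Chk

/-!
# Part A, a-priori region: the finite checker (fixed point arithmetic of `Chk.lean`)

`regBox` verifies that a pair of certificates (atoms `L0` for window `j`, `L1` for window `j+1`)
contradicts the two-window inequality `twoWin` for all `v = q (j+1)` in a box.
-/

namespace MaxTerm.PA.Chk

/-- the moments of index `5` -/
structure M5 where
  a : CB
  b : CB

def M5.step (m : M5) (a : At) : M5 :=
  let w := unitW a.p
  let w2 := CB.mul w w
  let w3 := CB.mul w w2
  let w5 := CB.mul w3 w2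
  let w7 := CB.mul w5 w2
  let w9 := CB.mul w7 w2
  let w11 := CB.mul w9 w2
  ⟨CB.add m.a (CB.mul a.ce w11), CB.add m.b (CB.mul a.ce (CB.conj w11))⟩

def mom5 : List At → M5
  | [] => ⟨zeroCB, zeroCB⟩
  | a :: L => M5.step (mom5 L) a

/-- bounds of the monomials (scale `2^40`) -/
structure Par where
  b1 : Int
  b2 : Int
  b3 : Int
  b4 : Int
  b5 : Int
  W : Int

/-- `‖A + B v^m‖ ≤ term A B Vp d` if `‖v^m - Vp‖ ≤ d` -/
def term (A B Vp : CB) (d : Int) : Int :=
  Int.add (CB.up (CB.add A (CB.mul B Vp))) (mulU (CB.up B) d)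

def regBox (P : Par) (L0 L1 : List At) (x y hx hy : Int) : Bool :=
  let m0 := moments L0
  let m1 := moments L1
  let k0 := mom5 L0
  let k1 := mom5 L1
  let V : CB := ⟨x, y, 0⟩
  let rh := nrm hx hy
  let r := Int.add (CB.up V) rh
  let r2 := mulU r r
  let r3 := mulU r2 r
  let r4 := mulU r2 r2
  let V2 := CB.mul V V
  let V3 := CB.mul V2 V
  let V4 := CB.mul V2 V2
  let V5 := CB.mul V4 V
  let d2 := mulU (Int.mul 2 r) rh
  let d3 := mulU (Int.mul 3 r2) rh
  let d4 := mulU (Int.mul 4 r3) rh
  let d5 := mulU (Int.mul 5 r4) rh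
  let al := CB.add m0.a1 m1.b1
  let rhs :=
    Int.add (Int.mul 2 (Int.add (Int.add
      (mulU P.b1 (Int.add (term m1.a1 m0.a2 V2 d2) (term m0.b1 m1.b2 V2 d2)))
      (mulU P.b2 (Int.add (term m1.a2 m0.a3 V3 d3) (term m0.b2 m1.b3 V3 d3))))
      (Int.add (Int.add
      (mulU P.b3 (Int.add (term m1.a3 m0.a4 V4 d4) (term m0.b3 m1.b4 V4 d4)))
      (mulU P.b4 (Int.add (term m1.a4 k0.a V5 d5) (term m0.b4 k1.b V5 d5))))
      (mulU P.b5 (Int.add (CB.up k1.a) (CB.up k0.b))))))
      (mulU (Int.mul 4 P.W) (Int.add m0.A m1.A))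
  let S := CB.add (CB.add m0.a0 m0.b0) (CB.add m1.a0 m1.b0)
  let q := CB.mul al V
  let lhs :=
    Int.add (Int.mul 2 (Int.add (Int.add S.re (Int.neg S.rad))
      (Int.add (Int.add q.re (Int.neg q.rad)) (Int.neg (linCost al hx hy)))))
      (Int.neg (Int.add m0.cst m1.cst))
  isPos (Int.add lhs (Int.neg rhs))

/-- `max x 0` -/
def posI (x : Int) : Int := cond (isPos x) x 0

def sq2 (a b : Int) : Int := Int.add (Int.mul a a) (Int.mul b b)

/-- the box lies outside the disc of radius `c / 2^40` -/
def outD (c x y hx hy : Int) : Bool :=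
  isPos (Int.add (sq2 (posI (Int.add (absI x) (Int.neg hx))) (posI (Int.add (absI y) (Int.neg hy))))
    (Int.neg (Int.mul c c)))

/-- the box lies in the disc of radius `c / 2^40` -/
def inD (c x y hx hy : Int) : Bool :=
  le (sq2 (Int.add (absI x) hx) (Int.add (absI y) hy)) (Int.mul c c)

/-- the box lies in the region `Reg` -/
def inReg (x y hx hy : Int) : Bool :=
  let ym := Int.add (absI y) hy
  let xh := Int.add x hx
  let xl := Int.add (Int.neg x) hx
  and (inD 659706976663 x y hx hy)
    (and (and (and (le xh 252887674388) (le (Int.add (Int.mul 2 xh) ym) 626721627832))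
      (and (le (Int.add xh ym) 434307092971) (le (Int.add xh (Int.mul 2 ym)) 747667906887)))
    (and (and (le ym 428809534832) (le (Int.add xl (Int.mul 2 ym)) 1264438371942))
      (and (le (Int.add xl ym) 901599534776) (le (Int.add (Int.mul 2 xl) ym) 1489838255636))))

/-- tree of boxes -/
inductive RT where
  /-- split coordinate `0` (real) or `1` (imaginary) -/
  | sx (l r : RT)
  | sy (l r : RT)
  | cert (L0 L1 : List Nat)
  /-- outside the known disc -/
  | out
  /-- in the target region -/
  | inn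

def ev (x : Int) : Bool := Nat.beq (Nat.mod (Int.natAbs x) 2) 0

def RT.check (P : Par) (co : Int) (inn : Int → Int → Int → Int → Bool) :
    RT → Int → Int → Int → Int → Bool
  | .sx l r, x, y, hx, hy =>
    and (ev hx) (and (l.check P co inn (Int.add x (Int.neg (half hx))) y (half hx) hy)
      (r.check P co inn (Int.add x (half hx)) y (half hx) hy))
  | .sy l r, x, y, hx, hy =>
    and (ev hy) (and (l.check P co inn x (Int.add y (Int.neg (half hy))) hx (half hy))
      (r.check P co inn x (Int.add y (half hy)) hx (half hy)))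
  | .cert L0 L1, x, y, hx, hy => regBox P (L0.map dec) (L1.map dec) x y hx hy
  | .out, x, y, hx, hy => outD co x y hx hy
  | .inn, x, y, hx, hy => inn x y hx hy

/-- pass 1: all links `≤ 24/25`; target `‖q‖ ≤ 33/50` -/
def par1 : Par :=
  ⟨1055531162666, 486213013819, 215007362210, 45620954723, 9292801089, 1099511629⟩

/-- pass 2: all links `≤ 33/50`; target `Reg` -/
def par2 : Par :=
  ⟨725677674334, 316105194941, 90878979126, 17244046370, 2159528102, 219902327⟩

end MaxTerm.PA.Chk
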