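import Pool.Agent.MaxTerm.PartA.Core

/-!
# Part A, module TwoWin: the linear inequality from two consecutive windows

Windows `j` and `j+1` share the link `v = q (j+1)`. With `σ = rt q (j+1)` (`σ 0 = q (j+2)`) and
`σ' = lf q j` (`σ' 0 = q j`) one has `mon (rt q j) (n+1) = v^(n+1) * mon σ n`,
`mon (lf q (j+1)) (n+1) = v^(n+1) * mon σ' n`.  Sum the two certificate inequalities
`∑ l (2 Re (conj e F(w)) - ‖e‖² - K²) ≤ 0` (atoms `L0` for window `j`, `L1` for window `j+1`),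
use `‖mon ..‖ ≤ b n` for `n = 1..5` and the total `W ≥ ∑_{n≥6} b n` for the rest.
-/

open Filter Topology ComplexConjugate

namespace MaxTerm.PA

namespace TwoWinAux

theorem mon_zero (s : ℕ → ℂ) : mon s 0 = 1 := by simp [mon]

theorem mon_succ (s : ℕ → ℂ) (n : ℕ) :
    mon s (n + 1) = s 0 ^ (n + 1) * mon (fun i => s (i + 1)) n := by
  unfold mon
  rw [Finset.prod_range_succ']
  simp only [Nat.sub_zero, Nat.add_sub_add_right]
  ring

theorem rt_succ (q : ℤ → ℂ) (j : ℤ) : (fun i => rt q j (i + 1)) = rt q (j + 1) := by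
  funext i
  simp only [rt]
  congr 1
  push_cast
  ring

theorem lf_succ (q : ℤ → ℂ) (j : ℤ) : (fun i => lf q (j + 1) (i + 1)) = lf q j := by
  funext i
  simp only [lf]
  congr 1
  push_cast
  ring

theorem mon_rt_succ (q : ℤ → ℂ) (j : ℤ) (n : ℕ) :
    mon (rt q j) (n + 1) = q (j + 1) ^ (n + 1) * mon (rt q (j + 1)) n := by
  rw [mon_succ, rt_succ]
  simp [rt]

theorem mon_lf_succ (q : ℤ → ℂ) (j : ℤ) (n : ℕ) :
    mon (lf q (j + 1)) (n + 1) = q (j + 1) ^ (n + 1) * mon (lf q j) n := by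
  rw [mon_succ, lf_succ]
  simp [lf]

theorem norm_atomR {a : Atom} (ha : a.OK) (n : ℕ) :
    ‖(a.l : ℂ) * conj a.e * a.w ^ (2 * n + 1)‖ = a.l * ‖a.e‖ := by
  rw [norm_mul, norm_mul, norm_pow, ha.1, one_pow, mul_one, Complex.norm_real,
    Real.norm_of_nonneg ha.2, RCLike.norm_conj]

theorem norm_atomL {a : Atom} (ha : a.OK) (n : ℕ) :
    ‖(a.l : ℂ) * conj a.e * (conj a.w) ^ (2 * n + 1)‖ = a.l * ‖a.e‖ := by
  rw [norm_mul, norm_mul, norm_pow, RCLike.norm_conj, RCLike.norm_conj, ha.1, one_pow, mul_one,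
    Complex.norm_real, Real.norm_of_nonneg ha.2]

theorem norm_aR_le' {L : List Atom} (hL : ∀ a ∈ L, a.OK) (n : ℕ) : ‖aR L n‖ ≤ cA L := by
  induction L with
  | nil => simp [aR, cA]
  | cons a L ih =>
    have h1 : aR (a :: L) n = (a.l : ℂ) * conj a.e * a.w ^ (2 * n + 1) + aR L n := by simp [aR]
    have h2 : cA (a :: L) = a.l * ‖a.e‖ + cA L := by simp [cA]
    rw [h1, h2]
    refine (norm_add_le _ _).trans ?_
    rw [norm_atomR (hL a (by simp)) n]
    have := ih (fun b hb => hL b (by simp [hb]))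
    linarith

theorem norm_aL_le' {L : List Atom} (hL : ∀ a ∈ L, a.OK) (n : ℕ) : ‖aL L n‖ ≤ cA L := by
  induction L with
  | nil => simp [aL, cA]
  | cons a L ih =>
    have h1 : aL (a :: L) n = (a.l : ℂ) * conj a.e * (conj a.w) ^ (2 * n + 1) + aL L n := by
      simp [aL]
    have h2 : cA (a :: L) = a.l * ‖a.e‖ + cA L := by simp [cA]
    rw [h1, h2]
    refine (norm_add_le _ _).trans ?_
    rw [norm_atomL (hL a (by simp)) n]
    have := ih (fun b hb => hL b (by simp [hb]))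
    linarith

theorem cA_nonneg {L : List Atom} (hL : ∀ a ∈ L, a.OK) : 0 ≤ cA L :=
  (norm_nonneg _).trans (norm_aR_le' hL 0)

/-- the atomic inequality -/
theorem atom_ineq {K K2 : ℝ} (hK0 : 0 ≤ K) (hK2 : K ^ 2 ≤ K2) {F e : ℂ} (hF : ‖F‖ ≤ K) :
    2 * (conj e * F).re ≤ ‖e‖ ^ 2 + K2 := by
  have h1 : (conj e * F).re ≤ ‖e‖ * ‖F‖ := by
    calc (conj e * F).re ≤ ‖conj e * F‖ := Complex.re_le_norm _
      _ = ‖e‖ * ‖F‖ := by rw [norm_mul, RCLike.norm_conj]
  have h2 : ‖F‖ ^ 2 ≤ K ^ 2 := by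
    have := norm_nonneg F
    nlinarith
  nlinarith [sq_nonneg (‖e‖ - ‖F‖)]

theorem hasSum_half {s : ℕ → ℂ} {w : ℂ} (hw : ‖w‖ = 1) (hs : Summable fun n => ‖mon s n‖) :
    HasSum (fun n => mon s n * w ^ (2 * n + 1)) (half s w) := by
  have : Summable fun n => mon s n * w ^ (2 * n + 1) := by
    refine Summable.of_norm ?_
    refine hs.congr fun n => ?_
    rw [norm_mul, norm_pow, hw, one_pow, mul_one]
  exact this.hasSum

/-- the certificate of one window in `HasSum` form -/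
theorem hasSum_cert {q : ℤ → ℂ} {j : ℤ} (hr : Summable fun n => ‖mon (rt q j) n‖)
    (hl : Summable fun n => ‖mon (lf q j) n‖) {L : List Atom} (hL : ∀ a ∈ L, a.OK) :
    HasSum (fun n => aR L n * mon (rt q j) n + aL L n * mon (lf q j) n)
      ((L.map fun a => (a.l : ℂ) * conj a.e * Win q j a.w).sum) := by
  induction L with
  | nil =>
    simp only [aR, aL, List.map_nil, List.sum_nil, zero_mul, add_zero]
    exact hasSum_zero
  | cons a L ih =>
    have ih' := ih (fun b hb => hL b (by simp [hb]))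
    have ha : a.OK := hL a (by simp)
    have h1 := hasSum_half ha.1 hr
    have hcw : ‖conj a.w‖ = 1 := by rw [RCLike.norm_conj, ha.1]
    have h2 := hasSum_half hcw hl
    have h3 := (h1.add h2).mul_left ((a.l : ℂ) * conj a.e)
    have h4 := h3.add ih'
    have e1 : (L.map fun a => (a.l : ℂ) * conj a.e * Win q j a.w).sum
        = (L.map fun a => (a.l : ℂ) * conj a.e * Win q j a.w).sum := rfl
    have e2 : ((a :: L).map fun a => (a.l : ℂ) * conj a.e * Win q j a.w).sum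
        = (a.l : ℂ) * conj a.e * (half (rt q j) a.w + half (lf q j) (conj a.w))
          + (L.map fun a => (a.l : ℂ) * conj a.e * Win q j a.w).sum := by
      simp [Win]
    rw [e2]
    refine h4.congr_fun ?_ |> fun h => h
    intro n
    simp only [aR, aL, List.map_cons, List.sum_cons]
    ring

/-- the certificate of one window: the real part of its series is bounded by the constants -/
theorem cert_le {K K2 : ℝ} {q : ℤ → ℂ} (hC : BiChain K q) (hK0 : 0 ≤ K) (hK2 : K ^ 2 ≤ K2) {j : ℤ}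
    {L : List Atom} (hL : ∀ a ∈ L, a.OK) :
    2 * ((L.map fun a => (a.l : ℂ) * conj a.e * Win q j a.w).sum).re
      ≤ (L.map fun a => a.l * (‖a.e‖ ^ 2 + K2)).sum := by
  induction L with
  | nil => simp
  | cons a L ih =>
    have ih' := ih (fun b hb => hL b (by simp [hb]))
    have ha : a.OK := hL a (by simp)
    have h1 := atom_ineq (e := a.e) hK0 hK2 (hC.bound j a.w ha.1)
    simp only [List.map_cons, List.sum_cons, Complex.add_re]
    have h2 : ((a.l : ℂ) * conj a.e * Win q j a.w).re = a.l * (conj a.e * Win q j a.w).re := by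
      rw [mul_assoc, Complex.re_ofReal_mul]
    rw [h2]
    have h3 := mul_le_mul_of_nonneg_left h1 ha.2
    linarith

/-- summability of the monomials from the hypothesis -/
theorem summable_of_bd {s : ℕ → ℂ} {b : ℕ → ℝ} {W : ℝ} (hb : ∀ n, ‖mon s n‖ ≤ b n)
    (hW : ∀ N : ℕ, ∑ n ∈ Finset.Ico 6 N, b n ≤ W) : Summable fun n => ‖mon s n‖ := by
  rw [← summable_nat_add_iff 6]
  refine summable_of_sum_range_le (c := W) (fun n => norm_nonneg _) fun n => ?_
  refine le_trans ?_ (hW (n + 6))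
  rw [Finset.sum_Ico_eq_sum_range]
  simp only [Nat.add_sub_cancel]
  refine Finset.sum_le_sum fun i _ => ?_
  rw [Nat.add_comm 6 i]
  exact hb _

/-- tail bound -/
theorem tail_le {s : ℕ → ℂ} {b : ℕ → ℝ} {W A : ℝ} (hA : 0 ≤ A) (hb : ∀ n, ‖mon s n‖ ≤ b n)
    (hW : ∀ N : ℕ, ∑ n ∈ Finset.Ico 6 N, b n ≤ W) {a : ℕ → ℂ} (ha : ∀ n, ‖a n‖ ≤ A) :
    Summable (fun n => a (n + 6) * mon s (n + 6)) ∧ ‖∑' n, a (n + 6) * mon s (n + 6)‖ ≤ A * W := by
  have hs := (summable_nat_add_iff 6).2 (summable_of_bd hb hW)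
  have hs2 : Summable fun n => A * ‖mon s (n + 6)‖ := hs.mul_left A
  have hle : ∀ n, ‖a (n + 6) * mon s (n + 6)‖ ≤ A * ‖mon s (n + 6)‖ := fun n => by
    rw [norm_mul]
    exact mul_le_mul_of_nonneg_right (ha _) (norm_nonneg _)
  refine ⟨Summable.of_norm_bounded hs2 hle, ?_⟩
  refine (tsum_of_norm_bounded hs2.hasSum hle).trans ?_
  rw [tsum_mul_left]
  refine mul_le_mul_of_nonneg_left ?_ hA
  refine hs.tsum_le_of_sum_range_le fun n => ?_
  refine le_trans ?_ (hW (n + 6))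
  rw [Finset.sum_Ico_eq_sum_range]
  simp only [Nat.add_sub_cancel]
  refine Finset.sum_le_sum fun i _ => ?_
  rw [Nat.add_comm 6 i]
  exact hb _

/-- splitting off six terms -/
theorem split6 {f : ℕ → ℂ} {S : ℂ} (hf : HasSum f S) :
    S = f 0 + f 1 + f 2 + f 3 + f 4 + f 5 + ∑' n, f (n + 6) := by
  have h1 := hf.summable.sum_add_tsum_nat_add 6
  rw [hf.tsum_eq] at h1
  rw [← h1]
  simp only [Finset.sum_range_succ, Finset.sum_range_zero, zero_add]

theorem neg_le_re {z : ℂ} {c : ℝ} (h : ‖z‖ ≤ c) : -c ≤ z.re := by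
  have := Complex.abs_re_le_norm z
  have := abs_le.1 (this.trans h)
  exact this.1

theorem comb_le {a b v m : ℂ} {c : ℝ} (hm : ‖m‖ ≤ c) :
    -(c * ‖a + b * v‖) ≤ (a * m + b * (v * m)).re := by
  have : a * m + b * (v * m) = (a + b * v) * m := by ring
  rw [this]
  refine neg_le_re ?_
  rw [norm_mul, mul_comm]
  exact mul_le_mul_of_nonneg_right hm (norm_nonneg _)

end TwoWinAux

open TwoWinAux in
theorem twoWin {K K2 : ℝ} {q : ℤ → ℂ} (hC : BiChain K q) (hK0 : 0 ≤ K) (hK2 : K ^ 2 ≤ K2)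
    {b : ℕ → ℝ} {W : ℝ}
    (hb : ∀ (i : ℤ) (n : ℕ), ‖mon (rt q i) n‖ ≤ b n ∧ ‖mon (lf q i) n‖ ≤ b n)
    (hW : ∀ N : ℕ, ∑ n ∈ Finset.Ico 6 N, b n ≤ W) {L0 L1 : List Atom}
    (h0 : ∀ a ∈ L0, a.OK) (h1 : ∀ a ∈ L1, a.OK) (j : ℤ) :
    c0 K2 L0 + c0 K2 L1 + 2 * ((aR L0 1 + aL L1 1) * q (j + 1)).re
      ≤ (∑ n ∈ Finset.Icc 1 4, 2 * b n * (‖aR L1 n + aR L0 (n + 1) * q (j + 1) ^ (n + 1)‖
          + ‖aL L0 n + aL L1 (n + 1) * q (j + 1) ^ (n + 1)‖))
        + 2 * b 5 * (‖aR L1 5‖ + ‖aL L0 5‖) + 4 * (cA L0 + cA L1) * W := by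
  have hbr : ∀ i n, ‖mon (rt q i) n‖ ≤ b n := fun i n => (hb i n).1
  have hbl : ∀ i n, ‖mon (lf q i) n‖ ≤ b n := fun i n => (hb i n).2
  have hsr : ∀ i, Summable fun n => ‖mon (rt q i) n‖ := fun i => summable_of_bd (hbr i) hW
  have hsl : ∀ i, Summable fun n => ‖mon (lf q i) n‖ := fun i => summable_of_bd (hbl i) hW
  have hA0 := cA_nonneg h0
  have hA1 := cA_nonneg h1
  -- the two windows
  have S0 := split6 (hasSum_cert (hsr j) (hsl j) h0)
  have S1 := split6 (hasSum_cert (hsr (j + 1)) (hsl (j + 1)) h1)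
  have C0 := cert_le (j := j) hC hK0 hK2 h0
  have C1 := cert_le (j := j + 1) hC hK0 hK2 h1
  -- tails
  have T0r := tail_le hA0 (hbr j) hW (norm_aR_le' h0)
  have T0l := tail_le hA0 (hbl j) hW (norm_aL_le' h0)
  have T1r := tail_le hA1 (hbr (j + 1)) hW (norm_aR_le' h1)
  have T1l := tail_le hA1 (hbl (j + 1)) hW (norm_aL_le' h1)
  rw [T0r.1.tsum_add T0l.1] at S0
  rw [T1r.1.tsum_add T1l.1] at S1
  have t0r := neg_le_re T0r.2
  have t0l := neg_le_re T0l.2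
  have t1r := neg_le_re T1r.2
  have t1l := neg_le_re T1l.2
  rw [S0] at C0
  rw [S1] at C1
  have r1 := mon_rt_succ q j 0
  have r2 := mon_rt_succ q j 1
  have r3 := mon_rt_succ q j 2
  have r4 := mon_rt_succ q j 3
  have r5 := mon_rt_succ q j 4
  have l1 := mon_lf_succ q j 0
  have l2 := mon_lf_succ q j 1
  have l3 := mon_lf_succ q j 2
  have l4 := mon_lf_succ q j 3
  have l5 := mon_lf_succ q j 4
  norm_num only at r1 r2 r3 r4 r5 l1 l2 l3 l4 l5
  rw [mon_zero] at r1 l1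
  rw [mon_zero, mon_zero, r1, r2, r3, r4, r5] at C0
  rw [mon_zero, mon_zero, l1, l2, l3, l4, l5] at C1
  generalize (∑' n, aR L0 (n + 6) * mon (rt q j) (n + 6)) = T0R at *
  generalize (∑' n, aL L0 (n + 6) * mon (lf q j) (n + 6)) = T0L at *
  generalize (∑' n, aR L1 (n + 6) * mon (rt q (j + 1)) (n + 6)) = T1R at *
  generalize (∑' n, aL L1 (n + 6) * mon (lf q (j + 1)) (n + 6)) = T1L at *
  have a1 := comb_le (a := aR L1 1) (b := aR L0 2) (v := q (j + 1) ^ 2) (hbr (j + 1) 1)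
  have a2 := comb_le (a := aR L1 2) (b := aR L0 3) (v := q (j + 1) ^ 3) (hbr (j + 1) 2)
  have a3 := comb_le (a := aR L1 3) (b := aR L0 4) (v := q (j + 1) ^ 4) (hbr (j + 1) 3)
  have a4 := comb_le (a := aR L1 4) (b := aR L0 5) (v := q (j + 1) ^ 5) (hbr (j + 1) 4)
  have b1 := comb_le (a := aL L0 1) (b := aL L1 2) (v := q (j + 1) ^ 2) (hbl j 1)
  have b2 := comb_le (a := aL L0 2) (b := aL L1 3) (v := q (j + 1) ^ 3) (hbl j 2)
  have b3 := comb_le (a := aL L0 3) (b := aL L1 4) (v := q (j + 1) ^ 4) (hbl j 3)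
  have b4 := comb_le (a := aL L0 4) (b := aL L1 5) (v := q (j + 1) ^ 5) (hbl j 4)
  have a5 : -(b 5 * ‖aR L1 5‖) ≤ (aR L1 5 * mon (rt q (j + 1)) 5).re := by
    refine neg_le_re ?_
    rw [norm_mul, mul_comm]
    exact mul_le_mul_of_nonneg_right (hbr _ _) (norm_nonneg _)
  have b5 : -(b 5 * ‖aL L0 5‖) ≤ (aL L0 5 * mon (lf q j) 5).re := by
    refine neg_le_re ?_
    rw [norm_mul, mul_comm]
    exact mul_le_mul_of_nonneg_right (hbl _ _) (norm_nonneg _)
  have e : ∑ n ∈ Finset.Icc 1 4, 2 * b n * (‖aR L1 n + aR L0 (n + 1) * q (j + 1) ^ (n + 1)‖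
          + ‖aL L0 n + aL L1 (n + 1) * q (j + 1) ^ (n + 1)‖)
      = 2 * b 1 * (‖aR L1 1 + aR L0 2 * q (j + 1) ^ 2‖ + ‖aL L0 1 + aL L1 2 * q (j + 1) ^ 2‖)
      + 2 * b 2 * (‖aR L1 2 + aR L0 3 * q (j + 1) ^ 3‖ + ‖aL L0 2 + aL L1 3 * q (j + 1) ^ 3‖)
      + 2 * b 3 * (‖aR L1 3 + aR L0 4 * q (j + 1) ^ 4‖ + ‖aL L0 3 + aL L1 4 * q (j + 1) ^ 4‖)
      + 2 * b 4 * (‖aR L1 4 + aR L0 5 * q (j + 1) ^ 5‖ + ‖aL L0 4 + aL L1 5 * q (j + 1) ^ 5‖) := by
    rw [show Finset.Icc 1 4 = {1, 2, 3, 4} by decide]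
    rw [Finset.sum_insert (by decide), Finset.sum_insert (by decide), Finset.sum_insert (by decide),
      Finset.sum_singleton]
    ring
  rw [e]
  unfold c0
  simp only [Complex.add_re, add_mul, mul_one, pow_one] at *
  linarith

/-- bounds of the monomials from a bound of the links -/
theorem mon_le_of_le {q : ℤ → ℂ} {X : ℝ} (hX : ∀ i, ‖q i‖ ≤ X) (i : ℤ) (n : ℕ) :
    ‖mon (rt q i) n‖ ≤ X ^ (n * (n + 1) / 2) ∧ ‖mon (lf q i) n‖ ≤ X ^ (n * (n + 1) / 2) := by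
  have key : ∀ s : ℕ → ℂ, (∀ i, ‖s i‖ ≤ X) → ∀ n, ‖mon s n‖ ≤ X ^ (n * (n + 1) / 2) := by
    intro s hs n
    induction n generalizing s with
    | zero => simp [mon]
    | succ n ih =>
      rw [TwoWinAux.mon_succ, norm_mul, norm_pow]
      have hX0 : 0 ≤ X := (norm_nonneg _).trans (hs 0)
      have h1 := ih (fun i => s (i + 1)) (fun i => hs _)
      have h2 : ‖s 0‖ ^ (n + 1) ≤ X ^ (n + 1) := pow_le_pow_left₀ (norm_nonneg _) (hs 0) _
      have h3 : (n + 1) * (n + 1 + 1) / 2 = (n + 1) + n * (n + 1) / 2 := by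
        rw [show (n + 1) * (n + 1 + 1) = n * (n + 1) + (n + 1) * 2 by ring,
          Nat.add_mul_div_right _ _ (by norm_num)]
        ring
      rw [h3, pow_add X]
      exact mul_le_mul h2 h1 (norm_nonneg _) (by positivity)
  exact ⟨key _ (fun k => hX _) n, key _ (fun k => hX _) n⟩

/-- bounds of the monomials from Parseval: all links `≤ 24/25`, products of adjacent links `≤ ρ`,
`ρ = 921267/2000000`: `‖mon‖ ≤ ρ ^ ((n-1)+(n-3)+...) * (24/25) ^ ⌈n/2⌉`. -/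
theorem mon_le_pars {K : ℝ} {q : ℤ → ℂ} (hC : BiChain K q) (hK : K ^ 2 ≤ 2.921267)
    (i : ℤ) (n : ℕ) :
    ‖mon (rt q i) n‖ ≤ (921267 / 2000000) ^ (n ^ 2 / 4) * (24 / 25) ^ ((n + 1) / 2) ∧
    ‖mon (lf q i) n‖ ≤ (921267 / 2000000) ^ (n ^ 2 / 4) * (24 / 25) ^ ((n + 1) / 2) := by
  have hsq : ∀ j, ‖q j‖ ≤ 24 / 25 := by
    intro j
    have h1 := hC.pars j
    have h2 : ‖q j‖ ^ 2 ≤ (24 / 25) ^ 2 := by nlinarith [sq_nonneg ‖q (j + 1)‖]
    exact (sq_le_sq₀ (norm_nonneg _) (by norm_num)).1 h2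
  have hpr : ∀ j, ‖q j‖ * ‖q (j + 1)‖ ≤ 921267 / 2000000 := by
    intro j
    have h1 := hC.pars j
    nlinarith [sq_nonneg (‖q j‖ - ‖q (j + 1)‖)]
  have key : ∀ (n : ℕ) (s : ℕ → ℂ), (∀ i, ‖s i‖ ≤ 24 / 25) →
      (∀ i, ‖s i‖ * ‖s (i + 1)‖ ≤ 921267 / 2000000) →
      ‖mon s n‖ ≤ (921267 / 2000000 : ℝ) ^ (n ^ 2 / 4) * (24 / 25) ^ ((n + 1) / 2) := by
    intro n
    induction n using Nat.strong_induction_on with
    | _ n ih =>
      intro s hs hp
      match n, ih with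
      | 0, _ => simp [mon]
      | 1, _ =>
        have := hs 0
        simpa [mon] using this
      | n + 2, ih =>
        rw [TwoWinAux.mon_succ, TwoWinAux.mon_succ, norm_mul, norm_mul, norm_pow, norm_pow]
        have h1 := ih n (by omega) (fun i => s (i + 1 + 1)) (fun i => hs _) (fun i => hp _)
        have h2 : (n + 2) ^ 2 / 4 = (n + 1) + n ^ 2 / 4 := by
          rw [show (n + 2) ^ 2 = n ^ 2 + (n + 1) * 4 by ring, Nat.add_mul_div_right _ _ (by norm_num)]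
          ring
        have h3 : (n + 2 + 1) / 2 = 1 + (n + 1) / 2 := by omega
        have h4 : ‖s 0‖ ^ (n + 1 + 1) * ‖s (0 + 1)‖ ^ (n + 1)
            ≤ (921267 / 2000000) ^ (n + 1) * (24 / 25) := by
          have e : ‖s 0‖ ^ (n + 1 + 1) * ‖s (0 + 1)‖ ^ (n + 1)
              = (‖s 0‖ * ‖s (0 + 1)‖) ^ (n + 1) * ‖s 0‖ := by ring
          rw [e]
          exact mul_le_mul (pow_le_pow_left₀ (by positivity) (hp 0) _) (hs 0) (norm_nonneg _)
            (by positivity)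
        rw [h2, h3, pow_add, pow_add, pow_one]
        calc ‖s 0‖ ^ (n + 1 + 1) * (‖s (0 + 1)‖ ^ (n + 1) * ‖mon (fun i => s (i + 1 + 1)) n‖)
            = ‖s 0‖ ^ (n + 1 + 1) * ‖s (0 + 1)‖ ^ (n + 1) * ‖mon (fun i => s (i + 1 + 1)) n‖ := by
              ring
          _ ≤ ((921267 / 2000000) ^ (n + 1) * (24 / 25))
              * ((921267 / 2000000) ^ (n ^ 2 / 4) * (24 / 25) ^ ((n + 1) / 2)) :=
              mul_le_mul h4 h1 (norm_nonneg _) (by positivity)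
          _ = _ := by ring
  refine ⟨key n _ (fun k => hsq _) (fun k => ?_), key n _ (fun k => hsq _) (fun k => ?_)⟩
  · have := hpr (i + 1 + k)
    simp only [rt]
    rw [show i + 1 + ((k + 1 : ℕ) : ℤ) = i + 1 + k + 1 by push_cast; ring]
    exact this
  · have := hpr (i - (k + 1 : ℕ))
    simp only [lf]
    rw [show i - ((k + 1 : ℕ) : ℤ) + 1 = i - k by push_cast; ring] at this
    rw [mul_comm]
    exact this

end MaxTerm.PA
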