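import Pool.Agent.MaxTerm.PartA.RegChk
import Pool.Agent.MaxTerm.PartA.ChkSound1
import Pool.Agent.MaxTerm.PartA.TwoWin

/-!
# Part A, a-priori region: soundness of the checker
-/

open ComplexConjugate

namespace MaxTerm.PA.Chk

theorem rv_le {a b : Int} (h : a ≤ b) : rv a ≤ rv b := by
  unfold rv
  have : (a : ℝ) ≤ b := by exact_mod_cast h
  gcongr

theorem rv_nonneg {a : Int} (h : 0 ≤ a) : 0 ≤ rv a := by
  have := rv_le h
  simpa [rv] using this

theorem rv_pos {a : Int} (h : 0 < a) : 0 < rv a := by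
  unfold rv
  have : (0 : ℝ) < a := by exact_mod_cast h
  positivity

theorem rv_mul_int (n a : Int) : rv (Int.mul n a) = n * rv a := by
  unfold rv
  rw [show Int.mul n a = n * a from rfl]
  push_cast
  ring

theorem mem_exact {z : ℂ} {x y : Int} (h : z = ⟨rv x, rv y⟩) : CB.Mem z ⟨x, y, 0⟩ := by
  subst h
  simp [CB.Mem, CB.mid, rv]

theorem mem_zero : CB.Mem 0 zeroCB := by
  refine mem_exact ?_
  apply Complex.ext <;> simp [rv]

theorem mem_ce (a : At) : CB.Mem ((a.real.l : ℂ) * conj a.real.e) a.ce := by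
  refine mem_exact ?_
  apply Complex.ext
  · simp only [At.real, Complex.mul_re, Complex.ofReal_re, Complex.conj_re, Complex.ofReal_im,
      Complex.conj_im, rv]
    rw [show Int.mul (Int.mul (Int.ofNat a.l) a.ex) 65536 = (a.l : Int) * a.ex * 65536 from rfl]
    push_cast
    ring
  · simp only [At.real, Complex.mul_im, Complex.ofReal_re, Complex.conj_re, Complex.ofReal_im,
      Complex.conj_im, rv]
    rw [show Int.neg (Int.mul (Int.mul (Int.ofNat a.l) a.ey) 65536)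
      = -((a.l : Int) * a.ey * 65536) from rfl]
    push_cast
    ring

/-- soundness of the moments of index `5` -/
theorem mom5_sound (L : List At) :
    CB.Mem (aR (L.map At.real) 5) (mom5 L).a ∧ CB.Mem (aL (L.map At.real) 5) (mom5 L).b := by
  induction L with
  | nil => exact ⟨by simpa [aR, mom5] using mem_zero, by simpa [aL, mom5] using mem_zero⟩
  | cons a L ih =>
    have hR : aR ((a :: L).map At.real) 5
        = aR (L.map At.real) 5 + (a.real.l : ℂ) * conj a.real.e * a.real.w ^ (2 * 5 + 1) := by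
      simp only [aR, List.map_cons, List.sum_cons]
      ring
    have hL : aL ((a :: L).map At.real) 5
        = aL (L.map At.real) 5 + (a.real.l : ℂ) * conj a.real.e * (conj a.real.w) ^ (2 * 5 + 1) := by
      simp only [aL, List.map_cons, List.sum_cons]
      ring
    have w1 : CB.Mem a.real.w (unitW a.p) := mem_unitW a.p
    have w2 := w1.mul w1
    have w11 := (((((w1.mul w2).mul w2).mul w2).mul w2).mul w2)
    have e11 : a.real.w * (a.real.w * a.real.w) * (a.real.w * a.real.w) * (a.real.w * a.real.w)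
        * (a.real.w * a.real.w) * (a.real.w * a.real.w) = a.real.w ^ (2 * 5 + 1) := by ring
    rw [e11] at w11
    have c11 := w11.conjB
    rw [map_pow] at c11
    rw [hR, hL]
    exact ⟨ih.1.add ((mem_ce a).mul w11), ih.2.add ((mem_ce a).mul c11)⟩

theorem pow_sub_le {z w : ℂ} {R : ℝ} (hz : ‖z‖ ≤ R) (hw : ‖w‖ ≤ R) (m : ℕ) :
    ‖z ^ (m + 1) - w ^ (m + 1)‖ ≤ (m + 1) * R ^ m * ‖z - w‖ := by
  have hR : 0 ≤ R := (norm_nonneg z).trans hz
  induction m with
  | zero => simp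
  | succ m ih =>
    have e : z ^ (m + 1 + 1) - w ^ (m + 1 + 1)
        = z ^ (m + 1) * (z - w) + w * (z ^ (m + 1) - w ^ (m + 1)) := by ring
    rw [e]
    refine (norm_add_le _ _).trans ?_
    rw [norm_mul, norm_mul, norm_pow]
    have h1 : ‖z‖ ^ (m + 1) ≤ R ^ (m + 1) := pow_le_pow_left₀ (norm_nonneg _) hz _
    have h2 : ‖w‖ * ‖z ^ (m + 1) - w ^ (m + 1)‖ ≤ R * ((m + 1) * R ^ m * ‖z - w‖) :=
      mul_le_mul hw ih (norm_nonneg _) hR
    have h3 : ‖z‖ ^ (m + 1) * ‖z - w‖ ≤ R ^ (m + 1) * ‖z - w‖ :=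
      mul_le_mul_of_nonneg_right h1 (norm_nonneg _)
    calc ‖z‖ ^ (m + 1) * ‖z - w‖ + ‖w‖ * ‖z ^ (m + 1) - w ^ (m + 1)‖
        ≤ R ^ (m + 1) * ‖z - w‖ + R * ((m + 1) * R ^ m * ‖z - w‖) := by linarith
      _ = (((m + 1 : ℕ) : ℝ) + 1) * R ^ (m + 1) * ‖z - w‖ := by push_cast; ring

theorem mul_le_mulU {s t : ℝ} {a b : Int} (hs : 0 ≤ s) (ht : 0 ≤ t) (hsa : s ≤ rv a)
    (htb : t ≤ rv b) : s * t ≤ rv (mulU a b) :=
  (mul_le_mul hsa htb ht (hs.trans hsa)).trans rv_mul_le_mulU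

theorem term_ge {A B z v0 : ℂ} {m : ℕ} {A' B' Vp : CB} {d : Int} (hA : CB.Mem A A')
    (hB : CB.Mem B B') (hV : CB.Mem (v0 ^ m) Vp) (hd : ‖z ^ m - v0 ^ m‖ ≤ rv d) :
    ‖A + B * z ^ m‖ ≤ rv (term A' B' Vp d) := by
  have h1 := (hA.add (hB.mul hV)).norm_le
  have h2 : ‖B‖ * ‖z ^ m - v0 ^ m‖ ≤ rv (mulU (CB.up B') d) :=
    mul_le_mulU (norm_nonneg _) (norm_nonneg _) hB.norm_le hd
  have e : A + B * z ^ m = (A + B * v0 ^ m) + B * (z ^ m - v0 ^ m) := by ring
  rw [e, term, rv_add]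
  refine (norm_add_le _ _).trans ?_
  rw [norm_mul]
  linarith

theorem linCost_ge {α z v0 : ℂ} {α' : CB} {hx hy : Int} (hα : CB.Mem α α')
    (hre : |z.re - v0.re| ≤ rv hx) (him : |z.im - v0.im| ≤ rv hy) :
    -rv (linCost α' hx hy) ≤ (α * (z - v0)).re := by
  have h1 : |α.re| * |z.re - v0.re| ≤ rv (mulU (Int.add (absI α'.re) α'.rad) hx) :=
    mul_le_mulU (abs_nonneg _) (abs_nonneg _) hα.abs_re_le hre
  have h2 : |α.im| * |z.im - v0.im| ≤ rv (mulU (Int.add (absI α'.im) α'.rad) hy) :=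
    mul_le_mulU (abs_nonneg _) (abs_nonneg _) hα.abs_im_le him
  rw [linCost, rv_add]
  have e : (α * (z - v0)).re = α.re * (z.re - v0.re) - α.im * (z.im - v0.im) := by
    simp [Complex.mul_re]
  rw [e]
  have h3 := neg_abs_le (α.re * (z.re - v0.re))
  have h4 := le_abs_self (α.im * (z.im - v0.im))
  rw [abs_mul] at h3 h4
  linarith

/-- membership in a box -/
def InB (z : ℂ) (x y hx hy : Int) : Prop := |z.re - rv x| ≤ rv hx ∧ |z.im - rv y| ≤ rv hy

/-- the bounds of the monomials are those of `P` -/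
structure ParOK (P : Par) (b : ℕ → ℝ) (W : ℝ) : Prop where
  b1 : b 1 ≤ rv P.b1
  b2 : b 2 ≤ rv P.b2
  b3 : b 3 ≤ rv P.b3
  b4 : b 4 ≤ rv P.b4
  b5 : b 5 ≤ rv P.b5
  bW : W ≤ rv P.W
  n1 : 0 ≤ b 1
  n2 : 0 ≤ b 2
  n3 : 0 ≤ b 3
  n4 : 0 ≤ b 4
  n5 : 0 ≤ b 5
  nW : 0 ≤ W

theorem regBox_sound {K : ℝ} {q : ℤ → ℂ} (hC : BiChain K q) (hK0 : 0 ≤ K) (hK : K ^ 2 ≤ 2.921267)
    {P : Par} {b : ℕ → ℝ} {W : ℝ}
    (hb : ∀ (i : ℤ) (n : ℕ), ‖mon (rt q i) n‖ ≤ b n ∧ ‖mon (lf q i) n‖ ≤ b n)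
    (hW : ∀ N : ℕ, ∑ n ∈ Finset.Ico 6 N, b n ≤ W) (hP : ParOK P b W) {L0 L1 : List At}
    {x y hx hy : Int} (h : regBox P L0 L1 x y hx hy = true) (j : ℤ)
    (hz : InB (q (j + 1)) x y hx hy) : False := by
  have hOK : ∀ L : List At, ∀ a ∈ L.map At.real, a.OK := by
    intro L a ha
    obtain ⟨c, _, rfl⟩ := List.mem_map.1 ha
    exact c.real_OK
  have T := twoWin hC hK0 (hK.trans K2r_ge) hb hW (hOK L0) (hOK L1) j
  have M0 := moments_sound L0
  have M1 := moments_sound L1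
  obtain ⟨k0a, k0b⟩ := mom5_sound L0
  obtain ⟨k1a, k1b⟩ := mom5_sound L1
  generalize q (j + 1) = z at *
  obtain ⟨hre, him⟩ := hz
  obtain ⟨v0, hv0⟩ : ∃ v0 : ℂ, v0 = ⟨rv x, rv y⟩ := ⟨_, rfl⟩
  have hV : CB.Mem v0 ⟨x, y, 0⟩ := mem_exact hv0
  have hre' : |z.re - v0.re| ≤ rv hx := by rw [hv0]; exact hre
  have him' : |z.im - v0.im| ≤ rv hy := by rw [hv0]; exact him
  -- distance to the centre
  have hd : ‖z - v0‖ ≤ rv (nrm hx hy) := by
    have h1 := le_nrm hx hy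
    have h2 : ‖z - v0‖ ≤ Real.sqrt (rv hx ^ 2 + rv hy ^ 2) := by
      rw [Complex.norm_eq_sqrt_sq_add_sq]
      apply Real.sqrt_le_sqrt
      have e1 : (z - v0).re ^ 2 ≤ rv hx ^ 2 := by
        rw [← sq_abs, Complex.sub_re]
        exact pow_le_pow_left₀ (abs_nonneg _) hre' 2
      have e2 : (z - v0).im ^ 2 ≤ rv hy ^ 2 := by
        rw [← sq_abs, Complex.sub_im]
        exact pow_le_pow_left₀ (abs_nonneg _) him' 2
      linarith
    refine h2.trans ?_
    have e3 : rv hx ^ 2 + rv hy ^ 2 = ((hx : ℝ) ^ 2 + (hy : ℝ) ^ 2) / (2 ^ 40) ^ 2 := by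
      unfold rv
      ring
    rw [e3, Real.sqrt_div (by positivity), Real.sqrt_sq (by positivity)]
    unfold rv
    gcongr
  have hV0 : ‖v0‖ ≤ rv (CB.up ⟨x, y, 0⟩) := hV.norm_le
  set r : Int := Int.add (CB.up ⟨x, y, 0⟩) (nrm hx hy) with hr
  have hrr : rv r = rv (CB.up ⟨x, y, 0⟩) + rv (nrm hx hy) := rv_add _ _
  have hd0 : 0 ≤ rv (nrm hx hy) := (norm_nonneg _).trans hd
  have hR0 : 0 ≤ rv r := by
    rw [hrr]
    linarith [(norm_nonneg _).trans hV0]
  have hvR : ‖v0‖ ≤ rv r := by rw [hrr]; linarith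
  have hzR : ‖z‖ ≤ rv r := by
    rw [hrr]
    have : ‖z‖ ≤ ‖v0‖ + ‖z - v0‖ := by
      have := norm_add_le v0 (z - v0)
      simpa using this
    linarith
  have r2 : rv r ^ 2 ≤ rv (mulU r r) := by
    rw [sq]
    exact rv_mul_le_mulU
  have r3 : rv r ^ 3 ≤ rv (mulU (mulU r r) r) := by
    rw [pow_succ]
    exact mul_le_mulU (by positivity) hR0 r2 le_rfl
  have r4 : rv r ^ 4 ≤ rv (mulU (mulU r r) (mulU r r)) := by
    have : rv r ^ 4 = rv r ^ 2 * rv r ^ 2 := by ring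
    rw [this]
    exact mul_le_mulU (by positivity) (by positivity) r2 r2
  have D2 : ‖z ^ 2 - v0 ^ 2‖ ≤ rv (mulU (Int.mul 2 r) (nrm hx hy)) := by
    refine (pow_sub_le hzR hvR 1).trans (mul_le_mulU (by positivity) (norm_nonneg _) ?_ hd)
    rw [rv_mul_int]
    push_cast
    linarith
  have D3 : ‖z ^ 3 - v0 ^ 3‖ ≤ rv (mulU (Int.mul 3 (mulU r r)) (nrm hx hy)) := by
    refine (pow_sub_le hzR hvR 2).trans (mul_le_mulU (by positivity) (norm_nonneg _) ?_ hd)
    rw [rv_mul_int]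
    push_cast
    linarith
  have D4 : ‖z ^ 4 - v0 ^ 4‖ ≤ rv (mulU (Int.mul 4 (mulU (mulU r r) r)) (nrm hx hy)) := by
    refine (pow_sub_le hzR hvR 3).trans (mul_le_mulU (by positivity) (norm_nonneg _) ?_ hd)
    rw [rv_mul_int]
    push_cast
    linarith
  have D5 : ‖z ^ 5 - v0 ^ 5‖ ≤
      rv (mulU (Int.mul 5 (mulU (mulU r r) (mulU r r))) (nrm hx hy)) := by
    refine (pow_sub_le hzR hvR 4).trans (mul_le_mulU (by positivity) (norm_nonneg _) ?_ hd)
    rw [rv_mul_int]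
    push_cast
    linarith
  have V2 : CB.Mem (v0 ^ 2) (CB.mul ⟨x, y, 0⟩ ⟨x, y, 0⟩) := by
    have := hV.mul hV
    rwa [← sq] at this
  have V3 : CB.Mem (v0 ^ 3) (CB.mul (CB.mul ⟨x, y, 0⟩ ⟨x, y, 0⟩) ⟨x, y, 0⟩) := by
    have := V2.mul hV
    rwa [← pow_succ] at this
  have V4 : CB.Mem (v0 ^ 4)
      (CB.mul (CB.mul ⟨x, y, 0⟩ ⟨x, y, 0⟩) (CB.mul ⟨x, y, 0⟩ ⟨x, y, 0⟩)) := by
    have := V2.mul V2
    rwa [← pow_add] at this
  have V5 : CB.Mem (v0 ^ 5)
      (CB.mul (CB.mul (CB.mul ⟨x, y, 0⟩ ⟨x, y, 0⟩) (CB.mul ⟨x, y, 0⟩ ⟨x, y, 0⟩)) ⟨x, y, 0⟩) := by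
    have := V4.mul hV
    rwa [← pow_succ] at this
  have t1r := term_ge M1.a1 M0.a2 V2 D2
  have t1l := term_ge M0.b1 M1.b2 V2 D2
  have t2r := term_ge M1.a2 M0.a3 V3 D3
  have t2l := term_ge M0.b2 M1.b3 V3 D3
  have t3r := term_ge M1.a3 M0.a4 V4 D4
  have t3l := term_ge M0.b3 M1.b4 V4 D4
  have t4r := term_ge M1.a4 k0a V5 D5
  have t4l := term_ge M0.b4 k1b V5 D5
  have t5r := k1a.norm_le
  have t5l := k0b.norm_le
  have hA := hOK L0
  have cA0 := TwoWinAux.cA_nonneg (hOK L0)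
  have cA1 := TwoWinAux.cA_nonneg (hOK L1)
  have hq := ((M0.a1.add M1.b1).mul hV).re_ge
  have hl := linCost_ge (M0.a1.add M1.b1) hre' him'
  have hS := ((M0.a0.add M0.b0).add (M1.a0.add M1.b0)).re_ge
  have hc0 := M0.cst
  have hc1 := M1.cst
  -- the five products
  have p1 := mul_le_mulU hP.n1 (by positivity) hP.b1 (add_le_add t1r t1l |>.trans_eq (rv_add _ _).symm)
  have p2 := mul_le_mulU hP.n2 (by positivity) hP.b2 (add_le_add t2r t2l |>.trans_eq (rv_add _ _).symm)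
  have p3 := mul_le_mulU hP.n3 (by positivity) hP.b3 (add_le_add t3r t3l |>.trans_eq (rv_add _ _).symm)
  have p4 := mul_le_mulU hP.n4 (by positivity) hP.b4 (add_le_add t4r t4l |>.trans_eq (rv_add _ _).symm)
  have p5 := mul_le_mulU hP.n5 (by positivity) hP.b5 (add_le_add t5r t5l |>.trans_eq (rv_add _ _).symm)
  have p6 : (4 * W) * (cA (L0.map At.real) + cA (L1.map At.real)) ≤
      rv (mulU (Int.mul 4 P.W) (Int.add (moments L0).A (moments L1).A)) := by
    refine mul_le_mulU (by linarith [hP.nW]) (by linarith) ?_ ?_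
    · rw [rv_mul_int]
      push_cast
      linarith [hP.bW]
    · rw [rv_add]
      exact add_le_add M0.A M1.A
  have hpos := (isPos_iff _).1 h
  have hpos' := rv_pos hpos
  simp only [rv_add, rv_neg, rv_mul_int] at hpos'
  simp only [rv_add, rv_neg] at hq hl hS
  rw [show Finset.Icc 1 4 = {1, 2, 3, 4} by decide] at T
  rw [Finset.sum_insert (by decide), Finset.sum_insert (by decide), Finset.sum_insert (by decide),
    Finset.sum_singleton] at T
  unfold c0 at T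
  rw [hc0, hc1] at T
  norm_num only at T
  have ez : ((aR (L0.map At.real) 1 + aL (L1.map At.real) 1) * z).re
      = ((aR (L0.map At.real) 1 + aL (L1.map At.real) 1) * v0).re
        + ((aR (L0.map At.real) 1 + aL (L1.map At.real) 1) * (z - v0)).re := by
    rw [← Complex.add_re]
    congr 1
    ring
  rw [ez] at T
  simp only [Complex.add_re] at T hS
  push_cast at hpos'
  linarith

/-! ### outside/inside predicates -/

theorem rv_absI (x : Int) : rv (absI x) = |rv x| := by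
  rw [absI_eq]
  unfold rv
  rw [abs_div, abs_of_pos (show (0 : ℝ) < 2 ^ 40 by positivity)]
  push_cast
  rfl

theorem rv_posI (x : Int) : rv (posI x) = max (rv x) 0 := by
  unfold posI
  by_cases h : 0 < x
  · rw [(isPos_iff x).2 h]
    rw [max_eq_left (rv_pos h).le]
    rfl
  · have : isPos x = false := by
      rw [Bool.eq_false_iff]
      intro h'
      exact h ((isPos_iff x).1 h')
    rw [this]
    have h2 : rv x ≤ 0 := by
      have := rv_le (not_lt.1 h)
      simpa [rv] using this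
    rw [max_eq_right h2]
    simp [rv]

theorem rv_sq2 (a b : Int) : (sq2 a b : ℝ) / (2 ^ 40) ^ 2 = rv a ^ 2 + rv b ^ 2 := by
  unfold sq2 rv
  rw [show Int.add (Int.mul a a) (Int.mul b b) = a * a + b * b from rfl]
  push_cast
  ring

theorem outD_sound {c x y hx hy : Int} (h : outD c x y hx hy = true) {z : ℂ}
    (hz : InB z x y hx hy) (hc : ‖z‖ ≤ rv c) : False := by
  unfold outD at h
  have h1 := (isPos_iff _).1 h
  have h2 : Int.mul c c < sq2 (posI (Int.add (absI x) (Int.neg hx)))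
      (posI (Int.add (absI y) (Int.neg hy))) := by
    have e : Int.add (sq2 (posI (Int.add (absI x) (Int.neg hx)))
      (posI (Int.add (absI y) (Int.neg hy)))) (Int.neg (Int.mul c c))
      = sq2 (posI (Int.add (absI x) (Int.neg hx)))
      (posI (Int.add (absI y) (Int.neg hy))) - Int.mul c c := by
      rw [Int.sub_eq_add_neg]; rfl
    rw [e] at h1
    linarith
  have h3 : ((Int.mul c c : Int) : ℝ) / (2 ^ 40) ^ 2 < (sq2 (posI (Int.add (absI x) (Int.neg hx)))
      (posI (Int.add (absI y) (Int.neg hy))) : ℝ) / (2 ^ 40) ^ 2 := by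
    have : ((Int.mul c c : Int) : ℝ) < (sq2 (posI (Int.add (absI x) (Int.neg hx)))
      (posI (Int.add (absI y) (Int.neg hy))) : ℝ) := by exact_mod_cast h2
    gcongr
  rw [rv_sq2, rv_posI, rv_posI, rv_add, rv_add, rv_neg, rv_neg, rv_absI, rv_absI] at h3
  have h4 : ((Int.mul c c : Int) : ℝ) / (2 ^ 40) ^ 2 = rv c ^ 2 := by
    unfold rv
    rw [show Int.mul c c = c * c from rfl]
    push_cast
    ring
  rw [h4] at h3
  obtain ⟨hre, him⟩ := hz
  have ax : max (|rv x| + -rv hx) 0 ≤ |z.re| := by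
    refine max_le ?_ (abs_nonneg _)
    have := abs_sub_abs_le_abs_sub (rv x) z.re
    rw [abs_sub_comm] at this
    linarith
  have ay : max (|rv y| + -rv hy) 0 ≤ |z.im| := by
    refine max_le ?_ (abs_nonneg _)
    have := abs_sub_abs_le_abs_sub (rv y) z.im
    rw [abs_sub_comm] at this
    linarith
  have ax2 := pow_le_pow_left₀ (le_max_right _ _) ax 2
  have ay2 := pow_le_pow_left₀ (le_max_right _ _) ay 2
  rw [sq_abs] at ax2 ay2
  have hn : z.re ^ 2 + z.im ^ 2 ≤ rv c ^ 2 := by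
    have := pow_le_pow_left₀ (norm_nonneg z) hc 2
    rwa [Complex.sq_norm, Complex.normSq_apply, ← sq, ← sq] at this
  linarith

theorem abs_le_of {t x hx : ℝ} (h : |t - x| ≤ hx) : |t| ≤ |x| + hx := by
  have := abs_sub_abs_le_abs_sub t x
  linarith

theorem inD_sound {c x y hx hy : Int} (h : inD c x y hx hy = true) {z : ℂ}
    (hz : InB z x y hx hy) (hc : 0 ≤ c) : ‖z‖ ≤ rv c := by
  have h1 := (le_iff _ _).1 h
  obtain ⟨hre, him⟩ := hz
  have ax := abs_le_of hre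
  have ay := abs_le_of him
  have h3 : (sq2 (Int.add (absI x) hx) (Int.add (absI y) hy) : ℝ) / (2 ^ 40) ^ 2 ≤
      ((Int.mul c c : Int) : ℝ) / (2 ^ 40) ^ 2 := by
    have : (sq2 (Int.add (absI x) hx) (Int.add (absI y) hy) : ℝ) ≤ ((Int.mul c c : Int) : ℝ) := by
      exact_mod_cast h1
    gcongr
  have h4 : ((Int.mul c c : Int) : ℝ) / (2 ^ 40) ^ 2 = rv c ^ 2 := by
    unfold rv
    rw [show Int.mul c c = c * c from rfl]
    push_cast
    ring
  rw [rv_sq2, rv_add, rv_add, rv_absI, rv_absI, h4] at h3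
  have hc' := rv_nonneg hc
  rw [← abs_of_nonneg (norm_nonneg z), ← abs_of_nonneg hc', ← sq_le_sq, Complex.sq_norm,
    Complex.normSq_apply, ← sq, ← sq]
  have ax2 := pow_le_pow_left₀ (abs_nonneg _) ax 2
  have ay2 := pow_le_pow_left₀ (abs_nonneg _) ay 2
  rw [sq_abs] at ax2 ay2
  linarith

theorem rv_half {x : Int} (h : ev x = true) : 2 * rv (half x) = rv x := by
  have h1 : x.natAbs % 2 = 0 := by
    unfold ev at h
    exact Nat.eq_of_beq_eq_true h
  have h2 : 2 ∣ x := by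
    rw [← Int.natAbs_dvd_natAbs]
    exact Nat.dvd_of_mod_eq_zero h1
  obtain ⟨k, hk⟩ := h2
  have h3 : half x = k := by
    unfold half
    rw [show Int.ediv x 2 = x / 2 from rfl, hk]
    simp
  rw [h3, hk]
  unfold rv
  push_cast
  ring

theorem split1 {t x hx h : ℝ} (hh : 2 * h = hx) (ht : |t - x| ≤ hx) :
    |t - (x + -h)| ≤ h ∨ |t - (x + h)| ≤ h := by
  rw [abs_le] at ht
  rcases le_total t x with h1 | h1
  · left
    rw [abs_le]
    constructor <;> linarith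
  · right
    rw [abs_le]
    constructor <;> linarith

theorem RT.sound {P : Par} {co : Int} {inn : Int → Int → Int → Int → Bool} {z : ℂ} {T : Prop}
    (hc : ∀ L0 L1 x y hx hy, regBox P L0 L1 x y hx hy = true → InB z x y hx hy → T)
    (hco : ‖z‖ ≤ rv co)
    (hi : ∀ x y hx hy, inn x y hx hy = true → InB z x y hx hy → T) :
    ∀ (t : RT) (x y hx hy : Int), t.check P co inn x y hx hy = true → InB z x y hx hy → T := by
  intro t
  induction t with
  | sx l r ihl ihr =>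
    intro x y hx hy h hz
    simp only [RT.check, Bool.and_eq_true] at h
    obtain ⟨he, hl, hr⟩ := h
    have e := rv_half he
    rcases split1 e hz.1 with h1 | h1
    · refine ihl _ _ _ _ hl ⟨?_, hz.2⟩
      rw [rv_add, rv_neg]
      exact h1
    · refine ihr _ _ _ _ hr ⟨?_, hz.2⟩
      rw [rv_add]
      exact h1
  | sy l r ihl ihr =>
    intro x y hx hy h hz
    simp only [RT.check, Bool.and_eq_true] at h
    obtain ⟨he, hl, hr⟩ := h
    have e := rv_half he
    rcases split1 e hz.2 with h1 | h1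
    · refine ihl _ _ _ _ hl ⟨hz.1, ?_⟩
      rw [rv_add, rv_neg]
      exact h1
    · refine ihr _ _ _ _ hr ⟨hz.1, ?_⟩
      rw [rv_add]
      exact h1
  | cert L0 L1 =>
    intro x y hx hy h hz
    exact hc _ _ _ _ _ _ h hz
  | out =>
    intro x y hx hy h hz
    exact (outD_sound h hz hco).elim
  | inn =>
    intro x y hx hy h hz
    exact hi _ _ _ _ h hz

end MaxTerm.PA.Chk
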