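import Pool.Agent.MaxTerm.PartA.ChkSound1

/-!
# Part A, near region: third order Taylor models in four real variables

A Taylor model `M : TM` encloses a function `f : Pt → ℂ` on a box `Y`:
`f y = c + ∑ l_i y_i + ∑_{i ≤ j} q_ij y_i y_j + ∑_{i ≤ j ≤ k} d_ijk(y) y_i y_j y_k`, with fixed (ghost) numbers
`c, l_i, q_ij` in the balls `M.c, M.l_i, M.q_ij` and with `d_ijk(y)` in the balls `M.d_ijk` for every `y` in
the box. (The expansion is at `0`.)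
-/

open ComplexConjugate

namespace MaxTerm.PA.Chk

/-- third order Taylor model in four real variables -/
structure TM where
  c : CB
  l1 : CB
  l2 : CB
  l3 : CB
  l4 : CB
  q11 : CB
  q12 : CB
  q13 : CB
  q14 : CB
  q22 : CB
  q23 : CB
  q24 : CB
  q33 : CB
  q34 : CB
  q44 : CB
  d111 : CB
  d112 : CB
  d113 : CB
  d114 : CB
  d122 : CB
  d123 : CB
  d124 : CB
  d133 : CB
  d134 : CB
  d144 : CB
  d222 : CB
  d223 : CB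
  d224 : CB
  d233 : CB
  d234 : CB
  d244 : CB
  d333 : CB
  d334 : CB
  d344 : CB
  d444 : CB

/-- a box: every coordinate lies in a ball -/
structure Bx where
  y1 : CB
  y2 : CB
  y3 : CB
  y4 : CB

/-- a point of `ℝ⁴` -/
structure Pt where
  y1 : ℝ
  y2 : ℝ
  y3 : ℝ
  y4 : ℝ

/-- the point belongs to the box -/
structure Pt.In (Y : Bx) (y : Pt) : Prop where
  h1 : CB.Mem (y.y1 : ℂ) Y.y1
  h2 : CB.Mem (y.y2 : ℂ) Y.y2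
  h3 : CB.Mem (y.y3 : ℂ) Y.y3
  h4 : CB.Mem (y.y4 : ℂ) Y.y4

/-- the ghost affine part -/
structure Lin where
  c : ℂ
  l1 : ℂ
  l2 : ℂ
  l3 : ℂ
  l4 : ℂ

/-- the linear part -/
noncomputable def Lin.ev (g : Lin) (y : Pt) : ℂ := g.l1 * y.y1 + g.l2 * y.y2 + g.l3 * y.y3 + g.l4 * y.y4

/-- the quadratic part -/
structure Quad where
  q11 : ℂ
  q12 : ℂ
  q13 : ℂ
  q14 : ℂ
  q22 : ℂ
  q23 : ℂ
  q24 : ℂ
  q33 : ℂ
  q34 : ℂ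
  q44 : ℂ

/-- the quadratic part -/
noncomputable def Quad.ev (h : Quad) (y : Pt) : ℂ :=
  h.q11 * (y.y1 * y.y1) + h.q12 * (y.y1 * y.y2) + h.q13 * (y.y1 * y.y3) + h.q14 * (y.y1 * y.y4)
    + h.q22 * (y.y2 * y.y2) + h.q23 * (y.y2 * y.y3) + h.q24 * (y.y2 * y.y4)
    + h.q33 * (y.y3 * y.y3) + h.q34 * (y.y3 * y.y4)
    + h.q44 * (y.y4 * y.y4)

/-- the cubic part (depends on the point) -/
structure Cub where
  d111 : ℂ
  d112 : ℂ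
  d113 : ℂ
  d114 : ℂ
  d122 : ℂ
  d123 : ℂ
  d124 : ℂ
  d133 : ℂ
  d134 : ℂ
  d144 : ℂ
  d222 : ℂ
  d223 : ℂ
  d224 : ℂ
  d233 : ℂ
  d234 : ℂ
  d244 : ℂ
  d333 : ℂ
  d334 : ℂ
  d344 : ℂ
  d444 : ℂ

/-- the cubic part -/
noncomputable def Cub.ev (h : Cub) (y : Pt) : ℂ :=
  h.d111 * (y.y1 * y.y1 * y.y1) + h.d112 * (y.y1 * y.y1 * y.y2) + h.d113 * (y.y1 * y.y1 * y.y3) + h.d114 * (y.y1 * y.y1 * y.y4)
    + h.d122 * (y.y1 * y.y2 * y.y2) + h.d123 * (y.y1 * y.y2 * y.y3) + h.d124 * (y.y1 * y.y2 * y.y4)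
    + h.d133 * (y.y1 * y.y3 * y.y3) + h.d134 * (y.y1 * y.y3 * y.y4)
    + h.d144 * (y.y1 * y.y4 * y.y4)
    + h.d222 * (y.y2 * y.y2 * y.y2) + h.d223 * (y.y2 * y.y2 * y.y3) + h.d224 * (y.y2 * y.y2 * y.y4)
    + h.d233 * (y.y2 * y.y3 * y.y3) + h.d234 * (y.y2 * y.y3 * y.y4)
    + h.d244 * (y.y2 * y.y4 * y.y4)
    + h.d333 * (y.y3 * y.y3 * y.y3) + h.d334 * (y.y3 * y.y3 * y.y4)
    + h.d344 * (y.y3 * y.y4 * y.y4)
    + h.d444 * (y.y4 * y.y4 * y.y4)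

structure Lin.Mem (g : Lin) (M : TM) : Prop where
  c : CB.Mem g.c M.c
  l1 : CB.Mem g.l1 M.l1
  l2 : CB.Mem g.l2 M.l2
  l3 : CB.Mem g.l3 M.l3
  l4 : CB.Mem g.l4 M.l4

structure Quad.Mem (h : Quad) (M : TM) : Prop where
  q11 : CB.Mem h.q11 M.q11
  q12 : CB.Mem h.q12 M.q12
  q13 : CB.Mem h.q13 M.q13
  q14 : CB.Mem h.q14 M.q14
  q22 : CB.Mem h.q22 M.q22
  q23 : CB.Mem h.q23 M.q23
  q24 : CB.Mem h.q24 M.q24
  q33 : CB.Mem h.q33 M.q33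
  q34 : CB.Mem h.q34 M.q34
  q44 : CB.Mem h.q44 M.q44

structure Cub.Mem (h : Cub) (M : TM) : Prop where
  d111 : CB.Mem h.d111 M.d111
  d112 : CB.Mem h.d112 M.d112
  d113 : CB.Mem h.d113 M.d113
  d114 : CB.Mem h.d114 M.d114
  d122 : CB.Mem h.d122 M.d122
  d123 : CB.Mem h.d123 M.d123
  d124 : CB.Mem h.d124 M.d124
  d133 : CB.Mem h.d133 M.d133
  d134 : CB.Mem h.d134 M.d134
  d144 : CB.Mem h.d144 M.d144
  d222 : CB.Mem h.d222 M.d222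
  d223 : CB.Mem h.d223 M.d223
  d224 : CB.Mem h.d224 M.d224
  d233 : CB.Mem h.d233 M.d233
  d234 : CB.Mem h.d234 M.d234
  d244 : CB.Mem h.d244 M.d244
  d333 : CB.Mem h.d333 M.d333
  d334 : CB.Mem h.d334 M.d334
  d344 : CB.Mem h.d344 M.d344
  d444 : CB.Mem h.d444 M.d444

/-- `M` encloses `f` on the box `Y` -/
def TM.Has (Y : Bx) (M : TM) (f : Pt → ℂ) : Prop :=
  ∃ g : Lin, g.Mem M ∧ ∃ h : Quad, h.Mem M ∧
    ∀ y : Pt, y.In Y → ∃ d : Cub, d.Mem M ∧ f y = g.c + g.ev y + h.ev y + d.ev y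

namespace TM

def add (A B : TM) : TM :=
  ⟨CB.add A.c B.c, CB.add A.l1 B.l1, CB.add A.l2 B.l2, CB.add A.l3 B.l3, CB.add A.l4 B.l4,
   CB.add A.q11 B.q11, CB.add A.q12 B.q12, CB.add A.q13 B.q13, CB.add A.q14 B.q14, CB.add A.q22 B.q22,
   CB.add A.q23 B.q23, CB.add A.q24 B.q24, CB.add A.q33 B.q33, CB.add A.q34 B.q34, CB.add A.q44 B.q44,
   CB.add A.d111 B.d111, CB.add A.d112 B.d112, CB.add A.d113 B.d113, CB.add A.d114 B.d114, CB.add A.d122 B.d122,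
   CB.add A.d123 B.d123, CB.add A.d124 B.d124, CB.add A.d133 B.d133, CB.add A.d134 B.d134, CB.add A.d144 B.d144,
   CB.add A.d222 B.d222, CB.add A.d223 B.d223, CB.add A.d224 B.d224, CB.add A.d233 B.d233, CB.add A.d234 B.d234,
   CB.add A.d244 B.d244, CB.add A.d333 B.d333, CB.add A.d334 B.d334, CB.add A.d344 B.d344, CB.add A.d444 B.d444⟩

def neg (A : TM) : TM :=
  ⟨CB.neg A.c, CB.neg A.l1, CB.neg A.l2, CB.neg A.l3, CB.neg A.l4,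
   CB.neg A.q11, CB.neg A.q12, CB.neg A.q13, CB.neg A.q14, CB.neg A.q22,
   CB.neg A.q23, CB.neg A.q24, CB.neg A.q33, CB.neg A.q34, CB.neg A.q44,
   CB.neg A.d111, CB.neg A.d112, CB.neg A.d113, CB.neg A.d114, CB.neg A.d122,
   CB.neg A.d123, CB.neg A.d124, CB.neg A.d133, CB.neg A.d134, CB.neg A.d144,
   CB.neg A.d222, CB.neg A.d223, CB.neg A.d224, CB.neg A.d233, CB.neg A.d234,
   CB.neg A.d244, CB.neg A.d333, CB.neg A.d334, CB.neg A.d344, CB.neg A.d444⟩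

def conjT (A : TM) : TM :=
  ⟨CB.conj A.c, CB.conj A.l1, CB.conj A.l2, CB.conj A.l3, CB.conj A.l4,
   CB.conj A.q11, CB.conj A.q12, CB.conj A.q13, CB.conj A.q14, CB.conj A.q22,
   CB.conj A.q23, CB.conj A.q24, CB.conj A.q33, CB.conj A.q34, CB.conj A.q44,
   CB.conj A.d111, CB.conj A.d112, CB.conj A.d113, CB.conj A.d114, CB.conj A.d122,
   CB.conj A.d123, CB.conj A.d124, CB.conj A.d133, CB.conj A.d134, CB.conj A.d144,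
   CB.conj A.d222, CB.conj A.d223, CB.conj A.d224, CB.conj A.d233, CB.conj A.d234,
   CB.conj A.d244, CB.conj A.d333, CB.conj A.d334, CB.conj A.d344, CB.conj A.d444⟩

/-- multiplication by an integer `n ≥ 0` -/
def nsm (n : Int) (A : TM) : TM :=
  ⟨CB.nsm n A.c, CB.nsm n A.l1, CB.nsm n A.l2, CB.nsm n A.l3, CB.nsm n A.l4,
   CB.nsm n A.q11, CB.nsm n A.q12, CB.nsm n A.q13, CB.nsm n A.q14, CB.nsm n A.q22,
   CB.nsm n A.q23, CB.nsm n A.q24, CB.nsm n A.q33, CB.nsm n A.q34, CB.nsm n A.q44,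
   CB.nsm n A.d111, CB.nsm n A.d112, CB.nsm n A.d113, CB.nsm n A.d114, CB.nsm n A.d122,
   CB.nsm n A.d123, CB.nsm n A.d124, CB.nsm n A.d133, CB.nsm n A.d134, CB.nsm n A.d144,
   CB.nsm n A.d222, CB.nsm n A.d223, CB.nsm n A.d224, CB.nsm n A.d233, CB.nsm n A.d234,
   CB.nsm n A.d244, CB.nsm n A.d333, CB.nsm n A.d334, CB.nsm n A.d344, CB.nsm n A.d444⟩

/-- multiplication by a constant -/
def cmul (k : CB) (A : TM) : TM :=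
  ⟨CB.mul k A.c, CB.mul k A.l1, CB.mul k A.l2, CB.mul k A.l3, CB.mul k A.l4,
   CB.mul k A.q11, CB.mul k A.q12, CB.mul k A.q13, CB.mul k A.q14, CB.mul k A.q22,
   CB.mul k A.q23, CB.mul k A.q24, CB.mul k A.q33, CB.mul k A.q34, CB.mul k A.q44,
   CB.mul k A.d111, CB.mul k A.d112, CB.mul k A.d113, CB.mul k A.d114, CB.mul k A.d122,
   CB.mul k A.d123, CB.mul k A.d124, CB.mul k A.d133, CB.mul k A.d134, CB.mul k A.d144,
   CB.mul k A.d222, CB.mul k A.d223, CB.mul k A.d224, CB.mul k A.d233, CB.mul k A.d234,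
   CB.mul k A.d244, CB.mul k A.d333, CB.mul k A.d334, CB.mul k A.d344, CB.mul k A.d444⟩

/-- affine function -/
def affine (c l1 l2 l3 l4 : CB) : TM :=
  ⟨c, l1, l2, l3, l4,
   zeroCB, zeroCB, zeroCB, zeroCB, zeroCB,
   zeroCB, zeroCB, zeroCB, zeroCB, zeroCB,
   zeroCB, zeroCB, zeroCB, zeroCB, zeroCB,
   zeroCB, zeroCB, zeroCB, zeroCB, zeroCB,
   zeroCB, zeroCB, zeroCB, zeroCB, zeroCB,
   zeroCB, zeroCB, zeroCB, zeroCB, zeroCB⟩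

/-- replace the constant by the exact value `0` -/
def sub0 (A : TM) : TM :=
  ⟨zeroCB, A.l1, A.l2, A.l3, A.l4,
   A.q11, A.q12, A.q13, A.q14, A.q22,
   A.q23, A.q24, A.q33, A.q34, A.q44,
   A.d111, A.d112, A.d113, A.d114, A.d122,
   A.d123, A.d124, A.d133, A.d134, A.d144,
   A.d222, A.d223, A.d224, A.d233, A.d234,
   A.d244, A.d333, A.d334, A.d344, A.d444⟩

/-- range of the linear part -/
def rngL (Y : Bx) (A : TM) : CB :=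
  CB.add (CB.add (CB.mul A.l1 Y.y1) (CB.mul A.l2 Y.y2)) (CB.add (CB.mul A.l3 Y.y3) (CB.mul A.l4 Y.y4))

/-- range of the quadratic part -/
def rngQ (Y : Bx) (A : TM) : CB :=
  (CB.add (CB.add (CB.add (CB.mul A.q11 (CB.mul Y.y1 Y.y1))
    (CB.mul A.q12 (CB.mul Y.y1 Y.y2)))
    (CB.add (CB.mul A.q13 (CB.mul Y.y1 Y.y3))
    (CB.add (CB.mul A.q14 (CB.mul Y.y1 Y.y4))
    (CB.mul A.q22 (CB.mul Y.y2 Y.y2)))))
    (CB.add (CB.add (CB.mul A.q23 (CB.mul Y.y2 Y.y3))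
    (CB.mul A.q24 (CB.mul Y.y2 Y.y4)))
    (CB.add (CB.mul A.q33 (CB.mul Y.y3 Y.y3))
    (CB.add (CB.mul A.q34 (CB.mul Y.y3 Y.y4))
    (CB.mul A.q44 (CB.mul Y.y4 Y.y4))))))

/-- range of the cubic part -/
def rngC (Y : Bx) (A : TM) : CB :=
  (CB.add (CB.add (CB.add (CB.add (CB.mul A.d111 (CB.mul (CB.mul Y.y1 Y.y1) Y.y1))
    (CB.mul A.d112 (CB.mul (CB.mul Y.y1 Y.y1) Y.y2)))
    (CB.add (CB.mul A.d113 (CB.mul (CB.mul Y.y1 Y.y1) Y.y3))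
    (CB.add (CB.mul A.d114 (CB.mul (CB.mul Y.y1 Y.y1) Y.y4))
    (CB.mul A.d122 (CB.mul (CB.mul Y.y1 Y.y2) Y.y2)))))
    (CB.add (CB.add (CB.mul A.d123 (CB.mul (CB.mul Y.y1 Y.y2) Y.y3))
    (CB.mul A.d124 (CB.mul (CB.mul Y.y1 Y.y2) Y.y4)))
    (CB.add (CB.mul A.d133 (CB.mul (CB.mul Y.y1 Y.y3) Y.y3))
    (CB.add (CB.mul A.d134 (CB.mul (CB.mul Y.y1 Y.y3) Y.y4))
    (CB.mul A.d144 (CB.mul (CB.mul Y.y1 Y.y4) Y.y4))))))
    (CB.add (CB.add (CB.add (CB.mul A.d222 (CB.mul (CB.mul Y.y2 Y.y2) Y.y2))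
    (CB.mul A.d223 (CB.mul (CB.mul Y.y2 Y.y2) Y.y3)))
    (CB.add (CB.mul A.d224 (CB.mul (CB.mul Y.y2 Y.y2) Y.y4))
    (CB.add (CB.mul A.d233 (CB.mul (CB.mul Y.y2 Y.y3) Y.y3))
    (CB.mul A.d234 (CB.mul (CB.mul Y.y2 Y.y3) Y.y4)))))
    (CB.add (CB.add (CB.mul A.d244 (CB.mul (CB.mul Y.y2 Y.y4) Y.y4))
    (CB.mul A.d333 (CB.mul (CB.mul Y.y3 Y.y3) Y.y3)))
    (CB.add (CB.mul A.d334 (CB.mul (CB.mul Y.y3 Y.y3) Y.y4))
    (CB.add (CB.mul A.d344 (CB.mul (CB.mul Y.y3 Y.y4) Y.y4))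
    (CB.mul A.d444 (CB.mul (CB.mul Y.y4 Y.y4) Y.y4)))))))

/-- range of the second order part -/
def rng2 (Y : Bx) (A : TM) : CB := CB.add (CB.add A.c (rngL Y A)) (rngQ Y A)

/-- range of the function -/
def rng (Y : Bx) (A : TM) : CB := CB.add (rng2 Y A) (rngC Y A)

/-- `l_k + ∑_{j ≥ k} q_kj y_j` -/
def m1 (Y : Bx) (A : TM) : CB := CB.add A.l1 (CB.add (CB.add (CB.mul A.q11 Y.y1) (CB.mul A.q12 Y.y2)) (CB.add (CB.mul A.q13 Y.y3) (CB.mul A.q14 Y.y4)))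
def m2 (Y : Bx) (A : TM) : CB := CB.add A.l2 (CB.add (CB.mul A.q22 Y.y2) (CB.add (CB.mul A.q23 Y.y3) (CB.mul A.q24 Y.y4)))
def m3 (Y : Bx) (A : TM) : CB := CB.add A.l3 (CB.add (CB.mul A.q33 Y.y3) (CB.mul A.q34 Y.y4))
def m4 (Y : Bx) (A : TM) : CB := CB.add A.l4 (CB.mul A.q44 Y.y4)

/-- quadratic coefficients of a product -/
def mdiag (ac bc aq bq ai bi : CB) : CB :=
  CB.add (CB.add (CB.mul ac bq) (CB.mul bc aq)) (CB.mul ai bi)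

def moff (ac bc aq bq ai bi aj bj : CB) : CB :=
  CB.add (CB.add (CB.mul ac bq) (CB.mul bc aq)) (CB.add (CB.mul ai bj) (CB.mul aj bi))

/-- cubic coefficients of a product: `iii`, `iij`, `ijk` -/
def c1f (ra rb ad bd al aq bq m : CB) : CB :=
  CB.add (CB.add (CB.mul ra bd) (CB.mul rb ad)) (CB.add (CB.mul al bq) (CB.mul aq m))

def c2f (ra rb ad bd al aq bq m al' aq' bq' m' : CB) : CB :=
  CB.add (c1f ra rb ad bd al aq bq m) (CB.add (CB.mul al' bq') (CB.mul aq' m'))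

def c3f (ra rb ad bd al aq bq m al' aq' bq' m' al'' aq'' bq'' m'' : CB) : CB :=
  CB.add (c2f ra rb ad bd al aq bq m al' aq' bq' m') (CB.add (CB.mul al'' bq'') (CB.mul aq'' m''))

/-- product, given the range `ra` of `A`, the range `rb` of the second order part of `B`, and `m_k` of `B` -/
def mulN (ra rb m1 m2 m3 m4 : CB) (A B : TM) : TM :=
  ⟨CB.mul A.c B.c,
   CB.add (CB.mul A.c B.l1) (CB.mul B.c A.l1),
   CB.add (CB.mul A.c B.l2) (CB.mul B.c A.l2),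
   CB.add (CB.mul A.c B.l3) (CB.mul B.c A.l3),
   CB.add (CB.mul A.c B.l4) (CB.mul B.c A.l4),
   mdiag A.c B.c A.q11 B.q11 A.l1 B.l1,
   moff A.c B.c A.q12 B.q12 A.l1 B.l1 A.l2 B.l2,
   moff A.c B.c A.q13 B.q13 A.l1 B.l1 A.l3 B.l3,
   moff A.c B.c A.q14 B.q14 A.l1 B.l1 A.l4 B.l4,
   mdiag A.c B.c A.q22 B.q22 A.l2 B.l2,
   moff A.c B.c A.q23 B.q23 A.l2 B.l2 A.l3 B.l3,
   moff A.c B.c A.q24 B.q24 A.l2 B.l2 A.l4 B.l4,
   mdiag A.c B.c A.q33 B.q33 A.l3 B.l3,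
   moff A.c B.c A.q34 B.q34 A.l3 B.l3 A.l4 B.l4,
   mdiag A.c B.c A.q44 B.q44 A.l4 B.l4,
   c1f ra rb A.d111 B.d111 A.l1 A.q11 B.q11 m1,
   c2f ra rb A.d112 B.d112 A.l1 A.q12 B.q12 m1 A.l2 A.q11 B.q11 m2,
   c2f ra rb A.d113 B.d113 A.l1 A.q13 B.q13 m1 A.l3 A.q11 B.q11 m3,
   c2f ra rb A.d114 B.d114 A.l1 A.q14 B.q14 m1 A.l4 A.q11 B.q11 m4,
   c2f ra rb A.d122 B.d122 A.l1 A.q22 B.q22 m1 A.l2 A.q12 B.q12 m2,
   c3f ra rb A.d123 B.d123 A.l1 A.q23 B.q23 m1 A.l2 A.q13 B.q13 m2 A.l3 A.q12 B.q12 m3,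
   c3f ra rb A.d124 B.d124 A.l1 A.q24 B.q24 m1 A.l2 A.q14 B.q14 m2 A.l4 A.q12 B.q12 m4,
   c2f ra rb A.d133 B.d133 A.l1 A.q33 B.q33 m1 A.l3 A.q13 B.q13 m3,
   c3f ra rb A.d134 B.d134 A.l1 A.q34 B.q34 m1 A.l3 A.q14 B.q14 m3 A.l4 A.q13 B.q13 m4,
   c2f ra rb A.d144 B.d144 A.l1 A.q44 B.q44 m1 A.l4 A.q14 B.q14 m4,
   c1f ra rb A.d222 B.d222 A.l2 A.q22 B.q22 m2,
   c2f ra rb A.d223 B.d223 A.l2 A.q23 B.q23 m2 A.l3 A.q22 B.q22 m3,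
   c2f ra rb A.d224 B.d224 A.l2 A.q24 B.q24 m2 A.l4 A.q22 B.q22 m4,
   c2f ra rb A.d233 B.d233 A.l2 A.q33 B.q33 m2 A.l3 A.q23 B.q23 m3,
   c3f ra rb A.d234 B.d234 A.l2 A.q34 B.q34 m2 A.l3 A.q24 B.q24 m3 A.l4 A.q23 B.q23 m4,
   c2f ra rb A.d244 B.d244 A.l2 A.q44 B.q44 m2 A.l4 A.q24 B.q24 m4,
   c1f ra rb A.d333 B.d333 A.l3 A.q33 B.q33 m3,
   c2f ra rb A.d334 B.d334 A.l3 A.q34 B.q34 m3 A.l4 A.q33 B.q33 m4,
   c2f ra rb A.d344 B.d344 A.l3 A.q44 B.q44 m3 A.l4 A.q34 B.q34 m4,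
   c1f ra rb A.d444 B.d444 A.l4 A.q44 B.q44 m4⟩

/-- product -/
def mul (Y : Bx) (A B : TM) : TM := mulN (rng Y A) (rng2 Y B) (m1 Y B) (m2 Y B) (m3 Y B) (m4 Y B) A B

/-- the imaginary unit -/
def cI : CB := ⟨0, 1099511627776, 0⟩

/-- range of `τ` in `exp (i τ)` -/
def expT (Y : Bx) (b1 b2 b3 b4 : CB) : CB :=
  CB.add (CB.add (CB.mul b1 Y.y1) (CB.mul b2 Y.y2)) (CB.add (CB.mul b3 Y.y3) (CB.mul b4 Y.y4))

/-- crude bound of the norm -/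
def n1 (a : CB) : Int := Int.add (Int.add (absI a.re) (absI a.im)) a.rad

/-- the ball `-i/6` with radius `T/19` (`5/96 < 1/19`) -/
def expk (T : Int) : CB := ⟨0, -183251937963, Int.add (Int.ediv T 19) 2⟩

/-- the ball `-1/2` -/
def mh : CB := ⟨-549755813888, 0, 0⟩

/-- `exp (i τ)`, `τ = ∑ t_i y_i` with real `t_i ∈ b_i` -/
def expK (k b1 b2 b3 b4 : CB) : TM :=
  ⟨⟨1099511627776, 0, 0⟩, CB.mul cI b1, CB.mul cI b2, CB.mul cI b3, CB.mul cI b4,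
   CB.mul mh (CB.mul b1 b1),
   CB.nsm 2 (CB.mul mh (CB.mul b1 b2)),
   CB.nsm 2 (CB.mul mh (CB.mul b1 b3)),
   CB.nsm 2 (CB.mul mh (CB.mul b1 b4)),
   CB.mul mh (CB.mul b2 b2),
   CB.nsm 2 (CB.mul mh (CB.mul b2 b3)),
   CB.nsm 2 (CB.mul mh (CB.mul b2 b4)),
   CB.mul mh (CB.mul b3 b3),
   CB.nsm 2 (CB.mul mh (CB.mul b3 b4)),
   CB.mul mh (CB.mul b4 b4),
   CB.nsm 1 (CB.mul k (CB.mul (CB.mul b1 b1) b1)),
   CB.nsm 3 (CB.mul k (CB.mul (CB.mul b1 b1) b2)),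
   CB.nsm 3 (CB.mul k (CB.mul (CB.mul b1 b1) b3)),
   CB.nsm 3 (CB.mul k (CB.mul (CB.mul b1 b1) b4)),
   CB.nsm 3 (CB.mul k (CB.mul (CB.mul b1 b2) b2)),
   CB.nsm 6 (CB.mul k (CB.mul (CB.mul b1 b2) b3)),
   CB.nsm 6 (CB.mul k (CB.mul (CB.mul b1 b2) b4)),
   CB.nsm 3 (CB.mul k (CB.mul (CB.mul b1 b3) b3)),
   CB.nsm 6 (CB.mul k (CB.mul (CB.mul b1 b3) b4)),
   CB.nsm 3 (CB.mul k (CB.mul (CB.mul b1 b4) b4)),
   CB.nsm 1 (CB.mul k (CB.mul (CB.mul b2 b2) b2)),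
   CB.nsm 3 (CB.mul k (CB.mul (CB.mul b2 b2) b3)),
   CB.nsm 3 (CB.mul k (CB.mul (CB.mul b2 b2) b4)),
   CB.nsm 3 (CB.mul k (CB.mul (CB.mul b2 b3) b3)),
   CB.nsm 6 (CB.mul k (CB.mul (CB.mul b2 b3) b4)),
   CB.nsm 3 (CB.mul k (CB.mul (CB.mul b2 b4) b4)),
   CB.nsm 1 (CB.mul k (CB.mul (CB.mul b3 b3) b3)),
   CB.nsm 3 (CB.mul k (CB.mul (CB.mul b3 b3) b4)),
   CB.nsm 3 (CB.mul k (CB.mul (CB.mul b3 b4) b4)),
   CB.nsm 1 (CB.mul k (CB.mul (CB.mul b4 b4) b4))⟩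

def expi (Y : Bx) (b1 b2 b3 b4 : CB) : TM := expK (expk (n1 (expT Y b1 b2 b3 b4))) b1 b2 b3 b4

end TM

/-! ### soundness -/

theorem CB.mem_int (a b : Int) : CB.Mem (⟨rv a, rv b⟩ : ℂ) ⟨a, b, 0⟩ := by
  unfold CB.Mem
  have h0 : rv 0 = 0 := by simp [rv]
  have h1 : (CB.mid ⟨a, b, 0⟩ : ℂ) = ⟨rv a, rv b⟩ := rfl
  rw [h1, sub_self, norm_zero]
  exact h0.ge

theorem CB.mem_one : CB.Mem 1 ⟨1099511627776, 0, 0⟩ := by
  have h := CB.mem_int 1099511627776 0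
  have e : (⟨rv 1099511627776, rv 0⟩ : ℂ) = 1 := by
    apply Complex.ext
    · simp only [rv, Complex.one_re]; norm_num
    · simp only [rv, Complex.one_im]; norm_num
  rwa [e] at h

theorem CB.mem_I : CB.Mem Complex.I TM.cI := by
  have h := CB.mem_int 0 1099511627776
  have e : (⟨rv 0, rv 1099511627776⟩ : ℂ) = Complex.I := by
    apply Complex.ext
    · simp only [rv, Complex.I_re]; norm_num
    · simp only [rv, Complex.I_im]; norm_num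
  rwa [e] at h

theorem CB.mem_mh : CB.Mem (-1 / 2) TM.mh := by
  have h := CB.mem_int (-549755813888) 0
  have e : (⟨rv (-549755813888), rv 0⟩ : ℂ) = -1 / 2 := by
    apply Complex.ext
    · simp only [rv]; norm_num
    · simp only [rv]; norm_num
  rwa [e] at h

theorem CB.mem_zero : CB.Mem 0 zeroCB := by
  have h := CB.mem_int 0 0
  have e : (⟨rv 0, rv 0⟩ : ℂ) = 0 := by
    apply Complex.ext <;> simp [rv]
  rwa [e] at h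

namespace TM.Has

variable {Y : Bx} {A B : TM} {f g : Pt → ℂ}

theorem congr (h : A.Has Y f) (hfg : ∀ y, y.In Y → g y = f y) : A.Has Y g := by
  obtain ⟨ga, hga, h, hh, ha⟩ := h
  refine ⟨ga, hga, h, hh, fun y hy => ?_⟩
  rw [hfg y hy]
  exact ha y hy

theorem neg (hA : A.Has Y f) : TM.Has Y (A.neg) (fun y => -f y) := by
  obtain ⟨ga, hga, pa, hpa, ha⟩ := hA
  refine ⟨⟨-ga.c, -ga.l1, -ga.l2, -ga.l3, -ga.l4⟩,
    ⟨hga.c.neg, hga.l1.neg, hga.l2.neg, hga.l3.neg, hga.l4.neg⟩,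
    ⟨-pa.q11, -pa.q12, -pa.q13, -pa.q14, -pa.q22, -pa.q23,
   -pa.q24, -pa.q33, -pa.q34, -pa.q44⟩,
    ⟨hpa.q11.neg, hpa.q12.neg, hpa.q13.neg, hpa.q14.neg, hpa.q22.neg, hpa.q23.neg,
   hpa.q24.neg, hpa.q33.neg, hpa.q34.neg, hpa.q44.neg⟩, fun y hy => ?_⟩
  obtain ⟨dd, hd, e⟩ := ha y hy
  refine ⟨⟨-dd.d111, -dd.d112, -dd.d113, -dd.d114, -dd.d122, -dd.d123,
   -dd.d124, -dd.d133, -dd.d134, -dd.d144, -dd.d222, -dd.d223,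
   -dd.d224, -dd.d233, -dd.d234, -dd.d244, -dd.d333, -dd.d334,
   -dd.d344, -dd.d444⟩,
    ⟨hd.d111.neg, hd.d112.neg, hd.d113.neg, hd.d114.neg, hd.d122.neg, hd.d123.neg,
   hd.d124.neg, hd.d133.neg, hd.d134.neg, hd.d144.neg, hd.d222.neg, hd.d223.neg,
   hd.d224.neg, hd.d233.neg, hd.d234.neg, hd.d244.neg, hd.d333.neg, hd.d334.neg,
   hd.d344.neg, hd.d444.neg⟩, ?_⟩
  simp only [e, Lin.ev, Quad.ev, Cub.ev]
  ring

theorem nsm (hA : A.Has Y f) {n : Int} (hn : 0 ≤ n) : TM.Has Y (A.nsm n) (fun y => (n : ℂ) * f y) := by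
  obtain ⟨ga, hga, pa, hpa, ha⟩ := hA
  refine ⟨⟨(n : ℂ) * ga.c, (n : ℂ) * ga.l1, (n : ℂ) * ga.l2, (n : ℂ) * ga.l3, (n : ℂ) * ga.l4⟩,
    ⟨hga.c.nsm hn, hga.l1.nsm hn, hga.l2.nsm hn, hga.l3.nsm hn, hga.l4.nsm hn⟩,
    ⟨(n : ℂ) * pa.q11, (n : ℂ) * pa.q12, (n : ℂ) * pa.q13, (n : ℂ) * pa.q14, (n : ℂ) * pa.q22, (n : ℂ) * pa.q23,
   (n : ℂ) * pa.q24, (n : ℂ) * pa.q33, (n : ℂ) * pa.q34, (n : ℂ) * pa.q44⟩,
    ⟨hpa.q11.nsm hn, hpa.q12.nsm hn, hpa.q13.nsm hn, hpa.q14.nsm hn, hpa.q22.nsm hn, hpa.q23.nsm hn,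
   hpa.q24.nsm hn, hpa.q33.nsm hn, hpa.q34.nsm hn, hpa.q44.nsm hn⟩, fun y hy => ?_⟩
  obtain ⟨dd, hd, e⟩ := ha y hy
  refine ⟨⟨(n : ℂ) * dd.d111, (n : ℂ) * dd.d112, (n : ℂ) * dd.d113, (n : ℂ) * dd.d114, (n : ℂ) * dd.d122, (n : ℂ) * dd.d123,
   (n : ℂ) * dd.d124, (n : ℂ) * dd.d133, (n : ℂ) * dd.d134, (n : ℂ) * dd.d144, (n : ℂ) * dd.d222, (n : ℂ) * dd.d223,
   (n : ℂ) * dd.d224, (n : ℂ) * dd.d233, (n : ℂ) * dd.d234, (n : ℂ) * dd.d244, (n : ℂ) * dd.d333, (n : ℂ) * dd.d334,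
   (n : ℂ) * dd.d344, (n : ℂ) * dd.d444⟩,
    ⟨hd.d111.nsm hn, hd.d112.nsm hn, hd.d113.nsm hn, hd.d114.nsm hn, hd.d122.nsm hn, hd.d123.nsm hn,
   hd.d124.nsm hn, hd.d133.nsm hn, hd.d134.nsm hn, hd.d144.nsm hn, hd.d222.nsm hn, hd.d223.nsm hn,
   hd.d224.nsm hn, hd.d233.nsm hn, hd.d234.nsm hn, hd.d244.nsm hn, hd.d333.nsm hn, hd.d334.nsm hn,
   hd.d344.nsm hn, hd.d444.nsm hn⟩, ?_⟩
  simp only [e, Lin.ev, Quad.ev, Cub.ev]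
  ring

theorem cmul (hA : A.Has Y f) {k : CB} {z : ℂ} (hk : CB.Mem z k) : TM.Has Y (A.cmul k) (fun y => z * f y) := by
  obtain ⟨ga, hga, pa, hpa, ha⟩ := hA
  refine ⟨⟨z * ga.c, z * ga.l1, z * ga.l2, z * ga.l3, z * ga.l4⟩,
    ⟨hk.mul hga.c, hk.mul hga.l1, hk.mul hga.l2, hk.mul hga.l3, hk.mul hga.l4⟩,
    ⟨z * pa.q11, z * pa.q12, z * pa.q13, z * pa.q14, z * pa.q22, z * pa.q23,
   z * pa.q24, z * pa.q33, z * pa.q34, z * pa.q44⟩,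
    ⟨hk.mul hpa.q11, hk.mul hpa.q12, hk.mul hpa.q13, hk.mul hpa.q14, hk.mul hpa.q22, hk.mul hpa.q23,
   hk.mul hpa.q24, hk.mul hpa.q33, hk.mul hpa.q34, hk.mul hpa.q44⟩, fun y hy => ?_⟩
  obtain ⟨dd, hd, e⟩ := ha y hy
  refine ⟨⟨z * dd.d111, z * dd.d112, z * dd.d113, z * dd.d114, z * dd.d122, z * dd.d123,
   z * dd.d124, z * dd.d133, z * dd.d134, z * dd.d144, z * dd.d222, z * dd.d223,
   z * dd.d224, z * dd.d233, z * dd.d234, z * dd.d244, z * dd.d333, z * dd.d334,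
   z * dd.d344, z * dd.d444⟩,
    ⟨hk.mul hd.d111, hk.mul hd.d112, hk.mul hd.d113, hk.mul hd.d114, hk.mul hd.d122, hk.mul hd.d123,
   hk.mul hd.d124, hk.mul hd.d133, hk.mul hd.d134, hk.mul hd.d144, hk.mul hd.d222, hk.mul hd.d223,
   hk.mul hd.d224, hk.mul hd.d233, hk.mul hd.d234, hk.mul hd.d244, hk.mul hd.d333, hk.mul hd.d334,
   hk.mul hd.d344, hk.mul hd.d444⟩, ?_⟩
  simp only [e, Lin.ev, Quad.ev, Cub.ev]
  ring

theorem conjT (hA : A.Has Y f) : TM.Has Y (A.conjT) (fun y => conj (f y)) := by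
  obtain ⟨ga, hga, pa, hpa, ha⟩ := hA
  refine ⟨⟨conj ga.c, conj ga.l1, conj ga.l2, conj ga.l3, conj ga.l4⟩,
    ⟨hga.c.conjB, hga.l1.conjB, hga.l2.conjB, hga.l3.conjB, hga.l4.conjB⟩,
    ⟨conj pa.q11, conj pa.q12, conj pa.q13, conj pa.q14, conj pa.q22, conj pa.q23,
   conj pa.q24, conj pa.q33, conj pa.q34, conj pa.q44⟩,
    ⟨hpa.q11.conjB, hpa.q12.conjB, hpa.q13.conjB, hpa.q14.conjB, hpa.q22.conjB, hpa.q23.conjB,
   hpa.q24.conjB, hpa.q33.conjB, hpa.q34.conjB, hpa.q44.conjB⟩, fun y hy => ?_⟩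
  obtain ⟨dd, hd, e⟩ := ha y hy
  refine ⟨⟨conj dd.d111, conj dd.d112, conj dd.d113, conj dd.d114, conj dd.d122, conj dd.d123,
   conj dd.d124, conj dd.d133, conj dd.d134, conj dd.d144, conj dd.d222, conj dd.d223,
   conj dd.d224, conj dd.d233, conj dd.d234, conj dd.d244, conj dd.d333, conj dd.d334,
   conj dd.d344, conj dd.d444⟩,
    ⟨hd.d111.conjB, hd.d112.conjB, hd.d113.conjB, hd.d114.conjB, hd.d122.conjB, hd.d123.conjB,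
   hd.d124.conjB, hd.d133.conjB, hd.d134.conjB, hd.d144.conjB, hd.d222.conjB, hd.d223.conjB,
   hd.d224.conjB, hd.d233.conjB, hd.d234.conjB, hd.d244.conjB, hd.d333.conjB, hd.d334.conjB,
   hd.d344.conjB, hd.d444.conjB⟩, ?_⟩
  simp only [e, Lin.ev, Quad.ev, Cub.ev, map_add, map_mul, Complex.conj_ofReal]

theorem add (hA : A.Has Y f) (hB : B.Has Y g) : TM.Has Y (A.add B) (fun y => f y + g y) := by
  obtain ⟨ga, hga, pa, hpa, ha⟩ := hA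
  obtain ⟨gb, hgb, pb, hpb, hb⟩ := hB
  refine ⟨⟨ga.c + gb.c, ga.l1 + gb.l1, ga.l2 + gb.l2, ga.l3 + gb.l3, ga.l4 + gb.l4⟩,
    ⟨hga.c.add hgb.c, hga.l1.add hgb.l1, hga.l2.add hgb.l2, hga.l3.add hgb.l3, hga.l4.add hgb.l4⟩,
    ⟨pa.q11 + pb.q11, pa.q12 + pb.q12, pa.q13 + pb.q13, pa.q14 + pb.q14, pa.q22 + pb.q22, pa.q23 + pb.q23,
   pa.q24 + pb.q24, pa.q33 + pb.q33, pa.q34 + pb.q34, pa.q44 + pb.q44⟩,
    ⟨hpa.q11.add hpb.q11, hpa.q12.add hpb.q12, hpa.q13.add hpb.q13, hpa.q14.add hpb.q14, hpa.q22.add hpb.q22, hpa.q23.add hpb.q23,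
   hpa.q24.add hpb.q24, hpa.q33.add hpb.q33, hpa.q34.add hpb.q34, hpa.q44.add hpb.q44⟩, fun y hy => ?_⟩
  obtain ⟨da, hda, e⟩ := ha y hy
  obtain ⟨db, hdb, e'⟩ := hb y hy
  refine ⟨⟨da.d111 + db.d111, da.d112 + db.d112, da.d113 + db.d113, da.d114 + db.d114, da.d122 + db.d122, da.d123 + db.d123,
   da.d124 + db.d124, da.d133 + db.d133, da.d134 + db.d134, da.d144 + db.d144, da.d222 + db.d222, da.d223 + db.d223,
   da.d224 + db.d224, da.d233 + db.d233, da.d234 + db.d234, da.d244 + db.d244, da.d333 + db.d333, da.d334 + db.d334,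
   da.d344 + db.d344, da.d444 + db.d444⟩,
    ⟨hda.d111.add hdb.d111, hda.d112.add hdb.d112, hda.d113.add hdb.d113, hda.d114.add hdb.d114, hda.d122.add hdb.d122, hda.d123.add hdb.d123,
   hda.d124.add hdb.d124, hda.d133.add hdb.d133, hda.d134.add hdb.d134, hda.d144.add hdb.d144, hda.d222.add hdb.d222, hda.d223.add hdb.d223,
   hda.d224.add hdb.d224, hda.d233.add hdb.d233, hda.d234.add hdb.d234, hda.d244.add hdb.d244, hda.d333.add hdb.d333, hda.d334.add hdb.d334,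
   hda.d344.add hdb.d344, hda.d444.add hdb.d444⟩, ?_⟩
  simp only [e, e', Lin.ev, Quad.ev, Cub.ev]
  ring

/-- the origin belongs to the box -/
theorem sub0 (hA : A.Has Y f) (h0 : Pt.In Y ⟨0, 0, 0, 0⟩) : TM.Has Y A.sub0 (fun y => f y - f ⟨0, 0, 0, 0⟩) := by
  obtain ⟨ga, hga, pa, hpa, ha⟩ := hA
  have h0 : f ⟨0, 0, 0, 0⟩ = ga.c := by
    obtain ⟨p, _, e⟩ := ha ⟨0, 0, 0, 0⟩ h0
    rw [e]
    simp [Lin.ev, Quad.ev, Cub.ev]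
  refine ⟨⟨0, ga.l1, ga.l2, ga.l3, ga.l4⟩, ⟨CB.mem_zero, hga.l1, hga.l2, hga.l3, hga.l4⟩, pa,
    ⟨hpa.q11, hpa.q12, hpa.q13, hpa.q14, hpa.q22, hpa.q23,
   hpa.q24, hpa.q33, hpa.q34, hpa.q44⟩, fun y hy => ?_⟩
  obtain ⟨p, hp, e⟩ := ha y hy
  refine ⟨p, ⟨hp.d111, hp.d112, hp.d113, hp.d114, hp.d122, hp.d123,
   hp.d124, hp.d133, hp.d134, hp.d144, hp.d222, hp.d223,
   hp.d224, hp.d233, hp.d234, hp.d244, hp.d333, hp.d334,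
   hp.d344, hp.d444⟩, ?_⟩
  simp only [h0, e, Lin.ev]
  ring

theorem affine {c l1 l2 l3 l4 : CB} {k m1 m2 m3 m4 : ℂ} (hc : CB.Mem k c) (h1 : CB.Mem m1 l1)
    (h2 : CB.Mem m2 l2) (h3 : CB.Mem m3 l3) (h4 : CB.Mem m4 l4) :
    TM.Has Y (TM.affine c l1 l2 l3 l4)
      (fun y => k + m1 * y.y1 + m2 * y.y2 + m3 * y.y3 + m4 * y.y4) := by
  have z := CB.mem_zero
  refine ⟨⟨k, m1, m2, m3, m4⟩, ⟨hc, h1, h2, h3, h4⟩, ⟨0, 0, 0, 0, 0, 0,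
   0, 0, 0, 0⟩,
    ⟨z, z, z, z, z, z,
   z, z, z, z⟩, fun y _ => ?_⟩
  refine ⟨⟨0, 0, 0, 0, 0, 0,
   0, 0, 0, 0, 0, 0,
   0, 0, 0, 0, 0, 0,
   0, 0⟩,
    ⟨z, z, z, z, z, z,
   z, z, z, z, z, z,
   z, z, z, z, z, z,
   z, z⟩, ?_⟩
  simp only [Lin.ev, Quad.ev, Cub.ev]
  ring

end TM.Has

theorem Lin.mem_rngL {Y : Bx} {A : TM} {g : Lin} (hg : g.Mem A) {y : Pt} (hy : y.In Y) :
    CB.Mem (g.ev y) (TM.rngL Y A) := by
  have h := ((hg.l1.mul hy.h1).add (hg.l2.mul hy.h2)).add ((hg.l3.mul hy.h3).add (hg.l4.mul hy.h4))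
  have e : g.ev y = g.l1 * y.y1 + g.l2 * y.y2 + (g.l3 * y.y3 + g.l4 * y.y4) := by
    unfold Lin.ev; ring
  rw [e]
  exact h

theorem Quad.mem_rngQ {Y : Bx} {A : TM} {h : Quad} (hh : h.Mem A) {y : Pt} (hy : y.In Y) :
    CB.Mem (h.ev y) (TM.rngQ Y A) := by

  have k11 := hh.q11.mul (hy.h1.mul hy.h1)
  have k12 := hh.q12.mul (hy.h1.mul hy.h2)
  have k13 := hh.q13.mul (hy.h1.mul hy.h3)
  have k14 := hh.q14.mul (hy.h1.mul hy.h4)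
  have k22 := hh.q22.mul (hy.h2.mul hy.h2)
  have k23 := hh.q23.mul (hy.h2.mul hy.h3)
  have k24 := hh.q24.mul (hy.h2.mul hy.h4)
  have k33 := hh.q33.mul (hy.h3.mul hy.h3)
  have k34 := hh.q34.mul (hy.h3.mul hy.h4)
  have k44 := hh.q44.mul (hy.h4.mul hy.h4)
  have k := (CB.Mem.add (CB.Mem.add (CB.Mem.add k11 k12) (CB.Mem.add k13 (CB.Mem.add k14 k22))) (CB.Mem.add (CB.Mem.add k23 k24) (CB.Mem.add k33 (CB.Mem.add k34 k44))))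
  have e : h.ev y = (((h.q11 * (y.y1 * y.y1)
      + h.q12 * (y.y1 * y.y2))
      + (h.q13 * (y.y1 * y.y3)
      + (h.q14 * (y.y1 * y.y4)
      + h.q22 * (y.y2 * y.y2))))
      + ((h.q23 * (y.y2 * y.y3)
      + h.q24 * (y.y2 * y.y4))
      + (h.q33 * (y.y3 * y.y3)
      + (h.q34 * (y.y3 * y.y4)
      + h.q44 * (y.y4 * y.y4))))) := by
    unfold Quad.ev
    ring
  rw [e]
  exact k

theorem Cub.mem_rngC {Y : Bx} {A : TM} {h : Cub} (hh : h.Mem A) {y : Pt} (hy : y.In Y) :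
    CB.Mem (h.ev y) (TM.rngC Y A) := by

  have k111 := hh.d111.mul ((hy.h1.mul hy.h1).mul hy.h1)
  have k112 := hh.d112.mul ((hy.h1.mul hy.h1).mul hy.h2)
  have k113 := hh.d113.mul ((hy.h1.mul hy.h1).mul hy.h3)
  have k114 := hh.d114.mul ((hy.h1.mul hy.h1).mul hy.h4)
  have k122 := hh.d122.mul ((hy.h1.mul hy.h2).mul hy.h2)
  have k123 := hh.d123.mul ((hy.h1.mul hy.h2).mul hy.h3)
  have k124 := hh.d124.mul ((hy.h1.mul hy.h2).mul hy.h4)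
  have k133 := hh.d133.mul ((hy.h1.mul hy.h3).mul hy.h3)
  have k134 := hh.d134.mul ((hy.h1.mul hy.h3).mul hy.h4)
  have k144 := hh.d144.mul ((hy.h1.mul hy.h4).mul hy.h4)
  have k222 := hh.d222.mul ((hy.h2.mul hy.h2).mul hy.h2)
  have k223 := hh.d223.mul ((hy.h2.mul hy.h2).mul hy.h3)
  have k224 := hh.d224.mul ((hy.h2.mul hy.h2).mul hy.h4)
  have k233 := hh.d233.mul ((hy.h2.mul hy.h3).mul hy.h3)
  have k234 := hh.d234.mul ((hy.h2.mul hy.h3).mul hy.h4)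
  have k244 := hh.d244.mul ((hy.h2.mul hy.h4).mul hy.h4)
  have k333 := hh.d333.mul ((hy.h3.mul hy.h3).mul hy.h3)
  have k334 := hh.d334.mul ((hy.h3.mul hy.h3).mul hy.h4)
  have k344 := hh.d344.mul ((hy.h3.mul hy.h4).mul hy.h4)
  have k444 := hh.d444.mul ((hy.h4.mul hy.h4).mul hy.h4)
  have k := (CB.Mem.add (CB.Mem.add (CB.Mem.add (CB.Mem.add k111 k112) (CB.Mem.add k113 (CB.Mem.add k114 k122))) (CB.Mem.add (CB.Mem.add k123 k124) (CB.Mem.add k133 (CB.Mem.add k134 k144)))) (CB.Mem.add (CB.Mem.add (CB.Mem.add k222 k223) (CB.Mem.add k224 (CB.Mem.add k233 k234))) (CB.Mem.add (CB.Mem.add k244 k333) (CB.Mem.add k334 (CB.Mem.add k344 k444)))))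
  have e : h.ev y = ((((h.d111 * (y.y1 * y.y1 * y.y1)
      + h.d112 * (y.y1 * y.y1 * y.y2))
      + (h.d113 * (y.y1 * y.y1 * y.y3)
      + (h.d114 * (y.y1 * y.y1 * y.y4)
      + h.d122 * (y.y1 * y.y2 * y.y2))))
      + ((h.d123 * (y.y1 * y.y2 * y.y3)
      + h.d124 * (y.y1 * y.y2 * y.y4))
      + (h.d133 * (y.y1 * y.y3 * y.y3)
      + (h.d134 * (y.y1 * y.y3 * y.y4)
      + h.d144 * (y.y1 * y.y4 * y.y4)))))
      + (((h.d222 * (y.y2 * y.y2 * y.y2)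
      + h.d223 * (y.y2 * y.y2 * y.y3))
      + (h.d224 * (y.y2 * y.y2 * y.y4)
      + (h.d233 * (y.y2 * y.y3 * y.y3)
      + h.d234 * (y.y2 * y.y3 * y.y4))))
      + ((h.d244 * (y.y2 * y.y4 * y.y4)
      + h.d333 * (y.y3 * y.y3 * y.y3))
      + (h.d334 * (y.y3 * y.y3 * y.y4)
      + (h.d344 * (y.y3 * y.y4 * y.y4)
      + h.d444 * (y.y4 * y.y4 * y.y4)))))) := by
    unfold Cub.ev
    ring
  rw [e]
  exact k

theorem TM.Has.mem_rng {Y : Bx} {A : TM} {f : Pt → ℂ} (hA : A.Has Y f) {y : Pt} (hy : y.In Y) :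
    CB.Mem (f y) (TM.rng Y A) := by
  obtain ⟨ga, hga, pa, hpa, ha⟩ := hA
  obtain ⟨p, hp, e⟩ := ha y hy
  rw [e]
  exact ((hga.c.add (Lin.mem_rngL hga hy)).add (Quad.mem_rngQ hpa hy)).add (Cub.mem_rngC hp hy)

theorem TM.Has.mul {Y : Bx} {A B : TM} {f g : Pt → ℂ} (hA : A.Has Y f) (hB : B.Has Y g) :
    TM.Has Y (A.mul Y B) (fun y => f y * g y) := by
  have hA' := hA
  obtain ⟨ga, hga, pa, hpa, ha⟩ := hA
  obtain ⟨gb, hgb, pb, hpb, hb⟩ := hB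
  refine ⟨⟨ga.c * gb.c, ga.c * gb.l1 + gb.c * ga.l1, ga.c * gb.l2 + gb.c * ga.l2, ga.c * gb.l3 + gb.c * ga.l3, ga.c * gb.l4 + gb.c * ga.l4⟩,
    ⟨hga.c.mul hgb.c, (hga.c.mul hgb.l1).add (hgb.c.mul hga.l1), (hga.c.mul hgb.l2).add (hgb.c.mul hga.l2), (hga.c.mul hgb.l3).add (hgb.c.mul hga.l3), (hga.c.mul hgb.l4).add (hgb.c.mul hga.l4)⟩,
    ⟨ga.c * pb.q11 + gb.c * pa.q11 + ga.l1 * gb.l1,
    ga.c * pb.q12 + gb.c * pa.q12 + (ga.l1 * gb.l2 + ga.l2 * gb.l1),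
    ga.c * pb.q13 + gb.c * pa.q13 + (ga.l1 * gb.l3 + ga.l3 * gb.l1),
    ga.c * pb.q14 + gb.c * pa.q14 + (ga.l1 * gb.l4 + ga.l4 * gb.l1),
    ga.c * pb.q22 + gb.c * pa.q22 + ga.l2 * gb.l2,
    ga.c * pb.q23 + gb.c * pa.q23 + (ga.l2 * gb.l3 + ga.l3 * gb.l2),
    ga.c * pb.q24 + gb.c * pa.q24 + (ga.l2 * gb.l4 + ga.l4 * gb.l2),
    ga.c * pb.q33 + gb.c * pa.q33 + ga.l3 * gb.l3,
    ga.c * pb.q34 + gb.c * pa.q34 + (ga.l3 * gb.l4 + ga.l4 * gb.l3),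
    ga.c * pb.q44 + gb.c * pa.q44 + ga.l4 * gb.l4⟩,
    ⟨((hga.c.mul hpb.q11).add (hgb.c.mul hpa.q11)).add (hga.l1.mul hgb.l1),
    ((hga.c.mul hpb.q12).add (hgb.c.mul hpa.q12)).add ((hga.l1.mul hgb.l2).add (hga.l2.mul hgb.l1)),
    ((hga.c.mul hpb.q13).add (hgb.c.mul hpa.q13)).add ((hga.l1.mul hgb.l3).add (hga.l3.mul hgb.l1)),
    ((hga.c.mul hpb.q14).add (hgb.c.mul hpa.q14)).add ((hga.l1.mul hgb.l4).add (hga.l4.mul hgb.l1)),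
    ((hga.c.mul hpb.q22).add (hgb.c.mul hpa.q22)).add (hga.l2.mul hgb.l2),
    ((hga.c.mul hpb.q23).add (hgb.c.mul hpa.q23)).add ((hga.l2.mul hgb.l3).add (hga.l3.mul hgb.l2)),
    ((hga.c.mul hpb.q24).add (hgb.c.mul hpa.q24)).add ((hga.l2.mul hgb.l4).add (hga.l4.mul hgb.l2)),
    ((hga.c.mul hpb.q33).add (hgb.c.mul hpa.q33)).add (hga.l3.mul hgb.l3),
    ((hga.c.mul hpb.q34).add (hgb.c.mul hpa.q34)).add ((hga.l3.mul hgb.l4).add (hga.l4.mul hgb.l3)),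
    ((hga.c.mul hpb.q44).add (hgb.c.mul hpa.q44)).add (hga.l4.mul hgb.l4)⟩, fun y hy => ?_⟩
  obtain ⟨da, hda, e⟩ := ha y hy
  obtain ⟨db, hdb, e'⟩ := hb y hy
  have nA : CB.Mem (f y) (TM.rng Y A) := hA'.mem_rng hy
  have nB : CB.Mem (gb.c + gb.ev y + pb.ev y) (TM.rng2 Y B) :=
    (hgb.c.add (Lin.mem_rngL hgb hy)).add (Quad.mem_rngQ hpb hy)
  have n1 : CB.Mem (gb.l1 + (pb.q11 * y.y1 + pb.q12 * y.y2 + (pb.q13 * y.y3 + pb.q14 * y.y4))) (TM.m1 Y B) :=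
    hgb.l1.add (((hpb.q11.mul hy.h1).add (hpb.q12.mul hy.h2)).add ((hpb.q13.mul hy.h3).add (hpb.q14.mul hy.h4)))
  have n2 : CB.Mem (gb.l2 + (pb.q22 * y.y2 + (pb.q23 * y.y3 + pb.q24 * y.y4))) (TM.m2 Y B) :=
    hgb.l2.add ((hpb.q22.mul hy.h2).add ((hpb.q23.mul hy.h3).add (hpb.q24.mul hy.h4)))
  have n3 : CB.Mem (gb.l3 + (pb.q33 * y.y3 + pb.q34 * y.y4)) (TM.m3 Y B) :=
    hgb.l3.add ((hpb.q33.mul hy.h3).add (hpb.q34.mul hy.h4))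
  have n4 : CB.Mem (gb.l4 + pb.q44 * y.y4) (TM.m4 Y B) := hgb.l4.add (hpb.q44.mul hy.h4)
  have key : gb.ev y + pb.ev y = (gb.l1 + (pb.q11 * y.y1 + pb.q12 * y.y2 + (pb.q13 * y.y3 + pb.q14 * y.y4))) * y.y1
      + (gb.l2 + (pb.q22 * y.y2 + (pb.q23 * y.y3 + pb.q24 * y.y4))) * y.y2
      + (gb.l3 + (pb.q33 * y.y3 + pb.q34 * y.y4)) * y.y3 + (gb.l4 + pb.q44 * y.y4) * y.y4 := by
    simp only [Lin.ev, Quad.ev]
    ring
  generalize (gb.l1 + (pb.q11 * y.y1 + pb.q12 * y.y2 + (pb.q13 * y.y3 + pb.q14 * y.y4))) = M1 at n1 key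
  generalize (gb.l2 + (pb.q22 * y.y2 + (pb.q23 * y.y3 + pb.q24 * y.y4))) = M2 at n2 key
  generalize (gb.l3 + (pb.q33 * y.y3 + pb.q34 * y.y4)) = M3 at n3 key
  generalize (gb.l4 + pb.q44 * y.y4) = M4 at n4 key
  have k4 : f y * g y = ga.c * gb.c + (ga.c * gb.ev y + gb.c * ga.ev y)
      + (ga.c * pb.ev y + gb.c * pa.ev y + ga.ev y * gb.ev y)
      + (f y * db.ev y + (gb.c + gb.ev y + pb.ev y) * da.ev y + ga.ev y * pb.ev y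
        + pa.ev y * (gb.ev y + pb.ev y)) := by
    rw [e', e]; ring
  rw [key] at k4
  generalize hF : f y = F at nA k4
  generalize gb.c + gb.ev y + pb.ev y = G at nB k4
  refine ⟨⟨F * db.d111 + G * da.d111 + (ga.l1 * pb.q11 + pa.q11 * M1),
    F * db.d112 + G * da.d112 + (ga.l1 * pb.q12 + pa.q12 * M1) + (ga.l2 * pb.q11 + pa.q11 * M2),
    F * db.d113 + G * da.d113 + (ga.l1 * pb.q13 + pa.q13 * M1) + (ga.l3 * pb.q11 + pa.q11 * M3),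
    F * db.d114 + G * da.d114 + (ga.l1 * pb.q14 + pa.q14 * M1) + (ga.l4 * pb.q11 + pa.q11 * M4),
    F * db.d122 + G * da.d122 + (ga.l1 * pb.q22 + pa.q22 * M1) + (ga.l2 * pb.q12 + pa.q12 * M2),
    F * db.d123 + G * da.d123 + (ga.l1 * pb.q23 + pa.q23 * M1) + (ga.l2 * pb.q13 + pa.q13 * M2) + (ga.l3 * pb.q12 + pa.q12 * M3),
    F * db.d124 + G * da.d124 + (ga.l1 * pb.q24 + pa.q24 * M1) + (ga.l2 * pb.q14 + pa.q14 * M2) + (ga.l4 * pb.q12 + pa.q12 * M4),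
    F * db.d133 + G * da.d133 + (ga.l1 * pb.q33 + pa.q33 * M1) + (ga.l3 * pb.q13 + pa.q13 * M3),
    F * db.d134 + G * da.d134 + (ga.l1 * pb.q34 + pa.q34 * M1) + (ga.l3 * pb.q14 + pa.q14 * M3) + (ga.l4 * pb.q13 + pa.q13 * M4),
    F * db.d144 + G * da.d144 + (ga.l1 * pb.q44 + pa.q44 * M1) + (ga.l4 * pb.q14 + pa.q14 * M4),
    F * db.d222 + G * da.d222 + (ga.l2 * pb.q22 + pa.q22 * M2),
    F * db.d223 + G * da.d223 + (ga.l2 * pb.q23 + pa.q23 * M2) + (ga.l3 * pb.q22 + pa.q22 * M3),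
    F * db.d224 + G * da.d224 + (ga.l2 * pb.q24 + pa.q24 * M2) + (ga.l4 * pb.q22 + pa.q22 * M4),
    F * db.d233 + G * da.d233 + (ga.l2 * pb.q33 + pa.q33 * M2) + (ga.l3 * pb.q23 + pa.q23 * M3),
    F * db.d234 + G * da.d234 + (ga.l2 * pb.q34 + pa.q34 * M2) + (ga.l3 * pb.q24 + pa.q24 * M3) + (ga.l4 * pb.q23 + pa.q23 * M4),
    F * db.d244 + G * da.d244 + (ga.l2 * pb.q44 + pa.q44 * M2) + (ga.l4 * pb.q24 + pa.q24 * M4),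
    F * db.d333 + G * da.d333 + (ga.l3 * pb.q33 + pa.q33 * M3),
    F * db.d334 + G * da.d334 + (ga.l3 * pb.q34 + pa.q34 * M3) + (ga.l4 * pb.q33 + pa.q33 * M4),
    F * db.d344 + G * da.d344 + (ga.l3 * pb.q44 + pa.q44 * M3) + (ga.l4 * pb.q34 + pa.q34 * M4),
    F * db.d444 + G * da.d444 + (ga.l4 * pb.q44 + pa.q44 * M4)⟩,
    ⟨((nA.mul hdb.d111).add (nB.mul hda.d111)).add ((hga.l1.mul hpb.q11).add (hpa.q11.mul n1)),
    (((nA.mul hdb.d112).add (nB.mul hda.d112)).add ((hga.l1.mul hpb.q12).add (hpa.q12.mul n1))).add ((hga.l2.mul hpb.q11).add (hpa.q11.mul n2)),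
    (((nA.mul hdb.d113).add (nB.mul hda.d113)).add ((hga.l1.mul hpb.q13).add (hpa.q13.mul n1))).add ((hga.l3.mul hpb.q11).add (hpa.q11.mul n3)),
    (((nA.mul hdb.d114).add (nB.mul hda.d114)).add ((hga.l1.mul hpb.q14).add (hpa.q14.mul n1))).add ((hga.l4.mul hpb.q11).add (hpa.q11.mul n4)),
    (((nA.mul hdb.d122).add (nB.mul hda.d122)).add ((hga.l1.mul hpb.q22).add (hpa.q22.mul n1))).add ((hga.l2.mul hpb.q12).add (hpa.q12.mul n2)),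
    ((((nA.mul hdb.d123).add (nB.mul hda.d123)).add ((hga.l1.mul hpb.q23).add (hpa.q23.mul n1))).add ((hga.l2.mul hpb.q13).add (hpa.q13.mul n2))).add ((hga.l3.mul hpb.q12).add (hpa.q12.mul n3)),
    ((((nA.mul hdb.d124).add (nB.mul hda.d124)).add ((hga.l1.mul hpb.q24).add (hpa.q24.mul n1))).add ((hga.l2.mul hpb.q14).add (hpa.q14.mul n2))).add ((hga.l4.mul hpb.q12).add (hpa.q12.mul n4)),
    (((nA.mul hdb.d133).add (nB.mul hda.d133)).add ((hga.l1.mul hpb.q33).add (hpa.q33.mul n1))).add ((hga.l3.mul hpb.q13).add (hpa.q13.mul n3)),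
    ((((nA.mul hdb.d134).add (nB.mul hda.d134)).add ((hga.l1.mul hpb.q34).add (hpa.q34.mul n1))).add ((hga.l3.mul hpb.q14).add (hpa.q14.mul n3))).add ((hga.l4.mul hpb.q13).add (hpa.q13.mul n4)),
    (((nA.mul hdb.d144).add (nB.mul hda.d144)).add ((hga.l1.mul hpb.q44).add (hpa.q44.mul n1))).add ((hga.l4.mul hpb.q14).add (hpa.q14.mul n4)),
    ((nA.mul hdb.d222).add (nB.mul hda.d222)).add ((hga.l2.mul hpb.q22).add (hpa.q22.mul n2)),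
    (((nA.mul hdb.d223).add (nB.mul hda.d223)).add ((hga.l2.mul hpb.q23).add (hpa.q23.mul n2))).add ((hga.l3.mul hpb.q22).add (hpa.q22.mul n3)),
    (((nA.mul hdb.d224).add (nB.mul hda.d224)).add ((hga.l2.mul hpb.q24).add (hpa.q24.mul n2))).add ((hga.l4.mul hpb.q22).add (hpa.q22.mul n4)),
    (((nA.mul hdb.d233).add (nB.mul hda.d233)).add ((hga.l2.mul hpb.q33).add (hpa.q33.mul n2))).add ((hga.l3.mul hpb.q23).add (hpa.q23.mul n3)),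
    ((((nA.mul hdb.d234).add (nB.mul hda.d234)).add ((hga.l2.mul hpb.q34).add (hpa.q34.mul n2))).add ((hga.l3.mul hpb.q24).add (hpa.q24.mul n3))).add ((hga.l4.mul hpb.q23).add (hpa.q23.mul n4)),
    (((nA.mul hdb.d244).add (nB.mul hda.d244)).add ((hga.l2.mul hpb.q44).add (hpa.q44.mul n2))).add ((hga.l4.mul hpb.q24).add (hpa.q24.mul n4)),
    ((nA.mul hdb.d333).add (nB.mul hda.d333)).add ((hga.l3.mul hpb.q33).add (hpa.q33.mul n3)),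
    (((nA.mul hdb.d334).add (nB.mul hda.d334)).add ((hga.l3.mul hpb.q34).add (hpa.q34.mul n3))).add ((hga.l4.mul hpb.q33).add (hpa.q33.mul n4)),
    (((nA.mul hdb.d344).add (nB.mul hda.d344)).add ((hga.l3.mul hpb.q44).add (hpa.q44.mul n3))).add ((hga.l4.mul hpb.q34).add (hpa.q34.mul n4)),
    ((nA.mul hdb.d444).add (nB.mul hda.d444)).add ((hga.l4.mul hpb.q44).add (hpa.q44.mul n4))⟩, ?_⟩
  show f y * g y = _
  rw [hF, k4]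
  simp only [Lin.ev, Quad.ev, Cub.ev]
  ring

/-! ### the exponential -/

theorem TM.exp_kappa {τ : ℝ} (hτ : |τ| ≤ 1) :
    ∃ κ : ℂ, ‖κ - (-Complex.I / 6 : ℂ)‖ ≤ 5 / 96 * |τ| ∧
      Complex.exp (Complex.I * τ) = 1 + Complex.I * τ + (-1 / 2) * (τ : ℂ) ^ 2 + κ * (τ : ℂ) ^ 3 := by
  rcases eq_or_ne τ 0 with h0 | h0
  · refine ⟨-Complex.I / 6, ?_, ?_⟩
    · simp [h0]
    · simp [h0]
  · have hτc : (τ : ℂ) ≠ 0 := by exact_mod_cast h0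
    refine ⟨(Complex.exp (Complex.I * τ) - 1 - Complex.I * τ + (τ : ℂ) ^ 2 / 2) / (τ : ℂ) ^ 3, ?_, ?_⟩
    · have hx : ‖Complex.I * (τ : ℂ)‖ = |τ| := by
        rw [norm_mul, Complex.norm_I, one_mul, Complex.norm_real, Real.norm_eq_abs]
      have h1 := Complex.exp_bound (x := Complex.I * τ) (by rw [hx]; exact hτ) (n := 4) (by norm_num)
      rw [hx] at h1
      simp only [Finset.sum_range_succ, Finset.sum_range_zero, Nat.factorial, pow_zero, pow_one,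
        Nat.cast_one, div_one, zero_add, mul_one] at h1
      norm_num at h1
      have e : (Complex.exp (Complex.I * τ) - 1 - Complex.I * τ + (τ : ℂ) ^ 2 / 2) / (τ : ℂ) ^ 3 - (-Complex.I / 6 : ℂ)
          = (Complex.exp (Complex.I * τ) - (1 + Complex.I * τ + (Complex.I * τ) ^ 2 / 2 + (Complex.I * τ) ^ 3 / 6))
            / (τ : ℂ) ^ 3 := by
        have i2 : Complex.I ^ 2 = -1 := Complex.I_sq
        have i3 : Complex.I ^ 3 = -Complex.I := by rw [pow_succ, i2]; ring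
        rw [mul_pow, mul_pow, i2, i3]
        field_simp
        ring
      rw [e, norm_div, norm_pow, Complex.norm_real, Real.norm_eq_abs]
      have hpos : 0 < |τ| := abs_pos.2 h0
      rw [div_le_iff₀ (by positivity)]
      calc _ ≤ |τ| ^ 4 * (5 / 96) := h1
        _ = 5 / 96 * |τ| * |τ| ^ 3 := by ring
    · field_simp
      ring

/-- the argument of the exponential -/
noncomputable def TM.ang (t1 t2 t3 t4 : ℝ) (y : Pt) : ℝ := t1 * y.y1 + t2 * y.y2 + t3 * y.y3 + t4 * y.y4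

theorem rv_absI (x : Int) : rv (absI x) = |rv x| := by
  rw [absI_eq]
  unfold rv
  rw [abs_div, Int.cast_abs]
  norm_num

theorem CB.Mem.le_n1 {z : ℂ} {a : CB} (h : CB.Mem z a) : ‖z‖ ≤ rv (TM.n1 a) := by
  have h1 : ‖a.mid‖ ≤ |rv a.re| + |rv a.im| := Complex.norm_le_abs_re_add_abs_im _
  have h2 : ‖z‖ ≤ ‖z - a.mid‖ + ‖a.mid‖ := by
    calc ‖z‖ = ‖(z - a.mid) + a.mid‖ := by ring_nf
      _ ≤ _ := norm_add_le _ _
  have h3 : rv (TM.n1 a) = |rv a.re| + |rv a.im| + rv a.rad := by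
    simp only [TM.n1, rv_add, rv_absI]
  rw [h3]
  have h4 : ‖z - a.mid‖ ≤ rv a.rad := h
  linarith

theorem TM.mem_expk {τ : ℝ} {T : Int} (hT : |τ| ≤ rv T) {κ : ℂ}
    (hκ : ‖κ - (-Complex.I / 6 : ℂ)‖ ≤ 5 / 96 * |τ|) : CB.Mem κ (TM.expk T) := by
  unfold CB.Mem
  have e1 : (-Complex.I / 6 : ℂ) - (TM.expk T).mid = ⟨0, 1 / 3 / 2 ^ 40⟩ := by
    apply Complex.ext
    · simp only [TM.expk, CB.mid, Complex.sub_re, Complex.div_ofNat_re, Complex.neg_re, Complex.I_re, rv]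
      norm_num
    · simp only [TM.expk, CB.mid, Complex.sub_im, Complex.div_ofNat_im, Complex.neg_im, Complex.I_im, rv]
      norm_num
  have e2 : ‖(-Complex.I / 6 : ℂ) - (TM.expk T).mid‖ ≤ 1 / 2 ^ 40 := by
    rw [e1]
    refine (Complex.norm_le_abs_re_add_abs_im _).trans ?_
    rw [abs_zero, zero_add, abs_of_nonneg (by positivity)]
    norm_num
  have e4 : rv T / 19 ≤ rv (Int.ediv T 19) + 1 / 2 ^ 40 := by
    have h2 : T < (T / 19 + 1) * 19 := Int.lt_ediv_add_one_mul_self T (by norm_num)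
    have h2' : (T : ℝ) < (((T / 19 : ℤ) : ℝ) + 1) * 19 := by exact_mod_cast h2
    have e : Int.ediv T 19 = T / 19 := rfl
    rw [e]
    unfold rv
    have : (T : ℝ) / 2 ^ 40 / 19 = (T : ℝ) / 19 / 2 ^ 40 := by ring
    rw [this, ← add_div]
    gcongr
    linarith
  have e5 : rv (TM.expk T).rad = rv (Int.ediv T 19) + 2 / 2 ^ 40 := by
    have k4 : rv 2 = 2 / 2 ^ 40 := by
      unfold rv
      norm_num
    simp only [TM.expk, rv_add]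
    rw [k4]
  have e6 : κ - (TM.expk T).mid = (κ - (-Complex.I / 6 : ℂ)) + ((-Complex.I / 6 : ℂ) - (TM.expk T).mid) := by ring
  rw [e6, e5]
  refine (norm_add_le _ _).trans ?_
  have h0 := abs_nonneg τ
  have h22 : (2 : ℝ) / 2 ^ 40 = 2 * (1 / 2 ^ 40) := by ring
  rw [h22]
  linarith

theorem TM.Has.expi {Y : Bx} {t1 t2 t3 t4 : ℝ} {b1 b2 b3 b4 : CB}
    (h1 : CB.Mem (t1 : ℂ) b1) (h2 : CB.Mem (t2 : ℂ) b2) (h3 : CB.Mem (t3 : ℂ) b3) (h4 : CB.Mem (t4 : ℂ) b4)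
    (hT : TM.n1 (TM.expT Y b1 b2 b3 b4) ≤ 1099511627776) :
    TM.Has Y (TM.expi Y b1 b2 b3 b4) (fun y => Complex.exp (Complex.I * (TM.ang t1 t2 t3 t4 y : ℝ))) := by
  refine ⟨⟨1, Complex.I * (t1 : ℂ), Complex.I * (t2 : ℂ), Complex.I * (t3 : ℂ),
    Complex.I * (t4 : ℂ)⟩, ⟨CB.mem_one, CB.mem_I.mul h1, CB.mem_I.mul h2, CB.mem_I.mul h3, CB.mem_I.mul h4⟩,
    ⟨-1 / 2 * ((t1 : ℂ) * (t1 : ℂ)),
      ((2 : ℤ) : ℂ) * (-1 / 2 * ((t1 : ℂ) * (t2 : ℂ))),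
      ((2 : ℤ) : ℂ) * (-1 / 2 * ((t1 : ℂ) * (t3 : ℂ))),
      ((2 : ℤ) : ℂ) * (-1 / 2 * ((t1 : ℂ) * (t4 : ℂ))),
      -1 / 2 * ((t2 : ℂ) * (t2 : ℂ)),
      ((2 : ℤ) : ℂ) * (-1 / 2 * ((t2 : ℂ) * (t3 : ℂ))),
      ((2 : ℤ) : ℂ) * (-1 / 2 * ((t2 : ℂ) * (t4 : ℂ))),
      -1 / 2 * ((t3 : ℂ) * (t3 : ℂ)),
      ((2 : ℤ) : ℂ) * (-1 / 2 * ((t3 : ℂ) * (t4 : ℂ))),
      -1 / 2 * ((t4 : ℂ) * (t4 : ℂ))⟩,
    ⟨CB.mem_mh.mul (h1.mul h1),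
      (CB.mem_mh.mul (h1.mul h2)).nsm (by norm_num),
      (CB.mem_mh.mul (h1.mul h3)).nsm (by norm_num),
      (CB.mem_mh.mul (h1.mul h4)).nsm (by norm_num),
      CB.mem_mh.mul (h2.mul h2),
      (CB.mem_mh.mul (h2.mul h3)).nsm (by norm_num),
      (CB.mem_mh.mul (h2.mul h4)).nsm (by norm_num),
      CB.mem_mh.mul (h3.mul h3),
      (CB.mem_mh.mul (h3.mul h4)).nsm (by norm_num),
      CB.mem_mh.mul (h4.mul h4)⟩,
    fun y hy => ?_⟩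
  have hang : CB.Mem ((TM.ang t1 t2 t3 t4 y : ℝ) : ℂ) (TM.expT Y b1 b2 b3 b4) := by
    have h := ((h1.mul hy.h1).add (h2.mul hy.h2)).add ((h3.mul hy.h3).add (h4.mul hy.h4))
    have e : ((TM.ang t1 t2 t3 t4 y : ℝ) : ℂ) = t1 * y.y1 + t2 * y.y2 + (t3 * y.y3 + t4 * y.y4) := by
      unfold TM.ang
      push_cast
      ring
    rw [e]
    exact h
  have hT0 : |TM.ang t1 t2 t3 t4 y| ≤ rv (TM.n1 (TM.expT Y b1 b2 b3 b4)) := by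
    have h := hang.le_n1
    rwa [Complex.norm_real, Real.norm_eq_abs] at h
  have hT1 : |TM.ang t1 t2 t3 t4 y| ≤ 1 := by
    refine hT0.trans ?_
    unfold rv
    rw [div_le_one (by positivity)]
    have : ((TM.n1 (TM.expT Y b1 b2 b3 b4) : ℤ) : ℝ) ≤ 1099511627776 := by exact_mod_cast hT
    linarith
  obtain ⟨κ, hκ, e⟩ := TM.exp_kappa hT1
  have hk : CB.Mem κ (TM.expk (TM.n1 (TM.expT Y b1 b2 b3 b4))) := TM.mem_expk hT0 hκ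
  refine ⟨⟨((1 : ℤ) : ℂ) * (κ * ((t1 : ℂ) * (t1 : ℂ) * (t1 : ℂ))),
      ((3 : ℤ) : ℂ) * (κ * ((t1 : ℂ) * (t1 : ℂ) * (t2 : ℂ))),
      ((3 : ℤ) : ℂ) * (κ * ((t1 : ℂ) * (t1 : ℂ) * (t3 : ℂ))),
      ((3 : ℤ) : ℂ) * (κ * ((t1 : ℂ) * (t1 : ℂ) * (t4 : ℂ))),
      ((3 : ℤ) : ℂ) * (κ * ((t1 : ℂ) * (t2 : ℂ) * (t2 : ℂ))),
      ((6 : ℤ) : ℂ) * (κ * ((t1 : ℂ) * (t2 : ℂ) * (t3 : ℂ))),
      ((6 : ℤ) : ℂ) * (κ * ((t1 : ℂ) * (t2 : ℂ) * (t4 : ℂ))),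
      ((3 : ℤ) : ℂ) * (κ * ((t1 : ℂ) * (t3 : ℂ) * (t3 : ℂ))),
      ((6 : ℤ) : ℂ) * (κ * ((t1 : ℂ) * (t3 : ℂ) * (t4 : ℂ))),
      ((3 : ℤ) : ℂ) * (κ * ((t1 : ℂ) * (t4 : ℂ) * (t4 : ℂ))),
      ((1 : ℤ) : ℂ) * (κ * ((t2 : ℂ) * (t2 : ℂ) * (t2 : ℂ))),
      ((3 : ℤ) : ℂ) * (κ * ((t2 : ℂ) * (t2 : ℂ) * (t3 : ℂ))),
      ((3 : ℤ) : ℂ) * (κ * ((t2 : ℂ) * (t2 : ℂ) * (t4 : ℂ))),
      ((3 : ℤ) : ℂ) * (κ * ((t2 : ℂ) * (t3 : ℂ) * (t3 : ℂ))),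
      ((6 : ℤ) : ℂ) * (κ * ((t2 : ℂ) * (t3 : ℂ) * (t4 : ℂ))),
      ((3 : ℤ) : ℂ) * (κ * ((t2 : ℂ) * (t4 : ℂ) * (t4 : ℂ))),
      ((1 : ℤ) : ℂ) * (κ * ((t3 : ℂ) * (t3 : ℂ) * (t3 : ℂ))),
      ((3 : ℤ) : ℂ) * (κ * ((t3 : ℂ) * (t3 : ℂ) * (t4 : ℂ))),
      ((3 : ℤ) : ℂ) * (κ * ((t3 : ℂ) * (t4 : ℂ) * (t4 : ℂ))),
      ((1 : ℤ) : ℂ) * (κ * ((t4 : ℂ) * (t4 : ℂ) * (t4 : ℂ)))⟩,
      ⟨(hk.mul ((h1.mul h1).mul h1)).nsm (by norm_num),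
      (hk.mul ((h1.mul h1).mul h2)).nsm (by norm_num),
      (hk.mul ((h1.mul h1).mul h3)).nsm (by norm_num),
      (hk.mul ((h1.mul h1).mul h4)).nsm (by norm_num),
      (hk.mul ((h1.mul h2).mul h2)).nsm (by norm_num),
      (hk.mul ((h1.mul h2).mul h3)).nsm (by norm_num),
      (hk.mul ((h1.mul h2).mul h4)).nsm (by norm_num),
      (hk.mul ((h1.mul h3).mul h3)).nsm (by norm_num),
      (hk.mul ((h1.mul h3).mul h4)).nsm (by norm_num),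
      (hk.mul ((h1.mul h4).mul h4)).nsm (by norm_num),
      (hk.mul ((h2.mul h2).mul h2)).nsm (by norm_num),
      (hk.mul ((h2.mul h2).mul h3)).nsm (by norm_num),
      (hk.mul ((h2.mul h2).mul h4)).nsm (by norm_num),
      (hk.mul ((h2.mul h3).mul h3)).nsm (by norm_num),
      (hk.mul ((h2.mul h3).mul h4)).nsm (by norm_num),
      (hk.mul ((h2.mul h4).mul h4)).nsm (by norm_num),
      (hk.mul ((h3.mul h3).mul h3)).nsm (by norm_num),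
      (hk.mul ((h3.mul h3).mul h4)).nsm (by norm_num),
      (hk.mul ((h3.mul h4).mul h4)).nsm (by norm_num),
      (hk.mul ((h4.mul h4).mul h4)).nsm (by norm_num)⟩, ?_⟩
  beta_reduce
  rw [e]
  simp only [Lin.ev, Quad.ev, Cub.ev, TM.ang]
  push_cast
  ring

end MaxTerm.PA.Chk
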