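import Pool.Agent.MaxTerm.PartA.TMDeriv

/-!
# Part A, near region: a weighted norm for third order expansions

`NB X d f N`: `f y = c + ∑ l_i y_i + ∑ q_ij y_i y_j + ∑ d_ijk(y) y_i y_j y_k` on the box `|y_i| ≤ d` with
`‖c‖ ≤ s0`, `‖l_i‖ ≤ s1`, `‖q_ij‖ ≤ s2`, `‖d_ijk‖ ≤ s3`, `s0 + X s1 + X² s2 / 2 + X³ s3 / 6 ≤ N`.
For `8 d ≤ X` this is submultiplicative; it is closed under infinite sums. It is used for the tails.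
-/

open ComplexConjugate

namespace MaxTerm.PA.Chk

/-- the real box -/
structure Box4 (d : ℝ) (y : Pt) : Prop where
  h1 : |y.y1| ≤ d
  h2 : |y.y2| ≤ d
  h3 : |y.y3| ≤ d
  h4 : |y.y4| ≤ d

/-- bound of the linear coefficients -/
structure Lin.Bd (g : Lin) (s : ℝ) : Prop where
  l1 : ‖g.l1‖ ≤ s
  l2 : ‖g.l2‖ ≤ s
  l3 : ‖g.l3‖ ≤ s
  l4 : ‖g.l4‖ ≤ s

/-- bound of the quadratic coefficients -/
structure Quad.Bd (h : Quad) (s : ℝ) : Prop where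
  q11 : ‖h.q11‖ ≤ s
  q12 : ‖h.q12‖ ≤ s
  q13 : ‖h.q13‖ ≤ s
  q14 : ‖h.q14‖ ≤ s
  q22 : ‖h.q22‖ ≤ s
  q23 : ‖h.q23‖ ≤ s
  q24 : ‖h.q24‖ ≤ s
  q33 : ‖h.q33‖ ≤ s
  q34 : ‖h.q34‖ ≤ s
  q44 : ‖h.q44‖ ≤ s

/-- bound of the cubic coefficients -/
structure Cub.Bd (h : Cub) (s : ℝ) : Prop where
  d111 : ‖h.d111‖ ≤ s
  d112 : ‖h.d112‖ ≤ s
  d113 : ‖h.d113‖ ≤ s
  d114 : ‖h.d114‖ ≤ s
  d122 : ‖h.d122‖ ≤ s
  d123 : ‖h.d123‖ ≤ s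
  d124 : ‖h.d124‖ ≤ s
  d133 : ‖h.d133‖ ≤ s
  d134 : ‖h.d134‖ ≤ s
  d144 : ‖h.d144‖ ≤ s
  d222 : ‖h.d222‖ ≤ s
  d223 : ‖h.d223‖ ≤ s
  d224 : ‖h.d224‖ ≤ s
  d233 : ‖h.d233‖ ≤ s
  d234 : ‖h.d234‖ ≤ s
  d244 : ‖h.d244‖ ≤ s
  d333 : ‖h.d333‖ ≤ s
  d334 : ‖h.d334‖ ≤ s
  d344 : ‖h.d344‖ ≤ s
  d444 : ‖h.d444‖ ≤ s

/-- third order expansion with bounds -/
def SZ (d s0 s1 s2 s3 : ℝ) (f : Pt → ℂ) : Prop :=
  ∃ g : Lin, ‖g.c‖ ≤ s0 ∧ g.Bd s1 ∧ ∃ h : Quad, h.Bd s2 ∧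
    ∀ y, Box4 d y → ∃ k : Cub, k.Bd s3 ∧ f y = g.c + g.ev y + h.ev y + k.ev y

def NB (X d : ℝ) (f : Pt → ℂ) (N : ℝ) : Prop :=
  ∃ s0 s1 s2 s3 : ℝ, s0 + X * s1 + X ^ 2 / 2 * s2 + X ^ 3 / 6 * s3 ≤ N ∧ SZ d s0 s1 s2 s3 f

theorem norm_mul_real_le {z : ℂ} {t s d : ℝ} (hz : ‖z‖ ≤ s) (ht : |t| ≤ d) : ‖z * (t : ℂ)‖ ≤ s * d := by
  rw [norm_mul, Complex.norm_real, Real.norm_eq_abs]
  exact mul_le_mul hz ht (abs_nonneg _) ((norm_nonneg _).trans hz)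

theorem Lin.Bd.nonneg {g : Lin} {s : ℝ} (h : g.Bd s) : 0 ≤ s := (norm_nonneg _).trans h.l1

theorem Quad.Bd.nonneg {g : Quad} {s : ℝ} (h : g.Bd s) : 0 ≤ s := (norm_nonneg _).trans h.q11

theorem Cub.Bd.nonneg {g : Cub} {s : ℝ} (h : g.Bd s) : 0 ≤ s := (norm_nonneg _).trans h.d111

theorem Lin.Bd.norm_ev {g : Lin} {s d : ℝ} (h : g.Bd s) {y : Pt} (hy : Box4 d y) : ‖g.ev y‖ ≤ 4 * d * s := by
  have h1 := norm_mul_real_le h.l1 hy.h1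
  have h2 := norm_mul_real_le h.l2 hy.h2
  have h3 := norm_mul_real_le h.l3 hy.h3
  have h4 := norm_mul_real_le h.l4 hy.h4
  have : ‖g.ev y‖ ≤ ‖g.l1 * (y.y1 : ℂ)‖ + ‖g.l2 * (y.y2 : ℂ)‖ + ‖g.l3 * (y.y3 : ℂ)‖ + ‖g.l4 * (y.y4 : ℂ)‖ := by
    unfold Lin.ev
    exact (norm_add_le _ _).trans (add_le_add ((norm_add_le _ _).trans
      (add_le_add (norm_add_le _ _) le_rfl)) le_rfl)
  linarith

theorem Quad.Bd.norm_ev {g : Quad} {s d : ℝ} (h : g.Bd s) {y : Pt} (hy : Box4 d y) :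
    ‖g.ev y‖ ≤ 10 * d ^ 2 * s := by
  have hd : 0 ≤ d := (abs_nonneg _).trans hy.h1

  have hq11 := norm_mul_real_le (norm_mul_real_le h.q11 hy.h1) hy.h1
  have hq12 := norm_mul_real_le (norm_mul_real_le h.q12 hy.h1) hy.h2
  have hq13 := norm_mul_real_le (norm_mul_real_le h.q13 hy.h1) hy.h3
  have hq14 := norm_mul_real_le (norm_mul_real_le h.q14 hy.h1) hy.h4
  have hq22 := norm_mul_real_le (norm_mul_real_le h.q22 hy.h2) hy.h2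
  have hq23 := norm_mul_real_le (norm_mul_real_le h.q23 hy.h2) hy.h3
  have hq24 := norm_mul_real_le (norm_mul_real_le h.q24 hy.h2) hy.h4
  have hq33 := norm_mul_real_le (norm_mul_real_le h.q33 hy.h3) hy.h3
  have hq34 := norm_mul_real_le (norm_mul_real_le h.q34 hy.h3) hy.h4
  have hq44 := norm_mul_real_le (norm_mul_real_le h.q44 hy.h4) hy.h4
  have : ‖g.ev y‖ ≤ ‖g.q11 * (y.y1 : ℂ) * (y.y1 : ℂ)‖
      + ‖g.q12 * (y.y1 : ℂ) * (y.y2 : ℂ)‖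
      + ‖g.q13 * (y.y1 : ℂ) * (y.y3 : ℂ)‖
      + ‖g.q14 * (y.y1 : ℂ) * (y.y4 : ℂ)‖
      + ‖g.q22 * (y.y2 : ℂ) * (y.y2 : ℂ)‖
      + ‖g.q23 * (y.y2 : ℂ) * (y.y3 : ℂ)‖
      + ‖g.q24 * (y.y2 : ℂ) * (y.y4 : ℂ)‖
      + ‖g.q33 * (y.y3 : ℂ) * (y.y3 : ℂ)‖
      + ‖g.q34 * (y.y3 : ℂ) * (y.y4 : ℂ)‖
      + ‖g.q44 * (y.y4 : ℂ) * (y.y4 : ℂ)‖ := by
    unfold Quad.ev
    simp only [← mul_assoc]
    repeat' first
      | exact le_rfl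
      | refine (norm_add_le _ _).trans (add_le_add ?_ le_rfl)
  linarith

theorem Cub.Bd.norm_ev {g : Cub} {s d : ℝ} (h : g.Bd s) {y : Pt} (hy : Box4 d y) :
    ‖g.ev y‖ ≤ 20 * d ^ 3 * s := by
  have hd : 0 ≤ d := (abs_nonneg _).trans hy.h1

  have hd111 := norm_mul_real_le (norm_mul_real_le (norm_mul_real_le h.d111 hy.h1) hy.h1) hy.h1
  have hd112 := norm_mul_real_le (norm_mul_real_le (norm_mul_real_le h.d112 hy.h1) hy.h1) hy.h2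
  have hd113 := norm_mul_real_le (norm_mul_real_le (norm_mul_real_le h.d113 hy.h1) hy.h1) hy.h3
  have hd114 := norm_mul_real_le (norm_mul_real_le (norm_mul_real_le h.d114 hy.h1) hy.h1) hy.h4
  have hd122 := norm_mul_real_le (norm_mul_real_le (norm_mul_real_le h.d122 hy.h1) hy.h2) hy.h2
  have hd123 := norm_mul_real_le (norm_mul_real_le (norm_mul_real_le h.d123 hy.h1) hy.h2) hy.h3
  have hd124 := norm_mul_real_le (norm_mul_real_le (norm_mul_real_le h.d124 hy.h1) hy.h2) hy.h4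
  have hd133 := norm_mul_real_le (norm_mul_real_le (norm_mul_real_le h.d133 hy.h1) hy.h3) hy.h3
  have hd134 := norm_mul_real_le (norm_mul_real_le (norm_mul_real_le h.d134 hy.h1) hy.h3) hy.h4
  have hd144 := norm_mul_real_le (norm_mul_real_le (norm_mul_real_le h.d144 hy.h1) hy.h4) hy.h4
  have hd222 := norm_mul_real_le (norm_mul_real_le (norm_mul_real_le h.d222 hy.h2) hy.h2) hy.h2
  have hd223 := norm_mul_real_le (norm_mul_real_le (norm_mul_real_le h.d223 hy.h2) hy.h2) hy.h3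
  have hd224 := norm_mul_real_le (norm_mul_real_le (norm_mul_real_le h.d224 hy.h2) hy.h2) hy.h4
  have hd233 := norm_mul_real_le (norm_mul_real_le (norm_mul_real_le h.d233 hy.h2) hy.h3) hy.h3
  have hd234 := norm_mul_real_le (norm_mul_real_le (norm_mul_real_le h.d234 hy.h2) hy.h3) hy.h4
  have hd244 := norm_mul_real_le (norm_mul_real_le (norm_mul_real_le h.d244 hy.h2) hy.h4) hy.h4
  have hd333 := norm_mul_real_le (norm_mul_real_le (norm_mul_real_le h.d333 hy.h3) hy.h3) hy.h3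
  have hd334 := norm_mul_real_le (norm_mul_real_le (norm_mul_real_le h.d334 hy.h3) hy.h3) hy.h4
  have hd344 := norm_mul_real_le (norm_mul_real_le (norm_mul_real_le h.d344 hy.h3) hy.h4) hy.h4
  have hd444 := norm_mul_real_le (norm_mul_real_le (norm_mul_real_le h.d444 hy.h4) hy.h4) hy.h4
  have : ‖g.ev y‖ ≤ ‖g.d111 * (y.y1 : ℂ) * (y.y1 : ℂ) * (y.y1 : ℂ)‖
      + ‖g.d112 * (y.y1 : ℂ) * (y.y1 : ℂ) * (y.y2 : ℂ)‖
      + ‖g.d113 * (y.y1 : ℂ) * (y.y1 : ℂ) * (y.y3 : ℂ)‖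
      + ‖g.d114 * (y.y1 : ℂ) * (y.y1 : ℂ) * (y.y4 : ℂ)‖
      + ‖g.d122 * (y.y1 : ℂ) * (y.y2 : ℂ) * (y.y2 : ℂ)‖
      + ‖g.d123 * (y.y1 : ℂ) * (y.y2 : ℂ) * (y.y3 : ℂ)‖
      + ‖g.d124 * (y.y1 : ℂ) * (y.y2 : ℂ) * (y.y4 : ℂ)‖
      + ‖g.d133 * (y.y1 : ℂ) * (y.y3 : ℂ) * (y.y3 : ℂ)‖
      + ‖g.d134 * (y.y1 : ℂ) * (y.y3 : ℂ) * (y.y4 : ℂ)‖
      + ‖g.d144 * (y.y1 : ℂ) * (y.y4 : ℂ) * (y.y4 : ℂ)‖
      + ‖g.d222 * (y.y2 : ℂ) * (y.y2 : ℂ) * (y.y2 : ℂ)‖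
      + ‖g.d223 * (y.y2 : ℂ) * (y.y2 : ℂ) * (y.y3 : ℂ)‖
      + ‖g.d224 * (y.y2 : ℂ) * (y.y2 : ℂ) * (y.y4 : ℂ)‖
      + ‖g.d233 * (y.y2 : ℂ) * (y.y3 : ℂ) * (y.y3 : ℂ)‖
      + ‖g.d234 * (y.y2 : ℂ) * (y.y3 : ℂ) * (y.y4 : ℂ)‖
      + ‖g.d244 * (y.y2 : ℂ) * (y.y4 : ℂ) * (y.y4 : ℂ)‖
      + ‖g.d333 * (y.y3 : ℂ) * (y.y3 : ℂ) * (y.y3 : ℂ)‖
      + ‖g.d334 * (y.y3 : ℂ) * (y.y3 : ℂ) * (y.y4 : ℂ)‖
      + ‖g.d344 * (y.y3 : ℂ) * (y.y4 : ℂ) * (y.y4 : ℂ)‖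
      + ‖g.d444 * (y.y4 : ℂ) * (y.y4 : ℂ) * (y.y4 : ℂ)‖ := by
    unfold Cub.ev
    simp only [← mul_assoc]
    repeat' first
      | exact le_rfl
      | refine (norm_add_le _ _).trans (add_le_add ?_ le_rfl)
  linarith

theorem SZ.nonneg {d s0 s1 s2 s3 : ℝ} {f : Pt → ℂ} (hd : 0 ≤ d) (h : SZ d s0 s1 s2 s3 f) :
    0 ≤ s0 ∧ 0 ≤ s1 ∧ 0 ≤ s2 ∧ 0 ≤ s3 := by
  obtain ⟨g, h0, h1, q, h2, h3⟩ := h
  have z : |(0 : ℝ)| ≤ d := by rw [abs_zero]; exact hd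
  obtain ⟨p, hp, _⟩ := h3 ⟨0, 0, 0, 0⟩ ⟨z, z, z, z⟩
  exact ⟨(norm_nonneg _).trans h0, h1.nonneg, h2.nonneg, hp.nonneg⟩

theorem SZ.mul {d s0 s1 s2 s3 t0 t1 t2 t3 : ℝ} (hd : 0 ≤ d) {f g : Pt → ℂ} (hf : SZ d s0 s1 s2 s3 f)
    (hg : SZ d t0 t1 t2 t3 g) :
    SZ d (s0 * t0) (s0 * t1 + t0 * s1) (s0 * t2 + t0 * s2 + 2 * (s1 * t1))
      ((s0 + 4 * d * s1 + 10 * d ^ 2 * s2 + 20 * d ^ 3 * s3) * t3 + (t0 + 4 * d * t1 + 10 * d ^ 2 * t2) * s3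
        + 3 * (s1 * t2 + s2 * (t1 + 4 * d * t2)))
      (fun y => f y * g y) := by
  obtain ⟨a0n, a1n, a2n, a3n⟩ := hf.nonneg hd
  obtain ⟨b0n, b1n, b2n, b3n⟩ := hg.nonneg hd
  obtain ⟨ga, ha0, ha1, pa, ha2, ha⟩ := hf
  obtain ⟨gb, hb0, hb1, pb, hb2, hb⟩ := hg
  have m : ∀ {a b : ℂ} {s t : ℝ}, ‖a‖ ≤ s → ‖b‖ ≤ t → ‖a * b‖ ≤ s * t := by
    intro a b s t h1 h2
    rw [norm_mul]
    exact mul_le_mul h1 h2 (norm_nonneg _) ((norm_nonneg _).trans h1)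
  have ad : ∀ {a b : ℂ} {s t : ℝ}, ‖a‖ ≤ s → ‖b‖ ≤ t → ‖a + b‖ ≤ s + t := by
    intro a b s t h1 h2
    exact (norm_add_le _ _).trans (add_le_add h1 h2)
  have off : ∀ {pq rq al bl al' bl' : ℂ}, ‖pq‖ ≤ s2 → ‖rq‖ ≤ t2 → ‖al‖ ≤ s1 → ‖bl‖ ≤ t1 → ‖al'‖ ≤ s1 → ‖bl'‖ ≤ t1 →
      ‖ga.c * rq + gb.c * pq + (al * bl' + al' * bl)‖ ≤ s0 * t2 + t0 * s2 + 2 * (s1 * t1) := by
    intro pq rq al bl al' bl' h1 h2 h3 h4 h5 h6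
    have := ad (ad (m ha0 h2) (m hb0 h1)) (ad (m h3 h6) (m h5 h4))
    linarith
  have dg : ∀ {pq rq al bl : ℂ}, ‖pq‖ ≤ s2 → ‖rq‖ ≤ t2 → ‖al‖ ≤ s1 → ‖bl‖ ≤ t1 →
      ‖ga.c * rq + gb.c * pq + al * bl‖ ≤ s0 * t2 + t0 * s2 + 2 * (s1 * t1) := by
    intro pq rq al bl h1 h2 h3 h4
    have := ad (ad (m ha0 h2) (m hb0 h1)) (m h3 h4)
    have h5 : 0 ≤ s1 * t1 := mul_nonneg a1n b1n
    linarith
  refine ⟨⟨ga.c * gb.c, ga.c * gb.l1 + gb.c * ga.l1, ga.c * gb.l2 + gb.c * ga.l2, ga.c * gb.l3 + gb.c * ga.l3, ga.c * gb.l4 + gb.c * ga.l4⟩, m ha0 hb0,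
    ⟨ad (m ha0 hb1.l1) (m hb0 ha1.l1), ad (m ha0 hb1.l2) (m hb0 ha1.l2), ad (m ha0 hb1.l3) (m hb0 ha1.l3), ad (m ha0 hb1.l4) (m hb0 ha1.l4)⟩,
    ⟨ga.c * pb.q11 + gb.c * pa.q11 + ga.l1 * gb.l1,
    ga.c * pb.q12 + gb.c * pa.q12 + (ga.l1 * gb.l2 + ga.l2 * gb.l1),
    ga.c * pb.q13 + gb.c * pa.q13 + (ga.l1 * gb.l3 + ga.l3 * gb.l1),
    ga.c * pb.q14 + gb.c * pa.q14 + (ga.l1 * gb.l4 + ga.l4 * gb.l1),
    ga.c * pb.q22 + gb.c * pa.q22 + ga.l2 * gb.l2,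
    ga.c * pb.q23 + gb.c * pa.q23 + (ga.l2 * gb.l3 + ga.l3 * gb.l2),
    ga.c * pb.q24 + gb.c * pa.q24 + (ga.l2 * gb.l4 + ga.l4 * gb.l2),
    ga.c * pb.q33 + gb.c * pa.q33 + ga.l3 * gb.l3,
    ga.c * pb.q34 + gb.c * pa.q34 + (ga.l3 * gb.l4 + ga.l4 * gb.l3),
    ga.c * pb.q44 + gb.c * pa.q44 + ga.l4 * gb.l4⟩,
    ⟨dg ha2.q11 hb2.q11 ha1.l1 hb1.l1,
    off ha2.q12 hb2.q12 ha1.l1 hb1.l1 ha1.l2 hb1.l2,
    off ha2.q13 hb2.q13 ha1.l1 hb1.l1 ha1.l3 hb1.l3,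
    off ha2.q14 hb2.q14 ha1.l1 hb1.l1 ha1.l4 hb1.l4,
    dg ha2.q22 hb2.q22 ha1.l2 hb1.l2,
    off ha2.q23 hb2.q23 ha1.l2 hb1.l2 ha1.l3 hb1.l3,
    off ha2.q24 hb2.q24 ha1.l2 hb1.l2 ha1.l4 hb1.l4,
    dg ha2.q33 hb2.q33 ha1.l3 hb1.l3,
    off ha2.q34 hb2.q34 ha1.l3 hb1.l3 ha1.l4 hb1.l4,
    dg ha2.q44 hb2.q44 ha1.l4 hb1.l4⟩,
    fun y hy => ?_⟩
  obtain ⟨da, hda, e⟩ := ha y hy
  obtain ⟨db, hdb, e'⟩ := hb y hy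
  have nA : ‖f y‖ ≤ s0 + 4 * d * s1 + 10 * d ^ 2 * s2 + 20 * d ^ 3 * s3 := by
    rw [e]
    exact ad (ad (ad ha0 (ha1.norm_ev hy)) (ha2.norm_ev hy)) (hda.norm_ev hy)
  have nB : ‖gb.c + gb.ev y + pb.ev y‖ ≤ t0 + 4 * d * t1 + 10 * d ^ 2 * t2 :=
    ad (ad hb0 (hb1.norm_ev hy)) (hb2.norm_ev hy)
  have dt : 0 ≤ d * t2 := mul_nonneg hd b2n
  have n1 : ‖gb.l1 + (pb.q11 * y.y1 + pb.q12 * y.y2 + (pb.q13 * y.y3 + pb.q14 * y.y4))‖ ≤ t1 + 4 * d * t2 := by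
    have := ad hb1.l1 (ad (ad (norm_mul_real_le hb2.q11 hy.h1) (norm_mul_real_le hb2.q12 hy.h2))
      (ad (norm_mul_real_le hb2.q13 hy.h3) (norm_mul_real_le hb2.q14 hy.h4)))
    linarith
  have n2 : ‖gb.l2 + (pb.q22 * y.y2 + (pb.q23 * y.y3 + pb.q24 * y.y4))‖ ≤ t1 + 4 * d * t2 := by
    have := ad hb1.l2 (ad (norm_mul_real_le hb2.q22 hy.h2)
      (ad (norm_mul_real_le hb2.q23 hy.h3) (norm_mul_real_le hb2.q24 hy.h4)))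
    linarith
  have n3 : ‖gb.l3 + (pb.q33 * y.y3 + pb.q34 * y.y4)‖ ≤ t1 + 4 * d * t2 := by
    have := ad hb1.l3 (ad (norm_mul_real_le hb2.q33 hy.h3) (norm_mul_real_le hb2.q34 hy.h4))
    linarith
  have n4 : ‖gb.l4 + pb.q44 * y.y4‖ ≤ t1 + 4 * d * t2 := by
    have := ad hb1.l4 (norm_mul_real_le hb2.q44 hy.h4)
    linarith
  have key : gb.ev y + pb.ev y = (gb.l1 + (pb.q11 * y.y1 + pb.q12 * y.y2 + (pb.q13 * y.y3 + pb.q14 * y.y4))) * y.y1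
      + (gb.l2 + (pb.q22 * y.y2 + (pb.q23 * y.y3 + pb.q24 * y.y4))) * y.y2
      + (gb.l3 + (pb.q33 * y.y3 + pb.q34 * y.y4)) * y.y3 + (gb.l4 + pb.q44 * y.y4) * y.y4 := by
    simp only [Lin.ev, Quad.ev]
    ring
  generalize (gb.l1 + (pb.q11 * y.y1 + pb.q12 * y.y2 + (pb.q13 * y.y3 + pb.q14 * y.y4))) = M1 at n1 key
  generalize (gb.l2 + (pb.q22 * y.y2 + (pb.q23 * y.y3 + pb.q24 * y.y4))) = M2 at n2 key
  generalize (gb.l3 + (pb.q33 * y.y3 + pb.q34 * y.y4)) = M3 at n3 key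
  generalize (gb.l4 + pb.q44 * y.y4) = M4 at n4 key
  have k4 : f y * g y = ga.c * gb.c + (ga.c * gb.ev y + gb.c * ga.ev y)
      + (ga.c * pb.ev y + gb.c * pa.ev y + ga.ev y * gb.ev y)
      + (f y * db.ev y + (gb.c + gb.ev y + pb.ev y) * da.ev y + ga.ev y * pb.ev y
        + pa.ev y * (gb.ev y + pb.ev y)) := by
    rw [e', e]; ring
  rw [key] at k4
  have c1 : ∀ {x x' l qq pp M : ℂ}, ‖x‖ ≤ s3 → ‖x'‖ ≤ t3 → ‖l‖ ≤ s1 → ‖qq‖ ≤ t2 → ‖pp‖ ≤ s2 → ‖M‖ ≤ t1 + 4 * d * t2 →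
      ‖f y * x' + (gb.c + gb.ev y + pb.ev y) * x + (l * qq + pp * M)‖
        ≤ (s0 + 4 * d * s1 + 10 * d ^ 2 * s2 + 20 * d ^ 3 * s3) * t3 + (t0 + 4 * d * t1 + 10 * d ^ 2 * t2) * s3
          + 1 * (s1 * t2 + s2 * (t1 + 4 * d * t2)) := by
    intro x x' l qq pp M h1 h2 h3 h4 h5 h6
    rw [one_mul]
    exact ad (ad (m nA h2) (m nB h1)) (ad (m h3 h4) (m h5 h6))
  have hE : 0 ≤ s1 * t2 + s2 * (t1 + 4 * d * t2) := by positivity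
  have c2 : ∀ {z l qq pp M : ℂ} {c n : ℝ}, ‖z‖ ≤ c + n * (s1 * t2 + s2 * (t1 + 4 * d * t2)) → ‖l‖ ≤ s1 → ‖qq‖ ≤ t2 →
      ‖pp‖ ≤ s2 → ‖M‖ ≤ t1 + 4 * d * t2 →
      ‖z + (l * qq + pp * M)‖ ≤ c + (n + 1) * (s1 * t2 + s2 * (t1 + 4 * d * t2)) := by
    intro z l qq pp M c n h1 h2 h3 h4 h5
    have := ad h1 (ad (m h2 h3) (m h4 h5))
    linarith
  have c3 : ∀ {z : ℂ} {c n : ℝ}, n ≤ 3 → ‖z‖ ≤ c + n * (s1 * t2 + s2 * (t1 + 4 * d * t2)) →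
      ‖z‖ ≤ c + 3 * (s1 * t2 + s2 * (t1 + 4 * d * t2)) := by
    intro z c n hn h1
    have := mul_le_mul_of_nonneg_right hn hE
    linarith
  generalize hF : f y = F at nA k4 c1
  generalize gb.c + gb.ev y + pb.ev y = G at nB k4 c1

  refine ⟨⟨F * db.d111 + G * da.d111 + (ga.l1 * pb.q11 + pa.q11 * M1),
    F * db.d112 + G * da.d112 + (ga.l1 * pb.q12 + pa.q12 * M1) + (ga.l2 * pb.q11 + pa.q11 * M2),
    F * db.d113 + G * da.d113 + (ga.l1 * pb.q13 + pa.q13 * M1) + (ga.l3 * pb.q11 + pa.q11 * M3),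
    F * db.d114 + G * da.d114 + (ga.l1 * pb.q14 + pa.q14 * M1) + (ga.l4 * pb.q11 + pa.q11 * M4),
    F * db.d122 + G * da.d122 + (ga.l1 * pb.q22 + pa.q22 * M1) + (ga.l2 * pb.q12 + pa.q12 * M2),
    F * db.d123 + G * da.d123 + (ga.l1 * pb.q23 + pa.q23 * M1) + (ga.l2 * pb.q13 + pa.q13 * M2) + (ga.l3 * pb.q12 + pa.q12 * M3),
    F * db.d124 + G * da.d124 + (ga.l1 * pb.q24 + pa.q24 * M1) + (ga.l2 * pb.q14 + pa.q14 * M2) + (ga.l4 * pb.q12 + pa.q12 * M4),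
    F * db.d133 + G * da.d133 + (ga.l1 * pb.q33 + pa.q33 * M1) + (ga.l3 * pb.q13 + pa.q13 * M3),
    F * db.d134 + G * da.d134 + (ga.l1 * pb.q34 + pa.q34 * M1) + (ga.l3 * pb.q14 + pa.q14 * M3) + (ga.l4 * pb.q13 + pa.q13 * M4),
    F * db.d144 + G * da.d144 + (ga.l1 * pb.q44 + pa.q44 * M1) + (ga.l4 * pb.q14 + pa.q14 * M4),
    F * db.d222 + G * da.d222 + (ga.l2 * pb.q22 + pa.q22 * M2),
    F * db.d223 + G * da.d223 + (ga.l2 * pb.q23 + pa.q23 * M2) + (ga.l3 * pb.q22 + pa.q22 * M3),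
    F * db.d224 + G * da.d224 + (ga.l2 * pb.q24 + pa.q24 * M2) + (ga.l4 * pb.q22 + pa.q22 * M4),
    F * db.d233 + G * da.d233 + (ga.l2 * pb.q33 + pa.q33 * M2) + (ga.l3 * pb.q23 + pa.q23 * M3),
    F * db.d234 + G * da.d234 + (ga.l2 * pb.q34 + pa.q34 * M2) + (ga.l3 * pb.q24 + pa.q24 * M3) + (ga.l4 * pb.q23 + pa.q23 * M4),
    F * db.d244 + G * da.d244 + (ga.l2 * pb.q44 + pa.q44 * M2) + (ga.l4 * pb.q24 + pa.q24 * M4),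
    F * db.d333 + G * da.d333 + (ga.l3 * pb.q33 + pa.q33 * M3),
    F * db.d334 + G * da.d334 + (ga.l3 * pb.q34 + pa.q34 * M3) + (ga.l4 * pb.q33 + pa.q33 * M4),
    F * db.d344 + G * da.d344 + (ga.l3 * pb.q44 + pa.q44 * M3) + (ga.l4 * pb.q34 + pa.q34 * M4),
    F * db.d444 + G * da.d444 + (ga.l4 * pb.q44 + pa.q44 * M4)⟩,
    ⟨c3 (by norm_num) (c1 hda.d111 hdb.d111 ha1.l1 hb2.q11 ha2.q11 n1),
    c3 (by norm_num) (c2 (c1 hda.d112 hdb.d112 ha1.l1 hb2.q12 ha2.q12 n1) ha1.l2 hb2.q11 ha2.q11 n2),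
    c3 (by norm_num) (c2 (c1 hda.d113 hdb.d113 ha1.l1 hb2.q13 ha2.q13 n1) ha1.l3 hb2.q11 ha2.q11 n3),
    c3 (by norm_num) (c2 (c1 hda.d114 hdb.d114 ha1.l1 hb2.q14 ha2.q14 n1) ha1.l4 hb2.q11 ha2.q11 n4),
    c3 (by norm_num) (c2 (c1 hda.d122 hdb.d122 ha1.l1 hb2.q22 ha2.q22 n1) ha1.l2 hb2.q12 ha2.q12 n2),
    c3 (by norm_num) (c2 (c2 (c1 hda.d123 hdb.d123 ha1.l1 hb2.q23 ha2.q23 n1) ha1.l2 hb2.q13 ha2.q13 n2) ha1.l3 hb2.q12 ha2.q12 n3),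
    c3 (by norm_num) (c2 (c2 (c1 hda.d124 hdb.d124 ha1.l1 hb2.q24 ha2.q24 n1) ha1.l2 hb2.q14 ha2.q14 n2) ha1.l4 hb2.q12 ha2.q12 n4),
    c3 (by norm_num) (c2 (c1 hda.d133 hdb.d133 ha1.l1 hb2.q33 ha2.q33 n1) ha1.l3 hb2.q13 ha2.q13 n3),
    c3 (by norm_num) (c2 (c2 (c1 hda.d134 hdb.d134 ha1.l1 hb2.q34 ha2.q34 n1) ha1.l3 hb2.q14 ha2.q14 n3) ha1.l4 hb2.q13 ha2.q13 n4),
    c3 (by norm_num) (c2 (c1 hda.d144 hdb.d144 ha1.l1 hb2.q44 ha2.q44 n1) ha1.l4 hb2.q14 ha2.q14 n4),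
    c3 (by norm_num) (c1 hda.d222 hdb.d222 ha1.l2 hb2.q22 ha2.q22 n2),
    c3 (by norm_num) (c2 (c1 hda.d223 hdb.d223 ha1.l2 hb2.q23 ha2.q23 n2) ha1.l3 hb2.q22 ha2.q22 n3),
    c3 (by norm_num) (c2 (c1 hda.d224 hdb.d224 ha1.l2 hb2.q24 ha2.q24 n2) ha1.l4 hb2.q22 ha2.q22 n4),
    c3 (by norm_num) (c2 (c1 hda.d233 hdb.d233 ha1.l2 hb2.q33 ha2.q33 n2) ha1.l3 hb2.q23 ha2.q23 n3),
    c3 (by norm_num) (c2 (c2 (c1 hda.d234 hdb.d234 ha1.l2 hb2.q34 ha2.q34 n2) ha1.l3 hb2.q24 ha2.q24 n3) ha1.l4 hb2.q23 ha2.q23 n4),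
    c3 (by norm_num) (c2 (c1 hda.d244 hdb.d244 ha1.l2 hb2.q44 ha2.q44 n2) ha1.l4 hb2.q24 ha2.q24 n4),
    c3 (by norm_num) (c1 hda.d333 hdb.d333 ha1.l3 hb2.q33 ha2.q33 n3),
    c3 (by norm_num) (c2 (c1 hda.d334 hdb.d334 ha1.l3 hb2.q34 ha2.q34 n3) ha1.l4 hb2.q33 ha2.q33 n4),
    c3 (by norm_num) (c2 (c1 hda.d344 hdb.d344 ha1.l3 hb2.q44 ha2.q44 n3) ha1.l4 hb2.q34 ha2.q34 n4),
    c3 (by norm_num) (c1 hda.d444 hdb.d444 ha1.l4 hb2.q44 ha2.q44 n4)⟩, ?_⟩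
  show f y * g y = _
  rw [hF, k4]
  simp only [Lin.ev, Quad.ev, Cub.ev]
  ring

theorem NB.mul {X d M N : ℝ} (hd : 0 ≤ d) (hX : 8 * d ≤ X) {f g : Pt → ℂ} (hf : NB X d f M) (hg : NB X d g N) :
    NB X d (fun y => f y * g y) (M * N) := by
  obtain ⟨s0, s1, s2, s3, hs, hf⟩ := hf
  obtain ⟨t0, t1, t2, t3, ht, hg⟩ := hg
  obtain ⟨a0, a1, a2, a3⟩ := hf.nonneg hd
  obtain ⟨b0, b1, b2, b3⟩ := hg.nonneg hd
  refine ⟨_, _, _, _, ?_, hf.mul hd hg⟩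
  have hX0 : 0 ≤ X := by linarith
  have h1 : (s0 + X * s1 + X ^ 2 / 2 * s2 + X ^ 3 / 6 * s3) * (t0 + X * t1 + X ^ 2 / 2 * t2 + X ^ 3 / 6 * t3) ≤ M * N :=
    mul_le_mul hs ht (by positivity) ((by positivity : 0 ≤ s0 + X * s1 + X ^ 2 / 2 * s2 + X ^ 3 / 6 * s3).trans hs)
  refine le_trans ?_ h1
  have e : (s0 + X * s1 + X ^ 2 / 2 * s2 + X ^ 3 / 6 * s3) * (t0 + X * t1 + X ^ 2 / 2 * t2 + X ^ 3 / 6 * t3) -
      (s0 * t0 + X * (s0 * t1 + t0 * s1) + X ^ 2 / 2 * (s0 * t2 + t0 * s2 + 2 * (s1 * t1)) + X ^ 3 / 6 *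
        ((s0 + 4 * d * s1 + 10 * d ^ 2 * s2 + 20 * d ^ 3 * s3) * t3 + (t0 + 4 * d * t1 + 10 * d ^ 2 * t2) * s3
        + 3 * (s1 * t2 + s2 * (t1 + 4 * d * t2)))) =
      X ^ 3 * ((X - 4 * d) / 6 * (s1 * t3) + (X - 4 * d) / 6 * (t1 * s3) + (X - 8 * d) / 4 * (s2 * t2)
        + (X ^ 2 - 20 * d ^ 2) / 12 * (s2 * t3 + s3 * t2) + (X ^ 3 - 120 * d ^ 3) / 36 * (s3 * t3)) := by
    ring
  have h2 : 0 ≤ X - 4 * d := by linarith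
  have h3 : 0 ≤ X - 8 * d := by linarith
  have h4 : 0 ≤ X ^ 2 - 20 * d ^ 2 := by nlinarith
  have h5 : 0 ≤ X ^ 3 - 120 * d ^ 3 := by
    have h6 : (8 * d) ^ 3 ≤ X ^ 3 := pow_le_pow_left₀ (by linarith) hX 3
    have h7 : 0 ≤ d ^ 3 := by positivity
    nlinarith
  have h6 : 0 ≤ X ^ 3 * ((X - 4 * d) / 6 * (s1 * t3) + (X - 4 * d) / 6 * (t1 * s3) + (X - 8 * d) / 4 * (s2 * t2)
        + (X ^ 2 - 20 * d ^ 2) / 12 * (s2 * t3 + s3 * t2) + (X ^ 3 - 120 * d ^ 3) / 36 * (s3 * t3)) := by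
    positivity
  linarith

theorem NB.mono {X d M N : ℝ} {f : Pt → ℂ} (hf : NB X d f M) (h : M ≤ N) : NB X d f N := by
  obtain ⟨s0, s1, s2, s3, hs, hf⟩ := hf
  exact ⟨s0, s1, s2, s3, hs.trans h, hf⟩

theorem NB.nonneg {X d M : ℝ} (hd : 0 ≤ d) (hX : 0 ≤ X) {f : Pt → ℂ} (hf : NB X d f M) : 0 ≤ M := by
  obtain ⟨s0, s1, s2, s3, hs, hf⟩ := hf
  obtain ⟨a0, a1, a2, a3⟩ := hf.nonneg hd
  have : 0 ≤ s0 + X * s1 + X ^ 2 / 2 * s2 + X ^ 3 / 6 * s3 := by positivity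
  exact this.trans hs

theorem NB.congr {X d M : ℝ} {f g : Pt → ℂ} (hf : NB X d f M) (h : ∀ y, Box4 d y → g y = f y) : NB X d g M := by
  obtain ⟨s0, s1, s2, s3, hs, gh, h0, h1, q, h2, h3⟩ := hf
  refine ⟨s0, s1, s2, s3, hs, gh, h0, h1, q, h2, fun y hy => ?_⟩
  rw [h y hy]
  exact h3 y hy

theorem NB.const {X d : ℝ} (z : ℂ) : NB X d (fun _ => z) ‖z‖ := by
  have o : ‖(0 : ℂ)‖ ≤ 0 := by simp
  refine ⟨‖z‖, 0, 0, 0, by simp, ⟨z, 0, 0, 0, 0⟩, le_rfl, ⟨o, o, o, o⟩, ⟨0, 0, 0, 0, 0, 0,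
   0, 0, 0, 0⟩,
    ⟨o, o, o, o, o, o,
   o, o, o, o⟩, fun y _ => ?_⟩
  exact ⟨⟨0, 0, 0, 0, 0, 0,
   0, 0, 0, 0, 0, 0,
   0, 0, 0, 0, 0, 0,
   0, 0⟩,
    ⟨o, o, o, o, o, o,
   o, o, o, o, o, o,
   o, o, o, o, o, o,
   o, o⟩, by simp [Lin.ev, Quad.ev, Cub.ev]⟩

/-- affine functions -/
theorem NB.affine {X d s : ℝ} {c l1 l2 l3 l4 : ℂ} (h1 : ‖l1‖ ≤ s) (h2 : ‖l2‖ ≤ s) (h3 : ‖l3‖ ≤ s)
    (h4 : ‖l4‖ ≤ s) : NB X d (fun y => c + l1 * y.y1 + l2 * y.y2 + l3 * y.y3 + l4 * y.y4) (‖c‖ + X * s) := by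
  have o : ‖(0 : ℂ)‖ ≤ 0 := by simp
  refine ⟨‖c‖, s, 0, 0, by simp, ⟨c, l1, l2, l3, l4⟩, le_rfl, ⟨h1, h2, h3, h4⟩, ⟨0, 0, 0, 0, 0, 0,
   0, 0, 0, 0⟩,
    ⟨o, o, o, o, o, o,
   o, o, o, o⟩, fun y _ => ?_⟩
  exact ⟨⟨0, 0, 0, 0, 0, 0,
   0, 0, 0, 0, 0, 0,
   0, 0, 0, 0, 0, 0,
   0, 0⟩,
    ⟨o, o, o, o, o, o,
   o, o, o, o, o, o,
   o, o, o, o, o, o,
   o, o⟩, by simp [Lin.ev, Quad.ev, Cub.ev]; ring⟩

theorem NB.conj {X d N : ℝ} {f : Pt → ℂ} (hf : NB X d f N) : NB X d (fun y => conj (f y)) N := by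
  obtain ⟨s0, s1, s2, s3, hs, g, h0, h1, q, h2, h3⟩ := hf
  have n : ∀ {z : ℂ} {s : ℝ}, ‖z‖ ≤ s → ‖conj z‖ ≤ s := by
    intro z s h
    rwa [RCLike.norm_conj]
  refine ⟨s0, s1, s2, s3, hs, ⟨conj g.c, conj g.l1, conj g.l2, conj g.l3, conj g.l4⟩, n h0, ⟨n h1.l1, n h1.l2, n h1.l3, n h1.l4⟩,
    ⟨conj q.q11, conj q.q12, conj q.q13, conj q.q14, conj q.q22, conj q.q23,
   conj q.q24, conj q.q33, conj q.q34, conj q.q44⟩,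
    ⟨n h2.q11, n h2.q12, n h2.q13, n h2.q14, n h2.q22, n h2.q23,
   n h2.q24, n h2.q33, n h2.q34, n h2.q44⟩, fun y hy => ?_⟩
  obtain ⟨k, hk, e⟩ := h3 y hy
  refine ⟨⟨conj k.d111, conj k.d112, conj k.d113, conj k.d114, conj k.d122, conj k.d123,
   conj k.d124, conj k.d133, conj k.d134, conj k.d144, conj k.d222, conj k.d223,
   conj k.d224, conj k.d233, conj k.d234, conj k.d244, conj k.d333, conj k.d334,
   conj k.d344, conj k.d444⟩,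
    ⟨n hk.d111, n hk.d112, n hk.d113, n hk.d114, n hk.d122, n hk.d123,
   n hk.d124, n hk.d133, n hk.d134, n hk.d144, n hk.d222, n hk.d223,
   n hk.d224, n hk.d233, n hk.d234, n hk.d244, n hk.d333, n hk.d334,
   n hk.d344, n hk.d444⟩, ?_⟩
  simp only [e, Lin.ev, Quad.ev, Cub.ev, map_add, map_mul, Complex.conj_ofReal]

theorem NB.add {X d M N : ℝ} {f g : Pt → ℂ} (hf : NB X d f M) (hg : NB X d g N) :
    NB X d (fun y => f y + g y) (M + N) := by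
  obtain ⟨s0, s1, s2, s3, hs, g, h0, h1, q, h2, h3⟩ := hf
  obtain ⟨t0, t1, t2, t3, ht, g', h0', h1', q', h2', h3'⟩ := hg
  have ad : ∀ {a b : ℂ} {s t : ℝ}, ‖a‖ ≤ s → ‖b‖ ≤ t → ‖a + b‖ ≤ s + t := by
    intro a b s t h1 h2
    exact (norm_add_le _ _).trans (add_le_add h1 h2)
  refine ⟨s0 + t0, s1 + t1, s2 + t2, s3 + t3, by linarith, ⟨g.c + g'.c, g.l1 + g'.l1, g.l2 + g'.l2, g.l3 + g'.l3, g.l4 + g'.l4⟩, ad h0 h0', ⟨ad h1.l1 h1'.l1, ad h1.l2 h1'.l2, ad h1.l3 h1'.l3, ad h1.l4 h1'.l4⟩,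
    ⟨q.q11 + q'.q11, q.q12 + q'.q12, q.q13 + q'.q13, q.q14 + q'.q14, q.q22 + q'.q22, q.q23 + q'.q23,
   q.q24 + q'.q24, q.q33 + q'.q33, q.q34 + q'.q34, q.q44 + q'.q44⟩,
    ⟨ad h2.q11 h2'.q11, ad h2.q12 h2'.q12, ad h2.q13 h2'.q13, ad h2.q14 h2'.q14, ad h2.q22 h2'.q22, ad h2.q23 h2'.q23,
   ad h2.q24 h2'.q24, ad h2.q33 h2'.q33, ad h2.q34 h2'.q34, ad h2.q44 h2'.q44⟩, fun y hy => ?_⟩
  obtain ⟨k, hk, e⟩ := h3 y hy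
  obtain ⟨k', hk', e'⟩ := h3' y hy
  refine ⟨⟨k.d111 + k'.d111, k.d112 + k'.d112, k.d113 + k'.d113, k.d114 + k'.d114, k.d122 + k'.d122, k.d123 + k'.d123,
   k.d124 + k'.d124, k.d133 + k'.d133, k.d134 + k'.d134, k.d144 + k'.d144, k.d222 + k'.d222, k.d223 + k'.d223,
   k.d224 + k'.d224, k.d233 + k'.d233, k.d234 + k'.d234, k.d244 + k'.d244, k.d333 + k'.d333, k.d334 + k'.d334,
   k.d344 + k'.d344, k.d444 + k'.d444⟩,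
    ⟨ad hk.d111 hk'.d111, ad hk.d112 hk'.d112, ad hk.d113 hk'.d113, ad hk.d114 hk'.d114, ad hk.d122 hk'.d122, ad hk.d123 hk'.d123,
   ad hk.d124 hk'.d124, ad hk.d133 hk'.d133, ad hk.d134 hk'.d134, ad hk.d144 hk'.d144, ad hk.d222 hk'.d222, ad hk.d223 hk'.d223,
   ad hk.d224 hk'.d224, ad hk.d233 hk'.d233, ad hk.d234 hk'.d234, ad hk.d244 hk'.d244, ad hk.d333 hk'.d333, ad hk.d334 hk'.d334,
   ad hk.d344 hk'.d344, ad hk.d444 hk'.d444⟩, ?_⟩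
  simp only [e, e', Lin.ev, Quad.ev, Cub.ev]
  ring

theorem NB.pow {X d M : ℝ} (hd : 0 ≤ d) (hX : 8 * d ≤ X) {f : Pt → ℂ} (hf : NB X d f M) (n : ℕ) :
    NB X d (fun y => f y ^ n) (M ^ n) := by
  induction n with
  | zero =>
    have := NB.const (X := X) (d := d) 1
    simpa using this
  | succ n ih =>
    have := ih.mul hd hX hf
    simpa only [pow_succ] using this

/-- the exponential -/
theorem NB.exp {X d T : ℝ} (hX : 0 ≤ X) (hXT : X * T ≤ 1) {t1 t2 t3 t4 : ℝ} (h1 : |t1| ≤ T) (h2 : |t2| ≤ T)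
    (h3 : |t3| ≤ T) (h4 : |t4| ≤ T) (hd : 4 * d * T ≤ 1) :
    NB X d (fun y => Complex.exp (Complex.I * (TM.ang t1 t2 t3 t4 y : ℝ))) (1 + X * T + (X * T) ^ 2) := by
  have hT : 0 ≤ T := (abs_nonneg _).trans h1
  have hr : ∀ {t : ℝ}, |t| ≤ T → ‖(t : ℂ)‖ ≤ T := by
    intro t h
    rwa [Complex.norm_real, Real.norm_eq_abs]
  have m : ∀ {a b : ℂ} {s t : ℝ}, ‖a‖ ≤ s → ‖b‖ ≤ t → ‖a * b‖ ≤ s * t := by
    intro a b s t h1 h2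
    rw [norm_mul]
    exact mul_le_mul h1 h2 (norm_nonneg _) ((norm_nonneg _).trans h1)
  have hI : ‖Complex.I‖ ≤ 1 := by rw [Complex.norm_I]
  have hl : ∀ {t : ℝ}, |t| ≤ T → ‖Complex.I * (t : ℂ)‖ ≤ T := by
    intro t h
    have := m hI (hr h)
    rwa [one_mul] at this
  have hh : ‖(-1 / 2 : ℂ)‖ ≤ 1 / 2 := by
    rw [norm_div, norm_neg]
    simp
  have hq1 : ∀ {s : ℝ}, |s| ≤ T → ‖(-1 / 2 : ℂ) * ((s : ℂ) * (s : ℂ))‖ ≤ T ^ 2 := by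
    intro s hs
    have := m hh (m (hr hs) (hr hs))
    nlinarith [mul_nonneg hT hT]
  have hq2 : ∀ {s t : ℝ}, |s| ≤ T → |t| ≤ T → ‖(2 : ℂ) * ((-1 / 2 : ℂ) * ((s : ℂ) * (t : ℂ)))‖ ≤ T ^ 2 := by
    intro s t hs ht
    have h2 : ‖(2 : ℂ)‖ ≤ 2 := by simp
    have := m h2 (m hh (m (hr hs) (hr ht)))
    nlinarith
  refine ⟨1, T, T ^ 2, 3 / 2 * T ^ 3, ?_, ⟨1, Complex.I * (t1 : ℂ), Complex.I * (t2 : ℂ), Complex.I * (t3 : ℂ),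
    Complex.I * (t4 : ℂ)⟩, by simp, ⟨hl h1, hl h2, hl h3, hl h4⟩,
    ⟨-1 / 2 * ((t1 : ℂ) * (t1 : ℂ)),
      2 * (-1 / 2 * ((t1 : ℂ) * (t2 : ℂ))),
      2 * (-1 / 2 * ((t1 : ℂ) * (t3 : ℂ))),
      2 * (-1 / 2 * ((t1 : ℂ) * (t4 : ℂ))),
      -1 / 2 * ((t2 : ℂ) * (t2 : ℂ)),
      2 * (-1 / 2 * ((t2 : ℂ) * (t3 : ℂ))),
      2 * (-1 / 2 * ((t2 : ℂ) * (t4 : ℂ))),
      -1 / 2 * ((t3 : ℂ) * (t3 : ℂ)),
      2 * (-1 / 2 * ((t3 : ℂ) * (t4 : ℂ))),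
      -1 / 2 * ((t4 : ℂ) * (t4 : ℂ))⟩,
    ⟨hq1 h1, hq2 h1 h2, hq2 h1 h3, hq2 h1 h4, hq1 h2, hq2 h2 h3, hq2 h2 h4, hq1 h3, hq2 h3 h4, hq1 h4⟩,
    fun y hy => ?_⟩
  · have h5 : 0 ≤ X * T := mul_nonneg hX hT
    have e : 1 + X * T + X ^ 2 / 2 * T ^ 2 + X ^ 3 / 6 * (3 / 2 * T ^ 3)
        = 1 + X * T + (X * T) ^ 2 / 2 + (X * T) ^ 2 * (X * T) / 4 := by ring
    rw [e]
    nlinarith [mul_nonneg (sq_nonneg (X * T)) (sub_nonneg.2 hXT), sq_nonneg (X * T)]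
  · have hang : |TM.ang t1 t2 t3 t4 y| ≤ 1 := by
      have b : ∀ {t s : ℝ}, |t| ≤ T → |s| ≤ d → |t * s| ≤ T * d := by
        intro t s ht hs
        rw [abs_mul]
        exact mul_le_mul ht hs (abs_nonneg _) hT
      have g1 := b h1 hy.h1
      have g2 := b h2 hy.h2
      have g3 := b h3 hy.h3
      have g4 := b h4 hy.h4
      have h6 : |TM.ang t1 t2 t3 t4 y| ≤ |t1 * y.y1| + |t2 * y.y2| + |t3 * y.y3| + |t4 * y.y4| := by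
        unfold TM.ang
        exact (abs_add_le _ _).trans (add_le_add ((abs_add_le _ _).trans
          (add_le_add (abs_add_le _ _) le_rfl)) le_rfl)
      linarith
    obtain ⟨κ, hκ, e⟩ := TM.exp_kappa hang
    have hκ' : ‖κ‖ ≤ 1 / 4 := by
      have h6 : ‖(-Complex.I / 6 : ℂ)‖ = 1 / 6 := by
        rw [norm_div, norm_neg, Complex.norm_I]
        simp
      have h7 : ‖κ‖ ≤ ‖κ - (-Complex.I / 6 : ℂ)‖ + ‖(-Complex.I / 6 : ℂ)‖ := by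
        calc ‖κ‖ = ‖(κ - (-Complex.I / 6 : ℂ)) + (-Complex.I / 6 : ℂ)‖ := by ring_nf
          _ ≤ _ := norm_add_le _ _
      rw [h6] at h7
      have h8 : 5 / 96 * |TM.ang t1 t2 t3 t4 y| ≤ 5 / 96 := by linarith
      linarith
    have hk : ∀ {n : ℂ} {r s t : ℝ}, ‖n‖ ≤ 6 → |r| ≤ T → |s| ≤ T → |t| ≤ T →
        ‖n * (κ * ((r : ℂ) * (s : ℂ) * (t : ℂ)))‖ ≤ 3 / 2 * T ^ 3 := by
      intro n r s t hn hr' hs ht
      have := m hn (m hκ' (m (m (hr hr') (hr hs)) (hr ht)))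
      nlinarith
    refine ⟨⟨1 * (κ * ((t1 : ℂ) * (t1 : ℂ) * (t1 : ℂ))),
      3 * (κ * ((t1 : ℂ) * (t1 : ℂ) * (t2 : ℂ))),
      3 * (κ * ((t1 : ℂ) * (t1 : ℂ) * (t3 : ℂ))),
      3 * (κ * ((t1 : ℂ) * (t1 : ℂ) * (t4 : ℂ))),
      3 * (κ * ((t1 : ℂ) * (t2 : ℂ) * (t2 : ℂ))),
      6 * (κ * ((t1 : ℂ) * (t2 : ℂ) * (t3 : ℂ))),
      6 * (κ * ((t1 : ℂ) * (t2 : ℂ) * (t4 : ℂ))),
      3 * (κ * ((t1 : ℂ) * (t3 : ℂ) * (t3 : ℂ))),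
      6 * (κ * ((t1 : ℂ) * (t3 : ℂ) * (t4 : ℂ))),
      3 * (κ * ((t1 : ℂ) * (t4 : ℂ) * (t4 : ℂ))),
      1 * (κ * ((t2 : ℂ) * (t2 : ℂ) * (t2 : ℂ))),
      3 * (κ * ((t2 : ℂ) * (t2 : ℂ) * (t3 : ℂ))),
      3 * (κ * ((t2 : ℂ) * (t2 : ℂ) * (t4 : ℂ))),
      3 * (κ * ((t2 : ℂ) * (t3 : ℂ) * (t3 : ℂ))),
      6 * (κ * ((t2 : ℂ) * (t3 : ℂ) * (t4 : ℂ))),
      3 * (κ * ((t2 : ℂ) * (t4 : ℂ) * (t4 : ℂ))),
      1 * (κ * ((t3 : ℂ) * (t3 : ℂ) * (t3 : ℂ))),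
      3 * (κ * ((t3 : ℂ) * (t3 : ℂ) * (t4 : ℂ))),
      3 * (κ * ((t3 : ℂ) * (t4 : ℂ) * (t4 : ℂ))),
      1 * (κ * ((t4 : ℂ) * (t4 : ℂ) * (t4 : ℂ)))⟩,
      ⟨hk (by simp; try norm_num) h1 h1 h1,
      hk (by simp; try norm_num) h1 h1 h2,
      hk (by simp; try norm_num) h1 h1 h3,
      hk (by simp; try norm_num) h1 h1 h4,
      hk (by simp; try norm_num) h1 h2 h2,
      hk (by simp; try norm_num) h1 h2 h3,
      hk (by simp; try norm_num) h1 h2 h4,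
      hk (by simp; try norm_num) h1 h3 h3,
      hk (by simp; try norm_num) h1 h3 h4,
      hk (by simp; try norm_num) h1 h4 h4,
      hk (by simp; try norm_num) h2 h2 h2,
      hk (by simp; try norm_num) h2 h2 h3,
      hk (by simp; try norm_num) h2 h2 h4,
      hk (by simp; try norm_num) h2 h3 h3,
      hk (by simp; try norm_num) h2 h3 h4,
      hk (by simp; try norm_num) h2 h4 h4,
      hk (by simp; try norm_num) h3 h3 h3,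
      hk (by simp; try norm_num) h3 h3 h4,
      hk (by simp; try norm_num) h3 h4 h4,
      hk (by simp; try norm_num) h4 h4 h4⟩, ?_⟩
    beta_reduce
    rw [e]
    simp only [Lin.ev, Quad.ev, Cub.ev, TM.ang]
    push_cast
    ring


theorem NB.tsum {X d N : ℝ} (hd : 0 ≤ d) (hX : 0 < X) {f : ℕ → Pt → ℂ} {M : ℕ → ℝ}
    (hf : ∀ n, NB X d (f n) (M n)) (hM : Summable M) (hN : ∑' n, M n ≤ N) :
    NB X d (fun y => ∑' n, f n y) N ∧ ∀ y, Box4 d y → Summable fun n => f n y := by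
  choose s0 s1 s2 s3 hs hsz using hf
  have a0 : ∀ n, 0 ≤ s0 n := fun n => ((hsz n).nonneg hd).1
  have a1 : ∀ n, 0 ≤ s1 n := fun n => ((hsz n).nonneg hd).2.1
  have a2 : ∀ n, 0 ≤ s2 n := fun n => ((hsz n).nonneg hd).2.2.1
  have a3 : ∀ n, 0 ≤ s3 n := fun n => ((hsz n).nonneg hd).2.2.2
  choose g g0 g1 h h2 g2 using hsz
  have b1 : ∀ n, 0 ≤ X * s1 n := fun n => mul_nonneg hX.le (a1 n)
  have b2 : ∀ n, 0 ≤ X ^ 2 / 2 * s2 n := fun n => mul_nonneg (by positivity) (a2 n)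
  have b3 : ∀ n, 0 ≤ X ^ 3 / 6 * s3 n := fun n => mul_nonneg (by positivity) (a3 n)
  have S0 : Summable s0 := Summable.of_nonneg_of_le a0 (fun n => by
    have h1 := hs n
    linarith [b1 n, b2 n, b3 n]) hM
  have S1 : Summable s1 := Summable.of_nonneg_of_le a1 (fun n => by
    have h1 := hs n
    have h4 : X * s1 n ≤ M n := by linarith [a0 n, b2 n, b3 n]
    show s1 n ≤ X⁻¹ * M n
    rw [inv_mul_eq_div, le_div_iff₀ hX]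
    linarith) (hM.mul_left X⁻¹)
  have S2 : Summable s2 := Summable.of_nonneg_of_le a2 (fun n => by
    have h1 := hs n
    have h4 : X ^ 2 / 2 * s2 n ≤ M n := by linarith [a0 n, b1 n, b3 n]
    show s2 n ≤ (X ^ 2 / 2)⁻¹ * M n
    rw [inv_mul_eq_div, le_div_iff₀ (by positivity)]
    linarith) (hM.mul_left (X ^ 2 / 2)⁻¹)
  have S3 : Summable s3 := Summable.of_nonneg_of_le a3 (fun n => by
    have h1 := hs n
    have h4 : X ^ 3 / 6 * s3 n ≤ M n := by linarith [a0 n, b1 n, b2 n]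
    show s3 n ≤ (X ^ 3 / 6)⁻¹ * M n
    rw [inv_mul_eq_div, le_div_iff₀ (by positivity)]
    linarith) (hM.mul_left (X ^ 3 / 6)⁻¹)
  have C0 : Summable fun n => (g n).c := Summable.of_norm_bounded S0 g0

  have C1 : Summable fun n => (g n).l1 := Summable.of_norm_bounded S1 fun n => (g1 n).l1
  have C2 : Summable fun n => (g n).l2 := Summable.of_norm_bounded S1 fun n => (g1 n).l2
  have C3 : Summable fun n => (g n).l3 := Summable.of_norm_bounded S1 fun n => (g1 n).l3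
  have C4 : Summable fun n => (g n).l4 := Summable.of_norm_bounded S1 fun n => (g1 n).l4
  have Dq11 : Summable fun n => (h n).q11 := Summable.of_norm_bounded S2 fun n => (h2 n).q11
  have Dq12 : Summable fun n => (h n).q12 := Summable.of_norm_bounded S2 fun n => (h2 n).q12
  have Dq13 : Summable fun n => (h n).q13 := Summable.of_norm_bounded S2 fun n => (h2 n).q13
  have Dq14 : Summable fun n => (h n).q14 := Summable.of_norm_bounded S2 fun n => (h2 n).q14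
  have Dq22 : Summable fun n => (h n).q22 := Summable.of_norm_bounded S2 fun n => (h2 n).q22
  have Dq23 : Summable fun n => (h n).q23 := Summable.of_norm_bounded S2 fun n => (h2 n).q23
  have Dq24 : Summable fun n => (h n).q24 := Summable.of_norm_bounded S2 fun n => (h2 n).q24
  have Dq33 : Summable fun n => (h n).q33 := Summable.of_norm_bounded S2 fun n => (h2 n).q33
  have Dq34 : Summable fun n => (h n).q34 := Summable.of_norm_bounded S2 fun n => (h2 n).q34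
  have Dq44 : Summable fun n => (h n).q44 := Summable.of_norm_bounded S2 fun n => (h2 n).q44
  have main : ∀ y, Box4 d y → ∃ k : Cub, k.Bd (∑' n, s3 n) ∧
      HasSum (fun n => f n y) ((∑' n, (g n).c) + (Lin.ev ⟨∑' n, (g n).c, ∑' n, (g n).l1, ∑' n, (g n).l2, ∑' n, (g n).l3, ∑' n, (g n).l4⟩ y)
        + (Quad.ev ⟨∑' n, (h n).q11, ∑' n, (h n).q12, ∑' n, (h n).q13, ∑' n, (h n).q14, ∑' n, (h n).q22, ∑' n, (h n).q23,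
   ∑' n, (h n).q24, ∑' n, (h n).q33, ∑' n, (h n).q34, ∑' n, (h n).q44⟩ y) + k.ev y) := by
    intro y hy
    choose k hk1 hk2 using fun n => g2 n y hy

    have Ed111 : Summable fun n => (k n).d111 := Summable.of_norm_bounded S3 fun n => (hk1 n).d111
    have Ed112 : Summable fun n => (k n).d112 := Summable.of_norm_bounded S3 fun n => (hk1 n).d112
    have Ed113 : Summable fun n => (k n).d113 := Summable.of_norm_bounded S3 fun n => (hk1 n).d113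
    have Ed114 : Summable fun n => (k n).d114 := Summable.of_norm_bounded S3 fun n => (hk1 n).d114
    have Ed122 : Summable fun n => (k n).d122 := Summable.of_norm_bounded S3 fun n => (hk1 n).d122
    have Ed123 : Summable fun n => (k n).d123 := Summable.of_norm_bounded S3 fun n => (hk1 n).d123
    have Ed124 : Summable fun n => (k n).d124 := Summable.of_norm_bounded S3 fun n => (hk1 n).d124
    have Ed133 : Summable fun n => (k n).d133 := Summable.of_norm_bounded S3 fun n => (hk1 n).d133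
    have Ed134 : Summable fun n => (k n).d134 := Summable.of_norm_bounded S3 fun n => (hk1 n).d134
    have Ed144 : Summable fun n => (k n).d144 := Summable.of_norm_bounded S3 fun n => (hk1 n).d144
    have Ed222 : Summable fun n => (k n).d222 := Summable.of_norm_bounded S3 fun n => (hk1 n).d222
    have Ed223 : Summable fun n => (k n).d223 := Summable.of_norm_bounded S3 fun n => (hk1 n).d223
    have Ed224 : Summable fun n => (k n).d224 := Summable.of_norm_bounded S3 fun n => (hk1 n).d224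
    have Ed233 : Summable fun n => (k n).d233 := Summable.of_norm_bounded S3 fun n => (hk1 n).d233
    have Ed234 : Summable fun n => (k n).d234 := Summable.of_norm_bounded S3 fun n => (hk1 n).d234
    have Ed244 : Summable fun n => (k n).d244 := Summable.of_norm_bounded S3 fun n => (hk1 n).d244
    have Ed333 : Summable fun n => (k n).d333 := Summable.of_norm_bounded S3 fun n => (hk1 n).d333
    have Ed334 : Summable fun n => (k n).d334 := Summable.of_norm_bounded S3 fun n => (hk1 n).d334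
    have Ed344 : Summable fun n => (k n).d344 := Summable.of_norm_bounded S3 fun n => (hk1 n).d344
    have Ed444 : Summable fun n => (k n).d444 := Summable.of_norm_bounded S3 fun n => (hk1 n).d444
    refine ⟨⟨∑' n, (k n).d111, ∑' n, (k n).d112, ∑' n, (k n).d113, ∑' n, (k n).d114, ∑' n, (k n).d122, ∑' n, (k n).d123,
   ∑' n, (k n).d124, ∑' n, (k n).d133, ∑' n, (k n).d134, ∑' n, (k n).d144, ∑' n, (k n).d222, ∑' n, (k n).d223,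
   ∑' n, (k n).d224, ∑' n, (k n).d233, ∑' n, (k n).d234, ∑' n, (k n).d244, ∑' n, (k n).d333, ∑' n, (k n).d334,
   ∑' n, (k n).d344, ∑' n, (k n).d444⟩,
      ⟨tsum_of_norm_bounded S3.hasSum fun n => (hk1 n).d111, tsum_of_norm_bounded S3.hasSum fun n => (hk1 n).d112, tsum_of_norm_bounded S3.hasSum fun n => (hk1 n).d113, tsum_of_norm_bounded S3.hasSum fun n => (hk1 n).d114, tsum_of_norm_bounded S3.hasSum fun n => (hk1 n).d122, tsum_of_norm_bounded S3.hasSum fun n => (hk1 n).d123,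
   tsum_of_norm_bounded S3.hasSum fun n => (hk1 n).d124, tsum_of_norm_bounded S3.hasSum fun n => (hk1 n).d133, tsum_of_norm_bounded S3.hasSum fun n => (hk1 n).d134, tsum_of_norm_bounded S3.hasSum fun n => (hk1 n).d144, tsum_of_norm_bounded S3.hasSum fun n => (hk1 n).d222, tsum_of_norm_bounded S3.hasSum fun n => (hk1 n).d223,
   tsum_of_norm_bounded S3.hasSum fun n => (hk1 n).d224, tsum_of_norm_bounded S3.hasSum fun n => (hk1 n).d233, tsum_of_norm_bounded S3.hasSum fun n => (hk1 n).d234, tsum_of_norm_bounded S3.hasSum fun n => (hk1 n).d244, tsum_of_norm_bounded S3.hasSum fun n => (hk1 n).d333, tsum_of_norm_bounded S3.hasSum fun n => (hk1 n).d334,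
   tsum_of_norm_bounded S3.hasSum fun n => (hk1 n).d344, tsum_of_norm_bounded S3.hasSum fun n => (hk1 n).d444⟩, ?_⟩
    have H := (((C0.hasSum.add ((((C1.hasSum.mul_right (y.y1 : ℂ)).add (C2.hasSum.mul_right (y.y2 : ℂ))).add
      (C3.hasSum.mul_right (y.y3 : ℂ))).add (C4.hasSum.mul_right (y.y4 : ℂ)))).add
      ((((((((((Dq11.hasSum.mul_right ((y.y1 : ℂ) * (y.y1 : ℂ))).add
      (Dq12.hasSum.mul_right ((y.y1 : ℂ) * (y.y2 : ℂ)))).add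
      (Dq13.hasSum.mul_right ((y.y1 : ℂ) * (y.y3 : ℂ)))).add
      (Dq14.hasSum.mul_right ((y.y1 : ℂ) * (y.y4 : ℂ)))).add
      (Dq22.hasSum.mul_right ((y.y2 : ℂ) * (y.y2 : ℂ)))).add
      (Dq23.hasSum.mul_right ((y.y2 : ℂ) * (y.y3 : ℂ)))).add
      (Dq24.hasSum.mul_right ((y.y2 : ℂ) * (y.y4 : ℂ)))).add
      (Dq33.hasSum.mul_right ((y.y3 : ℂ) * (y.y3 : ℂ)))).add
      (Dq34.hasSum.mul_right ((y.y3 : ℂ) * (y.y4 : ℂ)))).add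
      (Dq44.hasSum.mul_right ((y.y4 : ℂ) * (y.y4 : ℂ))))).add
      ((((((((((((((((((((Ed111.hasSum.mul_right ((y.y1 : ℂ) * (y.y1 : ℂ) * (y.y1 : ℂ))).add
      (Ed112.hasSum.mul_right ((y.y1 : ℂ) * (y.y1 : ℂ) * (y.y2 : ℂ)))).add
      (Ed113.hasSum.mul_right ((y.y1 : ℂ) * (y.y1 : ℂ) * (y.y3 : ℂ)))).add
      (Ed114.hasSum.mul_right ((y.y1 : ℂ) * (y.y1 : ℂ) * (y.y4 : ℂ)))).add
      (Ed122.hasSum.mul_right ((y.y1 : ℂ) * (y.y2 : ℂ) * (y.y2 : ℂ)))).add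
      (Ed123.hasSum.mul_right ((y.y1 : ℂ) * (y.y2 : ℂ) * (y.y3 : ℂ)))).add
      (Ed124.hasSum.mul_right ((y.y1 : ℂ) * (y.y2 : ℂ) * (y.y4 : ℂ)))).add
      (Ed133.hasSum.mul_right ((y.y1 : ℂ) * (y.y3 : ℂ) * (y.y3 : ℂ)))).add
      (Ed134.hasSum.mul_right ((y.y1 : ℂ) * (y.y3 : ℂ) * (y.y4 : ℂ)))).add
      (Ed144.hasSum.mul_right ((y.y1 : ℂ) * (y.y4 : ℂ) * (y.y4 : ℂ)))).add
      (Ed222.hasSum.mul_right ((y.y2 : ℂ) * (y.y2 : ℂ) * (y.y2 : ℂ)))).add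
      (Ed223.hasSum.mul_right ((y.y2 : ℂ) * (y.y2 : ℂ) * (y.y3 : ℂ)))).add
      (Ed224.hasSum.mul_right ((y.y2 : ℂ) * (y.y2 : ℂ) * (y.y4 : ℂ)))).add
      (Ed233.hasSum.mul_right ((y.y2 : ℂ) * (y.y3 : ℂ) * (y.y3 : ℂ)))).add
      (Ed234.hasSum.mul_right ((y.y2 : ℂ) * (y.y3 : ℂ) * (y.y4 : ℂ)))).add
      (Ed244.hasSum.mul_right ((y.y2 : ℂ) * (y.y4 : ℂ) * (y.y4 : ℂ)))).add
      (Ed333.hasSum.mul_right ((y.y3 : ℂ) * (y.y3 : ℂ) * (y.y3 : ℂ)))).add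
      (Ed334.hasSum.mul_right ((y.y3 : ℂ) * (y.y3 : ℂ) * (y.y4 : ℂ)))).add
      (Ed344.hasSum.mul_right ((y.y3 : ℂ) * (y.y4 : ℂ) * (y.y4 : ℂ)))).add
      (Ed444.hasSum.mul_right ((y.y4 : ℂ) * (y.y4 : ℂ) * (y.y4 : ℂ)))))
    have e : (fun n => f n y) = fun n => (g n).c + (g n).ev y + (h n).ev y + (k n).ev y := funext fun n => hk2 n
    rw [e]
    exact H
  refine ⟨⟨∑' n, s0 n, ∑' n, s1 n, ∑' n, s2 n, ∑' n, s3 n, ?_, ⟨∑' n, (g n).c, ∑' n, (g n).l1, ∑' n, (g n).l2, ∑' n, (g n).l3, ∑' n, (g n).l4⟩, tsum_of_norm_bounded S0.hasSum g0, ⟨?_, ?_, ?_, ?_⟩,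
    ⟨∑' n, (h n).q11, ∑' n, (h n).q12, ∑' n, (h n).q13, ∑' n, (h n).q14, ∑' n, (h n).q22, ∑' n, (h n).q23,
   ∑' n, (h n).q24, ∑' n, (h n).q33, ∑' n, (h n).q34, ∑' n, (h n).q44⟩,
    ⟨tsum_of_norm_bounded S2.hasSum fun n => (h2 n).q11, tsum_of_norm_bounded S2.hasSum fun n => (h2 n).q12, tsum_of_norm_bounded S2.hasSum fun n => (h2 n).q13, tsum_of_norm_bounded S2.hasSum fun n => (h2 n).q14, tsum_of_norm_bounded S2.hasSum fun n => (h2 n).q22, tsum_of_norm_bounded S2.hasSum fun n => (h2 n).q23,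
   tsum_of_norm_bounded S2.hasSum fun n => (h2 n).q24, tsum_of_norm_bounded S2.hasSum fun n => (h2 n).q33, tsum_of_norm_bounded S2.hasSum fun n => (h2 n).q34, tsum_of_norm_bounded S2.hasSum fun n => (h2 n).q44⟩, fun y hy => ?_⟩, fun y hy => ?_⟩
  · refine le_trans ?_ hN
    rw [← tsum_mul_left, ← tsum_mul_left, ← tsum_mul_left, ← S0.tsum_add (S1.mul_left X),
      ← (S0.add (S1.mul_left X)).tsum_add (S2.mul_left (X ^ 2 / 2)),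
      ← ((S0.add (S1.mul_left X)).add (S2.mul_left (X ^ 2 / 2))).tsum_add (S3.mul_left (X ^ 3 / 6))]
    exact (((S0.add (S1.mul_left X)).add (S2.mul_left (X ^ 2 / 2))).add (S3.mul_left (X ^ 3 / 6))).tsum_le_tsum hs hM
  · exact tsum_of_norm_bounded S1.hasSum fun n => (g1 n).l1
  · exact tsum_of_norm_bounded S1.hasSum fun n => (g1 n).l2
  · exact tsum_of_norm_bounded S1.hasSum fun n => (g1 n).l3
  · exact tsum_of_norm_bounded S1.hasSum fun n => (g1 n).l4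
  · obtain ⟨k, hk, hs⟩ := main y hy
    exact ⟨k, hk, hs.tsum_eq⟩
  · obtain ⟨k, hk, hs⟩ := main y hy
    exact hs.summable

/-- Taylor model with zero centres -/
def TM.zc (r0 r1 r2 r3 : Int) : TM :=
  ⟨⟨0, 0, r0⟩, ⟨0, 0, r1⟩, ⟨0, 0, r1⟩, ⟨0, 0, r1⟩, ⟨0, 0, r1⟩,
   ⟨0, 0, r2⟩, ⟨0, 0, r2⟩, ⟨0, 0, r2⟩, ⟨0, 0, r2⟩, ⟨0, 0, r2⟩,
   ⟨0, 0, r2⟩, ⟨0, 0, r2⟩, ⟨0, 0, r2⟩, ⟨0, 0, r2⟩, ⟨0, 0, r2⟩,
   ⟨0, 0, r3⟩, ⟨0, 0, r3⟩, ⟨0, 0, r3⟩, ⟨0, 0, r3⟩, ⟨0, 0, r3⟩,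
   ⟨0, 0, r3⟩, ⟨0, 0, r3⟩, ⟨0, 0, r3⟩, ⟨0, 0, r3⟩, ⟨0, 0, r3⟩,
   ⟨0, 0, r3⟩, ⟨0, 0, r3⟩, ⟨0, 0, r3⟩, ⟨0, 0, r3⟩, ⟨0, 0, r3⟩,
   ⟨0, 0, r3⟩, ⟨0, 0, r3⟩, ⟨0, 0, r3⟩, ⟨0, 0, r3⟩, ⟨0, 0, r3⟩⟩

theorem CB.mem_zc {z : ℂ} {r : Int} (h : ‖z‖ ≤ rv r) : CB.Mem z ⟨0, 0, r⟩ := by
  unfold CB.Mem
  have e : (CB.mid ⟨0, 0, r⟩ : ℂ) = 0 := by
    apply Complex.ext <;> simp [CB.mid, rv]
  rw [e, sub_zero]
  exact h

theorem NB.has {X d N : ℝ} {Y : Bx} (hX : 0 < X) (hd : 0 ≤ d) (hY : ∀ y : Pt, y.In Y → Box4 d y) {f : Pt → ℂ}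
    (hf : NB X d f N) {r0 r1 r2 r3 : Int} (h0 : N ≤ rv r0) (h1 : N ≤ rv r1 * X) (h2 : N ≤ rv r2 * (X ^ 2 / 2))
    (h3 : N ≤ rv r3 * (X ^ 3 / 6)) : TM.Has Y (TM.zc r0 r1 r2 r3) f := by
  obtain ⟨s0, s1, s2, s3, hs, hf⟩ := hf
  obtain ⟨a0, a1, a2, a3⟩ := hf.nonneg hd
  obtain ⟨g, g0, g1, h, hh, H⟩ := hf
  have b1 : 0 ≤ X * s1 := mul_nonneg hX.le a1
  have b2 : 0 ≤ X ^ 2 / 2 * s2 := mul_nonneg (by positivity) a2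
  have b3 : 0 ≤ X ^ 3 / 6 * s3 := mul_nonneg (by positivity) a3
  have e0 : s0 ≤ rv r0 := by linarith
  have e1 : s1 ≤ rv r1 := le_of_mul_le_mul_right (by linarith : s1 * X ≤ rv r1 * X) hX
  have e2 : s2 ≤ rv r2 := le_of_mul_le_mul_right (by linarith : s2 * (X ^ 2 / 2) ≤ rv r2 * (X ^ 2 / 2)) (by positivity)
  have e3 : s3 ≤ rv r3 := le_of_mul_le_mul_right (by linarith : s3 * (X ^ 3 / 6) ≤ rv r3 * (X ^ 3 / 6)) (by positivity)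
  refine ⟨g, ⟨CB.mem_zc (g0.trans e0), CB.mem_zc (g1.l1.trans e1), CB.mem_zc (g1.l2.trans e1), CB.mem_zc (g1.l3.trans e1), CB.mem_zc (g1.l4.trans e1)⟩, h,
    ⟨CB.mem_zc (hh.q11.trans e2), CB.mem_zc (hh.q12.trans e2), CB.mem_zc (hh.q13.trans e2), CB.mem_zc (hh.q14.trans e2), CB.mem_zc (hh.q22.trans e2), CB.mem_zc (hh.q23.trans e2),
   CB.mem_zc (hh.q24.trans e2), CB.mem_zc (hh.q33.trans e2), CB.mem_zc (hh.q34.trans e2), CB.mem_zc (hh.q44.trans e2)⟩, fun y hy => ?_⟩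
  obtain ⟨k, hk, e⟩ := H y (hY y hy)
  exact ⟨k, ⟨CB.mem_zc (hk.d111.trans e3), CB.mem_zc (hk.d112.trans e3), CB.mem_zc (hk.d113.trans e3), CB.mem_zc (hk.d114.trans e3), CB.mem_zc (hk.d122.trans e3), CB.mem_zc (hk.d123.trans e3),
   CB.mem_zc (hk.d124.trans e3), CB.mem_zc (hk.d133.trans e3), CB.mem_zc (hk.d134.trans e3), CB.mem_zc (hk.d144.trans e3), CB.mem_zc (hk.d222.trans e3), CB.mem_zc (hk.d223.trans e3),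
   CB.mem_zc (hk.d224.trans e3), CB.mem_zc (hk.d233.trans e3), CB.mem_zc (hk.d234.trans e3), CB.mem_zc (hk.d244.trans e3), CB.mem_zc (hk.d333.trans e3), CB.mem_zc (hk.d334.trans e3),
   CB.mem_zc (hk.d344.trans e3), CB.mem_zc (hk.d444.trans e3)⟩, e⟩

end MaxTerm.PA.Chk
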