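import Pool.Agent.MaxTerm.PartA.NearNum

/-!
# Part A, uniqueness: local concavity of `t ↦ ‖th q (exp (i t))‖ ^ 2` near the second contact point

With `w = exp (i t)`: `th q w = ∑ 2 q ^ ee n * cos ((2n+1) t)`, its `t`-derivative is `I * thw q w`, the second
derivative of the squared norm is `2 ‖thw‖² + 2 Re (conj th * th_tt) ≈ -4.84` at `(qc, w1c)`; on the box
`‖q - qc‖ ≤ 1e-4`, `‖w - w1c‖ ≤ 1.3e-3` it stays below `-4`.
-/

open Filter Topology ComplexConjugate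

namespace MaxTerm.PA

/-! ### the series of the `t`-derivatives -/

/-- `(1/i)^k ∂_t^k th (q, e^{it})` -/
noncomputable def u1S (k : ℕ) (q w : ℂ) : ℂ :=
  ∑' n : ℕ, (2 * (n : ℂ) + 1) ^ k * q ^ ee n * (w ^ (2 * n + 1) + (-1) ^ k * conj w ^ (2 * n + 1))

theorem u1_ee_ge (n : ℕ) : n ≤ ee n := by
  unfold ee
  have : n * 2 ≤ n * (n + 1) := by
    rcases n with _ | n
    · simp
    · exact Nat.mul_le_mul_left _ (by omega)
  omega

theorem u1_summable (k : ℕ) {r : ℝ} (h0 : 0 ≤ r) (h1 : r < 1) :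
    Summable fun n : ℕ => (2 * (n : ℝ) + 1) ^ k * r ^ ee n := by
  have hs : Summable fun n : ℕ => 3 ^ k * ((n : ℝ) ^ k * r ^ n) + r ^ n := by
    refine Summable.add (Summable.mul_left _ ?_) (summable_geometric_of_lt_one h0 h1)
    exact summable_pow_mul_geometric_of_norm_lt_one k (by rwa [Real.norm_eq_abs, abs_of_nonneg h0])
  refine Summable.of_nonneg_of_le (fun n => by positivity) (fun n => ?_) hs
  have h2 : r ^ ee n ≤ r ^ n := pow_le_pow_of_le_one h0 h1.le (u1_ee_ge n)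
  have h3 : (2 * (n : ℝ) + 1) ^ k ≤ 3 ^ k * (n : ℝ) ^ k + 1 := by
    rcases n with _ | n
    · simp only [Nat.cast_zero, mul_zero, zero_add, one_pow]
      have : (0 : ℝ) ≤ 3 ^ k * 0 ^ k := by positivity
      linarith
    · rw [← mul_pow]
      have h4 : (2 * ((n + 1 : ℕ) : ℝ) + 1) ^ k ≤ (3 * ((n + 1 : ℕ) : ℝ)) ^ k := by
        refine pow_le_pow_left₀ (by positivity) ?_ k
        push_cast
        have : (0 : ℝ) ≤ n := Nat.cast_nonneg n
        linarith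
      linarith
  calc (2 * (n : ℝ) + 1) ^ k * r ^ ee n ≤ (3 ^ k * (n : ℝ) ^ k + 1) * r ^ n := by gcongr
    _ = _ := by ring

theorem u1_term_norm (k n : ℕ) {q w : ℂ} (hw : ‖w‖ = 1) :
    ‖(2 * (n : ℂ) + 1) ^ k * q ^ ee n * (w ^ (2 * n + 1) + (-1) ^ k * conj w ^ (2 * n + 1))‖ ≤
      2 * ((2 * (n : ℝ) + 1) ^ k * ‖q‖ ^ ee n) := by
  have hw' : ‖conj w‖ = 1 := by rw [Complex.norm_conj]; exact hw
  have h1 : ‖w ^ (2 * n + 1) + (-1) ^ k * conj w ^ (2 * n + 1)‖ ≤ 2 := by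
    refine (norm_add_le _ _).trans ?_
    rw [norm_mul, norm_pow, norm_pow, norm_pow, hw, hw', norm_neg, norm_one]
    norm_num
  have h2 : ‖(2 * (n : ℂ) + 1)‖ = 2 * (n : ℝ) + 1 := by
    rw [show (2 * (n : ℂ) + 1) = (((2 * n + 1 : ℝ)) : ℂ) by push_cast; ring, Complex.norm_real,
      Real.norm_eq_abs, abs_of_nonneg (by positivity)]
  rw [norm_mul, norm_mul, norm_pow, norm_pow, h2]
  calc (2 * (n : ℝ) + 1) ^ k * ‖q‖ ^ ee n * ‖w ^ (2 * n + 1) + (-1) ^ k * conj w ^ (2 * n + 1)‖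
      ≤ (2 * (n : ℝ) + 1) ^ k * ‖q‖ ^ ee n * 2 := by gcongr
    _ = _ := by ring

theorem u1_term_summable (k : ℕ) {q w : ℂ} (hq : ‖q‖ < 1) (hw : ‖w‖ = 1) :
    Summable fun n : ℕ =>
      (2 * (n : ℂ) + 1) ^ k * q ^ ee n * (w ^ (2 * n + 1) + (-1) ^ k * conj w ^ (2 * n + 1)) :=
  Summable.of_norm_bounded ((u1_summable k (norm_nonneg q) hq).mul_left 2)
    fun n => u1_term_norm k n hw

theorem u1_half_summable {q w : ℂ} (hq : ‖q‖ < 1) (hw : ‖w‖ = 1) :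
    Summable fun n : ℕ => q ^ ee n * w ^ (2 * n + 1) := by
  refine Summable.of_norm_bounded (g := fun n : ℕ => ‖q‖ ^ ee n) ?_ fun n => ?_
  · simpa using u1_summable 0 (norm_nonneg q) hq
  · rw [norm_mul, norm_pow, norm_pow, hw, one_pow, mul_one]

theorem th_eq_u1S {q w : ℂ} (hq : ‖q‖ < 1) (hw : ‖w‖ = 1) : th q w = u1S 0 q w := by
  have hw' : ‖conj w‖ = 1 := by rw [Complex.norm_conj]; exact hw
  unfold th half u1S
  simp only [nm_mon]
  rw [← (u1_half_summable hq hw).tsum_add (u1_half_summable hq hw')]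
  refine tsum_congr fun n => ?_
  simp only [pow_zero, one_mul]
  ring

theorem thw_eq_u1S (q w : ℂ) : thw q w = u1S 1 q w := by
  unfold thw u1S
  refine tsum_congr fun n => ?_
  ring

theorem u1_hasDerivAt (k : ℕ) {q : ℂ} (hq : ‖q‖ < 1) (t : ℝ) :
    HasDerivAt (fun t : ℝ => u1S k q (Complex.exp (Complex.I * (t : ℂ))))
      (Complex.I * u1S (k + 1) q (Complex.exp (Complex.I * (t : ℂ)))) t := by
  have hn : ∀ y : ℝ, ‖Complex.exp (Complex.I * (y : ℂ))‖ = 1 := fun y => by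
    rw [mul_comm]; exact Complex.norm_exp_ofReal_mul_I y
  have hI : Complex.I * u1S (k + 1) q (Complex.exp (Complex.I * (t : ℂ))) =
      ∑' n : ℕ, Complex.I * ((2 * (n : ℂ) + 1) ^ (k + 1) * q ^ ee n *
        ((Complex.exp (Complex.I * (t : ℂ))) ^ (2 * n + 1) +
          (-1) ^ (k + 1) * conj (Complex.exp (Complex.I * (t : ℂ))) ^ (2 * n + 1))) := by
    unfold u1S
    rw [tsum_mul_left]
  rw [hI]
  unfold u1S
  refine hasDerivAt_tsum (u := fun n : ℕ => 2 * ((2 * (n : ℝ) + 1) ^ (k + 1) * ‖q‖ ^ ee n))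
    ((u1_summable (k + 1) (norm_nonneg q) hq).mul_left 2)
    (g' := fun (n : ℕ) (y : ℝ) => Complex.I * ((2 * (n : ℂ) + 1) ^ (k + 1) * q ^ ee n *
        ((Complex.exp (Complex.I * (y : ℂ))) ^ (2 * n + 1) +
          (-1) ^ (k + 1) * conj (Complex.exp (Complex.I * (y : ℂ))) ^ (2 * n + 1))))
    (fun n y => ?_) (fun n y => ?_) (y₀ := t) (u1_term_summable k hq (hn t)) t
  · have h0 : HasDerivAt (fun y : ℝ => Complex.I * (y : ℂ)) Complex.I y := by
      simpa using (Complex.ofRealCLM.hasDerivAt (x := y)).const_mul Complex.I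
    have h1 : HasDerivAt (fun y : ℝ => Complex.exp (Complex.I * (y : ℂ)))
        (Complex.exp (Complex.I * (y : ℂ)) * Complex.I) y := h0.cexp
    have h2 := h1.pow (2 * n + 1)
    have h3 : HasDerivAt (fun y : ℝ => conj (Complex.exp (Complex.I * (y : ℂ))))
        (conj (Complex.exp (Complex.I * (y : ℂ)) * Complex.I)) y := h1.star
    have h4 := h3.pow (2 * n + 1)
    have h5 := (h2.add (h4.const_mul ((-1 : ℂ) ^ k))).const_mul ((2 * (n : ℂ) + 1) ^ k * q ^ ee n)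
    refine h5.congr_deriv ?_
    rw [map_mul, Complex.conj_I]
    simp only [Nat.add_sub_cancel]
    push_cast
    ring
  · rw [norm_mul, Complex.norm_I, one_mul]
    exact u1_term_norm (k + 1) n (hn y)

theorem u1_sq_deriv {T : ℝ → ℂ} {T' : ℂ} {t : ℝ} (h : HasDerivAt T T' t) :
    HasDerivAt (fun t => ‖T t‖ ^ 2) (2 * (conj (T t) * T').re) t := by
  have h1 : HasDerivAt (fun t => conj (T t)) (conj T') t := h.star
  have h2 := h1.mul h
  have h3 := Complex.reCLM.hasFDerivAt.comp_hasDerivAt t h2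
  have e : (fun t => ‖T t‖ ^ 2) = fun t => (conj (T t) * T t).re := by
    funext s
    rw [mul_comm, Complex.mul_conj, Complex.ofReal_re, Complex.normSq_eq_norm_sq]
  rw [e]
  refine h3.congr_deriv ?_
  change (conj T' * T t + conj (T t) * T').re = _
  simp only [Complex.add_re, Complex.mul_re, Complex.conj_re, Complex.conj_im]
  ring

/-- `t`-derivative of `‖th q (exp (i t))‖ ^ 2` -/
theorem hasDerivAt_norm_th {q : ℂ} (hq : ‖q‖ < 1) (t : ℝ) :
    HasDerivAt (fun t : ℝ => ‖th q (Complex.exp (Complex.I * (t : ℂ)))‖ ^ 2)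
      (2 * (conj (th q (Complex.exp (Complex.I * (t : ℂ)))) *
        (Complex.I * thw q (Complex.exp (Complex.I * (t : ℂ))))).re) t := by
  have hn : ∀ y : ℝ, ‖Complex.exp (Complex.I * (y : ℂ))‖ = 1 := fun y => by
    rw [mul_comm]; exact Complex.norm_exp_ofReal_mul_I y
  have h := u1_sq_deriv (u1_hasDerivAt 0 hq t)
  have e : (fun t : ℝ => ‖th q (Complex.exp (Complex.I * (t : ℂ)))‖ ^ 2) =
      fun t : ℝ => ‖u1S 0 q (Complex.exp (Complex.I * (t : ℂ)))‖ ^ 2 := by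
    funext s
    rw [th_eq_u1S hq (hn s)]
  rw [e, thw_eq_u1S, th_eq_u1S hq (hn t)]
  exact h

/-- second derivative -/
theorem u1_second {q : ℂ} (hq : ‖q‖ < 1) (t : ℝ) :
    HasDerivAt (fun t : ℝ => (conj (th q (Complex.exp (Complex.I * (t : ℂ)))) *
        (Complex.I * thw q (Complex.exp (Complex.I * (t : ℂ))))).re)
      (‖thw q (Complex.exp (Complex.I * (t : ℂ)))‖ ^ 2 -
        (conj (th q (Complex.exp (Complex.I * (t : ℂ)))) *
          u1S 2 q (Complex.exp (Complex.I * (t : ℂ)))).re) t := by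
  have hn : ∀ y : ℝ, ‖Complex.exp (Complex.I * (y : ℂ))‖ = 1 := fun y => by
    rw [mul_comm]; exact Complex.norm_exp_ofReal_mul_I y
  have h0 := u1_hasDerivAt 0 hq t
  have h1 := (u1_hasDerivAt 1 hq t).const_mul Complex.I
  have h0' : HasDerivAt (fun t : ℝ => conj (u1S 0 q (Complex.exp (Complex.I * (t : ℂ)))))
      (conj (Complex.I * u1S (0 + 1) q (Complex.exp (Complex.I * (t : ℂ))))) t := h0.star
  have h2 := h0'.mul h1
  have h3 := Complex.reCLM.hasFDerivAt.comp_hasDerivAt t h2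
  have e : (fun t : ℝ => (conj (th q (Complex.exp (Complex.I * (t : ℂ)))) *
        (Complex.I * thw q (Complex.exp (Complex.I * (t : ℂ))))).re) =
      fun t : ℝ => (conj (u1S 0 q (Complex.exp (Complex.I * (t : ℂ)))) *
        (Complex.I * u1S 1 q (Complex.exp (Complex.I * (t : ℂ))))).re := by
    funext s
    rw [th_eq_u1S hq (hn s), thw_eq_u1S]
  rw [e, thw_eq_u1S, th_eq_u1S hq (hn t)]
  refine h3.congr_deriv ?_
  set W := u1S 1 q (Complex.exp (Complex.I * (t : ℂ)))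
  set V := u1S 2 q (Complex.exp (Complex.I * (t : ℂ)))
  set T := u1S 0 q (Complex.exp (Complex.I * (t : ℂ)))
  change (conj (Complex.I * W) * (Complex.I * W) + conj T * (Complex.I * (Complex.I * V))).re = _
  rw [Complex.sq_norm, Complex.normSq_apply]
  simp only [Complex.add_re, Complex.mul_re, Complex.conj_re, Complex.conj_im, Complex.mul_im,
    Complex.I_re, Complex.I_im]
  ring

/-! ### truncation -/

theorem u1_growth (n : ℕ) : (2 * ((n + 4 : ℕ) : ℝ) + 1) ^ 2 ≤ 81 * (3 / 2) ^ n := by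
  induction n with
  | zero => norm_num
  | succ n ih =>
    have hn : (0 : ℝ) ≤ n := Nat.cast_nonneg n
    rw [pow_succ (3 / 2 : ℝ) n]
    push_cast at ih ⊢
    nlinarith

theorem u1_tail {k : ℕ} (hk : k ≤ 2) {q w : ℂ} (hq : ‖q‖ ≤ 2835 / 10000) (hw : ‖w‖ = 1) :
    ‖u1S k q w - ∑ n ∈ Finset.range 4,
      (2 * (n : ℂ) + 1) ^ k * q ^ ee n * (w ^ (2 * n + 1) + (-1) ^ k * conj w ^ (2 * n + 1))‖ ≤
      1 / 1000 := by
  have hs := u1_term_summable k (hq.trans_lt (by norm_num)) hw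
  have h1 := hs.sum_add_tsum_nat_add 4
  unfold u1S
  rw [← h1, add_sub_cancel_left]
  have hg : HasSum (fun n : ℕ => (162 * (2835 / 10000 : ℝ) ^ 10) * (3 / 2 * (2835 / 10000) : ℝ) ^ n)
      ((162 * (2835 / 10000 : ℝ) ^ 10) * (1 - 3 / 2 * (2835 / 10000))⁻¹) :=
    (hasSum_geometric_of_lt_one (by norm_num) (by norm_num)).mul_left _
  refine (tsum_of_norm_bounded hg fun n => ?_).trans (by norm_num)
  refine (u1_term_norm k (n + 4) hw).trans ?_
  have h2 : (2 * ((n + 4 : ℕ) : ℝ) + 1) ^ k ≤ (2 * ((n + 4 : ℕ) : ℝ) + 1) ^ 2 := by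
    refine pow_le_pow_right₀ ?_ hk
    have : (0 : ℝ) ≤ ((n + 4 : ℕ) : ℝ) := Nat.cast_nonneg _
    linarith
  have h3 : (2 * ((n + 4 : ℕ) : ℝ) + 1) ^ 2 ≤ 81 * (3 / 2) ^ n := u1_growth n
  have h5 : ‖q‖ ^ ee (n + 4) ≤ (2835 / 10000 : ℝ) ^ (10 + n) :=
    (pow_le_pow_left₀ (norm_nonneg _) hq _).trans
      (pow_le_pow_of_le_one (by norm_num) (by norm_num) (nm_ee_ge n))
  calc 2 * ((2 * ((n + 4 : ℕ) : ℝ) + 1) ^ k * ‖q‖ ^ ee (n + 4))
      ≤ 2 * ((81 * (3 / 2) ^ n) * (2835 / 10000 : ℝ) ^ (10 + n)) := by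
        refine mul_le_mul_of_nonneg_left ?_ (by norm_num)
        exact mul_le_mul (h2.trans h3) h5 (by positivity) (by positivity)
    _ = (162 * (2835 / 10000 : ℝ) ^ 10) * (3 / 2 * (2835 / 10000) : ℝ) ^ n := by
        rw [mul_pow, pow_add]; ring

/-- truncated first derivative -/
noncomputable def u1W (q w : ℂ) : ℂ := (w - conj w) + 3 * q * (w ^ 3 - conj w ^ 3) +
  5 * q ^ 3 * (w ^ 5 - conj w ^ 5) + 7 * q ^ 6 * (w ^ 7 - conj w ^ 7)

/-- truncated second derivative -/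
noncomputable def u1V (q w : ℂ) : ℂ := (w + conj w) + 9 * q * (w ^ 3 + conj w ^ 3) +
  25 * q ^ 3 * (w ^ 5 + conj w ^ 5) + 49 * q ^ 6 * (w ^ 7 + conj w ^ 7)

theorem u1_thw {q w : ℂ} (hq : ‖q‖ ≤ 2835 / 10000) (hw : ‖w‖ = 1) :
    ‖thw q w - u1W q w‖ ≤ 1 / 1000 := by
  have h := u1_tail (k := 1) (by norm_num) hq hw
  rw [thw_eq_u1S]
  convert h using 3
  simp only [Finset.sum_range_succ, Finset.range_zero, Finset.sum_empty, u1W]
  norm_num [ee]
  ring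

theorem u1_thww {q w : ℂ} (hq : ‖q‖ ≤ 2835 / 10000) (hw : ‖w‖ = 1) :
    ‖u1S 2 q w - u1V q w‖ ≤ 1 / 1000 := by
  have h := u1_tail (k := 2) le_rfl hq hw
  convert h using 3
  simp only [Finset.sum_range_succ, Finset.range_zero, Finset.sum_empty, u1V]
  norm_num [ee]

/-! ### Lipschitz bounds -/

theorem u1_qw {q w w' : ℂ} (hq : ‖q‖ ≤ 2835 / 10000) (hw : ‖w‖ ≤ 1) (hw' : ‖w'‖ ≤ 1)
    (e m : ℕ) : ‖q ^ (e + 1) * w ^ (m + 1) - qc ^ (e + 1) * w' ^ (m + 1)‖ ≤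
      (e + 1) * (2835 / 10000) ^ e * ‖q - qc‖ +
        (2835 / 10000) ^ (e + 1) * ((m + 1) * ‖w - w'‖) := by
  have e1 : q ^ (e + 1) * w ^ (m + 1) - qc ^ (e + 1) * w' ^ (m + 1) =
      (q ^ (e + 1) - qc ^ (e + 1)) * w ^ (m + 1) + qc ^ (e + 1) * (w ^ (m + 1) - w' ^ (m + 1)) := by
    ring
  rw [e1]
  refine (norm_add_le _ _).trans ?_
  rw [norm_mul, norm_mul, norm_pow w, norm_pow qc]
  have h1 := nm_pow hq nm_qc_le e
  have h2 := nm_pow hw hw' m
  rw [one_pow, mul_one] at h2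
  have h3 : ‖w‖ ^ (m + 1) ≤ 1 := pow_le_one₀ (norm_nonneg _) hw
  have h4 : ‖qc‖ ^ (e + 1) ≤ (2835 / 10000) ^ (e + 1) :=
    pow_le_pow_left₀ (norm_nonneg _) nm_qc_le _
  refine add_le_add ?_ ?_
  · calc ‖q ^ (e + 1) - qc ^ (e + 1)‖ * ‖w‖ ^ (m + 1) ≤ ‖q ^ (e + 1) - qc ^ (e + 1)‖ * 1 := by
          gcongr
      _ ≤ _ := by rw [mul_one]; exact h1
  · exact mul_le_mul h4 h2 (norm_nonneg _) (by positivity)

theorem u1_V_lip {q w : ℂ} (hq : ‖q‖ ≤ 2835 / 10000) (hq' : ‖q - qc‖ ≤ 1 / 10000) (hw : ‖w‖ ≤ 1)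
    (hw' : ‖w - w1c‖ ≤ 13 / 10000) : ‖u1V q w - u1V qc w1c‖ ≤ 4 / 100 := by
  have c1 : ‖conj w‖ ≤ 1 := by rw [Complex.norm_conj]; exact hw
  have c2 : ‖conj w1c‖ ≤ 1 := by rw [Complex.norm_conj]; exact nm_norm_w1c
  have c3 : ‖conj w - conj w1c‖ ≤ 13 / 10000 := by
    rw [← map_sub, Complex.norm_conj]; exact hw'
  have a1 := u1_qw hq hw nm_norm_w1c 0 2
  have a2 := u1_qw hq hw nm_norm_w1c 2 4
  have a3 := u1_qw hq hw nm_norm_w1c 5 6
  have b1 := u1_qw hq c1 c2 0 2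
  have b2 := u1_qw hq c1 c2 2 4
  have b3 := u1_qw hq c1 c2 5 6
  norm_num only [Nat.cast_ofNat, Nat.cast_zero] at a1 a2 a3 b1 b2 b3
  have e : u1V q w - u1V qc w1c = ((w - w1c) + (conj w - conj w1c)) +
      (9 * (q ^ 1 * w ^ 3 - qc ^ 1 * w1c ^ 3) + 9 * (q ^ 1 * conj w ^ 3 - qc ^ 1 * conj w1c ^ 3)) +
      ((25 * (q ^ 3 * w ^ 5 - qc ^ 3 * w1c ^ 5) +
          25 * (q ^ 3 * conj w ^ 5 - qc ^ 3 * conj w1c ^ 5)) +
        (49 * (q ^ 6 * w ^ 7 - qc ^ 6 * w1c ^ 7) +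
          49 * (q ^ 6 * conj w ^ 7 - qc ^ 6 * conj w1c ^ 7))) := by
    unfold u1V
    ring
  rw [e]
  have t0 := norm_add₃_le (a := (w - w1c) + (conj w - conj w1c))
    (b := 9 * (q ^ 1 * w ^ 3 - qc ^ 1 * w1c ^ 3) + 9 * (q ^ 1 * conj w ^ 3 - qc ^ 1 * conj w1c ^ 3))
    (c := (25 * (q ^ 3 * w ^ 5 - qc ^ 3 * w1c ^ 5) +
          25 * (q ^ 3 * conj w ^ 5 - qc ^ 3 * conj w1c ^ 5)) +
        (49 * (q ^ 6 * w ^ 7 - qc ^ 6 * w1c ^ 7) +
          49 * (q ^ 6 * conj w ^ 7 - qc ^ 6 * conj w1c ^ 7)))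
  have t1 := norm_add_le (w - w1c) (conj w - conj w1c)
  have t2 := norm_add_le (9 * (q ^ 1 * w ^ 3 - qc ^ 1 * w1c ^ 3))
    (9 * (q ^ 1 * conj w ^ 3 - qc ^ 1 * conj w1c ^ 3))
  have t3 := norm_add_le (25 * (q ^ 3 * w ^ 5 - qc ^ 3 * w1c ^ 5) +
          25 * (q ^ 3 * conj w ^ 5 - qc ^ 3 * conj w1c ^ 5))
        (49 * (q ^ 6 * w ^ 7 - qc ^ 6 * w1c ^ 7) +
          49 * (q ^ 6 * conj w ^ 7 - qc ^ 6 * conj w1c ^ 7))
  have t4 := norm_add_le (25 * (q ^ 3 * w ^ 5 - qc ^ 3 * w1c ^ 5))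
    (25 * (q ^ 3 * conj w ^ 5 - qc ^ 3 * conj w1c ^ 5))
  have t5 := norm_add_le (49 * (q ^ 6 * w ^ 7 - qc ^ 6 * w1c ^ 7))
    (49 * (q ^ 6 * conj w ^ 7 - qc ^ 6 * conj w1c ^ 7))
  simp only [norm_mul (9 : ℂ), norm_mul (25 : ℂ), norm_mul (49 : ℂ), Complex.norm_ofNat] at t2 t4 t5
  linarith

theorem u1_W_lip {q w : ℂ} (hq : ‖q‖ ≤ 2835 / 10000) (hq' : ‖q - qc‖ ≤ 1 / 10000) (hw : ‖w‖ ≤ 1)
    (hw' : ‖w - w1c‖ ≤ 13 / 10000) : ‖u1W q w - u1W qc w1c‖ ≤ 2 / 100 := by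
  have c1 : ‖conj w‖ ≤ 1 := by rw [Complex.norm_conj]; exact hw
  have c2 : ‖conj w1c‖ ≤ 1 := by rw [Complex.norm_conj]; exact nm_norm_w1c
  have c3 : ‖conj w - conj w1c‖ ≤ 13 / 10000 := by
    rw [← map_sub, Complex.norm_conj]; exact hw'
  have a1 := u1_qw hq hw nm_norm_w1c 0 2
  have a2 := u1_qw hq hw nm_norm_w1c 2 4
  have a3 := u1_qw hq hw nm_norm_w1c 5 6
  have b1 := u1_qw hq c1 c2 0 2
  have b2 := u1_qw hq c1 c2 2 4
  have b3 := u1_qw hq c1 c2 5 6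
  norm_num only [Nat.cast_ofNat, Nat.cast_zero] at a1 a2 a3 b1 b2 b3
  have e : u1W q w - u1W qc w1c = ((w - w1c) - (conj w - conj w1c)) +
      (3 * (q ^ 1 * w ^ 3 - qc ^ 1 * w1c ^ 3) - 3 * (q ^ 1 * conj w ^ 3 - qc ^ 1 * conj w1c ^ 3)) +
      ((5 * (q ^ 3 * w ^ 5 - qc ^ 3 * w1c ^ 5) -
          5 * (q ^ 3 * conj w ^ 5 - qc ^ 3 * conj w1c ^ 5)) +
        (7 * (q ^ 6 * w ^ 7 - qc ^ 6 * w1c ^ 7) -
          7 * (q ^ 6 * conj w ^ 7 - qc ^ 6 * conj w1c ^ 7))) := by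
    unfold u1W
    ring
  rw [e]
  have t0 := norm_add₃_le (a := (w - w1c) - (conj w - conj w1c))
    (b := 3 * (q ^ 1 * w ^ 3 - qc ^ 1 * w1c ^ 3) - 3 * (q ^ 1 * conj w ^ 3 - qc ^ 1 * conj w1c ^ 3))
    (c := (5 * (q ^ 3 * w ^ 5 - qc ^ 3 * w1c ^ 5) -
          5 * (q ^ 3 * conj w ^ 5 - qc ^ 3 * conj w1c ^ 5)) +
        (7 * (q ^ 6 * w ^ 7 - qc ^ 6 * w1c ^ 7) -
          7 * (q ^ 6 * conj w ^ 7 - qc ^ 6 * conj w1c ^ 7)))
  have t1 := norm_sub_le (w - w1c) (conj w - conj w1c)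
  have t2 := norm_sub_le (3 * (q ^ 1 * w ^ 3 - qc ^ 1 * w1c ^ 3))
    (3 * (q ^ 1 * conj w ^ 3 - qc ^ 1 * conj w1c ^ 3))
  have t3 := norm_add_le (5 * (q ^ 3 * w ^ 5 - qc ^ 3 * w1c ^ 5) -
          5 * (q ^ 3 * conj w ^ 5 - qc ^ 3 * conj w1c ^ 5))
        (7 * (q ^ 6 * w ^ 7 - qc ^ 6 * w1c ^ 7) -
          7 * (q ^ 6 * conj w ^ 7 - qc ^ 6 * conj w1c ^ 7))
  have t4 := norm_sub_le (5 * (q ^ 3 * w ^ 5 - qc ^ 3 * w1c ^ 5))
    (5 * (q ^ 3 * conj w ^ 5 - qc ^ 3 * conj w1c ^ 5))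
  have t5 := norm_sub_le (7 * (q ^ 6 * w ^ 7 - qc ^ 6 * w1c ^ 7))
    (7 * (q ^ 6 * conj w ^ 7 - qc ^ 6 * conj w1c ^ 7))
  simp only [norm_mul (3 : ℂ), norm_mul (5 : ℂ), norm_mul (7 : ℂ), Complex.norm_ofNat] at t2 t4 t5
  linarith

/-! ### centres -/

noncomputable def u1Vc : ℂ := ⟨19754 / 10000, -20192 / 10000⟩

theorem u1_cV : ‖u1V qc w1c - u1Vc‖ ≤ 1 / 1000 := by
  refine (Complex.norm_le_abs_re_add_abs_im _).trans ?_
  have e : u1V qc w1c = ((2 * w1c.re : ℝ) : ℂ) + 9 * qc * ((2 * (w1c ^ 3).re : ℝ) : ℂ) +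
      25 * qc ^ 3 * ((2 * (w1c ^ 5).re : ℝ) : ℂ) + 49 * qc ^ 6 * ((2 * (w1c ^ 7).re : ℝ) : ℂ) := by
    rw [← Complex.add_conj, ← Complex.add_conj, ← Complex.add_conj, ← Complex.add_conj]
    simp only [map_pow]
    rfl
  rw [e, nm_w3, nm_w5, nm_w7, nm_q3, nm_q6, qc, u1Vc, w1c]
  simp only [Complex.sub_re, Complex.add_re, Complex.mul_re, Complex.sub_im, Complex.add_im,
    Complex.mul_im, Complex.ofReal_re, Complex.ofReal_im, Complex.re_ofNat, Complex.im_ofNat]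
  norm_num [abs_le]

theorem u1_cW : ‖u1W qc w1c‖ ≤ 1136 / 1000 := by
  have e : u1W qc w1c = ((2 * w1c.im : ℝ) : ℂ) * Complex.I +
      3 * qc * (((2 * (w1c ^ 3).im : ℝ) : ℂ) * Complex.I) +
      5 * qc ^ 3 * (((2 * (w1c ^ 5).im : ℝ) : ℂ) * Complex.I) +
      7 * qc ^ 6 * (((2 * (w1c ^ 7).im : ℝ) : ℂ) * Complex.I) := by
    rw [← Complex.sub_conj, ← Complex.sub_conj, ← Complex.sub_conj, ← Complex.sub_conj]
    simp only [map_pow]
    rfl
  rw [e, ← abs_of_nonneg (norm_nonneg _), ← sq_le_sq₀ (abs_nonneg _) (by norm_num), sq_abs,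
    Complex.sq_norm, Complex.normSq_apply, nm_w3, nm_w5, nm_w7, nm_q3, nm_q6, qc, w1c]
  simp only [Complex.add_re, Complex.mul_re, Complex.add_im, Complex.mul_im, Complex.ofReal_re,
    Complex.ofReal_im, Complex.re_ofNat, Complex.im_ofNat, Complex.I_re, Complex.I_im]
  norm_num

theorem u1_neg {q w : ℂ} (hq' : ‖q - qc‖ ≤ 1 / 10000) (hw : ‖w‖ = 1)
    (hw' : ‖w - w1c‖ ≤ 13 / 10000) : ‖thw q w‖ ^ 2 - (conj (th q w) * u1S 2 q w).re < 0 := by
  have hq : ‖q‖ ≤ 2835 / 10000 := by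
    have h1 := norm_add_le (q - qc) qc
    rw [sub_add_cancel] at h1
    have := nm_norm_qc
    linarith
  have hwc : ‖conj w‖ = 1 := by rw [Complex.norm_conj]; exact hw
  -- first derivative
  have hW : ‖thw q w‖ ≤ 116 / 100 := by
    have h1 := u1_thw hq hw
    have h2 := u1_W_lip hq hq' hw.le hw'
    have h3 := u1_cW
    have e : thw q w = (thw q w - u1W q w) + (u1W q w - u1W qc w1c) + u1W qc w1c := by ring
    rw [e]
    have := norm_add₃_le (a := thw q w - u1W q w) (b := u1W q w - u1W qc w1c) (c := u1W qc w1c)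
    linarith
  have hW2 : ‖thw q w‖ ^ 2 ≤ (116 / 100 : ℝ) ^ 2 := pow_le_pow_left₀ (norm_nonneg _) hW 2
  -- second derivative
  have hV : ‖u1S 2 q w - u1Vc‖ ≤ 42 / 1000 := by
    have h1 := u1_thww hq hw
    have h2 := u1_V_lip hq hq' hw.le hw'
    have h3 := u1_cV
    have e : u1S 2 q w - u1Vc = (u1S 2 q w - u1V q w) + (u1V q w - u1V qc w1c) +
        (u1V qc w1c - u1Vc) := by ring
    rw [e]
    have := norm_add₃_le (a := u1S 2 q w - u1V q w) (b := u1V q w - u1V qc w1c)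
      (c := u1V qc w1c - u1Vc)
    linarith
  -- value
  have hT : ‖th q w - nmEB‖ ≤ 6 / 1000 := by
    have h1 := nm_half hq hw
    have h2 := nm_half hq hwc
    have h3 := nm_P_left hq nm_qc_le hw
    have h4 := nm_P_left hq nm_qc_le hwc
    have h5 := nm_P_right (v := qc) nm_qc_le hw.le nm_norm_w1c
    have h6 := nm_P_right (v := qc) (w := conj w) (w' := conj w1c) nm_qc_le hwc.le
      (by rw [Complex.norm_conj]; exact nm_norm_w1c)
    rw [← map_sub, Complex.norm_conj] at h6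
    have h7 := nm_EB
    have e : th q w - nmEB = ((half (fun _ => q) w - nmP q w) +
        (half (fun _ => q) (conj w) - nmP q (conj w))) +
        ((nmP q w - nmP qc w) + (nmP q (conj w) - nmP qc (conj w))) +
        (((nmP qc w - nmP qc w1c) + (nmP qc (conj w) - nmP qc (conj w1c))) +
          (nmP qc w1c + nmP qc (conj w1c) - nmEB)) := by
      unfold th
      ring
    rw [e]
    have t1 := norm_add₃_le (a := (half (fun _ => q) w - nmP q w) +
        (half (fun _ => q) (conj w) - nmP q (conj w)))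
      (b := (nmP q w - nmP qc w) + (nmP q (conj w) - nmP qc (conj w)))
      (c := ((nmP qc w - nmP qc w1c) + (nmP qc (conj w) - nmP qc (conj w1c))) +
          (nmP qc w1c + nmP qc (conj w1c) - nmEB))
    have t2 := norm_add_le (half (fun _ => q) w - nmP q w)
      (half (fun _ => q) (conj w) - nmP q (conj w))
    have t3 := norm_add_le (nmP q w - nmP qc w) (nmP q (conj w) - nmP qc (conj w))
    have t4 := norm_add_le ((nmP qc w - nmP qc w1c) + (nmP qc (conj w) - nmP qc (conj w1c)))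
      (nmP qc w1c + nmP qc (conj w1c) - nmEB)
    have t5 := norm_add_le (nmP qc w - nmP qc w1c) (nmP qc (conj w) - nmP qc (conj w1c))
    linarith
  have hVn : ‖u1S 2 q w‖ ≤ 3 := by
    have h1 : ‖u1Vc‖ ≤ 29 / 10 := by
      rw [← abs_of_nonneg (norm_nonneg u1Vc), ← sq_le_sq₀ (abs_nonneg _) (by norm_num), sq_abs,
        Complex.sq_norm, Complex.normSq_apply, u1Vc]
      norm_num
    have := norm_add_le (u1S 2 q w - u1Vc) u1Vc
    rw [sub_add_cancel] at this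
    linarith
  have key : 35 / 10 ≤ (conj (th q w) * u1S 2 q w).re := by
    have e : conj (th q w) * u1S 2 q w = conj nmEB * u1Vc + (conj (th q w - nmEB) * u1S 2 q w +
        conj nmEB * (u1S 2 q w - u1Vc)) := by
      rw [map_sub]; ring
    rw [e, Complex.add_re]
    have h1 : 370 / 100 ≤ (conj nmEB * u1Vc).re := by
      rw [Complex.mul_re, Complex.conj_re, Complex.conj_im, nmEB, u1Vc]
      norm_num
    have h2 : ‖conj (th q w - nmEB) * u1S 2 q w + conj nmEB * (u1S 2 q w - u1Vc)‖ ≤ 2 / 10 := by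
      refine (norm_add_le _ _).trans ?_
      rw [norm_mul, norm_mul, Complex.norm_conj, Complex.norm_conj]
      have a1 : ‖th q w - nmEB‖ * ‖u1S 2 q w‖ ≤ 6 / 1000 * 3 :=
        mul_le_mul hT hVn (norm_nonneg _) (by norm_num)
      have a2 : ‖nmEB‖ * ‖u1S 2 q w - u1Vc‖ ≤ 17092 / 10000 * (42 / 1000) :=
        mul_le_mul nm_norm_EB hV (norm_nonneg _) (by norm_num)
      linarith
    have h3 := (abs_le.1 (Complex.abs_re_le_norm (conj (th q w - nmEB) * u1S 2 q w +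
      conj nmEB * (u1S 2 q w - u1Vc)))).1
    linarith
  norm_num at hW2
  linarith

/-- strict local concavity: near a critical point `w0` the function is strictly smaller and has no other
critical point -/
theorem local_max {q w0 : ℂ} (hq : ‖q - qc‖ ≤ 1 / 10000) (hw : ‖w0‖ = 1)
    (hw' : ‖w0 - w1c‖ ≤ 2 / 10000) (hc : (conj (th q w0) * (Complex.I * thw q w0)).re = 0)
    {t : ℝ} (ht : |t| ≤ 1 / 1000) (ht0 : t ≠ 0) :
    ‖th q (w0 * Complex.exp (Complex.I * (t : ℂ)))‖ < ‖th q w0‖ ∧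
    (conj (th q (w0 * Complex.exp (Complex.I * (t : ℂ)))) *
      (Complex.I * thw q (w0 * Complex.exp (Complex.I * (t : ℂ))))).re ≠ 0 := by
  have hq1 : ‖q‖ < 1 := by
    have h1 := norm_add_le (q - qc) qc
    rw [sub_add_cancel] at h1
    have := nm_norm_qc
    linarith
  obtain ⟨s, rfl⟩ : ∃ s : ℝ, w0 = Complex.exp (Complex.I * (s : ℂ)) := by
    refine ⟨Complex.arg w0, ?_⟩
    have := Complex.norm_mul_exp_arg_mul_I w0
    rw [hw, Complex.ofReal_one, one_mul, mul_comm] at this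
    exact this.symm
  have hadd : ∀ t : ℝ, Complex.exp (Complex.I * (s : ℂ)) * Complex.exp (Complex.I * (t : ℂ)) =
      Complex.exp (Complex.I * ((s + t : ℝ) : ℂ)) := fun t => by
    rw [← Complex.exp_add]
    congr 1
    push_cast
    ring
  set F : ℝ → ℝ := fun t => ‖th q (Complex.exp (Complex.I * (t : ℂ)))‖ ^ 2 with hF
  set D : ℝ → ℝ := fun t => (conj (th q (Complex.exp (Complex.I * (t : ℂ)))) *
    (Complex.I * thw q (Complex.exp (Complex.I * (t : ℂ))))).re with hD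
  have hFD : ∀ t, HasDerivAt F (2 * D t) t := fun t => hasDerivAt_norm_th hq1 t
  have hDD := fun t : ℝ => u1_second hq1 t
  have hDs : D s = 0 := hc
  have hneg : ∀ t : ℝ, |t - s| ≤ 1 / 1000 →
      ‖thw q (Complex.exp (Complex.I * (t : ℂ)))‖ ^ 2 -
        (conj (th q (Complex.exp (Complex.I * (t : ℂ)))) *
          u1S 2 q (Complex.exp (Complex.I * (t : ℂ)))).re < 0 := by
    intro t ht
    have hn : ‖Complex.exp (Complex.I * (t : ℂ))‖ = 1 := by
      rw [mul_comm]; exact Complex.norm_exp_ofReal_mul_I t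
    refine u1_neg hq hn ?_
    have h1 : Complex.exp (Complex.I * (t : ℂ)) - w1c =
        Complex.exp (Complex.I * (s : ℂ)) * (Complex.exp (Complex.I * ((t - s : ℝ) : ℂ)) - 1) +
          (Complex.exp (Complex.I * (s : ℂ)) - w1c) := by
      rw [mul_sub, hadd, add_sub_cancel, mul_one]
      ring
    rw [h1]
    refine (norm_add_le _ _).trans ?_
    rw [norm_mul, hw, one_mul]
    have h2 := Real.norm_exp_I_mul_ofReal_sub_one_le (x := t - s)
    rw [Real.norm_eq_abs] at h2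
    linarith
  have hanti : StrictAntiOn D (Set.Icc (s - 1 / 1000) (s + 1 / 1000)) := by
    refine strictAntiOn_of_deriv_neg (convex_Icc _ _) (fun t _ => (hDD t).continuousAt.continuousWithinAt)
      fun t ht => ?_
    rw [(hDD t).deriv]
    rw [interior_Icc] at ht
    exact hneg t (abs_le.2 ⟨by linarith [ht.1], by linarith [ht.2]⟩)
  obtain ⟨ht1, ht2⟩ := abs_le.1 ht
  have hs : s ∈ Set.Icc (s - 1 / 1000) (s + 1 / 1000) := ⟨by linarith, by linarith⟩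
  have hst : s + t ∈ Set.Icc (s - 1 / 1000) (s + 1 / 1000) := ⟨by linarith, by linarith⟩
  rw [hadd]
  have hsq : F (s + t) < F s → ‖th q (Complex.exp (Complex.I * ((s + t : ℝ) : ℂ)))‖ <
      ‖th q (Complex.exp (Complex.I * (s : ℂ)))‖ := fun h =>
    lt_of_pow_lt_pow_left₀ 2 (norm_nonneg _) h
  rcases lt_or_gt_of_ne ht0 with hlt | hgt
  · -- `t < 0`
    have hpos : ∀ x ∈ Set.Ico (s + t) s, 0 < D x := fun x hx => by
      have := hanti ⟨by linarith [hx.1], by linarith [hx.2]⟩ hs hx.2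
      linarith
    refine ⟨hsq ?_, (hpos (s + t) ⟨le_rfl, by linarith⟩).ne'⟩
    have hmono : StrictMonoOn F (Set.Icc (s + t) s) := by
      refine strictMonoOn_of_deriv_pos (convex_Icc _ _)
        (fun x _ => (hFD x).continuousAt.continuousWithinAt) fun x hx => ?_
      rw [interior_Icc] at hx
      rw [(hFD x).deriv]
      have := hpos x ⟨hx.1.le, hx.2⟩
      linarith
    exact hmono ⟨le_rfl, by linarith⟩ ⟨by linarith, le_rfl⟩ (by linarith)
  · have hpos : ∀ x ∈ Set.Ioc s (s + t), D x < 0 := fun x hx => by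
      have := hanti hs ⟨by linarith [hx.1], by linarith [hx.2]⟩ hx.1
      linarith
    refine ⟨hsq ?_, (hpos (s + t) ⟨by linarith, le_rfl⟩).ne⟩
    have hmono : StrictAntiOn F (Set.Icc s (s + t)) := by
      refine strictAntiOn_of_deriv_neg (convex_Icc _ _)
        (fun x _ => (hFD x).continuousAt.continuousWithinAt) fun x hx => ?_
      rw [interior_Icc] at hx
      rw [(hFD x).deriv]
      have := hpos x ⟨hx.1, hx.2.le⟩
      linarith
    exact hmono ⟨le_rfl, by linarith⟩ ⟨by linarith, le_rfl⟩ (by linarith)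

end MaxTerm.PA
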