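import Pool.Agent.MaxTerm.PartA.CritDir
import Pool.Agent.MaxTerm.PartA.ModeE

/-!
# Part A, uniqueness: relation of `th`, `thq` (half-angle normalisation) with `theta`, `thetaQ`
-/

open Filter Topology ComplexConjugate

namespace MaxTerm.PA

theorem theta_sq {q w : ℂ} (hq : ‖q‖ < 1) (hw : ‖w‖ = 1) : theta q (w ^ 2) = w * th q w := by
  have hcw : w * conj w = 1 := by
    rw [Complex.mul_conj, Complex.normSq_eq_norm_sq, hw]; norm_num
  rw [th_theta hq hw, ← mul_assoc, hcw, one_mul]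

theorem u3_summable {r : ℝ} (h0 : 0 ≤ r) (h1 : r < 1) :
    Summable fun n : ℕ => (ee n : ℝ) * r ^ (ee n - 1) := by
  have h := (summable_deriv h0 h1).comp_injective (i := fun n : ℕ => (n : ℤ) + 1)
    (fun a b h => by simpa using h)
  refine h.congr fun n => ?_
  simp only [Function.comp_def, ex_pos]

theorem thetaQ_sq {q w : ℂ} (hq : ‖q‖ < 1) (hw : ‖w‖ = 1) : thetaQ q (w ^ 2) = w * thq q w := by
  have hcw : w * conj w = 1 := by
    rw [Complex.mul_conj, Complex.normSq_eq_norm_sq, hw]; norm_num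
  have hs : Summable fun n : ℤ => ‖(((n * (n - 1) / 2).toNat : ℕ) : ℂ) *
      q ^ ((n * (n - 1) / 2).toNat - 1)‖ := by
    refine (summable_deriv (norm_nonneg q) hq).congr fun n => ?_
    rw [norm_mul, norm_pow, Complex.norm_natCast]
  have h := split_eq hs hw
  simp only [ex_pos, ex_neg'] at h
  have key : thq q w = conj w * thetaQ q (w ^ 2) := by
    rw [thetaQ, ← h, thq, ← Summable.tsum_add]
    · refine tsum_congr fun n => ?_
      ring
    · refine Summable.of_norm ((u3_summable (norm_nonneg q) hq).congr fun n => ?_)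
      rw [norm_mul, norm_mul, norm_pow, norm_pow, hw, one_pow, mul_one, Complex.norm_natCast]
    · refine Summable.of_norm ((u3_summable (norm_nonneg q) hq).congr fun n => ?_)
      rw [norm_mul, norm_mul, norm_pow, norm_pow, RCLike.norm_conj, hw, one_pow, mul_one,
        Complex.norm_natCast]
  rw [key, ← mul_assoc, hcw, one_mul]

theorem u3_ee (n : ℕ) : ee (n + 3) = ee (n + 2) + (n + 3) ∧ n + 3 ≤ ee (n + 2) := by
  have h1 : ee (n + 3) = ee (n + 2) + (n + 2 + 1) := ModeE.ee_succ (n + 2)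
  refine ⟨h1, ?_⟩
  induction n with
  | zero => decide
  | succ n ih =>
    have h2 : ee (n + 1 + 2) = ee (n + 2) + (n + 2 + 1) := ModeE.ee_succ (n + 2)
    have h3 := ih h2
    omega

theorem u3_bound {r : ℝ} (h0 : 0 ≤ r) (h1 : r ≤ 3 / 10) (n : ℕ) :
    (ee (n + 2) : ℝ) * r ^ (ee (n + 2) - 1) ≤ 27 / 100 * (1 / 2) ^ n := by
  induction n with
  | zero =>
    rw [show ee (0 + 2) = 3 from rfl]
    norm_num
    nlinarith
  | succ n ih =>
    obtain ⟨h2, h3⟩ := u3_ee n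
    rw [show n + 1 + 2 = n + 3 from rfl, h2]
    have h4 : ee (n + 2) + (n + 3) - 1 = (ee (n + 2) - 1) + (n + 3) := by omega
    rw [h4, pow_add]
    have h5 : ((ee (n + 2) + (n + 3) : ℕ) : ℝ) ≤ 2 * ee (n + 2) := by
      have : ee (n + 2) + (n + 3) ≤ 2 * ee (n + 2) := by omega
      exact_mod_cast this
    have h6 : r ^ (n + 3) ≤ 1 / 4 := by
      calc r ^ (n + 3) ≤ (3 / 10) ^ (n + 3) := pow_le_pow_left₀ h0 h1 _
        _ ≤ (3 / 10) ^ 3 := pow_le_pow_of_le_one (by norm_num) (by norm_num) (by omega)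
        _ ≤ 1 / 4 := by norm_num
    have h7 : 0 ≤ r ^ (ee (n + 2) - 1) := pow_nonneg h0 _
    calc ((ee (n + 2) + (n + 3) : ℕ) : ℝ) * (r ^ (ee (n + 2) - 1) * r ^ (n + 3))
        ≤ (2 * ee (n + 2)) * (r ^ (ee (n + 2) - 1) * (1 / 4)) := by
          refine mul_le_mul h5 (mul_le_mul_of_nonneg_left h6 h7) (by positivity) (by positivity)
      _ = (ee (n + 2) * r ^ (ee (n + 2) - 1)) * (1 / 2) := by ring
      _ ≤ (27 / 100 * (1 / 2) ^ n) * (1 / 2) := by gcongr
      _ = 27 / 100 * (1 / 2) ^ (n + 1) := by ring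

theorem thq_one_ne {q : ℂ} (hq : ‖q‖ ≤ 3 / 10) : thq q 1 ≠ 0 := by
  have hq1 : ‖q‖ < 1 := hq.trans_lt (by norm_num)
  have hs : Summable fun n : ℕ => (ee n : ℂ) * q ^ (ee n - 1) := by
    refine Summable.of_norm ((u3_summable (norm_nonneg q) hq1).congr fun n => ?_)
    rw [norm_mul, norm_pow, Complex.norm_natCast]
  have h1 : thq q 1 = 2 * ∑' n : ℕ, (ee n : ℂ) * q ^ (ee n - 1) := by
    unfold thq
    rw [← tsum_mul_left]
    refine tsum_congr fun n => ?_
    rw [map_one, one_pow]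
    ring
  have h2 := hs.sum_add_tsum_nat_add 2
  rw [Finset.sum_range_succ, Finset.sum_range_one, show ee 0 = 0 from rfl, show ee 1 = 1 from rfl]
    at h2
  simp only [Nat.cast_zero, zero_mul, Nat.cast_one, Nat.sub_self, pow_zero, mul_one, zero_add] at h2
  have hg : HasSum (fun n : ℕ => (27 / 100 : ℝ) * (1 / 2) ^ n) (27 / 100 * 2) := by
    have := hasSum_geometric_two.mul_left (27 / 100 : ℝ)
    exact this
  have h3 : ‖∑' n : ℕ, (ee (n + 2) : ℂ) * q ^ (ee (n + 2) - 1)‖ ≤ 27 / 100 * 2 := by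
    refine tsum_of_norm_bounded hg fun n => ?_
    rw [norm_mul, norm_pow, Complex.norm_natCast]
    exact u3_bound (norm_nonneg q) hq n
  intro h
  rw [h1, ← h2] at h
  have h4 : (1 : ℂ) = -∑' n : ℕ, (ee (n + 2) : ℂ) * q ^ (ee (n + 2) - 1) := by
    have := (mul_eq_zero.1 h).resolve_left two_ne_zero
    exact eq_neg_of_add_eq_zero_left this
  have h5 : (1 : ℝ) ≤ 27 / 100 * 2 := by
    calc (1 : ℝ) = ‖(1 : ℂ)‖ := norm_one.symm
      _ = ‖∑' n : ℕ, (ee (n + 2) : ℂ) * q ^ (ee (n + 2) - 1)‖ := by rw [h4, norm_neg]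
      _ ≤ 27 / 100 * 2 := h3
  norm_num at h5

theorem th_one_ne {q : ℂ} (hq : ‖q‖ ≤ 3 / 10) : th q 1 ≠ 0 := by
  have hq1 : ‖q‖ < 1 := hq.trans_lt (by norm_num)
  have h1 : th q 1 = 2 * ∑' n : ℕ, q ^ ee n := by
    unfold th half
    simp only [mon_const, map_one, one_pow, mul_one]
    ring
  have hb : ∀ n : ℕ, ‖q ^ ee (n + 1)‖ ≤ (3 / 10) * (1 / 2) ^ n := by
    intro n
    rw [norm_pow]
    have h2 : n + 1 ≤ ee (n + 1) := by
      induction n with
      | zero => decide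
      | succ n ih =>
        have h3 : ee (n + 1 + 1) = ee (n + 1) + (n + 1 + 1) := ModeE.ee_succ (n + 1)
        omega
    calc ‖q‖ ^ ee (n + 1) ≤ (3 / 10) ^ ee (n + 1) := pow_le_pow_left₀ (norm_nonneg _) hq _
      _ ≤ (3 / 10) ^ (n + 1) := pow_le_pow_of_le_one (by norm_num) (by norm_num) h2
      _ = (3 / 10) * (3 / 10) ^ n := by ring
      _ ≤ (3 / 10) * (1 / 2) ^ n :=
        mul_le_mul_of_nonneg_left (pow_le_pow_left₀ (by norm_num) (by norm_num) n) (by norm_num)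
  have hg : HasSum (fun n : ℕ => (3 / 10 : ℝ) * (1 / 2) ^ n) (3 / 10 * 2) :=
    hasSum_geometric_two.mul_left (3 / 10 : ℝ)
  have hs1 : Summable fun n : ℕ => q ^ ee (n + 1) := Summable.of_norm_bounded hg.summable hb
  have hs : Summable fun n : ℕ => q ^ ee n := (summable_nat_add_iff 1).1 hs1
  have h3 : ‖∑' n : ℕ, q ^ ee (n + 1)‖ ≤ 3 / 10 * 2 := tsum_of_norm_bounded hg hb
  have h2 := hs.tsum_eq_zero_add
  rw [show ee 0 = 0 from rfl, pow_zero] at h2
  intro h
  rw [h1, h2] at h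
  have h4 : (1 : ℂ) = -∑' n : ℕ, q ^ ee (n + 1) := by
    have := (mul_eq_zero.1 h).resolve_left two_ne_zero
    exact eq_neg_of_add_eq_zero_left this
  have h5 : (1 : ℝ) ≤ 3 / 10 * 2 := by
    calc (1 : ℝ) = ‖(1 : ℂ)‖ := norm_one.symm
      _ = ‖∑' n : ℕ, q ^ ee (n + 1)‖ := by rw [h4, norm_neg]
      _ ≤ 3 / 10 * 2 := h3
  norm_num at h5

end MaxTerm.PA
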