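import Pool.Agent.MaxTerm.PartA.Expand
import Pool.Agent.MaxTerm.PartA.Bi
import Pool.Agent.MaxTerm.PartA.U1
import Pool.Agent.MaxTerm.PartA.U3
import Pool.Agent.MaxTerm.Danskin

/-!
# Part A: uniqueness of the solution of the stationarity system

`Sys q w l`: the Lagrange equation, the critical point equation and the equality of the two moduli.
If `(qs, w1, lB)` solves it and `thetaMax qs = Kstar`, every solution in the box `PB` equals it.
-/

open Filter Topology ComplexConjugate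

namespace MaxTerm.PA.Uq

theorem npE_nonneg (l : ℕ) : 0 ≤ npE (l + 1) := by
  match l with
  | 0 => linarith [NearTail.np1]
  | 1 => linarith [NearTail.np2]
  | 2 => linarith [NearTail.np3]
  | k + 3 =>
    rw [show k + 3 + 1 = k + 4 from rfl, NearTail.np4]
    positivity

theorem th_conj_arg (q w : ℂ) : th q (conj w) = th q w := by
  unfold th
  rw [Complex.conj_conj, add_comm]

theorem dl_self (q0 p : ℂ) : dl q0 p p = p - q0 := by
  unfold dl
  ring

/-- upper bound of the near functional on the diagonal -/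
theorem Sf_le {q0 w0 p : ℂ} {lB κ m : ℝ} (hlA : 0 ≤ lAc + 8 / 5 * (p - q0).im) (hlB : 0 ≤ lB)
    (h1 : ‖th p 1‖ ^ 2 ≤ m)
    (h2 : ‖th p (w0 * Complex.exp (Complex.I * (tau q0 p p : ℂ)))‖ ^ 2 ≤ m) :
    Sf q0 w0 lB κ p p ≤ (lAc + 8 / 5 * (p - q0).im + lB) * (m - κ) := by
  have e1 : Complex.exp (Complex.I * ((7 / 5 * (0 : ℝ) : ℝ) : ℂ)) = 1 := by simp
  set wB := w0 * Complex.exp (Complex.I * (tau q0 p p : ℂ)) with hwB
  have h3 : ‖th p (conj wB)‖ ^ 2 ≤ m := by rwa [th_conj_arg]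
  have hA : 0 ≤ ∑' l : ℕ, ‖EE (Bst q0 w0 lB) (aR (natoms q0 w0 lB p p)) p (l + 1)‖ ^ 2 /
      npE (l + 1) := tsum_nonneg fun l => div_nonneg (by positivity) (npE_nonneg l)
  have hB : 0 ≤ ∑' l : ℕ, ‖EE (Bst q0 w0 lB) (aL (natoms q0 w0 lB p p)) p (l + 1)‖ ^ 2 /
      npE (l + 1) := tsum_nonneg fun l => div_nonneg (by positivity) (npE_nonneg l)
  have hs : ((natoms q0 w0 lB p p).map fun a => a.l * (‖a.e‖ ^ 2 - κ)).sum ≤
      (lAc + 8 / 5 * (p - q0).im + lB) * (m - κ) := by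
    simp only [natoms, List.map_cons, List.map_nil, List.sum_cons, List.sum_nil, dl_self,
      ← th_eq_Fc, ← hwB, sub_self, Complex.zero_re, Complex.zero_im, e1]
    have g1 := mul_le_mul_of_nonneg_left (sub_le_sub_right h1 κ) hlA
    have g2 := mul_le_mul_of_nonneg_left (sub_le_sub_right h2 κ) hlB
    have g3 := mul_le_mul_of_nonneg_left (sub_le_sub_right h3 κ) hlB
    nlinarith
  have h0 : 2 * PT * ‖p - p‖ ^ 2 = 0 := by simp
  unfold Sf
  rw [h0]
  linarith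

/-- the stationarity system -/
structure Sys (q w : ℂ) (l : ℝ) : Prop where
  eqn : ‖th q 1‖ = ‖th q w‖
  lag : Lag q w l = 0
  crit : (conj (th q w) * (Complex.I * thw q w)).re = 0

/-- at a solution of the system the near functional grows quadratically -/
theorem Sys.growth {q0 w0 p : ℂ} {lB m : ℝ} (hs : Sys q0 w0 lB) (hp : PB q0 w0 lB)
    (hpq : ‖p - q0‖ ≤ 1 / 1000) (h1 : ‖th p 1‖ ^ 2 ≤ m)
    (h2 : ‖th p (w0 * Complex.exp (Complex.I * (tau q0 p p : ℂ)))‖ ^ 2 ≤ m) :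
    ∃ W : ℝ, 0 < W ∧ 4 * ‖p - q0‖ ^ 2 ≤ W * (m - ‖th q0 1‖ ^ 2) := by
  have hre : |(p - q0).re| ≤ 1 / 1000 := (Complex.abs_re_le_norm _).trans hpq
  have him : |(p - q0).im| ≤ 1 / 1000 := (Complex.abs_im_le_norm _).trans hpq
  have hSB : SB q0 p := ⟨hre.trans (by norm_num), him.trans (by norm_num)⟩
  have hS := S_expand hp (‖th q0 1‖ ^ 2) hSB hSB
  have hS1 : S1 q0 w0 lB (‖th q0 1‖ ^ 2) p p = 0 := by
    unfold S1
    rw [← hs.eqn, hs.lag, hs.crit]
    simp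
  rw [hS1] at hS
  have him' := abs_le.1 him
  have hl := abs_le.1 hp.l
  have hA : 0 < lAc + 8 / 5 * (p - q0).im := by
    unfold lAc
    linarith [him'.1]
  have hB : 0 < lB := by
    unfold lBc at hl
    linarith [hl.1]
  have hle := Sf_le (κ := ‖th q0 1‖ ^ 2) hA.le hB.le h1 h2
  refine ⟨_, add_pos hA hB, le_trans ?_ hle⟩
  refine le_trans (le_of_eq ?_) hS
  ring

theorem norm_le_of_near {q : ℂ} (hq : ‖q - qc‖ ≤ 1 / 10000) : ‖q‖ ≤ 3 / 10 := by
  have h1 : ‖qc‖ ≤ 28026 / 100000 := nm_norm_qc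
  calc ‖q‖ = ‖q - qc + qc‖ := by rw [sub_add_cancel]
    _ ≤ ‖q - qc‖ + ‖qc‖ := norm_add_le _ _
    _ ≤ 3 / 10 := by linarith

/-- uniqueness of the solution of the system: every solution in the box equals the one for which
`‖th qs ·‖` has its maximum at `1` -/
theorem sys_unique {qs w1 q0 w0 : ℂ} {lB l0 : ℝ} (hs : Sys qs w1 lB) (hp : PB qs w1 lB)
    (hqs : ‖qs - qc‖ ≤ 2 / 100000) (hK : ∀ w : ℂ, ‖w‖ = 1 → ‖th qs w‖ ≤ ‖th qs 1‖)
    (hs0 : Sys q0 w0 l0) (hp0 : PB q0 w0 l0) (hq0 : ‖q0 - qc‖ ≤ 2 / 100000)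
    {t : ℝ} (ht : |t| ≤ 1 / 2000) (hw : w1 = w0 * Complex.exp (Complex.I * (t : ℂ))) :
    q0 = qs ∧ w0 = w1 ∧ l0 = lB := by
  have hd : ‖qs - q0‖ ≤ 4 / 100000 := by
    calc ‖qs - q0‖ = ‖(qs - qc) - (q0 - qc)‖ := by ring_nf
      _ ≤ ‖qs - qc‖ + ‖q0 - qc‖ := norm_sub_le _ _
      _ ≤ 4 / 100000 := by linarith
  have hexp : ∀ x : ℝ, ‖Complex.exp (Complex.I * (x : ℂ))‖ = 1 := by
    intro x
    rw [mul_comm]
    exact Complex.norm_exp_ofReal_mul_I x
  obtain ⟨W, hW, h1⟩ := hs0.growth hp0 (p := qs) (m := ‖th qs 1‖ ^ 2)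
    (hd.trans (by norm_num)) le_rfl (by
      refine pow_le_pow_left₀ (norm_nonneg _) (hK _ ?_) 2
      rw [norm_mul, hp0.w, hexp, one_mul])
  have htau : |tau qs q0 q0| ≤ 1 / 2000 := by
    unfold tau
    rw [dl_self]
    have e1 : |(q0 - qs).re| ≤ 4 / 100000 := by
      refine (Complex.abs_re_le_norm _).trans ?_
      rwa [norm_sub_rev]
    have e2 : |(q0 - qs).im| ≤ 4 / 100000 := by
      refine (Complex.abs_im_le_norm _).trans ?_
      rwa [norm_sub_rev]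
    rw [abs_le] at e1 e2 ⊢
    constructor <;> linarith [e1.1, e1.2, e2.1, e2.2]
  obtain ⟨W', hW', h2⟩ := hs.growth hp (p := q0) (m := ‖th q0 1‖ ^ 2)
    (by rw [norm_sub_rev]; exact hd.trans (by norm_num)) le_rfl (by
      refine pow_le_pow_left₀ (norm_nonneg _) ?_ 2
      have e3 : w1 * Complex.exp (Complex.I * (tau qs q0 q0 : ℂ)) =
          w0 * Complex.exp (Complex.I * ((t + tau qs q0 q0 : ℝ) : ℂ)) := by
        rw [hw, mul_assoc, ← Complex.exp_add]
        push_cast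
        ring_nf
      rw [e3, hs0.eqn]
      by_cases h0 : t + tau qs q0 q0 = 0
      · rw [h0]
        simp
      · refine (local_max hp0.q hp0.w hp0.w' hs0.crit ?_ h0).1.le
        rw [abs_le] at ht htau ⊢
        constructor <;> linarith [ht.1, ht.2, htau.1, htau.2])
  have hn : 0 ≤ ‖qs - q0‖ ^ 2 := by positivity
  rw [norm_sub_rev] at h2
  have hx1 : 0 ≤ ‖th qs 1‖ ^ 2 - ‖th q0 1‖ ^ 2 := by
    by_contra hneg
    push Not at hneg
    have := mul_neg_of_pos_of_neg hW hneg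
    linarith
  have hx2 : W' * (‖th q0 1‖ ^ 2 - ‖th qs 1‖ ^ 2) ≤ 0 := by
    have : 0 ≤ W' * (‖th qs 1‖ ^ 2 - ‖th q0 1‖ ^ 2) := mul_nonneg hW'.le hx1
    linarith
  have hz : ‖qs - q0‖ ^ 2 = 0 := by linarith
  have hqq : q0 = qs := by
    have : ‖qs - q0‖ = 0 := by
      rwa [sq_eq_zero_iff] at hz
    rw [norm_sub_eq_zero_iff] at this
    exact this.symm
  subst hqq
  have hww : w0 = w1 := by
    by_cases h0 : t = 0
    · rw [hw, h0]; simp
    · refine absurd ?_ (local_max hp0.q hp0.w hp0.w' hs0.crit (ht.trans (by norm_num)) h0).2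
      rw [← hw]
      exact hs.crit
  subst hww
  refine ⟨rfl, rfl, ?_⟩
  have hn0 : ‖q0‖ ≤ 3 / 10 := norm_le_of_near hp0.q
  have hA : conj (th q0 1) * thq q0 1 ≠ 0 :=
    mul_ne_zero ((map_ne_zero _).2 (th_one_ne hn0)) (thq_one_ne hn0)
  have hB : conj (th q0 w0) * thq q0 w0 ≠ 0 := by
    intro hB
    have := hs.lag
    unfold Lag at this
    rw [mul_assoc, mul_assoc, hB, mul_zero, add_zero] at this
    rcases mul_eq_zero.1 this with h | h
    · unfold lAc at h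
      norm_num at h
    · exact hA h
  have h3 := hs.lag
  have h4 := hs0.lag
  unfold Lag at h3 h4
  have h5 : ((l0 - lB : ℝ) : ℂ) * (conj (th q0 w0) * thq q0 w0) = 0 := by
    push_cast
    linear_combination h4 - h3
  rcases mul_eq_zero.1 h5 with h | h
  · have : l0 - lB = 0 := by exact_mod_cast h
    linarith
  · exact absurd h hB

end MaxTerm.PA.Uq
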