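import Pool.Agent.MaxTerm.PartA.U2

/-!
# Part A, uniqueness: the stationarity system in terms of `theta`
-/

open Filter Topology ComplexConjugate

namespace MaxTerm

/-- The stationarity system for the extremal parameter: `|θ_q|` has equal values at `1` and `z`, `z` is a
critical point of `|θ_q|` on the unit circle, and `l` is a Lagrange multiplier. -/
structure Stationary (q z : ℂ) (l : ℝ) : Prop where
  eqn : ‖theta q 1‖ = ‖theta q z‖
  lag : conj (theta q 1) * deriv (fun p => theta p 1) q +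
    (l : ℂ) * (conj (theta q z) * deriv (fun p => theta p z) q) = 0
  crit : deriv (fun t : ℝ => ‖theta q (z * Complex.exp (Complex.I * (t : ℂ)))‖ ^ 2) 0 = 0

/-- the box of the stationarity system -/
structure InBox (q z : ℂ) (l : ℝ) : Prop where
  norm : ‖z‖ = 1
  hq : ‖q - ⟨-0.1912057094, 0.2048974310⟩‖ ≤ 2 / 100000
  hz : ‖z - ⟨0.27608003, 0.96113465⟩‖ ≤ 21 / 100000
  hl : |l - 2.44957| ≤ 2 / 1000

namespace PA.Uq

theorem deriv_theta {q z : ℂ} (hq : ‖q‖ < 1) (hz : ‖z‖ = 1) :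
    deriv (fun p => theta p z) q = thetaQ q z := (hasDerivAt_theta hq hz).deriv

theorem norm_th_one {q : ℂ} (hq : ‖q‖ < 1) : ‖th q 1‖ = ‖theta q 1‖ := by
  have := norm_th hq norm_one
  rwa [one_pow] at this

theorem grad_eq {q w : ℂ} (hq : ‖q‖ < 1) (hw : ‖w‖ = 1) :
    conj (theta q (w ^ 2)) * deriv (fun p => theta p (w ^ 2)) q = conj (th q w) * thq q w := by
  have hw2 : ‖w ^ 2‖ = 1 := by rw [norm_pow, hw, one_pow]
  rw [deriv_theta hq hw2, theta_sq hq hw, thetaQ_sq hq hw, map_mul]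
  have hcw : conj w * w = 1 := by
    rw [mul_comm, Complex.mul_conj, Complex.normSq_eq_norm_sq, hw]; norm_num
  linear_combination (conj (th q w) * thq q w) * hcw

theorem grad_one {q : ℂ} (hq : ‖q‖ < 1) :
    conj (theta q 1) * deriv (fun p => theta p 1) q = conj (th q 1) * thq q 1 := by
  have := grad_eq hq norm_one
  rwa [one_pow] at this

theorem crit_eq {q w : ℂ} (hq : ‖q‖ < 1) (hw : ‖w‖ = 1) :
    deriv (fun t : ℝ => ‖theta q (w ^ 2 * Complex.exp (Complex.I * (t : ℂ)))‖ ^ 2) 0 =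
      (conj (th q w) * (Complex.I * thw q w)).re := by
  set s := Complex.arg w with hs
  have hws : w = Complex.exp (Complex.I * (s : ℂ)) := by
    rw [mul_comm, hs]
    have := Complex.norm_mul_exp_arg_mul_I w
    rw [hw, Complex.ofReal_one, one_mul] at this
    exact this.symm
  have h1 : (fun t : ℝ => ‖theta q (w ^ 2 * Complex.exp (Complex.I * (t : ℂ)))‖ ^ 2) =
      fun t : ℝ => ‖th q (Complex.exp (Complex.I * ((s + t / 2 : ℝ) : ℂ)))‖ ^ 2 := by
    funext t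
    have h2 : ‖Complex.exp (Complex.I * ((s + t / 2 : ℝ) : ℂ))‖ = 1 := by
      rw [mul_comm]; exact Complex.norm_exp_ofReal_mul_I _
    rw [norm_th hq h2]
    congr 3
    rw [hws, ← Complex.exp_nat_mul, ← Complex.exp_nat_mul, ← Complex.exp_add]
    congr 1
    push_cast
    ring
  rw [h1]
  have h3 := hasDerivAt_norm_th hq s
  have h4 : HasDerivAt (fun t : ℝ => s + t / 2) (1 / 2) 0 := by
    simpa using ((hasDerivAt_id (0 : ℝ)).div_const 2).const_add s
  have h3' : HasDerivAt (fun t : ℝ => ‖th q (Complex.exp (Complex.I * (t : ℂ)))‖ ^ 2)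
      (2 * (conj (th q (Complex.exp (Complex.I * (s : ℂ)))) *
        (Complex.I * thw q (Complex.exp (Complex.I * (s : ℂ))))).re) (s + 0 / 2) := by
    rw [zero_div, add_zero]
    exact h3
  have h5 := HasDerivAt.comp (0 : ℝ) (h₂ := fun t : ℝ => ‖th q (Complex.exp (Complex.I * (t : ℂ)))‖ ^ 2)
    (h := fun t : ℝ => s + t / 2) h3' h4
  have h6 := h5.deriv
  simp only [Function.comp_def] at h6
  rw [h6, ← hws]
  ring

theorem stationary_iff {q w : ℂ} {l : ℝ} (hq : ‖q‖ < 1) (hw : ‖w‖ = 1) :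
    Stationary q (w ^ 2) l ↔ Sys q w (lAc * l) := by
  have hA : (lAc : ℂ) ≠ 0 := by
    unfold lAc
    norm_num
  have e1 : Lag q w (lAc * l) = lAc * (conj (theta q 1) * deriv (fun p => theta p 1) q +
    (l : ℂ) * (conj (theta q (w ^ 2)) * deriv (fun p => theta p (w ^ 2)) q)) := by
    rw [grad_eq hq hw, grad_one hq]
    unfold Lag
    push_cast
    ring
  constructor
  · rintro ⟨h1, h2, h3⟩
    refine ⟨?_, ?_, ?_⟩
    · rw [norm_th_one hq, norm_th hq hw, h1]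
    · rw [e1, h2, mul_zero]
    · rw [← crit_eq hq hw, h3]
  · rintro ⟨h1, h2, h3⟩
    refine ⟨?_, ?_, ?_⟩
    · rw [← norm_th_one hq, ← norm_th hq hw, h1]
    · rw [e1] at h2
      exact (mul_eq_zero.1 h2).resolve_left hA
    · rw [crit_eq hq hw, h3]

/-- square root in the box -/
theorem exists_sqrt {z : ℂ} (hz : ‖z‖ = 1) (h : ‖z - ⟨0.27608003, 0.96113465⟩‖ ≤ 21 / 100000) :
    ∃ w : ℂ, ‖w‖ = 1 ∧ w ^ 2 = z ∧ ‖w - w1c‖ ≤ 2 / 10000 := by
  obtain ⟨w, hw⟩ : ∃ w : ℂ, w ^ 2 = z := ⟨z ^ ((2 : ℕ) : ℂ)⁻¹, Complex.cpow_nat_inv_pow z two_ne_zero⟩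
  have hw1 : ‖w‖ = 1 := by
    have h1 : ‖w‖ ^ 2 = 1 := by rw [← norm_pow, hw, hz]
    exact (pow_eq_one_iff_of_nonneg (norm_nonneg w) two_ne_zero).1 h1
  have h2 : ‖w - w1c‖ * ‖w + w1c‖ ≤ 211 / 1000000 := by
    have e1 : (w - w1c) * (w + w1c) = (z - ⟨0.27608003, 0.96113465⟩) +
        ((⟨0.27608003, 0.96113465⟩ : ℂ) - w1c ^ 2) := by
      rw [← hw]; ring
    have e2 : ‖(⟨0.27608003, 0.96113465⟩ : ℂ) - w1c ^ 2‖ ≤ 1 / 1000000 := by
      rw [nm_w2]
      refine (Complex.norm_le_abs_re_add_abs_im _).trans ?_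
      rw [Complex.sub_re, Complex.sub_im]
      norm_num [abs_le]
    rw [← norm_mul, e1]
    refine (norm_add_le _ _).trans ?_
    linarith
  have h3 : ‖w - w1c‖ ^ 2 + ‖w + w1c‖ ^ 2 = 2 * (1 + ‖w1c‖ ^ 2) := by
    have := parallelogram_law_with_norm ℂ w w1c
    rw [hw1] at this
    linarith [this]
  have h4 : 99 / 100 ≤ ‖w1c‖ ^ 2 := by
    rw [← Complex.normSq_eq_norm_sq, Complex.normSq_apply]
    unfold w1c
    norm_num
  rcases le_total ‖w - w1c‖ ‖w + w1c‖ with h5 | h5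
  · refine ⟨w, hw1, hw, ?_⟩
    have h6 : 14 / 10 ≤ ‖w + w1c‖ := by
      by_contra hh
      push Not at hh
      nlinarith [norm_nonneg (w - w1c), norm_nonneg (w + w1c)]
    nlinarith [norm_nonneg (w - w1c), norm_nonneg (w + w1c)]
  · refine ⟨-w, by rw [norm_neg, hw1], by rw [neg_sq, hw], ?_⟩
    have h6 : 14 / 10 ≤ ‖w - w1c‖ := by
      by_contra hh
      push Not at hh
      nlinarith [norm_nonneg (w - w1c), norm_nonneg (w + w1c)]
    have h7 : ‖-w - w1c‖ = ‖w + w1c‖ := by rw [← norm_neg]; congr 1; ring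
    rw [h7]
    nlinarith [norm_nonneg (w - w1c), norm_nonneg (w + w1c)]

theorem exists_angle {w0 w1 : ℂ} (h0 : ‖w0‖ = 1) (h1 : ‖w1‖ = 1) (h : ‖w1 - w0‖ ≤ 3 / 10000) :
    ∃ t : ℝ, |t| ≤ 1 / 2000 ∧ w1 = w0 * Complex.exp (Complex.I * (t : ℂ)) := by
  have hw0 : w0 ≠ 0 := by
    intro h; rw [h, norm_zero] at h0; exact zero_ne_one h0
  have hw1 : w1 ≠ 0 := by
    intro h; rw [h, norm_zero] at h1; exact zero_ne_one h1
  refine ⟨Complex.arg (w1 / w0), ?_, ?_⟩
  · rw [← Complex.angle_eq_abs_arg hw1 hw0]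
    refine (Complex.angle_le_mul_norm_sub h1 h0).trans ?_
    have := Real.pi_lt_d2
    have := Real.pi_pos
    nlinarith [norm_nonneg (w1 - w0)]
  · have h2 := Complex.norm_mul_exp_arg_mul_I (w1 / w0)
    rw [norm_div, h0, h1, div_one, Complex.ofReal_one, one_mul] at h2
    rw [mul_comm Complex.I, h2]
    field_simp

end PA.Uq

end MaxTerm
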