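import Pool.Agent.MaxTerm.PartA.U4
import Pool.Agent.MaxTerm.PartA.Loc

/-!
# Part A, uniqueness: the minimiser of `thetaMax` is unique up to conjugation and is the unique solution
of the stationarity system in an explicit box
-/

open Filter Topology ComplexConjugate

namespace MaxTerm

namespace PA.Uq

theorem conj_theta {q z : ℂ} (hz : ‖z‖ = 1) : theta (conj q) z = conj (theta q (conj z)) := by
  unfold theta
  rw [Complex.conj_tsum]
  refine tsum_congr fun n => ?_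
  rw [map_mul, map_pow, map_zpow₀, Complex.conj_conj]

theorem thetaMax_conj (q : ℂ) : thetaMax (conj q) = thetaMax q := by
  unfold thetaMax
  congr 1
  ext x
  constructor
  · rintro ⟨z, hz, rfl⟩
    have hz1 : ‖z‖ = 1 := mem_sphere_zero_iff_norm.1 hz
    refine ⟨conj z, mem_sphere_zero_iff_norm.2 (by rw [RCLike.norm_conj, hz1]), ?_⟩
    dsimp only
    rw [conj_theta hz1, RCLike.norm_conj]
  · rintro ⟨z, hz, rfl⟩
    have hz1 : ‖z‖ = 1 := mem_sphere_zero_iff_norm.1 hz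
    refine ⟨conj z, mem_sphere_zero_iff_norm.2 (by rw [RCLike.norm_conj, hz1]), ?_⟩
    dsimp only
    rw [conj_theta (by rw [RCLike.norm_conj, hz1]), RCLike.norm_conj, Complex.conj_conj]

theorem crit_toSys {q w : ℂ} {l : ℝ} (h : Crit q w l) : Sys q w l :=
  ⟨by rw [h.KA, h.KB], h.lag, h.crit⟩

theorem crit_toPB {q w : ℂ} {l : ℝ} (h : Crit q w l) : PB q w l :=
  ⟨h.q.trans (by norm_num), h.w, h.w'.trans (by norm_num), h.l.trans (by norm_num)⟩

theorem norm_lt_one_of_near {q : ℂ} (hq : ‖q - qc‖ ≤ 2 / 100000) : ‖q‖ < 1 :=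
  (norm_le_of_near (hq.trans (by norm_num))).trans_lt (by norm_num)

theorem norm_w1c_sq_sub : ‖w1c ^ 2 - (⟨0.27608003, 0.96113465⟩ : ℂ)‖ ≤ 1 / 1000000 := by
  rw [nm_w2]
  refine (Complex.norm_le_abs_re_add_abs_im _).trans ?_
  rw [Complex.sub_re, Complex.sub_im]
  norm_num [abs_le]

theorem crit_inBox {q w : ℂ} {l : ℝ} (h : Crit q w l) : InBox q (w ^ 2) (l / lAc) := by
  refine ⟨by rw [norm_pow, h.w, one_pow], h.q, ?_, ?_⟩
  · have e : w ^ 2 - (⟨0.27608003, 0.96113465⟩ : ℂ) =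
        (w - w1c) * (w + w1c) + (w1c ^ 2 - (⟨0.27608003, 0.96113465⟩ : ℂ)) := by ring
    have h1 : ‖w + w1c‖ ≤ 2 := by
      refine (norm_add_le _ _).trans ?_
      have := nm_norm_w1c
      rw [h.w]
      linarith
    rw [e]
    refine (norm_add_le _ _).trans ?_
    rw [norm_mul]
    have h2 := norm_w1c_sq_sub
    have h3 := h.w'
    have h4 := mul_le_mul h3 h1 (norm_nonneg _) (by norm_num)
    linarith
  · have h1 := abs_le.1 h.l
    unfold lBc at h1
    unfold lAc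
    rw [abs_le]
    constructor <;> linarith [h1.1, h1.2]

theorem inBox_pb {q z w : ℂ} {l : ℝ} (h : InBox q z l) (hw : ‖w‖ = 1) (hw' : ‖w - w1c‖ ≤ 2 / 10000) :
    PB q w (lAc * l) := by
  refine ⟨h.hq.trans (by norm_num), hw, hw', ?_⟩
  have h1 := abs_le.1 h.hl
  unfold lBc lAc
  rw [abs_le]
  constructor <;> linarith [h1.1, h1.2]


theorem main_unique : ∃ (q z : ℂ) (l : ℝ), InBox q z l ∧ Stationary q z l ∧ ‖theta q 1‖ = Kstar ∧
    thetaMax q = Kstar ∧
    (∀ (q' z' : ℂ) (l' : ℝ), InBox q' z' l' → Stationary q' z' l' → q' = q ∧ z' = z ∧ l' = l) ∧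
    (∀ p : ℂ, ‖p‖ < 1 → (thetaMax p = Kstar ↔ p = q ∨ p = conj q)) := by
  obtain ⟨qs, hq1, hK, hn⟩ := exists_near_min
  have hl := loc hq1 hK hn
  obtain ⟨w1, lB, hc⟩ := exists_crit_of hl hK
  have hA : (lAc : ℝ) ≠ 0 := by
    unfold lAc
    norm_num
  have hmax : ∀ w : ℂ, ‖w‖ = 1 → ‖th qs w‖ ≤ ‖th qs 1‖ := by
    intro w hw
    rw [hc.KA, norm_th hq1 hw, ← hK]
    exact norm_theta_le hq1 (by rw [norm_pow, hw, one_pow])
  refine ⟨qs, w1 ^ 2, lB / lAc, crit_inBox hc, ?_, ?_, hK, ?_, ?_⟩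
  · rw [stationary_iff hq1 hc.w, mul_div_cancel₀ _ hA]
    exact crit_toSys hc
  · rw [← norm_th_one hq1, hc.KA]
  · intro q' z' l' hb hs
    obtain ⟨w0, hw0, rfl, hw0'⟩ := exists_sqrt hb.norm hb.hz
    have hq' : ‖q'‖ < 1 := norm_lt_one_of_near hb.hq
    have hsys := (stationary_iff hq' hw0).1 hs
    have hd : ‖w1 - w0‖ ≤ 3 / 10000 := by
      calc ‖w1 - w0‖ = ‖(w1 - w1c) - (w0 - w1c)‖ := by ring_nf
        _ ≤ ‖w1 - w1c‖ + ‖w0 - w1c‖ := norm_sub_le _ _
        _ ≤ 3 / 10000 := by linarith [hc.w']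
    obtain ⟨t, ht, hw⟩ := exists_angle hw0 hc.w hd
    obtain ⟨h1, h2, h3⟩ := sys_unique (crit_toSys hc) (crit_toPB hc) hl hmax hsys (inBox_pb hb hw0 hw0') hb.hq ht hw
    refine ⟨h1, by rw [h2], ?_⟩
    rw [← h3, mul_div_cancel_left₀ _ hA]
  · intro p hp
    have key : ∀ p : ℂ, ‖p‖ < 1 → thetaMax p = Kstar → Near p → p = qs := by
      intro p hp hKp hnp
      have hlp := loc hp hKp hnp
      obtain ⟨w0, l0, hc0⟩ := exists_crit_of hlp hKp
      have hd : ‖w1 - w0‖ ≤ 3 / 10000 := by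
        calc ‖w1 - w0‖ = ‖(w1 - w1c) - (w0 - w1c)‖ := by ring_nf
          _ ≤ ‖w1 - w1c‖ + ‖w0 - w1c‖ := norm_sub_le _ _
          _ ≤ 3 / 10000 := by linarith [hc.w', hc0.w']
      obtain ⟨t, ht, hw⟩ := exists_angle hc0.w hc.w hd
      exact (sys_unique (crit_toSys hc) (crit_toPB hc) hl hmax (crit_toSys hc0) (crit_toPB hc0) hlp ht hw).1
    constructor
    · intro hKp
      rcases near_of_min hp hKp with h | h
      · exact Or.inl (key p hp hKp h)
      · right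
        have := key (conj p) (by rwa [RCLike.norm_conj]) (by rwa [thetaMax_conj]) h
        rw [← this, Complex.conj_conj]
    · rintro (rfl | rfl)
      · exact hK
      · rw [thetaMax_conj, hK]

end PA.Uq

end MaxTerm
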